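import Mathlib

/-!
# Finite Ramsey theorem in terms of strictly increasing sequences
-/

set_option autoImplicit false

namespace CodegDens

/-- Step: the colour depends only on the first index, for first indices below `l`. -/
theorem ramsey_first (K : Type) (n : ℕ)
    (ih : ∀ m : ℕ, ∃ N : ℕ, ∀ f : (ℕ → ℕ) → K,
      (∀ s s' : ℕ → ℕ, (∀ i, i < n → s i = s' i) → f s = f s') →
      ∃ J : ℕ → ℕ, StrictMono J ∧ (∀ i, i < m → J i < N) ∧
        ∀ s s' : ℕ → ℕ, StrictMono s → (∀ i, i < n → s i < m) →
          StrictMono s' → (∀ i, i < n → s' i < m) →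
          f (fun i => J (s i)) = f (fun i => J (s' i))) (m' : ℕ) :
    ∀ l : ℕ, ∃ N : ℕ, ∀ f : (ℕ → ℕ) → K,
      (∀ s s' : ℕ → ℕ, (∀ i, i < n + 1 → s i = s' i) → f s = f s') →
      ∃ J : ℕ → ℕ, StrictMono J ∧ (∀ i, i < l + m' → J i < N) ∧
        ∀ s s' : ℕ → ℕ, StrictMono s → (∀ i, i < n + 1 → s i < l + m') →
          StrictMono s' → (∀ i, i < n + 1 → s' i < l + m') → s 0 = s' 0 → s 0 < l →
          f (fun i => J (s i)) = f (fun i => J (s' i)) := by
  intro l
  induction l with
  | zero =>
    refine ⟨m', fun f _ => ⟨id, strictMono_id, fun i hi => by simpa using hi, ?_⟩⟩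
    intro s s' _ _ _ _ _ h
    exact absurd h (Nat.not_lt_zero _)
  | succ l ihl =>
    obtain ⟨M1, hM1⟩ := ihl
    obtain ⟨N1, hN1⟩ := ih M1
    refine ⟨N1 + 1, fun f hf => ?_⟩
    obtain ⟨J1, hJ1, hJ1b, hJ1c⟩ := hN1 (fun s => f (fun i => if i = 0 then 0 else s (i - 1) + 1)) (by
      intro s s' h
      refine hf _ _ fun i hi => ?_
      by_cases h0 : i = 0
      · simp [h0]
      · simp only [if_neg h0]
        rw [h (i - 1) (by omega)])
    obtain ⟨J2, hJ2, hJ2b, hJ2c⟩ := hM1 (fun s => f (fun i => J1 (s i) + 1)) (by
      intro s s' h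
      refine hf _ _ fun i hi => ?_
      rw [h i hi])
    refine ⟨fun i => if i = 0 then 0 else J1 (J2 (i - 1)) + 1, ?_, ?_, ?_⟩
    · intro a b hab
      have hb : b ≠ 0 := by omega
      simp only [if_neg hb]
      by_cases ha : a = 0
      · simp [ha]
      · simp only [if_neg ha]
        have h1 : a - 1 < b - 1 := by omega
        have := hJ1 (hJ2 h1)
        omega
    · intro i hi
      by_cases h0 : i = 0
      · simp [h0]
      · simp only [if_neg h0]
        have := hJ1b _ (hJ2b (i - 1) (by omega))
        omega
    · intro s s' hs hsb hs' hsb' h0 hl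
      by_cases hz : s 0 = 0
      · -- the first index is zero
        have hz' : s' 0 = 0 := by omega
        have key : ∀ t : ℕ → ℕ, StrictMono t → (∀ i, i < n + 1 → t i < l + 1 + m') → t 0 = 0 →
            (fun i => if t i = 0 then 0 else J1 (J2 (t i - 1)) + 1) =
              (fun i => if i = 0 then 0 else J1 (J2 (t (i - 1 + 1) - 1)) + 1) := by
          intro t ht _ ht0
          funext i
          by_cases hi : i = 0
          · simp [hi, ht0]
          · have h1 : 0 < t i := by
              have := ht (Nat.pos_of_ne_zero hi)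
              omega
            rw [if_neg (by omega), if_neg hi]
            have h2 : i - 1 + 1 = i := by omega
            rw [h2]
        have hmono : ∀ t : ℕ → ℕ, StrictMono t → t 0 = 0 →
            StrictMono (fun i => J2 (t (i + 1) - 1)) := by
          intro t ht ht0 a b hab
          apply hJ2
          have h1 : t (a + 1) < t (b + 1) := ht (by omega)
          have h2 : t 0 < t (a + 1) := ht (by omega)
          show t (a + 1) - 1 < t (b + 1) - 1
          omega
        have hbd : ∀ t : ℕ → ℕ, StrictMono t → (∀ i, i < n + 1 → t i < l + 1 + m') →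
            t 0 = 0 → ∀ i, i < n → J2 (t (i + 1) - 1) < M1 := by
          intro t ht htb ht0 i hi
          apply hJ2b
          have h1 := htb (i + 1) (by omega)
          have h2 : t 0 < t (i + 1) := ht (by omega)
          omega
        have := hJ1c (fun i => J2 (s (i + 1) - 1)) (fun i => J2 (s' (i + 1) - 1))
          (hmono s hs hz) (hbd s hs hsb hz) (hmono s' hs' hz') (hbd s' hs' hsb' hz')
        rw [key s hs hsb hz, key s' hs' hsb' hz']
        exact this
      · -- the first index is positive
        have hz' : s' 0 ≠ 0 := by omega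
        have key : ∀ t : ℕ → ℕ, StrictMono t → t 0 ≠ 0 →
            (fun i => if t i = 0 then 0 else J1 (J2 (t i - 1)) + 1) =
              (fun i => J1 (J2 (t i - 1)) + 1) := by
          intro t ht ht0
          funext i
          have h1 : t 0 ≤ t i := ht.monotone (Nat.zero_le _)
          rw [if_neg (by omega)]
        have hmono : ∀ t : ℕ → ℕ, StrictMono t → t 0 ≠ 0 → StrictMono (fun i => t i - 1) := by
          intro t ht ht0 a b hab
          have h1 := ht hab
          have h2 : t 0 ≤ t a := ht.monotone (Nat.zero_le _)
          show t a - 1 < t b - 1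
          omega
        have := hJ2c (fun i => s i - 1) (fun i => s' i - 1) (hmono s hs hz)
          (fun i hi => by have := hsb i hi; have h2 : s 0 ≤ s i := hs.monotone (Nat.zero_le _)
                          show s i - 1 < l + m'; omega)
          (hmono s' hs' hz')
          (fun i hi => by have := hsb' i hi; have h2 : s' 0 ≤ s' i := hs'.monotone (Nat.zero_le _)
                          show s' i - 1 < l + m'; omega)
          (by show s 0 - 1 = s' 0 - 1; omega) (by show s 0 - 1 < l; omega)
        rw [key s hs hz, key s' hs' hz']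
        exact this

/-- A finite set of naturals below `l` with at least `m` elements contains the first `m` values of
a strictly increasing sequence. -/
theorem exists_strictMono_enum (l m : ℕ) (I : Finset ℕ) (hI : I ⊆ Finset.range l)
    (hm : m ≤ I.card) : ∃ e : ℕ → ℕ, StrictMono e ∧ ∀ i, i < m → e i ∈ I := by
  obtain ⟨I', hI', hc⟩ := Finset.exists_subset_card_eq hm
  refine ⟨fun i => if h : i < m then I'.orderEmbOfFin hc ⟨i, h⟩ else l + i, ?_, ?_⟩
  · intro a b hab
    by_cases hb : b < m
    · have ha : a < m := hab.trans hb
      simp only [dif_pos ha, dif_pos hb]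
      exact (I'.orderEmbOfFin hc).strictMono (by simpa using hab)
    · simp only [dif_neg hb]
      by_cases ha : a < m
      · simp only [dif_pos ha]
        have h1 := Finset.orderEmbOfFin_mem I' hc ⟨a, ha⟩
        have h2 := Finset.mem_range.1 (hI (hI' h1))
        omega
      · simp only [dif_neg ha]
        omega
  · intro i hi
    simp only [dif_pos hi]
    exact hI' (Finset.orderEmbOfFin_mem I' hc ⟨i, hi⟩)

/-- Finite Ramsey theorem for `n`-subsets, in terms of strictly increasing sequences. -/
theorem ramsey (K : Type) [Finite K] (n m : ℕ) : ∃ N : ℕ, ∀ f : (ℕ → ℕ) → K,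
    (∀ s s' : ℕ → ℕ, (∀ i, i < n → s i = s' i) → f s = f s') →
    ∃ J : ℕ → ℕ, StrictMono J ∧ (∀ i, i < m → J i < N) ∧
      ∀ s s' : ℕ → ℕ, StrictMono s → (∀ i, i < n → s i < m) →
        StrictMono s' → (∀ i, i < n → s' i < m) →
        f (fun i => J (s i)) = f (fun i => J (s' i)) := by
  classical
  induction n generalizing m with
  | zero =>
    refine ⟨m, fun f hf => ⟨id, strictMono_id, fun i hi => hi, ?_⟩⟩
    intro s s' _ _ _ _
    exact hf _ _ fun i hi => absurd hi (Nat.not_lt_zero _)
  | succ n ih =>
    have : Fintype K := Fintype.ofFinite K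
    obtain ⟨N, hN⟩ := ramsey_first K n ih (n + 1) (Fintype.card K * m)
    refine ⟨N, fun f hf => ?_⟩
    obtain ⟨J, hJ, hJb, hJc⟩ := hN f hf
    set l := Fintype.card K * m with hl
    -- the colour of the first index
    set col : ℕ → K := fun i => f (fun j => J (i + j)) with hcol
    have hcolc : ∀ s : ℕ → ℕ, StrictMono s → (∀ i, i < n + 1 → s i < l + (n + 1)) → s 0 < l →
        f (fun i => J (s i)) = col (s 0) := by
      intro s hs hsb h0
      refine hJc s (fun j => s 0 + j) hs hsb (fun a b hab => by simpa using hab) ?_ rfl h0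
      intro i hi
      show s 0 + i < l + (n + 1)
      omega
    obtain ⟨y, -, hy⟩ := Finset.exists_le_card_fiber_of_mul_le_card_of_maps_to
      (s := Finset.range l) (t := (Finset.univ : Finset K)) (f := col) (n := m)
      (fun _ _ => Finset.mem_univ _) ⟨f id, Finset.mem_univ _⟩ (by
        rw [Finset.card_univ, Finset.card_range])
    obtain ⟨e, he, heI⟩ := exists_strictMono_enum l m _ (Finset.filter_subset _ _) hy
    refine ⟨fun i => J (e i), hJ.comp he, ?_, ?_⟩
    · intro i hi
      have h1 := heI i hi
      rw [Finset.mem_filter, Finset.mem_range] at h1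
      exact hJb _ (by omega)
    · have hfin : ∀ s : ℕ → ℕ, StrictMono s → (∀ i, i < n + 1 → s i < m) →
          f (fun i => J (e (s i))) = y := by
        intro s hs hsb
        have hb : ∀ i, i < n + 1 → e (s i) < l := by
          intro i hi
          have h1 := heI (s i) (hsb i hi)
          rw [Finset.mem_filter, Finset.mem_range] at h1
          exact h1.1
        rw [hcolc (fun i => e (s i)) (he.comp hs) (fun i hi => by
          have := hb i hi
          show e (s i) < l + (n + 1)
          omega) (hb 0 (by omega))]
        have h1 := heI (s 0) (hsb 0 (by omega))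
        rw [Finset.mem_filter] at h1
        exact h1.2
      intro s s' hs hsb hs' hsb'
      rw [hfin s hs hsb, hfin s' hs' hsb']

end CodegDens
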