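import Pool.Agent.Lib.MP_81e58e_co.ChainLemmas

/-!
# The value `0` and the step `a ↦ 1 / (2 - a)` (problem MP_81e58e_co)
-/

namespace CodegDens

open Finset Filter Topology

variable {k : ℕ} {ι : Type} {V : ι → Type} {C : Type}

/-- an enumeration of a finite set -/
theorem bj_enum {W : Type} {n : ℕ} (S : Finset W) (h : S.card = n) :
    ∃ s : Fin n ↪ W, Finset.univ.map s = S := by
  classical
  let e := S.equivFinOfCardEq h
  refine ⟨e.symm.toEmbedding.trans (Function.Embedding.subtype _), ?_⟩
  ext x
  rw [Finset.mem_map]
  constructor
  · rintro ⟨j, _, rfl⟩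
    exact (e.symm j).2
  · intro hx
    refine ⟨e ⟨x, hx⟩, Finset.mem_univ _, ?_⟩
    show ((e.symm (e ⟨x, hx⟩) : S) : W) = x
    rw [Equiv.symm_apply_apply]

/-- a product edge from `k - 1` totally distinct points and one further point -/
theorem bj_prodEdge (G : ∀ i, KGraph k (V i)) {n : ℕ} (s : ∀ i, Fin n ↪ V i) (v : ∀ i, V i)
    (hv : ∀ i, (G i).Adj (v i) (Finset.univ.map (s i))) :
    ProdEdge G (v ::ₘ (Finset.univ : Finset (Fin n)).val.map (fun j i => s i j)) := by
  intro i
  obtain ⟨hn, he⟩ := hv i
  refine ⟨_, he, ?_⟩
  rw [Multiset.map_cons, Multiset.map_map]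
  rfl

theorem reach_zero {k : ℕ} (hk : 2 ≤ k) : Reach k 0 := by
  classical
  refine ⟨Unit, inferInstance, ∅, ⟨fun _ => 1, fun _ => zero_le_one, by simp, ?_⟩, k, 1, ?_⟩
  · intro s _
    simp
  · intro ι _ _ V G X hX f hf
    have h1 : ∀ i, ∃ s : Fin (k - 1) ↪ V i, ∃ v : V i, (∀ j, s j ∈ X i 1) ∧ v ∈ X i 1 ∧
        (G i).Adj v (Finset.univ.map s) := by
      intro i
      obtain ⟨S, hS, hSc⟩ := Finset.exists_subset_card_eq
        (show k - 1 ≤ (X i 0).card from le_trans (Nat.sub_le _ _) (hX i).card)
      obtain ⟨s, hs⟩ := bj_enum S hSc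
      obtain ⟨Y, hY, hYc, hYv⟩ := (hX i).single le_rfl (show 0 < 1 by norm_num) hS (by omega)
      obtain ⟨v, hv⟩ : Y.Nonempty := by
        rw [← Finset.card_pos]; omega
      refine ⟨s, v, ?_, hY hv, ?_⟩
      · intro j
        have hj : s j ∈ S := by
          rw [← hs]
          exact Finset.mem_map_of_mem s (Finset.mem_univ j)
        exact (hX i).mono 0 (by norm_num) (hS hj)
      · rw [hs]
        exact hYv v hv
    choose s v hs hv hadj using h1
    have he := hf _ (bj_prodEdge G s v hadj) (by
      intro x hx i
      rw [Multiset.mem_cons] at hx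
      rcases hx with rfl | hx
      · exact hv i
      · rw [Multiset.mem_map] at hx
        obtain ⟨j, _, rfl⟩ := hx
        exact hs i j)
    exact he

/-- the pattern with one new class `none` -/
def joinPat (P : Set (Multiset C)) : Set (Multiset (Option C)) :=
  {e | (∃ e' ∈ P, e = e'.map some) ∨ (none ∈ e ∧ ∃ x, some x ∈ e)}

theorem bj_finish (P : Set (Multiset C)) [Nonempty C] (G : ∀ i, KGraph k (V i))
    (X X' : ∀ i, Finset (V i)) (f : (∀ i, V i) → Option C) (hf : ProdHomOn G X f (joinPat P))
    (hne : ∀ x, (∀ i, x i ∈ X' i) → f x ≠ none) (hsub : ∀ i, X' i ⊆ X i) :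
    ∃ f' : (∀ i, V i) → C, ProdHomOn G X' f' P := by
  classical
  refine ⟨fun x => (f x).getD (Classical.arbitrary C), ?_⟩
  intro e he hx
  have h1 := hf e he (fun x hxe i => hsub i (hx x hxe i))
  have h2 : e.map f = (e.map (fun x => (f x).getD (Classical.arbitrary C))).map some := by
    rw [Multiset.map_map]
    apply Multiset.map_congr rfl
    intro x hxe
    have h3 := hne x (hx x hxe)
    obtain ⟨c, hc⟩ := Option.ne_none_iff_exists'.mp h3
    simp [hc]
  rcases h1 with ⟨e', he', h4⟩ | ⟨h4, _⟩
  · rw [h2] at h4
    have h5 := Multiset.map_injective (Option.some_injective C) h4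
    rw [h5]
    exact he'
  · exfalso
    rw [h2, Multiset.mem_map] at h4
    obtain ⟨c, _, hc⟩ := h4
    exact absurd hc (by simp)

/-- the chain inside the neighbourhood of a set of `k - 1` vertices -/
theorem bj_link {W : Type} {G : KGraph k W} {a : ℝ} (ha1 : a < 1) {M M' L : ℕ}
    {X : ℕ → Finset W} (hM : M ≤ M') (h : Chain G (1 / (2 - a)) M' (2 * L + 1) X)
    (S₀ : Finset W) (hS : S₀ ⊆ X L) (hSk : S₀.card + 1 = k) :
    Chain G a M L (fun j => open Classical in (X (L + 1 + j)).filter (fun v => G.Adj v S₀)) := by
  classical
  have hb : 0 < 1 / (2 - a) := by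
    have : 0 < 2 - a := by linarith
    positivity
  constructor
  · intro t ht
    exact Finset.filter_subset_filter _ (h.mono (L + 1 + t) (by omega))
  · obtain ⟨Y, hY, hYc, hYv⟩ := h.single hb.le (show L < 2 * L + 1 by omega) hS hSk
    refine (hM.trans hYc).trans (Finset.card_le_card ?_)
    intro v hv
    exact Finset.mem_filter.2 ⟨hY hv, hYv v hv⟩
  · intro t ht w hw hpos
    set B : Finset W := (X (L + 1 + t)).filter (fun v => G.Adj v S₀) with hB
    set W₀ : ℝ := ∑ S ∈ B.powersetCard (k - 1), w S with hW₀
    set A : Finset W := X (L + 1 + t) with hA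
    have hBA : B ⊆ A := Finset.filter_subset _ _
    have hSA : S₀ ⊆ A := hS.trans (h.mono_le (by omega) (by omega))
    have hSmem : S₀ ∈ A.powersetCard (k - 1) := by
      rw [Finset.mem_powersetCard]
      exact ⟨hSA, by omega⟩
    have hc : 0 ≤ (1 - a) * W₀ := mul_nonneg (by linarith) hpos.le
    have key := h.rich (L + 1 + t) (by omega)
      (fun S => (if S ⊆ B then w S else 0) + (if S = S₀ then (1 - a) * W₀ else 0))
      (by
        intro S
        apply add_nonneg
        · split_ifs
          · exact hw S
          · exact le_rfl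
        · split_ifs
          · exact hc
          · exact le_rfl)
    have htot : ∑ S ∈ A.powersetCard (k - 1),
        ((if S ⊆ B then w S else 0) + (if S = S₀ then (1 - a) * W₀ else 0)) = (2 - a) * W₀ := by
      rw [Finset.sum_add_distrib, sum_powersetCard_restrict hBA (k - 1) w,
        Finset.sum_ite_eq' _ S₀, if_pos hSmem]
      ring
    rw [htot] at key
    obtain ⟨Y, hY, hYc, hYv⟩ := key (mul_pos (by linarith) hpos)
    have hval : ∀ v ∈ Y, G.Adj v S₀ ∧ a * W₀ <
        ∑ S ∈ B.powersetCard (k - 1), (if G.Adj v S then w S else 0) := by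
      intro v hv
      have h1 := hYv v hv
      have h2 : 1 / (2 - a) * ((2 - a) * W₀) = W₀ := by
        have : (2 - a) ≠ 0 := by linarith
        field_simp
      rw [h2] at h1
      have h3 : ∑ S ∈ A.powersetCard (k - 1), (if G.Adj v S then
          ((if S ⊆ B then w S else 0) + (if S = S₀ then (1 - a) * W₀ else 0)) else 0) =
          (∑ S ∈ B.powersetCard (k - 1), (if G.Adj v S then w S else 0)) +
            (if G.Adj v S₀ then (1 - a) * W₀ else 0) := by
        rw [← sum_powersetCard_restrict hBA (k - 1) (fun S => if G.Adj v S then w S else 0)]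
        have h4 : (if G.Adj v S₀ then (1 - a) * W₀ else 0) =
            ∑ S ∈ A.powersetCard (k - 1),
              (if S = S₀ then (if G.Adj v S then (1 - a) * W₀ else 0) else 0) := by
          rw [Finset.sum_ite_eq' _ S₀, if_pos hSmem]
        rw [h4, ← Finset.sum_add_distrib]
        apply Finset.sum_congr rfl
        intro S _
        by_cases h5 : G.Adj v S
        · simp only [h5, if_true]
        · simp only [h5, if_false]
          simp
      rw [h3] at h1
      have h6 : ∑ S ∈ B.powersetCard (k - 1), (if G.Adj v S then w S else 0) ≤ W₀ := by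
        apply Finset.sum_le_sum
        intro S _
        split_ifs
        · exact le_rfl
        · exact hw S
      by_cases h7 : G.Adj v S₀
      · refine ⟨h7, ?_⟩
        rw [if_pos h7] at h1
        linarith
      · exfalso
        rw [if_neg h7] at h1
        linarith
    refine ⟨Y, ?_, hM.trans hYc, fun v hv => (hval v hv).2⟩
    intro v hv
    exact Finset.mem_filter.2 ⟨hY hv, (hval v hv).1⟩

/-- `r` totally distinct points of the box with value `none` -/
def NoneFam (X : ∀ i, Finset (V i)) (f : (∀ i, V i) → Option C) (r : ℕ) : Prop :=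
  ∃ p : Fin r → ∀ i, V i, (∀ i, Function.Injective (fun j => p j i)) ∧
    ∀ j, (∀ i, p j i ∈ X i) ∧ f (p j) = none

theorem reach_join {k : ℕ} (hk : 2 ≤ k) (a : ℝ) (ha : 0 ≤ a) (ha1 : a < 1) (h : Reach k a) :
    Reach k (1 / (2 - a)) := by
  classical
  obtain ⟨C, hC, P, ⟨wt, hwt0, hwt1, hwt⟩, M, L, hI⟩ := h
  have h2a : 0 < 2 - a := by linarith
  have hb0 : 0 < 1 / (2 - a) := by positivity
  have hb1 : 1 / (2 - a) ≤ 1 := by
    rw [div_le_one h2a]; linarith
  have hab : a ≤ 1 / (2 - a) := by
    rw [le_div_iff₀ h2a]
    nlinarith [sq_nonneg (1 - a)]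
  have hCne : Nonempty C := by
    by_contra hcon
    rw [not_nonempty_iff] at hcon
    rw [Finset.univ_eq_empty, Finset.sum_empty] at hwt1
    exact zero_ne_one hwt1
  refine ⟨Option C, inferInstance, joinPat P, ?_, M + k, 2 * L + 1, ?_⟩
  · -- the value
    set b : ℝ := 1 / (2 - a) with hb
    refine ⟨fun c => c.elim ((1 - a) * b) (fun c => wt c * b), ?_, ?_, ?_⟩
    · intro c
      cases c with
      | none => exact mul_nonneg (by linarith) hb0.le
      | some c => exact mul_nonneg (hwt0 c) hb0.le
    · rw [Fintype.sum_option]
      simp only [Option.elim]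
      rw [← Finset.sum_mul, hwt1, hb]
      field_simp
      ring
    · intro s hs
      rw [Fintype.sum_option]
      simp only [Option.elim]
      by_cases hnone : none ∈ s
      · by_cases hsome : ∃ x, some x ∈ s
        · have h1 : ∀ c : Option C, c ::ₘ s ∈ joinPat P := by
            intro c
            right
            obtain ⟨x, hx⟩ := hsome
            exact ⟨Multiset.mem_cons_of_mem hnone, x, Multiset.mem_cons_of_mem hx⟩
          simp only [h1, if_true]
          rw [← Finset.sum_mul, hwt1]
          nlinarith
        · have h1 : ∀ c : C, some c ::ₘ s ∈ joinPat P := by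
            intro c
            right
            exact ⟨Multiset.mem_cons_of_mem hnone, c, Multiset.mem_cons_self _ _⟩
          simp only [h1, if_true]
          rw [← Finset.sum_mul, hwt1, one_mul]
          have : 0 ≤ (if none ::ₘ s ∈ joinPat P then (1 - a) * b else 0) := by
            split_ifs
            · exact mul_nonneg (by linarith) hb0.le
            · exact le_rfl
          linarith
      · -- all classes of `s` are old
        have hsome : ∀ x ∈ s, ∃ c, x = some c := by
          intro x hx
          cases x with
          | none => exact absurd hx hnone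
          | some c => exact ⟨c, rfl⟩
        obtain ⟨s', hs'⟩ : ∃ s' : Multiset C, s = s'.map some := by
          refine ⟨s.map (fun x => x.getD (Classical.arbitrary C)), ?_⟩
          rw [Multiset.map_map]
          conv_lhs => rw [← Multiset.map_id s]
          apply Multiset.map_congr rfl
          intro x hx
          obtain ⟨c, rfl⟩ := hsome x hx
          simp
        have hcard : s'.card + 1 = k := by
          rw [← hs, hs', Multiset.card_map]
        have hne : ∃ x, some x ∈ s := by
          have : 0 < s'.card := by omega
          obtain ⟨x, hx⟩ := Multiset.card_pos_iff_exists_mem.mp this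
          exact ⟨x, by rw [hs']; exact Multiset.mem_map_of_mem _ hx⟩
        have h0 : none ::ₘ s ∈ joinPat P := by
          right
          obtain ⟨x, hx⟩ := hne
          exact ⟨Multiset.mem_cons_self _ _, x, Multiset.mem_cons_of_mem hx⟩
        rw [if_pos h0]
        have h1 := hwt s' hcard
        have h2 : a * b ≤ ∑ c, (if some c ::ₘ s ∈ joinPat P then wt c * b else 0) := by
          calc a * b ≤ (∑ c, (if c ::ₘ s' ∈ P then wt c else 0)) * b :=
                mul_le_mul_of_nonneg_right h1 hb0.le
            _ = ∑ c, (if c ::ₘ s' ∈ P then wt c else 0) * b := by rw [Finset.sum_mul]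
            _ ≤ _ := by
                apply Finset.sum_le_sum
                intro c _
                by_cases h3 : c ::ₘ s' ∈ P
                · have h4 : some c ::ₘ s ∈ joinPat P := by
                    left
                    exact ⟨_, h3, by rw [Multiset.map_cons, hs']⟩
                  rw [if_pos h3, if_pos h4]
                · rw [if_neg h3, zero_mul]
                  split_ifs
                  · exact mul_nonneg (hwt0 c) hb0.le
                  · exact le_rfl
        linarith
  · -- irreducibility
    intro ι _ _ V G X hX f hf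
    by_cases hfam : NoneFam (fun i => X i L) f (k - 1)
    · obtain ⟨p, hpinj, hp⟩ := hfam
      set s : ∀ i, Fin (k - 1) ↪ V i := fun i => ⟨fun j => p j i, hpinj i⟩ with hs
      have hSsub : ∀ i, Finset.univ.map (s i) ⊆ X i L := by
        intro i v hv
        rw [Finset.mem_map] at hv
        obtain ⟨j, _, rfl⟩ := hv
        exact (hp j).1 i
      have hScard : ∀ i, (Finset.univ.map (s i)).card + 1 = k := by
        intro i
        rw [Finset.card_map, Finset.card_univ, Fintype.card_fin]
        omega
      have hch := fun i => bj_link ha1 (Nat.le_add_right M k) (hX i) _ (hSsub i) (hScard i)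
      have hne : ∀ x : ∀ i, V i, (∀ i, x i ∈ (X i (L + 1 + L)).filter
          (fun v => (G i).Adj v (Finset.univ.map (s i)))) → f x ≠ none := by
        intro x hx hfx
        have he := hf _ (bj_prodEdge G s x (fun i => (Finset.mem_filter.1 (hx i)).2)) (by
          intro y hy i
          rw [Multiset.mem_cons] at hy
          rcases hy with rfl | hy
          · have h1 := (Finset.mem_filter.1 (hx i)).1
            have e : L + 1 + L = 2 * L + 1 := by ring
            rwa [e] at h1
          · rw [Multiset.mem_map] at hy
            obtain ⟨j, _, rfl⟩ := hy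
            exact (hX i).mono_le (by omega) le_rfl ((hp j).1 i))
        have hall : ∀ y ∈ (x ::ₘ (Finset.univ : Finset (Fin (k - 1))).val.map
            (fun j i => s i j)).map f, y = none := by
          intro y hy
          rw [Multiset.mem_map] at hy
          obtain ⟨z, hz, rfl⟩ := hy
          rw [Multiset.mem_cons] at hz
          rcases hz with rfl | hz
          · exact hfx
          · rw [Multiset.mem_map] at hz
            obtain ⟨j, _, rfl⟩ := hz
            exact (hp j).2
        rcases he with ⟨e', _, he'⟩ | ⟨_, y, hy⟩
        · have h1 : f x ∈ e'.map some := by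
            rw [← he']
            exact Multiset.mem_map_of_mem _ (Multiset.mem_cons_self _ _)
          rw [hfx, Multiset.mem_map] at h1
          obtain ⟨c, _, hc⟩ := h1
          exact absurd hc (by simp)
        · exact absurd (hall _ hy) (by simp)
      obtain ⟨f', hf'⟩ := bj_finish P G _ _ f hf hne (by
        intro i v hv
        have h1 := (Finset.mem_filter.1 hv).1
        have e : L + 1 + L = 2 * L + 1 := by ring
        rwa [e] at h1)
      exact hI ι V G _ hch f' hf'
    · -- few points with value `none`
      have hex : ∃ r, ¬ NoneFam (fun i => X i L) f r := ⟨_, hfam⟩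
      have hr := Nat.find_spec hex
      have hle : Nat.find hex ≤ k - 1 := Nat.find_min' hex hfam
      have hpos : Nat.find hex ≠ 0 := by
        intro h0
        rw [h0] at hr
        exact hr ⟨fun j => j.elim0, fun i j => j.elim0, fun j => j.elim0⟩
      obtain ⟨r, hr'⟩ := Nat.exists_eq_succ_of_ne_zero hpos
      rw [hr'] at hr
      have hrD : NoneFam (fun i => X i L) f r := by
        by_contra hcon
        have := Nat.find_min' hex hcon
        omega
      obtain ⟨p, hpinj, hp⟩ := hrD
      set R : ∀ i, Finset (V i) := fun i => Finset.univ.image (fun j => p j i) with hR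
      have hRc : ∀ i, (R i).card ≤ k := by
        intro i
        refine Finset.card_image_le.trans ?_
        rw [Finset.card_univ, Fintype.card_fin]
        omega
      have hch : ∀ i, Chain (G i) a M L (fun t => X i t \ R i) := by
        intro i
        exact ((hX i).remove (R i) k (hRc i) le_rfl).weaken hab le_rfl (by omega)
      have hne : ∀ x : ∀ i, V i, (∀ i, x i ∈ X i L \ R i) → f x ≠ none := by
        intro x hx hfx
        apply hr
        refine ⟨Fin.cons x p, ?_, ?_⟩
        · intro i
          have h1 : (fun j => (Fin.cons x p : Fin (r + 1) → ∀ i, V i) j i) =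
              (Fin.cons (x i) (fun j => p j i) : Fin (r + 1) → V i) := by
            funext j
            refine Fin.cases ?_ (fun j => ?_) j
            · simp
            · simp
          rw [h1, Fin.cons_injective_iff]
          refine ⟨?_, hpinj i⟩
          rintro ⟨j, hj⟩
          apply (Finset.mem_sdiff.1 (hx i)).2
          rw [← hj]
          exact Finset.mem_image_of_mem _ (Finset.mem_univ j)
        · intro j
          refine Fin.cases ?_ (fun j => ?_) j
          · simp only [Fin.cons_zero]
            exact ⟨fun i => (Finset.mem_sdiff.1 (hx i)).1, hfx⟩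
          · simp only [Fin.cons_succ]
            exact hp j
      obtain ⟨f', hf'⟩ := bj_finish P G _ _ f hf hne (by
        intro i v hv
        exact (hX i).mono_le (by omega) le_rfl (Finset.mem_sdiff.1 hv).1)
      exact hI ι V G _ hch f' hf'

end CodegDens
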