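import Mathlib

/-!
# The box theorem of Erdos (problem MP_81e58e_co, module Box)

A subset of `Fin Z → Fin n` with at least `c * n ^ Z` elements contains a box whose sides have `T`
elements, if `n` is large in terms of `Z`, `T`, `c`.
-/

namespace CodegDens

open Finset

/-- a set of `T` common neighbours of a positive proportion of the `y` -/
theorem box_step {Y : Type} [Fintype Y] [DecidableEq Y] {n T : ℕ} (c : ℝ) (hc : 0 < c)
    (hn : 4 * T ≤ c * n) (hT : T < n) (N : Y → Finset (Fin n))
    (h : c * n * (Fintype.card Y : ℝ) ≤ ∑ y, ((N y).card : ℝ)) :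
    ∃ S : Finset (Fin n), S.card = T ∧
      c / 2 * (c / 4) ^ T * (Fintype.card Y : ℝ) ≤
        ((univ.filter fun y => S ⊆ N y).card : ℝ) := by
  classical
  have hn0 : (0 : ℝ) < n := by
    have : 0 < n := by omega
    exact_mod_cast this
  set good : Finset Y := univ.filter fun y => c / 2 * n ≤ ((N y).card : ℝ) with hgood
  -- many `y` have a large neighbourhood
  have h1 : c / 2 * (Fintype.card Y : ℝ) ≤ (good.card : ℝ) := by
    have h2 : ∑ y, ((N y).card : ℝ) ≤ (good.card : ℝ) * n + (Fintype.card Y : ℝ) * (c / 2 * n) := by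
      rw [← Finset.sum_filter_add_sum_filter_not univ (fun y => c / 2 * n ≤ ((N y).card : ℝ))]
      refine add_le_add ?_ ?_
      · rw [← nsmul_eq_mul]
        refine Finset.sum_le_card_nsmul _ _ _ fun y _ => ?_
        have := Finset.card_le_univ (N y)
        rw [Fintype.card_fin] at this
        exact_mod_cast this
      · refine (Finset.sum_le_card_nsmul _ _ (c / 2 * n) fun y hy => ?_).trans ?_
        · exact (not_le.mp (Finset.mem_filter.mp hy).2).le
        · rw [nsmul_eq_mul]
          refine mul_le_mul_of_nonneg_right ?_ (by positivity)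
          have := Finset.card_le_univ (univ.filter fun y => ¬ c / 2 * n ≤ ((N y).card : ℝ))
          exact_mod_cast this
    have h3 : c / 2 * (Fintype.card Y : ℝ) * n ≤ (good.card : ℝ) * n := by nlinarith
    exact le_of_mul_le_mul_right h3 hn0
  -- the number of pairs
  have h4 : (Fintype.card Y : ℝ) * (c / 2) * ((c / 4) ^ T * (n.choose T : ℝ)) ≤
      ∑ y, (((N y).powersetCard T).card : ℝ) := by
    calc (Fintype.card Y : ℝ) * (c / 2) * ((c / 4) ^ T * (n.choose T : ℝ))
        ≤ (good.card : ℝ) * ((c / 4) ^ T * (n.choose T : ℝ)) := by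
          refine mul_le_mul_of_nonneg_right ?_ (by positivity)
          linarith
      _ = ∑ y ∈ good, ((c / 4) ^ T * (n.choose T : ℝ)) := by
          rw [Finset.sum_const, nsmul_eq_mul]
      _ ≤ ∑ y ∈ good, (((N y).powersetCard T).card : ℝ) := by
          refine Finset.sum_le_sum fun y hy => ?_
          rw [Finset.card_powersetCard]
          have h5 := (Finset.mem_filter.mp hy).2
          have h6 : (n.choose T : ℝ) ≤ (n : ℝ) ^ T / (T.factorial : ℝ) :=
            Nat.choose_le_pow_div T n
          have h7 := Nat.pow_le_choose (α := ℝ) T (N y).card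
          have h8 : c / 4 * n ≤ (((N y).card + 1 - T : ℕ) : ℝ) := by
            have h9 : T ≤ (N y).card + 1 := by
              have : (T : ℝ) ≤ ((N y).card + 1 : ℕ) := by
                push_cast
                nlinarith
              exact_mod_cast this
            rw [Nat.cast_sub h9]
            push_cast
            nlinarith
          have hf : (0 : ℝ) < (T.factorial : ℝ) := by exact_mod_cast Nat.factorial_pos T
          calc (c / 4) ^ T * (n.choose T : ℝ)
              ≤ (c / 4) ^ T * ((n : ℝ) ^ T / (T.factorial : ℝ)) :=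
                mul_le_mul_of_nonneg_left h6 (by positivity)
            _ = (c / 4 * n) ^ T / (T.factorial : ℝ) := by rw [mul_pow]; ring
            _ ≤ (((N y).card + 1 - T : ℕ) : ℝ) ^ T / (T.factorial : ℝ) := by
                refine div_le_div_of_nonneg_right ?_ hf.le
                exact pow_le_pow_left₀ (by positivity) h8 T
            _ ≤ (((N y).card.choose T : ℕ) : ℝ) := h7
      _ ≤ ∑ y, (((N y).powersetCard T).card : ℝ) :=
          Finset.sum_le_sum_of_subset_of_nonneg (Finset.filter_subset _ _)
            fun _ _ _ => Nat.cast_nonneg _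
  have h5 : ∑ y, (((N y).powersetCard T).card : ℝ) =
      ∑ S ∈ (univ : Finset (Fin n)).powersetCard T,
        ((univ.filter fun y => S ⊆ N y).card : ℝ) := by
    have h6 : ∀ y, (((N y).powersetCard T).card : ℝ) =
        ∑ S ∈ (univ : Finset (Fin n)).powersetCard T, if S ⊆ N y then (1 : ℝ) else 0 := by
      intro y
      rw [← Finset.sum_filter, Finset.sum_const, nsmul_eq_mul, mul_one]
      congr 2
      ext S
      rw [Finset.mem_filter, Finset.mem_powersetCard, Finset.mem_powersetCard]
      constructor
      · rintro ⟨a, b⟩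
        exact ⟨⟨Finset.subset_univ _, b⟩, a⟩
      · rintro ⟨⟨_, b⟩, a⟩
        exact ⟨a, b⟩
    simp_rw [h6]
    rw [Finset.sum_comm]
    refine Finset.sum_congr rfl fun S _ => ?_
    rw [← Finset.sum_filter, Finset.sum_const, nsmul_eq_mul, mul_one]
  by_contra hcon
  push Not at hcon
  have h7 : ∑ S ∈ (univ : Finset (Fin n)).powersetCard T,
      ((univ.filter fun y => S ⊆ N y).card : ℝ) <
      ∑ _S ∈ (univ : Finset (Fin n)).powersetCard T,
        (c / 2 * (c / 4) ^ T * (Fintype.card Y : ℝ)) := by
    refine Finset.sum_lt_sum_of_nonempty ?_ ?_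
    · rw [Finset.powersetCard_nonempty, Finset.card_univ, Fintype.card_fin]
      exact hT.le
    · intro S hS
      exact hcon S (Finset.mem_powersetCard.mp hS).2
  rw [Finset.sum_const, Finset.card_powersetCard, Finset.card_univ, Fintype.card_fin,
    nsmul_eq_mul] at h7
  rw [h5] at h4
  nlinarith

theorem box (Z T : ℕ) (c : ℝ) (hc : 0 < c) : ∃ n0 : ℕ, ∀ n ≥ n0,
    ∀ A : Finset (Fin Z → Fin n), c * (n : ℝ) ^ Z ≤ A.card →
      ∃ U : Fin Z → Finset (Fin n), (∀ i, (U i).card = T) ∧
        ∀ x : Fin Z → Fin n, (∀ i, x i ∈ U i) → x ∈ A := by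
  classical
  induction Z generalizing c with
  | zero =>
    refine ⟨0, fun n _ A hA => ⟨fun i => i.elim0, fun i => i.elim0, fun x _ => ?_⟩⟩
    have h0 : 0 < A.card := by
      rw [pow_zero, mul_one] at hA
      exact_mod_cast lt_of_lt_of_le hc hA
    obtain ⟨y, hy⟩ := Finset.card_pos.mp h0
    rwa [Subsingleton.elim x y]
  | succ Z ih =>
    obtain ⟨n1, hn1⟩ := ih (c / 2 * (c / 4) ^ T) (by positivity)
    obtain ⟨n2, hn2⟩ := exists_nat_gt (4 * (T : ℝ) / c)
    refine ⟨max (max n1 n2) (T + 1), fun n hn A hA => ?_⟩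
    have hnn1 : n1 ≤ n := le_trans (le_trans (le_max_left _ _) (le_max_left _ _)) hn
    have hnn2 : n2 ≤ n := le_trans (le_trans (le_max_right _ _) (le_max_left _ _)) hn
    have hnT : T + 1 ≤ n := le_trans (le_max_right _ _) hn
    set N : (Fin Z → Fin n) → Finset (Fin n) :=
      fun y => univ.filter fun v => (Fin.cons v y : Fin (Z + 1) → Fin n) ∈ A with hN
    have hcard : (A.card : ℝ) ≤ ∑ y, ((N y).card : ℝ) := by
      have h1 := Finset.card_eq_sum_card_fiberwise (f := fun x : Fin (Z + 1) → Fin n => Fin.tail x)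
        (s := A) (t := univ) (fun _ _ => Finset.mem_coe.mpr (Finset.mem_univ _))
      rw [h1]
      push_cast
      refine Finset.sum_le_sum fun y _ => ?_
      have h2 : (A.filter fun x : Fin (Z + 1) → Fin n => Fin.tail x = y).card ≤ (N y).card := by
        refine Finset.card_le_card_of_injOn (fun x => x 0) ?_ ?_
        · intro x hx
          obtain ⟨hxA, hxy⟩ := Finset.mem_filter.mp (Finset.mem_coe.mp hx)
          rw [Finset.mem_coe, hN, Finset.mem_filter]
          refine ⟨Finset.mem_univ _, ?_⟩
          rw [← hxy, Fin.cons_self_tail]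
          exact hxA
        · intro x hx x' hx' h
          obtain ⟨_, hxy⟩ := Finset.mem_filter.mp (Finset.mem_coe.mp hx)
          obtain ⟨_, hxy'⟩ := Finset.mem_filter.mp (Finset.mem_coe.mp hx')
          have h' : x 0 = x' 0 := h
          rw [← Fin.cons_self_tail x, ← Fin.cons_self_tail x', hxy, hxy', h']
      exact_mod_cast h2
    have hYc : (Fintype.card (Fin Z → Fin n) : ℝ) = (n : ℝ) ^ Z := by
      rw [Fintype.card_fun, Fintype.card_fin, Fintype.card_fin]
      push_cast
      rfl
    obtain ⟨S, hS, hSc⟩ := box_step (T := T) c hc (by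
        have h3 : (n2 : ℝ) ≤ n := by exact_mod_cast hnn2
        have h4 : 4 * (T : ℝ) / c < n := lt_of_lt_of_le hn2 h3
        rw [div_lt_iff₀ hc] at h4
        linarith) (by omega) N (by
        rw [hYc]
        refine le_trans (le_of_eq ?_) (hA.trans hcard)
        ring)
    rw [hYc] at hSc
    obtain ⟨U, hU, hUA⟩ := hn1 n hnn1 _ hSc
    refine ⟨Fin.cons S U, ?_, ?_⟩
    · intro i
      refine Fin.cases ?_ (fun j => ?_) i
      · rw [Fin.cons_zero]; exact hS
      · rw [Fin.cons_succ]; exact hU j
    · intro x hx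
      have h5 := hUA (Fin.tail x) (fun i => by
        have := hx i.succ
        rwa [Fin.cons_succ] at this)
      have h6 := (Finset.mem_filter.mp h5).2
      have h7 := hx 0
      rw [Fin.cons_zero] at h7
      have h8 := (Finset.mem_filter.mp (h6 h7)).2
      rwa [Fin.cons_self_tail] at h8

end CodegDens
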