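import Pool.Agent.Lib.MP_81e58e_co.Defs

/-!
# Basic facts on chains (problem MP_81e58e_co)
-/

namespace CodegDens

open Finset Filter Topology

variable {k : ℕ} {V : Type} {G : KGraph k V} {a b : ℝ} {M M' L L' : ℕ} {X : ℕ → Finset V}

theorem Chain.mono_le (h : Chain G a M L X) {s t : ℕ} (hst : s ≤ t) (ht : t ≤ L) :
    X s ⊆ X t := by
  induction t, hst using Nat.le_induction with
  | base => exact Finset.Subset.refl _
  | succ t hst ih => exact (ih (by omega)).trans (h.mono t (by omega))

theorem Chain.weaken (h : Chain G a M L X) (hab : b ≤ a) (hM : M' ≤ M) (hL : L' ≤ L) :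
    Chain G b M' L' X where
  mono := fun t ht => h.mono t (lt_of_lt_of_le ht hL)
  card := hM.trans h.card
  rich := by
    intro t ht w hw hpos
    obtain ⟨Y, hY, hc, hv⟩ := h.rich t (lt_of_lt_of_le ht hL) w hw hpos
    refine ⟨Y, hY, hM.trans hc, fun v hvY => lt_of_le_of_lt ?_ (hv v hvY)⟩
    exact mul_le_mul_of_nonneg_right hab hpos.le

theorem Chain.shift (h : Chain G a M L X) (s : ℕ) (hs : s + L' ≤ L) :
    Chain G a M L' (fun t => X (t + s)) where
  mono := by
    intro t ht
    have := h.mono (t + s) (by omega)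
    have e : t + 1 + s = t + s + 1 := by ring
    simpa [e] using this
  card := by
    have := Finset.card_le_card (h.mono_le (Nat.zero_le s) (by omega))
    simpa using h.card.trans this
  rich := by
    intro t ht w hw hpos
    have e : t + 1 + s = t + s + 1 := by ring
    simpa [e] using h.rich (t + s) (by omega) w hw hpos

/-- Restriction of the weights to the subsets of a smaller set. -/
theorem sum_powersetCard_restrict {A B : Finset V} (hBA : B ⊆ A) (r : ℕ) (w : Finset V → ℝ) :
    (∑ S ∈ A.powersetCard r, (open Classical in if S ⊆ B then w S else 0)) =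
      ∑ S ∈ B.powersetCard r, w S := by
  classical
  rw [← Finset.sum_filter]
  apply Finset.sum_congr _ (fun _ _ => rfl)
  ext S
  simp only [Finset.mem_filter, Finset.mem_powersetCard]
  constructor
  · rintro ⟨⟨_, h2⟩, h3⟩
    exact ⟨h3, h2⟩
  · rintro ⟨h1, h2⟩
    exact ⟨⟨h1.trans hBA, h2⟩, h1⟩

/-- The rich property applied to weights living on a subset of the level. -/
theorem Chain.rich_sub (h : Chain G a M L X) {t : ℕ} (ht : t < L) {B : Finset V}
    (hB : B ⊆ X t) (w : Finset V → ℝ) (hw : ∀ S, 0 ≤ w S)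
    (hpos : 0 < ∑ S ∈ B.powersetCard (k - 1), w S) :
    ∃ Y : Finset V, Y ⊆ X (t + 1) ∧ M ≤ Y.card ∧ ∀ v ∈ Y,
      a * ∑ S ∈ B.powersetCard (k - 1), w S <
        ∑ S ∈ B.powersetCard (k - 1), (open Classical in if G.Adj v S then w S else 0) := by
  classical
  have key := h.rich t ht (fun S => if S ⊆ B then w S else 0)
    (by intro S; split_ifs; exacts [hw S, le_refl 0])
    (by
      have := sum_powersetCard_restrict hB (k - 1) w
      rw [this]; exact hpos)
  obtain ⟨Y, hY, hc, hv⟩ := key
  refine ⟨Y, hY, hc, fun v hvY => ?_⟩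
  have h1 := hv v hvY
  rw [sum_powersetCard_restrict hB (k - 1) w] at h1
  have h2 : (∑ S ∈ (X t).powersetCard (k - 1),
      (if G.Adj v S then (if S ⊆ B then w S else 0) else 0)) =
      ∑ S ∈ B.powersetCard (k - 1), (if G.Adj v S then w S else 0) := by
    rw [← sum_powersetCard_restrict hB (k - 1) (fun S => if G.Adj v S then w S else 0)]
    apply Finset.sum_congr rfl
    intro S _
    split_ifs <;> rfl
  rw [h2] at h1
  exact h1

/-- remove at most `r` vertices from all levels -/
theorem Chain.remove [DecidableEq V] (h : Chain G a M L X) (R : Finset V) (r : ℕ)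
    (hR : R.card ≤ r) (hM : M' + r ≤ M) : Chain G a M' L (fun t => X t \ R) where
  mono := fun t ht => Finset.sdiff_subset_sdiff (h.mono t ht) (Finset.Subset.refl _)
  card := by
    have h1 := h.card
    have h2 := Finset.le_card_sdiff R (X 0)
    omega
  rich := by
    intro t ht w hw hpos
    obtain ⟨Y, hY, hc, hv⟩ := h.rich_sub ht (B := X t \ R) Finset.sdiff_subset w hw hpos
    refine ⟨Y \ R, Finset.sdiff_subset_sdiff hY (Finset.Subset.refl _), ?_,
      fun v hvY => hv v (Finset.mem_sdiff.1 hvY).1⟩
    have h2 := Finset.le_card_sdiff R Y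
    omega

/-- restrict to a class that is closed under adjacency -/
theorem Chain.restrict (h : Chain G a M L X) (ha : 0 ≤ a) (p : V → Prop) [DecidablePred p]
    (hp : ∀ t < L, ∀ S ⊆ X t, S.card + 1 = k → (∀ x ∈ S, p x) → ∀ v ∈ X (t + 1), G.Adj v S → p v)
    (h0 : M' ≤ ((X 0).filter p).card) (hM : M' ≤ M) (hk : 1 ≤ k) :
    Chain G a M' L (fun t => (X t).filter p) where
  mono := fun t ht => Finset.filter_subset_filter _ (h.mono t ht)
  card := h0
  rich := by
    intro t ht w hw hpos
    obtain ⟨Y, hY, hc, hv⟩ := h.rich_sub ht (B := (X t).filter p) (Finset.filter_subset _ _)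
      w hw hpos
    refine ⟨Y, ?_, hM.trans hc, hv⟩
    intro v hvY
    refine Finset.mem_filter.2 ⟨hY hvY, ?_⟩
    have h1 := hv v hvY
    have h2 : 0 < ∑ S ∈ ((X t).filter p).powersetCard (k - 1),
        (open Classical in if G.Adj v S then w S else 0) := by
      refine lt_of_le_of_lt ?_ h1
      exact mul_nonneg ha hpos.le
    obtain ⟨S, hS, hS2⟩ := Finset.exists_ne_zero_of_sum_ne_zero (ne_of_gt h2)
    have hadj : G.Adj v S := by
      by_contra hcon
      exact hS2 (by simp [hcon])
    rw [Finset.mem_powersetCard] at hS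
    refine hp t ht S (hS.1.trans (Finset.filter_subset _ _)) (by omega) ?_ v (hY hvY) hadj
    intro x hx
    exact (Finset.mem_filter.1 (hS.1 hx)).2

/-- the request of a single source -/
theorem Chain.single (h : Chain G a M L X) (ha : 0 ≤ a) {t : ℕ} (ht : t < L) {S : Finset V}
    (hS : S ⊆ X t) (hk : S.card + 1 = k) :
    ∃ Y : Finset V, Y ⊆ X (t + 1) ∧ M ≤ Y.card ∧ ∀ v ∈ Y, G.Adj v S := by
  classical
  have hk' : S.card = k - 1 := by omega
  have hps : S.powersetCard (k - 1) = {S} := by
    rw [← hk']; exact Finset.powersetCard_self S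
  obtain ⟨Y, hY, hc, hv⟩ := h.rich_sub ht hS (fun _ => 1) (fun _ => zero_le_one)
    (by rw [hps]; simp)
  refine ⟨Y, hY, hc, fun v hvY => ?_⟩
  have h1 := hv v hvY
  rw [hps] at h1
  by_contra hcon
  simp only [Finset.sum_singleton, mul_one, hcon, if_false] at h1
  linarith

end CodegDens
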