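import Mathlib

/-!
# Codegree Turan densities: shared definitions (problem MP_81e58e_co)

Statement-level definitions: `KGraph`, `KGraph.codeg`, `KGraph.minCodeg`, `KGraph.Contains`,
`coex`, `HasCodegDensity`.

Proof-level definitions: `KGraph.Adj`, `KGraph.comap`, `Chain`, `ProdEdge`, `ProdHomOn`,
`PatVal`, `Irr`, `Reach`.
-/

namespace CodegDens

open Finset Filter Topology

/-- A `k`-graph on the vertex set `V`: a set of `k`-element subsets of `V`. -/
structure KGraph (k : ℕ) (V : Type) where
  /-- the edge set -/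
  edges : Set (Finset V)
  /-- every edge has exactly `k` elements -/
  card_eq : ∀ e ∈ edges, e.card = k

namespace KGraph

variable {k : ℕ} {V W : Type}

/-- The number of edges of `H` that contain `S`. -/
noncomputable def codeg (H : KGraph k V) (S : Finset V) : ℕ :=
  {e | e ∈ H.edges ∧ S ⊆ e}.ncard

/-- The minimum codegree: the minimum of `codeg S` over all `(k-1)`-element subsets `S`. -/
noncomputable def minCodeg (H : KGraph k V) : ℕ :=
  sInf {d | ∃ S : Finset V, S.card + 1 = k ∧ H.codeg S = d}

/-- `H` contains a (not necessarily induced) copy of `F`. -/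
def Contains (H : KGraph k V) (F : KGraph k W) : Prop :=
  ∃ f : W ↪ V, ∀ e ∈ F.edges, e.map f ∈ H.edges

/-- `v` together with the set `S` forms an edge. -/
def Adj (H : KGraph k V) (v : V) (S : Finset V) : Prop :=
  ∃ h : v ∉ S, S.cons v h ∈ H.edges

/-- The `k`-graph induced on `W` through an injection `W ↪ V`. -/
def comap (H : KGraph k V) (f : W ↪ V) : KGraph k W where
  edges := {e | e.map f ∈ H.edges}
  card_eq := by
    intro e he
    have := H.card_eq _ he
    simpa using this

end KGraph

/-- The codegree Turan number: the largest minimum codegree of an `F`-free `k`-graph on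
`n` vertices. -/
noncomputable def coex {k : ℕ} {W : Type} (n : ℕ) (F : KGraph k W) : ℕ :=
  sSup {d | ∃ H : KGraph k (Fin n), ¬ H.Contains F ∧ H.minCodeg = d}

/-- The codegree Turan density of `F` exists and equals `a`. -/
def HasCodegDensity {k : ℕ} {W : Type} (F : KGraph k W) (a : ℝ) : Prop :=
  Tendsto (fun n : ℕ => (coex n F : ℝ) / (n : ℝ)) atTop (𝓝 a)

/-! ## Proof-level definitions -/

/-- A `(g, M, L)`-chain `X 0 ⊆ X 1 ⊆ ... ⊆ X L` in the `k`-graph `G`: `X 0` has at least `M`
elements, and for every `t < L` and every nonzero weighting `w ≥ 0` of the `(k-1)`-subsets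
of `X t` there are at least `M` vertices `v` of `X (t+1)` for which the weight of the sets
adjacent to `v` is larger than `g` times the total weight. -/
structure Chain {k : ℕ} {V : Type} (G : KGraph k V) (g : ℝ) (M L : ℕ) (X : ℕ → Finset V) :
    Prop where
  mono : ∀ t, t < L → X t ⊆ X (t + 1)
  card : M ≤ (X 0).card
  rich : ∀ t, t < L → ∀ w : Finset V → ℝ, (∀ S, 0 ≤ w S) →
    0 < ∑ S ∈ (X t).powersetCard (k - 1), w S →
    ∃ Y : Finset V, Y ⊆ X (t + 1) ∧ M ≤ Y.card ∧ ∀ v ∈ Y,
      g * ∑ S ∈ (X t).powersetCard (k - 1), w S <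
        ∑ S ∈ (X t).powersetCard (k - 1), (open Classical in if G.Adj v S then w S else 0)

/-- `e` (a multiset of points of the product) is an edge of the product of the `G i`: in every
coordinate the entries are distinct and form an edge. -/
def ProdEdge {k : ℕ} {ι : Type} {V : ι → Type} (G : ∀ i, KGraph k (V i))
    (e : Multiset (∀ i, V i)) : Prop :=
  ∀ i, ∃ d ∈ (G i).edges, e.map (fun x => x i) = d.val

/-- `f` maps every product edge inside the box `∏ X i` to an edge of the pattern `P`. -/
def ProdHomOn {k : ℕ} {ι : Type} {V : ι → Type} {C : Type} (G : ∀ i, KGraph k (V i))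
    (X : ∀ i, Finset (V i)) (f : (∀ i, V i) → C) (P : Set (Multiset C)) : Prop :=
  ∀ e : Multiset (∀ i, V i), ProdEdge G e → (∀ x ∈ e, ∀ i, x i ∈ X i) → e.map f ∈ P

/-- The pattern `P` on the class set `C` has (blow-up) codegree value at least `a`: for suitable
weights of total `1` on the classes, every multiset of `k - 1` classes has completions of total
weight at least `a`. -/
def PatVal (k : ℕ) {C : Type} [Fintype C] (P : Set (Multiset C)) (a : ℝ) : Prop :=
  ∃ wt : C → ℝ, (∀ c, 0 ≤ wt c) ∧ ∑ c, wt c = 1 ∧
    ∀ s : Multiset C, s.card + 1 = k →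
      a ≤ ∑ c, (open Classical in if c ::ₘ s ∈ P then wt c else 0)

/-- Irreducibility: for some `M`, `L` no finite nonempty family of `k`-graphs with
`(a, M, L)`-chains admits a homomorphism from the product of the tops of the chains to `P`. -/
def Irr (k : ℕ) {C : Type} (P : Set (Multiset C)) (a : ℝ) : Prop :=
  ∃ M L : ℕ, ∀ (ι : Type) [Finite ι] [Nonempty ι] (V : ι → Type) (G : ∀ i, KGraph k (V i))
    (X : ∀ i, ℕ → Finset (V i)), (∀ i, Chain (G i) a M L (X i)) →
    ∀ f : (∀ i, V i) → C, ¬ ProdHomOn G (fun i => X i L) f P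

/-- `a` is reached by an irreducible pattern. -/
def Reach (k : ℕ) (a : ℝ) : Prop :=
  ∃ (C : Type) (_ : Fintype C) (P : Set (Multiset C)), PatVal k P a ∧ Irr k P a

end CodegDens
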