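import Pool.Agent.Lib.MP_81e58e_co.E3Defs

/-!
# The step `a -> (1+a)/3` for `k = 3`: closed sets of types have at most three elements
-/

namespace CodegDens

instance instDecIn01 (z : ZMod 3) : Decidable (In01 z) := by unfold In01; infer_instance

/-- the six sums -/
def A6 (a b c : Fin 3 → ZMod 3) : Prop :=
  In01 (a 0 + b 1 + c 2) ∧ In01 (a 0 + b 2 + c 1) ∧ In01 (a 1 + b 0 + c 2) ∧
  In01 (a 1 + b 2 + c 0) ∧ In01 (a 2 + b 0 + c 1) ∧ In01 (a 2 + b 1 + c 0)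

instance instDecA6 (a b c : Fin 3 → ZMod 3) : Decidable (A6 a b c) := by
  unfold A6; infer_instance

/-- offsets -/
def ooT (c l m : ZMod 3) (i j : Fin 3) (x : Fin 4) (k : Fin 3) : ZMod 3 :=
  match x with
  | 0 => 0
  | 1 => c
  | 2 => l + (if k = i then 1 else 0)
  | 3 => m - (if k = j then 1 else 0)

/-- completion in terms of offsets -/
def AOT (g c l m : ZMod 3) (i j : Fin 3) (x y z : Fin 4) : Prop :=
  A6 (fun k => g + ooT c l m i j x k) (ooT c l m i j y) (ooT c l m i j z)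

instance instDecAO (g c l m : ZMod 3) (i j : Fin 3) (x y z : Fin 4) :
    Decidable (AOT g c l m i j x y z) := by
  unfold AOT; infer_instance

/-- a triple of pairs that contradicts `J3` -/
def BadT (g c l m : ZMod 3) (i j : Fin 3) (x1 y1 x2 y2 x3 y3 : Fin 4) : Prop :=
  ∀ z : Fin 4, ¬ ((AOT g c l m i j x1 y1 z ∧ AOT g c l m i j x2 y2 z) ∨
    (AOT g c l m i j x1 y1 z ∧ AOT g c l m i j x3 y3 z) ∨
    (AOT g c l m i j x2 y2 z ∧ AOT g c l m i j x3 y3 z))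

instance instDecBadT (g c l m : ZMod 3) (i j : Fin 3) (x1 y1 x2 y2 x3 y3 : Fin 4) :
    Decidable (BadT g c l m i j x1 y1 x2 y2 x3 y3) := by
  unfold BadT; infer_instance

theorem fin_checkT : ∀ (g c l m : ZMod 3) (i j : Fin 3), c ≠ 0 →
    BadT g c l m i j 0 3 1 3 2 3 ∨ BadT g c l m i j 0 2 1 2 2 3 ∨
    BadT g c l m i j 0 0 1 1 2 3 ∨ BadT g c l m i j 0 2 0 3 1 3 := by
  decide +kernel

theorem Al.a6 {a b c : Fin 3 → ZMod 3} (h : Al a b c) : A6 a b c := by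
  refine ⟨?_, ?_, ?_, ?_, ?_, ?_⟩
  · exact h (Equiv.refl _)
  · have := h (Equiv.swap 1 2)
    have e0 : (Equiv.swap 1 2 : Equiv.Perm (Fin 3)) 0 = 0 := by decide
    have e1 : (Equiv.swap 1 2 : Equiv.Perm (Fin 3)) 1 = 2 := by decide
    have e2 : (Equiv.swap 1 2 : Equiv.Perm (Fin 3)) 2 = 1 := by decide
    rwa [e0, e1, e2] at this
  · have := h (Equiv.swap 0 1)
    have e0 : (Equiv.swap 0 1 : Equiv.Perm (Fin 3)) 0 = 1 := by decide
    have e1 : (Equiv.swap 0 1 : Equiv.Perm (Fin 3)) 1 = 0 := by decide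
    have e2 : (Equiv.swap 0 1 : Equiv.Perm (Fin 3)) 2 = 2 := by decide
    rwa [e0, e1, e2] at this
  · have := h (finRotate 3)
    have e0 : (finRotate 3) (0 : Fin 3) = 1 := by decide
    have e1 : (finRotate 3) (1 : Fin 3) = 2 := by decide
    have e2 : (finRotate 3) (2 : Fin 3) = 0 := by decide
    rwa [e0, e1, e2] at this
  · have := h (finRotate 3)⁻¹
    have e0 : (finRotate 3)⁻¹ (0 : Fin 3) = 2 := by decide
    have e1 : (finRotate 3)⁻¹ (1 : Fin 3) = 0 := by decide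
    have e2 : (finRotate 3)⁻¹ (2 : Fin 3) = 1 := by decide
    rwa [e0, e1, e2] at this
  · have := h (Equiv.swap 0 2)
    have e0 : (Equiv.swap 0 2 : Equiv.Perm (Fin 3)) 0 = 2 := by decide
    have e1 : (Equiv.swap 0 2 : Equiv.Perm (Fin 3)) 1 = 1 := by decide
    have e2 : (Equiv.swap 0 2 : Equiv.Perm (Fin 3)) 2 = 0 := by decide
    rwa [e0, e1, e2] at this

theorem A6.al {a b c : Fin 3 → ZMod 3} (h : A6 a b c) : Al a b c := by
  obtain ⟨h1, h2, h3, h4, h5, h6⟩ := h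
  intro σ
  have key : ∀ i j k : Fin 3, i ≠ j → j ≠ k → i ≠ k → In01 (a i + b j + c k) := by
    intro i j k h12 h23 h13
    fin_cases i <;> fin_cases j <;> fin_cases k <;> first
      | exact absurd rfl h12
      | exact absurd rfl h23
      | exact absurd rfl h13
      | assumption
  exact key _ _ _ (σ.injective.ne (by decide)) (σ.injective.ne (by decide))
    (σ.injective.ne (by decide))

theorem A6.swap12 {a b c : Fin 3 → ZMod 3} (h : A6 a b c) : A6 b a c := by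
  obtain ⟨h1, h2, h3, h4, h5, h6⟩ := h
  refine ⟨?_, ?_, ?_, ?_, ?_, ?_⟩
  · rw [add_comm (b 0)]; exact h3
  · rw [add_comm (b 0)]; exact h5
  · rw [add_comm (b 1)]; exact h1
  · rw [add_comm (b 1)]; exact h6
  · rw [add_comm (b 2)]; exact h2
  · rw [add_comm (b 2)]; exact h4

theorem A6.swap23 {a b c : Fin 3 → ZMod 3} (h : A6 a b c) : A6 a c b := by
  obtain ⟨h1, h2, h3, h4, h5, h6⟩ := h
  refine ⟨?_, ?_, ?_, ?_, ?_, ?_⟩
  · rw [add_right_comm]; exact h2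
  · rw [add_right_comm]; exact h1
  · rw [add_right_comm]; exact h4
  · rw [add_right_comm]; exact h3
  · rw [add_right_comm]; exact h6
  · rw [add_right_comm]; exact h5

theorem in01_oneT : ∀ X Y : ZMod 3, In01 X → In01 Y → X - Y = 1 → X = 1 := by decide

theorem in01_shiftT : ∀ X Y s s' : ZMod 3, X ≠ Y → In01 (X + s) → In01 (Y + s) →
    In01 (X + s') → In01 (Y + s') → s = s' := by decide

/-- the difference of `p` and `q` increases -/
def Ori (p q : Fin 3 → ZMod 3) : Prop :=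
  (p 0 - q 0) - (p 1 - q 1) = 1 ∧ (p 1 - q 1) - (p 2 - q 2) = 1

theorem ori_uniq {p q z : Fin 3 → ZMod 3} (ho : Ori p q) (h : A6 p q z) :
    z 0 = 1 - p 1 - q 2 ∧ z 1 = 1 - p 2 - q 0 ∧ z 2 = 1 - p 0 - q 1 := by
  obtain ⟨h1, h2⟩ := ho
  obtain ⟨a1, a2, a3, a4, a5, a6⟩ := h
  have h3 : (p 2 - q 2) - (p 0 - q 0) = 1 := by
    have e : (p 2 - q 2) - (p 0 - q 0)
        = -((p 0 - q 0) - (p 1 - q 1)) - ((p 1 - q 1) - (p 2 - q 2)) := by ring
    rw [e, h1, h2]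
    decide
  refine ⟨?_, ?_, ?_⟩
  · have := in01_oneT _ _ a4 a6 (by rw [← h2]; ring)
    rw [← this]; ring
  · have := in01_oneT _ _ a5 a2 (by rw [← h3]; ring)
    rw [← this]; ring
  · have := in01_oneT _ _ a1 a3 (by rw [← h1]; ring)
    rw [← this]; ring

theorem ori_uniq_eq {p q z z' : Fin 3 → ZMod 3} (ho : Ori p q) (h : A6 p q z) (h' : A6 p q z') :
    z = z' := by
  obtain ⟨a0, a1, a2⟩ := ori_uniq ho h
  obtain ⟨b0, b1, b2⟩ := ori_uniq ho h'
  funext k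
  fin_cases k
  · exact a0.trans b0.symm
  · exact a1.trans b1.symm
  · exact a2.trans b2.symm

theorem ori_ne {p q : Fin 3 → ZMod 3} (ho : Ori p q) : p ≠ q := by
  intro h
  subst h
  have := ho.1
  simp at this

theorem ori_wp {p q w : Fin 3 → ZMod 3} (ho : Ori p q) (h : A6 p q w) : Ori w p ∧ Ori q w := by
  obtain ⟨a0, a1, a2⟩ := ori_uniq ho h
  obtain ⟨h1, h2⟩ := ho
  have h3 : (p 2 - q 2) - (p 0 - q 0) = 1 := by
    have e : (p 2 - q 2) - (p 0 - q 0)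
        = -((p 0 - q 0) - (p 1 - q 1)) - ((p 1 - q 1) - (p 2 - q 2)) := by ring
    rw [e, h1, h2]
    decide
  refine ⟨⟨?_, ?_⟩, ⟨?_, ?_⟩⟩
  · rw [a0, a1, ← h3]; ring
  · rw [a1, a2, ← h1]; ring
  · rw [a0, a1, ← h2]; ring
  · rw [a1, a2, ← h3]; ring

/-- step (a) -/
theorem not_ori {U : Set (Fin 3 → ZMod 3)} (hU : J3 Al U U) {p q : Fin 3 → ZMod 3}
    (hp : p ∈ U) (hq : q ∈ U) : ¬ Ori p q := by
  intro ho
  obtain ⟨w, hw, hw'⟩ := hU p hp q hq p hp q hq p hp q hq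
  have hpw : A6 p q w := by
    rcases hw' with h | h | h <;> exact h.1.a6
  obtain ⟨o1, o2⟩ := ori_wp ho hpw
  obtain ⟨z, hz, hz'⟩ := hU p hp q hq w hw p hp q hq w hw
  have u1 : Al p q z → z = w := fun h => ori_uniq_eq ho h.a6 hpw
  have u2 : Al w p z → z = q := fun h => ori_uniq_eq o1 h.a6 hpw.swap23.swap12
  have u3 : Al q w z → z = p := fun h => ori_uniq_eq o2 h.a6 hpw.swap12.swap23
  rcases hz' with h | h | h
  · exact ori_ne o2 ((u2 h.2).symm.trans (u1 h.1))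
  · exact ori_ne o1 ((u1 h.1).symm.trans (u3 h.2))
  · exact ori_ne ho ((u3 h.2).symm.trans (u2 h.1))

theorem dist_casesT : ∀ d0 d1 d2 : ZMod 3, ¬ (d0 - d1 = 1 ∧ d1 - d2 = 1) →
    ¬ (d1 - d0 = 1 ∧ d2 - d1 = 1) → d0 = d1 ∨ d1 = d2 ∨ d0 = d2 := by decide

theorem sum_casesT : ∀ d0 d1 d2 : ZMod 3, (d0 = d1 ∨ d1 = d2 ∨ d0 = d2) →
    (d0 + d1 + d2 = 0 → d1 = d0 ∧ d2 = d0) ∧
    (d0 + d1 + d2 = 1 → ∃ c : ZMod 3, ∃ i : Fin 3, d0 = c + (if (0 : Fin 3) = i then 1 else 0) ∧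
      d1 = c + (if (1 : Fin 3) = i then 1 else 0) ∧ d2 = c + (if (2 : Fin 3) = i then 1 else 0)) ∧
    (d0 + d1 + d2 = -1 → ∃ c : ZMod 3, ∃ i : Fin 3, d0 = c - (if (0 : Fin 3) = i then 1 else 0) ∧
      d1 = c - (if (1 : Fin 3) = i then 1 else 0) ∧ d2 = c - (if (2 : Fin 3) = i then 1 else 0)) := by
  decide

/-- the sum of the entries -/
def GGT (p : Fin 3 → ZMod 3) : ZMod 3 := p 0 + p 1 + p 2

/-- add a constant -/
def shT (p : Fin 3 → ZMod 3) (c : ZMod 3) : Fin 3 → ZMod 3 := fun k => p k + c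

theorem shT_zero (p : Fin 3 → ZMod 3) : shT p 0 = p := by
  funext k; simp [shT]

theorem shT_shT (p : Fin 3 → ZMod 3) (c d : ZMod 3) : shT (shT p c) d = shT p (c + d) := by
  funext k; simp [shT, add_assoc]

theorem GGT_shT (p : Fin 3 → ZMod 3) (c : ZMod 3) : GGT (shT p c) = GGT p := by
  unfold GGT shT
  have : ∀ a b e c : ZMod 3, a + c + (b + c) + (e + c) = a + b + e := by decide
  exact this _ _ _ _

theorem cases_of_memT {U : Set (Fin 3 → ZMod 3)} (hU : J3 Al U U) {p q : Fin 3 → ZMod 3}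
    (hp : p ∈ U) (hq : q ∈ U) :
    q 0 - p 0 = q 1 - p 1 ∨ q 1 - p 1 = q 2 - p 2 ∨ q 0 - p 0 = q 2 - p 2 := by
  refine dist_casesT _ _ _ ?_ ?_
  · intro h
    exact not_ori hU hq hp ⟨h.1, h.2⟩
  · intro h
    refine not_ori hU hp hq ⟨?_, ?_⟩
    · rw [← h.1]; ring
    · rw [← h.2]; ring

theorem eq_sh_of_GG {U : Set (Fin 3 → ZMod 3)} (hU : J3 Al U U) {p q : Fin 3 → ZMod 3}
    (hp : p ∈ U) (hq : q ∈ U) (h : GGT q = GGT p) : ∃ c, q = shT p c := by
  have h1 := (sum_casesT _ _ _ (cases_of_memT hU hp hq)).1 (by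
    unfold GGT at h
    have e : q 0 - p 0 + (q 1 - p 1) + (q 2 - p 2)
      = (q 0 + q 1 + q 2) - (p 0 + p 1 + p 2) := by ring
    rw [e, h, sub_self])
  refine ⟨q 0 - p 0, ?_⟩
  funext k
  fin_cases k
  · simp [shT]
  · simp only [shT]
    show q 1 = p 1 + (q 0 - p 0)
    rw [← h1.1]; ring
  · simp only [shT]
    show q 2 = p 2 + (q 0 - p 0)
    rw [← h1.2]; ring

theorem eq_add_of_GG {U : Set (Fin 3 → ZMod 3)} (hU : J3 Al U U) {p q : Fin 3 → ZMod 3}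
    (hp : p ∈ U) (hq : q ∈ U) (h : GGT q = GGT p + 1) :
    ∃ c : ZMod 3, ∃ i : Fin 3, q = fun k => p k + (c + (if k = i then 1 else 0)) := by
  obtain ⟨c, i, h0, h1, h2⟩ := (sum_casesT _ _ _ (cases_of_memT hU hp hq)).2.1 (by
    unfold GGT at h
    have e : q 0 - p 0 + (q 1 - p 1) + (q 2 - p 2)
      = (q 0 + q 1 + q 2) - (p 0 + p 1 + p 2) := by ring
    rw [e, h]; ring)
  refine ⟨c, i, ?_⟩
  funext k
  fin_cases k
  · show q 0 = p 0 + (c + (if (0 : Fin 3) = i then 1 else 0))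
    rw [← h0]; ring
  · show q 1 = p 1 + (c + (if (1 : Fin 3) = i then 1 else 0))
    rw [← h1]; ring
  · show q 2 = p 2 + (c + (if (2 : Fin 3) = i then 1 else 0))
    rw [← h2]; ring

theorem eq_sub_of_GG {U : Set (Fin 3 → ZMod 3)} (hU : J3 Al U U) {p q : Fin 3 → ZMod 3}
    (hp : p ∈ U) (hq : q ∈ U) (h : GGT q = GGT p - 1) :
    ∃ c : ZMod 3, ∃ i : Fin 3, q = fun k => p k + (c - (if k = i then 1 else 0)) := by
  obtain ⟨c, i, h0, h1, h2⟩ := (sum_casesT _ _ _ (cases_of_memT hU hp hq)).2.2 (by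
    unfold GGT at h
    have e : q 0 - p 0 + (q 1 - p 1) + (q 2 - p 2)
      = (q 0 + q 1 + q 2) - (p 0 + p 1 + p 2) := by ring
    rw [e, h]; ring)
  refine ⟨c, i, ?_⟩
  funext k
  fin_cases k
  · show q 0 = p 0 + (c - (if (0 : Fin 3) = i then 1 else 0))
    rw [← h0]; ring
  · show q 1 = p 1 + (c - (if (1 : Fin 3) = i then 1 else 0))
    rw [← h1]; ring
  · show q 2 = p 2 + (c - (if (2 : Fin 3) = i then 1 else 0))
    rw [← h2]; ring

/-- step (c) -/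
theorem shift_eqT {p q z : Fin 3 → ZMod 3} {c d c' d' : ZMod 3} (hG : GGT p ≠ GGT q)
    (h : Al (shT p c) (shT q d) z) (h' : Al (shT p c') (shT q d') z) : c + d = c' + d' := by
  have hne : p 0 - q 0 ≠ p 1 - q 1 ∨ p 1 - q 1 ≠ p 2 - q 2 := by
    by_contra hcon
    push Not at hcon
    apply hG
    have h3 : ∀ a0 a1 a2 b0 b1 b2 : ZMod 3, a0 - b0 = a1 - b1 → a1 - b1 = a2 - b2 →
        a0 + a1 + a2 = b0 + b1 + b2 := by decide +kernel
    exact h3 _ _ _ _ _ _ hcon.1 hcon.2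
  obtain ⟨a1, a2, a3, a4, a5, a6⟩ := h.a6
  obtain ⟨b1, b2, b3, b4, b5, b6⟩ := h'.a6
  simp only [shT] at a1 a2 a3 a4 a5 a6 b1 b2 b3 b4 b5 b6
  rcases hne with h0 | h0
  · refine in01_shiftT (p 0 + q 1 + z 2) (p 1 + q 0 + z 2) (c + d) (c' + d') ?_ ?_ ?_ ?_ ?_
    · intro h5
      apply h0
      linear_combination h5
    · convert a1 using 1; ring
    · convert a3 using 1; ring
    · convert b1 using 1; ring
    · convert b3 using 1; ring
  · refine in01_shiftT (p 1 + q 2 + z 0) (p 2 + q 1 + z 0) (c + d) (c' + d') ?_ ?_ ?_ ?_ ?_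
    · intro h5
      apply h0
      linear_combination h5
    · convert a4 using 1; ring
    · convert a6 using 1; ring
    · convert b4 using 1; ring
    · convert b6 using 1; ring

/-- three pairs of shifts with different sums contradict `J3` -/
theorem shift_falseT {U : Set (Fin 3 → ZMod 3)} (hU : J3 Al U U) {p q : Fin 3 → ZMod 3}
    (hG : GGT p ≠ GGT q) {c1 d1 c2 d2 c3 d3 : ZMod 3}
    (h1 : shT p c1 ∈ U) (k1 : shT q d1 ∈ U) (h2 : shT p c2 ∈ U) (k2 : shT q d2 ∈ U)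
    (h3 : shT p c3 ∈ U) (k3 : shT q d3 ∈ U) (e12 : c1 + d1 ≠ c2 + d2) (e13 : c1 + d1 ≠ c3 + d3)
    (e23 : c2 + d2 ≠ c3 + d3) : False := by
  obtain ⟨z, _, hz⟩ := hU _ h1 _ k1 _ h2 _ k2 _ h3 _ k3
  rcases hz with h | h | h
  · exact e12 (shift_eqT hG h.1 h.2)
  · exact e13 (shift_eqT hG h.1 h.2)
  · exact e23 (shift_eqT hG h.1 h.2)

/-- step (d1) -/
theorem d1_falseT {U : Set (Fin 3 → ZMod 3)} (hU : J3 Al U U) {p q : Fin 3 → ZMod 3}
    (hG : GGT p ≠ GGT q) (h : ∀ c, shT p c ∈ U) (hq : q ∈ U) : False := by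
  have hq' : shT q 0 ∈ U := by rwa [shT_zero]
  exact shift_falseT hU hG (h 0) hq' (h 1) hq' (h 2) hq' (by decide) (by decide) (by decide)

/-- step (d2) -/
theorem d2_falseT {U : Set (Fin 3 → ZMod 3)} (hU : J3 Al U U) {p q : Fin 3 → ZMod 3}
    {c d : ZMod 3} (hG : GGT p ≠ GGT q) (hp : p ∈ U) (hpc : shT p c ∈ U) (hq : q ∈ U)
    (hqd : shT q d ∈ U) (hc : c ≠ 0) (hd : d ≠ 0) : False := by
  have hp' : shT p 0 ∈ U := by rwa [shT_zero]
  have hq' : shT q 0 ∈ U := by rwa [shT_zero]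
  have hcases : ∀ c d : ZMod 3, c ≠ 0 → d ≠ 0 → (0 + 0 ≠ c + 0 ∧ 0 + 0 ≠ c + d ∧ c + 0 ≠ c + d) ∨
      (0 + 0 ≠ c + 0 ∧ 0 + 0 ≠ 0 + d ∧ c + 0 ≠ 0 + d) := by decide
  rcases hcases c d hc hd with ⟨h1, h2, h3⟩ | ⟨h1, h2, h3⟩
  · exact shift_falseT hU hG hp' hq' hpc hq' hpc hqd h1 h2 h3
  · exact shift_falseT hU hG hp' hq' hpc hq' hp' hqd h1 h2 h3

/-- the types described by offsets -/
def tpT (p : Fin 3 → ZMod 3) (c l m : ZMod 3) (i j : Fin 3) (x : Fin 4) : Fin 3 → ZMod 3 :=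
  fun k => p k + ooT c l m i j x k

theorem al_tpT {p : Fin 3 → ZMod 3} {c l m : ZMod 3} {i j : Fin 3} {x y z : Fin 4}
    (h : Al (tpT p c l m i j x) (tpT p c l m i j y) (tpT p c l m i j z)) :
    AOT (GGT p) c l m i j x y z := by
  obtain ⟨a1, a2, a3, a4, a5, a6⟩ := h.a6
  simp only [tpT] at a1 a2 a3 a4 a5 a6
  unfold AOT A6 GGT
  refine ⟨?_, ?_, ?_, ?_, ?_, ?_⟩
  · convert a1 using 1; ring
  · convert a2 using 1; ring
  · convert a3 using 1; ring
  · convert a4 using 1; ring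
  · convert a5 using 1; ring
  · convert a6 using 1; ring

theorem d3_falseT {U : Set (Fin 3 → ZMod 3)} (hU : J3 Al U U) {p : Fin 3 → ZMod 3}
    {c l m : ZMod 3} {i j : Fin 3} (hc : c ≠ 0) (hmem : ∀ x, tpT p c l m i j x ∈ U)
    (hall : ∀ r ∈ U, ∃ x, r = tpT p c l m i j x) : False := by
  have key : ∀ x1 y1 x2 y2 x3 y3 : Fin 4, ¬ BadT (GGT p) c l m i j x1 y1 x2 y2 x3 y3 := by
    intro x1 y1 x2 y2 x3 y3 hb
    obtain ⟨z, hzU, hz⟩ := hU _ (hmem x1) _ (hmem y1) _ (hmem x2) _ (hmem y2) _ (hmem x3) _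
      (hmem y3)
    obtain ⟨z', rfl⟩ := hall z hzU
    apply hb z'
    rcases hz with h | h | h
    · exact Or.inl ⟨al_tpT h.1, al_tpT h.2⟩
    · exact Or.inr (Or.inl ⟨al_tpT h.1, al_tpT h.2⟩)
    · exact Or.inr (Or.inr ⟨al_tpT h.1, al_tpT h.2⟩)
  rcases fin_checkT (GGT p) c l m i j hc with h | h | h | h <;> exact key _ _ _ _ _ _ h

theorem d3_qsT {U : Set (Fin 3 → ZMod 3)} (hU : J3 Al U U) {p q s : Fin 3 → ZMod 3}
    {c : ZMod 3} (hc : c ≠ 0) (hp : p ∈ U) (hpc : shT p c ∈ U) (hq : q ∈ U) (hs : s ∈ U)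
    (hGq : GGT q = GGT p + 1) (hGs : GGT s = GGT p - 1)
    (hno : ∀ r ∈ U, GGT r = GGT p → r = p ∨ r = shT p c) : False := by
  have hqne : GGT p ≠ GGT q := by
    rw [hGq]
    have : ∀ g : ZMod 3, g ≠ g + 1 := by decide
    exact this _
  have hsne : GGT p ≠ GGT s := by
    rw [hGs]
    have : ∀ g : ZMod 3, g ≠ g - 1 := by decide
    exact this _
  obtain ⟨l, i, hq'⟩ := eq_add_of_GG hU hp hq hGq
  obtain ⟨m, j, hs'⟩ := eq_sub_of_GG hU hp hs hGs
  have t0 : tpT p c l m i j 0 = p := by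
    funext k; simp [tpT, ooT]
  have t1 : tpT p c l m i j 1 = shT p c := by
    funext k; simp [tpT, ooT, shT]
  have t2 : tpT p c l m i j 2 = q := by
    rw [hq']; funext k; simp [tpT, ooT]
  have t3 : tpT p c l m i j 3 = s := by
    rw [hs']; funext k; simp [tpT, ooT]
  refine d3_falseT hU (p := p) (c := c) (l := l) (m := m) (i := i) (j := j) hc ?_ ?_
  · intro x
    fin_cases x
    · exact (show tpT p c l m i j 0 ∈ U by rw [t0]; exact hp)
    · exact (show tpT p c l m i j 1 ∈ U by rw [t1]; exact hpc)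
    · exact (show tpT p c l m i j 2 ∈ U by rw [t2]; exact hq)
    · exact (show tpT p c l m i j 3 ∈ U by rw [t3]; exact hs)
  · intro r hr
    have h3 : ∀ g g' : ZMod 3, g' = g ∨ g' = g + 1 ∨ g' = g - 1 := by decide
    rcases h3 (GGT p) (GGT r) with h | h | h
    · rcases hno r hr h with h4 | h4
      · exact ⟨0, by rw [t0, h4]⟩
      · exact ⟨1, by rw [t1, h4]⟩
    · obtain ⟨d, hd⟩ := eq_sh_of_GG hU hq hr (by rw [h, hGq])
      by_cases hd0 : d = 0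
      · refine ⟨2, ?_⟩
        rw [t2, hd, hd0, shT_zero]
      · exact (d2_falseT hU hqne hp hpc hq (hd ▸ hr) hc hd0).elim
    · obtain ⟨d, hd⟩ := eq_sh_of_GG hU hs hr (by rw [h, hGs])
      by_cases hd0 : d = 0
      · refine ⟨3, ?_⟩
        rw [t3, hd, hd0, shT_zero]
      · exact (d2_falseT hU hsne hp hpc hs (hd ▸ hr) hc hd0).elim

theorem othersT : ∀ a b : Fin 4, a ≠ b → ∃ a' b' : Fin 4, a' ≠ b' ∧ a' ≠ a ∧ a' ≠ b ∧
    b' ≠ a ∧ b' ≠ b := by decide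

theorem p1_types (U : Set (Fin 3 → ZMod 3)) (hU : J3 Al U U) :
    ∀ x : Fin 4 → Fin 3 → ZMod 3, (∀ a, x a ∈ U) → ∃ a b, a ≠ b ∧ x a = x b := by
  intro x hx
  by_contra hcon
  push Not at hcon
  obtain ⟨a, b, hab, hG⟩ := Fintype.exists_ne_map_eq_of_card_lt (fun a => GGT (x a))
    (by simp : Fintype.card (ZMod 3) < Fintype.card (Fin 4))
  obtain ⟨c, hc⟩ := eq_sh_of_GG hU (hx a) (hx b) hG.symm
  set p := x a with hp
  have hpU : p ∈ U := hx a
  have hpcU : shT p c ∈ U := hc ▸ hx b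
  have hc0 : c ≠ 0 := by
    intro h
    apply hcon a b hab
    rw [hc, h, shT_zero]
  by_cases hthird : ∃ r ∈ U, GGT r = GGT p ∧ r ≠ p ∧ r ≠ shT p c
  · obtain ⟨r, hr, hGr, hr1, hr2⟩ := hthird
    obtain ⟨d, hd⟩ := eq_sh_of_GG hU hpU hr hGr
    have hd0 : d ≠ 0 := by
      intro h
      apply hr1
      rw [hd, h, shT_zero]
    have hdc : d ≠ c := by
      intro h
      apply hr2
      rw [hd, h]
    have h3 : ∀ c d e : ZMod 3, c ≠ 0 → d ≠ 0 → d ≠ c → e = 0 ∨ e = c ∨ e = d := by decide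
    have hall : ∀ e, shT p e ∈ U := by
      intro e
      rcases h3 c d e hc0 hd0 hdc with h | h | h
      · rw [h, shT_zero]; exact hpU
      · rw [h]; exact hpcU
      · rw [h]; exact hd ▸ hr
    by_cases hq : ∃ q ∈ U, GGT p ≠ GGT q
    · obtain ⟨q, hq, hGq⟩ := hq
      exact d1_falseT hU hGq hall hq
    · push Not at hq
      have h4 : ∀ a', ∃ e, x a' = shT p e := fun a' =>
        eq_sh_of_GG hU hpU (hx a') (hq _ (hx a')).symm
      choose e he using h4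
      obtain ⟨a', b', hab', heq⟩ := Fintype.exists_ne_map_eq_of_card_lt e
        (by simp : Fintype.card (ZMod 3) < Fintype.card (Fin 4))
      apply hcon a' b' hab'
      rw [he, he, heq]
  · push Not at hthird
    have hno : ∀ r ∈ U, GGT r = GGT p → r = p ∨ r = shT p c := by
      intro r hr hGr
      by_cases h : r = p
      · exact Or.inl h
      · exact Or.inr (hthird r hr hGr h)
    obtain ⟨a', b', hab', h1, h2, h3, h4⟩ := othersT a b hab
    have hG1 : GGT (x a') ≠ GGT p := by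
      intro h
      rcases hno _ (hx a') h with h5 | h5
      · exact hcon a' a h1 h5
      · exact hcon a' b h2 (h5.trans hc.symm)
    have hG2 : GGT (x b') ≠ GGT p := by
      intro h
      rcases hno _ (hx b') h with h5 | h5
      · exact hcon b' a h3 h5
      · exact hcon b' b h4 (h5.trans hc.symm)
    by_cases hG3 : GGT (x b') = GGT (x a')
    · obtain ⟨d, hd⟩ := eq_sh_of_GG hU (hx a') (hx b') hG3
      have hd0 : d ≠ 0 := by
        intro h
        apply hcon a' b' hab'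
        rw [hd, h, shT_zero]
      exact d2_falseT hU hG1.symm hpU hpcU (hx a') (hd ▸ hx b') hc0 hd0
    · have h5 : ∀ g g1 g2 : ZMod 3, g1 ≠ g → g2 ≠ g → g2 ≠ g1 →
          (g1 = g + 1 ∧ g2 = g - 1) ∨ (g2 = g + 1 ∧ g1 = g - 1) := by decide
      rcases h5 _ _ _ hG1 hG2 hG3 with ⟨h6, h7⟩ | ⟨h6, h7⟩
      · exact d3_qsT hU hc0 hpU hpcU (hx a') (hx b') h6 h7 hno
      · exact d3_qsT hU hc0 hpU hpcU (hx b') (hx a') h6 h7 hno

end CodegDens
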