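import Pool.Agent.Lib.MP_81e58e_co.E3EngCB
import Pool.Agent.Lib.MP_81e58e_co.E3Type

/-!
# Module E3Chain: the chain version of the bound for the number of types (problem MP_81e58e_co)
-/

namespace CodegDens

/-- an increasing chain of `n ≥ 30` subsets of the set of types has a repetition -/
theorem chain_rep {n : ℕ} (hn : 30 ≤ n) (U : ℕ → Set (Fin 3 → ZMod 3))
    (hU : ∀ s, s < n → U s ⊆ U (s + 1)) : ∃ s, s < n ∧ U s = U (s + 1) := by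
  classical
  by_contra hcon
  push Not at hcon
  have h1 : ∀ s, s ≤ n → s ≤ (U s).ncard := by
    intro s
    induction s with
    | zero => intro _; exact Nat.zero_le _
    | succ s ih =>
      intro hs
      have h2 := ih (by omega)
      have h3 : U s ⊂ U (s + 1) := (hU s (by omega)).ssubset_of_ne (hcon s (by omega))
      have h4 := Set.ncard_lt_ncard h3 (Set.toFinite _)
      omega
  have h2 := h1 n le_rfl
  have h3 : (U n).ncard ≤ 27 := by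
    have h4 : (U n).ncard ≤ (Set.univ : Set (Fin 3 → ZMod 3)).ncard :=
      Set.ncard_le_ncard (Set.subset_univ _) (Set.toFinite _)
    rw [Set.ncard_univ, Nat.card_eq_fintype_card] at h4
    simpa [ZMod.card] using h4
  omega

theorem p1_chain {V : Type} {R : V → V → V → Prop} (hR : Sym3 R) {n : ℕ} (hn : 30 ≤ n)
    (Y : ℕ → Set V) (hmono : ∀ s, s < n → Y s ⊆ Y (s + 1))
    (hj : ∀ s, s < n → J3 R (Y s) (Y (s + 1))) (φ : Fin 3 → V → ZMod 3)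
    (hφ : ∀ x ∈ Y n, ∀ y ∈ Y n, ∀ z ∈ Y n, R x y z → In01 (φ 0 x + φ 1 y + φ 2 z)) :
    ∀ x : Fin 4 → V, (∀ a, x a ∈ Y 0) → ∃ a b, a ≠ b ∧ ∀ j, φ j (x a) = φ j (x b) := by
  intro x hx
  set T : V → Fin 3 → ZMod 3 := fun v j => φ j v with hT
  obtain ⟨s, hs, hse⟩ := chain_rep hn (fun s => T '' Y s)
    (fun s hs => Set.image_mono (hmono s hs))
  have hup : ∀ a b, a ≤ b → b ≤ n → Y a ⊆ Y b := by
    intro a b hab
    induction b, hab using Nat.le_induction with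
    | base => intro _; exact le_rfl
    | succ b hab ih => intro hb; exact (ih (by omega)).trans (hmono b (by omega))
  have hJ : J3 Al (T '' Y s) (T '' Y s) := by
    rintro _ ⟨x₁, hx₁, rfl⟩ _ ⟨y₁, hy₁, rfl⟩ _ ⟨x₂, hx₂, rfl⟩ _ ⟨y₂, hy₂, rfl⟩ _ ⟨x₃, hx₃, rfl⟩
      _ ⟨y₃, hy₃, rfl⟩
    obtain ⟨z, hz, hzz⟩ := hj s hs x₁ hx₁ y₁ hy₁ x₂ hx₂ y₂ hy₂ x₃ hx₃ y₃ hy₃
    have hsn : Y s ⊆ Y n := hup s n hs.le le_rfl
    have hs1n : Y (s + 1) ⊆ Y n := hup (s + 1) n (by omega) le_rfl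
    have hal : ∀ a ∈ Y s, ∀ b ∈ Y s, R a b z → Al (T a) (T b) (T z) := fun a ha b hb h =>
      CB.al_of_edge hR φ hφ (hsn ha) (hsn hb) (hs1n hz) h
    refine ⟨T z, ?_, ?_⟩
    · rw [hse]
      exact ⟨z, hz, rfl⟩
    · rcases hzz with ⟨g1, g2⟩ | ⟨g1, g2⟩ | ⟨g1, g2⟩
      · exact Or.inl ⟨hal _ hx₁ _ hy₁ g1, hal _ hx₂ _ hy₂ g2⟩
      · exact Or.inr (Or.inl ⟨hal _ hx₁ _ hy₁ g1, hal _ hx₃ _ hy₃ g2⟩)
      · exact Or.inr (Or.inr ⟨hal _ hx₂ _ hy₂ g1, hal _ hx₃ _ hy₃ g2⟩)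
  obtain ⟨a, b, hab, heq⟩ := p1_types (T '' Y s) hJ (fun a => T (x a))
    (fun a => ⟨x a, hup 0 s (Nat.zero_le _) hs.le (hx a), rfl⟩)
  exact ⟨a, b, hab, fun j => congrFun heq j⟩

end CodegDens
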