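import Pool.Agent.Lib.MP_81e58e_co.LabDefs

/-!
# The step `a -> (1+a)/3` for `k = 3`: definitions (problem MP_81e58e_co)
-/

namespace CodegDens

/-- The pattern `E_3[Q]` for `k = 3`: the classes are pairs `(u, c)`; three of them form an edge
if the first coordinates have sum `1`, or if they have sum `0` and the second coordinates form an
edge of `Q`. -/
def E3Pat {C : Type} (Q : Set (Multiset C)) : Set (Multiset (ZMod 3 × C)) :=
  {e | e.card = 3 ∧ ((e.map Prod.fst).sum = 1 ∨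
    ((e.map Prod.fst).sum = 0 ∧ e.map Prod.snd ∈ Q))}

/-- `z` is `0` or `1`. -/
def In01 (z : ZMod 3) : Prop := z = 0 ∨ z = 1

/-- `R` is a symmetric ternary relation. -/
structure Sym3 {V : Type} (R : V → V → V → Prop) : Prop where
  s12 : ∀ x y z, R x y z → R y x z
  s23 : ∀ x y z, R x y z → R x z y

/-- Among any three pairs of elements of `A` two have a common completion in `B`. -/
def J3 {V : Type} (R : V → V → V → Prop) (A B : Set V) : Prop :=
  ∀ x₁ ∈ A, ∀ y₁ ∈ A, ∀ x₂ ∈ A, ∀ y₂ ∈ A, ∀ x₃ ∈ A, ∀ y₃ ∈ A, ∃ z ∈ B,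
    (R x₁ y₁ z ∧ R x₂ y₂ z) ∨ (R x₁ y₁ z ∧ R x₃ y₃ z) ∨ (R x₂ y₂ z ∧ R x₃ y₃ z)

/-- A closed irreducible factor: symmetric, `J3`, and no proper nonempty closed subset. -/
structure Fac {C : Type} (R : C → C → C → Prop) : Prop where
  sym : Sym3 R
  j3 : J3 R Set.univ Set.univ
  irr : ∀ K : Set C, K.Nonempty → (∀ x ∈ K, ∀ y ∈ K, ∀ z, R x y z → z ∈ K) → K = Set.univ

/-- The relation on types (columns of three functions): all six arrangements have sum
`0` or `1`. -/
def Al (a b c : Fin 3 → ZMod 3) : Prop :=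
  ∀ σ : Equiv.Perm (Fin 3), In01 (a (σ 0) + b (σ 1) + c (σ 2))

/-- `D ⊆ D'` on `B`, and the two edge conditions used in the three-chain argument. -/
def CBrel {V : Type} (R : V → V → V → Prop) (A B : Set V) (D D' : V → Prop) : Prop :=
  (∀ x ∈ B, D x → D' x) ∧ ∀ x ∈ A, ∀ y ∈ A, ∀ z ∈ B, R x y z →
    (¬ D x → D' x → ¬ D' y → D' z) ∧ (D x → ¬ D y → D' y → ¬ D z)

end CodegDens
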