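import Pool.Agent.Lib.MP_81e58e_co.E3Type

/-!
# The step `a -> (1+a)/3` for `k = 3`: facts about factors
-/

namespace CodegDens

/-- the type of a point -/
def tyK {C : Type} (φ : Fin 3 → C → ZMod 3) (x : C) : Fin 3 → ZMod 3 := fun j => φ j x

theorem tyK_a6 {C : Type} {R : C → C → C → Prop} (hR : Sym3 R) {φ : Fin 3 → C → ZMod 3}
    (hφ : ∀ x y z, R x y z → In01 (φ 0 x + φ 1 y + φ 2 z)) {x y z : C} (h : R x y z) :
    A6 (tyK φ x) (tyK φ y) (tyK φ z) := by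
  have h132 := hR.s23 _ _ _ h
  have h213 := hR.s12 _ _ _ h
  have h312 := hR.s12 _ _ _ h132
  have h231 := hR.s23 _ _ _ h213
  have h321 := hR.s12 _ _ _ h231
  unfold A6 tyK
  refine ⟨hφ _ _ _ h, ?_, ?_, ?_, ?_, ?_⟩
  · convert hφ _ _ _ h132 using 1; ring
  · convert hφ _ _ _ h213 using 1; ring
  · convert hφ _ _ _ h312 using 1; ring
  · convert hφ _ _ _ h231 using 1; ring
  · convert hφ _ _ _ h321 using 1; ring

theorem tyK_j3 {C : Type} {R : C → C → C → Prop} (hF : Fac R) {φ : Fin 3 → C → ZMod 3}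
    (hφ : ∀ x y z, R x y z → In01 (φ 0 x + φ 1 y + φ 2 z)) :
    J3 Al (Set.range (tyK φ)) (Set.range (tyK φ)) := by
  rintro _ ⟨x1, rfl⟩ _ ⟨y1, rfl⟩ _ ⟨x2, rfl⟩ _ ⟨y2, rfl⟩ _ ⟨x3, rfl⟩ _ ⟨y3, rfl⟩
  obtain ⟨z, _, hz⟩ := hF.j3 x1 trivial y1 trivial x2 trivial y2 trivial x3 trivial y3 trivial
  refine ⟨tyK φ z, ⟨z, rfl⟩, ?_⟩
  rcases hz with h | h | h
  · exact Or.inl ⟨(tyK_a6 hF.sym hφ h.1).al, (tyK_a6 hF.sym hφ h.2).al⟩
  · exact Or.inr (Or.inl ⟨(tyK_a6 hF.sym hφ h.1).al, (tyK_a6 hF.sym hφ h.2).al⟩)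
  · exact Or.inr (Or.inr ⟨(tyK_a6 hF.sym hφ h.1).al, (tyK_a6 hF.sym hφ h.2).al⟩)

theorem tyK_exhaust {C : Type} {R : C → C → C → Prop} (hF : Fac R) {φ : Fin 3 → C → ZMod 3}
    (hφ : ∀ x y z, R x y z → In01 (φ 0 x + φ 1 y + φ 2 z)) (t0 t1 t2 : C)
    (h01 : tyK φ t0 ≠ tyK φ t1) (h02 : tyK φ t0 ≠ tyK φ t2) (h12 : tyK φ t1 ≠ tyK φ t2) (x : C) :
    tyK φ x = tyK φ t0 ∨ tyK φ x = tyK φ t1 ∨ tyK φ x = tyK φ t2 := by
  obtain ⟨a, b, hab, he⟩ := p1_types _ (tyK_j3 hF hφ)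
    (![tyK φ t0, tyK φ t1, tyK φ t2, tyK φ x]) (by
      intro a
      fin_cases a <;> simp)
  by_contra hcon
  push Not at hcon
  obtain ⟨c0, c1, c2⟩ := hcon
  fin_cases a <;> fin_cases b <;> first
    | exact hab rfl
    | exact h01 he
    | exact h01 he.symm
    | exact h02 he
    | exact h02 he.symm
    | exact h12 he
    | exact h12 he.symm
    | exact c0 he
    | exact c0 he.symm
    | exact c1 he
    | exact c1 he.symm
    | exact c2 he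
    | exact c2 he.symm

/-- a triple of pairs contradicting `J3` -/
def BJ (AL : Fin 3 → Fin 3 → Fin 3 → Prop) (x1 y1 x2 y2 x3 y3 : Fin 3) : Prop :=
  ∀ z : Fin 3, ¬ ((AL x1 y1 z ∧ AL x2 y2 z) ∨ (AL x1 y1 z ∧ AL x3 y3 z) ∨
    (AL x2 y2 z ∧ AL x3 y3 z))

instance instDecBJ (AL : Fin 3 → Fin 3 → Fin 3 → Prop) [∀ x y z, Decidable (AL x y z)]
    (x1 y1 x2 y2 x3 y3 : Fin 3) : Decidable (BJ AL x1 y1 x2 y2 x3 y3) := by
  unfold BJ; infer_instance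

/-- a closed set of indices -/
def BI (AL : Fin 3 → Fin 3 → Fin 3 → Prop) (S : Fin 3 → Bool) : Prop :=
  ∀ x y z : Fin 3, S x = true → S y = true → S z = false → ¬ AL x y z

instance instDecBI (AL : Fin 3 → Fin 3 → Fin 3 → Prop) [∀ x y z, Decidable (AL x y z)]
    (S : Fin 3 → Bool) : Decidable (BI AL S) := by
  unfold BI; infer_instance

/-- the relation on the indices -/
def ALk (s : ZMod 3) (tt : Fin 3 → Fin 3 → ZMod 3) (x y z : Fin 3) : Prop :=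
  A6 (fun k => s + tt x k) (tt y) (tt z)

instance instDecALk (s : ZMod 3) (tt : Fin 3 → Fin 3 → ZMod 3) (x y z : Fin 3) :
    Decidable (ALk s tt x y z) := by
  unfold ALk; infer_instance

theorem bj_false {C : Type} {R : C → C → C → Prop} (hF : Fac R) {φ : Fin 3 → C → ZMod 3}
    (hφ : ∀ x y z, R x y z → In01 (φ 0 x + φ 1 y + φ 2 z)) {AL : Fin 3 → Fin 3 → Fin 3 → Prop}
    {T : Fin 3 → C}
    (hAL : ∀ x y z, A6 (tyK φ (T x)) (tyK φ (T y)) (tyK φ (T z)) → AL x y z)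
    (hT : ∀ x, ∃ k, tyK φ x = tyK φ (T k)) {x1 y1 x2 y2 x3 y3 : Fin 3}
    (hB : BJ AL x1 y1 x2 y2 x3 y3) : False := by
  obtain ⟨z, _, hz⟩ := hF.j3 (T x1) trivial (T y1) trivial (T x2) trivial (T y2) trivial
    (T x3) trivial (T y3) trivial
  obtain ⟨k, hk⟩ := hT z
  have h1 : ∀ x y, R (T x) (T y) z → AL x y k := by
    intro x y h
    apply hAL
    rw [← hk]
    exact tyK_a6 hF.sym hφ h
  apply hB k
  rcases hz with h | h | h
  · exact Or.inl ⟨h1 _ _ h.1, h1 _ _ h.2⟩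
  · exact Or.inr (Or.inl ⟨h1 _ _ h.1, h1 _ _ h.2⟩)
  · exact Or.inr (Or.inr ⟨h1 _ _ h.1, h1 _ _ h.2⟩)

theorem bi_false {C : Type} {R : C → C → C → Prop} (hF : Fac R) {φ : Fin 3 → C → ZMod 3}
    (hφ : ∀ x y z, R x y z → In01 (φ 0 x + φ 1 y + φ 2 z)) {AL : Fin 3 → Fin 3 → Fin 3 → Prop}
    {T : Fin 3 → C}
    (hAL : ∀ x y z, A6 (tyK φ (T x)) (tyK φ (T y)) (tyK φ (T z)) → AL x y z)
    (hT : ∀ x, ∃ k, tyK φ x = tyK φ (T k)) {S : Fin 3 → Bool}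
    (hB : BI AL S) {k0 k1 : Fin 3} (h0 : S k0 = true)
    (h1 : ∀ s, S s = true → tyK φ (T k1) ≠ tyK φ (T s)) : False := by
  have hK := hF.irr {x | ∃ s, S s = true ∧ tyK φ x = tyK φ (T s)} ⟨T k0, k0, h0, rfl⟩ (by
    rintro x ⟨s, hs, hxs⟩ y ⟨s', hs', hys⟩ z hz
    obtain ⟨k, hk⟩ := hT z
    have h2 := tyK_a6 hF.sym hφ hz
    rw [hxs, hys, hk] at h2
    by_cases hSk : S k = true
    · exact ⟨k, hSk, hk⟩
    · exact (hB s s' k hs hs' (by simpa using hSk) (hAL _ _ _ h2)).elim)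
  have h2 : T k1 ∈ {x | ∃ s, S s = true ∧ tyK φ x = tyK φ (T s)} := by
    rw [hK]; trivial
  obtain ⟨s, hs, hs'⟩ := h2
  exact h1 s hs hs'

/-- the three types with the last column `0, 1, 2` -/
def tt3 (a0 a1 b0 b1 c0 c1 : ZMod 3) : Fin 3 → Fin 3 → ZMod 3 :=
  ![![a0, a1, 0], ![b0, b1, 1], ![c0, c1, 2]]

theorem finK1 : ∀ a0 a1 b0 b1 c0 c1 : ZMod 3, ¬ (∀ u : ZMod 3, u = a0 ∨ u = b0 ∨ u = c0) →
    ¬ (∀ u : ZMod 3, u = a1 ∨ u = b1 ∨ u = c1) →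
    BJ (ALk 0 (tt3 a0 a1 b0 b1 c0 c1)) 0 1 0 2 1 2 ∨
    BI (ALk 0 (tt3 a0 a1 b0 b1 c0 c1)) ![true, false, false] ∨
    BI (ALk 0 (tt3 a0 a1 b0 b1 c0 c1)) ![false, true, false] ∨
    BI (ALk 0 (tt3 a0 a1 b0 b1 c0 c1)) ![false, false, true] ∨
    BI (ALk 0 (tt3 a0 a1 b0 b1 c0 c1)) ![true, false, true] ∨
    BI (ALk 0 (tt3 a0 a1 b0 b1 c0 c1)) ![true, true, false] ∨
    BI (ALk 0 (tt3 a0 a1 b0 b1 c0 c1)) ![false, true, true] := by
  decide +kernel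

theorem finK2 : ∀ a0 a1 b0 b1 c0 c1 : ZMod 3, a0 ≠ b0 → a0 ≠ c0 → b0 ≠ c0 →
    a1 ≠ b1 → a1 ≠ c1 → b1 ≠ c1 → ¬ (a0 - a1 = b0 - b1 ∧ b0 - b1 = c0 - c1) →
    BJ (ALk 0 (tt3 a0 a1 b0 b1 c0 c1)) 0 1 0 2 1 1 ∨
    BJ (ALk 0 (tt3 a0 a1 b0 b1 c0 c1)) 0 1 1 1 1 2 := by
  decide +kernel

/-- an element of `{0, 1}` -/
def bz (b : Bool) : ZMod 3 := if b then 1 else 0

/-- three types with values in `{0, 1}` -/
def ttb (a1 a2 b1 b2 c0 c1 c2 : Bool) : Fin 3 → Fin 3 → ZMod 3 :=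
  ![![0, bz a1, bz a2], ![1, bz b1, bz b2], ![bz c0, bz c1, bz c2]]

theorem finK3 : ∀ s : ZMod 3, s ≠ 2 → ∀ a1 a2 b1 b2 c0 c1 c2 : Bool,
    ¬ (a1 = b1 ∧ b1 = c1) → ¬ (a2 = b2 ∧ b2 = c2) →
    BJ (ALk s (ttb a1 a2 b1 b2 c0 c1 c2)) 0 1 1 1 1 2 ∨
    BJ (ALk s (ttb a1 a2 b1 b2 c0 c1 c2)) 0 0 0 1 0 2 ∨
    BJ (ALk s (ttb a1 a2 b1 b2 c0 c1 c2)) 0 2 1 2 2 2 ∨
    BI (ALk s (ttb a1 a2 b1 b2 c0 c1 c2)) ![true, false, false] ∨
    BI (ALk s (ttb a1 a2 b1 b2 c0 c1 c2)) ![false, true, false] ∨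
    (¬ (b1 = c1 ∧ b2 = c2 ∧ c0 = true) ∧
      BI (ALk s (ttb a1 a2 b1 b2 c0 c1 c2)) ![true, false, true]) ∨
    (¬ (a1 = c1 ∧ a2 = c2 ∧ c0 = false) ∧
      BI (ALk s (ttb a1 a2 b1 b2 c0 c1 c2)) ![false, true, true]) := by
  decide +kernel

theorem three_ne : ∀ x y z : ZMod 3, ¬ (¬ (∀ u : ZMod 3, u = x ∨ u = y ∨ u = z)) →
    x ≠ y ∧ x ≠ z ∧ y ≠ z := by decide

theorem not_surj_cases {C : Type} {f : C → ZMod 3} (h : ¬ Function.Surjective f) (x y z : C) :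
    ¬ (∀ u : ZMod 3, u = f x ∨ u = f y ∨ u = f z) := by
  intro hcon
  apply h
  intro u
  rcases hcon u with h1 | h1 | h1
  · exact ⟨x, h1.symm⟩
  · exact ⟨y, h1.symm⟩
  · exact ⟨z, h1.symm⟩

/-- the setting of `fac_K1` and `fac_K2`: the three types are given by the values of `φ 2` -/
theorem setK {C : Type} {R : C → C → C → Prop} (hF : Fac R) {φ : Fin 3 → C → ZMod 3}
    (hφ : ∀ x y z, R x y z → In01 (φ 0 x + φ 1 y + φ 2 z)) {t0 t1 t2 : C}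
    (h0 : φ 2 t0 = 0) (h1 : φ 2 t1 = 1) (h2 : φ 2 t2 = 2) :
    (∀ x y z, A6 (tyK φ (![t0, t1, t2] x)) (tyK φ (![t0, t1, t2] y)) (tyK φ (![t0, t1, t2] z)) →
      ALk 0 (tt3 (φ 0 t0) (φ 1 t0) (φ 0 t1) (φ 1 t1) (φ 0 t2) (φ 1 t2)) x y z) ∧
    (∀ x, ∃ k, tyK φ x = tyK φ (![t0, t1, t2] k)) ∧
    tyK φ t0 ≠ tyK φ t1 ∧ tyK φ t0 ≠ tyK φ t2 ∧ tyK φ t1 ≠ tyK φ t2 := by
  have d01 : tyK φ t0 ≠ tyK φ t1 := by
    intro h
    have := congrFun h 2
    simp only [tyK, h0, h1] at this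
    exact absurd this (by decide)
  have d02 : tyK φ t0 ≠ tyK φ t2 := by
    intro h
    have := congrFun h 2
    simp only [tyK, h0, h2] at this
    exact absurd this (by decide)
  have d12 : tyK φ t1 ≠ tyK φ t2 := by
    intro h
    have := congrFun h 2
    simp only [tyK, h1, h2] at this
    exact absurd this (by decide)
  refine ⟨?_, ?_, d01, d02, d12⟩
  · intro x y z h
    have e : ∀ k, tyK φ (![t0, t1, t2] k)
        = tt3 (φ 0 t0) (φ 1 t0) (φ 0 t1) (φ 1 t1) (φ 0 t2) (φ 1 t2) k := by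
      intro k
      funext j
      fin_cases k <;> fin_cases j
      · rfl
      · rfl
      · exact h0
      · rfl
      · rfl
      · exact h1
      · rfl
      · rfl
      · exact h2
    unfold ALk
    rw [e, e, e] at h
    simpa using h
  · intro x
    rcases tyK_exhaust hF hφ t0 t1 t2 d01 d02 d12 x with h | h | h
    · exact ⟨0, h⟩
    · exact ⟨1, h⟩
    · exact ⟨2, h⟩

theorem fac_K1 {C : Type} {R : C → C → C → Prop} (hF : Fac R) (φ : Fin 3 → C → ZMod 3)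
    (hφ : ∀ x y z, R x y z → In01 (φ 0 x + φ 1 y + φ 2 z))
    (h0 : ¬ Function.Surjective (φ 0)) (h1 : ¬ Function.Surjective (φ 1)) :
    ¬ Function.Surjective (φ 2) := by
  intro hs
  obtain ⟨t0, k0⟩ := hs 0
  obtain ⟨t1, k1⟩ := hs 1
  obtain ⟨t2, k2⟩ := hs 2
  obtain ⟨hAL, hT, d01, d02, d12⟩ := setK hF hφ k0 k1 k2
  rcases finK1 (φ 0 t0) (φ 1 t0) (φ 0 t1) (φ 1 t1) (φ 0 t2) (φ 1 t2)
    (not_surj_cases h0 t0 t1 t2) (not_surj_cases h1 t0 t1 t2) with h | h | h | h | h | h | h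
  · exact bj_false hF hφ hAL hT h
  · refine bi_false hF hφ hAL hT h (k0 := 0) (k1 := 1) rfl ?_
    intro s hs
    fin_cases s
    · exact d01.symm
    · exact absurd hs (by simp)
    · exact absurd hs (by simp)
  · refine bi_false hF hφ hAL hT h (k0 := 1) (k1 := 0) rfl ?_
    intro s hs
    fin_cases s
    · exact absurd hs (by simp)
    · exact d01
    · exact absurd hs (by simp)
  · refine bi_false hF hφ hAL hT h (k0 := 2) (k1 := 0) rfl ?_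
    intro s hs
    fin_cases s
    · exact absurd hs (by simp)
    · exact absurd hs (by simp)
    · exact d02
  · refine bi_false hF hφ hAL hT h (k0 := 0) (k1 := 1) rfl ?_
    intro s hs
    fin_cases s
    · exact d01.symm
    · exact absurd hs (by simp)
    · exact d12
  · refine bi_false hF hφ hAL hT h (k0 := 0) (k1 := 2) rfl ?_
    intro s hs
    fin_cases s
    · exact d02.symm
    · exact d12.symm
    · exact absurd hs (by simp)
  · refine bi_false hF hφ hAL hT h (k0 := 1) (k1 := 0) rfl ?_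
    intro s hs
    fin_cases s
    · exact absurd hs (by simp)
    · exact d01
    · exact d02

theorem surj_of_exhaust {C : Type} {φ : Fin 3 → C → ZMod 3} {t0 t1 t2 : C} {j : Fin 3}
    (hT : ∀ x, ∃ k, tyK φ x = tyK φ (![t0, t1, t2] k)) (hs : Function.Surjective (φ j)) :
    ∀ u : ZMod 3, u = φ j t0 ∨ u = φ j t1 ∨ u = φ j t2 := by
  intro u
  obtain ⟨x, rfl⟩ := hs u
  obtain ⟨k, hk⟩ := hT x
  have := congrFun hk j
  simp only [tyK] at this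
  fin_cases k
  · exact Or.inl this
  · exact Or.inr (Or.inl this)
  · exact Or.inr (Or.inr this)

theorem fac_K2 {C : Type} {R : C → C → C → Prop} (hF : Fac R) (φ : Fin 3 → C → ZMod 3)
    (hφ : ∀ x y z, R x y z → In01 (φ 0 x + φ 1 y + φ 2 z))
    (hs : ∀ j, Function.Surjective (φ j)) : ∃ c, ∀ x, φ 0 x = φ 1 x + c := by
  obtain ⟨t0, k0⟩ := hs 2 0
  obtain ⟨t1, k1⟩ := hs 2 1
  obtain ⟨t2, k2⟩ := hs 2 2
  obtain ⟨hAL, hT, d01, d02, d12⟩ := setK hF hφ k0 k1 k2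
  by_cases hc : φ 0 t0 - φ 1 t0 = φ 0 t1 - φ 1 t1 ∧ φ 0 t1 - φ 1 t1 = φ 0 t2 - φ 1 t2
  · refine ⟨φ 0 t0 - φ 1 t0, ?_⟩
    intro x
    obtain ⟨k, hk⟩ := hT x
    have e0 := congrFun hk 0
    have e1 := congrFun hk 1
    simp only [tyK] at e0 e1
    fin_cases k
    · have e0' : φ 0 x = φ 0 t0 := e0
      have e1' : φ 1 x = φ 1 t0 := e1
      rw [e0', e1']; ring
    · have e0' : φ 0 x = φ 0 t1 := e0
      have e1' : φ 1 x = φ 1 t1 := e1
      rw [e0', e1', hc.1]; ring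
    · have e0' : φ 0 x = φ 0 t2 := e0
      have e1' : φ 1 x = φ 1 t2 := e1
      rw [e0', e1', hc.1, hc.2]; ring
  · exfalso
    obtain ⟨n1, n2, n3⟩ := three_ne _ _ _ (not_not_intro (surj_of_exhaust hT (hs 0)))
    obtain ⟨n4, n5, n6⟩ := three_ne _ _ _ (not_not_intro (surj_of_exhaust hT (hs 1)))
    rcases finK2 (φ 0 t0) (φ 1 t0) (φ 0 t1) (φ 1 t1) (φ 0 t2) (φ 1 t2)
      n1 n2 n3 n4 n5 n6 hc with h | h
    · exact bj_false hF hφ hAL hT h
    · exact bj_false hF hφ hAL hT h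

theorem fac_K3 {C : Type} {R : C → C → C → Prop} (hF : Fac R) (φ : Fin 3 → C → ZMod 3)
    (hφ : ∀ x y z, R x y z → In01 (φ 0 x + φ 1 y + φ 2 z)) (c : Fin 3 → ZMod 3)
    (hc : ∀ j x, φ j x = c j ∨ φ j x = c j + 1) (hn : ∀ j, ∃ x y, φ j x ≠ φ j y) :
    c 0 + c 1 + c 2 = 2 := by
  by_contra hsum
  -- two points with different first entries
  have h01 : ∃ t0 t1, φ 0 t0 = c 0 ∧ φ 0 t1 = c 0 + 1 := by
    obtain ⟨x, y, hxy⟩ := hn 0
    rcases hc 0 x with h | h <;> rcases hc 0 y with h' | h'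
    · exact absurd (h.trans h'.symm) hxy
    · exact ⟨x, y, h, h'⟩
    · exact ⟨y, x, h', h⟩
    · exact absurd (h.trans h'.symm) hxy
  obtain ⟨t0, t1, k0, k1⟩ := h01
  have d01 : tyK φ t0 ≠ tyK φ t1 := by
    intro h
    have := congrFun h 0
    simp only [tyK, k0, k1] at this
    have h3 : ∀ z : ZMod 3, z ≠ z + 1 := by decide
    exact h3 _ this
  obtain ⟨t2, hT⟩ : ∃ t2, ∀ x, ∃ k, tyK φ x = tyK φ (![t0, t1, t2] k) := by
    by_cases h : ∀ x, tyK φ x = tyK φ t0 ∨ tyK φ x = tyK φ t1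
    · refine ⟨t1, ?_⟩
      intro x
      rcases h x with h | h
      · exact ⟨0, h⟩
      · exact ⟨1, h⟩
    · push Not at h
      obtain ⟨t2, h0, h1⟩ := h
      refine ⟨t2, ?_⟩
      intro x
      rcases tyK_exhaust hF hφ t0 t1 t2 d01 h0.symm h1.symm x with h | h | h
      · exact ⟨0, h⟩
      · exact ⟨1, h⟩
      · exact ⟨2, h⟩
  -- boolean coordinates
  have hb : ∀ j x, ∃ b : Bool, φ j x = c j + bz b := by
    intro j x
    rcases hc j x with h | h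
    · exact ⟨false, by rw [h]; simp [bz]⟩
    · exact ⟨true, by rw [h]; simp [bz]⟩
  obtain ⟨a1, ha1⟩ := hb 1 t0
  obtain ⟨a2, ha2⟩ := hb 2 t0
  obtain ⟨b1, hb1⟩ := hb 1 t1
  obtain ⟨b2, hb2⟩ := hb 2 t1
  obtain ⟨c0, hc0⟩ := hb 0 t2
  obtain ⟨c1, hc1⟩ := hb 1 t2
  obtain ⟨c2, hc2⟩ := hb 2 t2
  have e : ∀ k j, tyK φ (![t0, t1, t2] k) j = c j + ttb a1 a2 b1 b2 c0 c1 c2 k j := by
    intro k j
    fin_cases k <;> fin_cases j
    · show φ 0 t0 = c 0 + 0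
      rw [k0, add_zero]
    · exact ha1
    · exact ha2
    · exact k1
    · exact hb1
    · exact hb2
    · exact hc0
    · exact hc1
    · exact hc2
  have hAL : ∀ x y z, A6 (tyK φ (![t0, t1, t2] x)) (tyK φ (![t0, t1, t2] y))
      (tyK φ (![t0, t1, t2] z)) →
      ALk (c 0 + c 1 + c 2) (ttb a1 a2 b1 b2 c0 c1 c2) x y z := by
    intro x y z h
    unfold A6 at h
    simp only [e] at h
    obtain ⟨h1, h2, h3, h4, h5, h6⟩ := h
    unfold ALk A6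
    refine ⟨?_, ?_, ?_, ?_, ?_, ?_⟩
    · convert h1 using 1; ring
    · convert h2 using 1; ring
    · convert h3 using 1; ring
    · convert h4 using 1; ring
    · convert h5 using 1; ring
    · convert h6 using 1; ring
  have hcol : ∀ j, ¬ (φ j t0 = φ j t1 ∧ φ j t1 = φ j t2) := by
    intro j hcon
    obtain ⟨x, y, hxy⟩ := hn j
    have h3 : ∀ x, φ j x = φ j t0 := by
      intro x
      obtain ⟨k, hk⟩ := hT x
      have := congrFun hk j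
      simp only [tyK] at this
      fin_cases k
      · exact this
      · exact this.trans hcon.1.symm
      · exact this.trans (hcon.2.symm.trans hcon.1.symm)
    exact hxy ((h3 x).trans (h3 y).symm)
  have hn1 : ¬ (a1 = b1 ∧ b1 = c1) := by
    rintro ⟨h1, h2⟩
    exact hcol 1 ⟨by rw [ha1, hb1, h1], by rw [hb1, hc1, h2]⟩
  have hn2 : ¬ (a2 = b2 ∧ b2 = c2) := by
    rintro ⟨h1, h2⟩
    exact hcol 2 ⟨by rw [ha2, hb2, h1], by rw [hb2, hc2, h2]⟩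
  have bz_inj : ∀ b b' : Bool, ∀ z : ZMod 3, z + bz b = z + bz b' → b = b' := by decide
  rcases finK3 (c 0 + c 1 + c 2) hsum a1 a2 b1 b2 c0 c1 c2 hn1 hn2 with
    h | h | h | h | h | ⟨h', h⟩ | ⟨h', h⟩
  · exact bj_false hF hφ hAL hT h
  · exact bj_false hF hφ hAL hT h
  · exact bj_false hF hφ hAL hT h
  · refine bi_false hF hφ hAL hT h (k0 := 0) (k1 := 1) rfl ?_
    intro s hs
    fin_cases s
    · exact d01.symm
    · exact absurd hs (by simp)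
    · exact absurd hs (by simp)
  · refine bi_false hF hφ hAL hT h (k0 := 1) (k1 := 0) rfl ?_
    intro s hs
    fin_cases s
    · exact absurd hs (by simp)
    · exact d01
    · exact absurd hs (by simp)
  · refine bi_false hF hφ hAL hT h (k0 := 0) (k1 := 1) rfl ?_
    intro s hs
    fin_cases s
    · exact d01.symm
    · exact absurd hs (by simp)
    · intro heq
      apply h'
      have q0 : φ 0 t1 = φ 0 t2 := congrFun heq 0
      have q1 : φ 1 t1 = φ 1 t2 := congrFun heq 1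
      have q2 : φ 2 t1 = φ 2 t2 := congrFun heq 2
      rw [k1, hc0] at q0
      rw [hb1, hc1] at q1
      rw [hb2, hc2] at q2
      refine ⟨bz_inj _ _ _ q1, bz_inj _ _ _ q2, ?_⟩
      exact (bz_inj true c0 (c 0) q0).symm
  · refine bi_false hF hφ hAL hT h (k0 := 1) (k1 := 0) rfl ?_
    intro s hs
    fin_cases s
    · exact absurd hs (by simp)
    · exact d01
    · intro heq
      apply h'
      have q0 : φ 0 t0 = φ 0 t2 := congrFun heq 0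
      have q1 : φ 1 t0 = φ 1 t2 := congrFun heq 1
      have q2 : φ 2 t0 = φ 2 t2 := congrFun heq 2
      rw [k0, hc0] at q0
      rw [ha1, hc1] at q1
      rw [ha2, hc2] at q2
      refine ⟨bz_inj _ _ _ q1, bz_inj _ _ _ q2, ?_⟩
      have q3 : c 0 + bz false = c 0 + bz c0 := by rw [← q0]; simp [bz]
      exact (bz_inj false c0 (c 0) q3).symm

end CodegDens
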