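import Pool.Agent.Lib.MP_81e58e_co.E3Goursat

/-!
# Exact sums on product edges are constant (module E3Exact, problem MP_81e58e_co)
-/

namespace CodegDens

theorem e3_exact {ι : Type} [Finite ι] {C : ι → Type} {R : ∀ i, C i → C i → C i → Prop}
    (hF : ∀ i, Fac (R i)) (ρ : (∀ i, C i) → ZMod 3) (τ : ZMod 3)
    (h : ∀ x y z : ∀ i, C i, (∀ i, R i (x i) (y i) (z i)) → ρ x + ρ y + ρ z = τ) :
    ∀ x y, ρ x = ρ y :=
  E3GoursatAux.exact_core hF ρ τ h

end CodegDens
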