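import Mathlib
import Pool.Agent.Lib.MP_81e58e_co.E3Defs

/-!
# Closed sets of products of factors are everything (module E3Goursat, problem MP_81e58e_co)
-/

namespace CodegDens

open Function

namespace E3GoursatAux

section
open Classical

variable {ι : Type} {C : ι → Type} {R : ∀ i, C i → C i → C i → Prop}

private theorem comp_ex {D : Type} {S : D → D → D → Prop} (hF : Fac S) (x y : D) :
    ∃ z, S x y z := by
  obtain ⟨z, -, hz⟩ := hF.j3 x (Set.mem_univ _) y (Set.mem_univ _) x (Set.mem_univ _) y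
    (Set.mem_univ _) x (Set.mem_univ _) y (Set.mem_univ _)
  rcases hz with h | h | h
  · exact ⟨z, h.1⟩
  · exact ⟨z, h.1⟩
  · exact ⟨z, h.1⟩

private theorem upd_rel (l : ι) (y y' c : ∀ i, C i) (b b' d : C l)
    (hc : ∀ j, R j (y j) (y' j) (c j)) (hd : R l b b' d) (i : ι) :
    R i (update y l b i) (update y' l b' i) (update c l d i) := by
  by_cases h : i = l
  · subst h
    simpa using hd
  · rw [update_of_ne h, update_of_ne h, update_of_ne h]
    exact hc i

private theorem one_coord (hF : ∀ i, Fac (R i)) (Z : Set (∀ i, C i)) (hne : Z.Nonempty)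
    (hcl : ∀ x ∈ Z, ∀ y ∈ Z, ∀ z, (∀ i, R i (x i) (y i) (z i)) → z ∈ Z) (l : ι)
    (y : ∀ i, C i) (hy : y ∈ Z) (b : C l) : update y l b ∈ Z := by
  have hsym := (hF l).sym
  have hsymj := fun j => (hF j).sym
  -- (1)
  have h1 : ∀ b : C l, ∃ y : ∀ i, C i, update y l b ∈ Z := by
    have hK := (hF l).irr {b | ∃ y : ∀ i, C i, update y l b ∈ Z} ⟨y l, y, by simpa using hy⟩
      (by
        rintro b ⟨y, hy⟩ b' ⟨y', hy'⟩ d hd
        have hex := fun j => comp_ex (hF j) (y j) (y' j)
        choose c hc using hex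
        exact ⟨c, hcl _ hy _ hy' _ (upd_rel l y y' c b b' d hc hd)⟩)
    intro b
    have : b ∈ {b | ∃ y : ∀ i, C i, update y l b ∈ Z} := by rw [hK]; exact Set.mem_univ _
    exact this
  -- (2)
  have h2 : ∀ b b' : C l, ∀ y y1 : ∀ i, C i, update y l b ∈ Z → update y l b' ∈ Z →
      update y1 l b ∈ Z → update y1 l b' ∈ Z := by
    intro b b' y y1 hyb hyb' hy1
    have hex := fun j => comp_ex (hF j) (y j) (y1 j)
    choose c hc using hex
    obtain ⟨d, hd⟩ := comp_ex (hF l) b b'
    have hcd : update c l d ∈ Z :=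
      hcl _ hy1 _ hyb' _ (upd_rel l y1 y c b b' d (fun j => (hsymj j).s12 _ _ _ (hc j)) hd)
    exact hcl _ hyb _ hcd _ (upd_rel l y c y1 b d b' (fun j => (hsymj j).s23 _ _ _ (hc j))
      (hsym.s23 _ _ _ hd))
  set E : C l → C l → Prop := fun b b' => ∀ y : ∀ i, C i, update y l b ∈ Z ↔ update y l b' ∈ Z
    with hE
  have hrefl : ∀ b, E b b := fun b y => Iff.rfl
  have hsymm : ∀ b b', E b b' → E b' b := fun b b' h y => (h y).symm
  have htrans : ∀ a b c, E a b → E b c → E a c := fun a b c h h' y => (h y).trans (h' y)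
  have hmeet : ∀ b b' (y : ∀ i, C i), update y l b ∈ Z → update y l b' ∈ Z → E b b' := by
    intro b b' y hb hb' y1
    exact ⟨h2 b b' y y1 hb hb', h2 b' b y y1 hb' hb⟩
  -- (3)
  have h3 : ∀ b1 b2 c b1' b2' c', E b1 b1' → E b2 b2' → R l b1 b2 c → R l b1' b2' c' →
      E c c' := by
    intro b1 b2 c b1' b2' c' e1 e2 r r'
    obtain ⟨y1, hy1⟩ := h1 b1
    obtain ⟨y2, hy2⟩ := h1 b2
    have hex := fun j => comp_ex (hF j) (y1 j) (y2 j)
    choose w hw using hex
    have m1 : update w l c ∈ Z := hcl _ hy1 _ hy2 _ (upd_rel l y1 y2 w b1 b2 c hw r)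
    have m2 : update w l c' ∈ Z :=
      hcl _ ((e1 y1).1 hy1) _ ((e2 y2).1 hy2) _ (upd_rel l y1 y2 w b1' b2' c' hw r')
    exact hmeet _ _ w m1 m2
  have hcan : ∀ b1 b2 c b1' b2' c', E b1 b1' → E c c' → R l b1 b2 c → R l b1' b2' c' →
      E b2 b2' := by
    intro b1 b2 c b1' b2' c' e1 e2 r r'
    exact h3 b1 c b2 b1' c' b2' e1 e2 (hsym.s23 _ _ _ r) (hsym.s23 _ _ _ r')
  -- (4)
  have h4 : ∀ b b', E b b' := by
    intro b b'
    by_contra hbb
    obtain ⟨c, hc⟩ := comp_ex (hF l) b b
    obtain ⟨d, hd⟩ := comp_ex (hF l) b b'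
    obtain ⟨e, he⟩ := comp_ex (hF l) b' b'
    have hcd : ¬ E c d := fun h => hbb (hcan _ _ _ _ _ _ (hrefl b) h hc hd)
    have hde : ¬ E d e := fun h =>
      hbb (hcan _ _ _ _ _ _ (hrefl b') h (hsym.s12 _ _ _ hd) he)
    by_cases hce : E c e
    · by_cases hcb : E c b
      · have hK := (hF l).irr {x | E x b} ⟨b, hrefl b⟩ (by
          intro x hx y hy z hz
          exact htrans _ _ _ (h3 _ _ _ _ _ _ hx hy hz hc) hcb)
        have : b' ∈ {x | E x b} := by rw [hK]; exact Set.mem_univ _
        exact hbb (hsymm _ _ this)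
      · by_cases hcb' : E c b'
        · have hK := (hF l).irr {x | E x b'} ⟨b', hrefl b'⟩ (by
            intro x hx y hy z hz
            exact htrans _ _ _ (h3 _ _ _ _ _ _ hx hy hz he)
              (htrans _ _ _ (hsymm _ _ hce) hcb'))
          have : b ∈ {x | E x b'} := by rw [hK]; exact Set.mem_univ _
          exact hbb this
        · -- J3 for (c,b), (c,b'), (b,b)
          have hcbb : R l c b b := hsym.s12 _ _ _ (hsym.s23 _ _ _ hc)
          have heb : R l e b' b' := hsym.s12 _ _ _ (hsym.s23 _ _ _ he)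
          have n1 : ∀ z, R l c b z → E z b := fun z hz => h3 _ _ _ _ _ _ (hrefl c) (hrefl b) hz hcbb
          have n2 : ∀ z, R l c b' z → E z b' := fun z hz => h3 _ _ _ _ _ _ hce (hrefl b') hz heb
          have n3 : ∀ z, R l b b z → E z c := fun z hz => h3 _ _ _ _ _ _ (hrefl b) (hrefl b) hz hc
          obtain ⟨z, -, hz⟩ := (hF l).j3 c (Set.mem_univ _) b (Set.mem_univ _) c (Set.mem_univ _) b'
            (Set.mem_univ _) b (Set.mem_univ _) b (Set.mem_univ _)
          rcases hz with h | h | h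
          · exact hbb (htrans _ _ _ (hsymm _ _ (n1 z h.1)) (n2 z h.2))
          · exact hcb (hsymm _ _ (htrans _ _ _ (hsymm _ _ (n1 z h.1)) (n3 z h.2)))
          · exact hcb' (hsymm _ _ (htrans _ _ _ (hsymm _ _ (n2 z h.1)) (n3 z h.2)))
    · obtain ⟨z, -, hz⟩ := (hF l).j3 b (Set.mem_univ _) b (Set.mem_univ _) b (Set.mem_univ _) b'
        (Set.mem_univ _) b' (Set.mem_univ _) b' (Set.mem_univ _)
      have n1 : R l b b z → E z c := fun hz => h3 _ _ _ _ _ _ (hrefl b) (hrefl b) hz hc
      have n2 : R l b b' z → E z d := fun hz => h3 _ _ _ _ _ _ (hrefl b) (hrefl b') hz hd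
      have n3 : R l b' b' z → E z e := fun hz => h3 _ _ _ _ _ _ (hrefl b') (hrefl b') hz he
      rcases hz with h | h | h
      · exact hcd (htrans _ _ _ (hsymm _ _ (n1 h.1)) (n2 h.2))
      · exact hce (htrans _ _ _ (hsymm _ _ (n1 h.1)) (n3 h.2))
      · exact hde (htrans _ _ _ (hsymm _ _ (n2 h.1)) (n3 h.2))
  exact (h4 (y l) b y).1 (by simpa using hy)

theorem goursat_core [Finite ι] (hF : ∀ i, Fac (R i)) (Z : Set (∀ i, C i)) (hne : Z.Nonempty)
    (hcl : ∀ x ∈ Z, ∀ y ∈ Z, ∀ z, (∀ i, R i (x i) (y i) (z i)) → z ∈ Z) : Z = Set.univ := by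
  have := Fintype.ofFinite ι
  obtain ⟨y, hy⟩ := hne
  rw [Set.eq_univ_iff_forall]
  intro y'
  have key : ∀ s : Finset ι, (fun i => if i ∈ s then y' i else y i) ∈ Z := by
    intro s
    induction s using Finset.induction_on with
    | empty => simpa using hy
    | insert a s ha ih =>
      have h := one_coord hF Z ⟨y, hy⟩ hcl a _ ih (y' a)
      convert h using 1
      funext i
      by_cases hia : i = a
      · subst hia
        simp
      · rw [update_of_ne hia]
        simp [hia]
  have := key Finset.univ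
  simpa using this

theorem exact_core [Finite ι] (hF : ∀ i, Fac (R i)) (ρ : (∀ i, C i) → ZMod 3) (τ : ZMod 3)
    (h : ∀ x y z : ∀ i, C i, (∀ i, R i (x i) (y i) (z i)) → ρ x + ρ y + ρ z = τ) :
    ∀ x y, ρ x = ρ y := by
  have := Fintype.ofFinite ι
  have hone : ∀ (y : ∀ i, C i) (l : ι) (b b' : C l), ρ (update y l b) = ρ (update y l b') := by
    intro y l b b'
    have hex := fun j => comp_ex (hF j) (y j) (y j)
    choose w hw using hex
    obtain ⟨v, -, hv⟩ := (hF l).j3 b (Set.mem_univ _) b (Set.mem_univ _) b (Set.mem_univ _) b'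
      (Set.mem_univ _) b' (Set.mem_univ _) b' (Set.mem_univ _)
    have e1 : R l b b v → ρ (update y l b) + ρ (update y l b) + ρ (update w l v) = τ :=
      fun hr => h _ _ _ (upd_rel l y y w b b v hw hr)
    have e2 : R l b b' v → ρ (update y l b) + ρ (update y l b') + ρ (update w l v) = τ :=
      fun hr => h _ _ _ (upd_rel l y y w b b' v hw hr)
    have e3 : R l b' b' v → ρ (update y l b') + ρ (update y l b') + ρ (update w l v) = τ :=
      fun hr => h _ _ _ (upd_rel l y y w b' b' v hw hr)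
    have fin1 : ∀ A B W t : ZMod 3, A + A + W = t → A + B + W = t → A = B := by decide
    have fin2 : ∀ A B W t : ZMod 3, A + A + W = t → B + B + W = t → A = B := by decide
    have fin3 : ∀ A B W t : ZMod 3, A + B + W = t → B + B + W = t → A = B := by decide
    rcases hv with h | h | h
    · exact fin1 _ _ _ _ (e1 h.1) (e2 h.2)
    · exact fin2 _ _ _ _ (e1 h.1) (e3 h.2)
    · exact fin3 _ _ _ _ (e2 h.1) (e3 h.2)
  intro y y'
  have key : ∀ s : Finset ι, ρ (fun i => if i ∈ s then y' i else y i) = ρ y := by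
    intro s
    induction s using Finset.induction_on with
    | empty => simp
    | insert a s ha ih =>
      rw [← ih]
      set g : ∀ i, C i := fun i => if i ∈ s then y' i else y i with hg
      have h1 : (fun i => if i ∈ insert a s then y' i else y i) = update g a (y' a) := by
        funext i
        by_cases hia : i = a
        · subst hia
          simp
        · rw [update_of_ne hia]
          simp [hg, hia]
      have h2 : update g a (g a) = g := update_eq_self a g
      rw [h1, hone g a (y' a) (g a), h2]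
  have := key Finset.univ
  simpa using this.symm

end

end E3GoursatAux

theorem e3_goursat {ι : Type} [Finite ι] {C : ι → Type} {R : ∀ i, C i → C i → C i → Prop}
    (hF : ∀ i, Fac (R i)) (Z : Set (∀ i, C i)) (hne : Z.Nonempty)
    (hcl : ∀ x ∈ Z, ∀ y ∈ Z, ∀ z, (∀ i, R i (x i) (y i) (z i)) → z ∈ Z) : Z = Set.univ :=
  E3GoursatAux.goursat_core hF Z hne hcl

end CodegDens
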