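import Pool.Agent.Lib.MP_81e58e_co.E3DicCore
import Pool.Agent.Lib.MP_81e58e_co.E3Goursat
import Pool.Agent.Lib.MP_81e58e_co.E3Exact
import Pool.Agent.Lib.MP_81e58e_co.E3EngK

/-!
# The step `a -> (1+a)/3` for `k = 3`: the dictator lemma
-/

namespace CodegDens

/-- The dictator lemma: a function whose sum on every product edge is `0` or `1` is constant or
depends on one coordinate only. -/
theorem e3_dictator {ι : Type} [Finite ι] {C : ι → Type} {R : ∀ i, C i → C i → C i → Prop}
    (hF : ∀ i, Fac (R i)) (t : (∀ i, C i) → ZMod 3)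
    (ht : ∀ x y z : ∀ i, C i, (∀ i, R i (x i) (y i) (z i)) → In01 (t x + t y + t z)) :
    (∀ x y, t x = t y) ∨ ∃ i, ∀ x y : ∀ i, C i, x i = y i → t x = t y := by
  classical
  exact E3Dic.dic_main hF (fun Z h1 h2 => e3_goursat hF Z h1 h2)
    (fun ρ τ h => e3_exact hF ρ τ h)
    (fun i φ h h0 h1 => fac_K1 (hF i) φ h h0 h1)
    (fun i φ h hs => fac_K2 (hF i) φ h hs)
    (fun i φ h c hc hn => fac_K3 (hF i) φ h c hc hn) t ht

end CodegDens
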