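import Pool.Agent.Lib.MP_81e58e_co.E3Defs

/-!
# The dictator lemma for products of closed irreducible factors (problem MP_81e58e_co)

The core statement `E3Dic.dic_main`, with the facts of the other modules as hypotheses.
-/

namespace CodegDens

namespace E3Dic

open Function

/-- every pair has a completion -/
theorem compl {C : Type} {R : C → C → C → Prop} (hF : Fac R) (x y : C) : ∃ z, R x y z := by
  obtain ⟨z, -, h⟩ := hF.j3 x trivial y trivial x trivial y trivial x trivial y trivial
  rcases h with h | h | h <;> exact ⟨z, h.1⟩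

theorem compl_prod {ι : Type} {C : ι → Type} {R : ∀ i, C i → C i → C i → Prop}
    (hF : ∀ i, Fac (R i)) (x y : ∀ i, C i) : ∃ z : ∀ i, C i, ∀ i, R i (x i) (y i) (z i) := by
  choose z hz using fun i => compl (hF i) (x i) (y i)
  exact ⟨z, hz⟩

/-- a function that does not depend on any coordinate is constant -/
theorem const_of_update {ι : Type} [Finite ι] [DecidableEq ι] {C : ι → Type} (t : (∀ i, C i) → ZMod 3)
    (h : ∀ (i : ι) (y : ∀ i, C i) (a b : C i), t (update y i a) = t (update y i b)) :
    ∀ x y, t x = t y := by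
  intro x y
  have := Fintype.ofFinite ι
  have key : ∀ s : Finset ι, t (fun i => if i ∈ s then x i else y i) = t y := by
    intro s
    induction s using Finset.induction_on with
    | empty => simp
    | insert j s hj ih =>
      rw [← ih]
      have e1 : (fun i => if i ∈ insert j s then x i else y i)
          = update (fun i => if i ∈ s then x i else y i) j (x j) := by
        ext i
        by_cases hij : i = j
        · subst hij; simp
        · simp [hij, Finset.mem_insert]
      have e2 : (fun i => if i ∈ s then x i else y i)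
          = update (fun i => if i ∈ s then x i else y i) j (y j) := by
        ext i
        by_cases hij : i = j
        · subst hij; simp [hj]
        · simp [hij]
      rw [e1]
      conv_rhs => rw [e2]
      exact h j _ _ _
  have := key Finset.univ
  simpa using this

theorem arith00 : ∀ s s' : ZMod 3, s ≠ s' → (s = 0 ∨ s = 1) → (s' = 0 ∨ s' = 1) → s + s' = 1 := by
  decide

theorem arith0 (c p p' q q' : ZMod 3) (hp : p ≠ p') (hq : q ≠ q')
    (h : (c + p + q = 0 ∨ c + p + q = 1) ∧ (c + p' + q = 0 ∨ c + p' + q = 1) ∧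
    (c + p + q' = 0 ∨ c + p + q' = 1) ∧ (c + p' + q' = 0 ∨ c + p' + q' = 1)) : False := by
  have h1 := arith00 (c + p + q) (c + p' + q) (by intro e; exact hp (by linear_combination e)) h.1 h.2.1
  have h2 := arith00 (c + p + q') (c + p' + q') (by intro e; exact hp (by linear_combination e))
    h.2.2.1 h.2.2.2
  apply hq
  have h3 : (3 : ZMod 3) = 0 := by decide
  linear_combination 2 * h1 - 2 * h2 - (q - q') * h3

theorem arith1 : ∀ s s' r : ZMod 3, s ≠ s' → (s + r = 0 ∨ s + r = 1) → (s' + r = 0 ∨ s' + r = 1) →
    r = 2 * (1 - s - s') := by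
  decide

theorem arith2 : ∀ σ u u' z : ZMod 3, u + u + z = σ → u' + u' + z = σ → u = u' := by
  decide

/-- two values out of three -/
theorem two_val : ∀ p q m : ZMod 3, p ≠ q → p ≠ m → q ≠ m →
    ∃ c : ZMod 3, ∀ r : ZMod 3, r ≠ m → r = c ∨ r = c + 1 := by
  decide

section

variable {ι : Type} [Finite ι] [DecidableEq ι] {C : ι → Type} {R : ∀ i, C i → C i → C i → Prop}

omit [Finite ι] in
theorem edge_update (t : (∀ i, C i) → ZMod 3)
    (ht : ∀ x y z : ∀ i, C i, (∀ i, R i (x i) (y i) (z i)) → In01 (t x + t y + t z))
    (i : ι) {x y z : ∀ i, C i} (h : ∀ l, R l (x l) (y l) (z l)) {a b c : C i} (habc : R i a b c) :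
    In01 (t (update x i a) + t (update y i b) + t (update z i c)) := by
  apply ht
  intro l
  by_cases hl : l = i
  · subst hl
    simpa using habc
  · simpa [hl] using h l

theorem dic_main (hF : ∀ i, Fac (R i))
    (goursat : ∀ (Z : Set (∀ i, C i)), Z.Nonempty →
      (∀ x ∈ Z, ∀ y ∈ Z, ∀ z, (∀ i, R i (x i) (y i) (z i)) → z ∈ Z) → Z = Set.univ)
    (exact' : ∀ (ρ : (∀ i, C i) → ZMod 3) (τ : ZMod 3),
      (∀ x y z : ∀ i, C i, (∀ i, R i (x i) (y i) (z i)) → ρ x + ρ y + ρ z = τ) →
      ∀ x y, ρ x = ρ y)
    (K1 : ∀ (i : ι) (φ : Fin 3 → C i → ZMod 3),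
      (∀ x y z, R i x y z → In01 (φ 0 x + φ 1 y + φ 2 z)) →
      ¬ Function.Surjective (φ 0) → ¬ Function.Surjective (φ 1) → ¬ Function.Surjective (φ 2))
    (K2 : ∀ (i : ι) (φ : Fin 3 → C i → ZMod 3),
      (∀ x y z, R i x y z → In01 (φ 0 x + φ 1 y + φ 2 z)) →
      (∀ j, Function.Surjective (φ j)) → ∃ c, ∀ x, φ 0 x = φ 1 x + c)
    (K3 : ∀ (i : ι) (φ : Fin 3 → C i → ZMod 3),
      (∀ x y z, R i x y z → In01 (φ 0 x + φ 1 y + φ 2 z)) → ∀ c : Fin 3 → ZMod 3,
      (∀ j x, φ j x = c j ∨ φ j x = c j + 1) → (∀ j, ∃ x y, φ j x ≠ φ j y) →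
      c 0 + c 1 + c 2 = 2)
    (t : (∀ i, C i) → ZMod 3)
    (ht : ∀ x y z : ∀ i, C i, (∀ i, R i (x i) (y i) (z i)) → In01 (t x + t y + t z)) :
    (∀ x y, t x = t y) ∨ ∃ i, ∀ x y : ∀ i, C i, x i = y i → t x = t y := by
  by_contra hcon
  push Not at hcon
  obtain ⟨hc1, hc2⟩ := hcon
  -- a direction in which some column is not constant
  have hex : ∃ (i : ι) (y : ∀ i, C i) (a b : C i), t (update y i a) ≠ t (update y i b) := by
    by_contra hno
    push Not at hno
    obtain ⟨x, y, hxy⟩ := hc1
    exact hxy (const_of_update t (fun i y a b => hno i y a b) x y)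
  obtain ⟨i, y0, a0, b0, hab⟩ := hex
  have hsym1 : ∀ {x y z : ∀ i, C i}, (∀ l, R l (x l) (y l) (z l)) →
      ∀ l, R l (y l) (z l) (x l) := fun h l => (hF l).sym.s23 _ _ _ ((hF l).sym.s12 _ _ _ (h l))
  -- all columns in direction i are nonconstant
  have hnc : ∀ y : ∀ i, C i, ∃ a b : C i, t (update y i a) ≠ t (update y i b) := by
    have hZ := goursat {y | ∃ a b : C i, t (update y i a) ≠ t (update y i b)} ⟨y0, a0, b0, hab⟩ (by
      rintro x ⟨p, p', hp⟩ y ⟨q, q', hq⟩ z hxyz
      by_contra hz
      have hz' : ∀ a b : C i, t (update z i a) = t (update z i b) := by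
        intro a b
        by_contra hne
        exact hz ⟨a, b, hne⟩
      have hall : ∀ u v : C i, In01 (t (update z i p) + t (update x i u) + t (update y i v)) := by
        intro u v
        obtain ⟨w, hw⟩ := compl (hF i) u v
        have h1 := edge_update t ht i hxyz hw
        rw [hz' w p] at h1
        have e : t (update z i p) + t (update x i u) + t (update y i v)
            = t (update x i u) + t (update y i v) + t (update z i p) := by ring
        rw [e]; exact h1
      exact arith0 _ _ _ _ _ hp hq ⟨hall p q, hall p' q, hall p q', hall p' q'⟩)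
    intro y
    have : y ∈ (Set.univ : Set (∀ i, C i)) := trivial
    rw [← hZ] at this
    exact this
  -- columns of the members of a product edge
  have hcol : ∀ {x y z : ∀ i, C i}, (∀ l, R l (x l) (y l) (z l)) → ∀ a b c, R i a b c →
      In01 ((![fun v => t (update x i v), fun v => t (update y i v),
        fun v => t (update z i v)] : Fin 3 → C i → ZMod 3) 0 a +
        (![fun v => t (update x i v), fun v => t (update y i v),
        fun v => t (update z i v)] : Fin 3 → C i → ZMod 3) 1 b +
        (![fun v => t (update x i v), fun v => t (update y i v),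
        fun v => t (update z i v)] : Fin 3 → C i → ZMod 3) 2 c) := by
    intro x y z h a b c habc
    exact edge_update t ht i h habc
  by_cases hA : ∃ y : ∀ i, C i, Surjective (fun v => t (update y i v))
  · -- Case A
    obtain ⟨y1, hy1⟩ := hA
    have hall : ∀ y : ∀ i, C i, Surjective (fun v => t (update y i v)) := by
      by_contra hno
      push Not at hno
      obtain ⟨y2, hy2⟩ := hno
      have hZ := goursat {y | ¬ Surjective (fun v => t (update y i v))} ⟨y2, hy2⟩ (by
        intro x hx y hy z hxyz
        exact K1 i _ (hcol hxyz) hx hy)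
      have : y1 ∈ (Set.univ : Set (∀ i, C i)) := trivial
      rw [← hZ] at this
      exact this hy1
    have hdiff : ∀ x y : ∀ i, C i, ∃ c, ∀ v, t (update x i v) = t (update y i v) + c := by
      intro x y
      obtain ⟨z, hz⟩ := compl_prod hF x y
      refine K2 i _ (hcol hz) ?_
      intro j
      fin_cases j
      · exact hall x
      · exact hall y
      · exact hall z
    -- t y = g (y i) + rho y
    set g : C i → ZMod 3 := fun v => t (update y1 i v) with hg
    set ρ : (∀ i, C i) → ZMod 3 := fun y => t (update y i a0) - g a0 with hρ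
    have htρ : ∀ (y : ∀ i, C i) (v : C i), t (update y i v) = g v + ρ y := by
      intro y v
      obtain ⟨c, hc⟩ := hdiff y y1
      have h1 := hc v
      have h2 := hc a0
      rw [h1, hρ]
      show t (update y1 i v) + c = t (update y1 i v) + (t (update y i a0) - t (update y1 i a0))
      rw [h2]; ring
    -- two different sums
    have hsums : ∃ a b c a' b' c' : C i, R i a b c ∧ R i a' b' c' ∧
        g a + g b + g c ≠ g a' + g b' + g c' := by
      by_contra hno
      push Not at hno
      obtain ⟨w0, hw0⟩ := hall y1 0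
      obtain ⟨w1, hw1⟩ := hall y1 1
      obtain ⟨w2, hw2⟩ := hall y1 2
      have g0 : g w0 = 0 := hw0
      have g1 : g w1 = 1 := hw1
      have g2 : g w2 = 2 := hw2
      obtain ⟨z, -, hz⟩ := (hF i).j3 w0 trivial w0 trivial w1 trivial w1 trivial w2 trivial w2 trivial
      rcases hz with ⟨h, h'⟩ | ⟨h, h'⟩ | ⟨h, h'⟩
      · have := hno _ _ _ _ _ _ h h'
        rw [g0, g1] at this
        have := arith2 _ _ _ _ this rfl
        revert this; decide
      · have := hno _ _ _ _ _ _ h h'
        rw [g0, g2] at this
        have := arith2 _ _ _ _ this rfl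
        revert this; decide
      · have := hno _ _ _ _ _ _ h h'
        rw [g1, g2] at this
        have := arith2 _ _ _ _ this rfl
        revert this; decide
    obtain ⟨a, b, c, a', b', c', hE, hE', hne⟩ := hsums
    have hρc := exact' ρ (2 * (1 - (g a + g b + g c) - (g a' + g b' + g c'))) (by
      intro x y z hxyz
      have h1 := edge_update t ht i hxyz hE
      have h2 := edge_update t ht i hxyz hE'
      rw [htρ, htρ, htρ] at h1 h2
      refine arith1 _ _ _ hne ?_ ?_
      · have e : g a + g b + g c + (ρ x + ρ y + ρ z) = g a + ρ x + (g b + ρ y) + (g c + ρ z) := by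
          ring
        rw [e]; exact h1
      · have e : g a' + g b' + g c' + (ρ x + ρ y + ρ z)
            = g a' + ρ x + (g b' + ρ y) + (g c' + ρ z) := by ring
        rw [e]; exact h2)
    obtain ⟨x, y, hxy, hne'⟩ := hc2 i
    apply hne'
    have h1 := htρ x (x i)
    have h2 := htρ y (y i)
    rw [update_eq_self] at h1 h2
    rw [h1, h2, hxy, hρc x y]
  · -- Case B
    push Not at hA
    have hc : ∀ y : ∀ i, C i, ∃ c : ZMod 3, ∀ v, t (update y i v) = c ∨ t (update y i v) = c + 1 := by
      intro y
      have h1 := hA y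
      unfold Surjective at h1
      push Not at h1
      obtain ⟨m, hm⟩ := h1
      obtain ⟨a, b, hne⟩ := hnc y
      obtain ⟨c, hc⟩ := two_val (t (update y i a)) (t (update y i b)) m hne (hm a) (hm b)
      exact ⟨c, fun v => hc _ (hm v)⟩
    choose c hc using hc
    have h3 : ∀ x y z : ∀ i, C i, (∀ l, R l (x l) (y l) (z l)) → c x + c y + c z = 2 := by
      intro x y z hxyz
      have := K3 i _ (hcol hxyz) ![c x, c y, c z] (by
        intro j
        fin_cases j
        · exact hc x
        · exact hc y
        · exact hc z) (by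
        intro j
        fin_cases j
        · exact hnc x
        · exact hnc y
        · exact hnc z)
      simpa using this
    have hcc := exact' c 2 h3
    obtain ⟨z, hz⟩ := compl_prod hF y0 y0
    have h4 := h3 _ _ _ hz
    rw [hcc z y0] at h4
    revert h4
    generalize c y0 = u
    revert u
    decide

end

end E3Dic

end CodegDens
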