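import Pool.Agent.Lib.MP_81e58e_co.E3Defs

/-!
# Module E3EngCB: exactly three types with nonsurjective columns (problem MP_81e58e_co)
-/

namespace CodegDens

namespace CB

/-- the sum is `0` or `1` modulo `3` -/
def s01 (i j k : ℕ) : Bool := Nat.ble ((i + j + k) % 3) 1

/-- encoded types -/
abbrev Ty := ℕ × ℕ × ℕ

/-- all six sums are `0` or `1` -/
def alb (a b c : Ty) : Bool :=
  s01 a.1 b.2.1 c.2.2 && s01 a.1 b.2.2 c.2.1 && s01 a.2.1 b.1 c.2.2 && s01 a.2.1 b.2.2 c.1 &&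
    s01 a.2.2 b.1 c.2.1 && s01 a.2.2 b.2.1 c.1

/-- a property of the three types -/
def all3 (p : Ty → Bool) (a b c : Ty) : Bool := p a && p b && p c

/-- mask of completions -/
def mk (a b c p q : Ty) : ℕ :=
  (bif alb p q a then 1 else 0) + ((bif alb p q b then 2 else 0) + (bif alb p q c then 4 else 0))

/-- the pairs -/
def pairs (a b c : Ty) : List (Ty × Ty) := [(a, a), (a, b), (a, c), (b, b), (b, c), (c, c)]

/-- `J3` inside `{a, b, c}` -/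
def jok (a b c : Ty) : Bool :=
  (pairs a b c).all (fun pq => !Nat.beq (mk a b c pq.1 pq.2) 0) &&
  !((pairs a b c).any (fun pq => Nat.beq (mk a b c pq.1 pq.2) 1) &&
    (pairs a b c).any (fun pq => Nat.beq (mk a b c pq.1 pq.2) 2) &&
    (pairs a b c).any (fun pq => Nat.beq (mk a b c pq.1 pq.2) 4))

/-- the relation `CBrel` on the three types -/
def cb (D D' : Ty → Bool) (a b c : Ty) : Bool :=
  all3 (fun x => !D x || D' x) a b c &&
  all3 (fun x => all3 (fun y => all3 (fun z => !alb x y z ||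
    ((D x || !D' x || D' y || D' z) && (!D x || D y || !D' y || !D z))) a b c) a b c) a b c

/-- not all values occur -/
def ns (x y z : ℕ) : Bool :=
  Nat.beq x y || Nat.beq x z || Nat.beq y z

/-- the smaller value -/
def cc (x y : ℕ) : ℕ := bif Nat.beq ((y + 1) % 3) x then y else x

/-- upper set of column 0 -/
def D0 (a c : Ty) (x : Ty) : Bool := Nat.beq x.1 ((cc a.1 c.1 + 1) % 3)
/-- upper set of column 1 -/
def D1 (a b : Ty) (x : Ty) : Bool := Nat.beq x.2.1 ((cc a.2.1 b.2.1 + 1) % 3)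

/-- conclusion -/
def concl (a b c : Ty) : Bool := cb (D0 a c) (D1 a b) a b c || cb (D1 a b) (D0 a c) a b c

/-- the finite check -/
def chk (r0 r1 r2 s1 s2 u0 u2 : ℕ) : Bool :=
  Nat.beq r0 u0 || Nat.beq r1 s1 || !(ns r2 s2 u2) ||
    !(jok (r0, r1, r2) (r0, s1, s2) (u0, r1, u2)) || concl (r0, r1, r2) (r0, s1, s2) (u0, r1, u2)

theorem chk_all : ∀ r0 r1 r2 s1 s2 u0 u2 : Fin 3,
    chk r0.val r1.val r2.val s1.val s2.val u0.val u2.val = true := by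
  decide +kernel

/-! ### from types to encoded types -/

/-- encoding -/
def enc (a : Fin 3 → ZMod 3) : Ty := ((a 0).val, (a 1).val, (a 2).val)

theorem in01_iff : ∀ x y z : ZMod 3, In01 (x + y + z) ↔ s01 x.val y.val z.val = true := by
  unfold In01
  decide

theorem al_iff6 (a b c : Fin 3 → ZMod 3) : Al a b c ↔
    In01 (a 0 + b 1 + c 2) ∧ In01 (a 0 + b 2 + c 1) ∧ In01 (a 1 + b 0 + c 2) ∧
    In01 (a 1 + b 2 + c 0) ∧ In01 (a 2 + b 0 + c 1) ∧ In01 (a 2 + b 1 + c 0) := by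
  have key : ∀ σ : Equiv.Perm (Fin 3),
      (σ 0 = 0 ∧ σ 1 = 1 ∧ σ 2 = 2) ∨ (σ 0 = 0 ∧ σ 1 = 2 ∧ σ 2 = 1) ∨
      (σ 0 = 1 ∧ σ 1 = 0 ∧ σ 2 = 2) ∨ (σ 0 = 1 ∧ σ 1 = 2 ∧ σ 2 = 0) ∨
      (σ 0 = 2 ∧ σ 1 = 0 ∧ σ 2 = 1) ∨ (σ 0 = 2 ∧ σ 1 = 1 ∧ σ 2 = 0) := by decide
  have e1 : ∃ σ : Equiv.Perm (Fin 3), σ 0 = 0 ∧ σ 1 = 1 ∧ σ 2 = 2 := by decide
  have e2 : ∃ σ : Equiv.Perm (Fin 3), σ 0 = 0 ∧ σ 1 = 2 ∧ σ 2 = 1 := by decide
  have e3 : ∃ σ : Equiv.Perm (Fin 3), σ 0 = 1 ∧ σ 1 = 0 ∧ σ 2 = 2 := by decide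
  have e4 : ∃ σ : Equiv.Perm (Fin 3), σ 0 = 1 ∧ σ 1 = 2 ∧ σ 2 = 0 := by decide
  have e5 : ∃ σ : Equiv.Perm (Fin 3), σ 0 = 2 ∧ σ 1 = 0 ∧ σ 2 = 1 := by decide
  have e6 : ∃ σ : Equiv.Perm (Fin 3), σ 0 = 2 ∧ σ 1 = 1 ∧ σ 2 = 0 := by decide
  constructor
  · intro h
    refine ⟨?_, ?_, ?_, ?_, ?_, ?_⟩
    · obtain ⟨σ, h1, h2, h3⟩ := e1
      have := h σ; rwa [h1, h2, h3] at this
    · obtain ⟨σ, h1, h2, h3⟩ := e2
      have := h σ; rwa [h1, h2, h3] at this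
    · obtain ⟨σ, h1, h2, h3⟩ := e3
      have := h σ; rwa [h1, h2, h3] at this
    · obtain ⟨σ, h1, h2, h3⟩ := e4
      have := h σ; rwa [h1, h2, h3] at this
    · obtain ⟨σ, h1, h2, h3⟩ := e5
      have := h σ; rwa [h1, h2, h3] at this
    · obtain ⟨σ, h1, h2, h3⟩ := e6
      have := h σ; rwa [h1, h2, h3] at this
  · rintro ⟨h1, h2, h3, h4, h5, h6⟩ σ
    rcases key σ with h | h | h | h | h | h <;> obtain ⟨e1, e2, e3⟩ := h <;> rw [e1, e2, e3] <;>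
      assumption

theorem al_iff (a b c : Fin 3 → ZMod 3) : Al a b c ↔ alb (enc a) (enc b) (enc c) = true := by
  rw [al_iff6]
  unfold alb enc
  simp only [in01_iff, Bool.and_eq_true]
  tauto

/-- an edge gives `Al` of the types -/
theorem al_of_edge {V : Type} {R : V → V → V → Prop} (hR : Sym3 R) {B : Set V}
    (φ : Fin 3 → V → ZMod 3)
    (hφ : ∀ x ∈ B, ∀ y ∈ B, ∀ z ∈ B, R x y z → In01 (φ 0 x + φ 1 y + φ 2 z))
    {x y z : V} (hx : x ∈ B) (hy : y ∈ B) (hz : z ∈ B) (h : R x y z) :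
    Al (fun j => φ j x) (fun j => φ j y) (fun j => φ j z) := by
  have hyxz : R y x z := hR.s12 _ _ _ h
  have hxzy : R x z y := hR.s23 _ _ _ h
  have hyzx : R y z x := hR.s23 _ _ _ hyxz
  have hzxy : R z x y := hR.s12 _ _ _ hxzy
  have hzyx : R z y x := hR.s12 _ _ _ hyzx
  rw [al_iff6]
  refine ⟨hφ x hx y hy z hz h, ?_, ?_, ?_, ?_, ?_⟩
  · have := hφ x hx z hz y hy hxzy
    rwa [show φ 0 x + φ 2 y + φ 1 z = φ 0 x + φ 1 z + φ 2 y by ring]
  · have := hφ y hy x hx z hz hyxz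
    rwa [show φ 1 x + φ 0 y + φ 2 z = φ 0 y + φ 1 x + φ 2 z by ring]
  · have := hφ z hz x hx y hy hzxy
    rwa [show φ 1 x + φ 2 y + φ 0 z = φ 0 z + φ 1 x + φ 2 y by ring]
  · have := hφ y hy z hz x hx hyzx
    rwa [show φ 2 x + φ 0 y + φ 1 z = φ 0 y + φ 1 z + φ 2 x by ring]
  · have := hφ z hz y hy x hx hzyx
    rwa [show φ 2 x + φ 1 y + φ 0 z = φ 0 z + φ 1 y + φ 2 x by ring]

theorem mk_zero {a b c p q : Ty} (h : mk a b c p q = 0) :
    alb p q a = false ∧ alb p q b = false ∧ alb p q c = false := by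
  unfold mk at h
  cases h1 : alb p q a <;> cases h2 : alb p q b <;> cases h3 : alb p q c <;>
    simp [h1, h2, h3] at h ⊢

theorem mk_one {a b c p q : Ty} (h : mk a b c p q = 1) :
    alb p q b = false ∧ alb p q c = false := by
  unfold mk at h
  cases h1 : alb p q a <;> cases h2 : alb p q b <;> cases h3 : alb p q c <;>
    simp [h1, h2, h3] at h ⊢

theorem mk_two {a b c p q : Ty} (h : mk a b c p q = 2) :
    alb p q a = false ∧ alb p q c = false := by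
  unfold mk at h
  cases h1 : alb p q a <;> cases h2 : alb p q b <;> cases h3 : alb p q c <;>
    simp [h1, h2, h3] at h ⊢

theorem mk_four {a b c p q : Ty} (h : mk a b c p q = 4) :
    alb p q a = false ∧ alb p q b = false := by
  unfold mk at h
  cases h1 : alb p q a <;> cases h2 : alb p q b <;> cases h3 : alb p q c <;>
    simp [h1, h2, h3] at h ⊢

theorem mem_pairs {a b c : Ty} {pq : Ty × Ty} (h : pq ∈ pairs a b c) :
    (pq.1 = a ∨ pq.1 = b ∨ pq.1 = c) ∧ (pq.2 = a ∨ pq.2 = b ∨ pq.2 = c) := by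
  unfold pairs at h
  simp only [List.mem_cons, List.not_mem_nil, or_false] at h
  rcases h with h | h | h | h | h | h <;> rw [h] <;> simp

/-- `J3` for the three types gives the Boolean condition -/
theorem jok_of {a b c : Ty}
    (H : ∀ p₁ q₁ p₂ q₂ p₃ q₃ : Ty, (p₁ = a ∨ p₁ = b ∨ p₁ = c) → (q₁ = a ∨ q₁ = b ∨ q₁ = c) →
      (p₂ = a ∨ p₂ = b ∨ p₂ = c) → (q₂ = a ∨ q₂ = b ∨ q₂ = c) →
      (p₃ = a ∨ p₃ = b ∨ p₃ = c) → (q₃ = a ∨ q₃ = b ∨ q₃ = c) →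
      ∃ k, (k = a ∨ k = b ∨ k = c) ∧
        ((alb p₁ q₁ k = true ∧ alb p₂ q₂ k = true) ∨ (alb p₁ q₁ k = true ∧ alb p₃ q₃ k = true) ∨
          (alb p₂ q₂ k = true ∧ alb p₃ q₃ k = true))) :
    jok a b c = true := by
  unfold jok
  rw [Bool.and_eq_true]
  constructor
  · rw [List.all_eq_true]
    intro pq hpq
    obtain ⟨h1, h2⟩ := mem_pairs hpq
    by_contra hcon
    have h0 : mk a b c pq.1 pq.2 = 0 := by
      rw [Bool.not_eq_true, Bool.not_eq_false'] at hcon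
      exact Nat.eq_of_beq_eq_true hcon
    obtain ⟨f1, f2, f3⟩ := mk_zero h0
    obtain ⟨k, hk, hk2⟩ := H _ _ _ _ _ _ h1 h2 h1 h2 h1 h2
    rcases hk with rfl | rfl | rfl <;> simp_all
  · rw [Bool.not_eq_true', Bool.eq_false_iff]
    intro hcon
    rw [Bool.and_eq_true, Bool.and_eq_true, List.any_eq_true, List.any_eq_true,
      List.any_eq_true] at hcon
    obtain ⟨⟨⟨p, hp, hp1⟩, ⟨q, hq, hq1⟩⟩, ⟨r, hr, hr1⟩⟩ := hcon
    obtain ⟨f1, f2⟩ := mk_one (Nat.eq_of_beq_eq_true hp1)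
    obtain ⟨g1, g2⟩ := mk_two (Nat.eq_of_beq_eq_true hq1)
    obtain ⟨e1, e2⟩ := mk_four (Nat.eq_of_beq_eq_true hr1)
    obtain ⟨hpa, hpb⟩ := mem_pairs hp
    obtain ⟨hqa, hqb⟩ := mem_pairs hq
    obtain ⟨hra, hrb⟩ := mem_pairs hr
    obtain ⟨k, hk, hk2⟩ := H _ _ _ _ _ _ hpa hpb hqa hqb hra hrb
    rcases hk with rfl | rfl | rfl <;> simp_all

theorem all3_iff (p : Ty → Bool) (a b c : Ty) :
    all3 p a b c = true ↔ ∀ k, (k = a ∨ k = b ∨ k = c) → p k = true := by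
  unfold all3
  simp only [Bool.and_eq_true]
  constructor
  · rintro ⟨⟨h1, h2⟩, h3⟩ k (rfl | rfl | rfl) <;> assumption
  · intro h
    exact ⟨⟨h a (Or.inl rfl), h b (Or.inr (Or.inl rfl))⟩, h c (Or.inr (Or.inr rfl))⟩

/-- the smaller of two different values -/
def c3 (x y : ZMod 3) : ZMod 3 := if y + 1 = x then y else x

theorem c3_spec : ∀ x y : ZMod 3, x ≠ y →
    (x = c3 x y ∨ x = c3 x y + 1) ∧ (y = c3 x y ∨ y = c3 x y + 1) := by
  unfold c3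
  decide

theorem c3_val : ∀ x y z : ZMod 3, Nat.beq z.val ((cc x.val y.val + 1) % 3) = true ↔
    z = c3 x y + 1 := by
  unfold c3 cc
  decide

theorem ns_of : ∀ x y z : ZMod 3, (∃ c, x ≠ c ∧ y ≠ c ∧ z ≠ c) → ns x.val y.val z.val = true := by
  decide

/-- from the Boolean relation to `CBrel` -/
theorem cbrel_of {V : Type} {R : V → V → V → Prop} {A B : Set V} (hAB : A ⊆ B)
    (φ : Fin 3 → V → ZMod 3) (hal : ∀ x ∈ B, ∀ y ∈ B, ∀ z ∈ B, R x y z →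
      alb (enc fun j => φ j x) (enc fun j => φ j y) (enc fun j => φ j z) = true)
    (a b c : Ty) (hU : ∀ x ∈ B, (enc fun j => φ j x) = a ∨ (enc fun j => φ j x) = b ∨
      (enc fun j => φ j x) = c) (D D' : Ty → Bool) (E E' : V → Prop)
    (hE : ∀ x, E x ↔ D (enc fun j => φ j x) = true)
    (hE' : ∀ x, E' x ↔ D' (enc fun j => φ j x) = true)
    (h : cb D D' a b c = true) : CBrel R A B E E' := by
  unfold cb at h
  rw [Bool.and_eq_true] at h
  obtain ⟨h1, h2⟩ := h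
  rw [all3_iff] at h1 h2
  constructor
  · intro x hx hEx
    rw [hE] at hEx
    rw [hE']
    have := h1 _ (hU x hx)
    simpa [hEx] using this
  · intro x hx y hy z hz hxyz
    have h3 := h2 _ (hU x (hAB hx))
    rw [all3_iff] at h3
    have h4 := h3 _ (hU y (hAB hy))
    rw [all3_iff] at h4
    have h5 := h4 _ (hU z hz)
    have h6 := hal x (hAB hx) y (hAB hy) z hz hxyz
    rw [h6] at h5
    simp only [Bool.not_true, Bool.false_or, Bool.and_eq_true, Bool.or_eq_true,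
      Bool.not_eq_true'] at h5
    obtain ⟨h7, h8⟩ := h5
    simp only [hE, hE']
    constructor
    · intro g1 g2 g3
      rcases h7 with ((h7 | h7) | h7) | h7
      · exact absurd h7 g1
      · rw [g2] at h7; exact absurd h7 (by simp)
      · exact absurd h7 g3
      · exact h7
    · intro g1 g2 g3 g4
      rcases h8 with ((h8 | h8) | h8) | h8
      · rw [g1] at h8; exact absurd h8 (by simp)
      · exact g2 h8
      · rw [g3] at h8; exact absurd h8 (by simp)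
      · rw [g4] at h8; exact absurd h8 (by simp)

end CB

open CB

theorem cb_facts {V : Type} {R : V → V → V → Prop} (hR : Sym3 R) {A B : Set V} (hAB : A ⊆ B)
    (hJ : J3 R A B) (φ : Fin 3 → V → ZMod 3)
    (hφ : ∀ x ∈ B, ∀ y ∈ B, ∀ z ∈ B, R x y z → In01 (φ 0 x + φ 1 y + φ 2 z))
    (hT : ∀ x ∈ B, ∃ x' ∈ A, ∀ j, φ j x' = φ j x)
    (h3 : ∀ x : Fin 4 → V, (∀ a, x a ∈ B) → ∃ a b, a ≠ b ∧ ∀ j, φ j (x a) = φ j (x b))
    (hns : ∀ j, ∃ c, ∀ x ∈ B, φ j x ≠ c)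
    (h01 : ∃ x ∈ A, ∃ y ∈ A, φ 0 x = φ 0 y ∧ φ 1 x ≠ φ 1 y)
    (h10 : ∃ x ∈ A, ∃ y ∈ A, φ 1 x = φ 1 y ∧ φ 0 x ≠ φ 0 y) :
    ∃ c₀ c₁ : ZMod 3, (∀ x ∈ B, φ 0 x = c₀ ∨ φ 0 x = c₀ + 1) ∧
      (∀ x ∈ B, φ 1 x = c₁ ∨ φ 1 x = c₁ + 1) ∧
      (CBrel R A B (fun x => φ 0 x = c₀ + 1) (fun x => φ 1 x = c₁ + 1) ∨
        CBrel R A B (fun x => φ 1 x = c₁ + 1) (fun x => φ 0 x = c₀ + 1)) := by
  have _ := hT
  -- three representatives
  obtain ⟨r, hr, s, hs, u, hu, e0, n1, e1, n0⟩ : ∃ r ∈ A, ∃ s ∈ A, ∃ u ∈ A,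
      φ 0 r = φ 0 s ∧ φ 1 r ≠ φ 1 s ∧ φ 1 r = φ 1 u ∧ φ 0 r ≠ φ 0 u := by
    obtain ⟨x, hx, y, hy, a1, a2⟩ := h01
    obtain ⟨x', hx', y', hy', b1, b2⟩ := h10
    obtain ⟨a, b, hab, heq⟩ := h3 ![x, y, x', y'] (by
      intro a
      fin_cases a
      · exact hAB hx
      · exact hAB hy
      · exact hAB hx'
      · exact hAB hy')
    have q0 := heq 0
    have q1 := heq 1
    have c1 : (φ 0 x = φ 0 x' ∧ φ 1 x = φ 1 x') ∨ (φ 0 x = φ 0 y' ∧ φ 1 x = φ 1 y') ∨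
        (φ 0 y = φ 0 x' ∧ φ 1 y = φ 1 x') ∨ (φ 0 y = φ 0 y' ∧ φ 1 y = φ 1 y') := by
      fin_cases a <;> fin_cases b <;> simp at q0 q1 hab <;> first
        | exact absurd q1 a2
        | exact absurd q1.symm a2
        | exact absurd q0 b2
        | exact absurd q0.symm b2
        | exact Or.inl ⟨q0, q1⟩
        | exact Or.inl ⟨q0.symm, q1.symm⟩
        | exact Or.inr (Or.inl ⟨q0, q1⟩)
        | exact Or.inr (Or.inl ⟨q0.symm, q1.symm⟩)
        | exact Or.inr (Or.inr (Or.inl ⟨q0, q1⟩))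
        | exact Or.inr (Or.inr (Or.inl ⟨q0.symm, q1.symm⟩))
        | exact Or.inr (Or.inr (Or.inr ⟨q0, q1⟩))
        | exact Or.inr (Or.inr (Or.inr ⟨q0.symm, q1.symm⟩))
    rcases c1 with ⟨g0, g1⟩ | ⟨g0, g1⟩ | ⟨g0, g1⟩ | ⟨g0, g1⟩
    · exact ⟨x, hx, y, hy, y', hy', a1, a2, g1.trans b1, fun h => b2 (g0.symm.trans h)⟩
    · exact ⟨x, hx, y, hy, x', hx', a1, a2, g1.trans b1.symm, fun h => b2 (h.symm.trans g0)⟩
    · exact ⟨y, hy, x, hx, y', hy', a1.symm, fun h => a2 h.symm, g1.trans b1,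
        fun h => b2 (g0.symm.trans h)⟩
    · exact ⟨y, hy, x, hx, x', hx', a1.symm, fun h => a2 h.symm, g1.trans b1.symm,
        fun h => b2 (h.symm.trans g0)⟩
  -- the types in `B`
  have hU : ∀ z ∈ B, (∀ j, φ j z = φ j r) ∨ (∀ j, φ j z = φ j s) ∨ (∀ j, φ j z = φ j u) := by
    intro z hz
    obtain ⟨a, b, hab, heq⟩ := h3 ![r, s, u, z] (by
      intro a
      fin_cases a
      · exact hAB hr
      · exact hAB hs
      · exact hAB hu
      · exact hz)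
    have q0 := heq 0
    have q1 := heq 1
    have n2 : φ 0 s ≠ φ 0 u := fun h => n0 (e0.trans h)
    fin_cases a <;> fin_cases b <;> simp at q0 q1 hab heq <;> first
        | exact absurd q1 n1
        | exact absurd q1.symm n1
        | exact absurd q0 n0
        | exact absurd q0.symm n0
        | exact absurd q0 n2
        | exact absurd q0.symm n2
        | exact Or.inl (fun j => (heq j).symm)
        | exact Or.inl heq
        | exact Or.inr (Or.inl (fun j => (heq j).symm))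
        | exact Or.inr (Or.inl heq)
        | exact Or.inr (Or.inr (fun j => (heq j).symm))
        | exact Or.inr (Or.inr heq)
  set E : V → Ty := fun x => enc fun j => φ j x with hEdef
  have hUe : ∀ z ∈ B, E z = E r ∨ E z = E s ∨ E z = E u := by
    intro z hz
    rcases hU z hz with h | h | h
    · left; simp only [hEdef, h]
    · right; left; simp only [hEdef, h]
    · right; right; simp only [hEdef, h]
  have hal : ∀ x ∈ B, ∀ y ∈ B, ∀ z ∈ B, R x y z → alb (E x) (E y) (E z) = true := by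
    intro x hx y hy z hz h
    exact (al_iff _ _ _).1 (al_of_edge hR φ hφ hx hy hz h)
  -- the Boolean J3
  have hjok : jok (E r) (E s) (E u) = true := by
    apply jok_of
    intro p₁ q₁ p₂ q₂ p₃ q₃ h1 h2 h3 h4 h5 h6
    have rep : ∀ k : Ty, (k = E r ∨ k = E s ∨ k = E u) → ∃ x ∈ A, E x = k := by
      rintro k (rfl | rfl | rfl)
      · exact ⟨r, hr, rfl⟩
      · exact ⟨s, hs, rfl⟩
      · exact ⟨u, hu, rfl⟩
    obtain ⟨x₁, hx₁, rfl⟩ := rep _ h1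
    obtain ⟨y₁, hy₁, rfl⟩ := rep _ h2
    obtain ⟨x₂, hx₂, rfl⟩ := rep _ h3
    obtain ⟨y₂, hy₂, rfl⟩ := rep _ h4
    obtain ⟨x₃, hx₃, rfl⟩ := rep _ h5
    obtain ⟨y₃, hy₃, rfl⟩ := rep _ h6
    obtain ⟨z, hz, hzz⟩ := hJ x₁ hx₁ y₁ hy₁ x₂ hx₂ y₂ hy₂ x₃ hx₃ y₃ hy₃
    refine ⟨E z, hUe z hz, ?_⟩
    rcases hzz with ⟨g1, g2⟩ | ⟨g1, g2⟩ | ⟨g1, g2⟩
    · exact Or.inl ⟨hal _ (hAB hx₁) _ (hAB hy₁) _ hz g1, hal _ (hAB hx₂) _ (hAB hy₂) _ hz g2⟩
    · exact Or.inr (Or.inl ⟨hal _ (hAB hx₁) _ (hAB hy₁) _ hz g1,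
        hal _ (hAB hx₃) _ (hAB hy₃) _ hz g2⟩)
    · exact Or.inr (Or.inr ⟨hal _ (hAB hx₂) _ (hAB hy₂) _ hz g1,
        hal _ (hAB hx₃) _ (hAB hy₃) _ hz g2⟩)
  -- the finite check
  have hEr : E r = ((φ 0 r).val, (φ 1 r).val, (φ 2 r).val) := rfl
  have hEs : E s = ((φ 0 r).val, (φ 1 s).val, (φ 2 s).val) := by
    rw [e0]; rfl
  have hEu : E u = ((φ 0 u).val, (φ 1 r).val, (φ 2 u).val) := by
    rw [e1]; rfl
  have hchk := chk_all (φ 0 r) (φ 1 r) (φ 2 r) (φ 1 s) (φ 2 s) (φ 0 u) (φ 2 u)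
  have hchk' : chk (φ 0 r).val (φ 1 r).val (φ 2 r).val (φ 1 s).val (φ 2 s).val (φ 0 u).val
      (φ 2 u).val = true := hchk
  unfold chk at hchk'
  rw [← hEr, ← hEs, ← hEu, hjok] at hchk'
  have k1 : Nat.beq (φ 0 r).val (φ 0 u).val = false := by
    rw [Bool.eq_false_iff]
    intro h
    exact n0 (ZMod.val_injective 3 (Nat.eq_of_beq_eq_true h))
  have k2 : Nat.beq (φ 1 r).val (φ 1 s).val = false := by
    rw [Bool.eq_false_iff]
    intro h
    exact n1 (ZMod.val_injective 3 (Nat.eq_of_beq_eq_true h))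
  have k3 : ns (φ 2 r).val (φ 2 s).val (φ 2 u).val = true := by
    obtain ⟨c, hc⟩ := hns 2
    exact ns_of _ _ _ ⟨c, hc r (hAB hr), hc s (hAB hs), hc u (hAB hu)⟩
  rw [k1, k2, k3] at hchk'
  simp only [Bool.not_true, Bool.false_or] at hchk'
  -- conclusion
  refine ⟨c3 (φ 0 r) (φ 0 u), c3 (φ 1 r) (φ 1 s), ?_, ?_, ?_⟩
  · intro x hx
    obtain ⟨g1, g2⟩ := c3_spec (φ 0 r) (φ 0 u) n0
    rcases hU x hx with h | h | h
    · rw [h 0]; exact g1
    · rw [h 0, ← e0]; exact g1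
    · rw [h 0]; exact g2
  · intro x hx
    obtain ⟨g1, g2⟩ := c3_spec (φ 1 r) (φ 1 s) n1
    rcases hU x hx with h | h | h
    · rw [h 1]; exact g1
    · rw [h 1]; exact g2
    · rw [h 1, ← e1]; exact g1
  · have hD0 : ∀ x, φ 0 x = c3 (φ 0 r) (φ 0 u) + 1 ↔ D0 (E r) (E u) (E x) = true := by
      intro x
      exact (c3_val (φ 0 r) (φ 0 u) (φ 0 x)).symm
    have hD1 : ∀ x, φ 1 x = c3 (φ 1 r) (φ 1 s) + 1 ↔ D1 (E r) (E s) (E x) = true := by
      intro x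
      exact (c3_val (φ 1 r) (φ 1 s) (φ 1 x)).symm
    unfold concl at hchk'
    rw [Bool.or_eq_true] at hchk'
    rcases hchk' with h | h
    · left
      exact cbrel_of hAB φ hal _ _ _ hUe _ _ _ _ hD0 hD1 h
    · right
      exact cbrel_of hAB φ hal _ _ _ hUe _ _ _ _ hD1 hD0 h

end CodegDens
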