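import Pool.Agent.Lib.MP_81e58e_co.E3QuotCore
import Pool.Agent.Lib.MP_81e58e_co.E3Chain
import Pool.Agent.Lib.MP_81e58e_co.E3EngCB

/-!
# The canonical partition into at most three classes
-/

namespace CodegDens

theorem e3_quot {ι : Type} [Finite ι] [DecidableEq ι] {V : ι → Type}
    {R : ∀ i, V i → V i → V i → Prop} (hR : ∀ i, Sym3 (R i)) (Y : ∀ i, ℕ → Set (V i))
    (n s : ℕ) (hs : s + 32 ≤ n) (hmono : ∀ i r, r < n → Y i r ⊆ Y i (r + 1))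
    (hj : ∀ i r, r < n → J3 (R i) (Y i r) (Y i (r + 1))) (t : (∀ i, V i) → ZMod 3)
    (ht : ∀ x y z : ∀ i, V i, (∀ i, x i ∈ Y i n) → (∀ i, y i ∈ Y i n) → (∀ i, z i ∈ Y i n) →
      (∀ i, R i (x i) (y i) (z i)) → In01 (t x + t y + t z)) (i : ι) :
    ∀ x : Fin 4 → V i, (∀ a, x a ∈ Y i s) → ∃ a b, a ≠ b ∧
      ∀ y : ∀ l, V l, (∀ l, y l ∈ Y l s) →
        t (Function.update y i (x a)) = t (Function.update y i (x b)) :=
  e3_quot_core
    (fun _ _ hR _ hn Y hmono hj φ hφ => p1_chain hR hn Y hmono hj φ hφ)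
    (fun _ _ hR _ _ hAB hJ φ hφ hT h3 hns h01 h10 =>
      cb_facts hR hAB hJ φ hφ hT h3 hns h01 h10)
    hR Y n s hs hmono hj t ht i

end CodegDens
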