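import Pool.Agent.Lib.MP_81e58e_co.LabDefs
import Pool.Agent.Lib.MP_81e58e_co.E3Defs

/-!
# The step `a -> (1+a)/3` for `k = 3`: assembly (problem MP_81e58e_co)
-/

set_option autoImplicit false

namespace CodegDens

open Finset Filter Topology

namespace E3S

variable {V : Type} {E : Set (Multiset V)} {a : ℝ} {A B : Set V}

/-- Richness between two sets of labels. -/
def Good (E : Set (Multiset V)) (a : ℝ) (A B : Set V) : Prop :=
  ∀ (J : Type) [Fintype J] (s : J → Multiset V) (w : J → ℝ),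
    (∀ j, (s j).card + 1 = 3 ∧ ∀ x ∈ s j, x ∈ A) → (∀ j, 0 ≤ w j) → 0 < ∑ j, w j →
    ∃ v ∈ B, a * ∑ j, w j < ∑ j, (open Classical in if v ::ₘ s j ∈ E then w j else 0)

/-- The ternary relation of the edges. -/
def Rel (E : Set (Multiset V)) (x y z : V) : Prop := x ::ₘ y ::ₘ {z} ∈ E

lemma swap2 (y z : V) : y ::ₘ ({z} : Multiset V) = z ::ₘ {y} := by
  rw [← Multiset.cons_zero z, Multiset.cons_swap, Multiset.cons_zero]

lemma rot (x y z : V) : z ::ₘ x ::ₘ ({y} : Multiset V) = x ::ₘ y ::ₘ {z} := by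
  rw [Multiset.cons_swap, swap2 z y]

lemma rel_sym (E : Set (Multiset V)) : Sym3 (Rel E) where
  s12 x y z h := by
    unfold Rel at *
    rw [Multiset.cons_swap]
    exact h
  s23 x y z h := by
    unfold Rel at *
    rw [swap2 z y]
    exact h

lemma mem_iff (x y v : V) : v ::ₘ ({x, y} : Multiset V) ∈ E ↔ Rel E x y v := by
  unfold Rel
  rw [← rot]
  rfl

lemma good_j3 (ha : 0 ≤ a) (h : Good E ((1 + a) / 3) A B) : J3 (Rel E) A B := by
  classical
  intro x1 hx1 y1 hy1 x2 hx2 y2 hy2 x3 hx3 y3 hy3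
  obtain ⟨v, hv, hlt⟩ := h (Fin 3) ![{x1, y1}, {x2, y2}, {x3, y3}] (fun _ => 1)
    (by
      intro j
      fin_cases j
      · refine ⟨by simp, ?_⟩
        intro x hx
        simp only [Multiset.insert_eq_cons, Fin.zero_eta, Matrix.cons_val_zero,
          Multiset.mem_cons, Multiset.mem_singleton] at hx
        rcases hx with rfl | rfl
        · exact hx1
        · exact hy1
      · refine ⟨by simp, ?_⟩
        intro x hx
        simp only [Multiset.insert_eq_cons, Fin.mk_one, Matrix.cons_val_one,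
          Matrix.cons_val_zero, Multiset.mem_cons, Multiset.mem_singleton] at hx
        rcases hx with rfl | rfl
        · exact hx2
        · exact hy2
      · refine ⟨by simp, ?_⟩
        intro x hx
        simp only [Multiset.insert_eq_cons, Fin.reduceFinMk, Matrix.cons_val,
          Multiset.mem_cons, Multiset.mem_singleton] at hx
        rcases hx with rfl | rfl
        · exact hx3
        · exact hy3)
    (fun _ => zero_le_one) (by simp)
  refine ⟨v, hv, ?_⟩
  have e0 : (![{x1, y1}, {x2, y2}, {x3, y3}] : Fin 3 → Multiset V) 0 = {x1, y1} := rfl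
  have e1 : (![{x1, y1}, {x2, y2}, {x3, y3}] : Fin 3 → Multiset V) 1 = {x2, y2} := rfl
  have e2 : (![{x1, y1}, {x2, y2}, {x3, y3}] : Fin 3 → Multiset V) 2 = {x3, y3} := rfl
  rw [Fin.sum_univ_three, Fin.sum_univ_three, e0, e1, e2, mem_iff, mem_iff, mem_iff] at hlt
  by_contra hcon
  have n1 : ¬ (Rel E x1 y1 v ∧ Rel E x2 y2 v) := fun h => hcon (Or.inl h)
  have n2 : ¬ (Rel E x1 y1 v ∧ Rel E x3 y3 v) := fun h => hcon (Or.inr (Or.inl h))
  have n3 : ¬ (Rel E x2 y2 v ∧ Rel E x3 y3 v) := fun h => hcon (Or.inr (Or.inr h))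
  by_cases r1 : Rel E x1 y1 v <;> by_cases r2 : Rel E x2 y2 v <;>
    by_cases r3 : Rel E x3 y3 v <;> simp [r1, r2, r3] at hlt n1 n2 n3 <;> linarith

lemma good_weaken {a' : ℝ} {A' B' : Set V} (h : Good E a A B) (ha : a' ≤ a) (hA : A' ⊆ A)
    (hB : B ⊆ B') : Good E a' A' B' := by
  intro J _ s w hs hw hpos
  obtain ⟨v, hv, hlt⟩ := h J s w (fun j => ⟨(hs j).1, fun x hx => hA ((hs j).2 x hx)⟩) hw hpos
  exact ⟨v, hB hv, lt_of_le_of_lt (mul_le_mul_of_nonneg_right ha hpos.le) hlt⟩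

lemma good_closed {A' B' : Set V} (h : Good E a A B) (ha : 0 ≤ a) (hA : A' ⊆ A)
    (hcl : ∀ x ∈ A', ∀ y ∈ A', ∀ v ∈ B, Rel E x y v → v ∈ B') : Good E a A' B' := by
  classical
  intro J _ s w hs hw hpos
  obtain ⟨v, hv, hlt⟩ := h J s w (fun j => ⟨(hs j).1, fun x hx => hA ((hs j).2 x hx)⟩) hw hpos
  refine ⟨v, ?_, hlt⟩
  have h0 : 0 < ∑ j, (open Classical in if v ::ₘ s j ∈ E then w j else 0) :=
    lt_of_le_of_lt (mul_nonneg ha hpos.le) hlt
  obtain ⟨j, _, hj⟩ := Finset.exists_ne_zero_of_sum_ne_zero (ne_of_gt h0)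
  have hj' : v ::ₘ s j ∈ E := by
    by_contra hcon
    rw [if_neg hcon] at hj
    exact hj rfl
  obtain ⟨hc, hm⟩ := hs j
  obtain ⟨x, y, hxy⟩ := Multiset.card_eq_two.1 (show (s j).card = 2 by omega)
  rw [hxy] at hj' hm
  exact hcl x (hm x (by simp)) y (hm y (by simp)) v hv ((mem_iff x y v).1 hj')

lemma sum3 (m : ZMod 3 → ℝ) (u : ZMod 3) : ∑ x, m x = m u + m (u - 1) + m (u + 1) := by
  have h : (Finset.univ : Finset (ZMod 3)) = {u, u - 1, u + 1} := by revert u; decide
  have h1 : u ∉ ({u - 1, u + 1} : Finset (ZMod 3)) := by revert u; decide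
  have h2 : u - 1 ∉ ({u + 1} : Finset (ZMod 3)) := by revert u; decide
  rw [h, Finset.sum_insert h1, Finset.sum_insert h2, Finset.sum_singleton]
  ring

lemma z3a (c : ZMod 3) : ¬ In01 ((c + 1) + (c + 1) + c) := by
  unfold In01
  revert c
  decide

lemma z3b (u v : ZMod 3) (h : In01 (u + u + v)) : v = u ∨ v = u + 1 := by
  unfold In01 at h
  revert u v
  decide

/-- One of the three classes is rich. -/
lemma three_good (h : Good E ((1 + a) / 3) A B) (g : V → ZMod 3)
    (hg : ∀ x ∈ A, ∀ y ∈ A, ∀ v ∈ B, Rel E x y v → In01 (g x + g y + g v)) :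
    ∃ u, Good E a {v | v ∈ A ∧ g v = u} {v | v ∈ B ∧ g v = u} := by
  classical
  by_contra hcon
  have hb : ∀ u : ZMod 3, ∃ (J : Type) (_ : Fintype J) (s : J → Multiset V) (w : J → ℝ),
      (∀ j, (s j).card + 1 = 3 ∧ ∀ x ∈ s j, x ∈ A ∧ g x = u) ∧ (∀ j, 0 ≤ w j) ∧
      ∑ j, w j = 1 / 3 ∧ ∀ v ∈ B, g v = u →
        ∑ j, (open Classical in if v ::ₘ s j ∈ E then w j else 0) ≤ a / 3 := by
    intro u
    have hu : ¬ Good E a {v | v ∈ A ∧ g v = u} {v | v ∈ B ∧ g v = u} := fun h => hcon ⟨u, h⟩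
    unfold Good at hu
    push Not at hu
    obtain ⟨J, iJ, s, w, h1, h2, h3, h4⟩ := hu
    set T : ℝ := ∑ j, w j with hT
    refine ⟨J, iJ, s, fun j => w j / (3 * T), h1, fun j => div_nonneg (h2 j) (by positivity),
      ?_, ?_⟩
    · rw [← Finset.sum_div, ← hT]
      field_simp
    · intro v hv hgv
      have h5 := h4 v ⟨hv, hgv⟩
      have e : ∑ j, (open Classical in if v ::ₘ s j ∈ E then w j / (3 * T) else 0) =
          (∑ j, (open Classical in if v ::ₘ s j ∈ E then w j else 0)) / (3 * T) := by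
        rw [Finset.sum_div]
        apply Finset.sum_congr rfl
        intro j _
        split_ifs <;> simp
      rw [e, div_le_iff₀ (by positivity)]
      calc _ ≤ a * T := h5
        _ = a / 3 * (3 * T) := by ring
  choose J iJ s w h1 h2 h3 h4 using hb
  obtain ⟨v, hv, hlt⟩ := h (Σ u, J u) (fun p => s p.1 p.2) (fun p => w p.1 p.2)
    (fun p => ⟨(h1 p.1 p.2).1, fun x hx => ((h1 p.1 p.2).2 x hx).1⟩) (fun p => h2 p.1 p.2)
    (by
      rw [Fintype.sum_sigma]
      simp only [h3]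
      rw [sum3 _ 0]
      norm_num)
  rw [Fintype.sum_sigma, Fintype.sum_sigma] at hlt
  simp only [h3] at hlt
  rw [sum3 _ 0, sum3 _ (g v)] at hlt
  have m1 := h4 (g v) v hv rfl
  have m2 : ∑ j, (if v ::ₘ s (g v - 1) j ∈ E then w (g v - 1) j else 0) ≤ 1 / 3 := by
    rw [← h3 (g v - 1)]
    apply Finset.sum_le_sum
    intro j _
    split_ifs
    · exact le_rfl
    · exact h2 _ j
  have m3 : ∑ j, (if v ::ₘ s (g v + 1) j ∈ E then w (g v + 1) j else 0) = 0 := by
    apply Finset.sum_eq_zero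
    intro j _
    rw [if_neg]
    intro hE
    obtain ⟨hc, hm⟩ := h1 (g v + 1) j
    obtain ⟨x, y, hxy⟩ := Multiset.card_eq_two.1 (show (s (g v + 1) j).card = 2 by omega)
    rw [hxy] at hE hm
    obtain ⟨hx, gx⟩ := hm x (by simp)
    obtain ⟨hy, gy⟩ := hm y (by simp)
    have := hg x hx y hy v hv ((mem_iff x y v).1 hE)
    rw [gx, gy] at this
    exact z3a _ this
  have e1 : (1 + a) / 3 * (1 / 3 + 1 / 3 + 1 / 3) = a / 3 + 1 / 3 + 0 := by ring
  rw [e1] at hlt
  have e2 := add_le_add (add_le_add m1 m2) m3.le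
  exact absurd (lt_of_lt_of_le hlt e2) (lt_irrefl _)

/-- The final contradiction: a box on which the first coordinate is constant. -/
lemma box_const {ι : Type} {W : ι → Type} {E : ∀ i, Set (Multiset (W i))} {C : Type}
    {Q : Set (Multiset C)} {L' : ℕ}
    (hQ : ∀ Y : ∀ i, ℕ → Set (W i), (∀ i, LabChain 3 (E i) a L' (Y i)) →
      ∀ f' : (∀ i, W i) → C, ¬ LabHomOn 3 E (fun i => Y i L') f' Q)
    (f : (∀ i, W i) → ZMod 3 × C) (Yn : ∀ i, Set (W i)) (hf : LabHomOn 3 E Yn f (E3Pat Q))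
    (Y' : ∀ i, ℕ → Set (W i)) (hch : ∀ i, LabChain 3 (E i) a L' (Y' i))
    (hsub : ∀ i, Y' i L' ⊆ Yn i) (u : ZMod 3)
    (hu : ∀ x : ∀ i, W i, (∀ i, x i ∈ Y' i L') → (f x).1 = u) : False := by
  refine hQ Y' hch (fun x => (f x).2) ?_
  intro e he hE hY
  obtain ⟨h1, h2⟩ := hf e he hE (fun x hx i => hsub i (hY x hx i))
  have hsum : ((e.map f).map Prod.fst).sum = 0 := by
    rw [Multiset.map_map]
    have h3 : e.map (Prod.fst ∘ f) = Multiset.replicate 3 u := by
      rw [Multiset.eq_replicate]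
      refine ⟨by rw [Multiset.card_map, he], ?_⟩
      intro b hb
      obtain ⟨x, hx, rfl⟩ := Multiset.mem_map.1 hb
      exact hu x (hY x hx)
    have h4 : ∀ c : ZMod 3, 3 • c = 0 := by decide
    rw [h3, Multiset.sum_replicate]
    exact h4 u
  rcases h2 with h2 | h2
  · rw [hsum] at h2
    exact absurd h2 (by decide)
  · have h4 := h2.2
    rw [Multiset.map_map] at h4
    exact h4

end E3S

/-- The statement of the module `E3Win`. -/
def E3WinStmt : Prop :=
  ∀ w : ℕ, ∃ n : ℕ, ∀ (ι : Type) [Finite ι] (V : ι → Type)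
    (R : ∀ i, V i → V i → V i → Prop) (_ : ∀ i, Sym3 (R i)) (Y : ∀ i, ℕ → Set (V i))
    (_ : ∀ i, (Y i 0).Nonempty) (_ : ∀ i s, s < n → Y i s ⊆ Y i (s + 1))
    (_ : ∀ i s, s < n → J3 (R i) (Y i s) (Y i (s + 1))) (t : (∀ i, V i) → ZMod 3)
    (_ : ∀ x y z : ∀ i, V i, (∀ i, x i ∈ Y i n) → (∀ i, y i ∈ Y i n) → (∀ i, z i ∈ Y i n) →
      (∀ i, R i (x i) (y i) (z i)) → In01 (t x + t y + t z)),
    ∃ (s : ι → ℕ) (Z : ∀ i, ℕ → Set (V i)), (∀ i, s i + w ≤ n) ∧ (∀ i, (Z i 0).Nonempty) ∧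
      (∀ i j, j ≤ w → Z i j ⊆ Y i (s i + j)) ∧ (∀ i j, j < w → Z i j ⊆ Z i (j + 1)) ∧
      (∀ i j, j < w → ∀ x ∈ Z i j, ∀ y ∈ Z i j, ∀ v ∈ Y i (s i + j + 1), R i x y v →
        v ∈ Z i (j + 1)) ∧
      ((∀ x y : ∀ i, V i, (∀ i, x i ∈ Z i w) → (∀ i, y i ∈ Z i w) → t x = t y) ∨
        ∃ i, (∀ x y : ∀ i, V i, (∀ l, x l ∈ Z l w) → (∀ l, y l ∈ Z l w) → x i = y i →
            t x = t y) ∧
          ∀ x : ∀ i, V i, (∀ l, x l ∈ Z l w) → ∃ x' : ∀ i, V i, (∀ l, x' l ∈ Z l 0) ∧
            t x' = t x)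

theorem irrLab_E3_of (hwin : E3WinStmt) {C : Type} (Q : Set (Multiset C)) (a : ℝ)
    (ha0 : 0 ≤ a) (ha : a ≤ 1 / 2) (hQ : IrrLab 3 Q a) :
    IrrLab 3 (E3Pat Q) ((1 + a) / 3) := by
  classical
  obtain ⟨L', hL'⟩ := hQ
  obtain ⟨n, hn⟩ := hwin (3 * L' + 1)
  refine ⟨n, ?_⟩
  intro ι _ _ V E Y hY f hf
  have hgood : ∀ i s, s < n → E3S.Good (E i) ((1 + a) / 3) (Y i s) (Y i (s + 1)) :=
    fun i s hs => (hY i).rich s hs
  have hprod : ∀ x y z : ∀ i, V i, (∀ i, x i ∈ Y i n) → (∀ i, y i ∈ Y i n) →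
      (∀ i, z i ∈ Y i n) → (∀ i, E3S.Rel (E i) (x i) (y i) (z i)) →
      In01 ((f x).1 + (f y).1 + (f z).1) := by
    intro x y z hx hy hz hR
    have h := hf (x ::ₘ y ::ₘ {z}) (by simp) (by
        intro i
        have := hR i
        unfold E3S.Rel at this
        simpa using this) (by
        intro v hv i
        simp only [Multiset.mem_cons, Multiset.mem_singleton] at hv
        rcases hv with rfl | rfl | rfl
        · exact hx i
        · exact hy i
        · exact hz i)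
    obtain ⟨-, h2⟩ := h
    simp only [Multiset.map_cons, Multiset.map_singleton, Multiset.sum_cons,
      Multiset.sum_singleton] at h2
    unfold In01
    rcases h2 with h2 | h2
    · right
      rw [← h2]
      ring
    · left
      rw [← h2.1]
      ring
  obtain ⟨s, Z, hsw, hZ0, hZY, hZm, hZc, hcase⟩ := hn ι V (fun i => E3S.Rel (E i))
    (fun i => E3S.rel_sym (E i)) Y (fun i => (hY i).nonempty) (fun i s hs => (hY i).mono s hs)
    (fun i s hs => E3S.good_j3 ha0 (hgood i s hs)) (fun x => (f x).1) hprod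
  set w := 3 * L' + 1 with hw
  have hYm : ∀ i s s', s ≤ s' → s' ≤ n → Y i s ⊆ Y i s' := by
    intro i s s' hss
    induction s', hss using Nat.le_induction with
    | base => exact fun _ => subset_rfl
    | succ s' _ ih => exact fun h => (ih (by omega)).trans ((hY i).mono s' (by omega))
  have hZmm : ∀ i j j', j ≤ j' → j' ≤ w → Z i j ⊆ Z i j' := by
    intro i j j' hjj
    induction j', hjj using Nat.le_induction with
    | base => exact fun _ => subset_rfl
    | succ j' _ ih => exact fun h => (ih (by omega)).trans (hZm i j' (by omega))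
  have hZn : ∀ i j, j ≤ w → Z i j ⊆ Y i n := fun i j hj =>
    (hZY i j hj).trans (hYm i _ _ (by have := hsw i; omega) le_rfl)
  have gZ : ∀ i j, j < w → E3S.Good (E i) ((1 + a) / 3) (Z i j) (Z i (j + 1)) := by
    intro i j hj
    have h := hgood i (s i + j) (by have := hsw i; omega)
    exact E3S.good_closed h (by positivity) (hZY i j hj.le) (hZc i j hj)
  have gZa : ∀ i j, j < w → E3S.Good (E i) a (Z i j) (Z i (j + 1)) := fun i j hj =>
    E3S.good_weaken (gZ i j hj) (by linarith) subset_rfl subset_rfl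
  have hQ' := fun (Y : ∀ i, ℕ → Set (V i)) => hL' ι V E Y
  choose x0 hx0 using hZ0
  have hx0w : ∀ i, x0 i ∈ Z i w := fun i => hZmm i 0 w (Nat.zero_le _) le_rfl (hx0 i)
  have chZ : ∀ i, LabChain 3 (E i) a L' (Z i) := fun i =>
    ⟨⟨x0 i, hx0 i⟩, fun t ht => hZm i t (by omega), fun t ht => gZa i t (by omega)⟩
  rcases hcase with hconst | ⟨i0, hdic, hval⟩
  · -- the first coordinate is constant
    refine E3S.box_const hQ' f (fun i => Y i n) hf Z chZ (fun i => hZn i L' (by omega))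
      (f x0).1 ?_
    intro x hx
    exact hconst x x0 (fun i => hZmm i L' w (by omega) le_rfl (hx i)) hx0w
  -- the dictator
  set g : V i0 → ZMod 3 := fun v => (f (Function.update x0 i0 v)).1 with hg
  have upd_mem : ∀ v ∈ Z i0 w, ∀ l, Function.update x0 i0 v l ∈ Z l w := by
    intro v hv l
    by_cases h : l = i0
    · subst h
      rw [Function.update_self]
      exact hv
    · rw [Function.update_of_ne h]
      exact hx0w l
  have hdg : ∀ x : ∀ i, V i, (∀ l, x l ∈ Z l w) → (f x).1 = g (x i0) := by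
    intro x hx
    exact hdic x (Function.update x0 i0 (x i0)) hx (upd_mem _ (hx i0))
      (by rw [Function.update_self])
  have hw1 : 1 ≤ w := by omega
  -- sums on the edges of the factor
  have hedge : ∀ v1 ∈ Z i0 w, ∀ v2 ∈ Z i0 w, ∀ v3 ∈ Z i0 w, E3S.Rel (E i0) v1 v2 v3 →
      In01 (g v1 + g v2 + g v3) := by
    intro v1 h1 v2 h2 v3 h3 hR
    have hu : ∀ l, ∃ u ∈ Z l 1, E3S.Rel (E l) (x0 l) (x0 l) u := by
      intro l
      obtain ⟨z, hz, hz'⟩ := E3S.good_j3 ha0 (gZ l 0 (by omega)) (x0 l) (hx0 l) (x0 l) (hx0 l)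
        (x0 l) (hx0 l) (x0 l) (hx0 l) (x0 l) (hx0 l) (x0 l) (hx0 l)
      refine ⟨z, hz, ?_⟩
      rcases hz' with h | h | h <;> exact h.1
    choose u hu1 hu2 using hu
    have huw : ∀ l, u l ∈ Z l w := fun l => hZmm l 1 w hw1 le_rfl (hu1 l)
    have um : ∀ l, Function.update u i0 v3 l ∈ Z l w := by
      intro l
      by_cases h : l = i0
      · subst h
        rw [Function.update_self]
        exact h3
      · rw [Function.update_of_ne h]
        exact huw l
    have hp := hprod (Function.update x0 i0 v1) (Function.update x0 i0 v2)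
      (Function.update u i0 v3) (fun l => hZn l w le_rfl (upd_mem v1 h1 l))
      (fun l => hZn l w le_rfl (upd_mem v2 h2 l)) (fun l => hZn l w le_rfl (um l)) (by
        intro l
        by_cases h : l = i0
        · subst h
          rw [Function.update_self, Function.update_self, Function.update_self]
          exact hR
        · rw [Function.update_of_ne h, Function.update_of_ne h, Function.update_of_ne h]
          exact hu2 l)
    rw [hdg _ um, Function.update_self] at hp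
    exact hp
  -- the values
  have hvals : ∀ v ∈ Z i0 w, ∃ v' ∈ Z i0 0, g v' = g v := by
    intro v hv
    obtain ⟨x', hx', he⟩ := hval (Function.update x0 i0 v) (upd_mem v hv)
    refine ⟨x' i0, hx' i0, ?_⟩
    rw [← hdg x' (fun l => hZmm l 0 w (Nat.zero_le _) le_rfl (hx' l))]
    exact he
  -- a good class on every level
  have hlev : ∀ j, j < w → ∃ u : ZMod 3, (∃ v ∈ Z i0 j, g v = u) ∧
      E3S.Good (E i0) a {v | v ∈ Z i0 j ∧ g v = u} {v | v ∈ Z i0 (j + 1) ∧ g v = u} := by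
    intro j hj
    have hjw : Z i0 j ⊆ Z i0 w := hZmm i0 j w hj.le le_rfl
    have hj1w : Z i0 (j + 1) ⊆ Z i0 w := hZmm i0 (j + 1) w hj le_rfl
    have h0j : Z i0 0 ⊆ Z i0 j := hZmm i0 0 j (Nat.zero_le _) hj.le
    by_cases hall : ∀ u : ZMod 3, ∃ v ∈ Z i0 0, g v = u
    · obtain ⟨u, hu⟩ := E3S.three_good (gZ i0 j hj) g
        (fun x hx y hy v hv hR => hedge x (hjw hx) y (hjw hy) v (hj1w hv) hR)
      obtain ⟨v, hv, hvu⟩ := hall u
      exact ⟨u, ⟨v, h0j hv, hvu⟩, hu⟩
    · have hex : ∃ u : ZMod 3, (∃ v ∈ Z i0 0, g v = u) ∧ ¬ ∃ v ∈ Z i0 0, g v = u + 1 := by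
        by_contra hcon
        push Not at hcon
        apply hall
        have h0 : ∃ v ∈ Z i0 0, g v = g (x0 i0) := ⟨x0 i0, hx0 i0, rfl⟩
        have h1 := hcon _ h0
        have h2 := hcon _ h1
        intro u
        have h3 : ∀ c u : ZMod 3, u = c ∨ u = c + 1 ∨ u = c + 1 + 1 := by decide
        rcases h3 (g (x0 i0)) u with h | h | h
        · rw [h]
          exact h0
        · rw [h]
          exact h1
        · rw [h]
          exact h2
      obtain ⟨u, ⟨v, hv, hvu⟩, hno⟩ := hex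
      refine ⟨u, ⟨v, h0j hv, hvu⟩, ?_⟩
      refine E3S.good_closed (gZa i0 j hj) ha0 (fun v hv => hv.1) ?_
      rintro x ⟨hx, gx⟩ y ⟨hy, gy⟩ v' hv' hR
      refine ⟨hv', ?_⟩
      have h4 := hedge x (hjw hx) y (hjw hy) v' (hj1w hv') hR
      rw [gx, gy] at h4
      rcases E3S.z3b u (g v') h4 with h5 | h5
      · exact h5
      · exfalso
        obtain ⟨v'', hv'', he⟩ := hvals v' (hj1w hv')
        exact hno ⟨v'', hv'', he.trans h5⟩
  choose! col hcol1 hcol2 using hlev
  obtain ⟨u, -, hu⟩ := Finset.exists_lt_card_fiber_of_mul_lt_card_of_maps_to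
    (s := Finset.range w) (t := (Finset.univ : Finset (ZMod 3))) (f := col) (n := L')
    (fun _ _ => Finset.mem_univ _) (by
      rw [Finset.card_range, Finset.card_univ, ZMod.card]
      omega)
  set S := (Finset.range w).filter (fun j => col j = u) with hS
  have hSc : L' + 1 ≤ S.card := hu
  let e := S.orderEmbOfCardLe hSc
  have heS : ∀ r, e r ∈ S := fun r => Finset.orderEmbOfCardLe_mem S hSc r
  set jr : ℕ → ℕ := fun r => if h : r < L' + 1 then e ⟨r, h⟩ else 0 with hjr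
  have jr_eq : ∀ r (h : r < L' + 1), jr r = e ⟨r, h⟩ := fun r h => by rw [hjr]; simp [h]
  have jrw : ∀ r, r < L' + 1 → jr r < w ∧ col (jr r) = u := by
    intro r hr
    rw [jr_eq r hr]
    have := heS ⟨r, hr⟩
    rw [hS, Finset.mem_filter, Finset.mem_range] at this
    exact this
  have jrm : ∀ r, r + 1 < L' + 1 → jr r < jr (r + 1) := by
    intro r hr
    rw [jr_eq r (by omega), jr_eq (r + 1) hr]
    apply e.strictMono
    show r < r + 1
    omega
  set Y' : ∀ i, ℕ → Set (V i) := fun i r =>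
    if i = i0 then {v | v ∈ Z i (jr r) ∧ (f (Function.update x0 i v)).1 = u} else Z i r with hY'
  have Y'0 : ∀ r, Y' i0 r = {v | v ∈ Z i0 (jr r) ∧ g v = u} := by
    intro r
    rw [hY']
    simp only [if_true, hg]
  have Y'1 : ∀ i, i ≠ i0 → Y' i = Z i := by
    intro i hi
    funext r
    rw [hY']
    simp only [if_neg hi]
  have chY : ∀ i, LabChain 3 (E i) a L' (Y' i) := by
    intro i
    by_cases hi : i = i0
    · subst hi
      refine ⟨?_, ?_, ?_⟩
      · obtain ⟨h1, h2⟩ := jrw 0 (by omega)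
        obtain ⟨v, hv, hvu⟩ := hcol1 _ h1
        rw [Y'0]
        exact ⟨v, hv, hvu.trans h2⟩
      · intro r hr
        rw [Y'0, Y'0]
        rintro v ⟨h1, h2⟩
        exact ⟨hZmm i _ _ (jrm r (by omega)).le (jrw (r + 1) (by omega)).1.le h1, h2⟩
      · intro r hr
        obtain ⟨h1, h2⟩ := jrw r (by omega)
        have h3 := hcol2 _ h1
        rw [h2] at h3
        have h4 : E3S.Good (E i) a (Y' i r) (Y' i (r + 1)) := by
          rw [Y'0, Y'0]
          refine E3S.good_weaken h3 le_rfl subset_rfl ?_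
          rintro v ⟨h5, h6⟩
          exact ⟨hZmm i _ _ (jrm r (by omega)) (jrw (r + 1) (by omega)).1.le h5, h6⟩
        exact h4
    · rw [Y'1 i hi]
      exact chZ i
  have hYZ : ∀ i, Y' i L' ⊆ Z i w := by
    intro i
    by_cases hi : i = i0
    · subst hi
      rw [Y'0]
      rintro v ⟨h1, -⟩
      exact hZmm i _ _ (jrw L' (by omega)).1.le le_rfl h1
    · rw [Y'1 i hi]
      exact hZmm i _ _ (by omega) le_rfl
  refine E3S.box_const hQ' f (fun i => Y i n) hf Y' chY
    (fun i => (hYZ i).trans (hZn i w le_rfl)) u ?_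
  intro x hx
  rw [hdg x (fun i => hYZ i (hx i))]
  have h5 := hx i0
  rw [Y'0] at h5
  exact h5.2

end CodegDens
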