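import Pool.Agent.Lib.MP_81e58e_co.E3WinOf
import Pool.Agent.Lib.MP_81e58e_co.E3Quot
import Pool.Agent.Lib.MP_81e58e_co.E3Dic
import Pool.Agent.Lib.MP_81e58e_co.E3Step

/-!
# The step `a -> (1+a)/3` for `k = 3` (problem MP_81e58e_co)
-/

namespace CodegDens

theorem irrLab_E3 {C : Type} (Q : Set (Multiset C)) (a : ℝ) (ha0 : 0 ≤ a) (ha : a ≤ 1 / 2)
    (hQ : IrrLab 3 Q a) : IrrLab 3 (E3Pat Q) ((1 + a) / 3) :=
  irrLab_E3_of (fun w => e3_window_of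
    (fun _ _ _ _ _ hR Y n s hs hmono hj t ht i => e3_quot hR Y n s hs hmono hj t ht i)
    (fun _ _ _ _ hF t ht => e3_dictator hF t ht) w) Q a ha0 ha hQ

end CodegDens
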