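import Pool.Agent.Lib.MP_81e58e_co.E3Defs

/-!
# The canonical partition into at most three classes (core, from `p1_chain` and `cb_facts`)
-/

namespace CodegDens

/-- the statement of `p1_chain` -/
def P1Chain : Prop := ∀ (V : Type) (R : V → V → V → Prop) (_ : Sym3 R) (n : ℕ) (_ : 30 ≤ n)
    (Y : ℕ → Set V) (_ : ∀ s, s < n → Y s ⊆ Y (s + 1))
    (_ : ∀ s, s < n → J3 R (Y s) (Y (s + 1))) (φ : Fin 3 → V → ZMod 3)
    (_ : ∀ x ∈ Y n, ∀ y ∈ Y n, ∀ z ∈ Y n, R x y z → In01 (φ 0 x + φ 1 y + φ 2 z)),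
    ∀ x : Fin 4 → V, (∀ a, x a ∈ Y 0) → ∃ a b, a ≠ b ∧ ∀ j, φ j (x a) = φ j (x b)

/-- the statement of `cb_facts` -/
def CbFacts : Prop := ∀ (V : Type) (R : V → V → V → Prop) (_ : Sym3 R) (A B : Set V) (_ : A ⊆ B)
    (_ : J3 R A B) (φ : Fin 3 → V → ZMod 3)
    (_ : ∀ x ∈ B, ∀ y ∈ B, ∀ z ∈ B, R x y z → In01 (φ 0 x + φ 1 y + φ 2 z))
    (_ : ∀ x ∈ B, ∃ x' ∈ A, ∀ j, φ j x' = φ j x)
    (_ : ∀ x : Fin 4 → V, (∀ a, x a ∈ B) → ∃ a b, a ≠ b ∧ ∀ j, φ j (x a) = φ j (x b))
    (_ : ∀ j, ∃ c, ∀ x ∈ B, φ j x ≠ c)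
    (_ : ∃ x ∈ A, ∃ y ∈ A, φ 0 x = φ 0 y ∧ φ 1 x ≠ φ 1 y)
    (_ : ∃ x ∈ A, ∃ y ∈ A, φ 1 x = φ 1 y ∧ φ 0 x ≠ φ 0 y),
    ∃ c₀ c₁ : ZMod 3, (∀ x ∈ B, φ 0 x = c₀ ∨ φ 0 x = c₀ + 1) ∧
      (∀ x ∈ B, φ 1 x = c₁ ∨ φ 1 x = c₁ + 1) ∧
      (CBrel R A B (fun x => φ 0 x = c₀ + 1) (fun x => φ 1 x = c₁ + 1) ∨
        CBrel R A B (fun x => φ 1 x = c₁ + 1) (fun x => φ 0 x = c₀ + 1))

namespace E3QuotAux

lemma pigeon (f : Fin 4 → ZMod 3) : ∃ a b, a ≠ b ∧ f a = f b := by
  apply Fintype.exists_ne_map_eq_of_card_lt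
  simp [ZMod.card]

lemma two_uniq : ∀ u v c c' : ZMod 3, (u = c ∨ u = c + 1) → (v = c ∨ v = c + 1) →
    (u = c' ∨ u = c' + 1) → (v = c' ∨ v = c' + 1) → u ≠ v → c = c' := by
  decide

/-- one function takes two values, the other is two-valued and separates more -/
lemma sep_symm_dec : ∀ a0 a1 ap b0 b1 bp bq m : ZMod 3,
    a0 ≠ a1 → bp ≠ bq → m ≠ b0 → m ≠ b1 → m ≠ bp → m ≠ bq →
    (b0 = b1 → a0 = a1) → (b0 = bp → a0 = ap) → (b0 = bq → a0 = ap) →
    (b1 = bp → a1 = ap) → (b1 = bq → a1 = ap) → False := by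
  decide

variable {V : Type} {R : V → V → V → Prop} {A B : Set V}

lemma sep_symm (f g : V → ZMod 3) (m : ZMod 3) (hm : ∀ x ∈ A, g x ≠ m)
    (hf : ∃ x ∈ A, ∃ y ∈ A, f x ≠ f y) (hs : ∃ x ∈ A, ∃ y ∈ A, f x = f y ∧ g x ≠ g y) :
    ∃ x ∈ A, ∃ y ∈ A, g x = g y ∧ f x ≠ f y := by
  obtain ⟨x0, h0, x1, h1, h01⟩ := hf
  obtain ⟨p, hp, q, hq, hpq, hg⟩ := hs
  by_contra hcon
  push Not at hcon
  refine sep_symm_dec (f x0) (f x1) (f p) (g x0) (g x1) (g p) (g q) m h01 hg
    (hm _ h0).symm (hm _ h1).symm (hm _ hp).symm (hm _ hq).symm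
    (hcon x0 h0 x1 h1) (hcon x0 h0 p hp) (fun h => ?_) (hcon x1 h1 p hp) (fun h => ?_)
  · rw [hpq]; exact hcon x0 h0 q hq h
  · rw [hpq]; exact hcon x1 h1 q hq h

/-- strict chain of two sets -/
def Ch (R : V → V → V → Prop) (A B : Set V) (D D' : V → Prop) : Prop :=
  CBrel R A B D D' ∧ ∃ p ∈ A, ¬ D p ∧ D' p

lemma no_chain (hJ : J3 R A B) {D D' D'' : V → Prop} (h1 : Ch R A B D D')
    (h2 : Ch R A B D' D'') : False := by
  obtain ⟨⟨i1, c1⟩, p, hp, hp1, hp2⟩ := h1
  obtain ⟨⟨i2, c2⟩, q, hq, hq1, hq2⟩ := h2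
  obtain ⟨z, hz, h⟩ := hJ p hp q hq p hp q hq p hp q hq
  have hR : R p q z := by
    rcases h with h | h | h
    · exact h.1
    · exact h.1
    · exact h.1
  have e1 := (c1 p hp q hq z hz hR).1 hp1 hp2 hq1
  have e2 := (c2 p hp q hq z hz hR).2 hp2 hq1 hq2
  exact e2 e1

lemma no_tour (hJ : J3 R A B) {D1 D2 D3 : V → Prop} (h12 : Ch R A B D1 D2 ∨ Ch R A B D2 D1)
    (h13 : Ch R A B D1 D3 ∨ Ch R A B D3 D1) (h23 : Ch R A B D2 D3 ∨ Ch R A B D3 D2) : False := by
  rcases h12 with h12 | h12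
  · rcases h23 with h23 | h23
    · exact no_chain hJ h12 h23
    · rcases h13 with h13 | h13
      · exact no_chain hJ h13 h23
      · exact no_chain hJ h13 h12
  · rcases h13 with h13 | h13
    · exact no_chain hJ h12 h13
    · rcases h23 with h23 | h23
      · exact no_chain hJ h23 h13
      · exact no_chain hJ h23 h12

end E3QuotAux

open E3QuotAux in
theorem e3_quot_core (hP1 : P1Chain) (hCB : CbFacts) {ι : Type} [Finite ι] [DecidableEq ι]
    {V : ι → Type}
    {R : ∀ i, V i → V i → V i → Prop} (hR : ∀ i, Sym3 (R i)) (Y : ∀ i, ℕ → Set (V i))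
    (n s : ℕ) (hs : s + 32 ≤ n) (hmono : ∀ i r, r < n → Y i r ⊆ Y i (r + 1))
    (hj : ∀ i r, r < n → J3 (R i) (Y i r) (Y i (r + 1))) (t : (∀ i, V i) → ZMod 3)
    (ht : ∀ x y z : ∀ i, V i, (∀ i, x i ∈ Y i n) → (∀ i, y i ∈ Y i n) → (∀ i, z i ∈ Y i n) →
      (∀ i, R i (x i) (y i) (z i)) → In01 (t x + t y + t z)) (i : ι) :
    ∀ x : Fin 4 → V i, (∀ a, x a ∈ Y i s) → ∃ a b, a ≠ b ∧
      ∀ y : ∀ l, V l, (∀ l, y l ∈ Y l s) →
        t (Function.update y i (x a)) = t (Function.update y i (x b)) := by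
  classical
  -- monotonicity
  have mono : ∀ l r r', r ≤ r' → r' ≤ n → Y l r ⊆ Y l r' := by
    intro l r r' hrr
    induction r', hrr using Nat.le_induction with
    | base => intro _; exact subset_rfl
    | succ m _ ih => intro hm; exact (ih (by omega)).trans (hmono l m (by omega))
  -- completions of contexts
  have compl : ∀ r, r < n → ∀ y1 y2 : ∀ l, V l, (∀ l, y1 l ∈ Y l r) → (∀ l, y2 l ∈ Y l r) →
      ∃ y3 : ∀ l, V l, (∀ l, y3 l ∈ Y l (r + 1)) ∧ ∀ l, R l (y1 l) (y2 l) (y3 l) := by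
    intro r hr y1 y2 h1 h2
    have : ∀ l, ∃ z, z ∈ Y l (r + 1) ∧ R l (y1 l) (y2 l) z := by
      intro l
      obtain ⟨z, hz, h⟩ := hj l r hr _ (h1 l) _ (h2 l) _ (h1 l) _ (h2 l) _ (h1 l) _ (h2 l)
      refine ⟨z, hz, ?_⟩
      rcases h with h | h | h
      · exact h.1
      · exact h.1
      · exact h.1
    choose y3 h3 using this
    exact ⟨y3, fun l => (h3 l).1, fun l => (h3 l).2⟩
  -- product edges
  have prod : ∀ y1 y2 y3 : ∀ l, V l, (∀ l, y1 l ∈ Y l n) → (∀ l, y2 l ∈ Y l n) →
      (∀ l, y3 l ∈ Y l n) → (∀ l, R l (y1 l) (y2 l) (y3 l)) → ∀ a ∈ Y i n, ∀ b ∈ Y i n,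
      ∀ c ∈ Y i n, R i a b c → In01 (t (Function.update y1 i a) + t (Function.update y2 i b) +
        t (Function.update y3 i c)) := by
    intro y1 y2 y3 h1 h2 h3 hE a ha b hb c hc hRabc
    apply ht
    · intro l
      by_cases hl : l = i
      · subst hl; simpa using ha
      · simpa [hl] using h1 l
    · intro l
      by_cases hl : l = i
      · subst hl; simpa using hb
      · simpa [hl] using h2 l
    · intro l
      by_cases hl : l = i
      · subst hl; simpa using hc
      · simpa [hl] using h3 l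
    · intro l
      by_cases hl : l = i
      · subst hl; simpa using hRabc
      · simpa [hl] using hE l
  -- at most three types
  have four : ∀ r, r + 30 ≤ n → ∀ y1 y2 y3 : ∀ l, V l, (∀ l, y1 l ∈ Y l n) →
      (∀ l, y2 l ∈ Y l n) → (∀ l, y3 l ∈ Y l n) → (∀ l, R l (y1 l) (y2 l) (y3 l)) →
      ∀ x : Fin 4 → V i, (∀ a, x a ∈ Y i r) → ∃ a b, a ≠ b ∧ ∀ j : Fin 3,
        (![fun v => t (Function.update y1 i v), fun v => t (Function.update y2 i v),
          fun v => t (Function.update y3 i v)] : Fin 3 → V i → ZMod 3) j (x a) =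
        (![fun v => t (Function.update y1 i v), fun v => t (Function.update y2 i v),
          fun v => t (Function.update y3 i v)] : Fin 3 → V i → ZMod 3) j (x b) := by
    intro r hr y1 y2 y3 h1 h2 h3 hE x hx
    have e : r + (n - r) = n := by omega
    refine hP1 (V i) (R i) (hR i) (n - r) (by omega) (fun q => Y i (r + q))
      (fun q hq => hmono i (r + q) (by omega)) (fun q hq => hj i (r + q) (by omega)) _ ?_ x hx
    intro a ha b hb c hc hRabc
    simp only [e] at ha hb hc
    exact prod y1 y2 y3 h1 h2 h3 hE a ha b hb c hc hRabc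
  intro x hx
  by_cases hA : ∃ y0 : ∀ l, V l, (∀ l, y0 l ∈ Y l (s + 1)) ∧
      ∀ u : ZMod 3, ∃ v ∈ Y i (s + 1), t (Function.update y0 i v) = u
  · -- Case A
    obtain ⟨y0, hy0, hsur⟩ := hA
    choose w hw hwt using hsur
    have key : ∀ v ∈ Y i s, ∀ y : ∀ l, V l, (∀ l, y l ∈ Y l s) →
        t (Function.update y i v) = t (Function.update y i (w (t (Function.update y0 i v)))) := by
      intro v hv y hy
      obtain ⟨y3, hy3, hE⟩ := compl (s + 1) (by omega) y0 y hy0
        (fun l => mono l s (s + 1) (by omega) (by omega) (hy l))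
      have hx4 : ∀ a, (![v, w 0, w 1, w 2] : Fin 4 → V i) a ∈ Y i (s + 1) := by
        intro a
        have hv' := mono i s (s + 1) (by omega) (by omega) hv
        fin_cases a
        · exact hv'
        · exact hw 0
        · exact hw 1
        · exact hw 2
      obtain ⟨a, b, hab, h⟩ := four (s + 1) (by omega) y0 y y3
        (fun l => mono l (s + 1) n (by omega) le_rfl (hy0 l))
        (fun l => mono l s n (by omega) le_rfl (hy l))
        (fun l => mono l (s + 2) n (by omega) le_rfl (hy3 l)) hE _ hx4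
      have h0 := h 0
      have h1 := h 1
      simp only [Matrix.cons_val_zero, Matrix.cons_val_one] at h0 h1
      -- the coincidence involves `v`
      have hcase : ∃ u : ZMod 3, t (Function.update y0 i v) = t (Function.update y0 i (w u)) ∧
          t (Function.update y i v) = t (Function.update y i (w u)) := by
        fin_cases a <;> fin_cases b <;>
          first
          | exact absurd rfl hab
          | exact ⟨0, h0, h1⟩
          | exact ⟨1, h0, h1⟩
          | exact ⟨2, h0, h1⟩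
          | exact ⟨0, h0.symm, h1.symm⟩
          | exact ⟨1, h0.symm, h1.symm⟩
          | exact ⟨2, h0.symm, h1.symm⟩
          | (exfalso
             simp only [Fin.mk_one, Fin.zero_eta, Fin.reduceFinMk, Matrix.cons_val_zero,
               Matrix.cons_val_one, Matrix.cons_val, hwt] at h0
             revert h0; decide)
      obtain ⟨u, hu0, hu1⟩ := hcase
      rw [hwt] at hu0
      rw [hu0]; exact hu1
    obtain ⟨a, b, hab, h⟩ := pigeon (fun a => t (Function.update y0 i (x a)))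
    refine ⟨a, b, hab, fun y hy => ?_⟩
    rw [key (x a) (hx a) y hy, key (x b) (hx b) y hy, h]
  · -- Case B
    push Not at hA
    by_contra hcon
    push Not at hcon
    have hns : ∀ y : ∀ l, V l, (∀ l, y l ∈ Y l (s + 1)) → ∃ c : ZMod 3, ∀ v ∈ Y i (s + 1),
        t (Function.update y i v) ≠ c := hA
    have hAB : Y i s ⊆ Y i (s + 1) := hmono i s (by omega)
    have hJ : J3 (R i) (Y i s) (Y i (s + 1)) := hj i s (by omega)
    have up : ∀ y : ∀ l, V l, (∀ l, y l ∈ Y l s) → ∀ l, y l ∈ Y l (s + 1) :=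
      fun y hy l => hmono l s (by omega) (hy l)
    have upn : ∀ y : ∀ l, V l, (∀ l, y l ∈ Y l s) → ∀ l, y l ∈ Y l n :=
      fun y hy l => mono l s n (by omega) le_rfl (hy l)
    -- the pair lemma
    have pair : ∀ ya yb : ∀ l, V l, (∀ l, ya l ∈ Y l s) → (∀ l, yb l ∈ Y l s) →
        (∃ u ∈ Y i s, ∃ v ∈ Y i s, t (Function.update ya i u) = t (Function.update ya i v) ∧
          t (Function.update yb i u) ≠ t (Function.update yb i v)) →
        (∃ u ∈ Y i s, ∃ v ∈ Y i s, t (Function.update yb i u) = t (Function.update yb i v) ∧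
          t (Function.update ya i u) ≠ t (Function.update ya i v)) →
        ∃ c₀ c₁ : ZMod 3,
          (∀ v ∈ Y i (s + 1), t (Function.update ya i v) = c₀ ∨
            t (Function.update ya i v) = c₀ + 1) ∧
          (∀ v ∈ Y i (s + 1), t (Function.update yb i v) = c₁ ∨
            t (Function.update yb i v) = c₁ + 1) ∧
          (CBrel (R i) (Y i s) (Y i (s + 1)) (fun v => t (Function.update ya i v) = c₀ + 1)
              (fun v => t (Function.update yb i v) = c₁ + 1) ∨
            CBrel (R i) (Y i s) (Y i (s + 1)) (fun v => t (Function.update yb i v) = c₁ + 1)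
              (fun v => t (Function.update ya i v) = c₀ + 1)) := by
      intro ya yb ha hb hsab hsba
      obtain ⟨y3, hy3, hE⟩ := compl s (by omega) ya yb ha hb
      have h3n : ∀ l, y3 l ∈ Y l n := fun l => mono l (s + 1) n (by omega) le_rfl (hy3 l)
      have h4 := four (s + 1) (by omega) ya yb y3 (upn ya ha) (upn yb hb) h3n hE
      refine hCB (V i) (R i) (hR i) (Y i s) (Y i (s + 1)) hAB hJ
        ![fun v => t (Function.update ya i v), fun v => t (Function.update yb i v),
          fun v => t (Function.update y3 i v)] ?_ ?_ h4 ?_ hsab hsba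
      · intro a ha' b hb' c hc' hRabc
        have m1 := mono i (s + 1) n (by omega) le_rfl
        exact prod ya yb y3 (upn ya ha) (upn yb hb) h3n hE a (m1 ha') b (m1 hb') c (m1 hc') hRabc
      · intro v hv
        obtain ⟨u1, hu1, u2, hu2, e1, e2⟩ := hsab
        obtain ⟨v1, hv1, v2, hv2, e3, e4⟩ := hsba
        -- the third point
        obtain ⟨u3, hu3, e5⟩ : ∃ u3 ∈ Y i s, t (Function.update ya i u3) ≠
            t (Function.update ya i u1) := by
          by_cases h : t (Function.update ya i v1) = t (Function.update ya i u1)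
          · exact ⟨v2, hv2, fun h' => e4 (h.trans h'.symm)⟩
          · exact ⟨v1, hv1, h⟩
        have hx4 : ∀ a, (![v, u1, u2, u3] : Fin 4 → V i) a ∈ Y i (s + 1) := by
          intro a
          fin_cases a
          · exact hv
          · exact hAB hu1
          · exact hAB hu2
          · exact hAB hu3
        obtain ⟨a, b, hab, h⟩ := h4 _ hx4
        have h0 := h 0
        have h1 := h 1
        simp only [Matrix.cons_val_zero, Matrix.cons_val_one] at h0 h1
        fin_cases a <;> fin_cases b <;>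
          first
          | exact absurd rfl hab
          | exact ⟨u1, hu1, fun j => (h j).symm⟩
          | exact ⟨u2, hu2, fun j => (h j).symm⟩
          | exact ⟨u3, hu3, fun j => (h j).symm⟩
          | exact ⟨u1, hu1, h⟩
          | exact ⟨u2, hu2, h⟩
          | exact ⟨u3, hu3, h⟩
          | exact absurd h1 e2
          | exact absurd h1.symm e2
          | exact absurd h0 e5
          | exact absurd h0.symm e5
          | exact absurd (h0.trans e1.symm) e5
          | exact absurd (h0.symm.trans e1.symm) e5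
      · intro j
        have hj' : j = 0 ∨ j = 1 ∨ j = 2 := by fin_cases j <;> simp
        rcases hj' with rfl | rfl | rfl
        · exact hns ya (up ya ha)
        · exact hns yb (up yb hb)
        · exact hns y3 hy3
    -- the strict version, for given two-valued descriptions
    have strict : ∀ (ya yb : ∀ l, V l), (∀ l, ya l ∈ Y l s) → (∀ l, yb l ∈ Y l s) →
        (∃ u ∈ Y i s, ∃ v ∈ Y i s, t (Function.update ya i u) = t (Function.update ya i v) ∧
          t (Function.update yb i u) ≠ t (Function.update yb i v)) →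
        (∃ u ∈ Y i s, ∃ v ∈ Y i s, t (Function.update yb i u) = t (Function.update yb i v) ∧
          t (Function.update ya i u) ≠ t (Function.update ya i v)) →
        ∀ ca cb : ZMod 3, (∀ v ∈ Y i (s + 1), t (Function.update ya i v) = ca ∨
            t (Function.update ya i v) = ca + 1) →
          (∀ v ∈ Y i (s + 1), t (Function.update yb i v) = cb ∨
            t (Function.update yb i v) = cb + 1) →
          Ch (R i) (Y i s) (Y i (s + 1)) (fun v => t (Function.update ya i v) = ca + 1)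
              (fun v => t (Function.update yb i v) = cb + 1) ∨
            Ch (R i) (Y i s) (Y i (s + 1)) (fun v => t (Function.update yb i v) = cb + 1)
              (fun v => t (Function.update ya i v) = ca + 1) := by
      intro ya yb ha hb hsab hsba ca cb hca hcb
      obtain ⟨c₀, c₁, k0, k1, hrel⟩ := pair ya yb ha hb hsab hsba
      obtain ⟨u1, hu1, u2, hu2, e1, e2⟩ := hsab
      obtain ⟨v1, hv1, v2, hv2, e3, e4⟩ := hsba
      have hc0 : c₀ = ca := two_uniq _ _ _ _ (k0 v1 (hAB hv1)) (k0 v2 (hAB hv2))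
        (hca v1 (hAB hv1)) (hca v2 (hAB hv2)) e4
      have hc1 : c₁ = cb := two_uniq _ _ _ _ (k1 u1 (hAB hu1)) (k1 u2 (hAB hu2))
        (hcb u1 (hAB hu1)) (hcb u2 (hAB hu2)) e2
      subst hc0
      subst hc1
      -- the sets differ on `A`
      have hdiff : ∃ p ∈ Y i s, ¬ (t (Function.update ya i p) = c₀ + 1 ↔
          t (Function.update yb i p) = c₁ + 1) := by
        by_contra hno
        push Not at hno
        have a1 := hno u1 hu1
        have a2 := hno u2 hu2
        apply e2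
        rw [e1] at a1
        have hb1 := k1 u1 (hAB hu1)
        have hb2 := k1 u2 (hAB hu2)
        rcases hb1 with hb1 | hb1 <;> rcases hb2 with hb2 | hb2
        · rw [hb1, hb2]
        · rw [a1.mp (a2.mpr hb2)]; exact hb2.symm
        · rw [a2.mp (a1.mpr hb1)]; exact hb1
        · rw [hb1, hb2]
      obtain ⟨p, hp, hpd⟩ := hdiff
      rcases hrel with hrel | hrel
      · left
        refine ⟨hrel, p, hp, ?_⟩
        have := hrel.1 p (hAB hp)
        simp only at this ⊢
        tauto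
      · right
        refine ⟨hrel, p, hp, ?_⟩
        have := hrel.1 p (hAB hp)
        simp only at this ⊢
        tauto
    -- choice of the three contexts
    obtain ⟨y1, hy1, hne1⟩ := hcon 0 1 (by decide)
    obtain ⟨a2, b2, hab2, he2⟩ := pigeon (fun a => t (Function.update y1 i (x a)))
    obtain ⟨y2, hy2, hne2⟩ := hcon a2 b2 hab2
    obtain ⟨y3, hy3, hE⟩ := compl s (by omega) y1 y2 hy1 hy2
    obtain ⟨a4, b4, hab4, he4⟩ := four s (by omega) y1 y2 y3 (upn y1 hy1) (upn y2 hy2)
      (fun l => mono l (s + 1) n (by omega) le_rfl (hy3 l)) hE x hx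
    obtain ⟨y4, hy4, hne4⟩ := hcon a4 b4 hab4
    have h41 := he4 0
    have h42 := he4 1
    simp only [Matrix.cons_val_zero, Matrix.cons_val_one] at h41 h42
    obtain ⟨m1, hm1⟩ := hns y1 (up y1 hy1)
    obtain ⟨m2, hm2⟩ := hns y2 (up y2 hy2)
    obtain ⟨m4, hm4⟩ := hns y4 (up y4 hy4)
    have s12 : ∃ u ∈ Y i s, ∃ v ∈ Y i s, t (Function.update y1 i u) = t (Function.update y1 i v) ∧
        t (Function.update y2 i u) ≠ t (Function.update y2 i v) :=
      ⟨x a2, hx a2, x b2, hx b2, he2, hne2⟩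
    have s14 : ∃ u ∈ Y i s, ∃ v ∈ Y i s, t (Function.update y1 i u) = t (Function.update y1 i v) ∧
        t (Function.update y4 i u) ≠ t (Function.update y4 i v) :=
      ⟨x a4, hx a4, x b4, hx b4, h41, hne4⟩
    have s24 : ∃ u ∈ Y i s, ∃ v ∈ Y i s, t (Function.update y2 i u) = t (Function.update y2 i v) ∧
        t (Function.update y4 i u) ≠ t (Function.update y4 i v) :=
      ⟨x a4, hx a4, x b4, hx b4, h42, hne4⟩
    have n1 : ∃ u ∈ Y i s, ∃ v ∈ Y i s, t (Function.update y1 i u) ≠ t (Function.update y1 i v) :=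
      ⟨x 0, hx 0, x 1, hx 1, hne1⟩
    have n2 : ∃ u ∈ Y i s, ∃ v ∈ Y i s, t (Function.update y2 i u) ≠ t (Function.update y2 i v) :=
      ⟨x a2, hx a2, x b2, hx b2, hne2⟩
    have s21 := sep_symm (A := Y i s) (fun v => t (Function.update y1 i v))
      (fun v => t (Function.update y2 i v)) m2 (fun v hv => hm2 v (hAB hv)) n1 s12
    have s41 := sep_symm (A := Y i s) (fun v => t (Function.update y1 i v))
      (fun v => t (Function.update y4 i v)) m4 (fun v hv => hm4 v (hAB hv)) n1 s14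
    have s42 := sep_symm (A := Y i s) (fun v => t (Function.update y2 i v))
      (fun v => t (Function.update y4 i v)) m4 (fun v hv => hm4 v (hAB hv)) n2 s24
    obtain ⟨c1, c2, k1, k2, -⟩ := pair y1 y2 hy1 hy2 s12 s21
    obtain ⟨c1', c4, k1', k4, -⟩ := pair y1 y4 hy1 hy4 s14 s41
    exact no_tour hJ (strict y1 y2 hy1 hy2 s12 s21 c1 c2 k1 k2)
      (strict y1 y4 hy1 hy4 s14 s41 c1 c4 k1 k4) (strict y2 y4 hy2 hy4 s24 s42 c2 c4 k2 k4)

end CodegDens
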