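import Pool.Agent.Lib.MP_81e58e_co.E3Defs

/-!
# Module E3Val: the value of `E_3[Q]` and the empty pattern (problem MP_81e58e_co)
-/

namespace CodegDens

open Finset Filter Topology

theorem patVal_E3 {C : Type} [Fintype C] (Q : Set (Multiset C)) (a : ℝ) (ha0 : 0 ≤ a)
    (hQ : PatVal 3 Q a) : PatVal 3 (E3Pat Q) ((1 + a) / 3) := by
  classical
  have _ := ha0
  obtain ⟨wt, h0, h1, h2⟩ := hQ
  refine ⟨fun p => wt p.2 / 3, fun p => div_nonneg (h0 p.2) (by norm_num), ?_, ?_⟩
  · rw [Fintype.sum_prod_type]
    simp only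
    rw [Finset.sum_const, Finset.card_univ, ZMod.card, ← Finset.sum_div, h1]
    norm_num
  · intro s hs
    have hs2 : s.card = 2 := by omega
    set σ : ZMod 3 := (s.map Prod.fst).sum with hσ
    rw [Fintype.sum_prod_type]
    set F : ZMod 3 → ℝ := fun u => ∑ c, (if (u, c) ::ₘ s ∈ E3Pat Q then wt (u, c).2 / 3 else 0)
      with hF
    have hF0 : ∀ u, 0 ≤ F u := by
      intro u
      refine Finset.sum_nonneg fun c _ => ?_
      split_ifs
      · exact div_nonneg (h0 c) (by norm_num)
      · exact le_rfl
    have hF1 : F (1 - σ) = 1 / 3 := by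
      simp only [hF]
      have : ∀ c : C, ((1 - σ, c) ::ₘ s) ∈ E3Pat Q := by
        intro c
        refine ⟨by rw [Multiset.card_cons, hs2], Or.inl ?_⟩
        rw [Multiset.map_cons, Multiset.sum_cons, ← hσ]
        show 1 - σ + σ = 1
        ring
      simp only [this, if_true]
      rw [← Finset.sum_div, h1]
    have hF2 : a / 3 ≤ F (-σ) := by
      have h3 := h2 (s.map Prod.snd) (by rw [Multiset.card_map]; exact hs)
      have h4 : F (-σ) = (∑ c, if c ::ₘ s.map Prod.snd ∈ Q then wt c else 0) / 3 := by
        simp only [hF]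
        rw [Finset.sum_div]
        refine Finset.sum_congr rfl fun c _ => ?_
        have h5 : ((-σ, c) ::ₘ s) ∈ E3Pat Q ↔ c ::ₘ s.map Prod.snd ∈ Q := by
          unfold E3Pat
          simp only [Set.mem_setOf_eq, Multiset.map_cons, Multiset.sum_cons, Multiset.card_cons,
            hs2, ← hσ, neg_add_cancel]
          simp
        by_cases h6 : c ::ₘ s.map Prod.snd ∈ Q
        · rw [if_pos h6, if_pos (h5.2 h6)]
        · rw [if_neg h6, if_neg (fun h => h6 (h5.1 h)), zero_div]
      rw [h4]
      exact div_le_div_of_nonneg_right h3 (by norm_num)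
    have hne : (1 - σ) ≠ -σ := by
      intro h
      have : (1 : ZMod 3) = 0 := by
        have h7 : (1 : ZMod 3) - σ + σ = -σ + σ := by rw [h]
        simpa using h7
      exact absurd this (by decide)
    have h3 : F (1 - σ) + F (-σ) ≤ ∑ u, F u := by
      rw [← Finset.sum_pair hne]
      exact Finset.sum_le_sum_of_subset_of_nonneg (Finset.subset_univ _) (fun u _ _ => hF0 u)
    have h4 : (1 + a) / 3 ≤ ∑ u, F u := by
      rw [hF1] at h3
      linarith
    exact h4

/-- irreducibility at `0` of the empty pattern -/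
theorem irrLab_empty : IrrLab 3 (∅ : Set (Multiset Unit)) 0 := by
  classical
  refine ⟨1, ?_⟩
  intro ι _ _ V E Y hY f hf
  have h1 : ∀ i, ∃ x ∈ Y i 0, ∃ v ∈ Y i 1, v ::ₘ ({x, x} : Multiset (V i)) ∈ E i := by
    intro i
    obtain ⟨x, hx⟩ := (hY i).nonempty
    obtain ⟨v, hv, hw⟩ := (hY i).rich 0 (by norm_num) Unit (fun _ => {x, x}) (fun _ => 1)
      (fun _ => ⟨by simp, fun y hy => by
        simp only [Multiset.insert_eq_cons, Multiset.mem_cons, Multiset.mem_singleton,
          or_self] at hy
        rw [hy]; exact hx⟩) (fun _ => zero_le_one) (by simp)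
    refine ⟨x, hx, v, hv, ?_⟩
    by_contra hcon
    simp only [zero_mul, Finset.sum_const, Finset.card_univ, Fintype.card_unit, one_smul,
      if_neg hcon, lt_self_iff_false] at hw
  choose x hx v hv he using h1
  have h2 := hf (v ::ₘ x ::ₘ {x}) (by
    rw [Multiset.card_cons, Multiset.card_cons, Multiset.card_singleton]) (by
    intro i
    have := he i
    rw [Multiset.map_cons, Multiset.map_cons, Multiset.map_singleton]
    exact this) (by
    intro y hy i
    simp only [Multiset.mem_cons, Multiset.mem_singleton, or_self] at hy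
    rcases hy with rfl | rfl
    · exact hv i
    · exact (hY i).mono 0 (by norm_num) (hx i))
  exact h2

end CodegDens
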