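import Pool.Agent.Lib.MP_81e58e_co.E3Defs

/-!
# Quiet windows and quotient patterns (problem MP_81e58e_co, `k = 3`)
-/

namespace CodegDens

open Finset Filter Topology

/-- The statement of `e3_quot`. -/
def E3QuotStmt : Prop :=
  ∀ (ι : Type) [Finite ι] [DecidableEq ι] (V : ι → Type)
    (R : ∀ i, V i → V i → V i → Prop), (∀ i, Sym3 (R i)) → ∀ (Y : ∀ i, ℕ → Set (V i))
    (n s : ℕ), s + 32 ≤ n → (∀ i r, r < n → Y i r ⊆ Y i (r + 1)) →
    (∀ i r, r < n → J3 (R i) (Y i r) (Y i (r + 1))) → ∀ t : (∀ i, V i) → ZMod 3,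
    (∀ x y z : ∀ i, V i, (∀ i, x i ∈ Y i n) → (∀ i, y i ∈ Y i n) → (∀ i, z i ∈ Y i n) →
      (∀ i, R i (x i) (y i) (z i)) → In01 (t x + t y + t z)) → ∀ (i : ι),
    ∀ x : Fin 4 → V i, (∀ a, x a ∈ Y i s) → ∃ a b, a ≠ b ∧
      ∀ y : ∀ l, V l, (∀ l, y l ∈ Y l s) →
        t (Function.update y i (x a)) = t (Function.update y i (x b))

/-- The statement of `e3_dictator`. -/
def E3DicStmt : Prop :=
  ∀ (ι : Type) [Finite ι] (C : ι → Type) (R : ∀ i, C i → C i → C i → Prop),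
    (∀ i, Fac (R i)) → ∀ t : (∀ i, C i) → ZMod 3,
    (∀ x y z : ∀ i, C i, (∀ i, R i (x i) (y i) (z i)) → In01 (t x + t y + t z)) →
    (∀ x y, t x = t y) ∨ ∃ i, ∀ x y : ∀ i, C i, x i = y i → t x = t y

namespace E3WinAux

/-- A quiet window of a monotone sequence of sets in a finite type. -/
theorem quiet {α : Type} [Fintype α] (P : ℕ → Set α) (N W m : ℕ) (hm : Fintype.card α ≤ m)
    (hmono : ∀ r, r < N → P r ⊆ P (r + 1)) (hN : (m + 1) * W ≤ N) :
    ∃ s, s + W ≤ N ∧ P s = P (s + W) := by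
  classical
  by_contra hcon
  push_neg at hcon
  have hmono' : ∀ r k, r + k ≤ N → P r ⊆ P (r + k) := by
    intro r k
    induction k with
    | zero => intro _; exact subset_rfl
    | succ k ih =>
      intro h
      exact (ih (by omega)).trans (hmono (r + k) (by omega))
  have key : ∀ k, k ≤ m + 1 → k ≤ (P (k * W)).ncard := by
    intro k
    induction k with
    | zero => intro _; exact Nat.zero_le _
    | succ k ih =>
      intro h
      have h1 := ih (by omega)
      have h2 : k * W + W ≤ N := by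
        have : (k + 1) * W ≤ (m + 1) * W := Nat.mul_le_mul_right _ h
        have e : (k + 1) * W = k * W + W := by ring
        omega
      have h3 : P (k * W) ⊂ P (k * W + W) :=
        (hmono' (k * W) W h2).ssubset_of_ne (hcon _ h2)
      have h4 := Set.ncard_lt_ncard h3 (Set.toFinite _)
      have e : (k + 1) * W = k * W + W := by ring
      rw [e]
      omega
  have h1 := key (m + 1) le_rfl
  have h2 : (P ((m + 1) * W)).ncard ≤ Fintype.card α := by
    rw [← Nat.card_eq_fintype_card, ← Set.ncard_univ]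
    exact Set.ncard_le_ncard (Set.subset_univ _) (Set.toFinite _)
  omega

/-- At most three classes. -/
theorem cls_exists {V : Type} (r : Setoid V) (A : Set V)
    (h : ∀ x : Fin 4 → V, (∀ a, x a ∈ A) → ∃ a b, a ≠ b ∧ r (x a) (x b)) :
    ∃ cls : V → Fin 3, ∀ x ∈ A, ∀ y ∈ A, cls x = cls y → r x y := by
  classical
  set T : Set (Quotient r) := (fun x => (Quotient.mk r x)) '' A with hT
  have hF : ∀ F : Finset (Quotient r), (F : Set (Quotient r)) ⊆ T → F.card ≤ 3 := by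
    intro F hFT
    by_contra hc
    push_neg at hc
    obtain ⟨F', hF', hcard⟩ := Finset.exists_subset_card_eq (s := F) (n := 4) (by omega)
    have e : Fin 4 ≃ F' := (finCongr hcard.symm).trans F'.equivFin.symm
    have hrep : ∀ a : Fin 4, ∃ x ∈ A, Quotient.mk r x = (e a : Quotient r) := fun a =>
      hFT (hF' (e a).2)
    choose x hxA hx using hrep
    obtain ⟨a, b, hab, hr⟩ := h x hxA
    apply hab
    apply e.injective
    apply Subtype.ext
    rw [← hx, ← hx]
    exact Quotient.sound hr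
  have hfin : T.Finite := by
    by_contra hinf
    obtain ⟨F, hFT, hcard⟩ := (show T.Infinite from hinf).exists_subset_card_eq 4
    have := hF F hFT
    omega
  haveI : Fintype T := hfin.fintype
  have hcard : Fintype.card T ≤ Fintype.card (Fin 3) := by
    rw [Fintype.card_fin, ← Set.toFinset_card]
    exact hF _ (by rw [Set.coe_toFinset])
  obtain ⟨e⟩ := Function.Embedding.nonempty_of_card_le hcard
  refine ⟨fun x => if hx : (Quotient.mk r x) ∈ T then e ⟨_, hx⟩ else 0, ?_⟩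
  intro x hx y hy hxy
  have hx' : (Quotient.mk r x) ∈ T := ⟨x, hx, rfl⟩
  have hy' : (Quotient.mk r y) ∈ T := ⟨y, hy, rfl⟩
  simp only [hx', hy', dif_pos] at hxy
  have h1 := e.injective hxy
  have h2 : Quotient.mk r x = Quotient.mk r y := congrArg Subtype.val h1
  exact Quotient.exact h2

/-- Changing the coordinates one at a time. -/
theorem t_inv {ι : Type} [Finite ι] [DecidableEq ι] {V : ι → Type} (B : ∀ i, Set (V i))
    (t : (∀ i, V i) → ZMod 3) (x x' : ∀ i, V i) (hx : ∀ i, x i ∈ B i) (hx' : ∀ i, x' i ∈ B i)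
    (h : ∀ i, ∀ y : ∀ l, V l, (∀ l, y l ∈ B l) →
      t (Function.update y i (x i)) = t (Function.update y i (x' i))) : t x = t x' := by
  classical
  haveI := Fintype.ofFinite ι
  have key : ∀ F : Finset ι, t (F.piecewise x x') = t x' := by
    intro F
    induction F using Finset.induction_on with
    | empty => rw [Finset.piecewise_empty]
    | insert i F hi ih =>
      have hp : ∀ l, (F.piecewise x x') l ∈ B l := by
        intro l
        by_cases hl : l ∈ F
        · rw [Finset.piecewise_eq_of_mem _ _ _ hl]; exact hx l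
        · rw [Finset.piecewise_eq_of_notMem _ _ _ hl]; exact hx' l
      have e1 : (insert i F).piecewise x x' = Function.update (F.piecewise x x') i (x i) :=
        Finset.piecewise_insert _ _ _ _
      have e2 : Function.update (F.piecewise x x') i (x' i) = F.piecewise x x' := by
        rw [Function.update_eq_self_iff, Finset.piecewise_eq_of_notMem _ _ _ hi]
      rw [e1, h i _ hp, e2, ih]
  have := key Finset.univ
  rwa [Finset.piecewise_univ] at this

end E3WinAux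

open E3WinAux in
theorem e3_window_of (hquot : E3QuotStmt) (hdic : E3DicStmt) (w : ℕ) : ∃ n : ℕ,
    ∀ (ι : Type) [Finite ι] (V : ι → Type)
    (R : ∀ i, V i → V i → V i → Prop) (_ : ∀ i, Sym3 (R i)) (Y : ∀ i, ℕ → Set (V i))
    (_ : ∀ i, (Y i 0).Nonempty) (_ : ∀ i s, s < n → Y i s ⊆ Y i (s + 1))
    (_ : ∀ i s, s < n → J3 (R i) (Y i s) (Y i (s + 1))) (t : (∀ i, V i) → ZMod 3)
    (_ : ∀ x y z : ∀ i, V i, (∀ i, x i ∈ Y i n) → (∀ i, y i ∈ Y i n) → (∀ i, z i ∈ Y i n) →
      (∀ i, R i (x i) (y i) (z i)) → In01 (t x + t y + t z)),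
    ∃ (s : ι → ℕ) (Z : ∀ i, ℕ → Set (V i)), (∀ i, s i + w ≤ n) ∧ (∀ i, (Z i 0).Nonempty) ∧
      (∀ i j, j ≤ w → Z i j ⊆ Y i (s i + j)) ∧ (∀ i j, j < w → Z i j ⊆ Z i (j + 1)) ∧
      (∀ i j, j < w → ∀ x ∈ Z i j, ∀ y ∈ Z i j, ∀ v ∈ Y i (s i + j + 1), R i x y v →
        v ∈ Z i (j + 1)) ∧
      ((∀ x y : ∀ i, V i, (∀ i, x i ∈ Z i w) → (∀ i, y i ∈ Z i w) → t x = t y) ∨
        ∃ i, (∀ x y : ∀ i, V i, (∀ l, x l ∈ Z l w) → (∀ l, y l ∈ Z l w) → x i = y i →
            t x = t y) ∧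
          ∀ x : ∀ i, V i, (∀ l, x l ∈ Z l w) → ∃ x' : ∀ i, V i, (∀ l, x' l ∈ Z l 0) ∧
            t x' = t x) := by
  classical
  refine ⟨31 * (w + 1) + 33, ?_⟩
  intro ι _ V R hR Y hne hmono hj t ht
  set N : ℕ := 31 * (w + 1) with hN
  have hmono' : ∀ i r k, r + k ≤ N + 33 → Y i r ⊆ Y i (r + k) := by
    intro i r k
    induction k with
    | zero => intro _; exact subset_rfl
    | succ k ih =>
      intro h
      exact (ih (by omega)).trans (hmono i (r + k) (by omega))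
  have hYN : ∀ i r, r ≤ N → Y i r ⊆ Y i N := by
    intro i r hr
    have h := hmono' i r (N - r) (by omega)
    rwa [Nat.add_sub_cancel' hr] at h
  have hYn : ∀ i, Y i N ⊆ Y i (N + 33) := fun i => hmono' i N 33 le_rfl
  -- the classes
  let rr : ∀ i, Setoid (V i) := fun i =>
    { r := fun x x' => ∀ y : ∀ l, V l, (∀ l, y l ∈ Y l N) →
        t (Function.update y i x) = t (Function.update y i x')
      iseqv := ⟨fun _ _ _ => rfl, fun h y hy => (h y hy).symm,
        fun h h' y hy => (h y hy).trans (h' y hy)⟩ }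
  have hcls : ∀ i, ∃ cls : V i → Fin 3, ∀ x ∈ Y i N, ∀ y ∈ Y i N, cls x = cls y →
      (rr i).r x y := by
    intro i
    refine cls_exists (rr i) (Y i N) ?_
    exact hquot ι V R hR Y (N + 33) N (by omega) hmono hj t ht i
  choose cls hcls using hcls
  have hinv : ∀ x x' : ∀ i, V i, (∀ i, x i ∈ Y i N) → (∀ i, x' i ∈ Y i N) →
      (∀ i, cls i (x i) = cls i (x' i)) → t x = t x' := by
    intro x x' hx hx' h
    exact t_inv (fun i => Y i N) t x x' hx hx' fun i => hcls i _ (hx i) _ (hx' i) (h i)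
  -- classes and edge types
  let P : ∀ i, ℕ → Set (Fin 3 ⊕ (Fin 3 × Fin 3 × Fin 3)) := fun i r =>
    {p | (∃ x ∈ Y i r, p = Sum.inl (cls i x)) ∨ ∃ x ∈ Y i r, ∃ y ∈ Y i r, ∃ z ∈ Y i r,
      R i x y z ∧ p = Sum.inr (cls i x, cls i y, cls i z)}
  have hPmono : ∀ i r, r < N → P i r ⊆ P i (r + 1) := by
    intro i r hr p hp
    have hY := hmono i r (by omega)
    rcases hp with ⟨x, hx, hp⟩ | ⟨x, hx, y, hy, z, hz, hxyz, hp⟩
    · exact Or.inl ⟨x, hY hx, hp⟩
    · exact Or.inr ⟨x, hY hx, y, hY hy, z, hY hz, hxyz, hp⟩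
  have hquiet : ∀ i, ∃ s, s + (w + 1) ≤ N ∧ P i s = P i (s + (w + 1)) := by
    intro i
    exact quiet (P i) N (w + 1) 30 (by simp) (hPmono i) (by omega)
  choose s hsN hsP using hquiet
  have hPle : ∀ i j, j ≤ w + 1 → P i (s i + j) ⊆ P i (s i) := by
    intro i j hj'
    have hm : ∀ r k, r + k ≤ N → P i r ⊆ P i (r + k) := by
      intro r k
      induction k with
      | zero => intro _; exact subset_rfl
      | succ k ih =>
        intro h
        exact (ih (by omega)).trans (hPmono i (r + k) (by omega))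
    have h1 := hm (s i + j) (w + 1 - j) (by have := hsN i; omega)
    have e : s i + j + (w + 1 - j) = s i + (w + 1) := by omega
    rw [e, ← hsP i] at h1
    exact h1
  let C : ∀ _ : ι, Set (Fin 3) := fun i => {a | Sum.inl a ∈ P i (s i)}
  let E : ∀ _ : ι, Fin 3 → Fin 3 → Fin 3 → Prop := fun i a b c =>
    Sum.inr (a, b, c) ∈ P i (s i)
  have hC : ∀ i a, a ∈ C i ↔ ∃ x ∈ Y i (s i), cls i x = a := by
    intro i a
    constructor
    · rintro (⟨x, hx, hp⟩ | ⟨x, _, y, _, z, _, _, hp⟩)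
      · exact ⟨x, hx, (Sum.inl_injective hp).symm⟩
      · exact absurd hp (by simp)
    · rintro ⟨x, hx, hp⟩
      exact Or.inl ⟨x, hx, by rw [hp]⟩
  have hE : ∀ i a b c, E i a b c ↔ ∃ x ∈ Y i (s i), ∃ y ∈ Y i (s i), ∃ z ∈ Y i (s i),
      R i x y z ∧ cls i x = a ∧ cls i y = b ∧ cls i z = c := by
    intro i a b c
    constructor
    · rintro (⟨x, _, hp⟩ | ⟨x, hx, y, hy, z, hz, hxyz, hp⟩)
      · exact absurd hp (by simp)
      · have h1 := Sum.inr_injective hp
        simp only [Prod.mk.injEq] at h1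
        exact ⟨x, hx, y, hy, z, hz, hxyz, h1.1.symm, h1.2.1.symm, h1.2.2.symm⟩
    · rintro ⟨x, hx, y, hy, z, hz, hxyz, h1, h2, h3⟩
      exact Or.inr ⟨x, hx, y, hy, z, hz, hxyz, by rw [h1, h2, h3]⟩
  have hE' : ∀ i j, j ≤ w + 1 → ∀ x ∈ Y i (s i + j), ∀ y ∈ Y i (s i + j),
      ∀ z ∈ Y i (s i + j), R i x y z → E i (cls i x) (cls i y) (cls i z) := by
    intro i j hj' x hx y hy z hz hxyz
    exact hPle i j hj' (Or.inr ⟨x, hx, y, hy, z, hz, hxyz, rfl⟩)
  -- minimal closed sets of classes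
  have hK : ∀ i, ∃ K : Set (Fin 3), Minimal (fun K => K.Nonempty ∧ K ⊆ C i ∧
      ∀ a ∈ K, ∀ b ∈ K, ∀ c, E i a b c → c ∈ K) K := by
    intro i
    apply exists_minimal_of_wellFoundedLT
    refine ⟨C i, ?_, subset_rfl, ?_⟩
    · obtain ⟨x, hx⟩ := hne i
      have h0 := hmono' i 0 (s i) (by have := hsN i; omega)
      rw [zero_add] at h0
      exact ⟨cls i x, (hC i _).2 ⟨x, h0 hx, rfl⟩⟩
    · intro a _ b _ c hc
      obtain ⟨x, hx, y, hy, z, hz, _, _, _, h3⟩ := (hE i a b c).1 hc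
      exact (hC i c).2 ⟨z, hz, h3⟩
  choose K hK using hK
  have hKne : ∀ i, (K i).Nonempty := fun i => (hK i).prop.1
  have hKC : ∀ i, K i ⊆ C i := fun i => (hK i).prop.2.1
  have hKcl : ∀ i, ∀ a ∈ K i, ∀ b ∈ K i, ∀ c, E i a b c → c ∈ K i := fun i =>
    (hK i).prop.2.2
  have hrep : ∀ i (a : K i), ∃ x ∈ Y i (s i), cls i x = a := fun i a =>
    (hC i a).1 (hKC i a.2)
  choose rep hrepY hrepc using hrep
  have hsw : ∀ i, s i + (w + 1) ≤ N := hsN
  have hFac : ∀ i, Fac (fun a b c : K i => E i a b c) := by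
    intro i
    refine ⟨⟨?_, ?_⟩, ?_, ?_⟩
    · intro a b c h
      obtain ⟨x, hx, y, hy, z, hz, hxyz, h1, h2, h3⟩ := (hE i _ _ _).1 h
      exact (hE i _ _ _).2 ⟨y, hy, x, hx, z, hz, (hR i).s12 _ _ _ hxyz, h2, h1, h3⟩
    · intro a b c h
      obtain ⟨x, hx, y, hy, z, hz, hxyz, h1, h2, h3⟩ := (hE i _ _ _).1 h
      exact (hE i _ _ _).2 ⟨x, hx, z, hz, y, hy, (hR i).s23 _ _ _ hxyz, h1, h3, h2⟩
    · intro a₁ _ b₁ _ a₂ _ b₂ _ a₃ _ b₃ _
      have hlt : s i < N + 33 := by have := hsw i; omega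
      obtain ⟨z, hz, h⟩ := hj i (s i) hlt _ (hrepY i a₁) _ (hrepY i b₁) _ (hrepY i a₂) _
        (hrepY i b₂) _ (hrepY i a₃) _ (hrepY i b₃)
      have hup : ∀ a : K i, rep i a ∈ Y i (s i + 1) := fun a => hmono i (s i) hlt (hrepY i a)
      have hE1 : ∀ a b : K i, R i (rep i a) (rep i b) z → E i a b (cls i z) := by
        intro a b hab
        have h1 := hE' i 1 (by omega) _ (hup a) _ (hup b) z hz hab
        rwa [hrepc, hrepc] at h1
      have hzK : ∀ a b : K i, R i (rep i a) (rep i b) z → cls i z ∈ K i := fun a b hab =>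
        hKcl i a a.2 b b.2 _ (hE1 a b hab)
      rcases h with ⟨h, h'⟩ | ⟨h, h'⟩ | ⟨h, h'⟩
      · exact ⟨⟨cls i z, hzK _ _ h⟩, Set.mem_univ _, Or.inl ⟨hE1 _ _ h, hE1 _ _ h'⟩⟩
      · exact ⟨⟨cls i z, hzK _ _ h⟩, Set.mem_univ _, Or.inr (Or.inl ⟨hE1 _ _ h, hE1 _ _ h'⟩)⟩
      · exact ⟨⟨cls i z, hzK _ _ h⟩, Set.mem_univ _, Or.inr (Or.inr ⟨hE1 _ _ h, hE1 _ _ h'⟩)⟩
    · intro K' hK' hcl'
      have h1 : (Subtype.val '' K' : Set (Fin 3)) ⊆ K i := by
        rintro _ ⟨a, _, rfl⟩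
        exact a.2
      have h2 := (hK i).le_of_le (y := Subtype.val '' K') ⟨hK'.image _, h1.trans (hKC i), ?_⟩ h1
      · rw [Set.eq_univ_iff_forall]
        intro a
        obtain ⟨b, hb, hba⟩ := h2 a.2
        have : b = a := Subtype.ext hba
        rwa [← this]
      · rintro _ ⟨a, ha, rfl⟩ _ ⟨b, hb, rfl⟩ c hc
        have hcK := hKcl i a a.2 b b.2 c hc
        exact ⟨⟨c, hcK⟩, hcl' a ha b hb ⟨c, hcK⟩ hc, rfl⟩
  have hsleN : ∀ i j, j ≤ w + 1 → Y i (s i + j) ⊆ Y i N := fun i j hj' =>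
    hYN i _ (by have := hsw i; omega)
  have hs0 : ∀ i, Y i (s i) ⊆ Y i N := fun i => hYN i _ (by have := hsw i; omega)
  have hdic' := hdic ι (fun i => K i) (fun i a b c => E i a b c) hFac
    (fun a => t fun i => rep i (a i)) (by
      intro a b c habc
      have h1 : ∀ i, ∃ x ∈ Y i (s i), ∃ y ∈ Y i (s i), ∃ z ∈ Y i (s i),
          R i x y z ∧ cls i x = a i ∧ cls i y = b i ∧ cls i z = c i := fun i =>
        (hE i _ _ _).1 (habc i)
      choose x hx y hy z hz hxyz hxa hyb hzc using h1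
      have h2 := ht x y z (fun i => hYn i (hs0 i (hx i))) (fun i => hYn i (hs0 i (hy i)))
        (fun i => hYn i (hs0 i (hz i))) hxyz
      rw [hinv x (fun i => rep i (a i)) (fun i => hs0 i (hx i)) (fun i => hs0 i (hrepY i _))
        (fun i => (hxa i).trans (hrepc i _).symm),
        hinv y (fun i => rep i (b i)) (fun i => hs0 i (hy i)) (fun i => hs0 i (hrepY i _))
        (fun i => (hyb i).trans (hrepc i _).symm),
        hinv z (fun i => rep i (c i)) (fun i => hs0 i (hz i)) (fun i => hs0 i (hrepY i _))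
        (fun i => (hzc i).trans (hrepc i _).symm)] at h2
      exact h2)
  let Z : ∀ i, ℕ → Set (V i) := fun i j => {x | x ∈ Y i (s i + j) ∧ cls i x ∈ K i}
  have hrept : ∀ (x : ∀ i, V i) (hx : ∀ i, x i ∈ Z i w),
      t x = t fun i => rep i ⟨cls i (x i), (hx i).2⟩ := by
    intro x hx
    exact hinv _ _ (fun i => hsleN i w (by omega) (hx i).1) (fun i => hs0 i (hrepY i _))
      (fun i => (hrepc i ⟨cls i (x i), (hx i).2⟩).symm)
  refine ⟨s, Z, fun i => by have := hsw i; omega, ?_, ?_, ?_, ?_, ?_⟩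
  · intro i
    obtain ⟨a, ha⟩ := hKne i
    refine ⟨rep i ⟨a, ha⟩, hrepY i _, ?_⟩
    change cls i (rep i ⟨a, ha⟩) ∈ K i
    rw [hrepc]
    exact ha
  · intro i j _ x hx
    exact hx.1
  · intro i j hj' x hx
    exact ⟨hmono i (s i + j) (by have := hsw i; omega) hx.1, hx.2⟩
  · intro i j hj' x hx y hy v hv hxyv
    have hm := hmono i (s i + j) (by have := hsw i; omega)
    exact ⟨hv, hKcl i _ hx.2 _ hy.2 _
      (hE' i (j + 1) (by omega) x (hm hx.1) y (hm hy.1) v hv hxyv)⟩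
  · rcases hdic' with h | ⟨i, h⟩
    · left
      intro x y hx hy
      rw [hrept x hx, hrept y hy]
      exact h _ _
    · right
      refine ⟨i, ?_, ?_⟩
      · intro x y hx hy hxy
        rw [hrept x hx, hrept y hy]
        refine h (fun i => ⟨cls i (x i), (hx i).2⟩) (fun i => ⟨cls i (y i), (hy i).2⟩) ?_
        exact Subtype.ext (congrArg (cls i) hxy)
      · intro x hx
        refine ⟨fun i => rep i ⟨cls i (x i), (hx i).2⟩, fun l => ⟨hrepY l _, ?_⟩,
          (hrept x hx).symm⟩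
        change cls l (rep l ⟨cls l (x l), (hx l).2⟩) ∈ K l
        rw [hrepc]
        exact (hx l).2

end CodegDens
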