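import Pool.Agent.Lib.MP_81e58e_co.S4Irr
import Pool.Agent.Lib.MP_81e58e_co.E3Irr
import Pool.Agent.Lib.MP_81e58e_co.E3Val

/-!
# All rationals for all uniformities: assembly (problem MP_81e58e_co)
-/

set_option autoImplicit false

namespace CodegDens

open Finset Filter Topology

/-- the recursion for `k = 3`, from the range `[0, 1/3)` -/
theorem three_half_of
    (hG : ∀ p q : ℕ, 3 * p < q → ∃ (C : Type) (_ : Fintype C)
      (P : Set (Multiset C)), PatVal 3 P ((p : ℝ) / q) ∧ IrrLab 3 P ((p : ℝ) / q)) :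
    ∀ p q : ℕ, 2 * p < q → ∃ (C : Type) (_ : Fintype C)
    (P : Set (Multiset C)), PatVal 3 P ((p : ℝ) / q) ∧ IrrLab 3 P ((p : ℝ) / q) := by
  intro p
  induction p using Nat.strong_induction_on with
  | _ p ih =>
    intro q h
    have hqR : (0 : ℝ) < q := by exact_mod_cast (show 0 < q by omega)
    by_cases h3 : 3 * p < q
    · exact hG p q h3
    · obtain ⟨C, hC, Q, hQ1, hQ2⟩ := ih (3 * p - q) (by omega) q (by omega)
      have h4 : ((3 * p - q : ℕ) : ℝ) = 3 * p - q := by
        rw [Nat.cast_sub (by omega)]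
        push_cast
        ring
      have h5 : (1 + ((3 * p - q : ℕ) : ℝ) / q) / 3 = (p : ℝ) / q := by
        rw [h4]
        field_simp
        ring
      have h6 : ((3 * p - q : ℕ) : ℝ) / q ≤ 1 / 2 := by
        rw [div_le_div_iff₀ hqR (by norm_num)]
        have : ((2 * (3 * p - q) : ℕ) : ℝ) ≤ q := by exact_mod_cast (by omega)
        push_cast at this
        linarith
      have h7 : (0 : ℝ) ≤ ((3 * p - q : ℕ) : ℝ) / q := by positivity
      refine ⟨ZMod 3 × C, inferInstance, E3Pat Q, ?_, ?_⟩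
      · rw [← h5]
        exact patVal_E3 Q _ h7 hQ1
      · rw [← h5]
        exact irrLab_E3 Q _ h7 h6 hQ2

/-- all rationals from the rationals of `[0, 1/2)` -/
theorem all_rationals_of_half {k : ℕ} (hk2 : 2 ≤ k)
    (hhalf : ∀ p q : ℕ, 2 * p < q → ∃ (C : Type) (_ : Fintype C)
      (P : Set (Multiset C)), PatVal k P ((p : ℝ) / q) ∧ IrrLab k P ((p : ℝ) / q)) :
    ∀ q : ℚ, 0 ≤ q → q < 1 →
    ∃ (m : ℕ) (F : KGraph k (Fin m)), F.edges.Nonempty ∧ HasCodegDensity F (q : ℝ) := by
  intro q hq0 hq1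
  have h := join_descent (Reach k) (reach_zero hk2)
    (fun a h0 h1 h => reach_join hk2 a h0 h1 h)
    (fun p q hp hpq => by
      obtain ⟨C, hC, P, hP1, hP2⟩ := hhalf p (p + q) (by omega)
      rw [Nat.cast_add] at hP1 hP2
      exact ⟨C, hC, P, hP1, irr_of_irrLab hk2 _ _ (by positivity) hP2⟩) q hq0 hq1
  exact reach_density hk2 (q : ℝ) (by exact_mod_cast hq0) (by exact_mod_cast hq1) h

/-- the final assembly -/
theorem all_rationals_of
    (hG : ∀ p q : ℕ, 3 * p < q → ∃ (C : Type) (_ : Fintype C)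
      (P : Set (Multiset C)), PatVal 3 P ((p : ℝ) / q) ∧ IrrLab 3 P ((p : ℝ) / q)) :
    ∀ k : ℕ, 3 ≤ k → ∀ q : ℚ, 0 ≤ q → q < 1 →
    ∃ (m : ℕ) (F : KGraph k (Fin m)), F.edges.Nonempty ∧ HasCodegDensity F (q : ℝ) := by
  intro k hk
  rcases Nat.lt_or_ge k 5 with h5 | h5
  · interval_cases k
    · exact all_rationals_of_half (by norm_num) (three_half_of hG)
    · exact all_rationals_four
  · exact all_rationals_of_five_le k h5

end CodegDens
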