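import Pool.Agent.Lib.MP_81e58e_co.G4Defs

/-!
# The step `x -> (1+x)/4` for `k = 3`: basic facts on generated sets (problem MP_81e58e_co)
-/

set_option autoImplicit false

namespace CodegDens

open Finset

theorem RichS.mono {T : Type} {R : T → T → T → Prop} {a b : ℝ} {A B A' B' : Set T}
    (h : RichS R a A B) (hab : b ≤ a) (hA : A' ⊆ A) (hB : B ⊆ B') : RichS R b A' B' := by
  intro J _ x y w hx hy hw hpos
  obtain ⟨z, hz, h1⟩ := h J x y w (fun j => hA (hx j)) (fun j => hA (hy j)) hw hpos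
  exact ⟨z, hB hz, lt_of_le_of_lt (mul_le_mul_of_nonneg_right hab hpos.le) h1⟩

/-- A single pair has a completion. -/
theorem RichS.comp {T : Type} {R : T → T → T → Prop} {a : ℝ} (ha : 0 ≤ a) {A B : Set T}
    (h : RichS R a A B) {x y : T} (hx : x ∈ A) (hy : y ∈ A) : ∃ z ∈ B, R x y z := by
  obtain ⟨z, hz, h1⟩ := h Unit (fun _ => x) (fun _ => y) (fun _ => 1) (fun _ => hx) (fun _ => hy)
    (fun _ => zero_le_one) (by simp)
  refine ⟨z, hz, ?_⟩
  by_contra hne
  rw [Finset.sum_congr rfl (fun _ _ => if_neg hne)] at h1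
  simp at h1
  linarith

/-- The completion given by a rich step is adjacent to one of the pairs. -/
theorem exists_adj_of_lt {J T : Type} [Fintype J] {R : T → T → T → Prop} {a : ℝ} (ha : 0 ≤ a)
    {x y : J → T} {w : J → ℝ} (hpos : 0 < ∑ j, w j) {z : T}
    (h : a * ∑ j, w j < ∑ j, (open Classical in if R (x j) (y j) z then w j else 0)) :
    ∃ j, R (x j) (y j) z := by
  by_contra hne
  push Not at hne
  rw [Finset.sum_congr rfl (fun j _ => if_neg (hne j))] at h
  simp at h
  have := mul_nonneg ha hpos.le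
  linarith

theorem gen3_le {V : Type} (R : V → V → V → Prop) (Y : ℕ → Set V) (s : ℕ) (v : V) {m n : ℕ}
    (h : m ≤ n) : gen3 R Y s v m ⊆ gen3 R Y s v n := by
  induction n, h using Nat.le_induction with
  | base => exact subset_rfl
  | succ n hn ih => exact fun x hx => Or.inl (ih hx)

theorem gen3_self {V : Type} (R : V → V → V → Prop) (Y : ℕ → Set V) (s : ℕ) (v : V) (n : ℕ) :
    v ∈ gen3 R Y s v n :=
  gen3_le R Y s v (Nat.zero_le n) rfl

theorem gen3_closed {V : Type} {R : V → V → V → Prop} {Y : ℕ → Set V} {s : ℕ} {v : V} {n : ℕ}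
    {p q z : V} (hp : p ∈ gen3 R Y s v n) (hq : q ∈ gen3 R Y s v n) (hz : z ∈ Y (s + n + 1))
    (h : R p q z) : z ∈ gen3 R Y s v (n + 1) :=
  Or.inr ⟨hz, p, hp, q, hq, h⟩

theorem gen3_gen3 {V : Type} {R : V → V → V → Prop} {Y : ℕ → Set V} {s : ℕ} {v : V} {m : ℕ}
    {v' : V} (h : v' ∈ gen3 R Y s v m) (n : ℕ) :
    gen3 R Y (s + m) v' n ⊆ gen3 R Y s v (m + n) := by
  induction n with
  | zero =>
    intro x hx
    have hx' : x = v' := hx
    rw [hx']
    exact h
  | succ n ih =>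
    intro x hx
    rcases hx with hx | ⟨hx, p, hp, q, hq, hR⟩
    · exact Or.inl (ih hx)
    · have hx' : x ∈ Y (s + (m + n) + 1) := by
        rw [show s + (m + n) + 1 = s + m + n + 1 by ring]
        exact hx
      exact gen3_closed (ih hp) (ih hq) hx' hR

theorem gen3_sub {V : Type} {R : V → V → V → Prop} {Y : ℕ → Set V} {L : ℕ}
    (hmono : ∀ t, t < L → Y t ⊆ Y (t + 1)) {s : ℕ} {v : V} (hv : v ∈ Y s) {n : ℕ}
    (h : s + n ≤ L) : gen3 R Y s v n ⊆ Y (s + n) := by
  induction n with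
  | zero =>
    intro x hx
    have hx' : x = v := hx
    rw [hx']
    exact hv
  | succ n ih =>
    intro x hx
    rcases hx with hx | ⟨hx, -⟩
    · exact hmono (s + n) (by omega) (ih (by omega) hx)
    · exact hx

theorem mono_le_of {V : Type} {L : ℕ} {Y : ℕ → Set V} (hmono : ∀ t, t < L → Y t ⊆ Y (t + 1))
    {s t : ℕ} (hst : s ≤ t) (ht : t ≤ L) : Y s ⊆ Y t := by
  induction t, hst using Nat.le_induction with
  | base => exact subset_rfl
  | succ t h ih => exact (ih (by omega)).trans (hmono t (by omega))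

theorem RChain.mono_le {V : Type} {R : V → V → V → Prop} {a : ℝ} {L : ℕ} {Y : ℕ → Set V}
    (h : RChain R a L Y) {s t : ℕ} (hst : s ≤ t) (ht : t ≤ L) : Y s ⊆ Y t :=
  mono_le_of h.mono hst ht

theorem GBlock.mono_le {W : Type} {S : W → W → W → Prop} {lam : W → ZMod 3} {L : ℕ}
    {Z : ℕ → Set W} (h : GBlock S lam L Z) {s t : ℕ} (hst : s ≤ t) (ht : t ≤ L) : Z s ⊆ Z t :=
  mono_le_of h.mono hst ht

theorem RChain.shift {V : Type} {R : V → V → V → Prop} {a b : ℝ} {L : ℕ} {Y : ℕ → Set V}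
    (h : RChain R a L Y) (hb : b ≤ a) (s n : ℕ) (hs : s + n ≤ L) :
    RChain R b n (fun t => Y (s + t)) where
  sym := h.sym
  nonempty := h.nonempty.mono (h.mono_le (by omega) (by omega))
  mono := fun t ht => h.mono (s + t) (by omega)
  rich := fun t ht => (h.rich (s + t) (by omega)).mono hb subset_rfl subset_rfl

theorem RChain.comp {V : Type} {R : V → V → V → Prop} {a : ℝ} (ha : 0 ≤ a) {L : ℕ}
    {Y : ℕ → Set V} (h : RChain R a L Y) {t : ℕ} (ht : t < L) {x y : V} (hx : x ∈ Y t)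
    (hy : y ∈ Y t) : ∃ z ∈ Y (t + 1), R x y z :=
  (h.rich t ht).comp ha hx hy

/-- The rich step inside the generated sets. -/
theorem RChain.gen_rich {V : Type} {R : V → V → V → Prop} {a : ℝ} (ha : 0 ≤ a) {L : ℕ}
    {Y : ℕ → Set V} (h : RChain R a L Y) {s t : ℕ} (hs : s + t < L) {v : V} (hv : v ∈ Y s) :
    RichS R a (gen3 R Y s v t) (gen3 R Y s v (t + 1)) := by
  intro J _ x y w hx hy hw hpos
  have hsub : gen3 R Y s v t ⊆ Y (s + t) := gen3_sub h.mono hv (by omega)
  obtain ⟨z, hz, h1⟩ := h.rich (s + t) hs J x y w (fun j => hsub (hx j)) (fun j => hsub (hy j))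
    hw hpos
  obtain ⟨j, hj⟩ := exists_adj_of_lt ha hpos h1
  exact ⟨z, gen3_closed (hx j) (hy j) hz hj, h1⟩

theorem RChain.gen {V : Type} {R : V → V → V → Prop} {a : ℝ} (ha : 0 ≤ a) {L : ℕ}
    {Y : ℕ → Set V} (h : RChain R a L Y) {s n : ℕ} (hs : s + n ≤ L) {v : V} (hv : v ∈ Y s) :
    RChain R a n (gen3 R Y s v) where
  sym := h.sym
  nonempty := ⟨v, rfl⟩
  mono := fun t _ => gen3_le R Y s v (Nat.le_succ t)
  rich := fun t ht => h.gen_rich ha (by omega) hv

/-- Four requests of weight one: two of them have a common completion. -/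
theorem RichS.two_of_four {T : Type} {R : T → T → T → Prop} {a : ℝ} (ha : 1 / 4 ≤ a)
    {A B : Set T} (h : RichS R a A B) (x y : Fin 4 → T) (hx : ∀ j, x j ∈ A)
    (hy : ∀ j, y j ∈ A) : ∃ z ∈ B, ∃ i j, i < j ∧ R (x i) (y i) z ∧ R (x j) (y j) z := by
  classical
  obtain ⟨z, hz, h1⟩ := h (Fin 4) x y (fun _ => 1) hx hy (fun _ => zero_le_one) (by simp)
  refine ⟨z, hz, ?_⟩
  by_contra hne
  push Not at hne
  have h2 : ∑ j, (if R (x j) (y j) z then (1 : ℝ) else 0) ≤ 1 := by
    rw [Finset.sum_boole]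
    have h3 : (univ.filter fun j => R (x j) (y j) z).card ≤ 1 := by
      rw [Finset.card_le_one]
      intro i hi j hj
      rw [Finset.mem_filter] at hi hj
      rcases lt_trichotomy i j with h | h | h
      · exact absurd hj.2 (hne i j h hi.2)
      · exact h
      · exact absurd hi.2 (hne j i h hj.2)
    exact_mod_cast h3
  have h4 : a * ∑ _j : Fin 4, (1 : ℝ) < ∑ j, (if R (x j) (y j) z then (1 : ℝ) else 0) := by
    convert h1
  simp only [Finset.sum_const, Finset.card_univ, Fintype.card_fin, nsmul_eq_mul] at h4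
  push_cast at h4
  linarith

theorem T4.s12 : ∀ {u v w : ZMod 4}, T4 u v w → T4 v u w := by decide

theorem T4.s23 : ∀ {u v w : ZMod 4}, T4 u v w → T4 u w v := by decide

end CodegDens
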