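import Pool.Agent.Lib.MP_81e58e_co.G4Defs

/-!
# The step `x -> (1+x)/4` for `k = 3`: graded blocks
-/

set_option autoImplicit false

namespace CodegDens

namespace G4BlockAux

theorem mono_le' {V : Type} {R : V → V → V → Prop} {a : ℝ} {L : ℕ} {Y : ℕ → Set V}
    (h : RChain R a L Y) {s t : ℕ} (hst : s ≤ t) (ht : t ≤ L) : Y s ⊆ Y t := by
  induction t with
  | zero =>
    obtain rfl : s = 0 := by omega
    exact subset_rfl
  | succ t ih =>
    rcases Nat.lt_or_ge s (t + 1) with h1 | h1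
    · exact (ih (by omega) (by omega)).trans (h.mono t (by omega))
    · obtain rfl : s = t + 1 := by omega
      exact subset_rfl

theorem chain_gen {V : Type} {R : V → V → V → Prop} {a : ℝ} (ha : 0 ≤ a) {L : ℕ}
    {Y : ℕ → Set V} (h : RChain R a L Y) {s n : ℕ} (hs : s + n ≤ L) {v : V} (hv : v ∈ Y s) :
    RChain R a n (gen3 R Y s v) := by
  have hsub : ∀ t, t ≤ n → gen3 R Y s v t ⊆ Y (s + t) := by
    intro t
    induction t with
    | zero =>
      intro _ x hx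
      rw [Set.mem_singleton_iff.1 hx]
      exact hv
    | succ t ih =>
      intro ht x hx
      rcases hx with hx | hx
      · exact mono_le' h (by omega) (by omega) (ih (by omega) hx)
      · exact hx.1
  refine ⟨h.sym, ⟨v, rfl⟩, fun t _ => Set.subset_union_left, ?_⟩
  intro t ht J _ x y w hx hy hw hpos
  obtain ⟨z, hz, h1⟩ := h.rich (s + t) (by omega) J x y w (fun j => hsub t (by omega) (hx j))
    (fun j => hsub t (by omega) (hy j)) hw hpos
  refine ⟨z, Or.inr ⟨hz, ?_⟩, h1⟩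
  by_contra hcon
  have h2 : ∀ j, ¬ R (x j) (y j) z := fun j hj => hcon ⟨x j, hx j, y j, hy j, hj⟩
  simp only [if_neg (h2 _), Finset.sum_const_zero] at h1
  have : 0 ≤ a * ∑ j, w j := mul_nonneg ha hpos.le
  linarith

end G4BlockAux

theorem GBlock.mono_le {W : Type} {S : W → W → W → Prop} {lam : W → ZMod 3} {L : ℕ}
    {Z : ℕ → Set W} (h : GBlock S lam L Z) {s t : ℕ} (hst : s ≤ t) (ht : t ≤ L) : Z s ⊆ Z t := by
  induction t with
  | zero =>
    obtain rfl : s = 0 := by omega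
    exact subset_rfl
  | succ t ih =>
    rcases Nat.lt_or_ge s (t + 1) with h1 | h1
    · exact (ih (by omega) (by omega)).trans (h.mono t (by omega))
    · obtain rfl : s = t + 1 := by omega
      exact subset_rfl

namespace G4BlockAux

theorem z3_split : ∀ a b : ZMod 3, a + a + b = 1 → b = a + 1 := by decide

theorem z3_three : ∀ s a b : ZMod 3, b = a + 1 → s = a + a ∨ s = a + b ∨ s = b + b := by decide

theorem z3_eq : ∀ a b z : ZMod 3, a + z = 1 → b + z = 1 → a = b := by decide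

theorem z3_ne1 : ∀ s : ZMod 3, s + 1 ≠ s := by decide

theorem z3_ne2 : ∀ s : ZMod 3, s + 2 ≠ s := by decide

theorem z3_ne12 : ∀ s : ZMod 3, s + 1 ≠ s + 2 := by decide

theorem z3_c : ∀ c : ZMod 3, c + c + c = 0 := by decide

end G4BlockAux

open G4BlockAux in
/-- A graded chain with `a ≥ 1/4`: two pairs with the same sum have a common completion. -/
theorem RChain.gmeet {V : Type} {R : V → V → V → Prop} {a : ℝ} (ha : 1 / 4 ≤ a) {e : ℕ}
    {G : ℕ → Set V} (h : RChain R a e G) (hG : ∀ s t, s ≤ t → t ≤ e → G s ⊆ G t) {v : V}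
    (hv : G 0 = {v}) (lam : V → ZMod 3) (hl : ∀ x ∈ G e, ∀ y ∈ G e, ∀ z ∈ G e, R x y z →
      lam x + lam y + lam z = 1) {t : ℕ} (ht : t < e) {x y x' y' : V} (hx : x ∈ G t)
    (hy : y ∈ G t) (hx' : x' ∈ G t) (hy' : y' ∈ G t) (hs : lam x + lam y = lam x' + lam y') :
    ∃ z ∈ G (t + 1), R x y z ∧ R x' y' z := by
  classical
  have hcomp : ∀ t, t < e → ∀ x ∈ G t, ∀ y ∈ G t, ∃ z ∈ G (t + 1), R x y z := by
    intro t ht x hx y hy
    obtain ⟨z, hz, h1⟩ := h.rich t ht Unit (fun _ => x) (fun _ => y) (fun _ => 1)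
      (fun _ => hx) (fun _ => hy) (fun _ => zero_le_one) (by simp)
    refine ⟨z, hz, ?_⟩
    by_contra hcon
    simp only [Finset.univ_unique, Finset.sum_singleton, if_neg hcon] at h1
    linarith
  rcases Nat.eq_zero_or_pos t with rfl | ht0
  · rw [hv, Set.mem_singleton_iff] at hx hy hx' hy'
    subst hx hy hx' hy'
    obtain ⟨z, hz, h1⟩ := hcomp 0 ht _ (by rw [hv]; rfl) _ (by rw [hv]; rfl)
    exact ⟨z, hz, h1, h1⟩
  have hv0 : v ∈ G 0 := by rw [hv]; rfl
  obtain ⟨v1, hv1, hr1⟩ := hcomp 0 (by omega) v hv0 v hv0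
  have hvt : v ∈ G t := hG 0 t (by omega) (by omega) hv0
  have hv1t : v1 ∈ G t := hG 1 t (by omega) (by omega) hv1
  have hte : ∀ {u}, u ∈ G t → u ∈ G e := fun hu => hG t e (by omega) le_rfl hu
  have hl1 : lam v1 = lam v + 1 :=
    z3_split _ _ (hl v (hte hvt) v (hte hvt) v1 (hte hv1t) hr1)
  have hpr : ∀ s : ZMod 3, ∃ p q : V, p ∈ G t ∧ q ∈ G t ∧ lam p + lam q = s := by
    intro s
    rcases z3_three s (lam v) (lam v1) hl1 with h1 | h1 | h1
    · exact ⟨v, v, hvt, hvt, h1.symm⟩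
    · exact ⟨v, v1, hvt, hv1t, h1.symm⟩
    · exact ⟨v1, v1, hv1t, hv1t, h1.symm⟩
  obtain ⟨p1, q1, hp1, hq1, hs1⟩ := hpr (lam x + lam y + 1)
  obtain ⟨p2, q2, hp2, hq2, hs2⟩ := hpr (lam x + lam y + 2)
  obtain ⟨z, hz, h1⟩ := h.rich t ht (Fin 4) ![x, x', p1, p2] ![y, y', q1, q2] (fun _ => 1)
    (by intro j; fin_cases j <;> simp [hx, hx', hp1, hp2])
    (by intro j; fin_cases j <;> simp [hy, hy', hq1, hq2])
    (fun _ => zero_le_one) (by simp)
  refine ⟨z, hz, ?_⟩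
  have hze : z ∈ G e := hG (t + 1) e (by omega) le_rfl hz
  have k0 : R x y z → lam x + lam y + lam z = 1 := hl x (hte hx) y (hte hy) z hze
  have k0' : R x' y' z → lam x' + lam y' + lam z = 1 := hl x' (hte hx') y' (hte hy') z hze
  have k1 : R p1 q1 z → lam p1 + lam q1 + lam z = 1 := hl p1 (hte hp1) q1 (hte hq1) z hze
  have k2 : R p2 q2 z → lam p2 + lam q2 + lam z = 1 := hl p2 (hte hp2) q2 (hte hq2) z hze
  rw [hs1] at k1
  rw [hs2] at k2
  rw [← hs] at k0'
  simp only [Fin.sum_univ_four, Finset.sum_const, Finset.card_univ, Fintype.card_fin,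
    Matrix.cons_val_zero, Matrix.cons_val_one, Matrix.cons_val] at h1
  by_cases c0 : R x y z
  · have e0 := k0 c0
    by_cases c0' : R x' y' z
    · exact ⟨c0, c0'⟩
    · exfalso
      have n1 : ¬ R p1 q1 z := fun hc => z3_ne1 _ (z3_eq _ _ _ (k1 hc) e0)
      have n2 : ¬ R p2 q2 z := fun hc => z3_ne2 _ (z3_eq _ _ _ (k2 hc) e0)
      rw [if_pos c0, if_neg c0', if_neg n1, if_neg n2] at h1
      norm_num at h1
      linarith
  · exfalso
    by_cases c0' : R x' y' z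
    · have e0 := k0' c0'
      have n1 : ¬ R p1 q1 z := fun hc => z3_ne1 _ (z3_eq _ _ _ (k1 hc) e0)
      have n2 : ¬ R p2 q2 z := fun hc => z3_ne2 _ (z3_eq _ _ _ (k2 hc) e0)
      rw [if_neg c0, if_pos c0', if_neg n1, if_neg n2] at h1
      norm_num at h1
      linarith
    · by_cases c1 : R p1 q1 z
      · have n2 : ¬ R p2 q2 z := fun hc => z3_ne12 _ (z3_eq _ _ _ (k1 c1) (k2 hc))
        rw [if_neg c0, if_neg c0', if_pos c1, if_neg n2] at h1
        norm_num at h1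
        linarith
      · rw [if_neg c0, if_neg c0', if_neg c1] at h1
        by_cases c2 : R p2 q2 z
        · rw [if_pos c2] at h1
          norm_num at h1
          linarith
        · rw [if_neg c2] at h1
          norm_num at h1
          linarith

open G4BlockAux in
theorem gblock_gen {V : Type} {R : V → V → V → Prop} {a : ℝ} (ha : 1 / 4 ≤ a) {L : ℕ}
    {Y : ℕ → Set V} (h : RChain R a L Y) {s e : ℕ} (hs : s + e ≤ L) {v : V} (hv : v ∈ Y s)
    (lam : V → ZMod 3) (hl : ∀ x ∈ gen3 R Y s v e, ∀ y ∈ gen3 R Y s v e,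
      ∀ z ∈ gen3 R Y s v e, R x y z → lam x + lam y + lam z = 1) (c : ZMod 3) :
    GBlock R (fun x => lam x + c) e (gen3 R Y s v) := by
  have hg : RChain R a e (gen3 R Y s v) := chain_gen (by linarith) h hs hv
  have hmono : ∀ m n, m ≤ n → n ≤ e → gen3 R Y s v m ⊆ gen3 R Y s v n := by
    intro m n hmn _
    induction n with
    | zero =>
      obtain rfl : m = 0 := by omega
      exact subset_rfl
    | succ n ih =>
      rcases Nat.lt_or_ge m (n + 1) with h1 | h1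
      · exact (ih (by omega) (by omega)).trans Set.subset_union_left
      · obtain rfl : m = n + 1 := by omega
        exact subset_rfl
  refine ⟨hg.sym, hg.nonempty, hg.mono, ?_, ?_⟩
  · intro x hx y hy z hz hr
    have h1 := hl x hx y hy z hz hr
    have h2 := z3_c c
    calc lam x + c + (lam y + c) + (lam z + c) = (lam x + lam y + lam z) + (c + c + c) := by ring
      _ = 1 := by rw [h1, h2, add_zero]
  · intro t ht x hx y hy x' hx' y' hy' hxy
    refine hg.gmeet ha hmono (v := v) rfl lam hl ht hx hy hx' hy' ?_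
    have h1 : lam x + lam y + (c + c) = lam x' + lam y' + (c + c) := by
      calc lam x + lam y + (c + c) = lam x + c + (lam y + c) := by ring
        _ = lam x' + c + (lam y' + c) := hxy
        _ = _ := by ring
    exact add_right_cancel h1

theorem gblock_prod {ι : Type} {V : ι → Type} {R : ∀ i, V i → V i → V i → Prop}
    {lam : ∀ i, V i → ZMod 3} {e : ℕ} {D : ∀ i, ℕ → Set (V i)}
    (h : ∀ i, GBlock (R i) (lam i) e (D i)) {W : Type} {S : W → W → W → Prop}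
    {mu : W → ZMod 3} {Z : ℕ → Set W} (hW : GBlock S mu e Z)
    (hne : ∃ w ∈ Z 0, ∃ x : ∀ i, V i, ∀ i, x i ∈ D i 0 ∧ lam i (x i) = mu w) :
    GBlock (fun p q r : W × ∀ i, V i => S p.1 q.1 r.1 ∧ ∀ i, R i (p.2 i) (q.2 i) (r.2 i))
      (fun p => mu p.1) e
      (fun t => {p | p.1 ∈ Z t ∧ ∀ i, p.2 i ∈ D i t ∧ lam i (p.2 i) = mu p.1}) := by
  refine ⟨⟨?_, ?_⟩, ?_, ?_, ?_, ?_⟩
  · intro p q r hpq
    exact ⟨hW.sym.s12 _ _ _ hpq.1, fun i => (h i).sym.s12 _ _ _ (hpq.2 i)⟩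
  · intro p q r hpq
    exact ⟨hW.sym.s23 _ _ _ hpq.1, fun i => (h i).sym.s23 _ _ _ (hpq.2 i)⟩
  · obtain ⟨w, hw, x, hx⟩ := hne
    exact ⟨(w, x), hw, hx⟩
  · intro t ht p hp
    exact ⟨hW.mono t ht hp.1, fun i => ⟨(h i).mono t ht (hp.2 i).1, (hp.2 i).2⟩⟩
  · intro p hp q hq r hr hpq
    exact hW.sum _ hp.1 _ hq.1 _ hr.1 hpq.1
  · intro t ht p hp q hq p' hp' q' hq' hs
    obtain ⟨z, hz, hz1, hz2⟩ := hW.meet t ht _ hp.1 _ hq.1 _ hp'.1 _ hq'.1 hs
    have hi : ∀ i, ∃ zi ∈ D i (t + 1), R i (p.2 i) (q.2 i) zi ∧ R i (p'.2 i) (q'.2 i) zi := by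
      intro i
      refine (h i).meet t ht _ (hp.2 i).1 _ (hq.2 i).1 _ (hp'.2 i).1 _ (hq'.2 i).1 ?_
      rw [(hp.2 i).2, (hq.2 i).2, (hp'.2 i).2, (hq'.2 i).2]
      exact hs
    choose y hy hy1 hy2 using hi
    refine ⟨(z, y), ⟨hz, fun i => ⟨hy i, ?_⟩⟩, ⟨hz1, hy1⟩, ⟨hz2, hy2⟩⟩
    have h1 := hW.sum _ (hW.mono_le (by omega) le_rfl hp.1) _ (hW.mono_le (by omega) le_rfl hq.1)
      _ (hW.mono_le (by omega) le_rfl hz) hz1
    have h2 := (h i).sum _ ((h i).mono_le (by omega) le_rfl (hp.2 i).1) _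
      ((h i).mono_le (by omega) le_rfl (hq.2 i).1) _ ((h i).mono_le (by omega) le_rfl (hy i))
      (hy1 i)
    rw [(hp.2 i).2, (hq.2 i).2, ← h1] at h2
    exact add_left_cancel h2

namespace G4BlockAux

theorem f1 : ∀ a b c : ZMod 4, T4 a a c → T4 b b c → b = a ∨ b = a + 1 ∨ a = b + 1 := by decide

theorem f2 : ∀ a z : ZMod 4, T4 a a z → T4 a (a + 1) z → z = a := by decide

theorem f3 : ∀ a z : ZMod 4, T4 (a + 1) (a + 1) z → T4 a (a + 1) z → z = a + 2 := by decide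

theorem f4 : ∀ a : ZMod 4, ¬ (a + 2 = a ∨ a + 2 = a + 1 ∨ a = a + 2 + 1) := by decide

theorem f5 : ∀ a b c d : ZMod 4, T4 a a b → T4 b b c → T4 c c d → d = a → b = a ∧ c = a := by
  decide

theorem g5 : ∀ a b c y : ZMod 3, a + a + b = 1 → b + b + c = 1 → y = a ∨ y = b ∨ y = c := by
  decide

theorem g6 : ∀ a b c d : ZMod 3, a + a + b = 1 → b + b + c = 1 → c + c + d = 1 → d = a := by
  decide

end G4BlockAux

open G4BlockAux in
theorem gblock_const {W : Type} {S : W → W → W → Prop} {lam : W → ZMod 3} {L : ℕ}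
    {Z : ℕ → Set W} (h : GBlock S lam L Z) (τ : W → ZMod 4)
    (hτ : ∀ x ∈ Z L, ∀ y ∈ Z L, ∀ z ∈ Z L, S x y z → T4 (τ x) (τ y) (τ z)) {n : ℕ}
    (hn : n + 5 ≤ L) : ∀ x ∈ Z n, ∀ y ∈ Z n, τ x = τ y := by
  have up : ∀ {t : ℕ} {x : W}, t ≤ L → x ∈ Z t → x ∈ Z L := fun ht hx => h.mono_le ht le_rfl hx
  -- the same grade: the values differ by at most one
  have c1 : ∀ t, t + 1 ≤ L → ∀ x ∈ Z t, ∀ x' ∈ Z t, lam x = lam x' →
      τ x' = τ x ∨ τ x' = τ x + 1 ∨ τ x = τ x' + 1 := by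
    intro t ht x hx x' hx' hl
    obtain ⟨z, hz, h1, h2⟩ := h.meet t (by omega) x hx x hx x' hx' x' hx' (by rw [hl])
    exact f1 _ _ _ (hτ _ (up (by omega) hx) _ (up (by omega) hx) _ (up ht hz) h1)
      (hτ _ (up (by omega) hx') _ (up (by omega) hx') _ (up ht hz) h2)
  -- the same grade: a difference of one is impossible
  have c2 : ∀ t, t + 2 ≤ L → ∀ x ∈ Z t, ∀ x' ∈ Z t, lam x = lam x' → τ x' ≠ τ x + 1 := by
    intro t ht x hx x' hx' hl hc
    obtain ⟨z, hz, h1, h2⟩ := h.meet t (by omega) x hx x hx x hx x' hx' (by rw [hl])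
    obtain ⟨z', hz', h1', h2'⟩ := h.meet t (by omega) x' hx' x' hx' x hx x' hx' (by rw [hl])
    have k1 := hτ _ (up (by omega) hx) _ (up (by omega) hx) _ (up (by omega) hz) h1
    have k2 := hτ _ (up (by omega) hx) _ (up (by omega) hx') _ (up (by omega) hz) h2
    have k1' := hτ _ (up (by omega) hx') _ (up (by omega) hx') _ (up (by omega) hz') h1'
    have k2' := hτ _ (up (by omega) hx) _ (up (by omega) hx') _ (up (by omega) hz') h2'
    rw [hc] at k2 k1' k2'
    have e1 := f2 _ _ k1 k2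
    have e2 := f3 _ _ k1' k2'
    have g1 := h.sum _ (up (by omega) hx) _ (up (by omega) hx') _ (up (by omega) hz) h2
    have g2 := h.sum _ (up (by omega) hx) _ (up (by omega) hx') _ (up (by omega) hz') h2'
    have g3 : lam z = lam z' := add_left_cancel (g1.trans g2.symm)
    have := c1 (t + 1) (by omega) z hz z' hz' g3
    rw [e1, e2] at this
    exact f4 _ this
  have c3 : ∀ t, t + 2 ≤ L → ∀ x ∈ Z t, ∀ x' ∈ Z t, lam x = lam x' → τ x' = τ x := by
    intro t ht x hx x' hx' hl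
    rcases c1 t (by omega) x hx x' hx' hl with h1 | h1 | h1
    · exact h1
    · exact absurd h1 (c2 t ht x hx x' hx' hl)
    · exact absurd h1 (c2 t ht x' hx' x hx hl.symm)
  intro x hx y hy
  obtain ⟨x1, hx1, r1, -⟩ := h.meet n (by omega) x hx x hx x hx x hx rfl
  obtain ⟨x2, hx2, r2, -⟩ := h.meet (n + 1) (by omega) x1 hx1 x1 hx1 x1 hx1 x1 hx1 rfl
  obtain ⟨x3, hx3, r3, -⟩ := h.meet (n + 1 + 1) (by omega) x2 hx2 x2 hx2 x2 hx2 x2 hx2 rfl
  have uL : ∀ {u : W}, u ∈ Z n → u ∈ Z L := fun hu => up (by omega) hu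
  have m1 := h.sum _ (uL hx) _ (uL hx) _ (up (by omega) hx1) r1
  have m2 := h.sum _ (up (by omega) hx1) _ (up (by omega) hx1) _ (up (by omega) hx2) r2
  have m3 := h.sum _ (up (by omega) hx2) _ (up (by omega) hx2) _ (up (by omega) hx3) r3
  have t1 := hτ _ (uL hx) _ (uL hx) _ (up (by omega) hx1) r1
  have t2 := hτ _ (up (by omega) hx1) _ (up (by omega) hx1) _ (up (by omega) hx2) r2
  have t3 := hτ _ (up (by omega) hx2) _ (up (by omega) hx2) _ (up (by omega) hx3) r3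
  have u3 : ∀ {u : W} {j : ℕ}, j ≤ n + 3 → u ∈ Z j → u ∈ Z (n + 3) := fun hj hu =>
    h.mono_le hj (by omega) hu
  have e3 : τ x3 = τ x := c3 (n + 3) (by omega) x (u3 (by omega) hx) x3 (u3 (by omega) hx3)
    (g6 _ _ _ _ m1 m2 m3).symm
  obtain ⟨e1, e2⟩ := f5 _ _ _ _ t1 t2 t3 e3
  rcases g5 _ _ _ (lam y) m1 m2 with g | g | g
  · exact c3 (n + 3) (by omega) y (u3 (by omega) hy) x (u3 (by omega) hx) g
  · rw [← e1]
    exact c3 (n + 3) (by omega) y (u3 (by omega) hy) x1 (u3 (by omega) hx1) g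
  · rw [← e2]
    exact c3 (n + 3) (by omega) y (u3 (by omega) hy) x2 (u3 (by omega) hx2) g

end CodegDens
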