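import Pool.Agent.Lib.MP_81e58e_co.LabDefs

/-!
# Gap weights (problem MP_81e58e_co, module LGap)
-/

namespace CodegDens

open Finset

private theorem gap_ex {q : ℕ} [NeZero q] (U : Finset (ZMod q)) (hU : U.Nonempty) (u : ZMod q) :
    ∃ d : ℕ, 1 ≤ d ∧ u + (d : ZMod q) ∈ U := by
  obtain ⟨v, hv⟩ := hU
  refine ⟨(v - u).val + q, ?_, ?_⟩
  · have := NeZero.pos q
    omega
  · have : u + (((v - u).val + q : ℕ) : ZMod q) = v := by
      push_cast
      rw [ZMod.natCast_zmod_val, ZMod.natCast_self]
      ring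
    rw [this]
    exact hv

private theorem gap_back {q : ℕ} [NeZero q] (U : Finset (ZMod q)) (hU : U.Nonempty)
    (z : ZMod q) : ∃ d : ℕ, z - (d : ZMod q) ∈ U := by
  obtain ⟨v, hv⟩ := hU
  refine ⟨(z - v).val, ?_⟩
  rw [ZMod.natCast_zmod_val]
  simpa using hv

/-- Gap weights: for a nonempty set `U` of residues there are weights of total `q` such that
for every `z ∈ U` the elements `u` with `z - u ∈ {1, ..., p}` have total weight at most `p`. -/
theorem gap_weights {q p : ℕ} [NeZero q] (hpq : p < q) (U : Finset (ZMod q)) (hU : U.Nonempty) :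
    ∃ w : ZMod q → ℕ, ∑ u ∈ U, w u = q ∧
      ∀ z ∈ U, ∑ u ∈ U, (open Classical in if z - u ∈ Spos q p then w u else 0) ≤ p := by
  classical
  have _ := hpq
  set w : ZMod q → ℕ := fun u => Nat.find (gap_ex U hU u) with hw
  have w1 : ∀ u, 1 ≤ w u := fun u => (Nat.find_spec (gap_ex U hU u)).1
  have w2 : ∀ u, u + (w u : ZMod q) ∈ U := fun u => (Nat.find_spec (gap_ex U hU u)).2
  have w3 : ∀ u (d : ℕ), 1 ≤ d → u + (d : ZMod q) ∈ U → w u ≤ d :=
    fun u d h1 h2 => Nat.find_min' (gap_ex U hU u) ⟨h1, h2⟩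
  have inj0 : ∀ u ∈ U, ∀ u' : ZMod q, ∀ j j' : ℕ, j ≤ j' → j' < w u' →
      u + (j : ZMod q) = u' + (j' : ZMod q) → u = u' ∧ j = j' := by
    intro u hu u' j j' hj hj' h
    have h1 : u = u' + ((j' - j : ℕ) : ZMod q) := by
      rw [Nat.cast_sub hj]
      linear_combination h
    have h2 : j' - j = 0 := by
      by_contra hne
      have := w3 u' (j' - j) (by omega) (h1 ▸ hu)
      omega
    rw [h2, Nat.cast_zero, add_zero] at h1
    exact ⟨h1, by omega⟩
  have card_arc : ∀ U' ⊆ U, ((U'.sigma fun u => Finset.range (w u)).image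
      fun x : (_ : ZMod q) × ℕ => x.1 + (x.2 : ZMod q)).card = ∑ u ∈ U', w u := by
    intro U' hU'
    rw [Finset.card_image_of_injOn, Finset.card_sigma]
    · simp
    · rintro ⟨u, j⟩ hx ⟨u', j'⟩ hx' h
      rw [Finset.mem_coe, Finset.mem_sigma, Finset.mem_range] at hx hx'
      simp only at hx hx' h
      rcases le_total j j' with hj | hj
      · obtain ⟨e1, e2⟩ := inj0 u (hU' hx.1) u' j j' hj hx'.2 h
        rw [e1, e2]
      · obtain ⟨e1, e2⟩ := inj0 u' (hU' hx'.1) u j' j hj hx.2 h.symm
        rw [e1, e2]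
  refine ⟨w, ?_, ?_⟩
  · rw [← card_arc U (Finset.Subset.refl _)]
    have : ((U.sigma fun u => Finset.range (w u)).image
        fun x : (_ : ZMod q) × ℕ => x.1 + (x.2 : ZMod q)) = Finset.univ := by
      rw [Finset.eq_univ_iff_forall]
      intro z
      have hz := Nat.find_spec (gap_back U hU z)
      set j := Nat.find (gap_back U hU z) with hj
      rw [Finset.mem_image]
      refine ⟨⟨z - (j : ZMod q), j⟩, ?_, by simp⟩
      rw [Finset.mem_sigma, Finset.mem_range]
      refine ⟨hz, ?_⟩
      simp only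
      by_contra hlt
      push Not at hlt
      have h1 := w2 (z - (j : ZMod q))
      have h2 : z - (j : ZMod q) + (w (z - (j : ZMod q)) : ZMod q) =
          z - ((j - w (z - (j : ZMod q)) : ℕ) : ZMod q) := by
        rw [Nat.cast_sub hlt]
        ring
      rw [h2] at h1
      have h3 := Nat.find_min' (gap_back U hU z) h1
      have h4 := w1 (z - (j : ZMod q))
      rw [← hj] at h3
      omega
    rw [this, Finset.card_univ, ZMod.card]
  · intro z hz
    rw [← Finset.sum_filter, ← card_arc _ (Finset.filter_subset _ _)]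
    calc _ ≤ ((Finset.Icc 1 p).image fun i : ℕ => z - (i : ZMod q)).card := by
          apply Finset.card_le_card
          intro y hy
          rw [Finset.mem_image] at hy
          obtain ⟨⟨u, j⟩, hx, rfl⟩ := hy
          rw [Finset.mem_sigma, Finset.mem_range, Finset.mem_filter] at hx
          obtain ⟨⟨_, d, hd1, hdp, hd⟩, hj⟩ := hx
          simp only at hj hd ⊢
          have hzu : z = u + (d : ZMod q) := by
            rw [← hd]
            ring
          have hwd := w3 u d hd1 (hzu ▸ hz)
          rw [Finset.mem_image]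
          refine ⟨d - j, ?_, ?_⟩
          · rw [Finset.mem_Icc]
            omega
          · rw [Nat.cast_sub (by omega), hzu]
            ring
      _ ≤ (Finset.Icc 1 p).card := Finset.card_image_le
      _ = p := by simp

end CodegDens
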