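import Pool.Agent.Lib.MP_81e58e_co.LabDefs
import Pool.Agent.Lib.MP_81e58e_co.LGap

/-!
# One coordinate along a synchronous context chain (problem MP_81e58e_co, module L3Core)
-/

namespace CodegDens

open Finset

namespace L3CoreAux

theorem spos_ne {q p : ℕ} (h3 : 3 * p < q) {x : ZMod q} (hx : x ∈ Spos q p) : x ≠ 0 := by
  obtain ⟨j, hj1, hj2, rfl⟩ := hx
  intro h
  rw [ZMod.natCast_eq_zero_iff] at h
  have := Nat.le_of_dvd (by omega) h
  omega

theorem spos_ne2 {q p : ℕ} (h3 : 3 * p < q) {x y : ZMod q} (hx : x ∈ Spos q p)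
    (hy : y ∈ Spos q p) : x + y ≠ 0 := by
  obtain ⟨j, hj1, hj2, rfl⟩ := hx
  obtain ⟨i, hi1, hi2, rfl⟩ := hy
  intro h
  rw [← Nat.cast_add, ZMod.natCast_eq_zero_iff] at h
  have := Nat.le_of_dvd (by omega) h
  omega

theorem spos_ne3 {q p : ℕ} (h3 : 3 * p < q) {x y z : ZMod q} (hx : x ∈ Spos q p)
    (hy : y ∈ Spos q p) (hz : z ∈ Spos q p) : x + y + z ≠ 0 := by
  obtain ⟨j, hj1, hj2, rfl⟩ := hx
  obtain ⟨i, hi1, hi2, rfl⟩ := hy
  obtain ⟨l, hl1, hl2, rfl⟩ := hz
  intro h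
  rw [← Nat.cast_add, ← Nat.cast_add, ZMod.natCast_eq_zero_iff] at h
  have := Nat.le_of_dvd (by omega) h
  omega

/-- Equal casts of small numbers. -/
theorem cast_inj_small {q : ℕ} {a b : ℕ} (ha : a < q) (hb : b < q)
    (h : (a : ZMod q) = (b : ZMod q)) : a = b := by
  rw [ZMod.natCast_eq_natCast_iff'] at h
  rwa [Nat.mod_eq_of_lt ha, Nat.mod_eq_of_lt hb] at h

theorem states {q p : ℕ} {t s s' : ZMod q}
    (h : some t ::ₘ some s ::ₘ {some s'} ∈ CirPat 3 q p) :
    (s' = s ∧ t - s ∈ Spos q p) ∨ (t = s' ∧ s - s' ∈ Spos q p) ∨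
      (t = s ∧ s' - s ∈ Spos q p) := by
  obtain ⟨-, h | h⟩ := h
  · obtain ⟨u, v, huv, he⟩ := h
    have hr : Multiset.replicate (3 - 1) (some u) = (some u ::ₘ {some u} : Multiset _) := rfl
    rw [hr, Multiset.cons_eq_cons] at he
    rcases he with ⟨h1, h2⟩ | ⟨h1, cs, h2, h4⟩
    · rw [Multiset.cons_eq_cons] at h2
      simp only [Option.some.injEq] at h1
      rcases h2 with ⟨h5, h6⟩ | ⟨h5, cs, h6, h7⟩
      · simp only [Option.some.injEq] at h5
        rw [Multiset.singleton_inj] at h6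
        simp only [Option.some.injEq] at h6
        subst h1 h5 h6
        exact Or.inl ⟨rfl, huv⟩
      · rw [Multiset.singleton_eq_cons_iff] at h6 h7
        exact absurd h7.1.symm h5
    · -- t ≠ v
      have h5 : cs = {some u} ∧ t = u := by
        rw [Multiset.cons_eq_cons] at h4
        rcases h4 with ⟨h5, h6⟩ | ⟨h5, ds, h6, h7⟩
        · simp only [Option.some.injEq] at h5
          exact ⟨h6.symm, h5.symm⟩
        · rw [Multiset.singleton_eq_cons_iff] at h6
          exact absurd h6.1 h5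
      obtain ⟨h5, h6⟩ := h5
      subst h5 h6
      rw [Multiset.cons_eq_cons] at h2
      rcases h2 with ⟨h5, h6⟩ | ⟨h5, ds, h6, h7⟩
      · simp only [Option.some.injEq] at h5
        rw [Multiset.singleton_inj] at h6
        simp only [Option.some.injEq] at h6
        subst h5 h6
        exact Or.inr (Or.inl ⟨rfl, huv⟩)
      · rw [Multiset.singleton_eq_cons_iff] at h6 h7
        have h8 := h6.1
        have h9 := h7.1
        simp only [Option.some.injEq] at h8 h9
        subst h8 h9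
        exact Or.inr (Or.inr ⟨rfl, huv⟩)
  · obtain ⟨h, -⟩ := h
    simp at h

theorem state_diag {q p : ℕ} (h3 : 3 * p < q) {x : Option (ZMod q)} {u : ZMod q}
    (h : x ::ₘ some u ::ₘ {some u} ∈ CirPat 3 q p) : ∃ v, x = some v ∧ v - u ∈ Spos q p := by
  rcases x with _ | v
  · exfalso
    obtain ⟨-, h | h⟩ := h
    · obtain ⟨u', v', -, he⟩ := h
      have h1 : (none : Option (ZMod q)) ∈
          some v' ::ₘ Multiset.replicate (3 - 1) (some u') := by
        rw [← he]
        exact Multiset.mem_cons_self _ _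
      rw [Multiset.mem_cons, Multiset.mem_replicate] at h1
      rcases h1 with h1 | ⟨_, h1⟩ <;> exact absurd h1 (by simp)
    · exact h.2.2 u rfl
  · refine ⟨v, rfl, ?_⟩
    rcases states h with ⟨-, h⟩ | ⟨-, h⟩ | ⟨-, h⟩
    · exact h
    · exact absurd (sub_self u) (spos_ne h3 h)
    · exact absurd (sub_self u) (spos_ne h3 h)

theorem state_mixed {q p : ℕ} {x : Option (ZMod q)} {u v : ZMod q} (huv : u ≠ v)
    (h1 : u - v ∉ Spos q p) (h2 : v - u ∉ Spos q p)
    (h : x ::ₘ some u ::ₘ {some v} ∈ CirPat 3 q p) : x = none := by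
  rcases x with _ | t
  · rfl
  · rcases states h with ⟨h, -⟩ | ⟨-, h⟩ | ⟨-, h⟩
    · exact absurd h.symm huv
    · exact absurd h h1
    · exact absurd h h2

/-- The labels that are reached from `w0` by at most `n` steps to children. -/
def Rch {V : Type} (E : Set (Multiset V)) (Y : ℕ → Set V) (t0 : ℕ) (w0 : V) : ℕ → Set V
  | 0 => {w0}
  | n + 1 => Rch E Y t0 w0 n ∪
      {v | v ∈ Y (t0 + n + 1) ∧ ∃ a ∈ Rch E Y t0 w0 n, v ::ₘ Multiset.replicate (3 - 1) a ∈ E}

section

variable {q p : ℕ} (h3 : 3 * p < q) {N : ℕ} {V : Type} {E : Set (Multiset V)} {Z : Set V}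
  {h : ℕ → V → Option (ZMod q)}
  (hA : ∀ m, m < N → ∀ w₁ w₂ v, w₁ ∈ Z → w₂ ∈ Z → v ∈ Z → v ::ₘ w₁ ::ₘ {w₂} ∈ E →
    h (m + 1) v ::ₘ h m w₁ ::ₘ {h m w₂} ∈ CirPat 3 q p)
  (hB : ∀ m, m < N → ∀ w v, Kid 3 E Z w v →
    h m v ::ₘ h m w ::ₘ {h (m + 1) w} ∈ CirPat 3 q p)
  (hC : ∀ m, m ≤ N → ∀ v, (∃ w, Kid 3 E Z w v) → ∃ u, h m v = some u)

/-- The value. -/
def vl (h : ℕ → V → Option (ZMod q)) (m : ℕ) (v : V) : ZMod q := (h m v).getD 0

include hC in
theorem h_eq {m : ℕ} (hm : m ≤ N) {v : V} (hv : ∃ w, Kid 3 E Z w v) :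
    h m v = some (vl h m v) := by
  obtain ⟨u, hu⟩ := hC m hm v hv
  rw [vl, hu]
  rfl

include hB hC in
/-- The three types. -/
theorem types {a b : V} (ha : ∃ w, Kid 3 E Z w a) (hab : Kid 3 E Z a b) {m : ℕ} (hm : m < N) :
    (vl h (m + 1) a = vl h m a ∧ vl h m b - vl h m a ∈ Spos q p) ∨
    (vl h m b = vl h (m + 1) a ∧ vl h m a - vl h (m + 1) a ∈ Spos q p) ∨
    (vl h m b = vl h m a ∧ vl h (m + 1) a - vl h m a ∈ Spos q p) := by
  have h1 := hB m hm a b hab
  rw [h_eq hC hm.le ⟨a, hab⟩, h_eq hC hm.le ha, h_eq hC (m := m + 1) (by omega) ha] at h1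
  exact states h1

include h3 hA hC in
theorem first {a b : V} (ha : ∃ w, Kid 3 E Z w a) (hab : Kid 3 E Z a b) {m : ℕ} (hm : m < N) :
    vl h (m + 1) b - vl h m a ∈ Spos q p := by
  have h1 := hA m hm a a b hab.1 hab.1 hab.2.1 hab.2.2
  rw [h_eq hC hm.le ha] at h1
  obtain ⟨v, hv, hv'⟩ := state_diag h3 h1
  rw [vl, hv]
  exact hv'

include h3 hA hB hC in
theorem stepB {a b : V} (ha : ∃ w, Kid 3 E Z w a) (hab : Kid 3 E Z a b) {m : ℕ}
    (hm : m + 1 < N) (h1 : vl h (m + 1) a = vl h m a) : vl h (m + 2) a = vl h (m + 1) a := by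
  have h2 := first h3 hA hC ha hab (m := m) (by omega)
  rcases types hB hC ha hab hm with ⟨h4, -⟩ | ⟨h4, h5⟩ | ⟨h4, h5⟩
  · exact h4
  · exfalso
    rw [h4] at h2
    rw [h1] at h5
    have := spos_ne2 h3 h2 h5
    exact this (by ring)
  · exfalso
    rw [h4, h1, sub_self] at h2
    exact spos_ne h3 h2 rfl

include h3 hA hB hC in
theorem stepC {a b : V} (ha : ∃ w, Kid 3 E Z w a) (hab : Kid 3 E Z a b) {m : ℕ}
    (hm : m + 1 < N) (h1 : vl h m a - vl h (m + 1) a ∈ Spos q p) :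
    vl h (m + 2) a = vl h (m + 1) a := by
  have h2 := first h3 hA hC ha hab (m := m) (by omega)
  rcases types hB hC ha hab hm with ⟨h4, -⟩ | ⟨h4, h5⟩ | ⟨h4, h5⟩
  · exact h4
  · exfalso
    rw [h4] at h2
    have := spos_ne3 h3 h2 h1 h5
    exact this (by ring)
  · exfalso
    rw [h4] at h2
    have := spos_ne2 h3 h1 h2
    exact this (by ring)

/-- The value of `a` is constant from `m0` on. -/
def Cst (h : ℕ → V → Option (ZMod q)) (N : ℕ) (a : V) (m0 : ℕ) : Prop :=
  ∀ m, m0 ≤ m → m < N → vl h (m + 1) a = vl h m a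

theorem Cst.mono {a : V} {m0 m1 : ℕ} (hc : Cst h N a m0) (hm : m0 ≤ m1) : Cst h N a m1 :=
  fun m h1 h2 => hc m (hm.trans h1) h2

theorem Cst.eq {a : V} {m0 : ℕ} (hc : Cst h N a m0) {m : ℕ} (hm : m0 ≤ m) (hN : m ≤ N) :
    vl h m a = vl h m0 a := by
  induction m, hm using Nat.le_induction with
  | base => rfl
  | succ m hm ih =>
    rw [hc m hm (by omega)]
    exact ih (by omega)

include h3 hA hB hC in
theorem cst_of {a b : V} (ha : ∃ w, Kid 3 E Z w a) (hab : Kid 3 E Z a b) {m0 : ℕ}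
    (h1 : m0 < N → vl h (m0 + 1) a = vl h m0 a) : Cst h N a m0 := by
  intro m hm
  induction m, hm using Nat.le_induction with
  | base => exact h1
  | succ m hm ih =>
    intro h2
    exact stepB h3 hA hB hC ha hab h2 (ih (by omega))

include h3 hA hB hC in
/-- The type B or C leads to a constant value. -/
theorem cst_of_types {a b : V} (ha : ∃ w, Kid 3 E Z w a) (hab : Kid 3 E Z a b) {m : ℕ}
    (h1 : vl h (m + 1) a = vl h m a ∨ vl h m a - vl h (m + 1) a ∈ Spos q p) :
    Cst h N a (m + 1) := by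
  rcases h1 with h1 | h1
  · exact (cst_of h3 hA hB hC ha hab (m0 := m) fun _ => h1).mono (Nat.le_succ m)
  · exact cst_of h3 hA hB hC ha hab (m0 := m + 1) fun h2 => stepC h3 hA hB hC ha hab h2 h1

include h3 hB hC in
theorem child_val {a b : V} (ha : ∃ w, Kid 3 E Z w a) (hab : Kid 3 E Z a b) {m0 : ℕ}
    (hc : Cst h N a m0) {m : ℕ} (hm : m0 ≤ m) (hN : m < N) :
    vl h m b - vl h m a ∈ Spos q p := by
  have h1 := hc m hm hN
  rcases types hB hC ha hab hN with ⟨-, h4⟩ | ⟨-, h4⟩ | ⟨-, h4⟩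
  · exact h4
  · exact absurd (by rw [h1, sub_self]) (spos_ne h3 h4)
  · exact absurd (by rw [h1, sub_self]) (spos_ne h3 h4)

include h3 hA hB hC in
theorem cst_child {a b c : V} (ha : ∃ w, Kid 3 E Z w a) (hab : Kid 3 E Z a b)
    (hbc : Kid 3 E Z b c) {m0 : ℕ} (hc : Cst h N a m0) (hN : m0 + p + 1 ≤ N) :
    Cst h N b (m0 + p + 1) := by
  have hb : ∃ w, Kid 3 E Z w b := ⟨a, hab⟩
  have key : ∀ i, i ≤ p → (∃ m1, m1 < m0 + i ∧ (vl h (m1 + 1) b = vl h m1 b ∨
      vl h m1 b - vl h (m1 + 1) b ∈ Spos q p)) ∨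
      ∃ j : ℕ, i + 1 ≤ j ∧ j ≤ p ∧ vl h (m0 + i) b - vl h m0 a = (j : ZMod q) := by
    intro i
    induction i with
    | zero =>
      intro _
      obtain ⟨j, hj1, hj2, hj3⟩ := child_val h3 hB hC ha hab hc le_rfl (by omega)
      exact Or.inr ⟨j, by omega, hj2, hj3⟩
    | succ i ih =>
      intro hi
      rcases ih (by omega) with ⟨m1, hm1, h4⟩ | ⟨j, hj1, hj2, hj3⟩
      · exact Or.inl ⟨m1, by omega, h4⟩
      · rcases types hB hC hb hbc (m := m0 + i) (by omega) with ⟨h4, -⟩ | ⟨-, h4⟩ | ⟨-, h4⟩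
        · exact Or.inl ⟨m0 + i, by omega, Or.inl h4⟩
        · exact Or.inl ⟨m0 + i, by omega, Or.inr h4⟩
        · right
          obtain ⟨d, hd1, hd2, hd3⟩ := h4
          obtain ⟨j', hj1', hj2', hj3'⟩ := child_val h3 hB hC ha hab hc
            (m := m0 + (i + 1)) (by omega) (by omega)
          rw [hc.eq (by omega) (by omega)] at hj3'
          have h5 : ((j' : ℕ) : ZMod q) = ((j + d : ℕ) : ZMod q) := by
            rw [← hj3', Nat.cast_add, ← hj3, ← hd3]
            rw [show m0 + (i + 1) = m0 + i + 1 by ring]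
            ring
          have h6 := cast_inj_small (by omega) (by omega) h5
          exact ⟨j', by omega, hj2', hj3'⟩
  rcases key p le_rfl with ⟨m1, hm1, h4⟩ | ⟨j, hj1, hj2, -⟩
  · exact (cst_of_types h3 hA hB hC hb hbc h4).mono (by omega)
  · omega

end

end L3CoreAux

open L3CoreAux

theorem cir3_core {q p : ℕ} [NeZero q] (hp : 1 ≤ p) (h3 : 3 * p < q) :
    ∃ N : ℕ, ∀ (V : Type) (E : Set (Multiset V)) (Y : ℕ → Set V) (L t0 : ℕ), t0 + N ≤ L →
      LabChain 3 E ((p : ℝ) / (p + q)) L Y → ∀ h : ℕ → V → Option (ZMod q),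
      -- product edges with source `(w₁, y^m), (w₂, y^m)` and target `(v, y^(m+1))`
      (∀ m, m < N → ∀ w₁ w₂ v, w₁ ∈ Y L → w₂ ∈ Y L → v ∈ Y L → v ::ₘ w₁ ::ₘ {w₂} ∈ E →
        h (m + 1) v ::ₘ h m w₁ ::ₘ {h m w₂} ∈ CirPat 3 q p) →
      -- product edges `(w, y^m), (v, y^m), (w, y^(m+1))` with `v` a child of `w`
      (∀ m, m < N → ∀ w v, Kid 3 E (Y L) w v →
        h m v ::ₘ h m w ::ₘ {h (m + 1) w} ∈ CirPat 3 q p) →
      -- values at children are states
      (∀ m, m ≤ N → ∀ v, (∃ w, Kid 3 E (Y L) w v) → ∃ u, h m v = some u) →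
      ∀ w0, (∃ w, Kid 3 E (Y t0) w w0) → ∀ u w : ZMod q, h 0 w0 = some u → h 1 w0 = some w →
        ¬ (w = u ∨ u - w ∈ Spos q p) := by
  classical
  refine ⟨(p + 1) * (q + 2) + q + 5, ?_⟩
  intro V E Y L t0 hL hY h hA hB hC w0 hw0 u w hu hw hcon
  set N := (p + 1) * (q + 2) + q + 5 with hN
  have hq : 0 < q := by omega
  have hpq : (0 : ℝ) < (p : ℝ) + q := by positivity
  have hmono : ∀ s t, s ≤ t → t ≤ L → Y s ⊆ Y t := by
    intro s t hst
    induction t, hst using Nat.le_induction with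
    | base => exact fun _ => subset_rfl
    | succ t ht ih => exact fun h1 => (ih (by omega)).trans (hY.mono t (by omega))
  -- children
  have hchild : ∀ t, t < L → ∀ a ∈ Y t, ∃ b ∈ Y (t + 1),
      b ::ₘ Multiset.replicate (3 - 1) a ∈ E := by
    intro t ht a ha
    obtain ⟨v, hv, h1⟩ := hY.rich t ht Unit (fun _ => Multiset.replicate (3 - 1) a) (fun _ => 1)
      (fun _ => ⟨by simp, fun x hx => by
        rw [Multiset.eq_of_mem_replicate hx]; exact ha⟩) (fun _ => zero_le_one) (by simp)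
    refine ⟨v, hv, ?_⟩
    by_contra hne
    simp only [Finset.univ_unique, Finset.sum_const, Finset.card_singleton, one_smul] at h1
    rw [if_neg hne] at h1
    have : (0 : ℝ) ≤ (p : ℝ) / (p + q) := by positivity
    linarith
  set D := Rch E Y t0 w0 with hD
  -- members of `D n`
  have hDY : ∀ n, t0 + n ≤ L → ∀ a ∈ D n, a ∈ Y (t0 + n) ∧ ∃ w, Kid 3 E (Y L) w a := by
    intro n
    induction n with
    | zero =>
      intro _ a ha
      have ha' : a = w0 := ha
      subst ha'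
      obtain ⟨w', hw'⟩ := hw0
      exact ⟨hw'.2.1, w', hmono _ _ (by omega) le_rfl hw'.1, hmono _ _ (by omega) le_rfl hw'.2.1,
        hw'.2.2⟩
    | succ n ih =>
      intro hn a ha
      rcases ha with ha | ⟨ha1, a', ha2, ha3⟩
      · have h1 := ih (by omega) a ha
        exact ⟨hmono _ _ (by omega) hn h1.1, h1.2⟩
      · have h1 := ih (by omega) a' ha2
        exact ⟨ha1, a', hmono _ _ (by omega) le_rfl h1.1, hmono _ _ hn le_rfl ha1, ha3⟩
  have hDchild : ∀ n, t0 + n < L → ∀ a ∈ D n, ∃ b ∈ D (n + 1), Kid 3 E (Y L) a b := by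
    intro n hn a ha
    have h1 := (hDY n hn.le a ha).1
    obtain ⟨b, hb1, hb2⟩ := hchild _ hn a h1
    exact ⟨b, Or.inr ⟨hb1, a, ha, hb2⟩, hmono _ _ hn.le le_rfl h1,
      hmono _ _ (by omega) le_rfl hb1, hb2⟩
  -- constant values
  have hcst : ∀ n, n ≤ q + 1 → ∀ a ∈ D n, Cst h N a (1 + n * (p + 1)) := by
    intro n
    induction n with
    | zero =>
      intro _ a ha
      have ha' : a = w0 := ha
      obtain ⟨b, -, hb⟩ := hDchild 0 (by omega) a ha
      have h1 := (hDY 0 (by omega) a ha).2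
      have h2 : vl h 0 a = u := by rw [ha', vl, hu]; rfl
      have h4 : vl h (0 + 1) a = w := by rw [ha', vl, hw]; rfl
      have h5 := cst_of_types h3 hA hB hC h1 hb (m := 0) (by rw [h2, h4]; exact hcon)
      exact h5.mono (by omega)
    | succ n ih =>
      intro hn a ha
      have hm : (n + 1) * (p + 1) = n * (p + 1) + (p + 1) := by ring
      rcases ha with ha | ⟨ha1, a', ha2, ha3⟩
      · exact (ih (by omega) a ha).mono (by omega)
      · have hle : n * (p + 1) ≤ q * (p + 1) := Nat.mul_le_mul_right _ (by omega)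
        have hbig : (p + 1) * (q + 2) = q * (p + 1) + 2 * (p + 1) := by ring
        have h1 := hDY n (by omega) a' ha2
        have h2 : Kid 3 E (Y L) a' a :=
          ⟨hmono _ _ (by omega) le_rfl h1.1, hmono _ _ (by omega) le_rfl ha1, ha3⟩
        obtain ⟨c, -, hc⟩ := hDchild (n + 1) (by omega) a (Or.inr ⟨ha1, a', ha2, ha3⟩)
        have h4 := cst_child h3 hA hB hC h1.2 h2 hc (ih (by omega) a' ha2) (by omega)
        exact h4.mono (by omega)
  set M := 1 + (q + 1) * (p + 1) with hM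
  have hMN : M < N := by
    have : (p + 1) * (q + 2) = (q + 1) * (p + 1) + (p + 1) := by ring
    omega
  have hcstM : ∀ n, n ≤ q + 1 → ∀ a ∈ D n, Cst h N a M := fun n hn a ha =>
    (hcst n hn a ha).mono (by
      have : n * (p + 1) ≤ (q + 1) * (p + 1) := Nat.mul_le_mul_right _ hn
      omega)
  -- the values
  set U : ℕ → Finset (ZMod q) := fun n => Finset.univ.filter fun z => ∃ a ∈ D n, vl h M a = z
    with hU
  have hUmem : ∀ n z, z ∈ U n ↔ ∃ a ∈ D n, vl h M a = z := fun n z => by simp [hU]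
  have hUmono : ∀ n, U n ⊆ U (n + 1) := by
    intro n z hz
    rw [hUmem] at hz ⊢
    obtain ⟨a, ha, h1⟩ := hz
    exact ⟨a, Or.inl ha, h1⟩
  have hstab : ∃ n, n ≤ q ∧ U (n + 1) = U n := by
    by_contra hno
    push Not at hno
    have h1 : ∀ n, n ≤ q + 1 → n ≤ (U n).card := by
      intro n
      induction n with
      | zero => exact fun _ => Nat.zero_le _
      | succ n ih =>
        intro hn
        have h2 := ih (by omega)
        have h4 : U n ⊂ U (n + 1) :=
          lt_of_le_of_ne (hUmono n) fun h5 => hno n (by omega) h5.symm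
        have h5 := Finset.card_lt_card h4
        omega
    have h2 := h1 (q + 1) le_rfl
    have h4 : (U (q + 1)).card ≤ q := by
      have := Finset.card_le_univ (U (q + 1))
      rwa [ZMod.card] at this
    omega
  obtain ⟨n, hn, hUn⟩ := hstab
  have hUne : (U n).Nonempty := by
    have h1 : ∀ n, w0 ∈ D n := by
      intro n
      induction n with
      | zero => exact rfl
      | succ n ih => exact Or.inl ih
    exact ⟨vl h M w0, (hUmem n _).2 ⟨w0, h1 n, rfl⟩⟩
  have hch : ∀ z : ZMod q, ∃ a, z ∈ U n → a ∈ D n ∧ vl h M a = z := by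
    intro z
    by_cases hz : z ∈ U n
    · obtain ⟨a, ha, h1⟩ := (hUmem n z).1 hz
      exact ⟨a, fun _ => ⟨ha, h1⟩⟩
    · exact ⟨w0, fun h1 => absurd h1 hz⟩
  choose b hb using hch
  -- every element of `U n` has a successor
  have hsucc : ∀ z ∈ U n, ∃ z' ∈ U n, z' - z ∈ Spos q p := by
    intro z hz
    obtain ⟨hbz, hbv⟩ := hb z hz
    obtain ⟨c, hc1, hc2⟩ := hDchild n (by omega) _ hbz
    refine ⟨vl h M c, ?_, ?_⟩
    · rw [← hUn, hUmem]
      exact ⟨c, hc1, rfl⟩
    · have := child_val h3 hB hC (hDY n (by omega) _ hbz).2 hc2 (hcstM n (by omega) _ hbz)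
        le_rfl hMN
      rwa [hbv] at this
  -- a far pair
  obtain ⟨u1, hu1⟩ := hUne
  have hfar : ∃ d : ℕ, p < d ∧ d ≤ 2 * p ∧ u1 + (d : ZMod q) ∈ U n := by
    have hex : ∃ j, j ≤ p ∧ 1 ≤ j ∧ u1 + (j : ZMod q) ∈ U n := by
      obtain ⟨z, hz, j, hj1, hj2, hj3⟩ := hsucc u1 hu1
      refine ⟨j, hj2, hj1, ?_⟩
      rw [← hj3]
      simpa using hz
    set j := Nat.findGreatest (fun j => 1 ≤ j ∧ u1 + (j : ZMod q) ∈ U n) p with hj
    have hjs : 1 ≤ j ∧ u1 + (j : ZMod q) ∈ U n := by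
      obtain ⟨j0, hj0, hj1⟩ := hex
      exact Nat.findGreatest_spec (P := fun j => 1 ≤ j ∧ u1 + (j : ZMod q) ∈ U n) hj0 hj1
    have hjp : j ≤ p := Nat.findGreatest_le p
    obtain ⟨z, hz, i, hi1, hi2, hi3⟩ := hsucc _ hjs.2
    have hz' : u1 + ((j + i : ℕ) : ZMod q) ∈ U n := by
      rw [Nat.cast_add, ← hi3]
      have : u1 + ((j : ZMod q) + (z - (u1 + (j : ZMod q)))) = z := by ring
      rwa [this]
    refine ⟨j + i, ?_, by omega, hz'⟩
    by_contra hle
    have hle' : j + i ≤ p := not_lt.1 hle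
    have := Nat.le_findGreatest (P := fun j => 1 ≤ j ∧ u1 + (j : ZMod q) ∈ U n) hle'
      ⟨by omega, hz'⟩
    omega
  obtain ⟨d, hd1, hd2, hu2⟩ := hfar
  set u2 := u1 + (d : ZMod q) with hu2d
  have hne12 : u1 ≠ u2 := by
    intro h1
    have h2 : (d : ZMod q) = 0 := by
      have := congrArg (fun z => z - u1) h1
      simp only [hu2d] at this
      rw [sub_self, add_sub_cancel_left] at this
      exact this.symm
    rw [ZMod.natCast_eq_zero_iff] at h2
    have := Nat.le_of_dvd (by omega) h2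
    omega
  have hn21 : u2 - u1 ∉ Spos q p := by
    rintro ⟨j, hj1, hj2, hj3⟩
    rw [hu2d, add_sub_cancel_left] at hj3
    have := cast_inj_small (by omega) (by omega) hj3
    omega
  have hn12 : u1 - u2 ∉ Spos q p := by
    rintro ⟨j, hj1, hj2, hj3⟩
    have h1 : ((d + j : ℕ) : ZMod q) = 0 := by
      rw [Nat.cast_add, ← hj3, hu2d]
      ring
    rw [ZMod.natCast_eq_zero_iff] at h1
    have := Nat.le_of_dvd (by omega) h1
    omega
  obtain ⟨W, hW1, hW2⟩ := gap_weights (q := q) (p := p) (by omega) (U n) ⟨u1, hu1⟩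
  -- richness
  have hbY : ∀ z ∈ U n, b z ∈ Y (t0 + n) := fun z hz => (hDY n (by omega) _ (hb z hz).1).1
  obtain ⟨v, hv, hrich⟩ := hY.rich (t0 + n) (by omega) (Option {z // z ∈ U n})
    (fun o => match o with
      | none => b u1 ::ₘ {b u2}
      | some z => Multiset.replicate (3 - 1) (b z.1))
    (fun o => match o with
      | none => (p : ℝ)
      | some z => (W z.1 : ℝ))
    (fun o => by
      rcases o with _ | z
      · refine ⟨rfl, fun x hx => ?_⟩
        rw [Multiset.mem_cons, Multiset.mem_singleton] at hx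
        rcases hx with rfl | rfl
        · exact hbY u1 hu1
        · exact hbY u2 hu2
      · refine ⟨by simp, fun x hx => ?_⟩
        rw [Multiset.eq_of_mem_replicate hx]
        exact hbY z.1 z.2)
    (fun o => by rcases o with _ | z <;> positivity)
    (by
      rw [Fintype.sum_option]
      have : (0 : ℝ) ≤ ∑ z : {z // z ∈ U n}, (W z.1 : ℝ) :=
        Finset.sum_nonneg fun _ _ => Nat.cast_nonneg _
      have : (0 : ℝ) < p := by exact_mod_cast hp
      linarith)
  rw [Fintype.sum_option, Fintype.sum_option] at hrich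
  have hWsum : ∑ z : {z // z ∈ U n}, (W z.1 : ℝ) = q :=
    (Finset.sum_coe_sort (U n) fun z => (W z : ℝ)).trans (by exact_mod_cast hW1)
  simp only [hWsum] at hrich
  rw [div_mul_cancel₀ _ hpq.ne'] at hrich
  have hvL : v ∈ Y L := hmono _ _ (by omega) le_rfl hv
  have hbL : ∀ z ∈ U n, b z ∈ Y L := fun z hz => hmono _ _ (by omega) le_rfl (hbY z hz)
  have hval : ∀ z ∈ U n, h M (b z) = some z := by
    intro z hz
    rw [h_eq hC hMN.le (hDY n (by omega) _ (hb z hz).1).2, (hb z hz).2]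
  -- adjacent to a diagonal source
  have hdiag : ∀ z ∈ U n, v ::ₘ Multiset.replicate (3 - 1) (b z) ∈ E →
      ∃ y, h (M + 1) v = some y := by
    intro z hz hE
    have h1 := hA M hMN (b z) (b z) v (hbL z hz) (hbL z hz) hvL hE
    rw [hval z hz] at h1
    obtain ⟨y, hy, -⟩ := state_diag h3 h1
    exact ⟨y, hy⟩
  have hmix : v ::ₘ b u1 ::ₘ {b u2} ∈ E → h (M + 1) v = none := by
    intro hE
    have h1 := hA M hMN (b u1) (b u2) v (hbL u1 hu1) (hbL u2 hu2) hvL hE
    rw [hval u1 hu1, hval u2 hu2] at h1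
    exact state_mixed hne12 hn12 hn21 h1
  by_cases hex : ∃ z ∈ U n, v ::ₘ Multiset.replicate (3 - 1) (b z) ∈ E
  · obtain ⟨z0, hz0, hE0⟩ := hex
    have hnm : v ::ₘ b u1 ::ₘ {b u2} ∉ E := by
      intro hE
      obtain ⟨y, hy⟩ := hdiag z0 hz0 hE0
      rw [hmix hE] at hy
      exact absurd hy (by simp)
    -- the value of `v`
    have hvD : v ∈ D (n + 1) := Or.inr ⟨hv, b z0, (hb z0 hz0).1, hE0⟩
    have hz : vl h M v ∈ U n := by
      rw [← hUn, hUmem]
      exact ⟨v, hvD, rfl⟩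
    have hS : ∀ z ∈ U n, v ::ₘ Multiset.replicate (3 - 1) (b z) ∈ E →
        vl h M v - z ∈ Spos q p := by
      intro z hz hE
      have h1 := child_val h3 hB hC (hDY n (by omega) _ (hb z hz).1).2
        ⟨hbL z hz, hvL, hE⟩ (hcstM n (by omega) _ (hb z hz).1) le_rfl hMN
      rwa [(hb z hz).2] at h1
    have h5 := hW2 _ hz
    have h6 : ∑ z : {z // z ∈ U n},
        (if v ::ₘ Multiset.replicate (3 - 1) (b z.1) ∈ E then (W z.1 : ℝ) else 0) ≤
        ∑ z ∈ U n, (if vl h M v - z ∈ Spos q p then (W z : ℝ) else 0) := by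
      rw [Finset.sum_coe_sort (U n) fun z =>
        (if v ::ₘ Multiset.replicate (3 - 1) (b z) ∈ E then (W z : ℝ) else 0)]
      refine Finset.sum_le_sum fun z hz => ?_
      by_cases hE : v ::ₘ Multiset.replicate (3 - 1) (b z) ∈ E
      · rw [if_pos hE, if_pos (hS z hz hE)]
      · rw [if_neg hE]
        split_ifs <;> positivity
    have h7 : ∑ z ∈ U n, (if vl h M v - z ∈ Spos q p then (W z : ℝ) else 0) ≤ p := by
      have : ((∑ z ∈ U n, (if vl h M v - z ∈ Spos q p then W z else 0) : ℕ) : ℝ) ≤ p := by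
        exact_mod_cast h5
      push_cast at this
      exact this
    rw [if_neg hnm, zero_add] at hrich
    exact absurd (h6.trans h7) (not_le.2 hrich)
  · push Not at hex
    have h6 : ∑ z : {z // z ∈ U n},
        (if v ::ₘ Multiset.replicate (3 - 1) (b z.1) ∈ E then (W z.1 : ℝ) else 0) = 0 :=
      Finset.sum_eq_zero fun z _ => if_neg (hex z.1 z.2)
    rw [h6, add_zero] at hrich
    split_ifs at hrich
    · exact lt_irrefl _ hrich
    · have : (0 : ℝ) ≤ p := Nat.cast_nonneg _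
      linarith

end CodegDens
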