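import Pool.Agent.Lib.MP_81e58e_co.G4Defs
import Pool.Agent.Lib.MP_81e58e_co.L3Core

/-!
# The graded block along a synchronous context chain (problem MP_81e58e_co, module G4CirBlock)
-/

set_option autoImplicit false

namespace CodegDens

open Finset L3CoreAux

namespace G4CirAux

theorem relE_iff {W : Type} {S : W → W → W → Prop} (hS : Sym3 S) (x y z : W) :
    z ::ₘ x ::ₘ {y} ∈ relE S ↔ S x y z := by
  classical
  constructor
  · rintro ⟨u, v, w, he, hs⟩
    have he' : (z ::ₘ x ::ₘ {y} : Multiset W) = u ::ₘ v ::ₘ {w} := he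
    have p12 := hS.s12
    have p23 := hS.s23
    rw [Multiset.cons_eq_cons] at he'
    rcases he' with ⟨h1, h2⟩ | ⟨h1, cs, h2, h4⟩
    · subst h1
      rw [Multiset.cons_eq_cons] at h2
      rcases h2 with ⟨h5, h6⟩ | ⟨h5, cs, h6, h7⟩
      · rw [Multiset.singleton_inj] at h6
        subst h5 h6
        exact p23 _ _ _ (p12 _ _ _ hs)
      · rw [Multiset.singleton_eq_cons_iff] at h6 h7
        obtain ⟨h8, -⟩ := h6
        obtain ⟨h9, -⟩ := h7
        subst h8 h9
        exact p12 _ _ _ (p23 _ _ _ (p12 _ _ _ hs))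
    · -- `{x, y} = u ::ₘ cs`, `{v, w} = z ::ₘ cs`
      rw [Multiset.cons_eq_cons] at h2 h4
      rcases h2 with ⟨h5, h6⟩ | ⟨h5, ds, h6, h7⟩
      · subst h5 h6
        rcases h4 with ⟨h8, h9⟩ | ⟨h8, ds, h9, h10⟩
        · rw [Multiset.singleton_inj] at h9
          subst h8 h9
          exact p23 _ _ _ hs
        · rw [Multiset.singleton_eq_cons_iff] at h9 h10
          obtain ⟨h11, -⟩ := h9
          obtain ⟨h12, -⟩ := h10
          subst h11 h12
          exact hs
      · rw [Multiset.singleton_eq_cons_iff] at h6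
        obtain ⟨h11, h12⟩ := h6
        subst h11 h12
        rw [h7] at h4
        rcases h4 with ⟨h8, h9⟩ | ⟨h8, ds, h9, h10⟩
        · have h9' : w = x := by
            have := h9
            rw [Multiset.singleton_eq_cons_iff] at this
            exact this.1
          subst h8 h9'
          exact p12 _ _ _ (p23 _ _ _ hs)
        · rw [Multiset.singleton_eq_cons_iff] at h9
          obtain ⟨h11, h12⟩ := h9
          subst h11 h12
          have h13 : v = x := by
            have h14 : (x ::ₘ 0 : Multiset W) = v ::ₘ 0 := h10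
            rw [Multiset.cons_eq_cons] at h14
            rcases h14 with ⟨h15, -⟩ | ⟨-, cs, h15, -⟩
            · exact h15.symm
            · exact absurd h15.symm (Multiset.cons_ne_zero)
          subst h13
          exact p12 _ _ _ hs
  · intro hs
    refine ⟨z, x, y, rfl, ?_⟩
    exact hS.s12 _ _ _ (hS.s23 _ _ _ hs)

theorem mod_cases {q p a b : ℕ} (h3 : 3 * p < q) (ha : a ≤ p) (hb : b ≤ 4 * p)
    (h : (a : ZMod q) = (b : ZMod q)) : b = a ∨ b = a + q := by
  by_cases hab : a ≤ b
  · have h1 : a ≡ b [MOD q] := (ZMod.natCast_eq_natCast_iff a b q).1 h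
    obtain ⟨c, hc⟩ := (Nat.modEq_iff_dvd' hab).1 h1
    have hc2 : c < 2 := by
      by_contra hlt
      have : q * 2 ≤ q * c := Nat.mul_le_mul_left _ (not_lt.1 hlt)
      omega
    interval_cases c
    · left; omega
    · right; omega
  · left
    exact (cast_inj_small (by omega) (by omega) h).symm

theorem arith {q p : ℕ} (hp : 1 ≤ p) (h3 : 3 * p < q) (e P : ℕ → ℕ) (hP0 : P 0 = 0)
    (hP : ∀ j, j < 3 * p → P (j + 1) = P j + e j)
    (he : ∀ j, j < 3 * p → 1 ≤ e j ∧ e j ≤ p)
    (hc : ∀ i j, i ≤ 3 * p → j ≤ 3 * p → i % 3 = j % 3 → ∃ s s' : ℕ, 1 ≤ s ∧ s ≤ p ∧ 1 ≤ s' ∧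
      s' ≤ p ∧ ((P i + s : ℕ) : ZMod q) = ((P j + s' : ℕ) : ZMod q)) : False := by
  have hP3 : ∀ k, k + 3 ≤ 3 * p → P (k + 3) = P k + (e k + e (k + 1) + e (k + 2)) := by
    intro k hk
    have h1 := hP k (by omega)
    have h2 := hP (k + 1) (by omega)
    have h4 := hP (k + 2) (by omega)
    have e1 : k + 3 = k + 2 + 1 := rfl
    have e2 : k + 2 = k + 1 + 1 := rfl
    rw [e1, h4, e2, h2, h1]
    ring
  -- the two kinds
  have hkind : ∀ k, k + 3 ≤ 3 * p → (e k + e (k + 1) + e (k + 2) + 1 ≤ p ∨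
      q + 1 ≤ e k + e (k + 1) + e (k + 2) + p) := by
    intro k hk
    obtain ⟨s, s', hs1, hs2, hs3, hs4, hs5⟩ := hc (k + 3) k hk (by omega) (by omega)
    have h1 := he k (by omega)
    have h2 := he (k + 1) (by omega)
    have h4 := he (k + 2) (by omega)
    rw [hP3 k hk] at hs5
    have h5 : ((s' : ℕ) : ZMod q) = ((e k + e (k + 1) + e (k + 2) + s : ℕ) : ZMod q) := by
      push_cast at hs5 ⊢
      have h6 : (P k : ZMod q) + (e k + e (k + 1) + e (k + 2) + s) = P k + s' := by
        rw [← hs5]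
        ring
      exact (add_left_cancel h6).symm
    rcases mod_cases h3 hs4 (by omega) h5 with h6 | h6 <;> omega
  have hsame : (∀ k, k + 3 ≤ 3 * p → e k + e (k + 1) + e (k + 2) + 1 ≤ p) ∨
      (∀ k, k + 3 ≤ 3 * p → q + 1 ≤ e k + e (k + 1) + e (k + 2) + p) := by
    rcases hkind 0 (by omega) with h0 | h0
    · left
      intro k
      induction k with
      | zero => exact fun _ => h0
      | succ k ih =>
        intro hk
        have h1 := ih (by omega)
        have h2 := he k (by omega)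
        have h4 := he (k + 3) (by omega)
        have h5 := hkind (k + 1) hk
        have e1 : k + 1 + 1 = k + 2 := rfl
        have e2 : k + 1 + 2 = k + 3 := rfl
        rw [e1, e2] at h5 ⊢
        omega
    · right
      intro k
      induction k with
      | zero => exact fun _ => h0
      | succ k ih =>
        intro hk
        have h1 := ih (by omega)
        have h2 := he k (by omega)
        have h4 := he (k + 3) (by omega)
        have h5 := hkind (k + 1) hk
        have e1 : k + 1 + 1 = k + 2 := rfl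
        have e2 : k + 1 + 2 = k + 3 := rfl
        rw [e1, e2] at h5 ⊢
        omega
  rcases hsame with hsame | hsame
  · have key : ∀ k, k ≤ p → 3 * k ≤ P (3 * k) ∧ P (3 * k) + 1 ≤ p := by
      intro k
      induction k with
      | zero =>
        intro _
        rw [Nat.mul_zero, hP0]
        omega
      | succ k ih =>
        intro hk
        obtain ⟨h1, h2⟩ := ih (by omega)
        have h4 := hP3 (3 * k) (by omega)
        have h5 := hsame (3 * k) (by omega)
        have h6 := he (3 * k) (by omega)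
        have h7 := he (3 * k + 1) (by omega)
        have h8 := he (3 * k + 2) (by omega)
        have e1 : 3 * (k + 1) = 3 * k + 3 := by ring
        rw [e1]
        obtain ⟨s, s', hs1, hs2, hs3, hs4, hs5⟩ := hc (3 * k + 3) 0 (by omega) (by omega) (by omega)
        rw [hP0, Nat.zero_add] at hs5
        rcases mod_cases h3 hs4 (by omega) hs5.symm with h9 | h9 <;> omega
    have := key p le_rfl
    omega
  · have key : ∀ k, k ≤ p → ∃ T, T + P (3 * k) = k * q ∧ k ≤ T ∧ T + 1 ≤ p := by
      intro k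
      induction k with
      | zero =>
        intro _
        refine ⟨0, ?_, le_rfl, by omega⟩
        rw [Nat.mul_zero, hP0]
        omega
      | succ k ih =>
        intro hk
        obtain ⟨T, h1, h2, h2'⟩ := ih (by omega)
        have h4 := hP3 (3 * k) (by omega)
        have h5 := hsame (3 * k) (by omega)
        have h6 := he (3 * k) (by omega)
        have h7 := he (3 * k + 1) (by omega)
        have h8 := he (3 * k + 2) (by omega)
        have e1 : 3 * (k + 1) = 3 * k + 3 := by ring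
        rw [e1]
        have e2 : (k + 1) * q = k * q + q := by ring
        obtain ⟨s, s', hs1, hs2, hs3, hs4, hs5⟩ := hc (3 * k + 3) 0 (by omega) (by omega) (by omega)
        rw [hP0, Nat.zero_add] at hs5
        set Δ := e (3 * k) + e (3 * k + 1) + e (3 * k + 2) with hΔ
        have h9 : T + (q - Δ) + P (3 * k + 3) = (k + 1) * q := by
          rw [h4, e2]
          omega
        have h10 : ((s : ℕ) : ZMod q) = ((s' + (T + (q - Δ)) : ℕ) : ZMod q) := by
          have h11 : ((T + (q - Δ) + P (3 * k + 3) : ℕ) : ZMod q) = 0 := by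
            rw [h9]
            push_cast
            rw [ZMod.natCast_self]
            ring
          rw [Nat.cast_add s', ← hs5, ← Nat.cast_add]
          have e3 : P (3 * k + 3) + s + (T + (q - Δ)) = (T + (q - Δ) + P (3 * k + 3)) + s := by ring
          rw [e3, Nat.cast_add _ s, h11, zero_add]
        refine ⟨T + (q - Δ), h9, by omega, ?_⟩
        rcases mod_cases h3 hs2 (by omega) h10 with h12 | h12 <;> omega
    obtain ⟨T, -, h1, h2⟩ := key p le_rfl
    omega

end G4CirAux

open G4CirAux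

theorem cir3_core_block {q p : ℕ} [NeZero q] (hp : 1 ≤ p) (h3 : 3 * p < q) :
    ∃ N : ℕ, ∀ (W : Type) (S : W → W → W → Prop) (lam : W → ZMod 3) (Y : ℕ → Set W)
      (L t0 : ℕ), t0 + N ≤ L → GBlock S lam L Y → ∀ h : ℕ → W → Option (ZMod q),
      (∀ m, m < N → ∀ w₁ w₂ v, w₁ ∈ Y L → w₂ ∈ Y L → v ∈ Y L →
        v ::ₘ w₁ ::ₘ {w₂} ∈ relE S → h (m + 1) v ::ₘ h m w₁ ::ₘ {h m w₂} ∈ CirPat 3 q p) →
      (∀ m, m < N → ∀ w v, Kid 3 (relE S) (Y L) w v →
        h m v ::ₘ h m w ::ₘ {h (m + 1) w} ∈ CirPat 3 q p) →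
      (∀ m, m ≤ N → ∀ v, (∃ w, Kid 3 (relE S) (Y L) w v) → ∃ u, h m v = some u) →
      ∀ w0, (∃ w, Kid 3 (relE S) (Y t0) w w0) → ∀ u w : ZMod q, h 0 w0 = some u →
        h 1 w0 = some w → ¬ (w = u ∨ u - w ∈ Spos q p) := by
  classical
  refine ⟨(p + 1) * (3 * p + 2) + 3 * p + 5, ?_⟩
  intro V S lam Y L t0 hL hY h hA hB hC w0 hw0 u w hu hw hcon
  set N := (p + 1) * (3 * p + 2) + 3 * p + 5 with hN
  set E := relE S with hE
  have hEiff : ∀ x y z, z ::ₘ x ::ₘ {y} ∈ E ↔ S x y z := relE_iff hY.sym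
  have hmono : ∀ s t, s ≤ t → t ≤ L → Y s ⊆ Y t := by
    intro s t hst
    induction t, hst using Nat.le_induction with
    | base => exact fun _ => subset_rfl
    | succ t ht ih => exact fun h1 => (ih (by omega)).trans (hY.mono t (by omega))
  -- children
  have hchild : ∀ t, t < L → ∀ a ∈ Y t, ∃ b ∈ Y (t + 1),
      b ::ₘ Multiset.replicate (3 - 1) a ∈ E := by
    intro t ht a ha
    obtain ⟨v, hv, h1, -⟩ := hY.meet t ht a ha a ha a ha a ha rfl
    exact ⟨v, hv, (hEiff a a v).2 h1⟩
  set D := Rch E Y t0 w0 with hD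
  -- members of `D n`
  have hDY : ∀ n, t0 + n ≤ L → ∀ a ∈ D n, a ∈ Y (t0 + n) ∧ ∃ w, Kid 3 E (Y L) w a := by
    intro n
    induction n with
    | zero =>
      intro _ a ha
      have ha' : a = w0 := ha
      subst ha'
      obtain ⟨w', hw'⟩ := hw0
      exact ⟨hw'.2.1, w', hmono _ _ (by omega) le_rfl hw'.1, hmono _ _ (by omega) le_rfl hw'.2.1,
        hw'.2.2⟩
    | succ n ih =>
      intro hn a ha
      rcases ha with ha | ⟨ha1, a', ha2, ha3⟩
      · have h1 := ih (by omega) a ha
        exact ⟨hmono _ _ (by omega) hn h1.1, h1.2⟩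
      · have h1 := ih (by omega) a' ha2
        exact ⟨ha1, a', hmono _ _ (by omega) le_rfl h1.1, hmono _ _ hn le_rfl ha1, ha3⟩
  have hDchild : ∀ n, t0 + n < L → ∀ a ∈ D n, ∃ b ∈ D (n + 1), Kid 3 E (Y L) a b := by
    intro n hn a ha
    have h1 := (hDY n hn.le a ha).1
    obtain ⟨b, hb1, hb2⟩ := hchild _ hn a h1
    exact ⟨b, Or.inr ⟨hb1, a, ha, hb2⟩, hmono _ _ hn.le le_rfl h1,
      hmono _ _ (by omega) le_rfl hb1, hb2⟩
  -- constant values
  have hcst : ∀ n, n ≤ 3 * p → ∀ a ∈ D n, Cst h N a (1 + n * (p + 1)) := by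
    intro n
    induction n with
    | zero =>
      intro _ a ha
      have ha' : a = w0 := ha
      obtain ⟨b, -, hb⟩ := hDchild 0 (by omega) a ha
      have h1 := (hDY 0 (by omega) a ha).2
      have h2 : vl h 0 a = u := by rw [ha', vl, hu]; rfl
      have h4 : vl h (0 + 1) a = w := by rw [ha', vl, hw]; rfl
      have h5 := cst_of_types h3 hA hB hC h1 hb (m := 0) (by rw [h2, h4]; exact hcon)
      exact h5.mono (by omega)
    | succ n ih =>
      intro hn a ha
      have hm : (n + 1) * (p + 1) = n * (p + 1) + (p + 1) := by ring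
      rcases ha with ha | ⟨ha1, a', ha2, ha3⟩
      · exact (ih (by omega) a ha).mono (by omega)
      · have hle : n * (p + 1) ≤ 3 * p * (p + 1) := Nat.mul_le_mul_right _ (by omega)
        have hbig : (p + 1) * (3 * p + 2) = 3 * p * (p + 1) + 2 * (p + 1) := by ring
        have h1 := hDY n (by omega) a' ha2
        have h2 : Kid 3 E (Y L) a' a :=
          ⟨hmono _ _ (by omega) le_rfl h1.1, hmono _ _ (by omega) le_rfl ha1, ha3⟩
        obtain ⟨c, -, hc⟩ := hDchild (n + 1) (by omega) a (Or.inr ⟨ha1, a', ha2, ha3⟩)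
        have h4 := cst_child h3 hA hB hC h1.2 h2 hc (ih (by omega) a' ha2) (by omega)
        exact h4.mono (by omega)
  set M := 1 + 3 * p * (p + 1) with hM
  have hMN : M < N := by
    have : (p + 1) * (3 * p + 2) = 3 * p * (p + 1) + 2 * (p + 1) := by ring
    omega
  have hcstM : ∀ n, n ≤ 3 * p → ∀ a ∈ D n, Cst h N a M := fun n hn a ha =>
    (hcst n hn a ha).mono (by
      have : n * (p + 1) ≤ 3 * p * (p + 1) := Nat.mul_le_mul_right _ hn
      omega)
  -- the sequence
  have hnext : ∀ n a, ∃ b, t0 + n < L → a ∈ D n → b ∈ D (n + 1) ∧ Kid 3 E (Y L) a b := by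
    intro n a
    by_cases h1 : t0 + n < L ∧ a ∈ D n
    · obtain ⟨b, hb1, hb2⟩ := hDchild n h1.1 a h1.2
      exact ⟨b, fun _ _ => ⟨hb1, hb2⟩⟩
    · exact ⟨a, fun h2 h4 => absurd ⟨h2, h4⟩ h1⟩
  choose nx hnx using hnext
  set a : ℕ → V := fun n => Nat.rec w0 (fun n b => nx n b) n with ha
  have ha0 : a 0 = w0 := rfl
  have hasucc : ∀ n, a (n + 1) = nx n (a n) := fun n => rfl
  have haD : ∀ n, n ≤ 3 * p + 1 → a n ∈ D n := by
    intro n
    induction n with
    | zero => exact fun _ => rfl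
    | succ n ih =>
      intro hn
      rw [hasucc]
      exact (hnx n (a n) (by omega) (ih (by omega))).1
  have haK : ∀ n, n ≤ 3 * p → Kid 3 E (Y L) (a n) (a (n + 1)) := by
    intro n hn
    rw [hasucc]
    exact (hnx n (a n) (by omega) (haD n (by omega))).2
  have hkid : ∀ n, n ≤ 3 * p → ∀ b, Kid 3 E (Y L) (a n) b →
      vl h M b - vl h M (a n) ∈ Spos q p := by
    intro n hn b hb
    exact child_val h3 hB hC (hDY n (by omega) _ (haD n (by omega))).2 hb
      (hcstM n hn _ (haD n (by omega))) le_rfl hMN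
  -- grades
  have hgr : ∀ n, n ≤ 3 * p → lam (a (n + 1)) = lam (a n) + 1 := by
    intro n hn
    obtain ⟨h1, h2, h4⟩ := haK n hn
    have h5 : S (a n) (a n) (a (n + 1)) := (hEiff _ _ _).1 h4
    have h6 := hY.sum _ h1 _ h1 _ h2 h5
    have h7 : ∀ x y : ZMod 3, x + x + y = 1 → y = x + 1 := by decide
    exact h7 _ _ h6
  have hgr2 : ∀ n, n ≤ 3 * p → lam (a n) = lam w0 + (n : ZMod 3) := by
    intro n
    induction n with
    | zero =>
      intro _
      rw [ha0, Nat.cast_zero, add_zero]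
    | succ n ih =>
      intro hn
      rw [hgr n (by omega), ih (by omega)]
      push_cast
      ring
  -- increments
  have hinc : ∀ n, ∃ e : ℕ, n < 3 * p → 1 ≤ e ∧ e ≤ p ∧
      vl h M (a (n + 1)) = vl h M (a n) + (e : ZMod q) := by
    intro n
    by_cases hn : n < 3 * p
    · obtain ⟨j, hj1, hj2, hj3⟩ := hkid n hn.le _ (haK n hn.le)
      refine ⟨j, fun _ => ⟨hj1, hj2, ?_⟩⟩
      rw [← hj3]
      ring
    · exact ⟨0, fun h1 => absurd h1 hn⟩
  choose e he using hinc
  have hP : ∀ n, n ≤ 3 * p → vl h M (a n) = vl h M w0 + ((∑ i ∈ Finset.range n, e i : ℕ) : ZMod q) := by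
    intro n
    induction n with
    | zero =>
      intro _
      rw [ha0, Finset.range_zero, Finset.sum_empty, Nat.cast_zero, add_zero]
    | succ n ih =>
      intro hn
      rw [(he n (by omega)).2.2, ih (by omega), Finset.sum_range_succ, Nat.cast_add, add_assoc]
  refine arith hp h3 e (fun n => ∑ i ∈ Finset.range n, e i) (by simp) (fun j _ => ?_)
    (fun j hj => ⟨(he j hj).1, (he j hj).2.1⟩) (fun i j hi hj hij => ?_)
  · rw [Finset.sum_range_succ]
  · have hi1 : a i ∈ Y (t0 + 3 * p) := hmono _ _ (by omega) (by omega)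
      (hDY i (by omega) _ (haD i (by omega))).1
    have hj1 : a j ∈ Y (t0 + 3 * p) := hmono _ _ (by omega) (by omega)
      (hDY j (by omega) _ (haD j (by omega))).1
    have hlam : lam (a i) = lam (a j) := by
      rw [hgr2 i hi, hgr2 j hj, (ZMod.natCast_eq_natCast_iff' i j 3).2 hij]
    obtain ⟨c, hc, hc1, hc2⟩ := hY.meet (t0 + 3 * p) (by omega) _ hi1 _ hi1 _ hj1 _ hj1
      (by rw [hlam])
    have hcL : c ∈ Y L := hmono _ _ (by omega) le_rfl hc
    have hiL : a i ∈ Y L := hmono _ _ (by omega) le_rfl hi1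
    have hjL : a j ∈ Y L := hmono _ _ (by omega) le_rfl hj1
    obtain ⟨s, hs1, hs2, hs3⟩ := hkid i hi c ⟨hiL, hcL, (hEiff _ _ _).2 hc1⟩
    obtain ⟨s', hs1', hs2', hs3'⟩ := hkid j hj c ⟨hjL, hcL, (hEiff _ _ _).2 hc2⟩
    refine ⟨s, s', hs1, hs2, hs1', hs2', ?_⟩
    have h4 : vl h M (a i) + (s : ZMod q) = vl h M (a j) + (s' : ZMod q) := by
      rw [← hs3, ← hs3']
      ring
    rw [hP i hi, hP j hj, add_assoc, add_assoc] at h4
    have h5 := add_left_cancel h4
    rw [Nat.cast_add, Nat.cast_add]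
    exact h5

end CodegDens
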