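import Pool.Agent.Lib.MP_81e58e_co.L3Irr
import Pool.Agent.Lib.MP_81e58e_co.G4CirBlock

/-!
# Irreducibility of the circle patterns against chains and a graded block
(problem MP_81e58e_co, module G4Cir)
-/

set_option autoImplicit false

namespace CodegDens

open Finset Filter Topology

/-- The part of the argument that needs only children: some coordinate carries the data of the
one-coordinate modules. -/
theorem g4cir_reduce {q p N : ℕ} (hp : 1 ≤ p) (h3 : 3 * p < q) {ι : Type} [Finite ι] [Nonempty ι]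
    {V : ι → Type} {E : ∀ i, Set (Multiset (V i))} {Y : ∀ i, ℕ → Set (V i)}
    (hne : ∀ i, (Y i 0).Nonempty)
    (hmono : ∀ i s t, s ≤ t → t ≤ N + 4 → Y i s ⊆ Y i t)
    (hchild : ∀ i t, t < N + 4 → ∀ a ∈ Y i t, ∃ v, Kid 3 (E i) (Y i (t + 1)) a v)
    {f : (∀ i, V i) → Option (ZMod q)}
    (hf : LabHomOn 3 E (fun i => Y i (N + 4)) f (CirPat 3 q p)) :
    ∃ (i : ι) (h : ℕ → V i → Option (ZMod q)),
      (∀ m, m < N → ∀ w₁ w₂ v, w₁ ∈ Y i (N + 4) → w₂ ∈ Y i (N + 4) → v ∈ Y i (N + 4) →
        v ::ₘ w₁ ::ₘ {w₂} ∈ E i → h (m + 1) v ::ₘ h m w₁ ::ₘ {h m w₂} ∈ CirPat 3 q p) ∧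
      (∀ m, m < N → ∀ w v, Kid 3 (E i) (Y i (N + 4)) w v →
        h m v ::ₘ h m w ::ₘ {h (m + 1) w} ∈ CirPat 3 q p) ∧
      (∀ m, m ≤ N → ∀ v, (∃ w, Kid 3 (E i) (Y i (N + 4)) w v) → ∃ u, h m v = some u) ∧
      ∃ w0, (∃ w, Kid 3 (E i) (Y i 1) w w0) ∧ ∃ u w : ZMod q, h 0 w0 = some u ∧
        h 1 w0 = some w ∧ (w = u ∨ u - w ∈ Spos q p) := by
  classical
  set g : (∀ i, V i) → ZMod q := fun x => (f x).getD 0 with hg'
  have hg : ∀ x : ∀ i, V i, (∀ i, ∃ w, Kid 3 (E i) (Y i (N + 4)) w (x i)) →
      f x = some (g x) := by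
    intro x hx
    obtain ⟨u, hu⟩ := cir_state (le_refl 3) hf x hx
    simp only [hg', hu, Option.getD_some]
  have hKid : ∀ i s (w v : V i), s ≤ N + 4 → Kid 3 (E i) (Y i s) w v →
      Kid 3 (E i) (Y i (N + 4)) w v := fun i s w v hs h => h.mono_set (hmono i _ _ hs le_rfl)
  have hseq : ∀ i, ∃ z : ℕ → V i, (∃ w, Kid 3 (E i) (Y i 1) w (z 0)) ∧
      ∀ m, m + 2 ≤ N + 4 → Kid 3 (E i) (Y i (m + 2)) (z m) (z (m + 1)) := by
    intro i
    obtain ⟨w0, hw0⟩ := hne i
    obtain ⟨z0, hz0⟩ := hchild i 0 (by omega) w0 hw0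
    let F : ℕ → V i → V i := fun m v =>
      if h : ∃ v', Kid 3 (E i) (Y i (m + 2)) v v' then h.choose else v
    let z : ℕ → V i := fun m => Nat.rec z0 F m
    have hz : ∀ m, z (m + 1) = F m (z m) := fun m => rfl
    have key : ∀ m, m + 2 ≤ N + 4 → z m ∈ Y i (m + 1) →
        Kid 3 (E i) (Y i (m + 2)) (z m) (z (m + 1)) := by
      intro m hm hmem
      obtain ⟨v, hv⟩ := hchild i (m + 1) (by omega) (z m) hmem
      have hex : ∃ v', Kid 3 (E i) (Y i (m + 2)) (z m) v' := ⟨v, hv⟩
      rw [hz m]
      simp only [F, dif_pos hex]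
      exact hex.choose_spec
    have hmem : ∀ m, m + 1 ≤ N + 4 → z m ∈ Y i (m + 1) := by
      intro m
      induction m with
      | zero => intro _; exact hz0.2.1
      | succ m ih => intro hm; exact (key m (by omega) (ih (by omega))).2.1
    exact ⟨z, ⟨w0, hz0⟩, fun m hm => key m hm (hmem m (by omega))⟩
  choose z hz0 hz using hseq
  -- the context chain
  set y : ℕ → (∀ i, V i) := fun m i => z i m with hy
  have hyk : ∀ m, m ≤ N + 1 → ∀ i, Kid 3 (E i) (Y i (N + 4)) (y m i) (y (m + 1) i) := by
    intro m hm i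
    exact hKid i (m + 2) _ _ (by omega) (hz i m (by omega))
  have hykid : ∀ m, m ≤ N + 1 → ∀ i, ∃ w, Kid 3 (E i) (Y i (N + 4)) w (y m i) := by
    intro m hm i
    cases m with
    | zero =>
      obtain ⟨w, hw⟩ := hz0 i
      exact ⟨w, hKid i 1 _ _ (by omega) hw⟩
    | succ m => exact ⟨y m i, hyk m (by omega) i⟩
  obtain ⟨i, hi⟩ := cir3_exists hp h3 hf g hg (y 0) (y 1) (hykid 0 (by omega)) (hyk 0 (by omega))
  -- points of the box
  have hupdY : ∀ (x : ∀ j, V j) (v : V i), (∀ j, x j ∈ Y j (N + 4)) → v ∈ Y i (N + 4) →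
      ∀ j, Function.update x i v j ∈ Y j (N + 4) := by
    intro x v hx hv j
    by_cases h : j = i
    · subst h; rw [Function.update_self]; exact hv
    · rw [Function.update_of_ne h]; exact hx j
  have hyY : ∀ m, m ≤ N + 1 → ∀ j, y m j ∈ Y j (N + 4) := fun m hm j => (hyk m hm j).1
  have hstate : ∀ m, m ≤ N + 1 → ∀ v, (∃ w, Kid 3 (E i) (Y i (N + 4)) w v) →
      f (Function.update (y m) i v) = some (g (Function.update (y m) i v)) := by
    intro m hm v hv
    apply hg
    intro j
    by_cases h : j = i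
    · subst h; rw [Function.update_self]; exact hv
    · rw [Function.update_of_ne h]; exact hykid m hm j
  refine ⟨i, fun m v => f (Function.update (y m) i v), ?_, ?_, ?_, y 0 i, hz0 i, g (y 0),
    g (Function.update (y 1) i (y 0 i)), ?_, ?_, ?_⟩
  · intro m hm w₁ w₂ v hw₁ hw₂ hv he
    have h := hf (Function.update (y (m + 1)) i v ::ₘ Function.update (y m) i w₁ ::ₘ
      {Function.update (y m) i w₂}) (by simp) (by
        intro j
        simp only [Multiset.map_cons, Multiset.map_singleton]
        by_cases hj : j = i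
        · subst hj
          simp only [Function.update_self]
          exact he
        · simp only [Function.update_of_ne hj]
          have h5 := (hyk m (by omega) j).2.2
          rw [l3_rep] at h5
          exact h5) (by
        intro x hx j
        simp only [Multiset.mem_cons, Multiset.mem_singleton] at hx
        rcases hx with rfl | rfl | rfl
        · exact hupdY _ _ (hyY (m + 1) (by omega)) hv j
        · exact hupdY _ _ (hyY m (by omega)) hw₁ j
        · exact hupdY _ _ (hyY m (by omega)) hw₂ j)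
    simpa only [Multiset.map_cons, Multiset.map_singleton] using h
  · intro m hm w v hwv
    have h := hf (Function.update (y m) i v ::ₘ Function.update (y m) i w ::ₘ
      {Function.update (y (m + 1)) i w}) (by simp) (by
        intro j
        simp only [Multiset.map_cons, Multiset.map_singleton]
        by_cases hj : j = i
        · subst hj
          simp only [Function.update_self]
          have h5 := hwv.2.2
          rw [l3_rep] at h5
          exact h5
        · simp only [Function.update_of_ne hj]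
          have h5 := (hyk m (by omega) j).2.2
          rw [l3_rep] at h5
          have h6 : y m j ::ₘ y m j ::ₘ {y (m + 1) j} = y (m + 1) j ::ₘ y m j ::ₘ {y m j} := by
            have e1 : ({y (m + 1) j} : Multiset (V j)) = y (m + 1) j ::ₘ 0 := rfl
            have e2 : ({y m j} : Multiset (V j)) = y m j ::ₘ 0 := rfl
            rw [e1, e2, Multiset.cons_swap (y m j) (y (m + 1) j) 0,
              Multiset.cons_swap (y m j) (y (m + 1) j)]
          rw [h6]
          exact h5) (by
        intro x hx j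
        simp only [Multiset.mem_cons, Multiset.mem_singleton] at hx
        rcases hx with rfl | rfl | rfl
        · exact hupdY _ _ (hyY m (by omega)) hwv.2.1 j
        · exact hupdY _ _ (hyY m (by omega)) hwv.1 j
        · exact hupdY _ _ (hyY (m + 1) (by omega)) hwv.1 j)
    simpa only [Multiset.map_cons, Multiset.map_singleton] using h
  · intro m hm v hv
    exact ⟨_, hstate m (by omega) v hv⟩
  · change f (Function.update (y 0) i (y 0 i)) = some (g (y 0))
    rw [Function.update_eq_self]
    exact hg _ (hykid 0 (by omega))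
  · exact hstate 1 (by omega) (y 0 i) (hykid 0 (by omega) i)
  · convert hi

/-- A rich chain of a symmetric relation is a label chain. -/
theorem RChain.labChain {V : Type} {R : V → V → V → Prop} {a : ℝ} {L : ℕ} {Y : ℕ → Set V}
    (h : RChain R a L Y) : LabChain 3 (relE R) a L Y := by
  classical
  refine ⟨h.nonempty, h.mono, fun t ht J _ s w hs hw hpos => ?_⟩
  have hx : ∀ j, ∃ x y : V, s j = {x, y} := fun j => by
    have := (hs j).1
    exact Multiset.card_eq_two.1 (by omega)
  choose x y hxy using hx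
  obtain ⟨z, hz, hlt⟩ := h.rich t ht J x y w
    (fun j => (hs j).2 _ (by rw [hxy j]; simp))
    (fun j => (hs j).2 _ (by rw [hxy j]; simp)) hw hpos
  refine ⟨z, hz, ?_⟩
  have he : ∀ j, (z ::ₘ s j ∈ relE R ↔ R (x j) (y j) z) := by
    intro j
    rw [hxy j]
    exact G4CirAux.relE_iff h.sym (x j) (y j) z
  simpa only [he] using hlt

/-- The types of all coordinates, the block included. -/
def g4V {ι : Type} (V : ι → Type) (W : Type) : Option ι → Type
  | none => W
  | some i => V i

/-- The edge sets of all coordinates. -/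
def g4E {ι : Type} {V : ι → Type} {W : Type} (R : ∀ i, V i → V i → V i → Prop)
    (S : W → W → W → Prop) : ∀ o : Option ι, Set (Multiset (g4V V W o))
  | none => relE S
  | some i => relE (R i)

/-- The levels of all coordinates. -/
def g4Y {ι : Type} {V : ι → Type} {W : Type} (Y : ∀ i, ℕ → Set (V i))
    (Z : ℕ → Set W) : ∀ o : Option ι, ℕ → Set (g4V V W o)
  | none => Z
  | some i => Y i

theorem irrG_cir3 {q p : ℕ} (hp : 1 ≤ p) (h3 : 3 * p < q) :
    IrrG (CirPat 3 q p) ((p : ℝ) / (p + q)) := by
  classical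
  have : NeZero q := ⟨by omega⟩
  obtain ⟨N1, hN1⟩ := cir3_core (q := q) hp h3
  obtain ⟨N2, hN2⟩ := cir3_core_block (q := q) hp h3
  refine ⟨max N1 N2 + 4, fun ι _ V R Y W S lam Z hY hZ f hf => ?_⟩
  set N := max N1 N2 with hN
  have hN1' : N1 ≤ N := le_max_left _ _
  have hN2' : N2 ≤ N := le_max_right _ _
  have ha : (0 : ℝ) ≤ (p : ℝ) / (p + q) := by positivity
  have hlab : ∀ i, LabChain 3 (relE (R i)) ((p : ℝ) / (p + q)) (N + 4) (Y i) :=
    fun i => (hY i).labChain
  have hmonoZ : ∀ s t, s ≤ t → t ≤ N + 4 → Z s ⊆ Z t := by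
    intro s t hst
    induction t, hst using Nat.le_induction with
    | base => exact fun _ => subset_rfl
    | succ t ht ih => exact fun h1 => (ih (by omega)).trans (hZ.mono t (by omega))
  -- the combined family
  have hne : ∀ o : Option ι, (g4Y Y Z o 0).Nonempty := by
    rintro (_ | i)
    · exact hZ.nonempty
    · exact (hY i).nonempty
  have hmono : ∀ (o : Option ι) (s t : ℕ), s ≤ t → t ≤ N + 4 → g4Y Y Z o s ⊆ g4Y Y Z o t := by
    rintro (_ | i) s t hst ht
    · exact hmonoZ s t hst ht
    · exact (hlab i).mono_le hst ht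
  have hchild : ∀ (o : Option ι) (t : ℕ), t < N + 4 → ∀ a ∈ g4Y Y Z o t,
      ∃ v, Kid 3 (g4E R S o) (g4Y Y Z o (t + 1)) a v := by
    rintro (_ | i) t ht a hat
    · obtain ⟨z, hz, hz1, -⟩ := hZ.meet t ht a hat a hat a hat a hat rfl
      exact ⟨z, hZ.mono t ht hat, hz, (G4CirAux.relE_iff hZ.sym a a z).2 hz1⟩
    · exact (hlab i).exists_child (k := 3) (by omega) ha ht hat
  let f' : (∀ o : Option ι, g4V V W o) → Option (ZMod q) :=
    fun x => f (fun i => x (some i)) (x none)
  have hf' : LabHomOn 3 (g4E R S) (fun o => g4Y Y Z o (N + 4)) f' (CirPat 3 q p) := by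
    intro e he hE hYe
    obtain ⟨x, y, z, rfl⟩ := Multiset.card_eq_three.1 he
    have hx : ∀ o, x o ∈ g4Y Y Z o (N + 4) := hYe x (by simp)
    have hy : ∀ o, y o ∈ g4Y Y Z o (N + 4) := hYe y (by simp)
    have hz : ∀ o, z o ∈ g4Y Y Z o (N + 4) := hYe z (by simp)
    have hR : ∀ i, R i (x (some i)) (y (some i)) (z (some i)) := by
      intro i
      have h1 := hE (some i)
      have h2 : Multiset.map (fun t : ∀ o : Option ι, g4V V W o => t (some i)) {x, y, z} =
          (x (some i) ::ₘ y (some i) ::ₘ {z (some i)} : Multiset (V i)) := by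
        rfl
      rw [h2] at h1
      have h4 := (G4CirAux.relE_iff (hY i).sym (y (some i)) (z (some i)) (x (some i))).1 h1
      exact (hY i).sym.s12 _ _ _ ((hY i).sym.s23 _ _ _ h4)
    have hS : S (x none) (y none) (z none) := by
      have h1 := hE none
      have h2 : Multiset.map (fun t : ∀ o : Option ι, g4V V W o => t none) {x, y, z} =
          (x none ::ₘ y none ::ₘ {z none} : Multiset W) := by
        rfl
      rw [h2] at h1
      have h4 := (G4CirAux.relE_iff hZ.sym (y none) (z none) (x none)).1 h1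
      exact hZ.sym.s12 _ _ _ (hZ.sym.s23 _ _ _ h4)
    have h5 := hf (fun i => x (some i)) (fun i => y (some i)) (fun i => z (some i))
      (fun i => hx (some i)) (fun i => hy (some i)) (fun i => hz (some i)) hR
      (x none) (hx none) (y none) (hy none) (z none) (hz none) hS
    exact h5
  obtain ⟨o, h, hA, hB, hC, w0, hw0, u, w, hu, hw, hcon⟩ :=
    g4cir_reduce hp h3 hne hmono hchild hf'
  rcases o with _ | i
  · exact hN2 W S lam Z (N + 4) 1 (by omega) hZ h
      (fun m hm => hA m (by omega)) (fun m hm => hB m (by omega))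
      (fun m hm => hC m (by omega)) w0 hw0 u w hu hw hcon
  · exact hN1 (V i) (relE (R i)) (Y i) (N + 4) 1 (by omega) (hlab i) h
      (fun m hm => hA m (by omega)) (fun m hm => hB m (by omega))
      (fun m hm => hC m (by omega)) w0 hw0 u w hu hw hcon

end CodegDens
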