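import Pool.Agent.Lib.MP_81e58e_co.G4Defs

/-!
# Selection of a class (problem MP_81e58e_co)
-/

set_option autoImplicit false

namespace CodegDens

open Finset

namespace G4ClassAux

theorem t4_eq : ∀ u w : ZMod 4, T4 u u w → w = u ∨ w = u + 1 := by decide

theorem exists_succ_notMem (E : Set (ZMod 4)) (h : E.Nonempty) (h' : E ≠ Set.univ) :
    ∃ u ∈ E, u + 1 ∉ E := by
  by_contra hc
  push Not at hc
  obtain ⟨u, hu⟩ := h
  apply h'
  have h1 := hc u hu
  have h2 := hc _ h1
  have h3 := hc _ h2
  ext w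
  simp only [Set.mem_univ, iff_true]
  have : ∀ u w : ZMod 4, w = u ∨ w = u + 1 ∨ w = u + 1 + 1 ∨ w = u + 1 + 1 + 1 := by decide
  rcases this u w with e | e | e | e <;> rw [e] <;> assumption

/-- The elements of level `t` in class `u`. -/
def AA {V : Type} (Y : ℕ → Set V) (φ : V → ZMod 4) (u : ZMod 4) (t : ℕ) : Set V :=
  {v | v ∈ Y t ∧ φ v = u}

theorem not_richS {V : Type} {R : V → V → V → Prop} {x : ℝ} {A B : Set V}
    (h : ¬ RichS R x A B) : ∃ (J : Type) (_ : Fintype J) (p q : J → V) (w : J → ℝ),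
      (∀ j, p j ∈ A) ∧ (∀ j, q j ∈ A) ∧ (∀ j, 0 ≤ w j) ∧ 0 < ∑ j, w j ∧
      ∀ z ∈ B, ∑ j, (open Classical in if R (p j) (q j) z then w j else 0) ≤ x * ∑ j, w j := by
  unfold RichS at h
  push Not at h
  exact h

theorem mono_le {V : Type} {Y : ℕ → Set V} {K : ℕ} (h : ∀ t, t < K → Y t ⊆ Y (t + 1))
    {s t : ℕ} (hst : s ≤ t) (ht : t ≤ K) : Y s ⊆ Y t := by
  induction t, hst using Nat.le_induction with
  | base => exact fun _ h => h
  | succ t _ ih => exact (ih (by omega)).trans (h t (by omega))

/-- One step at which the set of classes does not change has a good class. -/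
theorem good {V : Type} {R : V → V → V → Prop} {Y : ℕ → Set V} {x : ℝ} (hx0 : 0 ≤ x)
    (hx : x ≤ 1 / 3) {K : ℕ} (h : RChain R ((1 + x) / 4) K Y) (φ : V → ZMod 4)
    (hφ : ∀ p ∈ Y K, ∀ q ∈ Y K, ∀ r ∈ Y K, R p q r → T4 (φ p) (φ q) (φ r)) {t : ℕ}
    (ht : t < K) (hE : ∀ u, (AA Y φ u (t + 1)).Nonempty → (AA Y φ u t).Nonempty) :
    ∃ u, (AA Y φ u t).Nonempty ∧ RichS R x (AA Y φ u t) (AA Y φ u (t + 1)) := by
  classical
  have hsub : Y t ⊆ Y K := mono_le h.mono ht.le le_rfl
  have hsub' : Y (t + 1) ⊆ Y K := mono_le h.mono ht le_rfl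
  -- the class of an answer
  have hcl : ∀ u p q z, p ∈ AA Y φ u t → q ∈ AA Y φ u t → z ∈ Y (t + 1) → R p q z →
      φ z = u ∨ φ z = u + 1 := by
    intro u p q z hp hq hz hR
    have := hφ p (hsub hp.1) q (hsub hq.1) z (hsub' hz) hR
    rw [hp.2, hq.2] at this
    exact t4_eq _ _ this
  set E : Set (ZMod 4) := {u | (AA Y φ u t).Nonempty} with hEd
  have hEne : E.Nonempty := by
    obtain ⟨v, hv⟩ := h.nonempty
    exact ⟨φ v, v, mono_le h.mono (Nat.zero_le _) ht.le hv, rfl⟩
  by_cases hEu : E = Set.univ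
  · -- all classes occur
    by_contra hc
    push Not at hc
    have hbad : ∀ u, ¬ RichS R x (AA Y φ u t) (AA Y φ u (t + 1)) := fun u =>
      hc u (by
        have : u ∈ E := hEu ▸ Set.mem_univ u
        exact this)
    choose J hJ p q w hp hq hw hpos hle using fun u => not_richS (hbad u)
    have hW : ∀ u, ∑ j, w u j / ∑ j, w u j = 1 := by
      intro u
      rw [← Finset.sum_div, div_self (hpos u).ne']
    obtain ⟨z, hz, hlt⟩ := h.rich t ht (Σ u, J u) (fun s => p s.1 s.2) (fun s => q s.1 s.2)
      (fun s => w s.1 s.2 / ∑ j, w s.1 j) (fun s => (hp _ _).1) (fun s => (hq _ _).1)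
      (fun s => div_nonneg (hw _ _) (hpos _).le) (by
        rw [Fintype.sum_sigma]
        simp only [hW]
        simp)
    rw [Fintype.sum_sigma] at hlt
    simp only [hW] at hlt
    rw [Fintype.sum_sigma] at hlt
    have hin : ∀ u, ∑ j, (if R (p u j) (q u j) z then w u j / ∑ j, w u j else 0) ≤
        (if u = φ z then x else 0) + (if u = φ z - 1 then 1 else 0) := by
      intro u
      have hne : ∀ c : ZMod 4, c ≠ c - 1 := by decide
      by_cases h1 : u = φ z
      · have h2 : u ≠ φ z - 1 := by rw [h1]; exact hne _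
        rw [if_pos h1, if_neg h2, add_zero]
        have h3 := hle u z ⟨hz, h1.symm⟩
        have h4 : ∑ j, (if R (p u j) (q u j) z then w u j / ∑ j, w u j else 0) =
            (∑ j, if R (p u j) (q u j) z then w u j else 0) / ∑ j, w u j := by
          rw [Finset.sum_div]
          refine Finset.sum_congr rfl fun j _ => ?_
          split_ifs <;> simp
        rw [h4, div_le_iff₀ (hpos u)]
        exact h3
      · by_cases h2 : u = φ z - 1
        · rw [if_neg h1, if_pos h2, zero_add]
          calc _ ≤ ∑ j, w u j / ∑ j, w u j := by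
                refine Finset.sum_le_sum fun j _ => ?_
                split_ifs
                · exact le_rfl
                · exact div_nonneg (hw _ _) (hpos _).le
            _ = 1 := hW u
        · rw [if_neg h1, if_neg h2, add_zero]
          refine le_of_eq (Finset.sum_eq_zero fun j _ => ?_)
          rw [if_neg]
          intro hR
          rcases hcl u _ _ z (hp u j) (hq u j) hz hR with e | e
          · exact h1 e.symm
          · exact h2 (by rw [e]; ring)
    have hsum := Finset.sum_le_sum (fun u (_ : u ∈ (Finset.univ : Finset (ZMod 4))) => hin u)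
    rw [Finset.sum_add_distrib, Finset.sum_ite_eq', Finset.sum_ite_eq'] at hsum
    simp only [Finset.mem_univ, if_true] at hsum
    have hcard : ∑ _u : ZMod 4, (1 : ℝ) = 4 := by simp
    rw [hcard] at hlt
    have := hlt.trans_le hsum
    linarith
  · -- some class does not occur
    obtain ⟨u, hu, hu'⟩ := exists_succ_notMem E hEne hEu
    refine ⟨u, hu, ?_⟩
    intro J _ p q w hp hq hw hpos
    obtain ⟨z, hz, hlt⟩ := h.rich t ht J p q w (fun j => (hp j).1) (fun j => (hq j).1) hw hpos
    have hex : ∃ j, R (p j) (q j) z := by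
      by_contra hc
      push Not at hc
      have h0 : ∑ j, (if R (p j) (q j) z then w j else 0) = 0 :=
        Finset.sum_eq_zero fun j _ => if_neg (hc j)
      rw [h0] at hlt
      have : 0 ≤ (1 + x) / 4 * ∑ j, w j := mul_nonneg (by linarith) hpos.le
      linarith
    obtain ⟨j, hj⟩ := hex
    refine ⟨z, ⟨hz, ?_⟩, ?_⟩
    · rcases hcl u _ _ z (hp j) (hq j) hz hj with e | e
      · exact e
      · exact absurd (hE (u + 1) ⟨z, hz, e⟩) hu'
    · refine lt_of_le_of_lt ?_ hlt
      exact mul_le_mul_of_nonneg_right (by linarith) hpos.le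

/-- The number of steps at which the set of classes changes is at most three. -/
theorem steps {V : Type} {Y : ℕ → Set V} {K : ℕ} (hne : (Y 0).Nonempty)
    (hm : ∀ t, t < K → Y t ⊆ Y (t + 1)) (φ : V → ZMod 4) :
    ∃ T : Finset ℕ, (∀ t ∈ T, t < K ∧
      ∀ u, (AA Y φ u (t + 1)).Nonempty → (AA Y φ u t).Nonempty) ∧ K ≤ T.card + 3 := by
  classical
  set e : ℕ → ℕ := fun t => (Finset.univ.filter fun u => (AA Y φ u t).Nonempty).card with he
  set T : Finset ℕ := (Finset.range K).filter fun t =>
    ∀ u, (AA Y φ u (t + 1)).Nonempty → (AA Y φ u t).Nonempty with hT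
  refine ⟨T, fun t ht => ?_, ?_⟩
  · rw [hT, Finset.mem_filter, Finset.mem_range] at ht
    exact ht
  · have hsub : ∀ t, t < K → (Finset.univ.filter fun u => (AA Y φ u t).Nonempty) ⊆
        (Finset.univ.filter fun u => (AA Y φ u (t + 1)).Nonempty) := by
      intro t ht u hu
      rw [Finset.mem_filter] at hu ⊢
      obtain ⟨v, hv⟩ := hu.2
      exact ⟨Finset.mem_univ _, v, hm t ht hv.1, hv.2⟩
    have key : ∀ n, n ≤ K → ((Finset.range n).filter fun t =>
        ¬ ∀ u, (AA Y φ u (t + 1)).Nonempty → (AA Y φ u t).Nonempty).card + 1 ≤ e n := by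
      intro n
      induction n with
      | zero =>
        intro _
        simp only [Finset.range_zero, Finset.filter_empty, Finset.card_empty, zero_add, he]
        obtain ⟨v, hv⟩ := hne
        exact Finset.card_pos.2 ⟨φ v, by
          rw [Finset.mem_filter]
          exact ⟨Finset.mem_univ _, v, hv, rfl⟩⟩
      | succ n ih =>
        intro hn
        have h1 := ih (by omega)
        have h2 := Finset.card_le_card (hsub n (by omega))
        rw [Finset.range_add_one, Finset.filter_insert]
        by_cases hc : ∀ u, (AA Y φ u (n + 1)).Nonempty → (AA Y φ u n).Nonempty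
        · rw [if_neg (not_not.2 hc)]
          exact h1.trans h2
        · rw [if_pos hc, Finset.card_insert_of_notMem (by simp)]
          have h3 : (Finset.univ.filter fun u => (AA Y φ u n).Nonempty) ⊂
              (Finset.univ.filter fun u => (AA Y φ u (n + 1)).Nonempty) := by
            refine (Finset.ssubset_iff_of_subset (hsub n (by omega))).2 ?_
            push Not at hc
            obtain ⟨u, hu, hu'⟩ := hc
            refine ⟨u, ?_, ?_⟩
            · rw [Finset.mem_filter]
              exact ⟨Finset.mem_univ _, hu⟩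
            · rw [Finset.mem_filter]
              intro h4
              rw [hu'] at h4
              exact Set.not_nonempty_empty h4.2
          have h4 := Finset.card_lt_card h3
          simp only [he] at h1 ⊢
          omega
    have h1 := key K le_rfl
    have h2 : e K ≤ 4 := by
      have := Finset.card_le_univ (Finset.univ.filter fun u => (AA Y φ u K).Nonempty)
      simpa using this
    have h3 : T.card + ((Finset.range K).filter fun t =>
        ¬ ∀ u, (AA Y φ u (t + 1)).Nonempty → (AA Y φ u t).Nonempty).card =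
        (Finset.range K).card := by
      rw [hT]
      exact Finset.card_filter_add_card_filter_not _
    rw [Finset.card_range] at h3
    omega

end G4ClassAux

open G4ClassAux in
theorem g4_class (n : ℕ) (x : ℝ) (hx0 : 0 ≤ x) (hx : x ≤ 1 / 3) {V : Type}
    {R : V → V → V → Prop} {Y : ℕ → Set V} (h : RChain R ((1 + x) / 4) (4 * (n + 1) + 3) Y)
    (φ : V → ZMod 4) (hφ : ∀ p ∈ Y (4 * (n + 1) + 3), ∀ q ∈ Y (4 * (n + 1) + 3),
      ∀ r ∈ Y (4 * (n + 1) + 3), R p q r → T4 (φ p) (φ q) (φ r)) :
    ∃ (u : ZMod 4) (Y' : ℕ → Set V), RChain R x n Y' ∧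
      ∀ j, j ≤ n → Y' j ⊆ Y (4 * (n + 1) + 3) ∧ ∀ v ∈ Y' j, φ v = u := by
  classical
  set K := 4 * (n + 1) + 3 with hK
  obtain ⟨T, hT, hTc⟩ := steps h.nonempty h.mono φ
  have hgood : ∀ t ∈ T, ∃ u, (AA Y φ u t).Nonempty ∧
      RichS R x (AA Y φ u t) (AA Y φ u (t + 1)) := fun t ht =>
    good hx0 hx h φ hφ (hT t ht).1 (hT t ht).2
  choose! c hc using hgood
  -- pigeonhole
  have hph : ∃ u, n + 1 ≤ (T.filter fun t => c t = u).card := by
    by_contra hcon
    push Not at hcon
    have h1 : T.card = ∑ u : ZMod 4, (T.filter fun t => c t = u).card :=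
      Finset.card_eq_sum_card_fiberwise (fun t _ => Finset.mem_coe.2 (Finset.mem_univ _))
    have h2 : ∑ u : ZMod 4, (T.filter fun t => c t = u).card ≤ ∑ _u : ZMod 4, n :=
      Finset.sum_le_sum fun u _ => by have := hcon u; omega
    have h3 : ∑ _u : ZMod 4, n = 4 * n := by simp
    omega
  obtain ⟨u, hu⟩ := hph
  obtain ⟨S, hS, hSc⟩ := Finset.exists_subset_card_eq hu
  set em := S.orderEmbOfFin hSc with hem
  have hemS : ∀ i, em i ∈ S := fun i => Finset.orderEmbOfFin_mem S hSc i
  have hmemT : ∀ i, em i ∈ T ∧ c (em i) = u := fun i => by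
    have := hS (hemS i)
    rwa [Finset.mem_filter] at this
  set idx : ℕ → Fin (n + 1) := fun j => ⟨min j n, by omega⟩ with hidx
  refine ⟨u, fun j => AA Y φ u (em (idx j)), ⟨h.sym, ?_, ?_, ?_⟩, ?_⟩
  · have := (hc _ (hmemT (idx 0)).1).1
    rwa [(hmemT (idx 0)).2] at this
  · intro t ht v hv
    have hle : em (idx t) ≤ em (idx (t + 1)) := by
      apply em.monotone
      simp only [hidx, Fin.mk_le_mk]
      omega
    exact ⟨mono_le h.mono hle (hT _ (hmemT _).1).1.le hv.1, hv.2⟩
  · intro t ht
    have hlt : em (idx t) < em (idx (t + 1)) := by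
      apply em.strictMono
      simp only [hidx, Fin.mk_lt_mk]
      omega
    have h1 := (hc _ (hmemT (idx t)).1).2
    rw [(hmemT (idx t)).2] at h1
    intro J _ p q w hp hq hw hpos
    obtain ⟨z, hz, hz'⟩ := h1 J p q w hp hq hw hpos
    exact ⟨z, ⟨mono_le h.mono hlt (hT _ (hmemT _).1).1.le hz.1, hz.2⟩, hz'⟩
  · intro j _
    exact ⟨fun v hv => mono_le h.mono (hT _ (hmemT _).1).1.le le_rfl hv.1, fun v hv => hv.2⟩

end CodegDens
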