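import Pool.Agent.Lib.MP_81e58e_co.E3Defs

/-!
# The step `x -> (1+x)/4` for `k = 3`: definitions (problem MP_81e58e_co)
-/

namespace CodegDens

/-- One rich step: every finite weighted family of pairs of `A` with positive total weight has a
common completion in `B` of more than `a` times the total weight. -/
def RichS {T : Type} (R : T → T → T → Prop) (a : ℝ) (A B : Set T) : Prop :=
  ∀ (J : Type) [Fintype J] (x y : J → T) (w : J → ℝ), (∀ j, x j ∈ A) → (∀ j, y j ∈ A) →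
    (∀ j, 0 ≤ w j) → 0 < ∑ j, w j →
    ∃ z ∈ B, a * ∑ j, w j < ∑ j, (open Classical in if R (x j) (y j) z then w j else 0)

/-- A rich chain of depth `L` for a symmetric ternary relation. -/
structure RChain {V : Type} (R : V → V → V → Prop) (a : ℝ) (L : ℕ) (Y : ℕ → Set V) : Prop where
  sym : Sym3 R
  nonempty : (Y 0).Nonempty
  mono : ∀ t, t < L → Y t ⊆ Y (t + 1)
  rich : ∀ t, t < L → RichS R a (Y t) (Y (t + 1))

/-- A graded block of depth `L`: the grades of an edge have sum `1`, and any two pairs with the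
same sum of grades have a common completion in the next level. -/
structure GBlock {W : Type} (S : W → W → W → Prop) (lam : W → ZMod 3) (L : ℕ)
    (Z : ℕ → Set W) : Prop where
  sym : Sym3 S
  nonempty : (Z 0).Nonempty
  mono : ∀ t, t < L → Z t ⊆ Z (t + 1)
  sum : ∀ x ∈ Z L, ∀ y ∈ Z L, ∀ z ∈ Z L, S x y z → lam x + lam y + lam z = 1
  meet : ∀ t, t < L → ∀ x ∈ Z t, ∀ y ∈ Z t, ∀ x' ∈ Z t, ∀ y' ∈ Z t,
    lam x + lam y = lam x' + lam y' → ∃ z ∈ Z (t + 1), S x y z ∧ S x' y' z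

/-- `f` maps the edges of the product of the factors and of the block to edges of `P`. -/
def HomG {ι : Type} {V : ι → Type} (R : ∀ i, V i → V i → V i → Prop) (Y : ∀ i, Set (V i))
    {W : Type} (S : W → W → W → Prop) (Z : Set W) {C : Type} (f : (∀ i, V i) → W → C)
    (P : Set (Multiset C)) : Prop :=
  ∀ x y z : ∀ i, V i, (∀ i, x i ∈ Y i) → (∀ i, y i ∈ Y i) → (∀ i, z i ∈ Y i) →
    (∀ i, R i (x i) (y i) (z i)) → ∀ u ∈ Z, ∀ v ∈ Z, ∀ w ∈ Z, S u v w →
    ({f x u, f y v, f z w} : Multiset C) ∈ P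

/-- Irreducibility of `P` against a finite (possibly empty) family of rich chains and one graded
block. -/
def IrrG {C : Type} (P : Set (Multiset C)) (a : ℝ) : Prop :=
  ∃ L : ℕ, ∀ (ι : Type) [Finite ι] (V : ι → Type) (R : ∀ i, V i → V i → V i → Prop)
    (Y : ∀ i, ℕ → Set (V i)) (W : Type) (S : W → W → W → Prop) (lam : W → ZMod 3)
    (Z : ℕ → Set W), (∀ i, RChain (R i) a L (Y i)) → GBlock S lam L Z →
    ∀ f : (∀ i, V i) → W → C, ¬ HomG R (fun i => Y i L) S (Z L) f P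

/-- The relation of the four classes: `uuu`, `u u (u+1)` and three different classes. -/
def T4 (u v w : ZMod 4) : Prop :=
  (u = v ∧ (w = u ∨ w = u + 1)) ∨ (u = w ∧ v = u + 1) ∨ (v = w ∧ u = v + 1) ∨
    (u ≠ v ∧ v ≠ w ∧ u ≠ w)

instance (u v w : ZMod 4) : Decidable (T4 u v w) := by unfold T4; infer_instance

/-- The pattern `E_4[P]` for `k = 3`. -/
def E4Pat {C : Type} (P : Set (Multiset C)) : Set (Multiset (ZMod 4 × C)) :=
  {e | ∃ x y z : ZMod 4 × C, e = {x, y, z} ∧ T4 x.1 y.1 z.1 ∧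
    (x.1 = y.1 → y.1 = z.1 → ({x.2, y.2, z.2} : Multiset C) ∈ P)}

/-- All six arrangements of every edge of `H`. -/
def Al4 {n : ℕ} (H : List (Fin n × Fin n × Fin n)) (a b c : Fin n → ZMod 4) : Prop :=
  ∀ e ∈ H, T4 (a e.1) (b e.2.1) (c e.2.2) ∧ T4 (a e.1) (b e.2.2) (c e.2.1) ∧
    T4 (a e.2.1) (b e.1) (c e.2.2) ∧ T4 (a e.2.1) (b e.2.2) (c e.1) ∧
    T4 (a e.2.2) (b e.1) (c e.2.1) ∧ T4 (a e.2.2) (b e.2.1) (c e.1)

/-- No proper nonempty subset of `U` is closed inside `U`. -/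
def IrrS {T : Type} (F : T → T → T → Prop) (U : Set T) : Prop :=
  ∀ K : Set T, K ⊆ U → K.Nonempty → (∀ x ∈ K, ∀ y ∈ K, ∀ z ∈ U, F x y z → z ∈ K) → K = U

/-- The elements generated from `v` (placed in level `s`) in at most `n` steps. -/
def gen3 {V : Type} (R : V → V → V → Prop) (Y : ℕ → Set V) (s : ℕ) (v : V) : ℕ → Set V
  | 0 => {v}
  | n + 1 => gen3 R Y s v n ∪
      {z | z ∈ Y (s + n + 1) ∧ ∃ p ∈ gen3 R Y s v n, ∃ q ∈ gen3 R Y s v n, R p q z}

/-- `U` is the set of types of everything generated from `v` in `2 H` steps, and from everything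
generated in at most `H` steps all types of `U` are generated in `H` further steps. -/
structure IsCore {V T : Type} (R : V → V → V → Prop) (Y : ℕ → Set V) (s : ℕ) (v : V) (H : ℕ)
    (κ : V → T) (U : Set T) : Prop where
  sub : ∀ x ∈ gen3 R Y s v (2 * H), κ x ∈ U
  full : ∀ j, j ≤ H → ∀ v' ∈ gen3 R Y s v j, ∀ ρ ∈ U, ∃ z ∈ gen3 R Y (s + j) v' H, κ z = ρ

/-- Coherence: any pair generated from `v` in `n ≤ d` steps has a completion that is generated
in `g` steps from any element generated from `v` in `n` steps. -/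
def Coh {V : Type} (R : V → V → V → Prop) (Y : ℕ → Set V) (s : ℕ) (v : V) (g d : ℕ) : Prop :=
  ∀ n, n ≤ d → ∀ v' ∈ gen3 R Y s v n, ∀ p ∈ gen3 R Y s v n, ∀ q ∈ gen3 R Y s v n,
    ∃ z ∈ gen3 R Y (s + n) v' g, R p q z

/-- The part generated from `v` in `e` steps is graded. -/
def GrAt {V : Type} (R : V → V → V → Prop) (Y : ℕ → Set V) (e s : ℕ) (v : V) : Prop :=
  ∃ lam : V → ZMod 3, ∀ x ∈ gen3 R Y s v e, ∀ y ∈ gen3 R Y s v e, ∀ z ∈ gen3 R Y s v e,
    R x y z → lam x + lam y + lam z = 1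

/-- A context: any two points of a level have a completion in the next level. -/
structure Ctx {B : Type} (E : B → B → B → Prop) (r : ℕ) (Z : ℕ → Set B) : Prop where
  sym : Sym3 E
  mono : ∀ n, n < r → Z n ⊆ Z (n + 1)
  comp : ∀ n, n < r → ∀ b ∈ Z n, ∀ b' ∈ Z n, ∃ c ∈ Z (n + 1), E b b' c

/-- `t` maps the edges of the product of a factor and a context to `T4`. -/
def HomT {V B : Type} (R : V → V → V → Prop) (Y : Set V) (E : B → B → B → Prop) (Z : Set B)
    (t : V → B → ZMod 4) : Prop :=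
  ∀ x ∈ Y, ∀ y ∈ Y, ∀ z ∈ Y, R x y z → ∀ b ∈ Z, ∀ b' ∈ Z, ∀ b'' ∈ Z, E b b' b'' →
    T4 (t x b) (t y b') (t z b'')

/-- The window of eight vertices. -/
def H8 : List (Fin 8 × Fin 8 × Fin 8) :=
  [(0, 0, 1), (1, 1, 2), (0, 2, 3), (2, 2, 4), (3, 3, 5), (1, 3, 6), (1, 4, 7)]

/-- The path window. -/
def P3 : List (Fin 3 × Fin 3 × Fin 3) := [(0, 0, 1), (1, 1, 2)]

/-- The edge window with loops. -/
def L3 : List (Fin 3 × Fin 3 × Fin 3) := [(0, 0, 0), (1, 1, 1), (2, 2, 2), (0, 1, 2)]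

/-- The multisets of the edges of a ternary relation. -/
def relE {W : Type} (S : W → W → W → Prop) : Set (Multiset W) :=
  {e | ∃ u v w, e = {u, v, w} ∧ S u v w}

end CodegDens
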