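import Mathlib
import Pool.Agent.Lib.MP_81e58e_co.G4Defs

/-!
# A coherent start (problem MP_81e58e_co)
-/

set_option autoImplicit false

namespace CodegDens

open Finset

namespace G4CohAux

theorem le {V : Type} (R : V → V → V → Prop) (Y : ℕ → Set V) (s : ℕ) (v : V) {m n : ℕ}
    (h : m ≤ n) : gen3 R Y s v m ⊆ gen3 R Y s v n := by
  induction h with
  | refl => exact subset_rfl
  | step _ ih => exact ih.trans Set.subset_union_left

theorem self {V : Type} (R : V → V → V → Prop) (Y : ℕ → Set V) (s : ℕ) (v : V) (n : ℕ) :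
    v ∈ gen3 R Y s v n := le R Y s v (Nat.zero_le n) rfl

theorem closed {V : Type} {R : V → V → V → Prop} {Y : ℕ → Set V} {s : ℕ} {v : V} {n : ℕ}
    {p q z : V} (hp : p ∈ gen3 R Y s v n) (hq : q ∈ gen3 R Y s v n) (hz : z ∈ Y (s + n + 1))
    (h : R p q z) : z ∈ gen3 R Y s v (n + 1) := Or.inr ⟨hz, p, hp, q, hq, h⟩

theorem trans {V : Type} {R : V → V → V → Prop} {Y : ℕ → Set V} {s : ℕ} {v : V} {m : ℕ}
    {v' : V} (h : v' ∈ gen3 R Y s v m) (n : ℕ) :
    gen3 R Y (s + m) v' n ⊆ gen3 R Y s v (m + n) := by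
  induction n with
  | zero =>
    rintro x hx
    rw [show x = v' from hx]
    exact h
  | succ n ih =>
    rintro x (hx | ⟨hx, p, hp, q, hq, hR⟩)
    · exact le R Y s v (by omega) (ih hx)
    · refine closed (n := m + n) (ih hp) (ih hq) ?_ hR
      rwa [show s + (m + n) + 1 = s + m + n + 1 by ring]

theorem mono_le {V : Type} {Y : ℕ → Set V} {L : ℕ}
    (hmono : ∀ t, t < L → Y t ⊆ Y (t + 1)) {s t : ℕ} (hst : s ≤ t) (ht : t ≤ L) :
    Y s ⊆ Y t := by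
  induction hst with
  | refl => exact subset_rfl
  | @step m _ ih => exact (ih (by omega)).trans (hmono m (by omega))

theorem sub {V : Type} {R : V → V → V → Prop} {Y : ℕ → Set V} {L : ℕ}
    (hmono : ∀ t, t < L → Y t ⊆ Y (t + 1)) {s : ℕ} {v : V} (hv : v ∈ Y s) {n : ℕ}
    (h : s + n ≤ L) : gen3 R Y s v n ⊆ Y (s + n) := by
  induction n with
  | zero =>
    rintro x hx
    rw [show x = v from hx]
    exact hv
  | succ n ih =>
    rintro x (hx | ⟨hx, -⟩)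
    · exact hmono (s + n) (by omega) (ih (by omega) hx)
    · exact hx

theorem not_coh {V : Type} {R : V → V → V → Prop} {Y : ℕ → Set V} {s : ℕ} {v : V} {g d : ℕ}
    (h : ¬ Coh R Y s v g d) : ∃ n, n ≤ d ∧ ∃ v' ∈ gen3 R Y s v n, ∃ p ∈ gen3 R Y s v n,
      ∃ q ∈ gen3 R Y s v n, ∀ z ∈ gen3 R Y (s + n) v' g, ¬ R p q z := by
  unfold Coh at h
  push Not at h
  exact h

/-- two of four requests are answered -/
theorem two {V : Type} {R : V → V → V → Prop} {a : ℝ} (ha : 1 / 4 ≤ a) {A B : Set V}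
    (h : RichS R a A B) (x y : Fin 4 → V) (hx : ∀ j, x j ∈ A) (hy : ∀ j, y j ∈ A) :
    ∃ z ∈ B, ∃ i j : Fin 4, i < j ∧ R (x i) (y i) z ∧ R (x j) (y j) z := by
  classical
  obtain ⟨z, hz, hlt⟩ := h (Fin 4) x y (fun _ => 1) hx hy (fun _ => zero_le_one) (by simp)
  refine ⟨z, hz, ?_⟩
  by_contra hcon
  push Not at hcon
  have hsum : ∑ j : Fin 4, (open Classical in if R (x j) (y j) z then (1 : ℝ) else 0) ≤ 1 := by
    by_cases hex : ∃ i, R (x i) (y i) z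
    · obtain ⟨i, hi⟩ := hex
      rw [Finset.sum_eq_single i]
      · split_ifs <;> norm_num
      · intro j _ hji
        rw [if_neg]
        intro hj
        rcases lt_or_gt_of_ne hji with h1 | h1
        · exact hcon j i h1 hj hi
        · exact hcon i j h1 hi hj
      · intro h1
        exact absurd (Finset.mem_univ i) h1
    · push Not at hex
      rw [Finset.sum_eq_zero]
      · norm_num
      · intro j _
        rw [if_neg (hex j)]
  have h4 : (∑ j : Fin 4, (1 : ℝ)) = 4 := by simp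
  rw [h4] at hlt
  have h5 : (1 : ℝ) ≤ a * 4 := by linarith
  exact absurd (lt_of_le_of_lt h5 hlt) (not_lt.2 hsum)

end G4CohAux

/-- Every deep rich chain has a coherent start. -/
theorem g4_coh (D : ℕ → ℕ) : ∃ L : ℕ, ∀ (V : Type) (R : V → V → V → Prop) (Y : ℕ → Set V)
    (a : ℝ), 1 / 4 ≤ a → RChain R a L Y →
    ∃ s v g, v ∈ Y s ∧ 1 ≤ g ∧ s + D g + g ≤ L ∧ Coh R Y s v g (D g) := by
  obtain ⟨g2, hg2⟩ : ∃ g : ℕ, g = 1 := ⟨_, rfl⟩
  obtain ⟨g1, hg1⟩ : ∃ g : ℕ, g = D g2 + 1 := ⟨_, rfl⟩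
  obtain ⟨g0, hg0⟩ : ∃ g : ℕ, g = D g1 + D g2 + 1 := ⟨_, rfl⟩
  obtain ⟨L, hL⟩ : ∃ L : ℕ, L = D g0 + D g1 + D g2 + g0 + g1 + g2 + 2 := ⟨_, rfl⟩
  refine ⟨L, fun V R Y a ha hY => ?_⟩
  by_contra hcon
  push Not at hcon
  obtain ⟨v0, hv0⟩ := hY.nonempty
  obtain ⟨n0, hn0, v1, hv1, p0, hp0, q0, hq0, hz0⟩ :=
    G4CohAux.not_coh (hcon 0 v0 g0 hv0 (by omega) (by omega))
  have hv1Y : v1 ∈ Y (0 + n0) := G4CohAux.sub hY.mono hv0 (by omega) hv1
  obtain ⟨n1, hn1, v2, hv2, p1, hp1, q1, hq1, hz1⟩ :=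
    G4CohAux.not_coh (hcon (0 + n0) v1 g1 hv1Y (by omega) (by omega))
  have hv2Y : v2 ∈ Y (0 + n0 + n1) := G4CohAux.sub hY.mono hv1Y (by omega) hv2
  obtain ⟨n2, hn2, v3, hv3, p2, hp2, q2, hq2, hz2⟩ :=
    G4CohAux.not_coh (hcon (0 + n0 + n1) v2 g2 hv2Y (by omega) (by omega))
  have hv3Y : v3 ∈ Y (0 + n0 + n1 + n2) := G4CohAux.sub hY.mono hv2Y (by omega) hv3
  have m0 : Y (0 + n0) ⊆ Y (0 + n0 + n1 + n2) := G4CohAux.mono_le hY.mono (by omega) (by omega)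
  have m1 : Y (0 + n0 + n1) ⊆ Y (0 + n0 + n1 + n2) :=
    G4CohAux.mono_le hY.mono (by omega) (by omega)
  have s0 := G4CohAux.sub (R := R) hY.mono hv0 (n := n0) (by omega)
  have s1 := G4CohAux.sub (R := R) hY.mono hv1Y (n := n1) (by omega)
  have s2 := G4CohAux.sub (R := R) hY.mono hv2Y (n := n2) (by omega)
  obtain ⟨z, hzY, i, j, hij, hRi, hRj⟩ := G4CohAux.two ha (hY.rich (0 + n0 + n1 + n2) (by omega))
    ![p0, p1, p2, v3] ![q0, q1, q2, v3]
    (by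
      intro j
      fin_cases j
      · exact m0 (s0 hp0)
      · exact m1 (s1 hp1)
      · exact s2 hp2
      · exact hv3Y)
    (by
      intro j
      fin_cases j
      · exact m0 (s0 hq0)
      · exact m1 (s1 hq1)
      · exact s2 hq2
      · exact hv3Y)
  -- everything later is generated from `v1`, from `v2`, from `v3`
  have e2 : ∀ x ∈ gen3 R Y (0 + n0 + n1) v2 n2, x ∈ gen3 R Y (0 + n0) v1 (n1 + n2) :=
    fun x hx => G4CohAux.trans hv2 n2 hx
  have e1 : ∀ x ∈ gen3 R Y (0 + n0) v1 n1, x ∈ gen3 R Y (0 + n0) v1 (n1 + n2) :=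
    fun x hx => G4CohAux.le R Y _ _ (by omega) hx
  have c0 : ∀ p ∈ gen3 R Y (0 + n0) v1 (n1 + n2), ∀ q ∈ gen3 R Y (0 + n0) v1 (n1 + n2),
      R p q z → ¬ R p0 q0 z := by
    intro p hp q hq h
    refine hz0 z (G4CohAux.le R Y _ _ (by omega : n1 + n2 + 1 ≤ g0)
      (G4CohAux.closed hp hq ?_ h))
    rwa [show 0 + n0 + (n1 + n2) + 1 = 0 + n0 + n1 + n2 + 1 by ring]
  have c1 : ∀ p ∈ gen3 R Y (0 + n0 + n1) v2 n2, ∀ q ∈ gen3 R Y (0 + n0 + n1) v2 n2,
      R p q z → ¬ R p1 q1 z := by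
    intro p hp q hq h
    exact hz1 z (G4CohAux.le R Y _ _ (by omega : n2 + 1 ≤ g1) (G4CohAux.closed hp hq hzY h))
  have c2 : R v3 v3 z → ¬ R p2 q2 z := by
    intro h
    refine hz2 z (G4CohAux.le R Y _ _ (by omega : 0 + 1 ≤ g2)
      (G4CohAux.closed (n := 0) rfl rfl hzY h))
  have key0 : R p0 q0 z → R p1 q1 z → False := fun h h' => c0 _ (e1 _ hp1) _ (e1 _ hq1) h' h
  have key1 : R p0 q0 z → R p2 q2 z → False := fun h h' => c0 _ (e2 _ hp2) _ (e2 _ hq2) h' h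
  have key2 : R p0 q0 z → R v3 v3 z → False := fun h h' => c0 _ (e2 _ hv3) _ (e2 _ hv3) h' h
  have key3 : R p1 q1 z → R p2 q2 z → False := fun h h' => c1 _ hp2 _ hq2 h' h
  have key4 : R p1 q1 z → R v3 v3 z → False := fun h h' => c1 _ hv3 _ hv3 h' h
  have key5 : R p2 q2 z → R v3 v3 z → False := fun h h' => c2 h' h
  fin_cases i <;> fin_cases j <;>
    first
    | exact absurd hij (by decide)
    | exact key0 hRi hRj
    | exact key1 hRi hRj
    | exact key2 hRi hRj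
    | exact key3 hRi hRj
    | exact key4 hRi hRj
    | exact key5 hRi hRj

end CodegDens
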