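import Pool.Agent.Lib.MP_81e58e_co.G4Defs

/-!
# Cores of bounded windows (problem MP_81e58e_co)
-/

set_option autoImplicit false

namespace CodegDens

open Finset

namespace G4CoreAux

theorem gle {V : Type} (R : V → V → V → Prop) (Y : ℕ → Set V) (s : ℕ) (v : V) {m n : ℕ}
    (h : m ≤ n) : gen3 R Y s v m ⊆ gen3 R Y s v n := by
  induction h with
  | refl => exact subset_rfl
  | step _ ih => exact ih.trans fun x hx => Or.inl hx

theorem gself {V : Type} (R : V → V → V → Prop) (Y : ℕ → Set V) (s : ℕ) (v : V) (n : ℕ) :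
    v ∈ gen3 R Y s v n := gle R Y s v (Nat.zero_le n) (by
      show v ∈ ({v} : Set V)
      exact rfl)

theorem ggen {V : Type} {R : V → V → V → Prop} {Y : ℕ → Set V} {s : ℕ} {v : V} {m : ℕ}
    {v' : V} (h : v' ∈ gen3 R Y s v m) (n : ℕ) :
    gen3 R Y (s + m) v' n ⊆ gen3 R Y s v (m + n) := by
  induction n with
  | zero =>
    intro x hx
    have hx' : x = v' := hx
    rw [hx']
    exact h
  | succ n ih =>
    rintro x (hx | ⟨hx, p, hp, q, hq, hR⟩)
    · exact Or.inl (ih hx)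
    · refine Or.inr ⟨?_, p, ih hp, q, ih hq, hR⟩
      have e : s + (m + n) + 1 = s + m + n + 1 := by omega
      show x ∈ Y (s + (m + n) + 1)
      rw [e]
      exact hx

theorem gsub {V : Type} {R : V → V → V → Prop} {Y : ℕ → Set V} {L : ℕ}
    (hmono : ∀ t, t < L → Y t ⊆ Y (t + 1)) {s : ℕ} {v : V} (hv : v ∈ Y s) {n : ℕ}
    (h : s + n ≤ L) : gen3 R Y s v n ⊆ Y (s + n) := by
  induction n with
  | zero =>
    intro x hx
    have hx' : x = v := hx
    rw [hx']
    exact hv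
  | succ n ih =>
    rintro x (hx | ⟨hx, -⟩)
    · exact hmono (s + n) (by omega) (ih (by omega) hx)
    · exact hx

/-- one rich step for the types -/
theorem rich_types {V T : Type} {R : V → V → V → Prop} {a : ℝ} (ha : 0 ≤ a) {L : ℕ}
    {Y : ℕ → Set V} (hY : RChain R a L Y) {s : ℕ} {v : V} (hv : v ∈ Y s) {n : ℕ}
    (hs : s + n < L) {κ : V → T} {A B : Set T}
    (hA : ∀ ρ ∈ A, ∃ z ∈ gen3 R Y s v n, κ z = ρ) (hB : ∀ z ∈ gen3 R Y s v (n + 1), κ z ∈ B)
    {F : T → T → T → Prop} (hF : ∀ x ∈ gen3 R Y s v (n + 1), ∀ y ∈ gen3 R Y s v (n + 1),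
      ∀ z ∈ gen3 R Y s v (n + 1), R x y z → F (κ x) (κ y) (κ z)) : RichS F a A B := by
  classical
  intro J _ x y w hx hy hw hpos
  choose X hX1 hX2 using fun j => hA (x j) (hx j)
  choose X' hX1' hX2' using fun j => hA (y j) (hy j)
  have hsub := gsub (R := R) hY.mono hv (n := n) (by omega)
  obtain ⟨z, hz, hlt⟩ := hY.rich (s + n) hs J X X' w (fun j => hsub (hX1 j))
    (fun j => hsub (hX1' j)) hw hpos
  have h0 : 0 ≤ a * ∑ j, w j := mul_nonneg ha hpos.le
  have hex : ∃ j, R (X j) (X' j) z := by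
    by_contra hcon
    push Not at hcon
    have : (∑ j, if R (X j) (X' j) z then w j else 0) = 0 := by
      refine Finset.sum_eq_zero fun j _ => ?_
      rw [if_neg (hcon j)]
    rw [this] at hlt
    linarith
  obtain ⟨j0, hj0⟩ := hex
  have hzg : z ∈ gen3 R Y s v (n + 1) := Or.inr ⟨hz, X j0, hX1 j0, X' j0, hX1' j0, hj0⟩
  refine ⟨κ z, hB z hzg, lt_of_lt_of_le hlt (Finset.sum_le_sum fun j _ => ?_)⟩
  by_cases hR : R (X j) (X' j) z
  · have hFj := hF _ (gle R Y s v (Nat.le_succ n) (hX1 j)) _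
      (gle R Y s v (Nat.le_succ n) (hX1' j)) z hzg hR
    rw [hX2, hX2'] at hFj
    rw [if_pos hR, if_pos hFj]
  · rw [if_neg hR]
    split_ifs
    · exact hw j
    · exact le_refl _

/-- the lengths of the windows -/
def Nn (h : ℕ) : ℕ → ℕ
  | 0 => 2 * h
  | c + 1 => 2 * Nn h c

theorem le_Nn (h c : ℕ) : h ≤ Nn h c := by
  induction c with
  | zero =>
    show h ≤ 2 * h
    omega
  | succ c ih =>
    show h ≤ 2 * Nn h c
    omega

theorem core_claim (T : Type) [Finite T] (h : ℕ) (c : ℕ) : ∀ (V : Type)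
    (R : V → V → V → Prop) (Y : ℕ → Set V) (s : ℕ) (v : V) (κ : V → T),
    (κ '' gen3 R Y s v (Nn h c)).ncard ≤ c + 1 →
    ∃ m H : ℕ, h ≤ H ∧ m + 2 * H ≤ Nn h c ∧ ∃ v' ∈ gen3 R Y s v m, ∃ U : Set T, U.Nonempty ∧
      IsCore R Y (s + m) v' H κ U := by
  induction c with
  | zero =>
    intro V R Y s v κ hcard
    have hall : ∀ x ∈ gen3 R Y s v (2 * h), κ x = κ v := by
      intro x hx
      have h1 : κ x ∈ κ '' gen3 R Y s v (Nn h 0) := Set.mem_image_of_mem _ hx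
      have h2 : κ v ∈ κ '' gen3 R Y s v (Nn h 0) := Set.mem_image_of_mem _ (gself R Y s v _)
      exact (Set.ncard_le_one (Set.toFinite _)).1 hcard _ h1 _ h2
    refine ⟨0, h, le_refl _, ?_, v, gself R Y s v 0, {κ v}, ⟨κ v, rfl⟩, ?_, ?_⟩
    · show 0 + 2 * h ≤ 2 * h
      omega
    · intro x hx
      exact hall x hx
    · intro j hj v' hv' ρ hρ
      refine ⟨v', gself R Y _ v' h, ?_⟩
      rw [hρ]
      exact hall v' (gle R Y s v (by omega : j ≤ 2 * h) hv')
  | succ c ih =>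
    intro V R Y s v κ hcard
    set H := Nn h c with hH
    have hN : Nn h (c + 1) = 2 * H := rfl
    rw [hN] at hcard ⊢
    by_cases hfull : ∀ j, j ≤ H → ∀ v' ∈ gen3 R Y s v j, ∀ ρ ∈ κ '' gen3 R Y s v (2 * H),
        ∃ z ∈ gen3 R Y (s + j) v' H, κ z = ρ
    · refine ⟨0, H, le_Nn h c, by omega, v, gself R Y s v 0, κ '' gen3 R Y s v (2 * H),
        ⟨κ v, Set.mem_image_of_mem _ (gself R Y s v _)⟩, ?_, ?_⟩
      · intro x hx
        exact Set.mem_image_of_mem _ hx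
      · exact hfull
    · push Not at hfull
      obtain ⟨j, hj, v'', hv'', ρ, hρ, hno⟩ := hfull
      have hss : κ '' gen3 R Y (s + j) v'' H ⊆ (κ '' gen3 R Y s v (2 * H)) \ {ρ} := by
        rintro _ ⟨x, hx, rfl⟩
        refine ⟨Set.mem_image_of_mem _ (gle R Y s v (by omega : j + H ≤ 2 * H)
          (ggen hv'' H hx)), ?_⟩
        exact hno x hx
      have hc : (κ '' gen3 R Y (s + j) v'' H).ncard ≤ c + 1 := by
        have h1 := Set.ncard_le_ncard hss (Set.toFinite _)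
        have h2 := Set.ncard_diff_singleton_add_one hρ (Set.toFinite _)
        omega
      obtain ⟨m, H', hH', hm, v', hv', U, hU, hcore⟩ := ih V R Y (s + j) v'' κ hc
      refine ⟨j + m, H', hH', by omega, v', ggen hv'' m hv', U, hU, ?_⟩
      rw [← add_assoc]
      exact hcore

end G4CoreAux

open G4CoreAux

theorem core_exists (T : Type) [Finite T] (h : ℕ) (hh : 1 ≤ h) : ∃ N : ℕ, ∀ (V : Type)
    (R : V → V → V → Prop) (Y : ℕ → Set V) (s : ℕ) (v : V) (κ : V → T),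
    ∃ m H : ℕ, h ≤ H ∧ m + 2 * H ≤ N ∧ ∃ v' ∈ gen3 R Y s v m, ∃ U : Set T, U.Nonempty ∧
      IsCore R Y (s + m) v' H κ U := by
  have _ := hh
  refine ⟨Nn h (Nat.card T), fun V R Y s v κ => core_claim T h (Nat.card T) V R Y s v κ ?_⟩
  have h1 := Set.ncard_le_card (κ '' gen3 R Y s v (Nn h (Nat.card T)))
  omega

theorem IsCore.map {V T T' : Type} {R : V → V → V → Prop} {Y : ℕ → Set V} {s : ℕ} {v : V}
    {H : ℕ} {κ : V → T} {U : Set T} (h : IsCore R Y s v H κ U) (π : T → T') :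
    IsCore R Y s v H (fun x => π (κ x)) (π '' U) := by
  refine ⟨fun x hx => Set.mem_image_of_mem _ (h.sub x hx), ?_⟩
  rintro j hj v' hv' _ ⟨ρ, hρ, rfl⟩
  obtain ⟨z, hz, hzρ⟩ := h.full j hj v' hv' ρ hρ
  exact ⟨z, hz, by rw [hzρ]⟩

theorem IsCore.richS {V T : Type} {R : V → V → V → Prop} {a : ℝ} (ha : 0 ≤ a) {L : ℕ}
    {Y : ℕ → Set V} (hY : RChain R a L Y) {s : ℕ} {v : V} (hv : v ∈ Y s) {H : ℕ} (hH : 1 ≤ H)
    (hs : s + 2 * H ≤ L) {κ : V → T} {U : Set T} (h : IsCore R Y s v H κ U)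
    {F : T → T → T → Prop} (hF : ∀ x ∈ gen3 R Y s v (2 * H), ∀ y ∈ gen3 R Y s v (2 * H),
      ∀ z ∈ gen3 R Y s v (2 * H), R x y z → F (κ x) (κ y) (κ z)) : RichS F a U U := by
  have hle : gen3 R Y s v (H + 1) ⊆ gen3 R Y s v (2 * H) := gle R Y s v (by omega)
  refine rich_types ha hY hv (n := H) (by omega) (κ := κ) ?_ ?_ ?_
  · intro ρ hρ
    exact h.full 0 (Nat.zero_le _) v (gself R Y s v 0) ρ hρ
  · intro z hz
    exact h.sub z (hle hz)
  · intro x hx y hy z hz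
    exact hF x (hle hx) y (hle hy) z (hle hz)

theorem IsCore.irrS {V T : Type} {R : V → V → V → Prop} {Y : ℕ → Set V} {s : ℕ} {v : V}
    {H : ℕ} {κ : V → T} {U : Set T} (h : IsCore R Y s v H κ U)
    {F : T → T → T → Prop} (hF : ∀ x ∈ gen3 R Y s v (2 * H), ∀ y ∈ gen3 R Y s v (2 * H),
      ∀ z ∈ gen3 R Y s v (2 * H), R x y z → F (κ x) (κ y) (κ z)) : IrrS F U := by
  intro K hKU hK hcl
  obtain ⟨ρ0, hρ0⟩ := hK
  obtain ⟨z0, hz0, hκ0⟩ := h.full 0 (Nat.zero_le _) v (gself R Y s v 0) ρ0 (hKU hρ0)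
  have hz0' : z0 ∈ gen3 R Y s v H := hz0
  have hin : ∀ n, n ≤ H → gen3 R Y (s + H) z0 n ⊆ gen3 R Y s v (2 * H) := fun n hn =>
    (ggen hz0' n).trans (gle R Y s v (by omega))
  have hall : ∀ n, n ≤ H → ∀ x ∈ gen3 R Y (s + H) z0 n, κ x ∈ K := by
    intro n
    induction n with
    | zero =>
      intro _ x hx
      have hx' : x = z0 := hx
      rw [hx', hκ0]
      exact hρ0
    | succ n ih =>
      rintro hn x hx
      rcases hx with hx1 | ⟨hx1, p, hp, q, hq, hR⟩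
      · exact ih (by omega) x hx1
      · have hxw : x ∈ gen3 R Y s v (2 * H) := hin (n + 1) hn (Or.inr ⟨hx1, p, hp, q, hq, hR⟩)
        exact hcl _ (ih (by omega) p hp) _ (ih (by omega) q hq) _ (h.sub x hxw)
          (hF p (hin n (by omega) hp) q (hin n (by omega) hq) x hxw hR)
  refine Set.Subset.antisymm hKU fun ρ hρ => ?_
  obtain ⟨z, hz, hzρ⟩ := h.full H (le_refl _) z0 hz0' ρ hρ
  rw [← hzρ]
  exact hall H (le_refl _) z hz

/-- the types generated in `l` steps are stable for some `l` among `Nat.card T + 1` values -/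
theorem stable_types {V T : Type} [Finite T] {R : V → V → V → Prop} {a : ℝ} (ha : 0 ≤ a)
    {L : ℕ} {Y : ℕ → Set V} (hY : RChain R a L Y) {s : ℕ} {v : V} (hv : v ∈ Y s) (κ : V → T)
    (n : ℕ) (hs : s + n + Nat.card T + 1 ≤ L) :
    ∃ l, n ≤ l ∧ l ≤ n + Nat.card T ∧ ∀ F : T → T → T → Prop,
      (∀ x ∈ gen3 R Y s v (l + 1), ∀ y ∈ gen3 R Y s v (l + 1), ∀ z ∈ gen3 R Y s v (l + 1),
        R x y z → F (κ x) (κ y) (κ z)) →
      RichS F a (κ '' gen3 R Y s v l) (κ '' gen3 R Y s v l) := by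
  have hex : ∃ l, n ≤ l ∧ l ≤ n + Nat.card T ∧
      κ '' gen3 R Y s v l = κ '' gen3 R Y s v (l + 1) := by
    by_contra hcon
    push Not at hcon
    have hinc : ∀ i, i ≤ Nat.card T + 1 → i ≤ (κ '' gen3 R Y s v (n + i)).ncard := by
      intro i
      induction i with
      | zero =>
        intro _
        exact Nat.zero_le _
      | succ i ih =>
        intro hi
        have h1 := ih (by omega)
        have h2 := hcon (n + i) (by omega) (by omega)
        have h3 : κ '' gen3 R Y s v (n + i) ⊂ κ '' gen3 R Y s v (n + i + 1) :=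
          (Set.image_mono (gle R Y s v (Nat.le_succ _))).ssubset_of_ne h2
        have h4 := Set.ncard_lt_ncard h3 (Set.toFinite _)
        rw [← add_assoc]
        omega
    have h1 := hinc (Nat.card T + 1) (le_refl _)
    have h2 := Set.ncard_le_card (κ '' gen3 R Y s v (n + (Nat.card T + 1)))
    omega
  obtain ⟨l, hl1, hl2, hl⟩ := hex
  refine ⟨l, hl1, hl2, fun F hF => ?_⟩
  refine rich_types ha hY hv (n := l) (by omega) (κ := κ) ?_ ?_ hF
  · rintro ρ ⟨z, hz, rfl⟩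
    exact ⟨z, hz, rfl⟩
  · intro z hz
    rw [hl]
    exact Set.mem_image_of_mem _ hz

end CodegDens
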