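import Pool.Agent.Lib.MP_81e58e_co.G4Basic

/-!
# Certificate checker for the finite checks `fc1`, ..., `fc4` (problem MP_81e58e_co)

Types are coded by natural numbers in base `4`; sets of types are bit masks.
-/

set_option autoImplicit false

namespace CodegDens

namespace FC

/-- The certificates. -/
inductive Cert where
  | lp (l : List ℕ) : Cert
  | del (l : List ℕ) (c : Cert) : Cert
  | irr (T : List ℕ) : Cert
  | cov (c : ℕ) : Cert
  | br (e : ℕ) (a b : Cert) : Cert
  | finC (S : List ℕ) : Cert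
  | finE (S : List ℕ) : Cert
  | finG (S0 S1 S2 : List ℕ) : Cert
  | ext (S : List ℕ) (r i j : ℕ) (c : Cert) : Cert

/-- The table of `T4`: bit `16 a + 4 b + c`. -/
def t4t : ℕ := 10907292487377611475

/-- The set of completions of two classes. -/
def nr (a b : ℕ) : ℕ := (t4t >>> (16 * a + 4 * b)) &&& 15

/-- The `i`-th digit in base `4`. -/
def dg (t i : ℕ) : ℕ := (t >>> (2 * i)) &&& 3

/-- The possible values of one digit of the completion. -/
def rowA (x y : ℕ) : List (ℕ × ℕ) → ℕ
  | [] => 15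
  | (i, j) :: l => nr (dg x i) (dg y j) &&& nr (dg y i) (dg x j) &&& rowA x y l

/-- The mask of the codes with a given set `A` of values of a digit. -/
def dig4 (B s A : ℕ) : ℕ :=
  (cond (A.testBit 0) B 0 ||| cond (A.testBit 1) (B <<< s) 0) |||
    (cond (A.testBit 2) (B <<< (2 * s)) 0 ||| cond (A.testBit 3) (B <<< (3 * s)) 0)

/-- The candidates for a completion of the types `x`, `y`. -/
def nbr (x y : ℕ) : List (ℕ × ℕ × List (ℕ × ℕ)) → ℕ → ℕ
  | [], m => m
  | (B, s, c) :: l, m => nbr x y l (m &&& dig4 B s (rowA x y c))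

/-- One step of the bit sliced counters. -/
def stepm (g : ℕ) : ℕ → List ℕ → List ℕ
  | _, [] => []
  | p, m :: ms => (m ||| (p &&& g)) :: stepm g m ms

/-- Check of a linear programming leaf. -/
def lpRun (rows : List (ℕ × ℕ × List (ℕ × ℕ))) (In Cand : ℕ) : List ℕ → List ℕ → Bool
  | [], ms => Nat.beq (ms.getLastD 1) 0
  | c :: l, ms => (In.testBit (c / 4096) && In.testBit (c % 4096)) &&
      lpRun rows In Cand l (stepm (nbr (c / 4096) (c % 4096) rows Cand) Cand ms)

/-- The mask of a list. -/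
def mask : List ℕ → ℕ
  | [] => 0
  | x :: l => mask l ||| 1 <<< x

/-- All completions of `x` with the elements of the list lie in `tm`. -/
def clo1 (rows : List (ℕ × ℕ × List (ℕ × ℕ))) (Cand tm x : ℕ) : List ℕ → Bool
  | [] => true
  | y :: l => Nat.beq (nbr x y rows Cand &&& tm) (nbr x y rows Cand) &&
      clo1 rows Cand tm x l

/-- The list is closed. -/
def cloL (rows : List (ℕ × ℕ × List (ℕ × ℕ))) (Cand tm : ℕ) : List ℕ → Bool
  | [] => true
  | x :: l => clo1 rows Cand tm x (x :: l) && cloL rows Cand tm l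

/-- All elements of the list are bits of the mask. -/
def subL (In : ℕ) : List ℕ → Bool
  | [] => true
  | x :: l => In.testBit x && subL In l

/-- All completions of `x` with the elements of the list have the grade `1 - g - h`. -/
def gr1 (rows : List (ℕ × ℕ × List (ℕ × ℕ))) (Cand tm x : ℕ) : List ℕ → Bool
  | [] => true
  | y :: l => Nat.beq (nbr x y rows Cand &&& tm) (nbr x y rows Cand) &&
      gr1 rows Cand tm x l

/-- All completions of pairs of two lists lie in `tm`. -/
def gr2 (rows : List (ℕ × ℕ × List (ℕ × ℕ))) (Cand tm : ℕ) (l' : List ℕ) : List ℕ → Bool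
  | [] => true
  | x :: l => gr1 rows Cand tm x l' && gr2 rows Cand tm l' l

/-- Masks of the codes of width `w` whose `k`-th digit is `0`. -/
def Bt (w k : ℕ) : ℕ := (2 ^ (4 ^ k) - 1) * ((2 ^ (4 ^ w) - 1) / (2 ^ (4 ^ (k + 1)) - 1))

/-- The constraints of row `k`. -/
def cons (k : ℕ) : List (ℕ × ℕ × ℕ) → List (ℕ × ℕ)
  | [] => []
  | (a, b, c) :: H =>
      (cond (Nat.beq c k) [(a, b)] []) ++ ((cond (Nat.beq b k) [(a, c)] []) ++
        ((cond (Nat.beq a k) [(b, c)] []) ++ cons k H))

/-- The rows for the edges `H`. -/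
def rowsOf (w : ℕ) (H : List (ℕ × ℕ × ℕ)) : ℕ → List (ℕ × ℕ × List (ℕ × ℕ))
  | 0 => []
  | k + 1 => (Bt w k, 4 ^ k, cons k H) :: rowsOf w H k

/-- deletions -/
def delRun (rows : List (ℕ × ℕ × List (ℕ × ℕ))) (In : ℕ) : List ℕ → ℕ → Option ℕ
  | [], m => some m
  | c :: l, m => cond ((In.testBit (c % 4096) || Nat.beq (c % 4096) (c / 4096)) &&
      Nat.beq (nbr (c / 4096) (c % 4096) rows m) 0)
        (delRun rows In l (m ^^^ (m &&& 1 <<< (c / 4096)))) none

/-- The candidates in width `w + 1` that extend the codes of `In`. -/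
def up4 (w In : ℕ) : ℕ :=
  (In ||| In <<< (4 ^ w)) ||| (In <<< (2 * 4 ^ w) ||| In <<< (3 * 4 ^ w))

/-- `S` is nonempty, is the set `In`, and is closed. -/
def finL (rows : List (ℕ × ℕ × List (ℕ × ℕ))) (In Cand : ℕ) (S : List ℕ) : Bool :=
  !(Nat.beq In 0) && (Nat.beq (mask S) In && cloL rows Cand In S)

/-- All elements have first digit `d`. -/
def allD (d : ℕ) : List ℕ → Bool
  | [] => true
  | x :: l => Nat.beq (dg x 0) d && allD d l

/-- All elements have equal digits `0` and `1`. -/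
def allE : List ℕ → Bool
  | [] => true
  | x :: l => Nat.beq (dg x 0) (dg x 1) && allE l

/-- The grading check. -/
def grL (rows : List (ℕ × ℕ × List (ℕ × ℕ))) (In : ℕ) (S0 S1 S2 : List ℕ) : Bool :=
  (Nat.beq (mask S0 &&& mask S1) 0 && (Nat.beq (mask S0 &&& mask S2) 0 &&
    Nat.beq (mask S1 &&& mask S2) 0)) &&
  ((gr2 rows In (mask S1) S0 S0 && (gr2 rows In (mask S0) S1 S0 &&
    gr2 rows In (mask S2) S2 S0)) &&
  (gr2 rows In (mask S2) S1 S1 && (gr2 rows In (mask S1) S2 S1 &&
    gr2 rows In (mask S0) S2 S2)))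

/-- Membership of an edge. -/
def memE (a b c : ℕ) : List (ℕ × ℕ × ℕ) → Bool
  | [] => false
  | (a', b', c') :: H => (Nat.beq a a' && (Nat.beq b b' && Nat.beq c c')) || memE a b c H

/-- The checker. -/
def chk (Hall : List (ℕ × ℕ × ℕ)) (fl : ℕ) :
    Cert → ℕ → List ℕ → List (ℕ × ℕ × ℕ) → ℕ → ℕ → ℕ → Bool
  | .lp l, w, _, H, In, Cand, _ => Nat.blt 0 l.length &&
      lpRun (rowsOf w H w) In Cand l (List.replicate (l.length / 4 + 1) 0)
  | .del l c, w, rs, H, In, Cand, cv =>
      match delRun (rowsOf w H w) In l Cand with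
      | none => false
      | some m => chk Hall fl c w rs H In m cv
  | .irr T, w, _, H, In, Cand, _ => Nat.ble 1 fl && (!(Nat.beq (mask T) 0) &&
      (subL In T && (!(Nat.beq (mask T) In) && cloL (rowsOf w H w) Cand (mask T) T)))
  | .cov c, w, _, _, _, Cand, cv => cv.testBit c && (Nat.ble 1 w &&
      ((!(Cand.testBit c) && !(Cand.testBit (c + 4 ^ (w - 1)))) &&
      (!(Cand.testBit (c + 2 * 4 ^ (w - 1))) && !(Cand.testBit (c + 3 * 4 ^ (w - 1))))))
  | .br e a b, w, rs, H, In, Cand, cv =>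
      chk Hall fl a w rs H (In ||| 1 <<< e) Cand cv &&
        chk Hall fl b w rs H In (Cand ^^^ (Cand &&& 1 <<< e)) cv
  | .finC S, w, _, H, In, Cand, _ => Nat.ble 1 fl && (finL (rowsOf w H w) In Cand S &&
      allD (dg (S.headD 0) 0) S)
  | .finE S, w, _, H, In, Cand, _ => Nat.ble 1 fl && (finL (rowsOf w H w) In Cand S &&
      allE S)
  | .finG S0 S1 S2, w, _, H, In, Cand, _ => Nat.ble 2 fl &&
      (finL (rowsOf w H w) In Cand (S0 ++ (S1 ++ S2)) && grL (rowsOf w H w) In S0 S1 S2)
  | .ext S r i j c, w, rs, H, In, Cand, _ => (Nat.ble 2 fl && (Nat.ble w 5 &&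
      (Nat.blt i w && Nat.blt j w))) &&
      ((finL (rowsOf w H w) In Cand S && memE (rs.getD i 0) (rs.getD j 0) r Hall) &&
        chk Hall fl c (w + 1) (rs ++ [r]) ((i, j, w) :: H) 0 (up4 w In) In)

end FC

end CodegDens
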