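import Pool.Agent.Lib.MP_81e58e_co.G4Sound
import Pool.Agent.Lib.MP_81e58e_co.G4FCData

/-!
# The finite checks `fc1`, `fc2`, `fc3`, `fc4` (problem MP_81e58e_co)
-/

set_option autoImplicit false

namespace CodegDens

namespace FC

open Finset

/-- The edges of the window `H8`. -/
def H8N : List (ℕ × ℕ × ℕ) :=
  [(0, 0, 1), (1, 1, 2), (0, 2, 3), (2, 2, 4), (3, 3, 5), (1, 3, 6), (1, 4, 7)]

/-- The edges of the path window. -/
def P3N : List (ℕ × ℕ × ℕ) := [(0, 0, 1), (1, 1, 2)]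

/-- The edges of the window with loops. -/
def L3N : List (ℕ × ℕ × ℕ) := [(0, 0, 0), (1, 1, 1), (2, 2, 2), (0, 1, 2)]

/-- Candidates: all codes except the orbits of the earlier starting codes. -/
def cand1 : ℕ → ℕ := fun k => [18446744073709551615, 9223367638806167550, 9221045470214750190,
    9185016655479045870, 8608555628297580270, 8320325114706816750, 3708636897255124710,
    3707475812959415910, 3689461405591561830, 3680454199894368870, 3536338943098495590,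
    1230494834364785250, 1229914292091101730, 1229492079558926850, 1224988444498075650,
    1152930300704063490].getD k 0

/-- Candidates for `fc3`, `fc4`. -/
def cand3 : ℕ → ℕ := fun k => [18446744073709551615, 18446744073709551615, 18444421905118134255,
    18408393090382429935, 17831932063200964335, 17831932063200964335, 13220243845749272295,
    13219082761453563495, 13201068354085709415, 13201068354085709415, 13056953097289836135,
    10751108988556125795, 10750528446282442275, 10750528446282442275, 10746024811221591075,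
    10673966667427578915].getD k 0

/-- Certificates. -/
def sc1 : ℕ → Cert := fun k => [start0, start4, start8, start12, start16, start20, start24,
    start28, start32, start36, start40, start44, start48, start52, start56, start60].getD k
    (.cov 0)

/-- Certificates. -/
def sc2 : ℕ → Cert := fun k => [fs2_0, fs2_4, fs2_8, fs2_12, fs2_16, fs2_20, fs2_24, fs2_28,
    fs2_32, fs2_36, fs2_40, fs2_44, fs2_48, fs2_52, fs2_56, fs2_60].getD k (.cov 0)

/-- Certificates. -/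
def sc3 : ℕ → Cert := fun k => [.cov 0, fs3_4, fs3_8, fs3_12, .cov 0, fs3_20, fs3_24, fs3_28,
    .cov 0, fs3_36, fs3_40, fs3_44, .cov 0, fs3_52, fs3_56, fs3_60].getD k (.cov 0)

/-- Certificates. -/
def sc4 : ℕ → Cert := fun k => [.cov 0, fs4_4, fs4_8, fs4_12, .cov 0, fs4_20, fs4_24, fs4_28,
    .cov 0, fs4_36, fs4_40, fs4_44, .cov 0, fs4_52, fs4_56, fs4_60].getD k (.cov 0)

theorem chk1 : allB (fun k => chk H8N 2 (sc1 k) 3 [0, 1, 2] P3N (1 <<< (4 * k)) (cand1 k) 0)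
    16 = true := by
  decide +kernel

theorem chk2 : allB (fun k => chk L3N 1 (sc2 k) 3 [0, 1, 2] L3N (1 <<< (4 * k)) (cand1 k) 0)
    16 = true := by
  decide +kernel

theorem chk3 : allB (fun k => Nat.beq (k % 4) 0 || chk P3N 0 (sc3 k) 3 [0, 1, 2] P3N
    (9223376434903384065 ||| 1 <<< (4 * k)) (cand3 k) 0) 16 = true := by
  decide +kernel

theorem chk4 : allB (fun k => Nat.beq (k % 4) 0 || chk L3N 0 (sc4 k) 3 [0, 1, 2] L3N
    (9223376434903384065 ||| 1 <<< (4 * k)) (cand3 k) 0) 16 = true := by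
  decide +kernel

/-! ## Rotation -/

/-- Rotation of a type. -/
def rot {n : ℕ} (s : ZMod 4) (σ : Fin n → ZMod 4) : Fin n → ZMod 4 := fun i => σ i + s

theorem T4_add : ∀ {u v w : ZMod 4} (s : ZMod 4), T4 u v w → T4 (u + s) (v + s) (w + s) := by
  decide

theorem Al4_rot {n : ℕ} {H : List (Fin n × Fin n × Fin n)} {a b c : Fin n → ZMod 4} (s : ZMod 4)
    (h : Al4 H a b c) : Al4 H (rot s a) (rot s b) (rot s c) := by
  intro e he
  obtain ⟨h1, h2, h3, h4, h5, h6⟩ := h e he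
  exact ⟨T4_add s h1, T4_add s h2, T4_add s h3, T4_add s h4, T4_add s h5, T4_add s h6⟩

theorem RichS_image {T : Type} {F : T → T → T → Prop} {a : ℝ} {U : Set T} (e : T → T)
    (he : ∀ x y z, F x y z → F (e x) (e y) (e z)) (h : RichS F a U U) :
    RichS F a (e '' U) (e '' U) := by
  intro J _ x y w hx hy hw hpos
  choose x' hx' hxe using hx
  choose y' hy' hye using hy
  obtain ⟨z, hz, h1⟩ := h J x' y' w hx' hy' hw hpos
  refine ⟨e z, ⟨z, hz, rfl⟩, lt_of_lt_of_le h1 (Finset.sum_le_sum fun j _ => ?_)⟩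
  by_cases hF : F (x' j) (y' j) z
  · rw [if_pos hF, if_pos (by rw [← hxe j, ← hye j]; exact he _ _ _ hF)]
  · rw [if_neg hF]
    split_ifs
    · exact hw j
    · exact le_rfl

theorem IrrS_image {T : Type} {F : T → T → T → Prop} {U : Set T} (e : T → T)
    (he : ∀ x y z, F x y z → F (e x) (e y) (e z)) (h : IrrS F U) : IrrS F (e '' U) := by
  intro K hK hne hcl
  have h1 : {x ∈ U | e x ∈ K} = U := by
    refine h _ (fun x hx => hx.1) ?_ ?_
    · obtain ⟨y, hy⟩ := hne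
      obtain ⟨x, hx, rfl⟩ := hK hy
      exact ⟨x, hx, hy⟩
    · intro x hx y hy z hz hF
      exact ⟨hz, hcl _ hx.2 _ hy.2 _ ⟨z, hz, rfl⟩ (he _ _ _ hF)⟩
  refine Set.Subset.antisymm hK ?_
  rintro _ ⟨x, hx, rfl⟩
  have : x ∈ {x ∈ U | e x ∈ K} := by rw [h1]; exact hx
  exact this.2

/-- The code of three classes. -/
def k3c (a b c : ZMod 4) : ℕ := a.val + b.val * 4 + c.val * 16

theorem c3_orbit : ∀ a b c : ZMod 4, k3c (a - a) (b - a) (c - a) = 4 * ((b - a).val + 4 * (c - a).val)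
    ∧ (b - a).val + 4 * (c - a).val < 16 ∧ (((b - a).val + 4 * (c - a).val) % 4 = 0 → a = b) := by
  decide

theorem cand1_spec : ∀ k : Fin 16, ∀ a b c : ZMod 4, (cand1 k).testBit (k3c a b c) = false →
    ∃ j : Fin 16, j < k ∧ ∃ s : ZMod 4, k3c (a + s) (b + s) (c + s) = 4 * (j : ℕ) := by
  decide +kernel

theorem cand3_spec : ∀ k : Fin 16, ∀ a b c : ZMod 4, (cand3 k).testBit (k3c a b c) = false →
    ∃ j : Fin 16, j < k ∧ (j : ℕ) % 4 ≠ 0 ∧ ∃ s : ZMod 4,
      k3c (a + s) (b + s) (c + s) = 4 * (j : ℕ) := by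
  decide +kernel

/-- The rows of a type. -/
def gl (n : ℕ) (r : ℕ) (σ : Fin n → ZMod 4) : ℕ := if h : r < n then (σ ⟨r, h⟩).val else 0

theorem nr_of_T4 : ∀ {u v w : ZMod 4}, T4 u v w → (nr u.val v.val).testBit w.val = true := by
  decide

/-- The edges as triples of numbers. -/
def toN {n : ℕ} (H : List (Fin n × Fin n × Fin n)) : List (ℕ × ℕ × ℕ) :=
  H.map fun e => ((e.1 : ℕ), (e.2.1 : ℕ), (e.2.2 : ℕ))

theorem sys_of {n : ℕ} (H : List (Fin n × Fin n × Fin n)) (U : Set (Fin n → ZMod 4)) :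
    Sys (Al4 H) U (gl n) (toN H) where
  lt := by
    intro r x
    unfold gl
    split_ifs
    · exact ZMod.val_lt _
    · norm_num
  rel := by
    intro x _ y _ z _ h a b c habc
    simp only [toN, List.mem_map, Prod.mk.injEq] at habc
    obtain ⟨⟨i, j, k⟩, he, rfl, rfl, rfl⟩ := habc
    obtain ⟨h1, h2, h3, h4, h5, h6⟩ := h _ he
    have hgl : ∀ (i : Fin n) (σ : Fin n → ZMod 4), gl n i σ = (σ i).val := by
      intro i σ
      unfold gl
      rw [dif_pos i.2]
    simp only [hgl]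
    exact ⟨⟨nr_of_T4 h1, nr_of_T4 h3.s12⟩, ⟨nr_of_T4 h2, nr_of_T4 h5.s12⟩,
      ⟨nr_of_T4 h4, nr_of_T4 h6.s12⟩⟩

theorem cd3 {n : ℕ} (hn : 3 ≤ n) (σ : Fin n → ZMod 4) :
    cd (gl n) 3 [0, 1, 2] σ = k3c (σ ⟨0, by omega⟩) (σ ⟨1, by omega⟩) (σ ⟨2, by omega⟩) := by
  have h0 : 0 < n := by omega
  have h1 : 1 < n := by omega
  have h2 : 2 < n := by omega
  simp only [cd, cdf, gl, k3c, List.getD_cons_zero, List.getD_cons_succ, h0, h1, h2, dif_pos]
  ring

theorem c3_zero_iff : ∀ a b c : ZMod 4, ∀ k : Fin 16, k3c a b c = 4 * (k : ℕ) → (k : ℕ) % 4 ≠ 0 →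
    a ≠ b := by
  decide +kernel

/-- The start with a minimal orbit. -/
theorem fc_start1 {n : ℕ} (hn : 3 ≤ n) (H : List (Fin n × Fin n × Fin n)) (fl : ℕ)
    (Hl : List (ℕ × ℕ × ℕ)) (sc : ℕ → Cert)
    (hHl : ∀ a b c, (a, b, c) ∈ Hl → a < 3 ∧ b < 3 ∧ c < 3 ∧
      (([0, 1, 2] : List ℕ).getD a 0, ([0, 1, 2] : List ℕ).getD b 0,
        ([0, 1, 2] : List ℕ).getD c 0) ∈ toN H)
    (hc : ∀ k, k < 16 → chk (toN H) fl (sc k) 3 [0, 1, 2] Hl (1 <<< (4 * k)) (cand1 k) 0 = true)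
    (U : Set (Fin n → ZMod 4)) (hne : U.Nonempty) (hr : RichS (Al4 H) (1 / 4) U U)
    (hi : IrrS (Al4 H) U) : Out (Al4 H) U (gl n) fl := by
  classical
  set P : ℕ → Prop := fun k => k < 16 ∧ ∃ σ ∈ U, ∃ s : ZMod 4,
    k3c (σ ⟨0, by omega⟩ + s) (σ ⟨1, by omega⟩ + s) (σ ⟨2, by omega⟩ + s) = 4 * k with hP
  have hex : ∃ k, P k := by
    obtain ⟨σ, hσ⟩ := hne
    obtain ⟨h1, h2, -⟩ := c3_orbit (σ ⟨0, by omega⟩) (σ ⟨1, by omega⟩) (σ ⟨2, by omega⟩)
    refine ⟨_, h2, σ, hσ, -σ ⟨0, by omega⟩, ?_⟩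
    rw [← h1]
    simp only [sub_eq_add_neg]
  obtain ⟨hk16, σ, hσ, s, hs⟩ := Nat.find_spec hex
  set k := Nat.find hex with hk
  have hmin : ∀ j, j < k → ¬ P j := fun j hj => Nat.find_min hex hj
  have hU' := RichS_image (rot s) (fun _ _ _ h => Al4_rot s h) hr
  have hI' := IrrS_image (rot s) (fun _ _ _ h => Al4_rot s h) hi
  have hinv : Inv (rot s '' U) (gl n) (toN H) 3 [0, 1, 2] Hl (1 <<< (4 * k)) (cand1 k) 0 :=
    { len := rfl
      w3 := le_rfl
      w6 := by norm_num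
      r0 := rfl
      r1 := rfl
      hH := hHl
      hIn := by
        intro c hc
        rw [Nat.shiftLeft_eq, one_mul, Nat.testBit_two_pow] at hc
        have hc' : 4 * k = c := by simpa using hc
        refine ⟨rot s σ, ⟨σ, hσ, rfl⟩, ?_⟩
        rw [cd3 hn, ← hc']
        exact hs
      hCand := by
        rintro _ ⟨τ, hτ, rfl⟩
        rw [cd3 hn]
        by_contra hcon
        rw [Bool.not_eq_true] at hcon
        obtain ⟨j, hj, s', hs'⟩ := cand1_spec ⟨k, hk16⟩ _ _ _ hcon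
        refine hmin j hj ⟨by omega, τ, hτ, s + s', ?_⟩
        rw [← hs']
        simp only [rot, add_assoc]
      hcv := by
        intro c hc
        simp at hc }
  have hout := chk_sound (sys_of H _) hU' (fun _ => hI') _ _ _ _ _ _ _ (hc k hk16) hinv
  have hgl : ∀ r (σ τ : Fin n → ZMod 4) (hr : r < n), gl n r σ = gl n r τ →
      σ ⟨r, hr⟩ = τ ⟨r, hr⟩ := by
    intro r σ τ hr h
    simp only [gl, hr, dif_pos] at h
    exact ZMod.val_injective _ h
  rcases hout with ⟨h0, h1⟩ | ⟨h0, h1⟩ | ⟨h0, lam, h1⟩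
  · left
    refine ⟨h0, fun x hx y hy => ?_⟩
    have h2 := hgl 0 _ _ (by omega) (h1 _ ⟨x, hx, rfl⟩ _ ⟨y, hy, rfl⟩)
    simp only [rot, add_left_inj] at h2
    simp only [gl, show 0 < n by omega, dif_pos, h2]
  · right; left
    refine ⟨h0, fun x hx => ?_⟩
    have h2 := h1 _ ⟨x, hx, rfl⟩
    simp only [gl, show 0 < n by omega, show 1 < n by omega, dif_pos] at h2 ⊢
    have h3 := ZMod.val_injective _ h2
    simp only [rot, add_left_inj] at h3
    rw [h3]
  · right; right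
    exact ⟨h0, fun x => lam (rot s x), fun x hx y hy z hz h =>
      h1 _ ⟨x, hx, rfl⟩ _ ⟨y, hy, rfl⟩ _ ⟨z, hz, rfl⟩ (Al4_rot s h)⟩

/-- The start for `fc3` and `fc4`. -/
theorem fc_start3 (H : List (Fin 3 × Fin 3 × Fin 3))
    (Hl : List (ℕ × ℕ × ℕ)) (sc : ℕ → Cert)
    (hHl : ∀ a b c, (a, b, c) ∈ Hl → a < 3 ∧ b < 3 ∧ c < 3 ∧
      (([0, 1, 2] : List ℕ).getD a 0, ([0, 1, 2] : List ℕ).getD b 0,
        ([0, 1, 2] : List ℕ).getD c 0) ∈ toN H)
    (hc : ∀ k, k < 16 → k % 4 ≠ 0 → chk (toN H) 0 (sc k) 3 [0, 1, 2] Hl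
      (9223376434903384065 ||| 1 <<< (4 * k)) (cand3 k) 0 = true)
    (U : Set (Fin 3 → ZMod 4)) (hd : ∀ u, (fun _ => u) ∈ U) (hr : RichS (Al4 H) (1 / 4) U U) :
    ∀ σ ∈ U, σ 0 = σ 1 := by
  classical
  by_contra hcon
  push Not at hcon
  obtain ⟨σ0, hσ0, hne0⟩ := hcon
  set P : ℕ → Prop := fun k => k < 16 ∧ k % 4 ≠ 0 ∧ ∃ σ ∈ U, ∃ s : ZMod 4,
    k3c (σ 0 + s) (σ 1 + s) (σ 2 + s) = 4 * k with hP
  have hex : ∃ k, P k := by
    obtain ⟨h1, h2, h3⟩ := c3_orbit (σ0 0) (σ0 1) (σ0 2)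
    refine ⟨_, h2, fun h => hne0 (h3 h), σ0, hσ0, -σ0 0, ?_⟩
    rw [← h1]
    simp only [sub_eq_add_neg]
  obtain ⟨hk16, hk4, σ, hσ, s, hs⟩ := Nat.find_spec hex
  set k := Nat.find hex with hk
  have hmin : ∀ j, j < k → ¬ P j := fun j hj => Nat.find_min hex hj
  have hU' := RichS_image (rot s) (fun _ _ _ h => Al4_rot s h) hr
  have hdiag : ∀ u : ZMod 4, (fun _ => u) ∈ rot s '' U := by
    intro u
    refine ⟨fun _ => u - s, hd _, ?_⟩
    funext i
    simp [rot]
  have hinv : Inv (rot s '' U) (gl 3) (toN H) 3 [0, 1, 2] Hl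
      (9223376434903384065 ||| 1 <<< (4 * k)) (cand3 k) 0 :=
    { len := rfl
      w3 := le_rfl
      w6 := by norm_num
      r0 := rfl
      r1 := rfl
      hH := hHl
      hIn := by
        intro c hc
        rw [Nat.testBit_or, Bool.or_eq_true] at hc
        rcases hc with hc | hc
        · have h1 : ∀ c, c < 64 → (9223376434903384065 : ℕ).testBit c = true →
              ∃ u : ZMod 4, k3c u u u = c := by decide +kernel
          have h2 : c < 64 := by
            by_contra h3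
            rw [Nat.testBit_eq_false_of_lt] at hc
            · simp at hc
            · exact lt_of_lt_of_le (by norm_num : 9223376434903384065 < 2 ^ 64)
                (Nat.pow_le_pow_right (by norm_num) (by omega))
          obtain ⟨u, hu⟩ := h1 c h2 hc
          exact ⟨_, hdiag u, by rw [cd3 (le_refl 3)]; exact hu⟩
        · rw [Nat.shiftLeft_eq, one_mul, Nat.testBit_two_pow] at hc
          have hc' : 4 * k = c := by simpa using hc
          refine ⟨rot s σ, ⟨σ, hσ, rfl⟩, ?_⟩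
          rw [cd3 (le_refl 3), ← hc']
          exact hs
      hCand := by
        rintro _ ⟨τ, hτ, rfl⟩
        rw [cd3 (le_refl 3)]
        by_contra hcon
        rw [Bool.not_eq_true] at hcon
        obtain ⟨j, hj, hj4, s', hs'⟩ := cand3_spec ⟨k, hk16⟩ _ _ _ hcon
        refine hmin j hj ⟨by omega, hj4, τ, hτ, s + s', ?_⟩
        rw [← hs']
        simp only [rot, add_assoc]
        rfl
      hcv := by
        intro c hc
        simp at hc }
  have hout := chk_sound (sys_of H _) hU' (fun h => absurd h (by norm_num)) _ _ _ _ _ _ _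
    (hc k hk16 hk4) hinv
  rcases hout with ⟨h0, -⟩ | ⟨h0, -⟩ | ⟨h0, -⟩ <;> omega

end FC

open FC

theorem fc1 (U : Set (Fin 8 → ZMod 4)) (hne : U.Nonempty) (hr : RichS (Al4 H8) (1 / 4) U U)
    (hi : IrrS (Al4 H8) U) :
    (∀ σ ∈ U, ∀ τ ∈ U, σ 0 = τ 0) ∨ (∀ σ ∈ U, σ 0 = σ 1) ∨
      ∃ lam : (Fin 8 → ZMod 4) → ZMod 3, ∀ σ ∈ U, ∀ τ ∈ U, ∀ ρ ∈ U, Al4 H8 σ τ ρ →
        lam σ + lam τ + lam ρ = 1 := by
  have hN : toN H8 = H8N := by decide
  have hout := fc_start1 (by norm_num : 3 ≤ 8) H8 2 P3N sc1 (by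
      intro a b c habc
      rw [hN]
      simp only [P3N, List.mem_cons, Prod.mk.injEq, List.not_mem_nil, or_false] at habc
      rcases habc with ⟨rfl, rfl, rfl⟩ | ⟨rfl, rfl, rfl⟩ <;> decide)
    (fun k hk => by rw [hN]; exact allB_spec chk1 k hk) U hne hr hi
  rcases hout with ⟨-, h1⟩ | ⟨-, h1⟩ | ⟨-, h1⟩
  · left
    intro σ hσ τ hτ
    have h2 := h1 σ hσ τ hτ
    simp only [gl, show 0 < 8 by norm_num, dif_pos] at h2
    exact ZMod.val_injective _ h2
  · right; left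
    intro σ hσ
    have h2 := h1 σ hσ
    simp only [gl, show 0 < 8 by norm_num, show 1 < 8 by norm_num, dif_pos] at h2
    exact ZMod.val_injective _ h2
  · exact Or.inr (Or.inr h1)

theorem fc2 (U : Set (Fin 3 → ZMod 4)) (hne : U.Nonempty) (hr : RichS (Al4 L3) (1 / 4) U U)
    (hi : IrrS (Al4 L3) U) :
    (∀ σ ∈ U, ∀ τ ∈ U, σ 0 = τ 0) ∨ (∀ σ ∈ U, σ 0 = σ 1) := by
  have hN : toN L3 = L3N := by decide
  have hout := fc_start1 (le_refl 3) L3 1 L3N sc2 (by
      intro a b c habc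
      rw [hN]
      simp only [L3N, List.mem_cons, Prod.mk.injEq, List.not_mem_nil, or_false] at habc
      rcases habc with ⟨rfl, rfl, rfl⟩ | ⟨rfl, rfl, rfl⟩ | ⟨rfl, rfl, rfl⟩ | ⟨rfl, rfl, rfl⟩ <;>
        decide)
    (fun k hk => by rw [hN]; exact allB_spec chk2 k hk) U hne hr hi
  rcases hout with ⟨-, h1⟩ | ⟨-, h1⟩ | ⟨h0, -⟩
  · left
    intro σ hσ τ hτ
    have h2 := h1 σ hσ τ hτ
    simp only [gl, show 0 < 3 by norm_num, dif_pos] at h2
    exact ZMod.val_injective _ h2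
  · right
    intro σ hσ
    have h2 := h1 σ hσ
    simp only [gl, show 0 < 3 by norm_num, show 1 < 3 by norm_num, dif_pos] at h2
    exact ZMod.val_injective _ h2
  · omega

theorem fc3 (U : Set (Fin 3 → ZMod 4)) (hd : ∀ u, (fun _ => u) ∈ U)
    (hr : RichS (Al4 P3) (1 / 4) U U) : ∀ σ ∈ U, σ 0 = σ 1 := by
  have hN : toN P3 = P3N := by decide
  refine fc_start3 P3 P3N sc3 ?_ ?_ U hd hr
  · intro a b c habc
    rw [hN]
    simp only [P3N, List.mem_cons, Prod.mk.injEq, List.not_mem_nil, or_false] at habc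
    rcases habc with ⟨rfl, rfl, rfl⟩ | ⟨rfl, rfl, rfl⟩ <;> decide
  · intro k hk hk4
    rw [hN]
    have h1 := allB_spec chk3 k hk
    rw [Bool.or_eq_true] at h1
    rcases h1 with h1 | h1
    · exact absurd (Nat.eq_of_beq_eq_true h1) hk4
    · exact h1

theorem fc4 (U : Set (Fin 3 → ZMod 4)) (hd : ∀ u, (fun _ => u) ∈ U)
    (hr : RichS (Al4 L3) (1 / 4) U U) : ∀ σ ∈ U, σ 0 = σ 1 := by
  have hN : toN L3 = L3N := by decide
  refine fc_start3 L3 L3N sc4 ?_ ?_ U hd hr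
  · intro a b c habc
    rw [hN]
    simp only [L3N, List.mem_cons, Prod.mk.injEq, List.not_mem_nil, or_false] at habc
    rcases habc with ⟨rfl, rfl, rfl⟩ | ⟨rfl, rfl, rfl⟩ | ⟨rfl, rfl, rfl⟩ | ⟨rfl, rfl, rfl⟩ <;>
      decide
  · intro k hk hk4
    rw [hN]
    have h1 := allB_spec chk4 k hk
    rw [Bool.or_eq_true] at h1
    rcases h1 with h1 | h1
    · exact absurd (Nat.eq_of_beq_eq_true h1) hk4
    · exact h1

end CodegDens
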