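import Pool.Agent.Lib.MP_81e58e_co.G4LoopOf
import Pool.Agent.Lib.MP_81e58e_co.G4FC

/-!
# Loops of the rows (problem MP_81e58e_co)
-/

set_option autoImplicit false

namespace CodegDens

theorem g4_loop (e M g : ℕ) : ∃ D : ℕ, ∀ (V : Type) (R : V → V → V → Prop) (Y : ℕ → Set V)
    (a : ℝ) (L s : ℕ) (v : V), 1 / 4 ≤ a → RChain R a L Y → v ∈ Y s → s + D ≤ L →
    Coh R Y s v g D → (∀ s' v', v' ∈ Y s' → s' + e ≤ L → ¬ GrAt R Y e s' v') →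
    ∀ (B : Type) (E : B → B → B → Prop) (Z : ℕ → Set B), Ctx E 5 Z →
    ∀ t : V → B → ZMod 4, HomT R (Y L) E (Z 5) t → ∀ b ∈ Z 0,
    ∀ x ∈ gen3 R Y s v M, ∀ y ∈ gen3 R Y s v M, ∀ z ∈ gen3 R Y s v M, R x y z →
      T4 (t x b) (t y b) (t z b) :=
  g4_loop_of fc1 fc3 e M g

end CodegDens
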