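import Pool.Agent.Lib.MP_81e58e_co.G4FactorCore
import Pool.Agent.Lib.MP_81e58e_co.G4Loop
import Pool.Agent.Lib.MP_81e58e_co.G4Coh

/-!
# The dichotomy of one factor (problem MP_81e58e_co)
-/

set_option autoImplicit false

namespace CodegDens

theorem g4_factor (e : ℕ) : ∃ L : ℕ, ∀ (V : Type) (R : V → V → V → Prop) (Y : ℕ → Set V)
    (a : ℝ), 1 / 4 ≤ a → RChain R a L Y → ∃ s v, v ∈ Y s ∧ s + e ≤ L ∧
    (GrAt R Y e s v ∨ ∀ (B : Type) (E : B → B → B → Prop) (Z : ℕ → Set B), Ctx E 6 Z →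
      ∀ t : V → B → ZMod 4, HomT R (Y L) E (Z 6) t →
        (∀ b ∈ Z 0, ∀ x ∈ gen3 R Y s v e, ∀ y ∈ gen3 R Y s v e, t x b = t y b) ∨
        (∀ b ∈ Z 0, ∀ b' ∈ Z 0, ∀ x ∈ gen3 R Y s v e, t x b = t x b')) :=
  G4FactorAux.factor_main g4_coh g4_loop fc2 fc4 e

end CodegDens
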