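import Pool.Agent.Lib.MP_81e58e_co.G4Core

/-!
# Factors of a homomorphism to the four classes (problem MP_81e58e_co)
-/

set_option autoImplicit false

namespace CodegDens

open Finset

namespace G4FactorAux

open G4CoreAux

theorem RichS_mono {T : Type} {R : T → T → T → Prop} {a b : ℝ} (hab : b ≤ a) {A B : Set T}
    (h : RichS R a A B) : RichS R b A B := by
  intro J _ x y w hx hy hw hpos
  obtain ⟨z, hz, hlt⟩ := h J x y w hx hy hw hpos
  exact ⟨z, hz, lt_of_le_of_lt (mul_le_mul_of_nonneg_right hab hpos.le) hlt⟩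

theorem chain_le {V : Type} {R : V → V → V → Prop} {a : ℝ} {L L' : ℕ} {Y : ℕ → Set V}
    (h : RChain R a L Y) (hL : L' ≤ L) : RChain R a L' Y :=
  ⟨h.sym, h.nonempty, fun t ht => h.mono t (by omega), fun t ht => h.rich t (by omega)⟩

theorem mono_le {V : Type} {R : V → V → V → Prop} {a : ℝ} {L : ℕ} {Y : ℕ → Set V}
    (h : RChain R a L Y) {s t : ℕ} (hst : s ≤ t) (ht : t ≤ L) : Y s ⊆ Y t := by
  induction hst with
  | refl => exact subset_rfl
  | step _ ih => exact (ih (by omega)).trans (h.mono _ (by omega))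

theorem coh_le {V : Type} {R : V → V → V → Prop} {Y : ℕ → Set V} {s : ℕ} {v : V} {g d d' : ℕ}
    (h : Coh R Y s v g d) (hd : d' ≤ d) : Coh R Y s v g d' := fun n hn => h n (by omega)

theorem t4_const (u x : ZMod 4) (h1 : T4 x x u) (h2 : T4 x u u) : x = u := by
  revert u x
  decide

theorem t4_loop (u w : ZMod 4) (h : T4 u u w) : w = u ∨ w = u + 1 := by
  revert u w
  decide

/-- the swap of the last two rows -/
def sw (σ : Fin 3 → ZMod 4) : Fin 3 → ZMod 4 := ![σ 0, σ 2, σ 1]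

theorem al4_l3 {a b c : Fin 3 → ZMod 4} (h0 : T4 (a 0) (b 0) (c 0)) (h1 : T4 (a 1) (b 1) (c 1))
    (h2 : T4 (a 2) (b 2) (c 2)) (e1 : T4 (a 0) (b 1) (c 2)) (e2 : T4 (a 0) (b 2) (c 1))
    (e3 : T4 (a 1) (b 0) (c 2)) (e4 : T4 (a 1) (b 2) (c 0)) (e5 : T4 (a 2) (b 0) (c 1))
    (e6 : T4 (a 2) (b 1) (c 0)) : Al4 L3 a b c := by
  intro e he
  simp only [L3, List.mem_cons, List.not_mem_nil, or_false] at he
  rcases he with rfl | rfl | rfl | rfl
  · exact ⟨h0, h0, h0, h0, h0, h0⟩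
  · exact ⟨h1, h1, h1, h1, h1, h1⟩
  · exact ⟨h2, h2, h2, h2, h2, h2⟩
  · exact ⟨e1, e2, e3, e4, e5, e6⟩

theorem al4_sw {a b c : Fin 3 → ZMod 4} (h : Al4 L3 a b c) : Al4 L3 (sw a) (sw b) (sw c) := by
  have h0 := h (0, 0, 0) (by simp [L3])
  have h1 := h (1, 1, 1) (by simp [L3])
  have h2 := h (2, 2, 2) (by simp [L3])
  have h3 := h (0, 1, 2) (by simp [L3])
  exact al4_l3 h0.1 h2.1 h1.1 h3.2.1 h3.1 h3.2.2.2.2.1 h3.2.2.2.2.2 h3.2.2.1 h3.2.2.2.1

/-- a set of constant functions which is irreducible and has two different elements contains all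
constant functions -/
theorem all_const {U : Set (Fin 3 → ZMod 4)} (hne : U.Nonempty) (hi : IrrS (Al4 L3) U)
    (hc : ∀ σ ∈ U, σ 0 = σ 1 ∧ σ 0 = σ 2) (hnc : ¬ ∀ σ ∈ U, ∀ τ ∈ U, σ 0 = τ 0) :
    ∀ u : ZMod 4, (fun _ => u) ∈ U := by
  have heq : ∀ σ ∈ U, σ = fun _ => σ 0 := by
    intro σ hσ
    obtain ⟨h1, h2⟩ := hc σ hσ
    ext i
    fin_cases i
    · rfl
    · exact h1.symm
    · exact h2.symm
  have hstep : ∀ u : ZMod 4, (fun _ : Fin 3 => u) ∈ U → (fun _ : Fin 3 => u + 1) ∈ U := by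
    intro u hu
    by_contra hcon
    have hK := hi {fun _ => u} (by
      intro σ hσ
      rw [Set.mem_singleton_iff.1 hσ]
      exact hu) ⟨_, rfl⟩ (by
      intro x hx y hy z hz hF
      rw [Set.mem_singleton_iff.1 hx, Set.mem_singleton_iff.1 hy] at hF
      have h0 := (hF (0, 0, 0) (by simp [L3])).1
      rcases t4_loop _ _ h0 with h | h
      · rw [Set.mem_singleton_iff, heq z hz, h]
      · exfalso
        apply hcon
        have h1 := heq z hz
        rw [h] at h1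
        rw [← h1]
        exact hz)
    apply hnc
    intro σ hσ τ hτ
    rw [← hK] at hσ hτ
    rw [Set.mem_singleton_iff.1 hσ, Set.mem_singleton_iff.1 hτ]
  obtain ⟨σ, hσ⟩ := hne
  have h0 : (fun _ : Fin 3 => σ 0) ∈ U := by
    rw [← heq σ hσ]
    exact hσ
  have hall : ∀ n : ℕ, (fun _ : Fin 3 => σ 0 + n) ∈ U := by
    intro n
    induction n with
    | zero => simpa using h0
    | succ n ih =>
      have := hstep _ ih
      rw [add_assoc] at this
      simpa using this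
  intro u
  have := hall (u - σ 0).val
  rw [ZMod.natCast_zmod_val] at this
  simpa using this

theorem factor_main
    (hcoh : ∀ D : ℕ → ℕ, ∃ L : ℕ, ∀ (V : Type) (R : V → V → V → Prop) (Y : ℕ → Set V)
      (a : ℝ), 1 / 4 ≤ a → RChain R a L Y →
      ∃ s v g, v ∈ Y s ∧ 1 ≤ g ∧ s + D g + g ≤ L ∧ Coh R Y s v g (D g))
    (hloop : ∀ e M g : ℕ, ∃ D : ℕ, ∀ (V : Type) (R : V → V → V → Prop) (Y : ℕ → Set V)
      (a : ℝ) (L s : ℕ) (v : V), 1 / 4 ≤ a → RChain R a L Y → v ∈ Y s → s + D ≤ L →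
      Coh R Y s v g D → (∀ s' v', v' ∈ Y s' → s' + e ≤ L → ¬ GrAt R Y e s' v') →
      ∀ (B : Type) (E : B → B → B → Prop) (Z : ℕ → Set B), Ctx E 5 Z →
      ∀ t : V → B → ZMod 4, HomT R (Y L) E (Z 5) t → ∀ b ∈ Z 0,
      ∀ x ∈ gen3 R Y s v M, ∀ y ∈ gen3 R Y s v M, ∀ z ∈ gen3 R Y s v M, R x y z →
        T4 (t x b) (t y b) (t z b))
    (hfc2 : ∀ U : Set (Fin 3 → ZMod 4), U.Nonempty → RichS (Al4 L3) (1 / 4) U U →
      IrrS (Al4 L3) U → (∀ σ ∈ U, ∀ τ ∈ U, σ 0 = τ 0) ∨ (∀ σ ∈ U, σ 0 = σ 1))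
    (hfc4 : ∀ U : Set (Fin 3 → ZMod 4), (∀ u, (fun _ => u) ∈ U) →
      RichS (Al4 L3) (1 / 4) U U → ∀ σ ∈ U, σ 0 = σ 1)
    (e : ℕ) : ∃ L : ℕ, ∀ (V : Type) (R : V → V → V → Prop) (Y : ℕ → Set V)
    (a : ℝ), 1 / 4 ≤ a → RChain R a L Y → ∃ s v, v ∈ Y s ∧ s + e ≤ L ∧
    (GrAt R Y e s v ∨ ∀ (B : Type) (E : B → B → B → Prop) (Z : ℕ → Set B), Ctx E 6 Z →
      ∀ t : V → B → ZMod 4, HomT R (Y L) E (Z 6) t →
        (∀ b ∈ Z 0, ∀ x ∈ gen3 R Y s v e, ∀ y ∈ gen3 R Y s v e, t x b = t y b) ∨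
        (∀ b ∈ Z 0, ∀ b' ∈ Z 0, ∀ x ∈ gen3 R Y s v e, t x b = t x b')) := by
  choose NC hNC using fun g : ℕ => core_exists (Fin 3 → ZMod 4) (e + 3 * g + 1) (by omega)
  choose DL hDL using fun g : ℕ => hloop e (NC g + 66) g
  obtain ⟨Lc, hLc⟩ := hcoh fun g => max (DL g) (NC g + 66)
  refine ⟨Lc + e, fun V R Y a ha hY => ?_⟩
  have ha0 : 0 ≤ a := by linarith
  by_cases hgr : ∃ s' v', v' ∈ Y s' ∧ s' + e ≤ Lc + e ∧ GrAt R Y e s' v'
  · obtain ⟨s', v', h1, h2, h3⟩ := hgr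
    exact ⟨s', v', h1, h2, Or.inl h3⟩
  push Not at hgr
  obtain ⟨s, v, g, hv, hg1, hsL, hco⟩ := hLc V R Y a ha (chain_le hY (by omega))
  have hM2 : NC g + 66 ≤ max (DL g) (NC g + 66) := le_max_right _ _
  have hD2 : DL g ≤ max (DL g) (NC g + 66) := le_max_left _ _
  refine ⟨s, v, hv, by omega, Or.inr fun B E Z hZ t ht => ?_⟩
  have hctx5 : Ctx E 5 fun n => Z (n + 1) :=
    ⟨hZ.sym, fun n hn => hZ.mono (n + 1) (by omega), fun n hn => hZ.comp (n + 1) (by omega)⟩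
  have hloops : ∀ b ∈ Z 1, ∀ x ∈ gen3 R Y s v (NC g + 66), ∀ y ∈ gen3 R Y s v (NC g + 66),
      ∀ z ∈ gen3 R Y s v (NC g + 66), R x y z → T4 (t x b) (t y b) (t z b) :=
    hDL g V R Y a (Lc + e) s v ha hY hv (by omega) (coh_le hco hD2)
      (fun s' v' h1 h2 => hgr s' v' h1 h2) B E (fun n => Z (n + 1)) hctx5 t ht
  have hZ01 : Z 0 ⊆ Z 1 := hZ.mono 0 (by omega)
  have hZ6 : ∀ n, n ≤ 6 → Z n ⊆ Z 6 := by
    intro n hn
    have key : ∀ k, n + k ≤ 6 → Z n ⊆ Z (n + k) := by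
      intro k
      induction k with
      | zero => intro _; exact subset_rfl
      | succ k ih => intro hk; exact (ih (by omega)).trans (hZ.mono (n + k) (by omega))
    have := key (6 - n) (by omega)
    rwa [Nat.add_sub_cancel' hn] at this
  have hgenL : gen3 R Y s v (NC g + 66) ⊆ Y (Lc + e) :=
    (gsub hY.mono hv (by omega)).trans (mono_le hY (by omega) (le_refl _))
  -- the main claim
  have claim : ∀ b ∈ Z 0, ∀ b' ∈ Z 0,
      (∃ x ∈ gen3 R Y s v e, ∃ y ∈ gen3 R Y s v e, t x b ≠ t y b) →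
      ∀ x ∈ gen3 R Y s v e, t x b = t x b' := by
    intro b hb b' hb' hnonc
    obtain ⟨c, hc, hE⟩ := hZ.comp 0 (by omega) b hb b' hb'
    set κ : V → Fin 3 → ZMod 4 := fun x => ![t x b, t x b', t x c] with hκ
    have hF : ∀ x ∈ gen3 R Y s v (NC g + 66), ∀ y ∈ gen3 R Y s v (NC g + 66),
        ∀ z ∈ gen3 R Y s v (NC g + 66), R x y z → Al4 L3 (κ x) (κ y) (κ z) := by
      intro x hx y hy z hz hR
      have hbb := hZ6 0 (by omega) hb
      have hbb' := hZ6 0 (by omega) hb'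
      have hcc := hZ6 1 (by omega) hc
      have hT : ∀ b₁ ∈ Z 6, ∀ b₂ ∈ Z 6, ∀ b₃ ∈ Z 6, E b₁ b₂ b₃ →
          T4 (t x b₁) (t y b₂) (t z b₃) := fun b₁ h1 b₂ h2 b₃ h3 hE' =>
        ht x (hgenL hx) y (hgenL hy) z (hgenL hz) hR b₁ h1 b₂ h2 b₃ h3 hE'
      have hs := hZ.sym
      have E1 := hE
      have E2 : E b' b c := hs.s12 _ _ _ E1
      have E3 : E b c b' := hs.s23 _ _ _ E1
      have E4 : E b' c b := hs.s23 _ _ _ E2
      have E5 : E c b b' := hs.s12 _ _ _ E3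
      have E6 : E c b' b := hs.s12 _ _ _ E4
      exact al4_l3 (hloops b (hZ01 hb) x hx y hy z hz hR)
        (hloops b' (hZ01 hb') x hx y hy z hz hR) (hloops c hc x hx y hy z hz hR)
        (hT b hbb b' hbb' c hcc E1) (hT b hbb c hcc b' hbb' E3) (hT b' hbb' b hbb c hcc E2)
        (hT b' hbb' c hcc b hbb E4) (hT c hcc b hbb b' hbb' E5) (hT c hcc b' hbb' b hbb E6)
    obtain ⟨m, H, hH, hmH, v', hv', U, hU, hcore⟩ := hNC g V R Y s v κ
    have hwin : gen3 R Y (s + m) v' (2 * H) ⊆ gen3 R Y s v (NC g + 66) :=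
      (ggen hv' (2 * H)).trans (gle R Y s v (by omega))
    have hFw : ∀ x ∈ gen3 R Y (s + m) v' (2 * H), ∀ y ∈ gen3 R Y (s + m) v' (2 * H),
        ∀ z ∈ gen3 R Y (s + m) v' (2 * H), R x y z → Al4 L3 (κ x) (κ y) (κ z) :=
      fun x hx y hy z hz => hF x (hwin hx) y (hwin hy) z (hwin hz)
    have hv'Y : v' ∈ Y (s + m) := gsub hY.mono hv (by omega) hv'
    -- Lemma A'
    have hnc : ¬ ∀ σ ∈ U, ∀ τ ∈ U, σ 0 = τ 0 := by
      intro hconst
      obtain ⟨u, hu⟩ : ∃ u, ∀ z ∈ gen3 R Y (s + m) v' (2 * H), t z b = u := by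
        refine ⟨t v' b, fun z hz => ?_⟩
        exact hconst (κ z) (hcore.sub z hz) (κ v') (hcore.sub v' (gself R Y _ v' _))
      have hA : ∀ x ∈ gen3 R Y s v (m + H - g), t x b = u := by
        intro x hx
        have hv'n : v' ∈ gen3 R Y s v (m + H - g) := gle R Y s v (by omega) hv'
        have hsubw : gen3 R Y (s + (m + H - g)) v' g ⊆ gen3 R Y (s + m) v' (2 * H) := by
          have h1 : v' ∈ gen3 R Y (s + m) v' (H - g) := gself R Y _ v' _
          have h2 := ggen h1 g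
          have e1 : s + m + (H - g) = s + (m + H - g) := by omega
          rw [e1] at h2
          exact h2.trans (gle R Y (s + m) v' (by omega))
        have hxM : x ∈ gen3 R Y s v (NC g + 66) := gle R Y s v (by omega) hx
        have hv'M : v' ∈ gen3 R Y s v (NC g + 66) := gle R Y s v (by omega) hv'
        obtain ⟨z, hz, hR⟩ := hco (m + H - g) (by omega) v' hv'n x hx x hx
        obtain ⟨z', hz', hR'⟩ := hco (m + H - g) (by omega) v' hv'n x hx v' hv'n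
        have h1 := hloops b (hZ01 hb) x hxM x hxM z (hwin (hsubw hz)) hR
        have h2 := hloops b (hZ01 hb) x hxM v' hv'M z' (hwin (hsubw hz')) hR'
        rw [hu z (hsubw hz)] at h1
        rw [hu z' (hsubw hz'), hu v' (gself R Y _ v' _)] at h2
        exact t4_const u _ h1 h2
      obtain ⟨x, hx, y, hy, hxy⟩ := hnonc
      apply hxy
      rw [hA x (gle R Y s v (by omega) hx), hA y (gle R Y s v (by omega) hy)]
    have h01 : ∀ σ ∈ U, σ 0 = σ 1 := by
      have hr := IsCore.richS ha0 hY hv'Y (by omega) (by omega) hcore hFw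
      have hi := IsCore.irrS hcore hFw
      rcases hfc2 U hU (RichS_mono ha hr) hi with h | h
      · exact absurd h hnc
      · exact h
    have h02 : ∀ σ ∈ U, σ 0 = σ 2 := by
      have hcore' := hcore.map sw
      have hFw' : ∀ x ∈ gen3 R Y (s + m) v' (2 * H), ∀ y ∈ gen3 R Y (s + m) v' (2 * H),
          ∀ z ∈ gen3 R Y (s + m) v' (2 * H), R x y z →
            Al4 L3 (sw (κ x)) (sw (κ y)) (sw (κ z)) :=
        fun x hx y hy z hz hR => al4_sw (hFw x hx y hy z hz hR)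
      have hr := IsCore.richS ha0 hY hv'Y (by omega) (by omega) hcore' hFw'
      have hi := IsCore.irrS hcore' hFw'
      rcases hfc2 (sw '' U) (hU.image _) (RichS_mono ha hr) hi with h | h
      · exfalso
        apply hnc
        intro σ hσ τ hτ
        exact h (sw σ) (Set.mem_image_of_mem _ hσ) (sw τ) (Set.mem_image_of_mem _ hτ)
      · intro σ hσ
        exact h (sw σ) (Set.mem_image_of_mem _ hσ)
    have hi := IsCore.irrS hcore hFw
    have hall := all_const hU hi (fun σ hσ => ⟨h01 σ hσ, h02 σ hσ⟩) hnc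
    have hcard : Nat.card (Fin 3 → ZMod 4) = 64 := by
      simp [Nat.card_eq_fintype_card, ZMod.card]
    obtain ⟨l, hl1, hl2, hst⟩ := stable_types ha0 hY hv κ (NC g) (by rw [hcard]; omega)
    rw [hcard] at hl2
    have hlM : gen3 R Y s v (l + 1) ⊆ gen3 R Y s v (NC g + 66) := gle R Y s v (by omega)
    have hrl := hst (Al4 L3) fun x hx y hy z hz => hF x (hlM hx) y (hlM hy) z (hlM hz)
    have hd : ∀ u : ZMod 4, (fun _ => u) ∈ κ '' gen3 R Y s v l := by
      intro u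
      obtain ⟨z, hz, hzu⟩ := hcore.full 0 (Nat.zero_le _) v' (gself R Y _ v' 0) _ (hall u)
      refine ⟨z, ?_, hzu⟩
      have h1 : z ∈ gen3 R Y (s + m) v' H := hz
      exact gle R Y s v (by omega) (ggen hv' H h1)
    have h4 := hfc4 _ hd (RichS_mono ha hrl)
    intro x hx
    exact h4 (κ x) (Set.mem_image_of_mem _ (gle R Y s v (by omega) hx))
  by_cases hall : ∀ b ∈ Z 0, ∀ x ∈ gen3 R Y s v e, ∀ y ∈ gen3 R Y s v e, t x b = t y b
  · exact Or.inl hall
  · push Not at hall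
    obtain ⟨b, hb, x, hx, y, hy, hxy⟩ := hall
    refine Or.inr fun b₁ hb₁ b₂ hb₂ x' hx' => ?_
    rw [← claim b hb b₁ hb₁ ⟨x, hx, y, hy, hxy⟩ x' hx',
      ← claim b hb b₂ hb₂ ⟨x, hx, y, hy, hxy⟩ x' hx']

end G4FactorAux

end CodegDens
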