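import Pool.Agent.Lib.MP_81e58e_co.G4StepCore
import Pool.Agent.Lib.MP_81e58e_co.G4Factor

/-!
# The step `x -> (1+x)/4` for `k = 3` (problem MP_81e58e_co)
-/

set_option autoImplicit false

namespace CodegDens

theorem irrG_E4 {C : Type} (P : Set (Multiset C)) (x : ℝ) (hx0 : 0 ≤ x) (hx : x < 1 / 3)
    (hP : IrrG P x) : IrrG (E4Pat P) ((1 + x) / 4) :=
  irrG_E4_of g4_factor P x hx0 hx hP

end CodegDens
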