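import Pool.Agent.Lib.MP_81e58e_co.G4Defs

/-!
# Module G4Val: the value of `E_4[P]` (problem MP_81e58e_co)
-/

namespace CodegDens

open Finset Filter Topology

namespace G4ValAux

theorem two_classes : ∀ u v : ZMod 4, u ≠ v → ∃ w₁ w₂ : ZMod 4, w₁ ≠ w₂ ∧ T4 w₁ u v ∧ T4 w₂ u v := by
  decide

theorem next_ne : ∀ u : ZMod 4, u ≠ u + 1 := by decide

end G4ValAux

open G4ValAux in
theorem patVal_E4 {C : Type} [Fintype C] (P : Set (Multiset C)) (x : ℝ) (hx0 : 0 ≤ x)
    (hx : x ≤ 1) (hP : PatVal 3 P x) : PatVal 3 (E4Pat P) ((1 + x) / 4) := by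
  classical
  have _ := hx0
  obtain ⟨wt, h0, h1, h2⟩ := hP
  refine ⟨fun p => wt p.2 / 4, fun p => div_nonneg (h0 p.2) (by norm_num), ?_, ?_⟩
  · rw [Fintype.sum_prod_type]
    simp only
    rw [Finset.sum_const, Finset.card_univ, ZMod.card, ← Finset.sum_div, h1]
    norm_num
  · intro s hs
    obtain ⟨p, q, rfl⟩ := Multiset.card_eq_two.mp (by omega : s.card = 2)
    rw [Fintype.sum_prod_type]
    set F : ZMod 4 → ℝ := fun u => ∑ c,
      (if (u, c) ::ₘ ({p, q} : Multiset (ZMod 4 × C)) ∈ E4Pat P then wt (u, c).2 / 4 else 0) with hF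
    have hF0 : ∀ u, 0 ≤ F u := by
      intro u
      refine Finset.sum_nonneg fun c _ => ?_
      split_ifs
      · exact div_nonneg (h0 c) (by norm_num)
      · exact le_rfl
    have hmem : ∀ (u : ZMod 4) (c : C), T4 u p.1 q.1 →
        (u = p.1 → p.1 = q.1 → ({c, p.2, q.2} : Multiset C) ∈ P) →
        (u, c) ::ₘ ({p, q} : Multiset (ZMod 4 × C)) ∈ E4Pat P :=
      fun u c h h' => ⟨(u, c), p, q, rfl, h, h'⟩
    have hfull : ∀ u, T4 u p.1 q.1 → ¬ (u = p.1 ∧ p.1 = q.1) → F u = 1 / 4 := by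
      intro u hu hn
      have h3 : ∀ c : C, (u, c) ::ₘ ({p, q} : Multiset (ZMod 4 × C)) ∈ E4Pat P := fun c =>
        hmem u c hu fun e1 e2 => absurd ⟨e1, e2⟩ hn
      simp only [hF, h3, if_true]
      rw [← Finset.sum_div, h1]
    have hpair : ∀ u v, u ≠ v → F u + F v ≤ ∑ w, F w := by
      intro u v huv
      rw [← Finset.sum_pair huv]
      exact Finset.sum_le_sum_of_subset_of_nonneg (Finset.subset_univ _) (fun u _ _ => hF0 u)
    by_cases hpq : p.1 = q.1
    · have h3 : F (p.1 + 1) = 1 / 4 := by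
        refine hfull _ (Or.inr (Or.inr (Or.inl ⟨hpq, rfl⟩))) ?_
        rintro ⟨e, -⟩
        exact next_ne p.1 e.symm
      have h4 : x / 4 ≤ F p.1 := by
        have h5 := h2 {p.2, q.2} (by simp)
        have h6 : (∑ c, if c ::ₘ ({p.2, q.2} : Multiset C) ∈ P then wt c else 0) / 4 ≤ F p.1 := by
          simp only [hF]
          rw [Finset.sum_div]
          refine Finset.sum_le_sum fun c _ => ?_
          by_cases h7 : c ::ₘ ({p.2, q.2} : Multiset C) ∈ P
          · rw [if_pos h7, if_pos (hmem p.1 c (Or.inl ⟨rfl, Or.inl hpq.symm⟩) fun _ _ => h7)]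
          · rw [if_neg h7, zero_div]
            split_ifs
            · exact div_nonneg (h0 c) (by norm_num)
            · exact le_rfl
        exact (div_le_div_of_nonneg_right h5 (by norm_num)).trans h6
      have h5 := hpair p.1 (p.1 + 1) (next_ne _)
      have h6 : (1 + x) / 4 ≤ ∑ u, F u := by
        rw [h3] at h5
        linarith
      exact h6
    · obtain ⟨w₁, w₂, hw, e1, e2⟩ := two_classes p.1 q.1 hpq
      have h3 := hfull w₁ e1 fun h => hpq h.2
      have h4 := hfull w₂ e2 fun h => hpq h.2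
      have h5 := hpair w₁ w₂ hw
      have h6 : (1 + x) / 4 ≤ ∑ u, F u := by
        rw [h3, h4] at h5
        linarith
      exact h6

end CodegDens
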