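import Pool.Agent.Lib.MP_81e58e_co.G4FinalCore
import Pool.Agent.Lib.MP_81e58e_co.G4Step
import Pool.Agent.Lib.MP_81e58e_co.G4Val
import Pool.Agent.Lib.MP_81e58e_co.G4Cir

/-!
# `k = 3`: all rationals below `1/3` are reached (problem MP_81e58e_co, module G4Final)
-/

set_option autoImplicit false

namespace CodegDens

open Finset Filter Topology

theorem reachG (p q : ℕ) (h : 3 * p < q) : ∃ (C : Type) (_ : Fintype C) (P : Set (Multiset C)),
    PatVal 3 P ((p : ℝ) / q) ∧ IrrG P ((p : ℝ) / q) :=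
  reachG_of (fun _ P x h0 h1 h2 => irrG_E4 P x h0 h1 h2)
    (fun _ _ P x h0 h1 h2 => patVal_E4 P x h0 h1 h2)
    (fun _ _ hp h3 => irrG_cir3 hp h3) p q h

end CodegDens
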