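import Pool.Agent.Lib.MP_81e58e_co.LabDefs

/-!
# Module LCirVal: the value of the circle pattern (problem MP_81e58e_co)
-/

namespace CodegDens

open Finset

theorem patVal_cir {k q p : ℕ} [NeZero q] (hk : 3 ≤ k) (hp : 1 ≤ p) (hpq : p < q) :
    PatVal k (CirPat k q p) ((p : ℝ) / (p + q)) := by
  classical
  have hq : (0 : ℝ) < q := by
    have := NeZero.pos q
    exact_mod_cast this
  have hp0 : (0 : ℝ) < p := by exact_mod_cast hp
  have hpqr : (p : ℝ) < q := by exact_mod_cast hpq
  have hs : (0 : ℝ) < (p : ℝ) + q := by positivity
  refine ⟨fun c => c.elim ((p : ℝ) / (p + q)) (fun _ => 1 / ((p : ℝ) + q)), ?_, ?_, ?_⟩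
  · intro c
    cases c <;> simp only [Option.elim] <;> positivity
  · rw [Fintype.sum_option]
    simp only [Option.elim, Finset.sum_const, Finset.card_univ, ZMod.card, nsmul_eq_mul]
    field_simp
  · intro s hcard
    have hnn : ∀ c : Option (ZMod q), (0 : ℝ) ≤
        if c ::ₘ s ∈ CirPat k q p then
          c.elim ((p : ℝ) / (p + q)) (fun _ => 1 / ((p : ℝ) + q)) else 0 := by
      intro c
      split_ifs
      · cases c <;> simp only [Option.elim] <;> positivity
      · exact le_refl _
    by_cases hA : ∃ u : ZMod q, s = Multiset.replicate (k - 1) (some u)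
    · obtain ⟨u, rfl⟩ := hA
      -- the completions `some (u + j)`
      let S : Finset (Option (ZMod q)) :=
        (Finset.Icc 1 p).image (fun j : ℕ => some (u + (j : ZMod q)))
      have hScard : S.card = p := by
        rw [Finset.card_image_of_injOn]
        · simp
        · intro i hi j hj hij
          simp only [Finset.coe_Icc, Set.mem_Icc] at hi hj
          have h1 : (i : ZMod q) = (j : ZMod q) := by
            have := Option.some_injective _ hij
            exact add_left_cancel this
          have h2 := (ZMod.natCast_eq_natCast_iff' i j q).1 h1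
          rwa [Nat.mod_eq_of_lt (by omega), Nat.mod_eq_of_lt (by omega)] at h2
      calc (p : ℝ) / (p + q) = ∑ c ∈ S, 1 / ((p : ℝ) + q) := by
            rw [Finset.sum_const, hScard, nsmul_eq_mul]
            ring
        _ = ∑ c ∈ S, (if c ::ₘ Multiset.replicate (k - 1) (some u) ∈ CirPat k q p then
              c.elim ((p : ℝ) / (p + q)) (fun _ => 1 / ((p : ℝ) + q)) else 0) := by
            refine Finset.sum_congr rfl ?_
            intro c hc
            obtain ⟨j, hj, rfl⟩ := Finset.mem_image.1 hc
            rw [Finset.mem_Icc] at hj
            rw [if_pos]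
            · rfl
            · refine ⟨?_, Or.inl ⟨u, u + (j : ZMod q), ⟨j, hj.1, hj.2, by ring⟩, rfl⟩⟩
              rw [Multiset.card_cons, hcard]
        _ ≤ _ := Finset.sum_le_sum_of_subset_of_nonneg (Finset.subset_univ _)
              (fun c _ _ => hnn c)
    · by_cases hB : ∃ u : ZMod q, some u ∈ s
      · obtain ⟨u, hu⟩ := hB
        have hmem : none ::ₘ s ∈ CirPat k q p := by
          refine ⟨?_, Or.inr ⟨Multiset.mem_cons_self _ _, ⟨u, Multiset.mem_cons_of_mem hu⟩, ?_⟩⟩
          · rw [Multiset.card_cons, hcard]
          · intro u' h
            exact hA ⟨u', (Multiset.cons_inj_right _).1 h⟩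
        have h1 := Finset.single_le_sum (f := fun c : Option (ZMod q) =>
          if c ::ₘ s ∈ CirPat k q p then
            c.elim ((p : ℝ) / (p + q)) (fun _ => 1 / ((p : ℝ) + q)) else 0)
          (fun c _ => hnn c) (Finset.mem_univ none)
        simp only [if_pos hmem, Option.elim] at h1
        exact h1
      · -- all entries are `none`
        have hs' : s = Multiset.replicate (k - 1) none := by
          rw [Multiset.eq_replicate]
          refine ⟨by omega, ?_⟩
          intro b hb
          cases b with
          | none => rfl
          | some u => exact absurd ⟨u, hb⟩ hB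
        have hmem : ∀ u : ZMod q, some u ::ₘ s ∈ CirPat k q p := by
          intro u
          refine ⟨by rw [Multiset.card_cons, hcard], Or.inr ⟨?_, ⟨u, Multiset.mem_cons_self _ _⟩, ?_⟩⟩
          · rw [hs']
            refine Multiset.mem_cons_of_mem ?_
            rw [Multiset.mem_replicate]
            exact ⟨by omega, rfl⟩
          · intro u' h
            have h2 := congrArg (Multiset.count none) h
            rw [hs', Multiset.count_cons_of_ne (by simp), Multiset.count_replicate_self,
              Multiset.count_cons_self, Multiset.count_replicate] at h2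
            simp at h2
            omega
        rw [Fintype.sum_option]
        have h1 : (p : ℝ) / (p + q) ≤ ∑ u : ZMod q,
            (if some u ::ₘ s ∈ CirPat k q p then
              (some u).elim ((p : ℝ) / (p + q)) (fun _ => 1 / ((p : ℝ) + q)) else 0) := by
          have h2 : ∀ u : ZMod q, (if some u ::ₘ s ∈ CirPat k q p then
              (some u).elim ((p : ℝ) / (p + q)) (fun _ => 1 / ((p : ℝ) + q)) else 0)
              = 1 / ((p : ℝ) + q) := fun u => by rw [if_pos (hmem u)]; rfl
          rw [Finset.sum_congr rfl (fun u _ => h2 u), Finset.sum_const, Finset.card_univ,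
            ZMod.card, nsmul_eq_mul, mul_one_div]
          exact div_le_div_of_nonneg_right hpqr.le hs.le
        have h3 := hnn none
        linarith

end CodegDens
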