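import Pool.Agent.Lib.MP_81e58e_co.G4Defs
import Pool.Agent.Lib.MP_81e58e_co.LCirVal

/-!
# `k = 3`: from `IrrG` to `IrrLab`, the empty pattern, and the induction
(problem MP_81e58e_co, module G4Final, core)
-/

set_option autoImplicit false

namespace CodegDens

open Finset Filter Topology

theorem g4f_comp {V : Type} {R : V → V → V → Prop} {a : ℝ} (ha : 0 ≤ a) {A B : Set V}
    (h : RichS R a A B) {x y : V} (hx : x ∈ A) (hy : y ∈ A) : ∃ z ∈ B, R x y z := by
  classical
  obtain ⟨z, hz, hlt⟩ := h Unit (fun _ => x) (fun _ => y) (fun _ => 1) (fun _ => hx)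
    (fun _ => hy) (fun _ => zero_le_one) (by simp)
  refine ⟨z, hz, ?_⟩
  by_contra hne
  simp only [Finset.univ_unique, Finset.sum_const, Finset.card_singleton, one_smul] at hlt
  rw [if_neg hne] at hlt
  linarith

theorem irrG_empty : IrrG (∅ : Set (Multiset Unit)) 0 := by
  refine ⟨1, fun ι _ V R Y W S lam Z hY hZ f hf => ?_⟩
  choose x hx using fun i => (hY i).nonempty
  have h1 : ∀ i, ∃ z ∈ Y i 1, R i (x i) (x i) z := fun i =>
    g4f_comp le_rfl ((hY i).rich 0 one_pos) (hx i) (hx i)
  choose z hz hR using h1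
  obtain ⟨w, hw⟩ := hZ.nonempty
  obtain ⟨w', hw', hS, -⟩ := hZ.meet 0 one_pos w hw w hw w hw w hw rfl
  have hx1 : ∀ i, x i ∈ Y i 1 := fun i => (hY i).mono 0 one_pos (hx i)
  have hw1 : w ∈ Z 1 := hZ.mono 0 one_pos hw
  exact hf x x z hx1 hx1 hz hR w hw1 w hw1 w' hw' hS

theorem irrLab_of_irrG {C : Type} (P : Set (Multiset C)) (a : ℝ) (h : IrrG P a) :
    IrrLab 3 P a := by
  classical
  obtain ⟨L, hL⟩ := h
  refine ⟨L, fun ι _ _ V E Y hY f hf => ?_⟩
  refine hL ι V (fun i x y z => ({x, y, z} : Multiset (V i)) ∈ E i) Y (ZMod 3)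
    (fun u v w => u + v + w = 1) id (fun _ => Set.univ) ?_ ?_ (fun x _ => f x) ?_
  · intro i
    have hsw : ∀ x y z : V i, ({x, y, z} : Multiset (V i)) = {y, x, z} := fun x y z =>
      Multiset.cons_swap x y {z}
    have hsw2 : ∀ x y z : V i, ({x, y, z} : Multiset (V i)) = {x, z, y} := by
      intro x y z
      have : ({y, z} : Multiset (V i)) = {z, y} := Multiset.pair_comm y z
      change x ::ₘ ({y, z} : Multiset (V i)) = x ::ₘ {z, y}
      rw [this]
    refine ⟨⟨fun x y z h => ?_, fun x y z h => ?_⟩, (hY i).nonempty, (hY i).mono, ?_⟩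
    · rw [hsw]; exact h
    · rw [hsw2]; exact h
    · intro t ht J _ x y w hx hy hw hpos
      obtain ⟨v, hv, hlt⟩ := (hY i).rich t ht J (fun j => {x j, y j}) w
        (fun j => ⟨by simp, fun u hu => by
          simp only [Multiset.insert_eq_cons, Multiset.mem_cons, Multiset.mem_singleton] at hu
          rcases hu with rfl | rfl
          · exact hx j
          · exact hy j⟩) hw hpos
      refine ⟨v, hv, ?_⟩
      have he : ∀ j, (v ::ₘ ({x j, y j} : Multiset (V i))) = {x j, y j, v} := by
        intro j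
        have : (v ::ₘ ({x j, y j} : Multiset (V i))) = {v, x j, y j} := rfl
        rw [this, hsw, hsw2]
      simpa only [he] using hlt
  · refine ⟨⟨fun x y z h => ?_, fun x y z h => ?_⟩, ⟨0, trivial⟩, fun _ _ => subset_rfl,
      fun x _ y _ z _ h => h, fun t _ x _ y _ x' _ y' _ hxy => ⟨1 - (x + y), trivial, ?_, ?_⟩⟩
    · rw [← h]; ring
    · rw [← h]; ring
    · ring
    · have h1 : x + y = x' + y' := hxy
      rw [h1]; ring
  · intro x y z hx hy hz hR u _ v _ w _ _
    have h1 := hf {x, y, z} (by simp) (fun i => by simpa using hR i) (by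
      intro t ht i
      simp only [Multiset.insert_eq_cons, Multiset.mem_cons, Multiset.mem_singleton] at ht
      rcases ht with rfl | rfl | rfl
      · exact hx i
      · exact hy i
      · exact hz i)
    simpa using h1

theorem patVal_empty : PatVal 3 (∅ : Set (Multiset Unit)) 0 := by
  classical
  refine ⟨fun _ => 1, fun _ => zero_le_one, by simp, fun s _ => ?_⟩
  simp

theorem reachG_of
    (hE4 : ∀ (C : Type) (P : Set (Multiset C)) (x : ℝ), 0 ≤ x → x < 1 / 3 →
      IrrG P x → IrrG (E4Pat P) ((1 + x) / 4))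
    (hV : ∀ (C : Type) [Fintype C] (P : Set (Multiset C)) (x : ℝ), 0 ≤ x → x ≤ 1 →
      PatVal 3 P x → PatVal 3 (E4Pat P) ((1 + x) / 4))
    (hcir : ∀ q p : ℕ, 1 ≤ p → 3 * p < q → IrrG (CirPat 3 q p) ((p : ℝ) / (p + q)))
    (p q : ℕ) (h : 3 * p < q) : ∃ (C : Type) (_ : Fintype C) (P : Set (Multiset C)),
    PatVal 3 P ((p : ℝ) / q) ∧ IrrG P ((p : ℝ) / q) := by
  induction p using Nat.strong_induction_on with
  | _ p ih =>
    have hq : (0 : ℝ) < q := by exact_mod_cast (by omega : 0 < q)
    rcases Nat.eq_zero_or_pos p with rfl | hp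
    · refine ⟨Unit, inferInstance, ∅, ?_, ?_⟩
      · simpa using patVal_empty
      · simpa using irrG_empty
    · rcases Nat.lt_or_ge (4 * p) q with h4 | h4
      · have hne : NeZero (q - p) := ⟨by omega⟩
        have he : (p : ℝ) / (p + ((q - p : ℕ) : ℝ)) = (p : ℝ) / q := by
          rw [Nat.cast_sub (by omega)]
          congr 1
          ring
        refine ⟨Option (ZMod (q - p)), inferInstance, CirPat 3 (q - p) p, ?_, ?_⟩
        · rw [← he]
          exact patVal_cir le_rfl hp (by omega)
        · rw [← he]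
          exact hcir (q - p) p hp (by omega)
      · obtain ⟨C, hC, P, h1, h2⟩ := ih (4 * p - q) (by omega) (by omega)
        have he : (1 + ((4 * p - q : ℕ) : ℝ) / q) / 4 = (p : ℝ) / q := by
          rw [Nat.cast_sub h4]
          push_cast
          field_simp
          ring
        have hx0 : (0 : ℝ) ≤ ((4 * p - q : ℕ) : ℝ) / q := by positivity
        have hx1 : ((4 * p - q : ℕ) : ℝ) / q < 1 / 3 := by
          rw [div_lt_div_iff₀ hq (by norm_num)]
          have : (((4 * p - q) * 3 : ℕ) : ℝ) < ((1 * q : ℕ) : ℝ) := by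
            exact_mod_cast (by omega : (4 * p - q) * 3 < 1 * q)
          push_cast at this
          exact_mod_cast this
        refine ⟨ZMod 4 × C, inferInstance, E4Pat P, ?_, ?_⟩
        · rw [← he]
          exact hV C P _ hx0 (by linarith) h1
        · rw [← he]
          exact hE4 C P _ hx0 hx1 h2

end CodegDens
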