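import Pool.Agent.Lib.MP_81e58e_co.G4Defs

/-!
# The step `x -> (1+x)/4` for `k = 3`: the loops, part 1 (windows and finite facts)
-/

set_option autoImplicit false

namespace CodegDens

theorem RichS.mono_g4loop {T : Type} {R : T → T → T → Prop} {a b : ℝ} (hb : b ≤ a)
    {A B : Set T} (h : RichS R a A B) : RichS R b A B := by
  intro J _ x y w hx hy hw hs
  obtain ⟨z, hz, h1⟩ := h J x y w hx hy hw hs
  exact ⟨z, hz, lt_of_le_of_lt (mul_le_mul_of_nonneg_right hb hs.le) h1⟩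

theorem Ctx.mono_le {B : Type} {E : B → B → B → Prop} {r : ℕ} {Z : ℕ → Set B}
    (h : Ctx E r Z) {m n : ℕ} (hmn : m ≤ n) (hn : n ≤ r) : Z m ⊆ Z n := by
  induction n, hmn using Nat.le_induction with
  | base => exact subset_rfl
  | succ k hk ih => exact (ih (by omega)).trans (h.mono k (by omega))

/-- the window of eight vertices at a pair `b, b₁` -/
theorem ctx_window {B : Type} {E : B → B → B → Prop} {r : ℕ} {Z : ℕ → Set B} (h : Ctx E r Z)
    {n : ℕ} {b b₁ : B} (hb : b ∈ Z n) (hb₁ : b₁ ∈ Z (n + 1)) (hE : E b b b₁) {b₂ : B}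
    (hb₂ : b₂ ∈ Z (n + 2)) (hE₂ : E b₁ b₁ b₂) (hn : n + 4 ≤ r) :
    ∃ w : Fin 8 → B, w 0 = b ∧ w 1 = b₁ ∧ w 2 = b₂ ∧ (∀ i, w i ∈ Z (n + 4)) ∧
      ∀ e ∈ H8, E (w e.1) (w e.2.1) (w e.2.2) := by
  have i0 : Z n ⊆ Z (n + 2) := h.mono_le (by omega) (by omega)
  have i1 : Z (n + 1) ⊆ Z (n + 3) := h.mono_le (by omega) (by omega)
  obtain ⟨w3, h3, e3⟩ := h.comp (n + 2) (by omega) b (i0 hb) b₂ hb₂
  obtain ⟨w4, h4, e4⟩ := h.comp (n + 2) (by omega) b₂ hb₂ b₂ hb₂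
  obtain ⟨w5, h5, e5⟩ := h.comp (n + 3) (by omega) w3 h3 w3 h3
  obtain ⟨w6, h6, e6⟩ := h.comp (n + 3) (by omega) b₁ (i1 hb₁) w3 h3
  obtain ⟨w7, h7, e7⟩ := h.comp (n + 3) (by omega) b₁ (i1 hb₁) w4 h4
  have j0 : Z n ⊆ Z (n + 4) := h.mono_le (by omega) (by omega)
  have j1 : Z (n + 1) ⊆ Z (n + 4) := h.mono_le (by omega) (by omega)
  have j2 : Z (n + 2) ⊆ Z (n + 4) := h.mono_le (by omega) (by omega)
  have j3 : Z (n + 3) ⊆ Z (n + 4) := h.mono_le (by omega) (by omega)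
  refine ⟨![b, b₁, b₂, w3, w4, w5, w6, w7], rfl, rfl, rfl, ?_, ?_⟩
  · intro i
    fin_cases i
    · exact j0 hb
    · exact j1 hb₁
    · exact j2 hb₂
    · exact j3 h3
    · exact j3 h4
    · exact h5
    · exact h6
    · exact h7
  · intro e he
    simp only [H8, List.mem_cons, List.not_mem_nil, or_false] at he
    rcases he with rfl | rfl | rfl | rfl | rfl | rfl | rfl
    · exact hE
    · exact hE₂
    · exact e3
    · exact e4
    · exact e5
    · exact e6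
    · exact e7

theorem al4_of_hom {V B : Type} {R : V → V → V → Prop} {Y : Set V} {E : B → B → B → Prop}
    (hs : Sym3 E) {Z : Set B} {t : V → B → ZMod 4} (ht : HomT R Y E Z t) {n : ℕ}
    (H : List (Fin n × Fin n × Fin n)) (w : Fin n → B) (hw : ∀ i, w i ∈ Z)
    (hE : ∀ e ∈ H, E (w e.1) (w e.2.1) (w e.2.2)) {x y z : V} (hx : x ∈ Y) (hy : y ∈ Y)
    (hz : z ∈ Y) (hR : R x y z) :
    Al4 H (fun i => t x (w i)) (fun i => t y (w i)) (fun i => t z (w i)) := by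
  intro e he
  have h1 := hE e he
  have h2 := hs.s23 _ _ _ h1
  have h3 := hs.s12 _ _ _ h1
  have h4 := hs.s23 _ _ _ h3
  have h5 := hs.s12 _ _ _ h2
  have h6 := hs.s23 _ _ _ h5
  exact ⟨ht x hx y hy z hz hR _ (hw _) _ (hw _) _ (hw _) h1,
    ht x hx y hy z hz hR _ (hw _) _ (hw _) _ (hw _) h2,
    ht x hx y hy z hz hR _ (hw _) _ (hw _) _ (hw _) h3,
    ht x hx y hy z hz hR _ (hw _) _ (hw _) _ (hw _) h4,
    ht x hx y hy z hz hR _ (hw _) _ (hw _) _ (hw _) h5,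
    ht x hx y hy z hz hR _ (hw _) _ (hw _) _ (hw _) h6⟩

set_option synthInstance.maxSize 10000 in
set_option maxRecDepth 100000 in
theorem fc5_aux : ∀ (u x0 x1 z1 z1' : ZMod 4), (T4 z1 u u ∧ T4 z1' u u ∧ T4 x1 u u ∧
    T4 x0 x1 u ∧ T4 x0 x0 z1 ∧ T4 x0 u z1' ∧ T4 x0 z1 u) → x0 = u := by
  decide

/-- the finite fact behind Lemma A -/
theorem fc5 (u x0 x1 z1 z1' : ZMod 4) (h1 : T4 z1 u u) (h2 : T4 z1' u u) (h3 : T4 x1 u u)
    (h4 : T4 x0 x1 u) (h5 : T4 x0 x0 z1) (h6 : T4 x0 u z1') (h7 : T4 x0 z1 u) : x0 = u :=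
  fc5_aux u x0 x1 z1 z1' ⟨h1, h2, h3, h4, h5, h6, h7⟩

theorem t4_uu : ∀ u q : ZMod 4, T4 u u q → (q = u ∨ q = u + 1) := by decide

theorem t4_self (u : ZMod 4) : T4 u u u := Or.inl ⟨rfl, Or.inl rfl⟩

/-- a nonempty irreducible set of constant functions is a single function or contains all of
them -/
theorem const_all {n : ℕ} [NeZero n] {F : (Fin n → ZMod 4) → (Fin n → ZMod 4) →
    (Fin n → ZMod 4) → Prop} (hF : ∀ a b c, F a b c → T4 (a 0) (b 0) (c 0) ∨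
      ((∀ i j, a i = a j) → (∀ i j, b i = b j) → (∀ i j, c i = c j) → T4 (a 0) (b 0) (c 0)))
    {U : Set (Fin n → ZMod 4)} (hne : U.Nonempty) (hi : IrrS F U)
    (hc : ∀ σ ∈ U, ∀ i j, σ i = σ j) (hnc : ¬ ∀ σ ∈ U, ∀ τ ∈ U, σ 0 = τ 0) :
    ∀ u : ZMod 4, (fun _ => u) ∈ U := by
  have hstep : ∀ u : ZMod 4, (fun _ => u) ∈ U → (fun _ => u + 1) ∈ U := by
    intro u hu
    by_contra hnu
    apply hnc
    have hK : ({fun _ => u} : Set (Fin n → ZMod 4)) = U := by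
      apply hi
      · intro x hx
        rw [Set.mem_singleton_iff] at hx
        rw [hx]
        exact hu
      · exact ⟨_, rfl⟩
      · intro x hx y hy z hz hxyz
        rw [Set.mem_singleton_iff] at hx hy ⊢
        subst hx hy
        have h1 : T4 u u (z 0) := by
          rcases hF _ _ _ hxyz with h | h
          · exact h
          · exact h (fun _ _ => rfl) (fun _ _ => rfl) (hc z hz)
        have h2 : z 0 = u ∨ z 0 = u + 1 := t4_uu u (z 0) h1
        have hz0 : z = fun _ => z 0 := funext fun i => hc z hz i 0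
        rcases h2 with h2 | h2
        · rw [hz0, h2]
        · exfalso
          apply hnu
          rw [← h2, ← hz0]
          exact hz
    intro σ hσ τ hτ
    rw [← hK, Set.mem_singleton_iff] at hσ hτ
    rw [hσ, hτ]
  obtain ⟨σ, hσ⟩ := hne
  have h0 : (fun _ => σ 0) ∈ U := by
    have : σ = fun _ => σ 0 := funext fun i => hc σ hσ i 0
    rw [← this]
    exact hσ
  intro u
  have h1 := hstep _ h0
  have h2 := hstep _ h1
  have h3 := hstep _ h2
  have h4 : u = σ 0 ∨ u = σ 0 + 1 ∨ u = σ 0 + 1 + 1 ∨ u = σ 0 + 1 + 1 + 1 := by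
    generalize σ 0 = q
    revert u q
    decide
  rcases h4 with h | h | h | h
  · rw [h]; exact h0
  · rw [h]; exact h1
  · rw [h]; exact h2
  · rw [h]; exact h3

end CodegDens
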