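import Pool.Agent.Lib.MP_81e58e_co.G4Basic
import Pool.Agent.Lib.MP_81e58e_co.G4Core
import Pool.Agent.Lib.MP_81e58e_co.G4LoopCore

/-!
# The step `x -> (1+x)/4` for `k = 3`: the loops, part 2 (from the finite checks)
-/

set_option autoImplicit false

namespace CodegDens

section

variable {V : Type} {R : V → V → V → Prop} {Y : ℕ → Set V} {a : ℝ} {L s : ℕ} {v : V}
  {B : Type} {E : B → B → B → Prop} {Z : ℕ → Set B} {t : V → B → ZMod 4}

/-- Lemma A: a row that is constant on the core is constant. -/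
theorem row_const (hY : RChain R a L Y) (hv : v ∈ Y s) {g D : ℕ} (hsD : s + D + g ≤ L)
    (hC : Coh R Y s v g D) (hE : Sym3 E) {r : ℕ} (ht : HomT R (Y L) E (Z r) t) {b b₁ : B}
    (hb : b ∈ Z r) (hb₁ : b₁ ∈ Z r) (hbb : E b b b₁) {m H M : ℕ} (hM : M + 3 * g ≤ 2 * H)
    (hD : m + M + 2 * g ≤ D) {v' : V} (hv' : v' ∈ gen3 R Y s v m) {u : ZMod 4}
    (hu : ∀ x ∈ gen3 R Y (s + m) v' (2 * H), t x b = u) :
    ∀ x ∈ gen3 R Y s v M, t x b = u := by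
  have hYL : ∀ n, n ≤ D + g → gen3 R Y s v n ⊆ Y L := fun n hn =>
    (gen3_sub hY.mono hv (by omega : s + n ≤ L)).trans (hY.mono_le (by omega) le_rfl)
  -- completions in the core window
  have key : ∀ k, M ≤ k → k ≤ M + 2 * g → ∀ p ∈ gen3 R Y s v (m + k),
      ∀ q ∈ gen3 R Y s v (m + k), ∃ z ∈ gen3 R Y s v (m + (k + g)), R p q z ∧ t z b = u := by
    intro k hk1 hk p hp q hq
    have hv1 : v' ∈ gen3 R Y s v (m + k) := gen3_le R Y s v (by omega) hv'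
    obtain ⟨z, hz, hR⟩ := hC (m + k) (by omega) v' hv1 p hp q hq
    have h1 : z ∈ gen3 R Y s v (m + k + g) := gen3_gen3 hv1 g hz
    have h2 : z ∈ gen3 R Y (s + m) v' (k + g) := by
      have h3 := gen3_gen3 (gen3_self R Y (s + m) v' k) g
      rw [Nat.add_assoc s m k] at h3
      exact h3 hz
    refine ⟨z, by rw [← Nat.add_assoc]; exact h1, hR, hu z ?_⟩
    exact gen3_le R Y (s + m) v' (by omega) h2
  have e1 : E b b b₁ := hbb
  have e2 : E b b₁ b := hE.s23 _ _ _ hbb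
  have e3 : E b₁ b b := hE.s12 _ _ _ e2
  have hv2 : ∀ k, v' ∈ gen3 R Y s v (m + k) := fun k => gen3_le R Y s v (by omega) hv'
  -- the second row of `p` after completing `(p, v')`
  have row2 : ∀ k, M ≤ k → k ≤ M + 2 * g → ∀ p ∈ gen3 R Y s v (m + k), T4 (t p b₁) u u := by
    intro k hk1 hk p hp
    obtain ⟨c, hc, hR, hcu⟩ := key k hk1 hk p hp v' (hv2 k)
    have h := ht p (hYL _ (by omega) hp) v' (hYL _ (by omega) (hv2 k)) c
      (hYL _ (by omega) hc) hR _ hb₁ _ hb _ hb e3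
    rwa [hu v' (gen3_self R Y (s + m) v' (2 * H)), hcu] at h
  intro x hx0
  have hx : x ∈ gen3 R Y s v (m + M) := gen3_le R Y s v (by omega) hx0
  have hxg : x ∈ gen3 R Y s v (m + (M + g)) := gen3_le R Y s v (by omega) hx0
  obtain ⟨z, hz, hRz, hzu⟩ := key M le_rfl (by omega) x hx x hx
  obtain ⟨z', hz', hRz', hzu'⟩ := key (M + g) (by omega) (by omega) x hxg z hz
  have hxL := hYL _ (by omega) hx
  have hzL := hYL _ (by omega) hz
  have hzL' := hYL _ (by omega) hz'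
  have f1 := row2 (M + g) (by omega) (by omega) z hz
  have f2 := row2 (M + g + g) (by omega) (by omega) z' hz'
  have f3 := row2 M le_rfl (by omega) x hx
  have f4 := ht x hxL x hxL z hzL hRz _ hb _ hb₁ _ hb e2
  have f5 := ht x hxL x hxL z hzL hRz _ hb _ hb _ hb₁ e1
  have f6 := ht x hxL z hzL z' hzL' hRz' _ hb _ hb _ hb₁ e1
  have f7 := ht x hxL z hzL z' hzL' hRz' _ hb _ hb₁ _ hb e2
  rw [hzu] at f4 f6
  rw [hzu'] at f7
  exact fc5 u _ _ _ _ f1 f2 f3 f4 f5 f6 f7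

end

theorem g4_loop_of
    (fc1 : ∀ U : Set (Fin 8 → ZMod 4), U.Nonempty → RichS (Al4 H8) (1 / 4) U U →
      IrrS (Al4 H8) U → (∀ σ ∈ U, ∀ τ ∈ U, σ 0 = τ 0) ∨ (∀ σ ∈ U, σ 0 = σ 1) ∨
      ∃ lam : (Fin 8 → ZMod 4) → ZMod 3, ∀ σ ∈ U, ∀ τ ∈ U, ∀ ρ ∈ U, Al4 H8 σ τ ρ →
        lam σ + lam τ + lam ρ = 1)
    (fc3 : ∀ U : Set (Fin 3 → ZMod 4), (∀ u, (fun _ => u) ∈ U) →
      RichS (Al4 P3) (1 / 4) U U → ∀ σ ∈ U, σ 0 = σ 1)
    (e M g : ℕ) : ∃ D : ℕ, ∀ (V : Type) (R : V → V → V → Prop) (Y : ℕ → Set V)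
    (a : ℝ) (L s : ℕ) (v : V), 1 / 4 ≤ a → RChain R a L Y → v ∈ Y s → s + D ≤ L →
    Coh R Y s v g D → (∀ s' v', v' ∈ Y s' → s' + e ≤ L → ¬ GrAt R Y e s' v') →
    ∀ (B : Type) (E : B → B → B → Prop) (Z : ℕ → Set B), Ctx E 5 Z →
    ∀ t : V → B → ZMod 4, HomT R (Y L) E (Z 5) t → ∀ b ∈ Z 0,
    ∀ x ∈ gen3 R Y s v M, ∀ y ∈ gen3 R Y s v M, ∀ z ∈ gen3 R Y s v M, R x y z →
      T4 (t x b) (t y b) (t z b) := by
  obtain ⟨N, hN⟩ := core_exists ((Fin 8 → ZMod 4) × (Fin 8 → ZMod 4)) (M + 3 * g + e + 1)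
    (by omega)
  refine ⟨max N M + 66 + g, ?_⟩
  intro V R Y a L s v ha hY hv hsD hC hG B E Z hZ t ht b hb
  have ha0 : (0 : ℝ) ≤ a := by linarith
  obtain ⟨b₁, hb₁, hE₁⟩ := hZ.comp 0 (by omega) b hb b hb
  obtain ⟨b₂, hb₂, hE₂⟩ := hZ.comp 1 (by omega) b₁ hb₁ b₁ hb₁
  obtain ⟨b₃, hb₃, hE₃⟩ := hZ.comp 2 (by omega) b₂ hb₂ b₂ hb₂
  obtain ⟨w, hw0, hw1, -, hwZ, hwE⟩ := ctx_window (n := 0) hZ hb hb₁ hE₁ hb₂ hE₂ (by omega)
  obtain ⟨w', hw0', hw1', -, hwZ', hwE'⟩ :=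
    ctx_window (n := 1) hZ hb₁ hb₂ hE₂ hb₃ hE₃ (by omega)
  have hwZ5 : ∀ i, w i ∈ Z 5 := fun i => hZ.mono_le (by omega) (by omega) (hwZ i)
  have hb5 : b ∈ Z 5 := hZ.mono_le (by omega) (by omega) hb
  have hb15 : b₁ ∈ Z 5 := hZ.mono_le (by omega) (by omega) hb₁
  have hb25 : b₂ ∈ Z 5 := hZ.mono_le (by omega) (by omega) hb₂
  set κ : V → (Fin 8 → ZMod 4) × (Fin 8 → ZMod 4) :=
    fun x => (fun i => t x (w i), fun i => t x (w' i)) with hκ
  obtain ⟨m, H, hhH, hmN, v', hv', U, hUne, hU⟩ := hN V R Y s v κ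
  have hm1 : N ≤ max N M := le_max_left _ _
  have hm2 : M ≤ max N M := le_max_right _ _
  have hYL : ∀ n, s + n ≤ L → gen3 R Y s v n ⊆ Y L := fun n hn =>
    (gen3_sub hY.mono hv hn).trans (hY.mono_le hn le_rfl)
  have hv'Y : v' ∈ Y (s + m) := gen3_sub hY.mono hv (by omega) hv'
  have hcoreL : gen3 R Y (s + m) v' (2 * H) ⊆ Y L :=
    (gen3_sub hY.mono hv'Y (by omega)).trans (hY.mono_le (by omega) le_rfl)
  have hcoreN : gen3 R Y (s + m) v' (2 * H) ⊆ gen3 R Y s v N :=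
    (gen3_gen3 hv' (2 * H)).trans (gen3_le R Y s v hmN)
  -- `U` consists of types of the core
  have hrep : ∀ ρ ∈ U, ∃ z ∈ gen3 R Y (s + m) v' (2 * H), κ z = ρ := by
    intro ρ hρ
    obtain ⟨z, hz, h⟩ := hU.full 0 (Nat.zero_le _) v' (gen3_self R Y (s + m) v' 0) ρ hρ
    exact ⟨z, gen3_le R Y (s + m) v' (by omega) hz, h⟩
  have hal1 : ∀ x ∈ gen3 R Y (s + m) v' (2 * H), ∀ y ∈ gen3 R Y (s + m) v' (2 * H),
      ∀ z ∈ gen3 R Y (s + m) v' (2 * H), R x y z →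
      Al4 H8 ((κ x).1) ((κ y).1) ((κ z).1) := by
    intro x hx y hy z hz hR
    exact al4_of_hom hZ.sym ht H8 w hwZ5 hwE (hcoreL hx) (hcoreL hy) (hcoreL hz) hR
  have hal2 : ∀ x ∈ gen3 R Y (s + m) v' (2 * H), ∀ y ∈ gen3 R Y (s + m) v' (2 * H),
      ∀ z ∈ gen3 R Y (s + m) v' (2 * H), R x y z →
      Al4 H8 ((κ x).2) ((κ y).2) ((κ z).2) := by
    intro x hx y hy z hz hR
    exact al4_of_hom hZ.sym ht H8 w' hwZ' hwE' (hcoreL hx) (hcoreL hy) (hcoreL hz) hR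
  have hgr : ∀ (κ' : V → Fin 8 → ZMod 4) (U' : Set (Fin 8 → ZMod 4)),
      (∀ x ∈ gen3 R Y (s + m) v' (2 * H), κ' x ∈ U') →
      (∀ x ∈ gen3 R Y (s + m) v' (2 * H), ∀ y ∈ gen3 R Y (s + m) v' (2 * H),
        ∀ z ∈ gen3 R Y (s + m) v' (2 * H), R x y z → Al4 H8 (κ' x) (κ' y) (κ' z)) →
      ¬ ∃ lam : (Fin 8 → ZMod 4) → ZMod 3, ∀ σ ∈ U', ∀ τ ∈ U', ∀ ρ ∈ U', Al4 H8 σ τ ρ →
        lam σ + lam τ + lam ρ = 1 := by
    rintro κ' U' hsub hal ⟨lam, hlam⟩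
    apply hG (s + m) v' hv'Y (by omega)
    refine ⟨fun x => lam (κ' x), ?_⟩
    have hinc : gen3 R Y (s + m) v' e ⊆ gen3 R Y (s + m) v' (2 * H) :=
      gen3_le R Y (s + m) v' (by omega)
    intro x hx y hy z hz hR
    exact hlam _ (hsub x (hinc hx)) _ (hsub y (hinc hy)) _ (hsub z (hinc hz))
      (hal x (hinc hx) y (hinc hy) z (hinc hz) hR)
  have hcore1 := hU.map Prod.fst
  have hcore2 := hU.map Prod.snd
  have hH1 : 1 ≤ H := by omega
  have hr1 : RichS (Al4 H8) (1 / 4) (Prod.fst '' U) (Prod.fst '' U) :=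
    (hcore1.richS ha0 hY hv'Y hH1 (by omega) hal1).mono_g4loop ha
  have hr2 : RichS (Al4 H8) (1 / 4) (Prod.snd '' U) (Prod.snd '' U) :=
    (hcore2.richS ha0 hY hv'Y hH1 (by omega) hal2).mono_g4loop ha
  have hi1 : IrrS (Al4 H8) (Prod.fst '' U) := hcore1.irrS hal1
  have hi2 : IrrS (Al4 H8) (Prod.snd '' U) := hcore2.irrS hal2
  by_cases hA : ∀ σ ∈ Prod.fst '' U, ∀ τ ∈ Prod.fst '' U, σ 0 = τ 0
  · -- row 0 is constant on the core
    have hu : ∀ x ∈ gen3 R Y (s + m) v' (2 * H), t x b = t v' b := by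
      intro x hx
      have h := hA _ ⟨_, hU.sub x hx, rfl⟩ _
        ⟨_, hU.sub v' (gen3_self R Y (s + m) v' (2 * H)), rfl⟩
      simpa [hκ, hw0] using h
    have hrow := row_const (M := M) (D := max N M + 66) hY hv (by omega)
      (fun n hn => hC n (by omega)) hZ.sym ht hb5 hb15 hE₁
      (by omega) (by omega) hv' hu
    intro x hx y hy z hz _
    rw [hrow x hx, hrow y hy, hrow z hz]
    exact t4_self _
  · have hB : ∀ σ ∈ Prod.fst '' U, σ 0 = σ 1 := by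
      rcases fc1 _ (hUne.image _) hr1 hi1 with h | h | h
      · exact absurd h hA
      · exact h
      · exact absurd h (hgr (fun x => (κ x).1) _ (fun x hx => ⟨_, hU.sub x hx, rfl⟩) hal1)
    have hB' : ∀ x ∈ gen3 R Y (s + m) v' (2 * H), t x b = t x b₁ := by
      intro x hx
      have h := hB _ ⟨_, hU.sub x hx, rfl⟩
      simpa [hκ, hw0, hw1] using h
    have hB2 : ∀ σ ∈ Prod.snd '' U, σ 0 = σ 1 := by
      rcases fc1 _ (hUne.image _) hr2 hi2 with h | h | h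
      · exfalso
        apply hA
        rintro _ ⟨ρ, hρ, rfl⟩ _ ⟨ρ', hρ', rfl⟩
        obtain ⟨z, hz, rfl⟩ := hrep ρ hρ
        obtain ⟨z', hz', rfl⟩ := hrep ρ' hρ'
        have h1 := h _ ⟨_, hρ, rfl⟩ _ ⟨_, hρ', rfl⟩
        have h2 : t z b₁ = t z' b₁ := by simpa [hκ, hw0'] using h1
        have h3 : t z b = t z' b := by rw [hB' z hz, hB' z' hz', h2]
        simpa [hκ, hw0] using h3
      · exact h
      · exact absurd h (hgr (fun x => (κ x).2) _ (fun x hx => ⟨_, hU.sub x hx, rfl⟩) hal2)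
    have hB2' : ∀ x ∈ gen3 R Y (s + m) v' (2 * H), t x b₁ = t x b₂ := by
      intro x hx
      have h := hB2 _ ⟨_, hU.sub x hx, rfl⟩
      simpa [hκ, hw0', hw1'] using h
    -- the types on the path `b, b₁, b₂`
    let w3 : Fin 3 → B := ![b, b₁, b₂]
    have hw3Z : ∀ i, w3 i ∈ Z 5 := by
      intro i
      fin_cases i
      · exact hb5
      · exact hb15
      · exact hb25
    have hw3E : ∀ e ∈ P3, E (w3 e.1) (w3 e.2.1) (w3 e.2.2) := by
      intro e he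
      simp only [P3, List.mem_cons, List.not_mem_nil, or_false] at he
      rcases he with rfl | rfl
      · exact hE₁
      · exact hE₂
    let κ3 : V → Fin 3 → ZMod 4 := fun x i => t x (w3 i)
    have hal3 : ∀ x ∈ Y L, ∀ y ∈ Y L, ∀ z ∈ Y L, R x y z → Al4 P3 (κ3 x) (κ3 y) (κ3 z) := by
      intro x hx y hy z hz hR
      exact al4_of_hom hZ.sym ht P3 w3 hw3Z hw3E hx hy hz hR
    let π : (Fin 8 → ZMod 4) × (Fin 8 → ZMod 4) → Fin 3 → ZMod 4 :=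
      fun ρ => ![ρ.1 0, ρ.1 1, ρ.2 1]
    have hπ : ∀ x, π (κ x) = κ3 x := by
      intro x
      funext i
      fin_cases i
      · simp [π, κ3, w3, hκ, hw0]
      · simp [π, κ3, w3, hκ, hw1]
      · simp [π, κ3, w3, hκ, hw1']
    have hcore3 : IsCore R Y (s + m) v' H κ3 (π '' U) := by
      have h := hU.map π
      have h2 : (fun x => π (κ x)) = κ3 := funext hπ
      rwa [h2] at h
    have hi3 : IrrS (Al4 P3) (π '' U) := hcore3.irrS (fun x hx y hy z hz hR =>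
      hal3 x (hcoreL hx) y (hcoreL hy) z (hcoreL hz) hR)
    have hc3 : ∀ σ ∈ π '' U, ∀ i j, σ i = σ j := by
      rintro _ ⟨ρ, hρ, rfl⟩ i j
      obtain ⟨z, hz, rfl⟩ := hrep ρ hρ
      rw [hπ z]
      have h1 : ∀ i, κ3 z i = t z b := by
        intro i
        fin_cases i
        · rfl
        · exact (hB' z hz).symm
        · exact ((hB' z hz).trans (hB2' z hz)).symm
      rw [h1 i, h1 j]
    have hnc3 : ¬ ∀ σ ∈ π '' U, ∀ τ ∈ π '' U, σ 0 = τ 0 := by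
      intro h
      apply hA
      rintro _ ⟨ρ, hρ, rfl⟩ _ ⟨ρ', hρ', rfl⟩
      exact h _ ⟨ρ, hρ, rfl⟩ _ ⟨ρ', hρ', rfl⟩
    have hall : ∀ u : ZMod 4, (fun _ => u) ∈ π '' U := by
      refine const_all (F := Al4 P3) ?_ (hUne.image _) hi3 hc3 hnc3
      intro a b c hF
      right
      intro _ _ hc
      have h1 := (hF (0, 0, 1) (by simp [P3])).1
      simp only at h1
      rw [hc 0 1]
      exact h1
    -- stable types
    have hcard : Nat.card (Fin 3 → ZMod 4) = 64 := by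
      simp [Nat.card_eq_fintype_card, ZMod.card]
    obtain ⟨l, hl1, hl2, hl3⟩ := stable_types ha0 hY hv κ3 (max N M) (by rw [hcard]; omega)
    rw [hcard] at hl2
    have hrl := (hl3 (Al4 P3) (fun x hx y hy z hz hR => hal3 x (hYL _ (by omega) hx) y
      (hYL _ (by omega) hy) z (hYL _ (by omega) hz) hR)).mono_g4loop ha
    have hdl : ∀ u : ZMod 4, (fun _ => u) ∈ κ3 '' gen3 R Y s v l := by
      intro u
      obtain ⟨ρ, hρ, h⟩ := hall u
      obtain ⟨z, hz, rfl⟩ := hrep ρ hρ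
      rw [hπ z] at h
      exact ⟨z, gen3_le R Y s v (by omega) (hcoreN hz), h⟩
    have hfin := fc3 _ hdl hrl
    intro x hx y hy z hz hR
    have hML : gen3 R Y s v M ⊆ gen3 R Y s v l := gen3_le R Y s v (by omega)
    have hz2 : t z b = t z b₁ := hfin _ ⟨z, hML hz, rfl⟩
    rw [hz2]
    exact ht x (hYL _ (by omega) hx) y (hYL _ (by omega) hy) z (hYL _ (by omega) hz) hR
      b hb5 b hb5 b₁ hb15 hE₁

end CodegDens
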