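import Pool.Agent.Lib.MP_81e58e_co.G4Eng

/-!
# Soundness of the certificate checker (problem MP_81e58e_co)
-/

set_option autoImplicit false

namespace CodegDens

namespace FC

open Finset

/-! ## Codes -/

/-- The code of the digits `f 0, ..., f (w-1)`. -/
def cdf : ℕ → (ℕ → ℕ) → ℕ
  | 0, _ => 0
  | w + 1, f => cdf w f + f w * 4 ^ w

theorem cdf_congr {f g : ℕ → ℕ} : ∀ {w : ℕ}, (∀ i, i < w → f i = g i) → cdf w f = cdf w g
  | 0, _ => rfl
  | w + 1, h => by
    simp only [cdf]
    rw [cdf_congr (fun i hi => h i (by omega)), h w (by omega)]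

theorem cdf_lt {f : ℕ → ℕ} (hf : ∀ i, f i < 4) : ∀ w, cdf w f < 4 ^ w
  | 0 => by simp [cdf]
  | w + 1 => by
    have h1 := cdf_lt hf w
    have h2 : f w * 4 ^ w ≤ 3 * 4 ^ w := Nat.mul_le_mul_right _ (by have := hf w; omega)
    simp only [cdf]
    rw [pow_succ]
    omega

theorem dg_eq (t i : ℕ) : dg t i = t / 4 ^ i % 4 := by
  unfold dg
  rw [Nat.shiftRight_eq_div_pow, show (3 : ℕ) = 2 ^ 2 - 1 by norm_num, Nat.and_two_pow_sub_one_eq_mod,
    pow_mul]
  norm_num

theorem dg_cdf {f : ℕ → ℕ} (hf : ∀ i, f i < 4) : ∀ {w i : ℕ}, i < w → dg (cdf w f) i = f i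
  | 0, i, h => absurd h (by omega)
  | w + 1, i, h => by
    rw [dg_eq]
    simp only [cdf]
    rcases Nat.lt_succ_iff_lt_or_eq.mp h with h1 | h1
    · have h2 := dg_cdf hf h1
      rw [dg_eq] at h2
      have h3 : f w * 4 ^ w = (4 * (f w * 4 ^ (w - i - 1))) * 4 ^ i := by
        rw [show (4 * (f w * 4 ^ (w - i - 1))) * 4 ^ i = f w * (4 * 4 ^ (w - i - 1) * 4 ^ i) by ring,
          ← pow_succ', ← pow_add]
        congr 2
        omega
      rw [h3, Nat.add_mul_div_right _ _ (by positivity), Nat.add_mul_mod_self_left, h2]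
    · subst h1
      rw [Nat.add_mul_div_right _ _ (by positivity), Nat.div_eq_of_lt (cdf_lt hf i), zero_add]
      exact Nat.mod_eq_of_lt (hf i)

/-! ## Masks of a digit -/

/-- All numbers below `n` satisfy `p`. -/
def allB (p : ℕ → Bool) : ℕ → Bool
  | 0 => true
  | n + 1 => p n && allB p n

theorem allB_spec {p : ℕ → Bool} : ∀ {n : ℕ}, allB p n = true → ∀ t, t < n → p t = true
  | 0, _, t, ht => absurd ht (by omega)
  | n + 1, h, t, ht => by
    simp only [allB, Bool.and_eq_true] at h
    rcases Nat.lt_succ_iff_lt_or_eq.mp ht with h1 | h1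
    · exact allB_spec h.2 t h1
    · rw [h1]; exact h.1

theorem Bt3 : allB (fun k => allB (fun t => (Bt 3 k <<< (dg t k * 4 ^ k)).testBit t) 64) 3 = true := by
  decide +kernel

theorem Bt4 : allB (fun k => allB (fun t => (Bt 4 k <<< (dg t k * 4 ^ k)).testBit t) 256) 4 = true := by
  decide +kernel

theorem Bt5 : allB (fun k => allB (fun t => (Bt 5 k <<< (dg t k * 4 ^ k)).testBit t) 1024) 5 =
    true := by
  decide +kernel

theorem Bt6 : allB (fun k => allB (fun t => (Bt 6 k <<< (dg t k * 4 ^ k)).testBit t) 4096) 6 =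
    true := by
  decide +kernel

theorem Bt_spec {w : ℕ} (h1 : 3 ≤ w) (h2 : w ≤ 6) {k : ℕ} (hk : k < w) {t : ℕ} (ht : t < 4 ^ w) :
    (Bt w k <<< (dg t k * 4 ^ k)).testBit t = true := by
  have : w = 3 ∨ w = 4 ∨ w = 5 ∨ w = 6 := by omega
  rcases this with rfl | rfl | rfl | rfl
  · exact allB_spec (allB_spec Bt3 k hk) t (by norm_num at ht; exact ht)
  · exact allB_spec (allB_spec Bt4 k hk) t (by norm_num at ht; exact ht)
  · exact allB_spec (allB_spec Bt5 k hk) t (by norm_num at ht; exact ht)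
  · exact allB_spec (allB_spec Bt6 k hk) t (by norm_num at ht; exact ht)

theorem dig4_spec {B s A t d : ℕ} (hd : d < 4) (hA : A.testBit d = true)
    (hB : (B <<< (d * s)).testBit t = true) : (dig4 B s A).testBit t = true := by
  unfold dig4
  simp only [Nat.testBit_or, Bool.or_eq_true]
  have : d = 0 ∨ d = 1 ∨ d = 2 ∨ d = 3 := by omega
  rcases this with rfl | rfl | rfl | rfl
  · left; left
    rw [hA, zero_mul, Nat.shiftLeft_zero] at *
    exact hB
  · left; right
    rw [one_mul] at hB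
    rw [hA]
    exact hB
  · right; left
    rw [hA]
    exact hB
  · right; right
    rw [hA]
    exact hB

theorem rowA_spec {x y d : ℕ} (hd : d < 4) : ∀ {l : List (ℕ × ℕ)}, (∀ i j, (i, j) ∈ l →
    (nr (dg x i) (dg y j)).testBit d = true ∧ (nr (dg y i) (dg x j)).testBit d = true) →
    (rowA x y l).testBit d = true
  | [], _ => by
    have : d = 0 ∨ d = 1 ∨ d = 2 ∨ d = 3 := by omega
    simp only [rowA]
    rcases this with rfl | rfl | rfl | rfl <;> decide
  | (i, j) :: l, h => by
    simp only [rowA, Nat.testBit_and, Bool.and_eq_true]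
    exact ⟨h i j (List.mem_cons_self ..), rowA_spec hd fun i' j' h' =>
      h i' j' (List.mem_cons_of_mem _ h')⟩

theorem nbr_spec {x y t : ℕ} : ∀ {rows : List (ℕ × ℕ × List (ℕ × ℕ))} {m : ℕ},
    m.testBit t = true → (∀ B s c, (B, s, c) ∈ rows → ∃ d, d < 4 ∧
      (B <<< (d * s)).testBit t = true ∧ (rowA x y c).testBit d = true) →
    (nbr x y rows m).testBit t = true
  | [], m, hm, _ => hm
  | (B, s, c) :: l, m, hm, h => by
    simp only [nbr]
    refine nbr_spec ?_ fun B' s' c' h' => h B' s' c' (List.mem_cons_of_mem _ h')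
    obtain ⟨d, hd, h1, h2⟩ := h B s c (List.mem_cons_self ..)
    rw [Nat.testBit_and, hm, dig4_spec hd h2 h1]
    rfl

theorem mem_cons_spec {k i j : ℕ} : ∀ {H : List (ℕ × ℕ × ℕ)}, (i, j) ∈ cons k H →
    ∃ a b c, (a, b, c) ∈ H ∧ ((c = k ∧ i = a ∧ j = b) ∨ (b = k ∧ i = a ∧ j = c) ∨
      (a = k ∧ i = b ∧ j = c))
  | [], h => by simp [cons] at h
  | (a, b, c) :: H, h => by
    simp only [cons, List.mem_append] at h
    rcases h with h | h | h | h
    · refine ⟨a, b, c, List.mem_cons_self .., Or.inl ?_⟩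
      cases h1 : Nat.beq c k with
      | true => rw [h1] at h; simp at h; exact ⟨Nat.eq_of_beq_eq_true h1, h.1, h.2⟩
      | false => rw [h1] at h; simp at h
    · refine ⟨a, b, c, List.mem_cons_self .., Or.inr (Or.inl ?_)⟩
      cases h1 : Nat.beq b k with
      | true => rw [h1] at h; simp at h; exact ⟨Nat.eq_of_beq_eq_true h1, h.1, h.2⟩
      | false => rw [h1] at h; simp at h
    · refine ⟨a, b, c, List.mem_cons_self .., Or.inr (Or.inr ?_)⟩
      cases h1 : Nat.beq a k with
      | true => rw [h1] at h; simp at h; exact ⟨Nat.eq_of_beq_eq_true h1, h.1, h.2⟩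
      | false => rw [h1] at h; simp at h
    · obtain ⟨a', b', c', h1, h2⟩ := mem_cons_spec h
      exact ⟨a', b', c', List.mem_cons_of_mem _ h1, h2⟩

theorem mem_rowsOf {w : ℕ} {H : List (ℕ × ℕ × ℕ)} {B s : ℕ} {c : List (ℕ × ℕ)} :
    ∀ {n : ℕ}, (B, s, c) ∈ rowsOf w H n → ∃ k, k < n ∧ B = Bt w k ∧ s = 4 ^ k ∧ c = cons k H
  | 0, h => by simp [rowsOf] at h
  | n + 1, h => by
    simp only [rowsOf, List.mem_cons, Prod.mk.injEq] at h
    rcases h with ⟨h1, h2, h3⟩ | h
    · exact ⟨n, by omega, h1, h2, h3⟩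
    · obtain ⟨k, hk, h1⟩ := mem_rowsOf h
      exact ⟨k, by omega, h1⟩

theorem mask_spec {c : ℕ} : ∀ {l : List ℕ}, (mask l).testBit c = true ↔ c ∈ l
  | [] => by simp [mask]
  | x :: l => by
    simp only [mask, Nat.testBit_or, Bool.or_eq_true, mask_spec (l := l), List.mem_cons]
    have : (1 <<< x).testBit c = true ↔ c = x := by
      rw [Nat.shiftLeft_eq, one_mul, Nat.testBit_two_pow]
      simp [eq_comm]
    rw [this]
    tauto

theorem subL_spec {In : ℕ} : ∀ {l : List ℕ}, subL In l = true → ∀ x ∈ l, In.testBit x = true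
  | [], _, x, hx => by simp at hx
  | y :: l, h, x, hx => by
    simp only [subL, Bool.and_eq_true] at h
    rcases List.mem_cons.mp hx with rfl | hx
    · exact h.1
    · exact subL_spec h.2 x hx

theorem land_sub {g tm t : ℕ} (h : Nat.beq (g &&& tm) g = true) (hg : g.testBit t = true) :
    tm.testBit t = true := by
  have h1 : g &&& tm = g := Nat.eq_of_beq_eq_true h
  have h2 : (g &&& tm).testBit t = true := by rw [h1]; exact hg
  rw [Nat.testBit_and, Bool.and_eq_true] at h2
  exact h2.2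

theorem clo1_spec {rows : List (ℕ × ℕ × List (ℕ × ℕ))} {Cand tm x t : ℕ} : ∀ {l : List ℕ},
    clo1 rows Cand tm x l = true → ∀ y ∈ l, (nbr x y rows Cand).testBit t = true →
      tm.testBit t = true
  | [], _, y, hy => by simp at hy
  | z :: l, h, y, hy => by
    simp only [clo1, Bool.and_eq_true] at h
    rcases List.mem_cons.mp hy with rfl | hy
    · exact land_sub h.1
    · exact clo1_spec h.2 y hy

theorem cloL_spec {rows : List (ℕ × ℕ × List (ℕ × ℕ))} {Cand tm t : ℕ} : ∀ {l : List ℕ},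
    cloL rows Cand tm l = true → ∀ x ∈ l, ∀ y ∈ l, (nbr x y rows Cand).testBit t = true →
      (nbr y x rows Cand).testBit t = true → tm.testBit t = true
  | [], _, x, hx => by simp at hx
  | z :: l, h, x, hx => by
    intro y hy h1 h2
    simp only [cloL, Bool.and_eq_true] at h
    rcases List.mem_cons.mp hx with rfl | hx'
    · exact clo1_spec h.1 y hy h1
    · rcases List.mem_cons.mp hy with rfl | hy'
      · exact clo1_spec h.1 x hx h2
      · exact cloL_spec h.2 x hx' y hy' h1 h2

theorem gr1_spec {rows : List (ℕ × ℕ × List (ℕ × ℕ))} {Cand tm x t : ℕ} : ∀ {l : List ℕ},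
    gr1 rows Cand tm x l = true → ∀ y ∈ l, (nbr x y rows Cand).testBit t = true →
      tm.testBit t = true
  | [], _, y, hy => by simp at hy
  | z :: l, h, y, hy => by
    simp only [gr1, Bool.and_eq_true] at h
    rcases List.mem_cons.mp hy with rfl | hy
    · exact land_sub h.1
    · exact gr1_spec h.2 y hy

theorem gr2_spec {rows : List (ℕ × ℕ × List (ℕ × ℕ))} {Cand tm t : ℕ} {l' : List ℕ} :
    ∀ {l : List ℕ}, gr2 rows Cand tm l' l = true → ∀ x ∈ l, ∀ y ∈ l',
      (nbr x y rows Cand).testBit t = true → tm.testBit t = true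
  | [], _, x, hx => by simp at hx
  | z :: l, h, x, hx => by
    intro y hy h1
    simp only [gr2, Bool.and_eq_true] at h
    rcases List.mem_cons.mp hx with rfl | hx'
    · exact gr1_spec h.1 y hy h1
    · exact gr2_spec h.2 x hx' y hy h1

/-! ## Counters -/

/-- The counters `ms` (starting with the threshold `j + 1`) are correct at `t` for the count
`c`. -/
def Good (t c : ℕ) : ℕ → List ℕ → Prop
  | _, [] => True
  | j, m :: ms => (j + 1 ≤ c → m.testBit t = true) ∧ Good t c (j + 1) ms

theorem Good.stepm {t c g : ℕ} : ∀ {ms : List ℕ} {j p : ℕ}, Good t c j ms →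
    Good t c j (stepm g p ms)
  | [], _, _, _ => trivial
  | m :: ms, j, p, h => by
    refine ⟨fun hj => ?_, Good.stepm h.2⟩
    rw [Nat.testBit_or, h.1 hj]
    rfl

theorem Good.stepm' {t c g : ℕ} (hg : g.testBit t = true) : ∀ {ms : List ℕ} {j p : ℕ},
    (j ≤ c → p.testBit t = true) → Good t c j ms → Good t (c + 1) j (FC.stepm g p ms)
  | [], _, _, _, _ => trivial
  | m :: ms, j, p, hp, h => by
    refine ⟨fun hj => ?_, Good.stepm' hg h.1 h.2⟩
    rw [Nat.testBit_or, Nat.testBit_and, hp (by omega), hg]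
    simp

theorem Good.last {t c : ℕ} : ∀ {ms : List ℕ} {j : ℕ}, ms ≠ [] → j + ms.length ≤ c →
    Good t c j ms → (ms.getLastD 1).testBit t = true
  | [], _, h, _, _ => absurd rfl h
  | [m], j, _, hc, h => by
    simp only [List.length_cons, List.length_nil] at hc
    exact h.1 (by omega)
  | m :: m' :: ms, j, _, hc, h => by
    have h1 := Good.last (t := t) (c := c) (ms := m' :: ms) (j := j + 1) (by simp) (by
      simp only [List.length_cons] at hc ⊢; omega) h.2
    simpa using h1

theorem stepm_length {g : ℕ} : ∀ {ms : List ℕ} {p : ℕ}, (stepm g p ms).length = ms.length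
  | [], _ => rfl
  | m :: ms, p => by simp only [stepm, List.length_cons, stepm_length]

theorem lpRun_mem {rows : List (ℕ × ℕ × List (ℕ × ℕ))} {In Cand : ℕ} : ∀ {l ms : List ℕ},
    lpRun rows In Cand l ms = true → ∀ c ∈ l, In.testBit (c / 4096) = true ∧
      In.testBit (c % 4096) = true
  | [], _, _, c, hc => by simp at hc
  | d :: l, ms, h, c, hc => by
    simp only [lpRun, Bool.and_eq_true] at h
    rcases List.mem_cons.mp hc with rfl | hc
    · exact h.1
    · exact lpRun_mem h.2 c hc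

theorem lpRun_count {rows : List (ℕ × ℕ × List (ℕ × ℕ))} {In Cand t : ℕ}
    (ht : Cand.testBit t = true) : ∀ {l ms : List ℕ} {c : ℕ},
    lpRun rows In Cand l ms = true → ms ≠ [] → Good t c 0 ms →
      c + l.countP (fun e => (nbr (e / 4096) (e % 4096) rows Cand).testBit t) < ms.length
  | [], ms, c, h, hms, hg => by
    by_contra hcon
    have h1 := Good.last hms (by simp at hcon ⊢; omega) hg
    simp only [lpRun] at h
    rw [Nat.eq_of_beq_eq_true h] at h1
    simp at h1
  | e :: l, ms, c, h, hms, hg => by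
    simp only [lpRun, Bool.and_eq_true] at h
    rw [List.countP_cons]
    have hlen := stepm_length (g := nbr (e / 4096) (e % 4096) rows Cand) (ms := ms) (p := Cand)
    have hne : stepm (nbr (e / 4096) (e % 4096) rows Cand) Cand ms ≠ [] := by
      intro h1
      rw [h1] at hlen
      simp only [List.length_nil] at hlen
      exact hms (List.length_eq_zero_iff.mp hlen.symm)
    by_cases hb : (nbr (e / 4096) (e % 4096) rows Cand).testBit t = true
    · have h1 := lpRun_count ht h.2 hne (Good.stepm' hb (fun _ => ht) hg)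
      rw [hlen] at h1
      rw [if_pos hb]
      omega
    · have h1 := lpRun_count ht h.2 hne (Good.stepm hg)
      rw [hlen] at h1
      rw [if_neg hb]
      omega

theorem good_replicate (t n : ℕ) : ∀ j, Good t 0 j (List.replicate n 0) := by
  induction n with
  | zero => exact fun _ => trivial
  | succ n ih => exact fun j => ⟨fun h => absurd h (by omega), ih (j + 1)⟩

/-! ## The invariant -/

section

variable {T : Type} {F : T → T → T → Prop} {U : Set T} {glob : ℕ → T → ℕ}
  {Hall : List (ℕ × ℕ × ℕ)}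

/-- The code of `x` in the rows `rs`. -/
def cd (glob : ℕ → T → ℕ) (w : ℕ) (rs : List ℕ) (x : T) : ℕ :=
  cdf w (fun i => glob (rs.getD i 0) x)

/-- The system: the rows have values below `4` and the relation implies the six arrangements of
all edges. -/
structure Sys (F : T → T → T → Prop) (U : Set T) (glob : ℕ → T → ℕ)
    (Hall : List (ℕ × ℕ × ℕ)) : Prop where
  lt : ∀ r x, glob r x < 4
  rel : ∀ x ∈ U, ∀ y ∈ U, ∀ z ∈ U, F x y z → ∀ a b c, (a, b, c) ∈ Hall →
    ((nr (glob a x) (glob b y)).testBit (glob c z) = true ∧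
      (nr (glob a y) (glob b x)).testBit (glob c z) = true) ∧
    ((nr (glob a x) (glob c y)).testBit (glob b z) = true ∧
      (nr (glob a y) (glob c x)).testBit (glob b z) = true) ∧
    ((nr (glob b x) (glob c y)).testBit (glob a z) = true ∧
      (nr (glob b y) (glob c x)).testBit (glob a z) = true)

/-- The invariant of the checker. -/
structure Inv (U : Set T) (glob : ℕ → T → ℕ) (Hall : List (ℕ × ℕ × ℕ)) (w : ℕ) (rs : List ℕ)
    (H : List (ℕ × ℕ × ℕ)) (In Cand cv : ℕ) : Prop where
  len : rs.length = w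
  w3 : 3 ≤ w
  w6 : w ≤ 6
  r0 : rs.getD 0 0 = 0
  r1 : rs.getD 1 0 = 1
  hH : ∀ a b c, (a, b, c) ∈ H → a < w ∧ b < w ∧ c < w ∧
    (rs.getD a 0, rs.getD b 0, rs.getD c 0) ∈ Hall
  hIn : ∀ c, In.testBit c = true → ∃ x ∈ U, cd glob w rs x = c
  hCand : ∀ x ∈ U, Cand.testBit (cd glob w rs x) = true
  hcv : ∀ c, cv.testBit c = true → ∃ x ∈ U, cd glob (w - 1) rs x = c

variable (hS : Sys F U glob Hall)

include hS in
theorem nbr_mem {w : ℕ} {rs : List ℕ} {H : List (ℕ × ℕ × ℕ)} {In Cand cv : ℕ}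
    (hI : Inv U glob Hall w rs H In Cand cv) {x y z : T} (hx : x ∈ U) (hy : y ∈ U) (hz : z ∈ U)
    (h : F x y z) {m : ℕ} (hm : m.testBit (cd glob w rs z) = true) :
    (nbr (cd glob w rs x) (cd glob w rs y) (rowsOf w H w) m).testBit (cd glob w rs z) = true ∧
    (nbr (cd glob w rs y) (cd glob w rs x) (rowsOf w H w) m).testBit (cd glob w rs z) =
      true := by
  have hlt : ∀ (x : T) i, (fun i => glob (rs.getD i 0) x) i < 4 := fun x i => hS.lt _ _
  have hdg : ∀ (x : T) {i}, i < w → dg (cd glob w rs x) i = glob (rs.getD i 0) x :=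
    fun x i hi => dg_cdf (hlt x) hi
  have hB : ∀ k, k < w → (Bt w k <<< (glob (rs.getD k 0) z * 4 ^ k)).testBit
      (cd glob w rs z) = true := by
    intro k hk
    have := Bt_spec hI.w3 hI.w6 hk (cdf_lt (hlt z) w)
    rwa [dg_cdf (hlt z) hk] at this
  constructor
  · refine nbr_spec hm fun B s c hmem => ?_
    obtain ⟨k, hk, rfl, rfl, rfl⟩ := mem_rowsOf hmem
    refine ⟨glob (rs.getD k 0) z, hS.lt _ _, hB k hk, rowA_spec (hS.lt _ _) fun i j hij => ?_⟩
    obtain ⟨a, b, c, habc, h1⟩ := mem_cons_spec hij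
    obtain ⟨ha, hb, hc, hH⟩ := hI.hH a b c habc
    have h2 := hS.rel x hx y hy z hz h _ _ _ hH
    rcases h1 with ⟨rfl, rfl, rfl⟩ | ⟨rfl, rfl, rfl⟩ | ⟨rfl, rfl, rfl⟩
    · rw [hdg x ha, hdg y hb, hdg y ha, hdg x hb]
      exact h2.1
    · rw [hdg x ha, hdg y hc, hdg y ha, hdg x hc]
      exact h2.2.1
    · rw [hdg x hb, hdg y hc, hdg y hb, hdg x hc]
      exact h2.2.2
  · refine nbr_spec hm fun B s c hmem => ?_
    obtain ⟨k, hk, rfl, rfl, rfl⟩ := mem_rowsOf hmem
    refine ⟨glob (rs.getD k 0) z, hS.lt _ _, hB k hk, rowA_spec (hS.lt _ _) fun i j hij => ?_⟩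
    obtain ⟨a, b, c, habc, h1⟩ := mem_cons_spec hij
    obtain ⟨ha, hb, hc, hH⟩ := hI.hH a b c habc
    have h2 := hS.rel x hx y hy z hz h _ _ _ hH
    rcases h1 with ⟨rfl, rfl, rfl⟩ | ⟨rfl, rfl, rfl⟩ | ⟨rfl, rfl, rfl⟩
    · rw [hdg x ha, hdg y hb, hdg y ha, hdg x hb]
      exact h2.1.symm
    · rw [hdg x ha, hdg y hc, hdg y ha, hdg x hc]
      exact h2.2.1.symm
    · rw [hdg x hb, hdg y hc, hdg y hb, hdg x hc]
      exact h2.2.2.symm

variable (hR : RichS F (1 / 4) U U)

include hS hR in
theorem lp_sound {w : ℕ} {rs : List ℕ} {H : List (ℕ × ℕ × ℕ)} {In Cand cv : ℕ}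
    (hI : Inv U glob Hall w rs H In Cand cv) {l : List ℕ} (hl : 0 < l.length)
    (h : lpRun (rowsOf w H w) In Cand l (List.replicate (l.length / 4 + 1) 0) = true) :
    False := by
  classical
  have hmem := lpRun_mem h
  have hx : ∀ j : Fin l.length, ∃ x ∈ U, cd glob w rs x = l[j.1] / 4096 := fun j =>
    hI.hIn _ (hmem _ (List.getElem_mem _)).1
  have hy : ∀ j : Fin l.length, ∃ x ∈ U, cd glob w rs x = l[j.1] % 4096 := fun j =>
    hI.hIn _ (hmem _ (List.getElem_mem _)).2
  choose x hxU hx using hx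
  choose y hyU hy using hy
  obtain ⟨z, hz, h1⟩ := hR (Fin l.length) x y (fun _ => 1) hxU hyU (fun _ => zero_le_one) (by
    simp; omega)
  have h2 := lpRun_count (t := cd glob w rs z) (hI.hCand z hz) h (by simp)
    (good_replicate _ _ 0)
  set P : ℕ → Bool := fun e =>
    (nbr (e / 4096) (e % 4096) (rowsOf w H w) Cand).testBit (cd glob w rs z) with hP
  have h3 : ∑ j : Fin l.length, (if F (x j) (y j) z then (1 : ℝ) else 0) ≤ (l.countP P : ℝ) := by
    have h4 : ∀ l' : List ℕ, ((l'.map fun e => if P e = true then (1 : ℝ) else 0)).sum =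
        (l'.countP P : ℝ) := by
      intro l'
      induction l' with
      | nil => simp
      | cons e l' ih =>
        rw [List.map_cons, List.sum_cons, ih, List.countP_cons]
        split_ifs with h5
        · push_cast; ring
        · push_cast; ring
    rw [← h4, ← Fin.sum_univ_fun_getElem]
    refine Finset.sum_le_sum fun j _ => ?_
    by_cases hF : F (x j) (y j) z
    · have h5 := (nbr_mem hS hI (hxU j) (hyU j) hz hF (hI.hCand z hz)).1
      rw [hx j, hy j] at h5
      rw [if_pos hF, if_pos h5]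
    · rw [if_neg hF]
      split_ifs <;> norm_num
  have h4 : (1 / 4 : ℝ) * ∑ _j : Fin l.length, (1 : ℝ) <
      ∑ j : Fin l.length, (if F (x j) (y j) z then (1 : ℝ) else 0) := by
    convert h1
  simp only [Finset.sum_const, Finset.card_univ, Fintype.card_fin, nsmul_eq_mul, mul_one] at h4
  have h5 : (l.length : ℝ) < 4 * (l.countP P : ℝ) := by linarith
  have h6 : l.length < 4 * l.countP P := by exact_mod_cast h5
  rw [List.length_replicate] at h2
  omega

include hS hR in
theorem del_sound {w : ℕ} {rs : List ℕ} {H : List (ℕ × ℕ × ℕ)} {In Cand cv : ℕ}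
    (hI : Inv U glob Hall w rs H In Cand cv) : ∀ {l : List ℕ} {m m' : ℕ},
    delRun (rowsOf w H w) In l m = some m' → (∀ x ∈ U, m.testBit (cd glob w rs x) = true) →
      ∀ x ∈ U, m'.testBit (cd glob w rs x) = true
  | [], m, m', h, hm => by
    simp only [delRun, Option.some.injEq] at h
    rw [← h]
    exact hm
  | c :: l, m, m', h, hm => by
    simp only [delRun] at h
    cases hc : ((In.testBit (c % 4096) || Nat.beq (c % 4096) (c / 4096)) &&
        Nat.beq (nbr (c / 4096) (c % 4096) (rowsOf w H w) m) 0) with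
    | false => rw [hc] at h; simp at h
    | true =>
      rw [hc, cond_true] at h
      rw [Bool.and_eq_true, Bool.or_eq_true] at hc
      obtain ⟨h1, h2⟩ := hc
      refine del_sound hI h fun x hx => ?_
      have hne : cd glob w rs x ≠ c / 4096 := by
        intro he
        obtain ⟨y, hy, hy'⟩ : ∃ y ∈ U, cd glob w rs y = c % 4096 := by
          rcases h1 with h1 | h1
          · exact hI.hIn _ h1
          · exact ⟨x, hx, by rw [he, Nat.eq_of_beq_eq_true h1]⟩
        obtain ⟨z, hz, hF⟩ := hR.comp (by norm_num) hx hy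
        have h3 := (nbr_mem hS hI hx hy hz hF (hm z hz)).1
        rw [he, hy', Nat.eq_of_beq_eq_true h2] at h3
        simp at h3
      rw [Nat.testBit_xor, Nat.testBit_and, hm x hx]
      have : (1 <<< (c / 4096)).testBit (cd glob w rs x) = false := by
        rw [Nat.shiftLeft_eq, one_mul, Nat.testBit_two_pow]
        simp [hne.symm]
      rw [this]
      rfl

variable {fl : ℕ} (hirr : 1 ≤ fl → IrrS F U)

include hS in
/-- A closed mask that contains the code of an element of `U` contains all codes of `U`. -/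
theorem closed_all (hi : IrrS F U) {w : ℕ} {rs : List ℕ} {H : List (ℕ × ℕ × ℕ)}
    {In Cand cv : ℕ} (hI : Inv U glob Hall w rs H In Cand cv) {S : List ℕ}
    (hne : ∃ x ∈ U, cd glob w rs x ∈ S)
    (hcl : cloL (rowsOf w H w) Cand (mask S) S = true) :
    ∀ x ∈ U, cd glob w rs x ∈ S := by
  obtain ⟨x0, hx0, hx0'⟩ := hne
  have h1 : {x ∈ U | cd glob w rs x ∈ S} = U := by
    refine hi _ (fun x hx => hx.1) ⟨x0, hx0, hx0'⟩ ?_
    intro x hx y hy z hz hF
    refine ⟨hz, ?_⟩
    have h2 := nbr_mem hS hI hx.1 hy.1 hz hF (hI.hCand z hz)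
    exact mask_spec.mp (cloL_spec hcl _ hx.2 _ hy.2 h2.1 h2.2)
  intro x hx
  have : x ∈ {x ∈ U | cd glob w rs x ∈ S} := by rw [h1]; exact hx
  exact this.2

theorem exists_testBit_of_ne {m n : ℕ} (h : m ≠ n) : ∃ c, m.testBit c ≠ n.testBit c := by
  by_contra hcon
  push Not at hcon
  exact h (Nat.eq_of_testBit_eq hcon)

theorem exists_testBit {m : ℕ} (h : m ≠ 0) : ∃ c, m.testBit c = true := by
  obtain ⟨c, hc⟩ := exists_testBit_of_ne h
  refine ⟨c, ?_⟩
  simpa using hc

theorem ne_of_beq_false {m n : ℕ} (h : (!(Nat.beq m n)) = true) : m ≠ n := by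
  rintro rfl
  rw [Nat.beq_refl] at h
  simp at h

include hS in
/-- After the check `finL` the codes of `U` are the elements of the list. -/
theorem finL_all (hi : IrrS F U) {w : ℕ} {rs : List ℕ} {H : List (ℕ × ℕ × ℕ)}
    {In Cand cv : ℕ} (hI : Inv U glob Hall w rs H In Cand cv) {S : List ℕ}
    (h : finL (rowsOf w H w) In Cand S = true) :
    (∀ x ∈ U, cd glob w rs x ∈ S) ∧ mask S = In := by
  simp only [finL, Bool.and_eq_true] at h
  obtain ⟨h0, h1, h2⟩ := h
  have h3 : mask S = In := Nat.eq_of_beq_eq_true h1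
  refine ⟨closed_all hS hi hI ?_ (by rw [h3]; exact h2), h3⟩
  obtain ⟨c, hc⟩ := exists_testBit (ne_of_beq_false h0)
  obtain ⟨x, hx, hx'⟩ := hI.hIn c hc
  exact ⟨x, hx, by rw [hx']; exact mask_spec.mp (by rw [h3]; exact hc)⟩

theorem allD_spec {d : ℕ} : ∀ {l : List ℕ}, allD d l = true → ∀ x ∈ l, dg x 0 = d
  | [], _, x, hx => by simp at hx
  | y :: l, h, x, hx => by
    simp only [allD, Bool.and_eq_true] at h
    rcases List.mem_cons.mp hx with rfl | hx
    · exact Nat.eq_of_beq_eq_true h.1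
    · exact allD_spec h.2 x hx

theorem allE_spec : ∀ {l : List ℕ}, allE l = true → ∀ x ∈ l, dg x 0 = dg x 1
  | [], _, x, hx => by simp at hx
  | y :: l, h, x, hx => by
    simp only [allE, Bool.and_eq_true] at h
    rcases List.mem_cons.mp hx with rfl | hx
    · exact Nat.eq_of_beq_eq_true h.1
    · exact allE_spec h.2 x hx

theorem memE_spec {a b c : ℕ} : ∀ {H : List (ℕ × ℕ × ℕ)}, memE a b c H = true → (a, b, c) ∈ H
  | [], h => by simp [memE] at h
  | (a', b', c') :: H, h => by
    simp only [memE, Bool.or_eq_true, Bool.and_eq_true] at h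
    rcases h with ⟨h1, h2, h3⟩ | h
    · rw [Nat.eq_of_beq_eq_true h1, Nat.eq_of_beq_eq_true h2, Nat.eq_of_beq_eq_true h3]
      exact List.mem_cons_self ..
    · exact List.mem_cons_of_mem _ (memE_spec h)

theorem up4_spec {w In t d : ℕ} (hd : d < 4) (h : In.testBit t = true) :
    (up4 w In).testBit (t + d * 4 ^ w) = true := by
  have key : ∀ e, e = d * 4 ^ w → (In <<< e).testBit (t + d * 4 ^ w) = true := by
    rintro e rfl
    rw [Nat.testBit_shiftLeft]
    simp [h]
  unfold up4
  simp only [Nat.testBit_or, Bool.or_eq_true]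
  have : d = 0 ∨ d = 1 ∨ d = 2 ∨ d = 3 := by omega
  rcases this with rfl | rfl | rfl | rfl
  · left; left
    simpa using h
  · left; right
    exact key _ (by ring)
  · right; left
    exact key _ rfl
  · right; right
    exact key _ rfl

/-- The result of the checker. -/
def Out (F : T → T → T → Prop) (U : Set T) (glob : ℕ → T → ℕ) (fl : ℕ) : Prop :=
  (1 ≤ fl ∧ ∀ x ∈ U, ∀ y ∈ U, glob 0 x = glob 0 y) ∨ (1 ≤ fl ∧ ∀ x ∈ U, glob 0 x = glob 1 x) ∨
    (2 ≤ fl ∧ ∃ lam : T → ZMod 3, ∀ x ∈ U, ∀ y ∈ U, ∀ z ∈ U, F x y z →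
      lam x + lam y + lam z = 1)

include hS in
theorem grL_sound {w : ℕ} {rs : List ℕ} {H : List (ℕ × ℕ × ℕ)} {In Cand cv : ℕ}
    (hI : Inv U glob Hall w rs H In Cand cv) {S0 S1 S2 : List ℕ}
    (hall : ∀ x ∈ U, cd glob w rs x ∈ S0 ++ (S1 ++ S2)) (hm : mask (S0 ++ (S1 ++ S2)) = In)
    (h : grL (rowsOf w H w) In S0 S1 S2 = true) :
    ∃ lam : T → ZMod 3, ∀ x ∈ U, ∀ y ∈ U, ∀ z ∈ U, F x y z → lam x + lam y + lam z = 1 := by
  classical
  simp only [grL, Bool.and_eq_true] at h
  obtain ⟨⟨d01, d02, d12⟩, ⟨g00, g10, g20⟩, g11, g21, g22⟩ := h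
  have disj : ∀ {A B : List ℕ}, Nat.beq (mask A &&& mask B) 0 = true → ∀ c, c ∈ A → c ∈ B →
      False := by
    intro A B h c hA hB
    have h1 : (mask A &&& mask B).testBit c = true := by
      rw [Nat.testBit_and, mask_spec.mpr hA, mask_spec.mpr hB]
      rfl
    rw [Nat.eq_of_beq_eq_true h] at h1
    simp at h1
  set lam : T → ZMod 3 := fun x => if cd glob w rs x ∈ S1 then 1 else
    if cd glob w rs x ∈ S2 then 2 else 0 with hlam
  have l0 : ∀ x, cd glob w rs x ∈ S0 → lam x = 0 := by
    intro x hx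
    simp only [hlam]
    rw [if_neg (fun h => disj d01 _ hx h), if_neg (fun h => disj d02 _ hx h)]
  have l1 : ∀ x, cd glob w rs x ∈ S1 → lam x = 1 := by
    intro x hx
    simp only [hlam]
    rw [if_pos hx]
  have l2 : ∀ x, cd glob w rs x ∈ S2 → lam x = 2 := by
    intro x hx
    simp only [hlam]
    rw [if_neg (fun h => disj d12 _ h hx), if_pos hx]
  have hbit : ∀ z ∈ U, In.testBit (cd glob w rs z) = true := by
    intro z hz
    rw [← hm]
    exact mask_spec.mpr (hall z hz)
  refine ⟨lam, fun x hx y hy z hz hF => ?_⟩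
  obtain ⟨n1, n2⟩ := nbr_mem hS hI hx hy hz hF (hbit z hz)
  have hcx := hall x hx
  have hcy := hall y hy
  simp only [List.mem_append] at hcx hcy
  rcases hcx with hcx | hcx | hcx <;> rcases hcy with hcy | hcy | hcy
  · rw [l0 x hcx, l0 y hcy, l1 z (mask_spec.mp (gr2_spec g00 _ hcx _ hcy n1))]; decide
  · rw [l0 x hcx, l1 y hcy, l0 z (mask_spec.mp (gr2_spec g10 _ hcx _ hcy n1))]; decide
  · rw [l0 x hcx, l2 y hcy, l2 z (mask_spec.mp (gr2_spec g20 _ hcx _ hcy n1))]; decide
  · rw [l1 x hcx, l0 y hcy, l0 z (mask_spec.mp (gr2_spec g10 _ hcy _ hcx n2))]; decide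
  · rw [l1 x hcx, l1 y hcy, l2 z (mask_spec.mp (gr2_spec g11 _ hcx _ hcy n1))]; decide
  · rw [l1 x hcx, l2 y hcy, l1 z (mask_spec.mp (gr2_spec g21 _ hcx _ hcy n1))]; decide
  · rw [l2 x hcx, l0 y hcy, l2 z (mask_spec.mp (gr2_spec g20 _ hcy _ hcx n2))]; decide
  · rw [l2 x hcx, l1 y hcy, l1 z (mask_spec.mp (gr2_spec g21 _ hcy _ hcx n2))]; decide
  · rw [l2 x hcx, l2 y hcy, l0 z (mask_spec.mp (gr2_spec g22 _ hcx _ hcy n1))]; decide

include hS hR hirr in
/-- Soundness of the checker. -/
theorem chk_sound : ∀ (c : Cert) (w : ℕ) (rs : List ℕ) (H : List (ℕ × ℕ × ℕ)) (In Cand cv : ℕ),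
    chk Hall fl c w rs H In Cand cv = true → Inv U glob Hall w rs H In Cand cv →
      Out F U glob fl := by
  intro c
  induction c with
  | lp l =>
    intro w rs H In Cand cv h hI
    simp only [chk, Bool.and_eq_true] at h
    exact (lp_sound hS hR hI (by simpa using h.1) h.2).elim
  | del l c ih =>
    intro w rs H In Cand cv h hI
    simp only [chk] at h
    cases hd : delRun (rowsOf w H w) In l Cand with
    | none => rw [hd] at h; simp at h
    | some m =>
      rw [hd] at h
      exact ih w rs H In m cv h { hI with hCand := del_sound hS hR hI hd hI.hCand }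
  | irr S =>
    intro w rs H In Cand cv h hI
    simp only [chk, Bool.and_eq_true] at h
    obtain ⟨h0, h1, h2, h3, h4⟩ := h
    have hfl : 1 ≤ fl := Nat.le_of_ble_eq_true h0
    obtain ⟨t, ht⟩ := exists_testBit (ne_of_beq_false h1)
    have ht' := mask_spec.mp ht
    obtain ⟨x0, hx0, hx0'⟩ := hI.hIn t (subL_spec h2 t ht')
    have hall := closed_all hS (hirr hfl) hI ⟨x0, hx0, by rw [hx0']; exact ht'⟩ h4
    exfalso
    obtain ⟨c, hc⟩ := exists_testBit_of_ne (ne_of_beq_false h3)
    by_cases hcS : c ∈ S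
    · rw [mask_spec.mpr hcS, subL_spec h2 c hcS] at hc
      exact hc rfl
    · have h5 : In.testBit c = true := by
        have h6 : (mask S).testBit c = false := by
          cases h7 : (mask S).testBit c with
          | false => rfl
          | true => exact absurd (mask_spec.mp h7) hcS
        rw [h6] at hc
        simpa using hc.symm
      obtain ⟨x, hx, hx'⟩ := hI.hIn c h5
      exact hcS (by rw [← hx']; exact hall x hx)
  | cov c =>
    intro w rs H In Cand cv h hI
    simp only [chk, Bool.and_eq_true] at h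
    obtain ⟨h0, hw, ⟨h1, h2⟩, h3, h4⟩ := h
    obtain ⟨x, hx, hx'⟩ := hI.hcv c h0
    have hw' : 1 ≤ w := Nat.le_of_ble_eq_true hw
    have h5 := hI.hCand x hx
    have h6 : cd glob w rs x = c + glob (rs.getD (w - 1) 0) x * 4 ^ (w - 1) := by
      obtain ⟨n, rfl⟩ : ∃ n, w = n + 1 := ⟨w - 1, by omega⟩
      simp only [Nat.add_sub_cancel] at hx' ⊢
      rw [← hx']
      rfl
    have h7 := hS.lt (rs.getD (w - 1) 0) x
    rw [h6] at h5
    exfalso
    have : glob (rs.getD (w - 1) 0) x = 0 ∨ glob (rs.getD (w - 1) 0) x = 1 ∨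
      glob (rs.getD (w - 1) 0) x = 2 ∨ glob (rs.getD (w - 1) 0) x = 3 := by omega
    rcases this with h8 | h8 | h8 | h8 <;> rw [h8] at h5
    · rw [zero_mul, add_zero] at h5; rw [h5] at h1; simp at h1
    · rw [one_mul] at h5; rw [h5] at h2; simp at h2
    · rw [h5] at h3; simp at h3
    · rw [h5] at h4; simp at h4
  | br e a b iha ihb =>
    intro w rs H In Cand cv h hI
    simp only [chk, Bool.and_eq_true] at h
    have hbit : ∀ c, (1 <<< e).testBit c = true ↔ c = e := by
      intro c
      rw [Nat.shiftLeft_eq, one_mul, Nat.testBit_two_pow]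
      simp [eq_comm]
    by_cases he : ∃ x ∈ U, cd glob w rs x = e
    · refine iha w rs H _ Cand cv h.1 { hI with hIn := fun c hc => ?_ }
      rw [Nat.testBit_or, Bool.or_eq_true] at hc
      rcases hc with hc | hc
      · exact hI.hIn c hc
      · rw [(hbit c).mp hc]
        exact he
    · refine ihb w rs H In _ cv h.2 { hI with hCand := fun x hx => ?_ }
      have hne : (1 <<< e).testBit (cd glob w rs x) = false := by
        rw [← Bool.not_eq_true, hbit]
        exact fun h => he ⟨x, hx, h⟩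
      rw [Nat.testBit_xor, Nat.testBit_and, hI.hCand x hx, hne]
      rfl
  | finC S =>
    intro w rs H In Cand cv h hI
    simp only [chk, Bool.and_eq_true] at h
    obtain ⟨h0, h1, h2⟩ := h
    have hfl : 1 ≤ fl := Nat.le_of_ble_eq_true h0
    have hall := (finL_all hS (hirr hfl) hI h1).1
    have h3 : ∀ x ∈ U, glob 0 x = dg (S.headD 0) 0 := by
      intro x hx
      have h4 := allD_spec h2 _ (hall x hx)
      have h5 : dg (cd glob w rs x) 0 = glob (rs.getD 0 0) x :=
        dg_cdf (fun i => hS.lt _ _) (by have := hI.w3; omega)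
      rw [h5, hI.r0] at h4
      exact h4
    exact Or.inl ⟨hfl, fun x hx y hy => by rw [h3 x hx, h3 y hy]⟩
  | finE S =>
    intro w rs H In Cand cv h hI
    simp only [chk, Bool.and_eq_true] at h
    obtain ⟨h0, h1, h2⟩ := h
    have hfl : 1 ≤ fl := Nat.le_of_ble_eq_true h0
    have hall := (finL_all hS (hirr hfl) hI h1).1
    refine Or.inr (Or.inl ⟨hfl, fun x hx => ?_⟩)
    have h4 := allE_spec h2 _ (hall x hx)
    have h5 : dg (cd glob w rs x) 0 = glob (rs.getD 0 0) x :=
      dg_cdf (fun i => hS.lt _ _) (by have := hI.w3; omega)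
    have h6 : dg (cd glob w rs x) 1 = glob (rs.getD 1 0) x :=
      dg_cdf (fun i => hS.lt _ _) (by have := hI.w3; omega)
    rw [h5, h6, hI.r0, hI.r1] at h4
    exact h4
  | finG S0 S1 S2 =>
    intro w rs H In Cand cv h hI
    simp only [chk, Bool.and_eq_true] at h
    obtain ⟨h0, h1, h2⟩ := h
    have hfl : 2 ≤ fl := Nat.le_of_ble_eq_true h0
    have hall := finL_all hS (hirr (by omega)) hI h1
    exact Or.inr (Or.inr ⟨hfl, grL_sound hS hI hall.1 hall.2 h2⟩)
  | ext S r i j c ih =>
    intro w rs H In Cand cv h hI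
    simp only [chk, Bool.and_eq_true] at h
    obtain ⟨⟨h0, hw, hi, hj⟩, ⟨h1, h2⟩, h3⟩ := h
    have hfl : 2 ≤ fl := Nat.le_of_ble_eq_true h0
    have hw' : w ≤ 5 := Nat.le_of_ble_eq_true hw
    have hi' : i < w := by simpa using hi
    have hj' : j < w := by simpa using hj
    obtain ⟨hall, hm⟩ := finL_all hS (hirr (by omega)) hI h1
    have hlen := hI.len
    have hget : ∀ a, a < w → (rs ++ [r]).getD a 0 = rs.getD a 0 := by
      intro a ha
      simp only [List.getD_eq_getElem?_getD]
      rw [List.getElem?_append_left (by omega)]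
    have hgetw : (rs ++ [r]).getD w 0 = r := by
      simp only [List.getD_eq_getElem?_getD]
      rw [List.getElem?_append_right (by omega), hlen]
      simp
    have hcd : ∀ x, cd glob w (rs ++ [r]) x = cd glob w rs x := fun x =>
      cdf_congr fun a ha => by rw [hget a ha]
    have hw3 := hI.w3
    refine ih (w + 1) (rs ++ [r]) ((i, j, w) :: H) 0 (up4 w In) In h3
      { len := by simp [hlen]
        w3 := by omega
        w6 := by omega
        r0 := by rw [hget 0 (by omega)]; exact hI.r0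
        r1 := by rw [hget 1 (by omega)]; exact hI.r1
        hH := ?_
        hIn := fun c hc => by simp at hc
        hCand := ?_
        hcv := ?_ }
    · intro a b c' habc
      rcases List.mem_cons.mp habc with habc | habc
      · simp only [Prod.mk.injEq] at habc
        obtain ⟨rfl, rfl, rfl⟩ := habc
        refine ⟨by omega, by omega, by omega, ?_⟩
        rw [hget _ hi', hget _ hj', hgetw]
        exact memE_spec h2
      · obtain ⟨ha, hb, hc, hH⟩ := hI.hH a b c' habc
        refine ⟨by omega, by omega, by omega, ?_⟩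
        rw [hget _ ha, hget _ hb, hget _ hc]
        exact hH
    · intro x hx
      have h4 : cd glob (w + 1) (rs ++ [r]) x = cd glob w rs x + glob r x * 4 ^ w := by
        have h5 : cd glob (w + 1) (rs ++ [r]) x = cd glob w (rs ++ [r]) x +
          glob ((rs ++ [r]).getD w 0) x * 4 ^ w := rfl
        rw [h5, hcd, hgetw]
      rw [h4]
      refine up4_spec (hS.lt _ _) ?_
      rw [← hm]
      exact mask_spec.mpr (hall x hx)
    · intro c' hc'
      simp only [Nat.add_sub_cancel]
      have h4 : c' ∈ S := mask_spec.mp (by rw [hm]; exact hc')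
      obtain ⟨x, hx, hx'⟩ := hI.hIn c' hc'
      exact ⟨x, hx, by rw [hcd]; exact hx'⟩

end

end FC

end CodegDens
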