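import Pool.Agent.Lib.MP_81e58e_co.G4Defs
import Pool.Agent.Lib.MP_81e58e_co.G4Basic
import Pool.Agent.Lib.MP_81e58e_co.G4Block
import Pool.Agent.Lib.MP_81e58e_co.G4Class

/-!
# The step `x -> (1+x)/4` for `k = 3`: assembly (problem MP_81e58e_co)
-/

set_option autoImplicit false

namespace CodegDens

open Finset Filter Topology

namespace G4S

lemma t4_12 {u v w : ZMod 4} (h : T4 u v w) : T4 v u w := by
  revert u v w
  decide

lemma t4_23 {u v w : ZMod 4} (h : T4 u v w) : T4 u w v := by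
  revert u v w
  decide

lemma pair_cases {α : Type} {x y a b : α} (h : ({x, y} : Multiset α) = {a, b}) :
    (x = a ∧ y = b) ∨ (x = b ∧ y = a) := by
  have hx : x ∈ ({a, b} : Multiset α) := by
    rw [← h]
    simp
  simp only [Multiset.insert_eq_cons, Multiset.mem_cons, Multiset.mem_singleton] at hx
  rcases hx with rfl | rfl
  · left
    refine ⟨rfl, ?_⟩
    have := (Multiset.cons_inj_right x).1 h
    exact Multiset.singleton_inj.1 this
  · right
    refine ⟨rfl, ?_⟩
    have h2 : ({a, x} : Multiset α) = {x, a} := Multiset.pair_comm a x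
    rw [h2] at h
    have := (Multiset.cons_inj_right x).1 h
    exact Multiset.singleton_inj.1 this

lemma triple_cases {α : Type} {x y z a b c : α} (h : ({x, y, z} : Multiset α) = {a, b, c}) :
    (x = a ∧ y = b ∧ z = c) ∨ (x = a ∧ y = c ∧ z = b) ∨ (x = b ∧ y = a ∧ z = c) ∨
      (x = b ∧ y = c ∧ z = a) ∨ (x = c ∧ y = a ∧ z = b) ∨ (x = c ∧ y = b ∧ z = a) := by
  have hx : x ∈ ({a, b, c} : Multiset α) := by
    rw [← h]
    simp
  simp only [Multiset.insert_eq_cons, Multiset.mem_cons, Multiset.mem_singleton] at hx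
  rcases hx with rfl | rfl | rfl
  · rcases pair_cases ((Multiset.cons_inj_right x).1 h) with ⟨h1, h2⟩ | ⟨h1, h2⟩
    · exact Or.inl ⟨rfl, h1, h2⟩
    · exact Or.inr (Or.inl ⟨rfl, h1, h2⟩)
  · have h2 : ({a, x, c} : Multiset α) = {x, a, c} := Multiset.cons_swap a x {c}
    rw [h2] at h
    rcases pair_cases ((Multiset.cons_inj_right x).1 h) with ⟨h1, h2⟩ | ⟨h1, h2⟩
    · exact Or.inr (Or.inr (Or.inl ⟨rfl, h1, h2⟩))
    · exact Or.inr (Or.inr (Or.inr (Or.inl ⟨rfl, h1, h2⟩)))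
  · have h2 : ({a, b, x} : Multiset α) = {x, a, b} := by
      have h3 : ({b, x} : Multiset α) = {x, b} := Multiset.pair_comm b x
      have h4 : ({a, b, x} : Multiset α) = a ::ₘ {b, x} := rfl
      rw [h4, h3]
      exact Multiset.cons_swap a x {b}
    rw [h2] at h
    rcases pair_cases ((Multiset.cons_inj_right x).1 h) with ⟨h1, h2⟩ | ⟨h1, h2⟩
    · exact Or.inr (Or.inr (Or.inr (Or.inr (Or.inl ⟨rfl, h1, h2⟩))))
    · exact Or.inr (Or.inr (Or.inr (Or.inr (Or.inr ⟨rfl, h1, h2⟩))))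

end G4S

theorem mem_E4Pat {C : Type} (P : Set (Multiset C)) (x y z : ZMod 4 × C) :
    ({x, y, z} : Multiset (ZMod 4 × C)) ∈ E4Pat P ↔ T4 x.1 y.1 z.1 ∧
      (x.1 = y.1 → y.1 = z.1 → ({x.2, y.2, z.2} : Multiset C) ∈ P) := by
  constructor
  · rintro ⟨a, b, c, he, ht, hp⟩
    have hm : ({x.2, y.2, z.2} : Multiset C) = {a.2, b.2, c.2} := by
      have := congrArg (Multiset.map Prod.snd) he
      simpa using this
    rcases G4S.triple_cases he with ⟨rfl, rfl, rfl⟩ | ⟨rfl, rfl, rfl⟩ | ⟨rfl, rfl, rfl⟩ |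
      ⟨rfl, rfl, rfl⟩ | ⟨rfl, rfl, rfl⟩ | ⟨rfl, rfl, rfl⟩
    · exact ⟨ht, hp⟩
    · refine ⟨G4S.t4_23 ht, fun h1 h2 => ?_⟩
      rw [hm]
      exact hp (h1.trans h2) h2.symm
    · refine ⟨G4S.t4_12 ht, fun h1 h2 => ?_⟩
      rw [hm]
      exact hp h1.symm (h1.trans h2)
    · refine ⟨G4S.t4_23 (G4S.t4_12 ht), fun h1 h2 => ?_⟩
      rw [hm]
      exact hp (h1.trans h2).symm h1
    · refine ⟨G4S.t4_12 (G4S.t4_23 ht), fun h1 h2 => ?_⟩
      rw [hm]
      exact hp h2 (h1.trans h2).symm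
    · refine ⟨G4S.t4_12 (G4S.t4_23 (G4S.t4_12 ht)), fun h1 h2 => ?_⟩
      rw [hm]
      exact hp h2.symm h1.symm
  · rintro ⟨ht, hp⟩
    exact ⟨x, y, z, rfl, ht, hp⟩

namespace G4S

lemma rchain_le {V : Type} {R : V → V → V → Prop} {a b : ℝ} {L n : ℕ} {Y : ℕ → Set V}
    (h : RChain R a L Y) (hb : b ≤ a) (hn : n ≤ L) : RChain R b n Y where
  sym := h.sym
  nonempty := h.nonempty
  mono t ht := h.mono t (by omega)
  rich t ht := by
    intro J _ x y w hx hy hw hpos
    obtain ⟨z, hz, hlt⟩ := h.rich t (by omega) J x y w hx hy hw hpos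
    exact ⟨z, hz, lt_of_le_of_lt (mul_le_mul_of_nonneg_right hb hpos.le) hlt⟩

lemma gblock_mono {W : Type} {S : W → W → W → Prop} {lam : W → ZMod 3} {L : ℕ}
    {Z : ℕ → Set W} (h : GBlock S lam L Z) {s t : ℕ} (hst : s ≤ t) (ht : t ≤ L) :
    Z s ⊆ Z t := by
  induction t, hst using Nat.le_induction with
  | base => exact subset_rfl
  | succ t _ ih => exact (ih (by omega)).trans (h.mono t (by omega))

lemma gblock_le {W : Type} {S : W → W → W → Prop} {lam : W → ZMod 3} {L n : ℕ}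
    {Z : ℕ → Set W} (h : GBlock S lam L Z) (hn : n ≤ L) : GBlock S lam n Z where
  sym := h.sym
  nonempty := h.nonempty
  mono t ht := h.mono t (by omega)
  sum x hx y hy z hz := h.sum x (gblock_mono h hn le_rfl hx) y (gblock_mono h hn le_rfl hy) z
    (gblock_mono h hn le_rfl hz)
  meet t ht := h.meet t (by omega)

/-- Changing the coordinates one by one. -/
lemma const_of_update {ι : Type} [Finite ι] {V : ι → Type} {α : Type} (A : ∀ i, Set (V i))
    (F : (∀ i, V i) → α)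
    (h : ∀ i, ∀ y : ∀ j, V j, (∀ j, y j ∈ A j) → ∀ x ∈ A i, ∀ x' ∈ A i,
      (open Classical in F (Function.update y i x) = F (Function.update y i x')))
    (y y' : ∀ j, V j) (hy : ∀ j, y j ∈ A j) (hy' : ∀ j, y' j ∈ A j) : F y = F y' := by
  classical
  have := Fintype.ofFinite ι
  have key : ∀ s : Finset ι, F (s.piecewise y' y) = F y := by
    intro s
    induction s using Finset.induction_on with
    | empty => rw [Finset.piecewise_empty]
    | insert i s hi ih =>
      rw [Finset.piecewise_insert, ← ih]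
      have hm : ∀ j, s.piecewise y' y j ∈ A j := by
        intro j
        by_cases hj : j ∈ s
        · rw [Finset.piecewise_eq_of_mem _ _ _ hj]
          exact hy' j
        · rw [Finset.piecewise_eq_of_notMem _ _ _ hj]
          exact hy j
      have h1 := h i (s.piecewise y' y) hm (y' i) (hy' i) (s.piecewise y' y i) (hm i)
      rw [Function.update_eq_self] at h1
      convert h1
  have h2 := key Finset.univ
  rw [Finset.piecewise_univ] at h2
  exact h2.symm

lemma core {C : Type} {P : Set (Multiset C)} {x : ℝ} (hx0 : 0 ≤ x) (hx : x < 1 / 3) {L1 : ℕ}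
    (hP : ∀ (ι : Type) [Finite ι] (V : ι → Type) (R : ∀ i, V i → V i → V i → Prop)
      (Y : ∀ i, ℕ → Set (V i)) (W : Type) (S : W → W → W → Prop) (lam : W → ZMod 3)
      (Z : ℕ → Set W), (∀ i, RChain (R i) x L1 (Y i)) → GBlock S lam L1 Z →
      ∀ f : (∀ i, V i) → W → C, ¬ HomG R (fun i => Y i L1) S (Z L1) f P)
    {e : ℕ} (he : e = (L1 + 6) + 6 + (4 * (L1 + 1) + 3))
    (ι : Type) [Finite ι] (V : ι → Type) (R : ∀ i, V i → V i → V i → Prop)
    (Yb : ∀ i, Set (V i)) (D : ∀ i, ℕ → Set (V i))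
    (hD : ∀ i, RChain (R i) ((1 + x) / 4) e (D i)) (hDY : ∀ i, D i e ⊆ Yb i)
    (alt : ∀ i, ∀ (B : Type) (E : B → B → B → Prop) (Z : ℕ → Set B), Ctx E 6 Z →
      ∀ t : V i → B → ZMod 4, HomT (R i) (Yb i) E (Z 6) t →
        (∀ b ∈ Z 0, ∀ x ∈ D i e, ∀ y ∈ D i e, t x b = t y b) ∨
        (∀ b ∈ Z 0, ∀ b' ∈ Z 0, ∀ x ∈ D i e, t x b = t x b'))
    (W : Type) (S : W → W → W → Prop) (lam : W → ZMod 3) (Z : ℕ → Set W)
    (hW : GBlock S lam e Z) (f : (∀ i, V i) → W → ZMod 4 × C)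
    (hf : HomG R Yb S (Z e) f (E4Pat P)) : False := by
  classical
  have ha0 : (0 : ℝ) ≤ (1 + x) / 4 := by positivity
  have hxa : x ≤ (1 + x) / 4 := by linarith
  set s1 := L1 + 6 with hs1
  -- monotonicity
  have hDm : ∀ i, ∀ {s t : ℕ}, s ≤ t → t ≤ e → D i s ⊆ D i t := fun i _ _ h1 h2 =>
    (hD i).mono_le h1 h2
  have hZm : ∀ {s t : ℕ}, s ≤ t → t ≤ e → Z s ⊆ Z t := fun h1 h2 => gblock_mono hW h1 h2
  -- T4 on the edges of the product
  have hT : ∀ p q r : ∀ i, V i, (∀ i, p i ∈ Yb i) → (∀ i, q i ∈ Yb i) → (∀ i, r i ∈ Yb i) →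
      (∀ i, R i (p i) (q i) (r i)) → ∀ u ∈ Z e, ∀ v ∈ Z e, ∀ w ∈ Z e, S u v w →
      T4 (f p u).1 (f q v).1 (f r w).1 := by
    intro p q r hp hq hr hR u hu v hv w hw hS
    exact ((mem_E4Pat P _ _ _).1 (hf p q r hp hq hr hR u hu v hv w hw hS)).1
  have hPm : ∀ p q r : ∀ i, V i, (∀ i, p i ∈ Yb i) → (∀ i, q i ∈ Yb i) → (∀ i, r i ∈ Yb i) →
      (∀ i, R i (p i) (q i) (r i)) → ∀ u ∈ Z e, ∀ v ∈ Z e, ∀ w ∈ Z e, S u v w →
      (f p u).1 = (f q v).1 → (f q v).1 = (f r w).1 →
      ({(f p u).2, (f q v).2, (f r w).2} : Multiset C) ∈ P := by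
    intro p q r hp hq hr hR u hu v hv w hw hS h1 h2
    exact ((mem_E4Pat P _ _ _).1 (hf p q r hp hq hr hR u hu v hv w hw hS)).2 h1 h2
  -- the context
  let B : Type := W × ∀ j, V j
  let E : B → B → B → Prop := fun b b' b'' => S b.1 b'.1 b''.1 ∧
    ∀ j, R j (b.2 j) (b'.2 j) (b''.2 j)
  let Zc : ℕ → Set B := fun n => {b | b.1 ∈ Z (s1 + n) ∧ ∀ j, b.2 j ∈ D j (s1 + n)}
  have hctx : Ctx E 6 Zc := by
    refine ⟨⟨?_, ?_⟩, ?_, ?_⟩
    · rintro p q r ⟨h1, h2⟩
      exact ⟨hW.sym.s12 _ _ _ h1, fun j => (hD j).sym.s12 _ _ _ (h2 j)⟩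
    · rintro p q r ⟨h1, h2⟩
      exact ⟨hW.sym.s23 _ _ _ h1, fun j => (hD j).sym.s23 _ _ _ (h2 j)⟩
    · rintro n hn b ⟨h1, h2⟩
      exact ⟨hZm (by omega) (by omega) h1, fun j => hDm j (by omega) (by omega) (h2 j)⟩
    · rintro n hn b ⟨h1, h2⟩ b' ⟨h1', h2'⟩
      obtain ⟨w, hw, hw', -⟩ := hW.meet (s1 + n) (by omega) b.1 h1 b'.1 h1' b.1 h1 b'.1 h1' rfl
      have h3 : ∀ j, ∃ z ∈ D j (s1 + n + 1), R j (b.2 j) (b'.2 j) z := fun j =>
        (hD j).comp ha0 (by omega) (h2 j) (h2' j)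
      choose z hz hz' using h3
      exact ⟨(w, z), ⟨hw, hz⟩, ⟨hw', hz'⟩⟩
  have halt : ∀ i, (∀ b ∈ Zc 0, ∀ p ∈ D i e, ∀ q ∈ D i e,
      (f (Function.update b.2 i p) b.1).1 = (f (Function.update b.2 i q) b.1).1) ∨
      (∀ b ∈ Zc 0, ∀ b' ∈ Zc 0, ∀ p ∈ D i e,
        (f (Function.update b.2 i p) b.1).1 = (f (Function.update b'.2 i p) b'.1).1) := by
    intro i
    refine alt i B E Zc hctx (fun p b => (f (Function.update b.2 i p) b.1).1) ?_
    intro p hp q hq r hr hR b hb b' hb' b'' hb'' hE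
    have hm : ∀ (p : V i), p ∈ Yb i → ∀ b ∈ Zc 6, ∀ j, Function.update b.2 i p j ∈ Yb j := by
      intro p hp b hb j
      by_cases h : j = i
      · subst h
        rw [Function.update_self]
        exact hp
      · rw [Function.update_of_ne h]
        exact hDY j (hDm j (by omega) le_rfl (hb.2 j))
    refine hT _ _ _ (hm p hp b hb) (hm q hq b' hb') (hm r hr b'' hb'') ?_ _
      (hZm (by omega) le_rfl hb.1) _ (hZm (by omega) le_rfl hb'.1) _
      (hZm (by omega) le_rfl hb''.1) hE.1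
    intro j
    by_cases h : j = i
    · subst h
      rw [Function.update_self, Function.update_self, Function.update_self]
      exact hR
    · rw [Function.update_of_ne h, Function.update_of_ne h, Function.update_of_ne h]
      exact hE.2 j
  -- the starting points
  obtain ⟨w0, hw0⟩ := hW.nonempty
  have hy0' : ∀ j, ∃ y, y ∈ D j 0 := fun j => (hD j).nonempty
  choose y0 hy0 using hy0'
  obtain ⟨w1, hw1, hw1', -⟩ := hW.meet 0 (by omega) w0 hw0 w0 hw0 w0 hw0 w0 hw0 rfl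
  have hy1' : ∀ j, ∃ z ∈ D j (0 + 1), R j (y0 j) (y0 j) z := fun j =>
    (hD j).comp ha0 (by omega) (hy0 j) (hy0 j)
  choose y1 hy1 hy1R using hy1'
  have hb0 : ((w0, y0) : B) ∈ Zc 0 :=
    ⟨hZm (by omega) (by omega) hw0, fun j => hDm j (by omega) (by omega) (hy0 j)⟩
  have hb1 : ((w1, y1) : B) ∈ Zc 0 :=
    ⟨hZm (by omega) (by omega) hw1, fun j => hDm j (by omega) (by omega) (hy1 j)⟩
  by_cases hdict : ∃ i, ∀ b ∈ Zc 0, ∀ b' ∈ Zc 0, ∀ p ∈ D i e,
      (f (Function.update b.2 i p) b.1).1 = (f (Function.update b'.2 i p) b'.1).1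
  · -- a dictator
    obtain ⟨i, hi⟩ := hdict
    set φ : V i → ZMod 4 := fun p => (f (Function.update y0 i p) w0).1 with hφ
    have hT4 : ∀ p ∈ D i (4 * (L1 + 1) + 3), ∀ q ∈ D i (4 * (L1 + 1) + 3),
        ∀ r ∈ D i (4 * (L1 + 1) + 3), R i p q r → T4 (φ p) (φ q) (φ r) := by
      intro p hp q hq r hr hR
      have hp' : p ∈ D i e := hDm i (by omega) le_rfl hp
      have hq' : q ∈ D i e := hDm i (by omega) le_rfl hq
      have hr' : r ∈ D i e := hDm i (by omega) le_rfl hr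
      have h1 : φ r = (f (Function.update y1 i r) w1).1 := hi (w0, y0) hb0 (w1, y1) hb1 r hr'
      rw [h1]
      have hm : ∀ (p : V i), p ∈ D i e → ∀ y : ∀ j, V j, (∀ j, y j ∈ D j (s1 + 0)) →
          ∀ j, Function.update y i p j ∈ Yb j := by
        intro p hp y hy j
        by_cases h : j = i
        · subst h
          rw [Function.update_self]
          exact hDY _ hp
        · rw [Function.update_of_ne h]
          exact hDY j (hDm j (by omega) le_rfl (hy j))
      refine hT _ _ _ (hm p hp' y0 hb0.2) (hm q hq' y0 hb0.2) (hm r hr' y1 hb1.2) ?_ _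
        (hZm (by omega) le_rfl hb0.1) _ (hZm (by omega) le_rfl hb0.1) _
        (hZm (by omega) le_rfl hb1.1) hw1'
      intro j
      by_cases h : j = i
      · subst h
        rw [Function.update_self, Function.update_self, Function.update_self]
        exact hR
      · rw [Function.update_of_ne h, Function.update_of_ne h, Function.update_of_ne h]
        exact hy1R j
    obtain ⟨u, Y', hY', hsub⟩ := g4_class L1 x hx0 hx.le
      (rchain_le (hD i) le_rfl (show 4 * (L1 + 1) + 3 ≤ e by omega)) φ hT4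
    have hch : ∀ j, RChain (R j) x L1 (Function.update D i Y' j) := by
      intro j
      by_cases h : j = i
      · subst h
        rw [Function.update_self]
        exact hY'
      · rw [Function.update_of_ne h]
        exact rchain_le (hD j) hxa (by omega)
    refine hP ι V R (Function.update D i Y') W S lam Z hch (gblock_le hW (by omega))
      (fun y w => (f y w).2) ?_
    have hmem : ∀ p : ∀ j, V j, (∀ j, p j ∈ Function.update D i Y' j L1) → ∀ j, p j ∈ D j e := by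
      intro p hp j
      have h1 := hp j
      by_cases h : j = i
      · subst h
        rw [Function.update_self] at h1
        exact hDm j (by omega) le_rfl ((hsub L1 le_rfl).1 h1)
      · rw [Function.update_of_ne h] at h1
        exact hDm j (by omega) le_rfl h1
    have hval : ∀ p : ∀ j, V j, (∀ j, p j ∈ Function.update D i Y' j L1) → ∀ w ∈ Z L1,
        (f p w).1 = u := by
      intro p hp w hw
      have h1 : ((w, Function.update p i (y0 i)) : B) ∈ Zc 0 := by
        refine ⟨hZm (by omega) (by omega) hw, ?_⟩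
        intro j
        show Function.update p i (y0 i) j ∈ D j (s1 + 0)
        by_cases h : j = i
        · subst h
          rw [Function.update_self]
          exact hb0.2 j
        · rw [Function.update_of_ne h]
          have h2 := hp j
          rw [Function.update_of_ne h] at h2
          exact hDm j (by omega) (by omega) h2
      have h2 := hi _ h1 _ hb0 (p i) (hmem p hp i)
      have h3 : Function.update (Function.update p i (y0 i)) i (p i) = p := by
        rw [Function.update_idem, Function.update_eq_self]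
      have h4 : (f p w).1 = φ (p i) := by
        have h5 : (f (Function.update (Function.update p i (y0 i)) i (p i)) w).1 = φ (p i) := h2
        rw [h3] at h5
        exact h5
      rw [h4]
      have h6 := hp i
      rw [Function.update_self] at h6
      exact (hsub L1 le_rfl).2 _ h6
    intro p q r hp hq hr hR a ha b hb c hc hS
    refine hPm p q r (fun j => hDY j (hmem p hp j)) (fun j => hDY j (hmem q hq j))
      (fun j => hDY j (hmem r hr j)) hR a (hZm (by omega) le_rfl ha) b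
      (hZm (by omega) le_rfl hb) c (hZm (by omega) le_rfl hc) hS ?_ ?_
    · rw [hval p hp a ha, hval q hq b hb]
    · rw [hval q hq b hb, hval r hr c hc]
  · -- no dictator
    have hconst : ∀ i, ∀ b ∈ Zc 0, ∀ p ∈ D i e, ∀ q ∈ D i e,
        (f (Function.update b.2 i p) b.1).1 = (f (Function.update b.2 i q) b.1).1 := by
      intro i
      rcases halt i with h | h
      · exact h
      · exact absurd ⟨i, h⟩ hdict
    have hfy : ∀ w ∈ Z s1, ∀ y y' : ∀ j, V j, (∀ j, y j ∈ D j s1) → (∀ j, y' j ∈ D j s1) →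
        (f y w).1 = (f y' w).1 := by
      intro w hw y y' hy hy'
      refine const_of_update (fun j => D j s1) (fun y => (f y w).1) ?_ y y' hy hy'
      intro i y hy p hp q hq
      have h1 := hconst i (w, y) ⟨hw, hy⟩ p (hDm i (by omega) le_rfl hp) q
        (hDm i (by omega) le_rfl hq)
      convert h1
    have hs1e : s1 ≤ e := by omega
    have hT4 : ∀ p ∈ Z s1, ∀ q ∈ Z s1, ∀ r ∈ Z s1, S p q r →
        T4 (f y0 p).1 (f y0 q).1 (f y0 r).1 := by
      intro p hp q hq r hr hS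
      rw [hfy r hr y0 y1 hb0.2 hb1.2]
      exact hT y0 y0 y1 (fun j => hDY j (hDm j (by omega) le_rfl (hy0 j)))
        (fun j => hDY j (hDm j (by omega) le_rfl (hy0 j)))
        (fun j => hDY j (hDm j (by omega) le_rfl (hy1 j))) hy1R p (hZm hs1e le_rfl hp) q
        (hZm hs1e le_rfl hq) r (hZm hs1e le_rfl hr) hS
    have hτ := gblock_const (gblock_le hW hs1e) (fun w => (f y0 w).1) hT4
      (show L1 + 5 ≤ s1 by omega)
    refine hP ι V R D W S lam Z (fun j => rchain_le (hD j) hxa (by omega))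
      (gblock_le hW (by omega)) (fun y w => (f y w).2) ?_
    have hval : ∀ p : ∀ j, V j, (∀ j, p j ∈ D j L1) → ∀ w ∈ Z L1, (f p w).1 = (f y0 w0).1 := by
      intro p hp w hw
      rw [hfy w (hZm (by omega) hs1e hw) p y0
        (fun j => hDm j (by omega) hs1e (hp j)) hb0.2]
      exact hτ w hw w0 (hZm (by omega) (by omega) hw0)
    have hmem : ∀ p : ∀ j, V j, (∀ j, p j ∈ D j L1) → ∀ j, p j ∈ Yb j := fun p hp j =>
      hDY j (hDm j (by omega) le_rfl (hp j))
    intro p q r hp hq hr hR a ha b hb c hc hS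
    refine hPm p q r (hmem p hp) (hmem q hq) (hmem r hr) hR a (hZm (by omega) le_rfl ha) b
      (hZm (by omega) le_rfl hb) c (hZm (by omega) le_rfl hc) hS ?_ ?_
    · rw [hval p hp a ha, hval q hq b hb]
    · rw [hval q hq b hb, hval r hr c hc]

end G4S

/-- The statement of the module `G4Factor`. -/
def G4FactorStmt : Prop :=
  ∀ e : ℕ, ∃ L : ℕ, ∀ (V : Type) (R : V → V → V → Prop) (Y : ℕ → Set V)
    (a : ℝ), 1 / 4 ≤ a → RChain R a L Y → ∃ s v, v ∈ Y s ∧ s + e ≤ L ∧
    (GrAt R Y e s v ∨ ∀ (B : Type) (E : B → B → B → Prop) (Z : ℕ → Set B), Ctx E 6 Z →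
      ∀ t : V → B → ZMod 4, HomT R (Y L) E (Z 6) t →
        (∀ b ∈ Z 0, ∀ x ∈ gen3 R Y s v e, ∀ y ∈ gen3 R Y s v e, t x b = t y b) ∨
        (∀ b ∈ Z 0, ∀ b' ∈ Z 0, ∀ x ∈ gen3 R Y s v e, t x b = t x b'))

theorem irrG_E4_of (hfac4 : G4FactorStmt) {C : Type} (P : Set (Multiset C)) (x : ℝ) (hx0 : 0 ≤ x) (hx : x < 1 / 3)
    (hP : IrrG P x) : IrrG (E4Pat P) ((1 + x) / 4) := by
  classical
  obtain ⟨L1, hL1⟩ := hP
  have ha4 : (1 : ℝ) / 4 ≤ (1 + x) / 4 := by linarith
  have ha0 : (0 : ℝ) ≤ (1 + x) / 4 := by positivity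
  set e := (L1 + 6) + 6 + (4 * (L1 + 1) + 3) with he
  obtain ⟨LF, hLF⟩ := hfac4 e
  refine ⟨LF + e, ?_⟩
  intro ι _ V R Y W S lam Z hY hW f hf
  have hfac := fun i => hLF (V i) (R i) (Y i) _ ha4
    (G4S.rchain_le (hY i) le_rfl (Nat.le_add_right LF e))
  choose s v hv hs halt using hfac
  -- the chains generated from the starting points
  have hD : ∀ i, RChain (R i) ((1 + x) / 4) e (gen3 (R i) (Y i) (s i) (v i)) := fun i =>
    (hY i).gen ha0 (by have := hs i; omega) (hv i)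
  have hDY : ∀ i, gen3 (R i) (Y i) (s i) (v i) e ⊆ Y i LF := by
    intro i
    have h1 := gen3_sub (R := R i) (hY i).mono (hv i) (show s i + e ≤ LF + e by
      have := hs i; omega)
    exact h1.trans ((hY i).mono_le (hs i) (Nat.le_add_right _ _))
  have hYY : ∀ i, Y i LF ⊆ Y i (LF + e) := fun i =>
    (hY i).mono_le (Nat.le_add_right _ _) le_rfl
  obtain ⟨w0, hw0⟩ := hW.nonempty
  -- the graded factors
  let G : Type := {i // GrAt (R i) (Y i) e (s i) (v i)}
  let N : Type := {i // ¬ GrAt (R i) (Y i) e (s i) (v i)}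
  have hgr : ∀ i : G, ∃ l : V i.1 → ZMod 3, ∀ x ∈ gen3 (R i.1) (Y i.1) (s i.1) (v i.1) e,
      ∀ y ∈ gen3 (R i.1) (Y i.1) (s i.1) (v i.1) e,
      ∀ z ∈ gen3 (R i.1) (Y i.1) (s i.1) (v i.1) e, R i.1 x y z → l x + l y + l z = 1 :=
    fun i => i.2
  choose l hl using hgr
  have hbl : ∀ i : G, GBlock (R i.1) (fun x => l i x + (lam w0 - l i (v i.1))) e
      (gen3 (R i.1) (Y i.1) (s i.1) (v i.1)) := fun i =>
    gblock_gen ha4 (hY i.1) (by have := hs i.1; omega) (hv i.1) (l i) (hl i) _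
  have hblock := gblock_prod hbl (G4S.gblock_le hW (Nat.le_add_left e LF))
    ⟨w0, hw0, fun i => v i.1, fun i => ⟨gen3_self _ _ _ _ 0, by ring⟩⟩
  -- the combination of the coordinates
  let cmb : (∀ i : N, V i.1) → (∀ i : G, V i.1) → ∀ i, V i := fun y g i =>
    if h : GrAt (R i) (Y i) e (s i) (v i) then g ⟨i, h⟩ else y ⟨i, h⟩
  have hc1 : ∀ y g i (h : GrAt (R i) (Y i) e (s i) (v i)), cmb y g i = g ⟨i, h⟩ := by
    intro y g i h
    simp only [cmb, dif_pos h]
  have hc2 : ∀ y g i (h : ¬ GrAt (R i) (Y i) e (s i) (v i)), cmb y g i = y ⟨i, h⟩ := by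
    intro y g i h
    simp only [cmb, dif_neg h]
  refine G4S.core hx0 hx hL1 he N (fun i => V i.1) (fun i => R i.1) (fun i => Y i.1 LF)
    (fun i => gen3 (R i.1) (Y i.1) (s i.1) (v i.1)) (fun i => hD i.1) (fun i => hDY i.1)
    (fun i => ?_) _ _ _ _ hblock (fun y p => f (cmb y p.2) p.1) ?_
  · exact (halt i.1).resolve_left i.2
  · intro p q r hp hq hr hR a ha b hb c hc hS
    have hm : ∀ p : ∀ i : N, V i.1, (∀ i : N, p i ∈ Y i.1 LF) → ∀ g : ∀ i : G, V i.1,
        (∀ i : G, g i ∈ gen3 (R i.1) (Y i.1) (s i.1) (v i.1) e) →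
        ∀ i, cmb p g i ∈ Y i (LF + e) := by
      intro p hp g hg i
      by_cases h : GrAt (R i) (Y i) e (s i) (v i)
      · rw [hc1 p g i h]
        exact hYY i (hDY i (hg ⟨i, h⟩))
      · rw [hc2 p g i h]
        exact hYY i (hp ⟨i, h⟩)
    have hZe : Z e ⊆ Z (LF + e) := G4S.gblock_mono hW (Nat.le_add_left _ _) le_rfl
    refine hf _ _ _ (hm p hp a.2 (fun i => (ha.2 i).1)) (hm q hq b.2 (fun i => (hb.2 i).1))
      (hm r hr c.2 (fun i => (hc.2 i).1)) ?_ _ (hZe ha.1) _ (hZe hb.1) _ (hZe hc.1) hS.1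
    intro i
    by_cases h : GrAt (R i) (Y i) e (s i) (v i)
    · rw [hc1 p a.2 i h, hc1 q b.2 i h, hc1 r c.2 i h]
      exact hS.2 ⟨i, h⟩
    · rw [hc2 p a.2 i h, hc2 q b.2 i h, hc2 r c.2 i h]
      exact hR ⟨i, h⟩

end CodegDens
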