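import Pool.Agent.Lib.MP_81e58e_co.Defs

/-!
Module `RichCount`: minimum codegree at least `(a + ε) n` gives at least `c n ^ Z` injective
placements whose induced `k`-graph carries an `(a, M, L)`-chain.
-/

namespace CodegDens

open Finset Filter Topology

theorem rc_comap_adj {k : ℕ} {V W : Type} (H : KGraph k V) (g : W ↪ V) (v : W) (S : Finset W) :
    (H.comap g).Adj v S ↔ H.Adj (g v) (S.map g) := by
  unfold KGraph.Adj
  constructor
  · rintro ⟨h, he⟩
    refine ⟨by simpa using h, ?_⟩
    have h2 : (S.cons v h).map g ∈ H.edges := he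
    rwa [Finset.map_cons] at h2
  · rintro ⟨h, he⟩
    have h' : v ∉ S := by simpa using h
    refine ⟨h', ?_⟩
    show (S.cons v h').map g ∈ H.edges
    rwa [Finset.map_cons]

open Classical in
theorem rc_codeg {k n : ℕ} (H : KGraph k (Fin n)) (S : Finset (Fin n)) (hS : S.card + 1 = k) :
    H.codeg S = (univ.filter (fun v => H.Adj v S)).card := by
  have h1 : {e | e ∈ H.edges ∧ S ⊆ e} = (fun v => insert v S) '' {v | H.Adj v S} := by
    ext e
    constructor
    · rintro ⟨he, hSe⟩
      have hc := H.card_eq e he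
      obtain ⟨v, hv, rfl⟩ := (Finset.exists_eq_insert_iff (s := S) (t := e)).2 ⟨hSe, by omega⟩
      refine ⟨v, ⟨hv, ?_⟩, rfl⟩
      rwa [Finset.cons_eq_insert]
    · rintro ⟨v, ⟨hv, he⟩, rfl⟩
      rw [Finset.cons_eq_insert] at he
      exact ⟨he, Finset.subset_insert v S⟩
  unfold KGraph.codeg
  rw [h1, Set.InjOn.ncard_image]
  · rw [← Set.ncard_coe_finset]
    congr 1
    ext v
    simp
  · intro v hv w hw hvw
    obtain ⟨hv1, _⟩ := hv
    exact (Finset.insert_inj hv1).1 hvw

/-- greedy choice of pairwise disjoint subsets -/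
theorem rc_greedy {α ι : Type} [DecidableEq α] [DecidableEq ι] (r D : ℕ) (B : Finset α)
    (W : ι → Finset α) (s : Finset ι) (hD : s.card * r + B.card ≤ D)
    (hW : ∀ i ∈ s, D ≤ (W i).card) :
    ∃ U : ι → Finset α, (∀ i ∈ s, U i ⊆ W i) ∧ (∀ i ∈ s, (U i).card = r) ∧
      (∀ i ∈ s, Disjoint (U i) B) ∧ (∀ i ∈ s, ∀ j ∈ s, i ≠ j → Disjoint (U i) (U j)) := by
  induction s using Finset.induction_on with
  | empty => exact ⟨fun _ => ∅, by simp, by simp, by simp, by simp⟩
  | insert i s his ih =>
    rw [Finset.card_insert_of_notMem his] at hD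
    obtain ⟨U, h1, h2, h3, h4⟩ := ih (by nlinarith) (fun j hj => hW j (Finset.mem_insert_of_mem hj))
    set R : Finset α := B ∪ s.biUnion U with hR
    have hRc : R.card ≤ B.card + s.card * r := by
      refine (Finset.card_union_le _ _).trans ?_
      refine Nat.add_le_add_left ?_ _
      refine (Finset.card_biUnion_le).trans ?_
      rw [Finset.sum_congr rfl h2, Finset.sum_const, smul_eq_mul]
    have hWi := hW i (Finset.mem_insert_self i s)
    have h5 : r ≤ (W i \ R).card := by
      have h6 := Finset.le_card_sdiff R (W i)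
      have : r + R.card ≤ (W i).card := by nlinarith
      omega
    obtain ⟨U0, hU0, hU0c⟩ := Finset.exists_subset_card_eq h5
    have hne : ∀ j ∈ s, j ≠ i := fun j hj hji => his (hji ▸ hj)
    have hU0W : U0 ⊆ W i := hU0.trans Finset.sdiff_subset
    have hU0R : Disjoint U0 R := Finset.disjoint_of_subset_left hU0 Finset.sdiff_disjoint
    have hU0B : Disjoint U0 B := Finset.disjoint_of_subset_right Finset.subset_union_left hU0R
    have hU0U : ∀ j ∈ s, Disjoint U0 (U j) := fun j hj =>
      Finset.disjoint_of_subset_right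
        ((Finset.subset_biUnion_of_mem U hj).trans Finset.subset_union_right) hU0R
    refine ⟨Function.update U i U0, ?_, ?_, ?_, ?_⟩
    · intro j hj
      rcases Finset.mem_insert.1 hj with rfl | hj
      · simpa using hU0W
      · rw [Function.update_of_ne (hne j hj)]
        exact h1 j hj
    · intro j hj
      rcases Finset.mem_insert.1 hj with rfl | hj
      · simpa using hU0c
      · rw [Function.update_of_ne (hne j hj)]
        exact h2 j hj
    · intro j hj
      rcases Finset.mem_insert.1 hj with rfl | hj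
      · simpa using hU0B
      · rw [Function.update_of_ne (hne j hj)]
        exact h3 j hj
    · intro j hj l hl hjl
      rcases Finset.mem_insert.1 hj with hj' | hj' <;>
        rcases Finset.mem_insert.1 hl with hl' | hl'
      · exact absurd (hj'.trans hl'.symm) hjl
      · subst hj'
        rw [Function.update_self, Function.update_of_ne (hne l hl')]
        exact hU0U l hl'
      · subst hl'
        rw [Function.update_self, Function.update_of_ne (hne j hj')]
        exact (hU0U j hj').symm
      · rw [Function.update_of_ne (hne j hj'), Function.update_of_ne (hne l hl')]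
        exact h4 j hj' l hl' hjl

/-- extension of a chain by one level -/
theorem rc_chain_step {k z q n M L : ℕ} (H : KGraph k (Fin n)) (a : ℝ) (x : Fin z → Fin n)
    (hx : Function.Injective x) (x' : Fin (z + q) → Fin n) (hx' : Function.Injective x')
    (hext : ∀ i, x' (Fin.castAdd q i) = x i) (X : ℕ → Finset (Fin z))
    (hX : Chain (H.comap ⟨x, hx⟩) a M L X)
    (hnew : ∀ w : Finset (Fin z) → ℝ, (∀ S, 0 ≤ w S) →
      0 < ∑ S ∈ (X L).powersetCard (k - 1), w S → ∃ Y : Finset (Fin (z + q)), M ≤ Y.card ∧
        ∀ v ∈ Y, a * ∑ S ∈ (X L).powersetCard (k - 1), w S <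
          ∑ S ∈ (X L).powersetCard (k - 1),
            (open Classical in if H.Adj (x' v) (S.map ⟨x, hx⟩) then w S else 0)) :
    Chain (H.comap ⟨x', hx'⟩) a M (L + 1)
      (fun t => if t ≤ L then (X t).map (Fin.castAddEmb q) else univ) := by
  classical
  set E : Fin z ↪ Fin (z + q) := Fin.castAddEmb q with hE
  have hEx : E.trans ⟨x', hx'⟩ = ⟨x, hx⟩ := by
    ext i
    simp only [Function.Embedding.trans_apply, Function.Embedding.coeFn_mk, hE,
      Fin.castAddEmb_apply, hext]
  have hmm : ∀ S : Finset (Fin z), (S.map E).map ⟨x', hx'⟩ = S.map ⟨x, hx⟩ := by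
    intro S
    rw [Finset.map_map, hEx]
  have hpow : ∀ (T : Finset (Fin z)) (f : Finset (Fin (z + q)) → ℝ),
      ∑ S ∈ (T.map E).powersetCard (k - 1), f S =
        ∑ S ∈ T.powersetCard (k - 1), f (S.map E) := by
    intro T f
    rw [Finset.powersetCard_map, Finset.sum_map]
    rfl
  refine ⟨?_, ?_, ?_⟩
  · intro t ht
    by_cases h1 : t + 1 ≤ L
    · simp only [show t ≤ L by omega, h1, if_true]
      exact Finset.map_subset_map.2 (hX.mono t (by omega))
    · simp only [h1, if_false]
      exact Finset.subset_univ _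
  · simp only [Nat.zero_le, if_true, Finset.card_map]
    exact hX.card
  · intro t ht w hw hpos
    have htL : t ≤ L := by omega
    simp only [htL, if_true] at hpos ⊢
    rw [hpow] at hpos ⊢
    simp only [hpow]
    simp only [rc_comap_adj, hmm]
    by_cases h1 : t + 1 ≤ L
    · obtain ⟨Y, hY1, hY2, hY3⟩ := hX.rich t (by omega) (fun S => w (S.map E))
        (fun S => hw _) hpos
      refine ⟨Y.map E, ?_, by simpa using hY2, ?_⟩
      · simp only [h1, if_true]
        exact Finset.map_subset_map.2 hY1
      · intro v hv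
        obtain ⟨u, hu, rfl⟩ := Finset.mem_map.1 hv
        have h2 := hY3 u hu
        simp only [rc_comap_adj] at h2
        have h3 : x' (E u) = x u := hext u
        simp only [Function.Embedding.coeFn_mk, h3] at h2 ⊢
        exact h2
    · have htL' : t = L := by omega
      subst htL'
      obtain ⟨Y, hY2, hY3⟩ := hnew (fun S => w (S.map E)) (fun S => hw _) hpos
      refine ⟨Y, ?_, hY2, ?_⟩
      · simp only [h1, if_false]
        exact Finset.subset_univ _
      · intro v hv
        exact hY3 v hv

open Classical in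
/-- averaging: some frequent type carries more than the fraction `a` of the weight -/
theorem rc_frequent {k z n : ℕ} (hk : 1 ≤ k) (H : KGraph k (Fin n)) (a ε η : ℝ) (ha : 0 ≤ a)
    (hε : 0 < ε) (hn : 0 < n) (hη0 : 0 ≤ η)
    (hη : Fintype.card (Finset (Finset (Fin z))) * η ≤ ε / 2) (x : Fin z ↪ Fin n)
    (hH : ∀ S : Finset (Fin n), S.card + 1 = k → (a + ε) * n ≤ H.codeg S)
    (typ : Fin n → Finset (Finset (Fin z))) (htyp : ∀ v S, S ∈ typ v ↔ H.Adj v (S.map x))
    (T : Finset (Fin z)) (w : Finset (Fin z) → ℝ) (hw : ∀ S, 0 ≤ w S)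
    (hpos : 0 < ∑ S ∈ T.powersetCard (k - 1), w S) :
    ∃ τ : Finset (Finset (Fin z)), η * n ≤ (univ.filter (fun v => typ v = τ)).card ∧
      a * ∑ S ∈ T.powersetCard (k - 1), w S <
        ∑ S ∈ T.powersetCard (k - 1), (if S ∈ τ then w S else 0) := by
  by_contra hcon
  push Not at hcon
  set W : ℝ := ∑ S ∈ T.powersetCard (k - 1), w S with hW
  set g : Finset (Finset (Fin z)) → ℝ :=
    fun τ => ∑ S ∈ T.powersetCard (k - 1), (if S ∈ τ then w S else 0) with hg
  have hgW : ∀ τ, g τ ≤ W := by
    intro τ
    refine Finset.sum_le_sum fun S _ => ?_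
    split_ifs
    · exact le_rfl
    · exact hw S
  have hlow : (a + ε) * n * W ≤ ∑ v : Fin n, g (typ v) := by
    have h1 : ∑ v : Fin n, g (typ v) =
        ∑ S ∈ T.powersetCard (k - 1), w S * (H.codeg (S.map x) : ℝ) := by
      rw [hg, Finset.sum_comm]
      refine Finset.sum_congr rfl fun S hS => ?_
      have hSc : (S.map x).card + 1 = k := by
        rw [Finset.card_map, (Finset.mem_powersetCard.1 hS).2]
        omega
      rw [rc_codeg H _ hSc, ← Finset.sum_filter, Finset.sum_const, nsmul_eq_mul, mul_comm]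
      congr 3
      ext v
      simp [htyp]
    rw [h1, hW, Finset.mul_sum]
    refine Finset.sum_le_sum fun S hS => ?_
    have hSc : (S.map x).card + 1 = k := by
      rw [Finset.card_map, (Finset.mem_powersetCard.1 hS).2]
      omega
    have h2 := mul_le_mul_of_nonneg_left (hH _ hSc) (hw S)
    linarith
  set I : Finset (Finset (Finset (Fin z))) :=
    univ.filter (fun τ => ((univ.filter (fun v => typ v = τ)).card : ℝ) < η * n) with hI
  have hup1 : ∀ v : Fin n, g (typ v) ≤ a * W + (if typ v ∈ I then W else 0) := by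
    intro v
    by_cases h : typ v ∈ I
    · rw [if_pos h]
      have := hgW (typ v)
      have h3 : 0 ≤ a * W := mul_nonneg ha hpos.le
      linarith
    · rw [if_neg h, add_zero]
      have h2 : η * n ≤ (univ.filter (fun u => typ u = typ v)).card := by
        by_contra h3
        exact h (by rw [hI, Finset.mem_filter]; exact ⟨Finset.mem_univ _, not_le.1 h3⟩)
      exact hcon _ h2
  have hcount : ((univ.filter (fun v : Fin n => typ v ∈ I)).card : ℝ) ≤
      Fintype.card (Finset (Finset (Fin z))) * (η * n) := by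
    have h1 : (univ.filter (fun v : Fin n => typ v ∈ I)).card =
        ∑ τ ∈ I, (univ.filter (fun v : Fin n => typ v = τ)).card := by
      rw [Finset.card_eq_sum_card_fiberwise (f := typ) (t := I)]
      · refine Finset.sum_congr rfl fun τ hτ => ?_
        congr 1
        ext v
        simp only [Finset.mem_filter, Finset.mem_univ, true_and]
        constructor
        · exact fun h => h.2
        · exact fun h => ⟨h ▸ hτ, h⟩
      · intro v hv
        simpa using hv
    rw [h1, Nat.cast_sum]
    calc (∑ τ ∈ I, ((univ.filter (fun v : Fin n => typ v = τ)).card : ℝ))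
        ≤ ∑ τ ∈ I, (η * n) := Finset.sum_le_sum fun τ hτ => (Finset.mem_filter.1 hτ).2.le
      _ = I.card * (η * n) := by rw [Finset.sum_const, nsmul_eq_mul]
      _ ≤ Fintype.card (Finset (Finset (Fin z))) * (η * n) := by
          refine mul_le_mul_of_nonneg_right ?_ (by positivity)
          exact_mod_cast Finset.card_le_univ I
  have hup : ∑ v : Fin n, g (typ v) ≤ n * (a * W) +
      (Fintype.card (Finset (Finset (Fin z))) * (η * n)) * W := by
    calc ∑ v : Fin n, g (typ v) ≤ ∑ v : Fin n, (a * W + (if typ v ∈ I then W else 0)) :=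
          Finset.sum_le_sum fun v _ => hup1 v
      _ = n * (a * W) + ((univ.filter (fun v : Fin n => typ v ∈ I)).card : ℝ) * W := by
          rw [Finset.sum_add_distrib, Finset.sum_const, Finset.card_univ, Fintype.card_fin,
            nsmul_eq_mul, ← Finset.sum_filter, Finset.sum_const, nsmul_eq_mul]
      _ ≤ _ := by
          have := mul_le_mul_of_nonneg_right hcount hpos.le
          linarith
  have hn' : (0 : ℝ) < n := by exact_mod_cast hn
  have h5 : (Fintype.card (Finset (Finset (Fin z))) * (η * n)) * W ≤ (ε / 2) * n * W := by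
    refine mul_le_mul_of_nonneg_right ?_ hpos.le
    have := mul_le_mul_of_nonneg_right hη hn'.le
    linarith
  have h6 : 0 < ε * n * W := by positivity
  nlinarith [hlow, hup, h5, h6]

open Classical in
/-- one placement: many extensions by `q` further vertices that prolong the chain -/
theorem rc_extend {k z n q M L r : ℕ} (hk : 1 ≤ k) (H : KGraph k (Fin n)) (a ε η : ℝ)
    (ha : 0 ≤ a) (hε : 0 < ε) (hn : 0 < n) (hη0 : 0 ≤ η) (hη1 : η ≤ 1)
    (hη : Fintype.card (Finset (Finset (Fin z))) * η ≤ ε / 2)
    (hr : (q * r + z : ℝ) ≤ η * n)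
    (e : Fin q ≃ Fin M × Finset (Finset (Fin z)))
    (hH : ∀ S : Finset (Fin n), S.card + 1 = k → (a + ε) * n ≤ H.codeg S)
    (x : Fin z → Fin n) :
    ∃ U : Fin q → Finset (Fin n), (∀ l, (U l).card = r) ∧
      ∀ y ∈ Fintype.piFinset U, ∀ (hx : Function.Injective x) (X : ℕ → Finset (Fin z)),
        Chain (H.comap ⟨x, hx⟩) a M L X →
        ∃ hx' : Function.Injective (Fin.append x y),
          Chain (H.comap ⟨Fin.append x y, hx'⟩) a M (L + 1)
            (fun t => if t ≤ L then (X t).map (Fin.castAddEmb q) else univ) := by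
  set typ : Fin n → Finset (Finset (Fin z)) :=
    fun v => univ.filter (fun S => H.Adj v (S.image x)) with htyp
  set Ws : Finset (Finset (Fin z)) → Finset (Fin n) :=
    fun τ => univ.filter (fun v => typ v = τ) with hWs
  set W : Fin q → Finset (Fin n) :=
    fun l => if η * n ≤ (Ws (e l).2).card then Ws (e l).2 else univ with hW
  set B : Finset (Fin n) := univ.image x with hB
  have hBc : B.card ≤ z := by
    refine Finset.card_image_le.trans ?_
    simp
  have hn' : (0 : ℝ) < n := by exact_mod_cast hn
  obtain ⟨U, hU1, hU2, hU3, hU4⟩ := rc_greedy r ⌈η * n⌉₊ B W univ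
    (by
      rw [Finset.card_univ, Fintype.card_fin]
      have h1 : ((q * r + B.card : ℕ) : ℝ) ≤ (⌈η * n⌉₊ : ℝ) := by
        refine le_trans ?_ (Nat.le_ceil _)
        refine le_trans ?_ hr
        push_cast
        have : (B.card : ℝ) ≤ z := by exact_mod_cast hBc
        linarith
      exact_mod_cast h1)
    (by
      intro l _
      rw [Nat.ceil_le, hW]
      simp only
      split_ifs with h
      · exact h
      · rw [Finset.card_univ, Fintype.card_fin]
        nlinarith)
  refine ⟨U, fun l => hU2 l (Finset.mem_univ l), ?_⟩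
  intro y hy hx X hX
  rw [Fintype.mem_piFinset] at hy
  have hinj : Function.Injective (Fin.append x y) := by
    intro i j hij
    induction i using Fin.addCases with
    | left i =>
      induction j using Fin.addCases with
      | left j =>
        rw [Fin.append_left, Fin.append_left] at hij
        rw [hx hij]
      | right j =>
        rw [Fin.append_left, Fin.append_right] at hij
        exact absurd (hij ▸ hy j : x i ∈ U j) (fun h =>
          (Finset.disjoint_left.1 (hU3 j (Finset.mem_univ j))) h
            (Finset.mem_image_of_mem x (Finset.mem_univ i)))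
    | right i =>
      induction j using Fin.addCases with
      | left j =>
        rw [Fin.append_left, Fin.append_right] at hij
        exact absurd (hij ▸ hy i : x j ∈ U i) (fun h =>
          (Finset.disjoint_left.1 (hU3 i (Finset.mem_univ i))) h
            (Finset.mem_image_of_mem x (Finset.mem_univ j)))
      | right j =>
        rw [Fin.append_right, Fin.append_right] at hij
        by_contra hne
        have hne' : i ≠ j := fun h => hne (by rw [h])
        have h1 := hU4 i (Finset.mem_univ i) j (Finset.mem_univ j) hne'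
        exact Finset.disjoint_left.1 h1 (hy i) (hij ▸ hy j)
  refine ⟨hinj, ?_⟩
  refine rc_chain_step H a x hx _ hinj (fun i => Fin.append_left x y i) X hX ?_
  intro w hw hpos
  have htyp' : ∀ v S, S ∈ typ v ↔ H.Adj v (S.map ⟨x, hx⟩) := by
    intro v S
    rw [htyp, Finset.mem_filter, Finset.map_eq_image]
    simp
  obtain ⟨τ, hτ1, hτ2⟩ := rc_frequent hk H a ε η ha hε hn hη0 hη ⟨x, hx⟩ hH typ htyp' (X L) w hw
    hpos
  refine ⟨univ.image (fun j : Fin M => Fin.natAdd z (e.symm (j, τ))), ?_, ?_⟩
  · rw [Finset.card_image_of_injective]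
    · simp
    · intro j j' hjj
      have h1 := e.symm.injective (Fin.natAdd_injective _ _ hjj)
      exact (Prod.ext_iff.1 h1).1
  · intro v hv
    obtain ⟨j, _, rfl⟩ := Finset.mem_image.1 hv
    refine lt_of_lt_of_eq hτ2 ?_
    refine Finset.sum_congr rfl fun S _ => ?_
    have h1 : y (e.symm (j, τ)) ∈ Ws τ := by
      have h2 := hU1 _ (Finset.mem_univ (e.symm (j, τ))) (hy (e.symm (j, τ)))
      rw [hW] at h2
      simp only [Equiv.apply_symm_apply] at h2
      rwa [if_pos hτ1] at h2
    have h3 : typ (y (e.symm (j, τ))) = τ := (Finset.mem_filter.1 h1).2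
    have h4 : S ∈ τ ↔ H.Adj (Fin.append x y (Fin.natAdd z (e.symm (j, τ))))
        (S.map ⟨x, hx⟩) := by
      rw [Fin.append_right, ← htyp', h3]
    by_cases h5 : S ∈ τ
    · rw [if_pos h5, if_pos (h4.1 h5)]
    · rw [if_neg h5, if_neg (fun h => h5 (h4.2 h))]

theorem rich_count {k : ℕ} (hk : 2 ≤ k) (M L : ℕ) : ∃ Z : ℕ, ∀ a : ℝ, 0 ≤ a → ∀ ε > 0,
    ∃ c > 0, ∀ᶠ n : ℕ in atTop, ∀ H : KGraph k (Fin n),
      (∀ S : Finset (Fin n), S.card + 1 = k → (a + ε) * n ≤ H.codeg S) →
      ∃ A : Finset (Fin Z → Fin n), c * (n : ℝ) ^ Z ≤ A.card ∧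
        ∀ x ∈ A, ∃ hx : Function.Injective x, ∃ X : ℕ → Finset (Fin Z),
          Chain (H.comap ⟨x, hx⟩) a M L X := by
  classical
  induction L with
  | zero =>
    refine ⟨M, fun a _ ε _ => ⟨(1 / (2 * ((M : ℝ) + 1))) ^ M, by positivity, ?_⟩⟩
    filter_upwards [eventually_ge_atTop (2 * (M + 1))] with n hn H _
    set r : ℕ := n / (M + 1) with hr
    obtain ⟨U, hU1, hU2, _, hU4⟩ := rc_greedy (α := Fin n) (ι := Fin M) r n ∅ (fun _ => univ) univ
      (by
        rw [Finset.card_univ, Fintype.card_fin, Finset.card_empty, add_zero, hr]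
        calc M * (n / (M + 1)) ≤ (M + 1) * (n / (M + 1)) := Nat.mul_le_mul_right _ (Nat.le_succ M)
          _ ≤ n := Nat.mul_div_le n (M + 1))
      (by intro i _; simp)
    refine ⟨Fintype.piFinset U, ?_, ?_⟩
    · rw [Fintype.card_piFinset, Finset.prod_congr rfl hU2, Finset.prod_const, Finset.card_univ,
        Fintype.card_fin, ← mul_pow]
      push_cast
      refine pow_le_pow_left₀ (by positivity) ?_ M
      have h1 : (n : ℝ) < (M + 1) * (r + 1) := by
        have h2 : n < (M + 1) * (r + 1) := Nat.lt_mul_div_succ n (Nat.succ_pos M)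
        exact_mod_cast h2
      have h3 : (1 : ℝ) ≤ r := by
        have : 1 ≤ r := by
          rw [hr, Nat.le_div_iff_mul_le (Nat.succ_pos M)]
          omega
        exact_mod_cast this
      rw [div_mul_eq_mul_div, one_mul, div_le_iff₀ (by positivity)]
      nlinarith
    · intro x hx
      rw [Fintype.mem_piFinset] at hx
      have hinj : Function.Injective x := by
        intro i j hij
        by_contra hne
        exact Finset.disjoint_left.1 (hU4 i (Finset.mem_univ i) j (Finset.mem_univ j) hne) (hx i)
          (hij ▸ hx j)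
      refine ⟨hinj, fun _ => univ, ?_, ?_, ?_⟩
      · intro t ht; omega
      · simp
      · intro t ht; omega
  | succ L ih =>
    obtain ⟨z, hz⟩ := ih
    set q : ℕ := Fintype.card (Fin M × Finset (Finset (Fin z))) with hq
    set e : Fin q ≃ Fin M × Finset (Finset (Fin z)) := (Fintype.equivFin _).symm with he
    refine ⟨z + q, fun a ha ε hε => ?_⟩
    obtain ⟨c, hc, hev⟩ := hz a ha ε hε
    set Q : ℝ := (Fintype.card (Finset (Finset (Fin z))) : ℝ) with hQ
    have hQ1 : 1 ≤ Q := by
      rw [hQ]
      exact_mod_cast Fintype.card_pos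
    set η : ℝ := min 1 (ε / (2 * Q)) with hη
    have hη0 : 0 < η := lt_min one_pos (by positivity)
    have hη1 : η ≤ 1 := min_le_left _ _
    have hηQ : Q * η ≤ ε / 2 := by
      have h1 : η ≤ ε / (2 * Q) := min_le_right _ _
      calc Q * η ≤ Q * (ε / (2 * Q)) := mul_le_mul_of_nonneg_left h1 (by linarith)
        _ = ε / 2 := by field_simp
    set ρ : ℝ := η / (4 * ((q : ℝ) + 1)) with hρ
    have hρ0 : 0 < ρ := by positivity
    refine ⟨c * ρ ^ q, by positivity, ?_⟩
    filter_upwards [hev, eventually_ge_atTop (⌈1 / ρ⌉₊ + 1), eventually_ge_atTop ⌈2 * z / η⌉₊]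
      with n hn hn1 hn2 H hH
    obtain ⟨A, hA1, hA2⟩ := hn H hH
    have hnpos : 0 < n := by omega
    have hn1' : 1 ≤ ρ * n := by
      have h1 : 1 / ρ ≤ n := by
        have h2 : (⌈1 / ρ⌉₊ : ℝ) ≤ n := by
          have : ⌈1 / ρ⌉₊ ≤ n := by omega
          exact_mod_cast this
        exact (Nat.le_ceil _).trans h2
      rw [div_le_iff₀ hρ0] at h1
      linarith
    have hn2' : (z : ℝ) ≤ η * n / 2 := by
      have h1 : 2 * z / η ≤ n := (Nat.le_ceil _).trans (by exact_mod_cast hn2)
      rw [div_le_iff₀ hη0] at h1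
      linarith
    set r : ℕ := ⌊2 * ρ * n⌋₊ with hr
    have hr1 : ρ * n ≤ r := by
      have h1 : 2 * ρ * n < r + 1 := Nat.lt_floor_add_one _
      linarith
    have hr2 : (r : ℝ) ≤ 2 * ρ * n := Nat.floor_le (by positivity)
    have hr3 : (q * r + z : ℝ) ≤ η * n := by
      have h1 : (q : ℝ) * r ≤ η * n / 2 := by
        calc (q : ℝ) * r ≤ ((q : ℝ) + 1) * (2 * ρ * n) := by
              refine mul_le_mul (by linarith) hr2 (by positivity) (by positivity)
          _ = η * n / 2 := by rw [hρ]; field_simp; ring
      linarith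
    choose U hU1 hU2 using fun x : Fin z → Fin n =>
      rc_extend (L := L) (by omega : 1 ≤ k) H a ε η ha hε hnpos hη0.le hη1 hηQ hr3 e hH x
    set S : Finset (Σ _ : Fin z → Fin n, (Fin q → Fin n)) :=
      A.sigma (fun x => Fintype.piFinset (U x)) with hS
    have hinj : Function.Injective
        (fun p : (Σ _ : Fin z → Fin n, (Fin q → Fin n)) => Fin.append p.1 p.2) := by
      rintro ⟨x, y⟩ ⟨x', y'⟩ hxy
      simp only at hxy
      have h1 : x = x' := by
        funext i
        have := congrFun hxy (Fin.castAdd q i)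
        rwa [Fin.append_left, Fin.append_left] at this
      have h2 : y = y' := by
        funext i
        have := congrFun hxy (Fin.natAdd z i)
        rwa [Fin.append_right, Fin.append_right] at this
      rw [h1, h2]
    refine ⟨S.map ⟨_, hinj⟩, ?_, ?_⟩
    · rw [Finset.card_map, hS, Finset.card_sigma]
      have h1 : ∀ x ∈ A, (Fintype.piFinset (U x)).card = r ^ q := by
        intro x _
        rw [Fintype.card_piFinset, Finset.prod_congr rfl (fun l _ => hU1 x l), Finset.prod_const,
          Finset.card_univ, Fintype.card_fin]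
      rw [Finset.sum_congr rfl h1, Finset.sum_const, smul_eq_mul]
      push_cast
      calc c * ρ ^ q * (n : ℝ) ^ (z + q) = (c * (n : ℝ) ^ z) * (ρ * n) ^ q := by
            rw [pow_add, mul_pow]; ring
        _ ≤ (A.card : ℝ) * (r : ℝ) ^ q :=
            mul_le_mul hA1 (pow_le_pow_left₀ (by positivity) hr1 q) (by positivity) (by positivity)
    · intro x' hx'
      obtain ⟨⟨x, y⟩, hxy, rfl⟩ := Finset.mem_map.1 hx'
      rw [hS, Finset.mem_sigma] at hxy
      obtain ⟨hx, X, hX⟩ := hA2 x hxy.1
      obtain ⟨h1, h2⟩ := hU2 x y hxy.2 hx X hX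
      exact ⟨h1, _, h2⟩

end CodegDens
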