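import Pool.Agent.Lib.MP_81e58e_co.LowerUpper
import Pool.Agent.Lib.MP_81e58e_co.Box
import Pool.Agent.Lib.MP_81e58e_co.RichCount

/-!
# From irreducible patterns to codegree densities of single `k`-graphs

If a value `a` is reached by an irreducible pattern, then the product of all the `k`-graphs on a
fixed number of vertices that have long chains has codegree density exactly `a`.
-/

set_option autoImplicit false

namespace CodegDens

open Finset Filter Topology

section IrrDensity

theorem irrd_edges_injective (k : ℕ) (V : Type) :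
    Function.Injective (fun G : KGraph k V => G.edges) := by
  rintro ⟨E, hE⟩ ⟨E', hE'⟩ h
  simp only at h
  subst h
  rfl

instance irrd_finite (k : ℕ) (V : Type) [Finite V] : Finite (KGraph k V) :=
  Finite.of_injective _ (irrd_edges_injective k V)

/-- The complete `k`-graph. -/
def irrdComplete (k n : ℕ) : KGraph k (Fin n) := ⟨{e | e.card = k}, fun _ h => h⟩

theorem irrd_codeg_complete {k n : ℕ} (S : Finset (Fin n)) (hS : S.card + 1 = k) :
    (n : ℝ) - k ≤ (irrdComplete k n).codeg S := by
  classical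
  have h1 : (Sᶜ : Finset (Fin n)).card ≤ (irrdComplete k n).codeg S := by
    unfold KGraph.codeg
    have h2 : ((fun v => insert v S) '' (↑(Sᶜ : Finset (Fin n)) : Set (Fin n))).ncard =
        (Sᶜ : Finset (Fin n)).card := by
      rw [Set.InjOn.ncard_image, Set.ncard_coe_finset]
      intro v hv w hw hvw
      simp only [coe_compl, Set.mem_compl_iff, mem_coe] at hv hw
      have h3 : v ∈ insert w S := by
        have : v ∈ insert v S := mem_insert_self v S
        simp only at hvw
        rwa [hvw] at this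
      rcases mem_insert.1 h3 with h | h
      · exact h
      · exact absurd h hv
    rw [← h2]
    apply Set.ncard_le_ncard _ (Set.toFinite _)
    rintro e ⟨v, hv, rfl⟩
    simp only [coe_compl, Set.mem_compl_iff, mem_coe] at hv
    refine ⟨?_, subset_insert v S⟩
    change (insert v S).card = k
    rw [card_insert_of_notMem hv, hS]
  have h4 : S.card + (Sᶜ : Finset (Fin n)).card = n := by
    rw [card_add_card_compl, Fintype.card_fin]
  have h5 : (n : ℝ) ≤ (irrdComplete k n).codeg S + k := by
    have : n ≤ (irrdComplete k n).codeg S + k := by omega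
    exact_mod_cast this
  linarith

/-- The product of `k`-graphs. -/
def irrdProd {k : ℕ} {ι : Type} {V : ι → Type} (G : ∀ i, KGraph k (V i)) :
    KGraph k (∀ i, V i) :=
  ⟨{e | e.card = k ∧ ProdEdge G e.val}, fun _ h => h.1⟩

theorem irrd_contains_comap {k : ℕ} {V W W' : Type} {H : KGraph k V} {F : KGraph k W}
    (g : W' ↪ W) (h : H.Contains F) : H.Contains (F.comap g) := by
  obtain ⟨f, hf⟩ := h
  refine ⟨g.trans f, fun e he => ?_⟩
  rw [← Finset.map_map]
  exact hf _ he

/-- A box of copies of one factor contains the product. -/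
theorem irrd_embed {k n Z : ℕ} (hk : 1 ≤ k) {ι : Type} [Finite ι] (G : ι → KGraph k (Fin Z))
    (i₀ : ι) (H : KGraph k (Fin n)) (U : Fin Z → Finset (Fin n))
    (hU : ∀ z, (U z).card = Nat.card (ι → Fin Z))
    (hx : ∀ x : Fin Z → Fin n, (∀ z, x z ∈ U z) →
      ∃ hx : Function.Injective x, H.comap ⟨x, hx⟩ = G i₀) :
    H.Contains (irrdProd G) := by
  classical
  have : Fintype (ι → Fin Z) := Fintype.ofFinite _
  have hE : ∀ z, Nonempty ((ι → Fin Z) ≃ U z) := by
    intro z
    apply Fintype.card_eq.1
    rw [Fintype.card_coe, hU z, Nat.card_eq_fintype_card]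
  let E : ∀ z, (ι → Fin Z) ≃ U z := fun z => (hE z).some
  let φ : (ι → Fin Z) → Fin n := fun w => (E (w i₀) w : Fin n)
  have hφ : ∀ w, φ w ∈ U (w i₀) := fun w => (E (w i₀) w).2
  have hinj : Function.Injective φ := by
    intro w w' hww
    by_cases h : w i₀ = w' i₀
    · have h1 : φ w' = (E (w i₀) w' : Fin n) := by
        simp only [φ]
        rw [h]
      rw [h1] at hww
      exact (E (w i₀)).injective (Subtype.ext hww)
    · exfalso
      let x : Fin Z → Fin n := fun z =>
        if z = w i₀ then φ w else if z = w' i₀ then φ w' else (E z w : Fin n)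
      have hxU : ∀ z, x z ∈ U z := by
        intro z
        simp only [x]
        split_ifs with h1 h2
        · rw [h1]; exact hφ w
        · rw [h2]; exact hφ w'
        · exact (E z w).2
      obtain ⟨hxi, -⟩ := hx x hxU
      apply h
      apply hxi
      have e1 : x (w i₀) = φ w := by simp [x]
      have e2 : x (w' i₀) = φ w' := by
        have h' : ¬ w' i₀ = w i₀ := fun h' => h h'.symm
        simp [x, h']
      rw [e1, e2, hww]
  refine ⟨⟨φ, hinj⟩, fun e he => ?_⟩
  obtain ⟨hcard, hprod⟩ := he
  obtain ⟨d, hd, hde⟩ := hprod i₀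
  have hne : e.Nonempty := by
    rw [← Finset.card_pos, hcard]
    omega
  obtain ⟨w₀, hw₀⟩ := hne
  have hinjOn : ∀ w ∈ e, ∀ w' ∈ e, w i₀ = w' i₀ → w = w' := by
    have hnd : (e.val.map (fun x => x i₀)).Nodup := by
      rw [hde]; exact d.nodup
    intro w hw w' hw' h
    exact Multiset.inj_on_of_nodup_map hnd w hw w' hw' h
  let x : Fin Z → Fin n := fun z =>
    if h : ∃ w ∈ e, w i₀ = z then φ h.choose else (E z w₀ : Fin n)
  have hxe : ∀ w ∈ e, x (w i₀) = φ w := by
    intro w hw
    have h : ∃ w' ∈ e, w' i₀ = w i₀ := ⟨w, hw, rfl⟩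
    simp only [x]
    rw [dif_pos h]
    congr 1
    exact hinjOn _ h.choose_spec.1 _ hw h.choose_spec.2
  have hxU : ∀ z, x z ∈ U z := by
    intro z
    simp only [x]
    split_ifs with h
    · have := hφ h.choose
      rwa [h.choose_spec.2] at this
    · exact (E z w₀).2
  obtain ⟨hxi, hG⟩ := hx x hxU
  rw [← hG] at hd
  have hd' : d.map ⟨x, hxi⟩ ∈ H.edges := hd
  have heq : e.map ⟨φ, hinj⟩ = d.map ⟨x, hxi⟩ := by
    rw [← Finset.val_inj, Finset.map_val, Finset.map_val, ← hde, Multiset.map_map]
    apply Multiset.map_congr rfl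
    intro w hw
    exact (hxe w hw).symm
  rw [heq]
  exact hd'

theorem reach_density {k : ℕ} (hk : 2 ≤ k) (a : ℝ) (ha : 0 ≤ a) (ha1 : a < 1)
    (h : Reach k a) : ∃ (m : ℕ) (F : KGraph k (Fin m)), F.edges.Nonempty ∧
      HasCodegDensity F a := by
  classical
  obtain ⟨C, hC, P, hP, M, L, hI⟩ := h
  obtain ⟨Z, hZ⟩ := rich_count hk M L
  let I : Type := {G : KGraph k (Fin Z) // ∃ X : ℕ → Finset (Fin Z), Chain G a M L X}
  have : Finite I := Subtype.finite
  have : Fintype I := Fintype.ofFinite I
  have hIne : Nonempty I := by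
    obtain ⟨c, hc, hev⟩ := hZ a ha ((1 - a) / 2) (by linarith)
    have h1 : ∀ᶠ n : ℕ in atTop, (k : ℝ) ≤ (1 - a) / 2 * n := by
      have : Tendsto (fun n : ℕ => (1 - a) / 2 * (n : ℝ)) atTop atTop :=
        Tendsto.const_mul_atTop (by linarith) tendsto_natCast_atTop_atTop
      exact this.eventually_ge_atTop _
    obtain ⟨n, hn, hn1, hn2⟩ := (hev.and (h1.and (eventually_ge_atTop 1))).exists
    obtain ⟨A, hA, hA'⟩ := hn (irrdComplete k n) (by
      intro S hS
      have := irrd_codeg_complete S hS
      nlinarith)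
    have hpos : 0 < (A.card : ℝ) := by
      have : (0:ℝ) < n := by exact_mod_cast hn2
      exact lt_of_lt_of_le (by positivity) hA
    have hpos' : 0 < A.card := by exact_mod_cast hpos
    obtain ⟨x, hx⟩ := Finset.card_pos.1 hpos'
    obtain ⟨hxi, X, hX⟩ := hA' x hx
    exact ⟨⟨_, X, hX⟩⟩
  let G : I → KGraph k (Fin Z) := fun i => i.1
  let W : Type := I → Fin Z
  have : Finite W := inferInstanceAs (Finite (I → Fin Z))
  let m : ℕ := Nat.card W
  let eqv : W ≃ Fin m := Finite.equivFin W
  let F₀ : KGraph k W := irrdProd G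
  let F : KGraph k (Fin m) := F₀.comap eqv.symm.toEmbedding
  -- no homomorphism
  have hno₀ : ¬ ∃ f : W → C, ∀ e ∈ F₀.edges, e.val.map f ∈ P := by
    rintro ⟨f, hf⟩
    refine hI I (fun _ => Fin Z) G (fun i => i.2.choose) (fun i => i.2.choose_spec) f ?_
    intro e he _
    obtain ⟨i⟩ := hIne
    obtain ⟨d, hd, hde⟩ := he i
    have hnd : e.Nodup := by
      apply Multiset.Nodup.of_map (fun x => x i)
      rw [hde]; exact d.nodup
    have hcard : Multiset.card e = k := by
      have h1 : Multiset.card (e.map (fun x => x i)) = Multiset.card d.val := by rw [hde]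
      rw [Multiset.card_map] at h1
      rw [h1]
      exact (G i).card_eq d hd
    exact hf ⟨e, hnd⟩ ⟨hcard, he⟩
  have hno : ¬ ∃ f : Fin m → C, ∀ e ∈ F.edges, e.val.map f ∈ P := by
    rintro ⟨f, hf⟩
    apply hno₀
    refine ⟨f ∘ eqv, fun e he => ?_⟩
    have h1 : e.map eqv.toEmbedding ∈ F.edges := by
      change (e.map eqv.toEmbedding).map eqv.symm.toEmbedding ∈ F₀.edges
      rw [Finset.map_map]
      have : eqv.toEmbedding.trans eqv.symm.toEmbedding = Function.Embedding.refl W := by
        ext w; simp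
      rw [this, Finset.map_refl]
      exact he
    have h2 := hf _ h1
    rw [Finset.map_val, Multiset.map_map] at h2
    exact h2
  have hCne : Nonempty C := by
    obtain ⟨wt, -, hsum, -⟩ := hP
    by_contra hemp
    rw [not_nonempty_iff] at hemp
    rw [Fintype.sum_empty] at hsum
    exact zero_ne_one hsum
  refine ⟨m, F, ?_, ?_⟩
  · by_contra hemp
    rw [Set.not_nonempty_iff_eq_empty] at hemp
    apply hno
    obtain ⟨c⟩ := hCne
    refine ⟨fun _ => c, fun e he => ?_⟩
    rw [hemp] at he
    exact absurd he (Set.notMem_empty e)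
  apply hasCodegDensity_of
  · exact lower_coex hk F a (pattern_lower hk F P a hP hno)
  apply upper_coex hk F a ha
  intro ε hε
  obtain ⟨c, hc, hev⟩ := hZ a ha ε hε
  have hI0 : (0:ℝ) < Fintype.card I := by exact_mod_cast Fintype.card_pos
  obtain ⟨n0, hn0⟩ := box Z m (c / Fintype.card I) (by positivity)
  filter_upwards [hev, eventually_ge_atTop n0] with n hn hn'
  intro H hH
  obtain ⟨A, hA, hA'⟩ := hn H hH
  let col : (Fin Z → Fin n) → I := fun x =>
    if h : x ∈ A then ⟨H.comap ⟨x, (hA' x h).choose⟩, (hA' x h).choose_spec⟩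
    else Classical.arbitrary I
  obtain ⟨i₀, -, hi₀⟩ := Finset.exists_le_card_fiber_of_nsmul_le_card_of_maps_to
    (s := A) (t := (Finset.univ : Finset I)) (f := col) (b := c / Fintype.card I * (n:ℝ) ^ Z)
    (fun x _ => Finset.mem_univ _) Finset.univ_nonempty (by
      rw [nsmul_eq_mul, Finset.card_univ]
      calc (Fintype.card I : ℝ) * (c / Fintype.card I * (n:ℝ) ^ Z) = c * (n:ℝ) ^ Z := by
            field_simp
        _ ≤ A.card := hA)
  obtain ⟨U, hU, hU'⟩ := hn0 n hn' _ hi₀
  apply irrd_contains_comap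
  apply irrd_embed (by omega) G i₀ H U hU
  intro x hx
  have h1 := hU' x hx
  rw [Finset.mem_filter] at h1
  obtain ⟨h2, h3⟩ := h1
  refine ⟨(hA' x h2).choose, ?_⟩
  have h4 : col x = ⟨H.comap ⟨x, (hA' x h2).choose⟩, (hA' x h2).choose_spec⟩ := dif_pos h2
  rw [h4] at h3
  rw [← h3]

end IrrDensity

end CodegDens
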