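import Mathlib

/-!
# Descent by joins with a condition on the fractional part of `1/(1-a)`
(problem MP_81e58e_co)
-/

namespace CodegDens

theorem join_descent_fract (R : ℝ → Prop) (h0 : R 0) (c : ℝ)
    (hjoin : ∀ a : ℝ, 0 ≤ a → a < 1 → R a → R (1 / (2 - a)))
    (hcir : ∀ p q : ℕ, 1 ≤ p → p < q → (p : ℝ) / q < c → R ((p : ℝ) / (p + q))) :
    ∀ q : ℚ, 0 ≤ q → q < 1 → Int.fract (1 / (1 - (q : ℝ))) < c → R (q : ℝ) := by
  have key : ∀ N s t : ℕ, s + t ≤ N → s < t →
      Int.fract (1 / (1 - (s : ℝ) / t)) < c → R ((s : ℝ) / t) := by
    intro N
    induction N with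
    | zero =>
      intro s t h1 h2
      omega
    | succ N ih =>
      intro s t h1 h2 h3
      have htR : (0 : ℝ) < t := by exact_mod_cast (lt_of_le_of_lt (Nat.zero_le s) h2)
      have h2R : (s : ℝ) < t := by exact_mod_cast h2
      rcases Nat.eq_zero_or_pos s with hs | hs
      · subst hs
        simpa using h0
      have hsR : (0 : ℝ) < s := by exact_mod_cast hs
      have hts : (0 : ℝ) < t - s := by linarith
      have e1 : 1 / (1 - (s : ℝ) / t) = t / (t - s) := by
        field_simp
      by_cases h4 : t ≤ 2 * s
      · have h5 : ((2 * s - t : ℕ) : ℝ) = 2 * s - t := by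
          rw [Nat.cast_sub h4]
          push_cast
          ring
        have h4R : (t : ℝ) ≤ 2 * s := by exact_mod_cast h4
        have e2 : 1 / (1 - ((2 * s - t : ℕ) : ℝ) / s) = t / (t - s) - 1 := by
          rw [h5]
          have : (1 : ℝ) - (2 * s - t) / s = (t - s) / s := by
            field_simp
            ring
          rw [this]
          field_simp
          ring
        have h6 := ih (2 * s - t) s (by omega) (by omega) (by
          rw [e2, Int.fract_sub_one, ← e1]
          exact h3)
        have h8 := hjoin (((2 * s - t : ℕ) : ℝ) / s) (by positivity) (by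
          rw [div_lt_one hsR, h5]
          linarith) h6
        have h9 : 1 / (2 - ((2 * s - t : ℕ) : ℝ) / s) = (s : ℝ) / t := by
          rw [h5]
          have : (2 : ℝ) - (2 * s - t) / s = t / s := by
            field_simp
            ring
          rw [this]
          field_simp
        rw [h9] at h8
        exact h8
      · push Not at h4
        have h4R : (2 : ℝ) * s < t := by exact_mod_cast h4
        have h5 : ((t - s : ℕ) : ℝ) = t - s := by
          rw [Nat.cast_sub h2.le]
        have e3 : Int.fract ((t : ℝ) / (t - s)) = s / (t - s) := by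
          have : (t : ℝ) / (t - s) = s / (t - s) + 1 := by
            field_simp
            ring
          rw [this, Int.fract_add_one, Int.fract_eq_self]
          constructor
          · positivity
          · rw [div_lt_one hts]
            linarith
        have h6 := hcir s (t - s) hs (by omega) (by
          rw [h5, ← e3, ← e1]
          exact h3)
        have h7 : (s : ℝ) / (s + ((t - s : ℕ) : ℝ)) = s / t := by
          rw [h5]
          congr 1
          ring
        rw [h7] at h6
        exact h6
  intro q hq0 hq1 hq2
  have hn : 0 ≤ q.num := Rat.num_nonneg.mpr hq0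
  obtain ⟨p, hp⟩ := Int.eq_ofNat_of_zero_le hn
  have hlt : p < q.den := by
    have h1 : q.num < q.den := by
      have h2 : (q.num : ℚ) / q.den < 1 := by rw [Rat.num_div_den]; exact hq1
      rw [div_lt_one (by exact_mod_cast q.den_pos)] at h2
      exact_mod_cast h2
    rw [hp] at h1
    exact_mod_cast h1
  have h2 : (q : ℝ) = (p : ℝ) / q.den := by
    rw [Rat.cast_def, hp]
    simp
  rw [h2] at hq2 ⊢
  exact key (p + q.den) p q.den le_rfl hlt hq2

end CodegDens
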