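import Pool.Agent.Lib.MP_81e58e_co.LFinal
import Pool.Agent.Lib.MP_81e58e_co.LDescent2

/-!
# k = 3: some coordinate is advanced last (problem MP_81e58e_co)
-/

set_option autoImplicit false

namespace CodegDens

open Finset

section
variable {q p : ℕ} {ι : Type} {V : ι → Type} {E : ∀ i, Set (Multiset (V i))}
  {Y : ∀ i, Set (V i)} {f : (∀ i, V i) → Option (ZMod q)}

theorem l3_ldAdv_empty (x xp : ∀ i, V i) : ldAdv x xp (∅ : Set ι) = x := by
  funext i; simp [ldAdv]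

theorem l3_two (hf : LabHomOn 3 E Y f (CirPat 3 q p))
    (g : (∀ i, V i) → ZMod q)
    (hg : ∀ x : ∀ i, V i, (∀ i, ∃ w, Kid 3 (E i) (Y i) w (x i)) → f x = some (g x))
    (x : ∀ i, V i) (hx : ∀ i, ∃ w, Kid 3 (E i) (Y i) w (x i))
    (xp : ∀ i, V i) (hxp : ∀ i, Kid 3 (E i) (Y i) (x i) (xp i)) (J : Set ι) :
    (g (ldAdv x xp Jᶜ) = g x ∧ g (ldAdv x xp J) - g x ∈ Spos q p) ∨
    (g (ldAdv x xp J) = g x ∧ g (ldAdv x xp Jᶜ) - g x ∈ Spos q p) ∨
    (g (ldAdv x xp J) = g (ldAdv x xp Jᶜ) ∧ g x - g (ldAdv x xp Jᶜ) ∈ Spos q p) := by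
  classical
  obtain ⟨j0, u, v, huv, hv, hu⟩ := ld_edge hf g hg x hx xp hxp
    (fun i => if i ∈ J then (0 : Fin 3) else 1)
  have e0 : {i | (if i ∈ J then (0 : Fin 3) else 1) = 0} = J := by
    ext i; by_cases h : i ∈ J <;> simp [h]
  have e1 : {i | (if i ∈ J then (0 : Fin 3) else 1) = 1} = Jᶜ := by
    ext i; by_cases h : i ∈ J <;> simp [h]
  have e2 : {i | (if i ∈ J then (0 : Fin 3) else 1) = 2} = ∅ := by
    ext i; by_cases h : i ∈ J <;> simp [h]
  have hj : j0 = 0 ∨ j0 = 1 ∨ j0 = 2 := by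
    revert j0; intro j0 _ _; fin_cases j0 <;> simp
  rcases hj with h | h | h
  · have h1 := hu 1 (by rw [h]; decide)
    have h2 := hu 2 (by rw [h]; decide)
    rw [e1] at h1
    rw [e2, l3_ldAdv_empty] at h2
    rw [h, e0] at hv
    left
    rw [h1, hv, h2]
    exact ⟨rfl, huv⟩
  · have h1 := hu 0 (by rw [h]; decide)
    have h2 := hu 2 (by rw [h]; decide)
    rw [e0] at h1
    rw [e2, l3_ldAdv_empty] at h2
    rw [h, e1] at hv
    right; left
    rw [h1, hv, h2]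
    exact ⟨rfl, huv⟩
  · have h1 := hu 0 (by rw [h]; decide)
    have h2 := hu 1 (by rw [h]; decide)
    rw [e0] at h1
    rw [e1] at h2
    rw [h, e2, l3_ldAdv_empty] at hv
    right; right
    rw [h1, hv, h2]
    exact ⟨rfl, huv⟩

theorem l3_three (hpq : p < q) (hf : LabHomOn 3 E Y f (CirPat 3 q p))
    (g : (∀ i, V i) → ZMod q)
    (hg : ∀ x : ∀ i, V i, (∀ i, ∃ w, Kid 3 (E i) (Y i) w (x i)) → f x = some (g x))
    (x : ∀ i, V i) (hx : ∀ i, ∃ w, Kid 3 (E i) (Y i) w (x i))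
    (xp : ∀ i, V i) (hxp : ∀ i, Kid 3 (E i) (Y i) (x i) (xp i)) (J₁ J₂ : Set ι)
    (hd : Disjoint J₁ J₂) (h₁ : g (ldAdv x xp J₁) = g x) (h₂ : g (ldAdv x xp J₂) = g x) :
    g (ldAdv x xp (J₁ ∪ J₂)ᶜ) - g x ∈ Spos q p := by
  classical
  obtain ⟨j0, u, v, huv, hv, hu⟩ := ld_edge hf g hg x hx xp hxp
    (fun i => if i ∈ J₁ then (0 : Fin 3) else if i ∈ J₂ then 1 else 2)
  have e0 : {i | (if i ∈ J₁ then (0 : Fin 3) else if i ∈ J₂ then 1 else 2) = 0} = J₁ := by
    ext i; by_cases h : i ∈ J₁ <;> by_cases h' : i ∈ J₂ <;> simp [h, h']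
  have e1 : {i | (if i ∈ J₁ then (0 : Fin 3) else if i ∈ J₂ then 1 else 2) = 1} = J₂ := by
    ext i
    by_cases h : i ∈ J₁
    · have h' : i ∉ J₂ := Set.disjoint_left.mp hd h
      simp [h, h']
    · by_cases h' : i ∈ J₂ <;> simp [h, h']
  have e2 : {i | (if i ∈ J₁ then (0 : Fin 3) else if i ∈ J₂ then 1 else 2) = 2}
      = (J₁ ∪ J₂)ᶜ := by
    ext i; by_cases h : i ∈ J₁ <;> by_cases h' : i ∈ J₂ <;> simp [h, h']
  have hj : j0 = 0 ∨ j0 = 1 ∨ j0 = 2 := by
    revert j0; intro j0 _ _; fin_cases j0 <;> simp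
  have h0 : (0 : ZMod q) ∉ Spos q p := ld_zero_notMem hpq
  rcases hj with h | h | h
  · exfalso
    have h3 := hu 1 (by rw [h]; decide)
    rw [e1, h₂] at h3
    rw [h, e0, h₁, h3] at hv
    rw [← hv, sub_self] at huv
    exact h0 huv
  · exfalso
    have h3 := hu 0 (by rw [h]; decide)
    rw [e0, h₁] at h3
    rw [h, e1, h₂, h3] at hv
    rw [← hv, sub_self] at huv
    exact h0 huv
  · have h3 := hu 0 (by rw [h]; decide)
    rw [e0, h₁] at h3
    rw [h, e2] at hv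
    rw [hv, h3]
    exact huv

end

theorem cir3_exists {q p : ℕ} {ι : Type} [Finite ι] [Nonempty ι] {V : ι → Type}
    {E : ∀ i, Set (Multiset (V i))} {Y : ∀ i, Set (V i)} {f : (∀ i, V i) → Option (ZMod q)}
    (hp : 1 ≤ p) (h3 : 3 * p < q)
    (hf : LabHomOn 3 E Y f (CirPat 3 q p)) (g : (∀ i, V i) → ZMod q)
    (hg : ∀ x : ∀ i, V i, (∀ i, ∃ w, Kid 3 (E i) (Y i) w (x i)) → f x = some (g x))
    (x x' : ∀ i, V i) (hx : ∀ i, ∃ w, Kid 3 (E i) (Y i) w (x i))
    (hx' : ∀ i, Kid 3 (E i) (Y i) (x i) (x' i)) :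
    ∃ i, g (open Classical in Function.update x' i (x i)) = g x ∨
      g x - g (open Classical in Function.update x' i (x i)) ∈ Spos q p := by
  classical
  by_contra hcon
  push Not at hcon
  have hpq : p < q := by omega
  have hpq2 : 2 * p < q := by omega
  have h0 : (0 : ZMod q) ∉ Spos q p := ld_zero_notMem hpq
  have hupd : ∀ i, ldAdv x x' ({i} : Set ι)ᶜ = Function.update x' i (x i) := by
    intro i
    funext j
    by_cases h : j = i
    · subst h
      simp [ldAdv]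
    · simp [ldAdv, h]
  have hsing : ∀ i : ι, g (ldAdv x x' {i}) = g x := by
    intro i
    rcases l3_two hf g hg x hx x' hx' {i} with h | h | h
    · rw [hupd] at h
      exact absurd h.1 (by convert (hcon i).1)
    · exact h.1
    · rw [hupd] at h
      exact absurd h.2 (by convert (hcon i).2)
  have hunion : ∀ J₁ J₂ : Set ι, Disjoint J₁ J₂ → g (ldAdv x x' J₁) = g x →
      g (ldAdv x x' J₂) = g x → g (ldAdv x x' (J₁ ∪ J₂)) = g x := by
    intro J₁ J₂ hd h₁ h₂
    have h4 := l3_three hpq hf g hg x hx x' hx' J₁ J₂ hd h₁ h₂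
    rcases l3_two hf g hg x hx x' hx' (J₁ ∪ J₂) with h | h | h
    · rw [h.1, sub_self] at h4
      exact absurd h4 h0
    · exact h.1
    · exfalso
      refine ld_neg_notMem hpq2 h4 ?_
      rw [neg_sub]
      exact h.2
  have hall : ∀ J : Finset ι, g (ldAdv x x' (J : Set ι)) = g x := by
    intro J
    induction J using Finset.induction_on with
    | empty => rw [Finset.coe_empty, l3_ldAdv_empty]
    | insert i J hi ih =>
      rw [Finset.coe_insert, Set.insert_eq]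
      refine hunion _ _ ?_ (hsing i) ih
      rw [Set.disjoint_singleton_left]
      exact hi
  have := Fintype.ofFinite ι
  have hu := hall Finset.univ
  rw [Finset.coe_univ] at hu
  rcases l3_two hf g hg x hx x' hx' Set.univ with h | h | h
  · rw [hu, sub_self] at h
    exact h0 h.2
  · rw [Set.compl_univ, l3_ldAdv_empty, sub_self] at h
    exact h0 h.2
  · rw [Set.compl_univ, l3_ldAdv_empty, sub_self] at h
    exact h0 h.2

end CodegDens
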