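import Pool.Agent.Lib.MP_81e58e_co.L3IrrCore
import Pool.Agent.Lib.MP_81e58e_co.L3Core

/-!
# k = 3 and k = 4: circle patterns and their joins (problem MP_81e58e_co)
-/

set_option autoImplicit false

namespace CodegDens

open Finset Filter Topology

theorem irrLab_cir3 {q p : ℕ} (hp : 1 ≤ p) (h3 : 3 * p < q) :
    IrrLab 3 (CirPat 3 q p) ((p : ℝ) / (p + q)) := by
  have : NeZero q := ⟨by omega⟩
  exact irrLab_cir3_of hp h3 (cir3_core hp h3)

theorem small_k_rationals : ∀ k : ℕ, k = 3 ∨ k = 4 → ∀ q : ℚ, 0 ≤ q → q < 1 →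
    Int.fract (1 / (1 - (q : ℝ))) < 1 / ((6 : ℝ) - k) →
    ∃ (m : ℕ) (F : KGraph k (Fin m)), F.edges.Nonempty ∧ HasCodegDensity F (q : ℝ) :=
  small_k_rationals_of (fun q p hp h3 => by
    have : NeZero q := ⟨by omega⟩
    exact cir3_core hp h3)

end CodegDens
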