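import Pool.Agent.Lib.MP_81e58e_co.L3Exists

/-!
# k = 3: irreducibility of the circle patterns from the one-coordinate core
(problem MP_81e58e_co)
-/

set_option autoImplicit false

namespace CodegDens

open Finset Filter Topology

theorem Kid.mono_set {k : ℕ} {V : Type} {E : Set (Multiset V)} {Y Z : Set V} (h : Y ⊆ Z) {w v : V}
    (hk : Kid k E Y w v) : Kid k E Z w v := ⟨h hk.1, h hk.2.1, hk.2.2⟩

/-- A sequence of labels, each a child of the previous one. -/
theorem l3_kid_seq {V : Type} {E : Set (Multiset V)} {a : ℝ} (ha : 0 ≤ a) {L : ℕ}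
    {Y : ℕ → Set V} (h : LabChain 3 E a L Y) (hL : 1 ≤ L) :
    ∃ z : ℕ → V, (∃ w, Kid 3 E (Y 1) w (z 0)) ∧
      ∀ m, m + 2 ≤ L → Kid 3 E (Y (m + 2)) (z m) (z (m + 1)) := by
  classical
  obtain ⟨w0, hw0⟩ := h.nonempty
  obtain ⟨z0, hz0⟩ := h.exists_child (by omega) ha (show 0 < L by omega) hw0
  let F : ℕ → V → V := fun m v =>
    if h : ∃ v', Kid 3 E (Y (m + 2)) v v' then h.choose else v
  let z : ℕ → V := fun m => Nat.rec z0 F m
  have hz : ∀ m, z (m + 1) = F m (z m) := fun m => rfl
  have key : ∀ m, m + 2 ≤ L → z m ∈ Y (m + 1) → Kid 3 E (Y (m + 2)) (z m) (z (m + 1)) := by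
    intro m hm hmem
    obtain ⟨v, hv⟩ := h.exists_child (k := 3) (by omega) ha (show m + 1 < L by omega) hmem
    have hex : ∃ v', Kid 3 E (Y (m + 2)) (z m) v' := ⟨v, hv⟩
    rw [hz m]
    simp only [F, dif_pos hex]
    exact hex.choose_spec
  have hmem : ∀ m, m + 1 ≤ L → z m ∈ Y (m + 1) := by
    intro m
    induction m with
    | zero => intro _; exact hz0.2.1
    | succ m ih => intro hm; exact (key m (by omega) (ih (by omega))).2.1
  exact ⟨z, ⟨w0, hz0⟩, fun m hm => key m hm (hmem m (by omega))⟩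

/-- The statement of the one-coordinate module `cir3_core`. -/
def StCir3Core (q p : ℕ) : Prop :=
    ∃ N : ℕ, ∀ (V : Type) (E : Set (Multiset V)) (Y : ℕ → Set V) (L t0 : ℕ), t0 + N ≤ L →
      LabChain 3 E ((p : ℝ) / (p + q)) L Y → ∀ h : ℕ → V → Option (ZMod q),
      (∀ m, m < N → ∀ w₁ w₂ v, w₁ ∈ Y L → w₂ ∈ Y L → v ∈ Y L → v ::ₘ w₁ ::ₘ {w₂} ∈ E →
        h (m + 1) v ::ₘ h m w₁ ::ₘ {h m w₂} ∈ CirPat 3 q p) →
      (∀ m, m < N → ∀ w v, Kid 3 E (Y L) w v →
        h m v ::ₘ h m w ::ₘ {h (m + 1) w} ∈ CirPat 3 q p) →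
      (∀ m, m ≤ N → ∀ v, (∃ w, Kid 3 E (Y L) w v) → ∃ u, h m v = some u) →
      ∀ w0, (∃ w, Kid 3 E (Y t0) w w0) → ∀ u w : ZMod q, h 0 w0 = some u → h 1 w0 = some w →
        ¬ (w = u ∨ u - w ∈ Spos q p)

theorem l3_rep {α : Type} (a b : α) : a ::ₘ Multiset.replicate (3 - 1) b = a ::ₘ b ::ₘ {b} := by
  have : Multiset.replicate (3 - 1) b = b ::ₘ {b} := by
    change Multiset.replicate 2 b = b ::ₘ {b}
    rw [Multiset.replicate_succ, Multiset.replicate_one]
  rw [this]

theorem irrLab_cir3_of {q p : ℕ} (hp : 1 ≤ p) (h3 : 3 * p < q) (hcore : StCir3Core q p) :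
    IrrLab 3 (CirPat 3 q p) ((p : ℝ) / (p + q)) := by
  classical
  obtain ⟨N, hcore⟩ := hcore
  refine ⟨N + 4, fun ι _ _ V E Y hY f hf => ?_⟩
  have ha : (0 : ℝ) ≤ (p : ℝ) / (p + q) := by positivity
  set g : (∀ i, V i) → ZMod q := fun x => (f x).getD 0 with hg'
  have hg : ∀ x : ∀ i, V i, (∀ i, ∃ w, Kid 3 (E i) (Y i (N + 4)) w (x i)) →
      f x = some (g x) := by
    intro x hx
    obtain ⟨u, hu⟩ := cir_state (le_refl 3) hf x hx
    simp only [hg', hu, Option.getD_some]
  have hKid : ∀ i s (w v : V i), s ≤ N + 4 → Kid 3 (E i) (Y i s) w v →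
      Kid 3 (E i) (Y i (N + 4)) w v := fun i s w v hs h => h.mono_set ((hY i).mono_le hs le_rfl)
  have hseq := fun i => l3_kid_seq ha (hY i) (show 1 ≤ N + 4 by omega)
  choose z hz0 hz using hseq
  -- the context chain
  set y : ℕ → (∀ i, V i) := fun m i => z i m with hy
  have hyk : ∀ m, m ≤ N + 1 → ∀ i, Kid 3 (E i) (Y i (N + 4)) (y m i) (y (m + 1) i) := by
    intro m hm i
    exact hKid i (m + 2) _ _ (by omega) (hz i m (by omega))
  have hykid : ∀ m, m ≤ N + 1 → ∀ i, ∃ w, Kid 3 (E i) (Y i (N + 4)) w (y m i) := by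
    intro m hm i
    cases m with
    | zero =>
      obtain ⟨w, hw⟩ := hz0 i
      exact ⟨w, hKid i 1 _ _ (by omega) hw⟩
    | succ m => exact ⟨y m i, hyk m (by omega) i⟩
  obtain ⟨i, hi⟩ := cir3_exists hp h3 hf g hg (y 0) (y 1) (hykid 0 (by omega)) (hyk 0 (by omega))
  -- points of the box
  have hupdY : ∀ (x : ∀ j, V j) (v : V i), (∀ j, x j ∈ Y j (N + 4)) → v ∈ Y i (N + 4) →
      ∀ j, Function.update x i v j ∈ Y j (N + 4) := by
    intro x v hx hv j
    by_cases h : j = i
    · subst h; rw [Function.update_self]; exact hv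
    · rw [Function.update_of_ne h]; exact hx j
  have hyY : ∀ m, m ≤ N + 1 → ∀ j, y m j ∈ Y j (N + 4) := fun m hm j => (hyk m hm j).1
  have hstate : ∀ m, m ≤ N + 1 → ∀ v, (∃ w, Kid 3 (E i) (Y i (N + 4)) w v) →
      f (Function.update (y m) i v) = some (g (Function.update (y m) i v)) := by
    intro m hm v hv
    apply hg
    intro j
    by_cases h : j = i
    · subst h; rw [Function.update_self]; exact hv
    · rw [Function.update_of_ne h]; exact hykid m hm j
  refine hcore (V i) (E i) (Y i) (N + 4) 1 (by omega) (hY i)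
    (fun m v => f (Function.update (y m) i v)) ?_ ?_ ?_ (y 0 i) (hz0 i) (g (y 0))
    (g (Function.update (y 1) i (y 0 i))) ?_ ?_ ?_
  · intro m hm w₁ w₂ v hw₁ hw₂ hv he
    have h := hf (Function.update (y (m + 1)) i v ::ₘ Function.update (y m) i w₁ ::ₘ
      {Function.update (y m) i w₂}) (by simp) (by
        intro j
        simp only [Multiset.map_cons, Multiset.map_singleton]
        by_cases hj : j = i
        · subst hj
          simp only [Function.update_self]
          exact he
        · simp only [Function.update_of_ne hj]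
          have h5 := (hyk m (by omega) j).2.2
          rw [l3_rep] at h5
          exact h5) (by
        intro x hx j
        simp only [Multiset.mem_cons, Multiset.mem_singleton] at hx
        rcases hx with rfl | rfl | rfl
        · exact hupdY _ _ (hyY (m + 1) (by omega)) hv j
        · exact hupdY _ _ (hyY m (by omega)) hw₁ j
        · exact hupdY _ _ (hyY m (by omega)) hw₂ j)
    simpa only [Multiset.map_cons, Multiset.map_singleton] using h
  · intro m hm w v hwv
    have h := hf (Function.update (y m) i v ::ₘ Function.update (y m) i w ::ₘ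
      {Function.update (y (m + 1)) i w}) (by simp) (by
        intro j
        simp only [Multiset.map_cons, Multiset.map_singleton]
        by_cases hj : j = i
        · subst hj
          simp only [Function.update_self]
          have h5 := hwv.2.2
          rw [l3_rep] at h5
          exact h5
        · simp only [Function.update_of_ne hj]
          have h5 := (hyk m (by omega) j).2.2
          rw [l3_rep] at h5
          have h6 : y m j ::ₘ y m j ::ₘ {y (m + 1) j} = y (m + 1) j ::ₘ y m j ::ₘ {y m j} := by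
            have e1 : ({y (m + 1) j} : Multiset (V j)) = y (m + 1) j ::ₘ 0 := rfl
            have e2 : ({y m j} : Multiset (V j)) = y m j ::ₘ 0 := rfl
            rw [e1, e2, Multiset.cons_swap (y m j) (y (m + 1) j) 0,
              Multiset.cons_swap (y m j) (y (m + 1) j)]
          rw [h6]
          exact h5) (by
        intro x hx j
        simp only [Multiset.mem_cons, Multiset.mem_singleton] at hx
        rcases hx with rfl | rfl | rfl
        · exact hupdY _ _ (hyY m (by omega)) hwv.2.1 j
        · exact hupdY _ _ (hyY m (by omega)) hwv.1 j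
        · exact hupdY _ _ (hyY (m + 1) (by omega)) hwv.1 j)
    simpa only [Multiset.map_cons, Multiset.map_singleton] using h
  · intro m hm v hv
    exact ⟨_, hstate m (by omega) v hv⟩
  · change f (Function.update (y 0) i (y 0 i)) = some (g (y 0))
    rw [Function.update_eq_self]
    exact hg _ (hykid 0 (by omega))
  · exact hstate 1 (by omega) (y 0 i) (hykid 0 (by omega) i)
  · convert hi

theorem small_k_rationals_of (hcore : ∀ q p : ℕ, 1 ≤ p → 3 * p < q → StCir3Core q p) :
    ∀ k : ℕ, k = 3 ∨ k = 4 → ∀ q : ℚ, 0 ≤ q → q < 1 →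
    Int.fract (1 / (1 - (q : ℝ))) < 1 / ((6 : ℝ) - k) →
    ∃ (m : ℕ) (F : KGraph k (Fin m)), F.edges.Nonempty ∧ HasCodegDensity F (q : ℝ) := by
  intro k hk q hq0 hq1 hfr
  have hk2 : 2 ≤ k := by omega
  have h := join_descent_fract (Reach k) (reach_zero hk2) (1 / ((6 : ℝ) - k))
    (fun a h0 h1 h => reach_join hk2 a h0 h1 h)
    (fun p q hp hpq hlt => by
      have hqR : (0 : ℝ) < q := by exact_mod_cast (by omega : 0 < q)
      rcases hk with rfl | rfl
      · have h3 : 3 * p < q := by
          have e : (6 : ℝ) - ((3 : ℕ) : ℝ) = 3 := by norm_num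
          rw [e, div_lt_div_iff₀ hqR (by norm_num)] at hlt
          have : ((3 * p : ℕ) : ℝ) < q := by push_cast; linarith
          exact_mod_cast this
        have hq : NeZero q := ⟨by omega⟩
        exact ⟨Option (ZMod q), inferInstance, CirPat 3 q p, patVal_cir (by omega) hp hpq,
          irr_of_irrLab (by omega) _ _ (by positivity) (irrLab_cir3_of hp h3 (hcore q p hp h3))⟩
      · have h2 : 2 * p < q := by
          have e : (6 : ℝ) - ((4 : ℕ) : ℝ) = 2 := by norm_num
          rw [e, div_lt_div_iff₀ hqR (by norm_num)] at hlt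
          have : ((2 * p : ℕ) : ℝ) < q := by push_cast; linarith
          exact_mod_cast this
        exact reach_cir (Or.inr ⟨rfl, h2⟩) hp hpq) q hq0 hq1 hfr
  exact reach_density hk2 (q : ℝ) (by exact_mod_cast hq0) (by exact_mod_cast hq1) h

end CodegDens
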