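import Mathlib

/-!
# Descent on rational numbers with the circle patterns (problem MP_81e58e_co)
-/

namespace CodegDens

theorem join_descent_aux (R : ℝ → Prop) (h0 : R 0)
    (hjoin : ∀ a : ℝ, 0 ≤ a → a < 1 → R a → R (1 / (2 - a)))
    (hcir : ∀ p q : ℕ, 1 ≤ p → p < q → R ((p : ℝ) / (p + q))) :
    ∀ N s t : ℕ, s + t ≤ N → s < t → R ((s : ℝ) / t) := by
  intro N
  induction N with
  | zero =>
    intro s t h1 h2
    omega
  | succ N ih =>
    intro s t h1 h2
    rcases Nat.eq_zero_or_pos s with hs | hs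
    · subst hs
      simpa using h0
    have hsR : (0 : ℝ) < s := by exact_mod_cast hs
    have htR : (0 : ℝ) < t := by exact_mod_cast (lt_trans hs h2)
    by_cases h3 : t ≤ 2 * s
    · have h4 := ih (2 * s - t) s (by omega) (by omega)
      have h5 : ((2 * s - t : ℕ) : ℝ) = 2 * s - t := by
        rw [Nat.cast_sub h3]
        push_cast
        ring
      have h6 : (s : ℝ) < t := by exact_mod_cast h2
      have h7 : (t : ℝ) ≤ 2 * s := by exact_mod_cast h3
      have h8 := hjoin (((2 * s - t : ℕ) : ℝ) / s) (by positivity) (by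
        rw [div_lt_one hsR, h5]
        linarith) h4
      have h9 : 1 / (2 - ((2 * s - t : ℕ) : ℝ) / s) = (s : ℝ) / t := by
        rw [h5]
        have : (2 : ℝ) - (2 * s - t) / s = t / s := by
          field_simp
          ring
        rw [this]
        field_simp
      rw [h9] at h8
      exact h8
    · have h4 := hcir s (t - s) hs (by omega)
      have h5 : ((t - s : ℕ) : ℝ) = t - s := Nat.cast_sub h2.le
      rw [h5] at h4
      have h6 : (s : ℝ) + (t - s) = t := by ring
      rw [h6] at h4
      exact h4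

theorem join_descent (R : ℝ → Prop) (h0 : R 0)
    (hjoin : ∀ a : ℝ, 0 ≤ a → a < 1 → R a → R (1 / (2 - a)))
    (hcir : ∀ p q : ℕ, 1 ≤ p → p < q → R ((p : ℝ) / (p + q))) :
    ∀ q : ℚ, 0 ≤ q → q < 1 → R (q : ℝ) := by
  intro q hq0 hq1
  have hn : 0 ≤ q.num := Rat.num_nonneg.mpr hq0
  obtain ⟨p, hp⟩ := Int.eq_ofNat_of_zero_le hn
  have hlt : p < q.den := by
    have h1 : q.num < q.den := by
      have h2 : (q.num : ℚ) / q.den < 1 := by rw [Rat.num_div_den]; exact hq1
      rw [div_lt_one (by exact_mod_cast q.den_pos)] at h2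
      exact_mod_cast h2
    rw [hp] at h1
    exact_mod_cast h1
  have h1 := join_descent_aux R h0 hjoin hcir (p + q.den) p q.den le_rfl hlt
  have h2 : (q : ℝ) = (p : ℝ) / q.den := by
    rw [Rat.cast_def, hp]
    simp
  rw [h2]
  exact h1

end CodegDens
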