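import Pool.Agent.Lib.MP_81e58e_co.LabDefs

/-!
# Dictators for homomorphisms to circle patterns (problem MP_81e58e_co)
-/

set_option autoImplicit false

namespace CodegDens

open Finset

theorem ld_erase {k : ℕ} (c : Fin k) :
    (Finset.univ : Finset (Fin k)).val = c ::ₘ ((Finset.univ : Finset (Fin k)).erase c).val := by
  rw [← Finset.insert_val_of_notMem (Finset.notMem_erase c _), Finset.insert_erase (Finset.mem_univ c)]

theorem ld_map_role {k : ℕ} {α : Type} (c : Fin k) (A B : α) :
    (Finset.univ : Finset (Fin k)).val.map (fun j => if c = j then A else B)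
      = A ::ₘ Multiset.replicate (k - 1) B := by
  rw [ld_erase c, Multiset.map_cons, if_pos rfl]
  congr 1
  rw [Multiset.map_congr (g := fun _ => B) rfl, Multiset.map_const']
  · congr 1
    have h := Finset.card_erase_of_mem (Finset.mem_univ c)
    rw [Finset.card_univ, Fintype.card_fin] at h
    exact h
  · intro j hj
    have hj' : j ≠ c := (Finset.mem_erase.mp (Finset.mem_val.mp hj)).1
    rw [if_neg (fun h => hj' h.symm)]

theorem ld_role_of_eq {k : ℕ} {α : Type} (h : Fin k → α) (v u : α)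
    (e : (Finset.univ : Finset (Fin k)).val.map h = v ::ₘ Multiset.replicate (k - 1) u) :
    ∃ j0, h j0 = v ∧ ∀ j, j ≠ j0 → h j = u := by
  have hv : v ∈ (Finset.univ : Finset (Fin k)).val.map h := by
    rw [e]; exact Multiset.mem_cons_self _ _
  obtain ⟨j0, _, hj0⟩ := Multiset.mem_map.mp hv
  refine ⟨j0, hj0, fun j hj => ?_⟩
  rw [ld_erase j0, Multiset.map_cons, hj0, Multiset.cons_inj_right] at e
  have hj' : h j ∈ (((Finset.univ : Finset (Fin k)).erase j0).val.map h) :=
    Multiset.mem_map_of_mem h (Finset.mem_erase.mpr ⟨hj, Finset.mem_univ j⟩)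
  rw [e] at hj'
  exact Multiset.eq_of_mem_replicate hj'

theorem ld_zero_notMem {q p : ℕ} (hpq : p < q) : (0 : ZMod q) ∉ Spos q p := by
  rintro ⟨j, h1, h2, h3⟩
  have h4 : ((j : ℕ) : ZMod q) = 0 := h3.symm
  rw [ZMod.natCast_eq_zero_iff] at h4
  have := Nat.le_of_dvd (by omega) h4
  omega

theorem ld_neg_notMem {q p : ℕ} (hpq : 2 * p < q) {z : ZMod q} (h : z ∈ Spos q p)
    (h' : -z ∈ Spos q p) : False := by
  obtain ⟨j, h1, h2, h3⟩ := h
  obtain ⟨j', h1', h2', h3'⟩ := h'
  have h4 : ((j + j' : ℕ) : ZMod q) = 0 := by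
    push_cast
    rw [← h3, ← h3']
    ring
  rw [ZMod.natCast_eq_zero_iff] at h4
  have := Nat.le_of_dvd (by omega) h4
  omega

section
variable {k q p : ℕ} {ι : Type} {V : ι → Type} {E : ∀ i, Set (Multiset (V i))}
  {Y : ∀ i, Set (V i)} {f : (∀ i, V i) → Option (ZMod q)}

theorem cir_state (hk : 3 ≤ k) (hf : LabHomOn k E Y f (CirPat k q p)) (x : ∀ i, V i)
    (hx : ∀ i, ∃ w, Kid k (E i) (Y i) w (x i)) : ∃ u : ZMod q, f x = some u := by
  choose w hw using hx
  have he := hf (x ::ₘ Multiset.replicate (k - 1) w)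
    (by rw [Multiset.card_cons, Multiset.card_replicate]; omega)
    (fun i => by
      rw [Multiset.map_cons, Multiset.map_replicate]
      exact (hw i).2.2)
    (fun y hy i => by
      rcases Multiset.mem_cons.mp hy with h | h
      · rw [h]; exact (hw i).2.1
      · rw [Multiset.eq_of_mem_replicate h]; exact (hw i).1)
  rw [Multiset.map_cons, Multiset.map_replicate] at he
  obtain ⟨_, h | h⟩ := he
  · obtain ⟨u, v, _, h2⟩ := h
    have h3 : f x ∈ (some v ::ₘ Multiset.replicate (k - 1) (some u) : Multiset (Option (ZMod q))) := by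
      rw [← h2]; exact Multiset.mem_cons_self _ _
    rcases Multiset.mem_cons.mp h3 with h4 | h4
    · exact ⟨v, h4⟩
    · exact ⟨u, Multiset.eq_of_mem_replicate h4⟩
  · obtain ⟨_, ⟨u, hu⟩, h3⟩ := h
    rcases hfx : f x with _ | u'
    · exfalso
      rw [hfx] at hu h3
      rcases Multiset.mem_cons.mp hu with h4 | h4
      · exact absurd h4 (by simp)
      · have h5 := Multiset.eq_of_mem_replicate h4
        exact h3 u (by rw [h5])
    · exact ⟨u', rfl⟩

/-- The point obtained from `x` by advancing the coordinates of `J` to `xp`. -/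
noncomputable def ldAdv (x xp : ∀ i, V i) (J : Set ι) : ∀ i, V i :=
  open Classical in fun i => if i ∈ J then xp i else x i

theorem ld_edge (hf : LabHomOn k E Y f (CirPat k q p)) (g : (∀ i, V i) → ZMod q)
    (hg : ∀ x : ∀ i, V i, (∀ i, ∃ w, Kid k (E i) (Y i) w (x i)) → f x = some (g x))
    (x : ∀ i, V i) (hx : ∀ i, ∃ w, Kid k (E i) (Y i) w (x i))
    (xp : ∀ i, V i) (hxp : ∀ i, Kid k (E i) (Y i) (x i) (xp i)) (r : ι → Fin k) :
    ∃ (j0 : Fin k) (u v : ZMod q), v - u ∈ Spos q p ∧
      g (ldAdv x xp {i | r i = j0}) = v ∧ ∀ j, j ≠ j0 → g (ldAdv x xp {i | r i = j}) = u := by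
  classical
  set y : Fin k → (∀ i, V i) := fun j => ldAdv x xp {i | r i = j} with hy
  have hst : ∀ j, f (y j) = some (g (y j)) := by
    intro j
    apply hg
    intro i
    by_cases h : r i = j
    · refine ⟨x i, ?_⟩
      have : y j i = xp i := by simp [hy, ldAdv, h]
      rw [this]; exact hxp i
    · have : y j i = x i := by simp [hy, ldAdv, h]
      rw [this]; exact hx i
  have he := hf ((Finset.univ : Finset (Fin k)).val.map y)
    (by rw [Multiset.card_map]; simp)
    (fun i => by
      rw [Multiset.map_map]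
      have : (fun j => (fun x : (∀ i, V i) => x i) (y j)) = fun j => if r i = j then xp i else x i := by
        funext j
        simp [hy, ldAdv]
      have h2 : ((fun x : (∀ i, V i) => x i) ∘ y) = fun j => if r i = j then xp i else x i := this
      rw [h2, ld_map_role]
      exact (hxp i).2.2)
    (fun z hz i => by
      obtain ⟨j, _, rfl⟩ := Multiset.mem_map.mp hz
      by_cases h : r i = j
      · have : y j i = xp i := by simp [hy, ldAdv, h]
        rw [this]; exact (hxp i).2.1
      · have : y j i = x i := by simp [hy, ldAdv, h]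
        rw [this]; exact (hxp i).1)
  rw [Multiset.map_map] at he
  have h2 : (f ∘ y) = fun j => some (g (y j)) := funext hst
  rw [h2] at he
  obtain ⟨_, h | h⟩ := he
  · obtain ⟨u, v, h3, h4⟩ := h
    obtain ⟨j0, h5, h6⟩ := ld_role_of_eq _ _ _ h4
    exact ⟨j0, u, v, h3, Option.some_injective _ h5, fun j hj => Option.some_injective _ (h6 j hj)⟩
  · exfalso
    obtain ⟨j, _, hj⟩ := Multiset.mem_map.mp h.1
    exact absurd hj (by simp)

/-- Two parts. -/
theorem ld_two (hk : 4 ≤ k) (hpq : p < q) (hf : LabHomOn k E Y f (CirPat k q p))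
    (g : (∀ i, V i) → ZMod q)
    (hg : ∀ x : ∀ i, V i, (∀ i, ∃ w, Kid k (E i) (Y i) w (x i)) → f x = some (g x))
    (x : ∀ i, V i) (hx : ∀ i, ∃ w, Kid k (E i) (Y i) w (x i))
    (xp : ∀ i, V i) (hxp : ∀ i, Kid k (E i) (Y i) (x i) (xp i)) (J : Set ι) :
    (g (ldAdv x xp J) = g x ∧ g (ldAdv x xp Jᶜ) - g x ∈ Spos q p) ∨
    (g (ldAdv x xp Jᶜ) = g x ∧ g (ldAdv x xp J) - g x ∈ Spos q p) := by
  classical
  let c0 : Fin k := ⟨0, by omega⟩
  let c1 : Fin k := ⟨1, by omega⟩
  let c2 : Fin k := ⟨2, by omega⟩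
  let c3 : Fin k := ⟨3, by omega⟩
  have h01 : c0 ≠ c1 := by simp [c0, c1, Fin.ext_iff]
  have h02 : c0 ≠ c2 := by simp [c0, c2, Fin.ext_iff]
  have h03 : c0 ≠ c3 := by simp [c0, c3, Fin.ext_iff]
  have h12 : c1 ≠ c2 := by simp [c1, c2, Fin.ext_iff]
  have h13 : c1 ≠ c3 := by simp [c1, c3, Fin.ext_iff]
  have h23 : c2 ≠ c3 := by simp [c2, c3, Fin.ext_iff]
  obtain ⟨j0, u, v, huv, hv, hu⟩ := ld_edge hf g hg x hx xp hxp (fun i => if i ∈ J then c0 else c1)
  have e0 : {i | (if i ∈ J then c0 else c1) = c0} = J := by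
    ext i; by_cases h : i ∈ J
    · simp [h]
    · simp [h, h01.symm]
  have e1 : {i | (if i ∈ J then c0 else c1) = c1} = Jᶜ := by
    ext i; by_cases h : i ∈ J
    · simp [h, h01]
    · simp [h]
  have e : ∀ c : Fin k, c ≠ c0 → c ≠ c1 → ldAdv x xp {i | (if i ∈ J then c0 else c1) = c} = x := by
    intro c hc0 hc1
    funext i
    have : i ∉ {i | (if i ∈ J then c0 else c1) = c} := by
      by_cases h : i ∈ J
      · simp [h, hc0.symm]
      · simp [h, hc1.symm]
    simp only [ldAdv, if_neg this]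
  have hne : v ≠ u := by
    intro h
    rw [h, sub_self] at huv
    exact ld_zero_notMem hpq huv
  by_cases hj0 : j0 = c0
  · have ha : g x = u := by
      have := hu c2 (by rw [hj0]; exact h02.symm)
      rw [e c2 h02.symm h12.symm] at this
      exact this
    have hb := hu c1 (by rw [hj0]; exact h01.symm)
    rw [e1] at hb
    rw [hj0, e0] at hv
    right
    rw [hb, ha, hv]
    exact ⟨rfl, huv⟩
  · by_cases hj1 : j0 = c1
    · have ha : g x = u := by
        have := hu c2 (by rw [hj1]; exact h12.symm)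
        rw [e c2 h02.symm h12.symm] at this
        exact this
      have hb := hu c0 (by rw [hj1]; exact h01)
      rw [e0] at hb
      rw [hj1, e1] at hv
      left
      rw [hb, ha, hv]
      exact ⟨rfl, huv⟩
    · exfalso
      rw [e j0 hj0 hj1] at hv
      by_cases hj2 : j0 = c2
      · have := hu c3 (by rw [hj2]; exact h23.symm)
        rw [e c3 h03.symm h13.symm] at this
        exact hne (hv.symm.trans this)
      · have := hu c2 (fun h => hj2 h.symm)
        rw [e c2 h02.symm h12.symm] at this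
        exact hne (hv.symm.trans this)

/-- Three parts: exactly one of the three values differs from `g x`. -/
theorem ld_three (hk : 5 ≤ k ∨ (k = 4 ∧ 2 * p < q)) (hpq : p < q)
    (hf : LabHomOn k E Y f (CirPat k q p)) (g : (∀ i, V i) → ZMod q)
    (hg : ∀ x : ∀ i, V i, (∀ i, ∃ w, Kid k (E i) (Y i) w (x i)) → f x = some (g x))
    (x : ∀ i, V i) (hx : ∀ i, ∃ w, Kid k (E i) (Y i) w (x i))
    (xp : ∀ i, V i) (hxp : ∀ i, Kid k (E i) (Y i) (x i) (xp i)) (J₁ J₂ : Set ι)
    (hd : Disjoint J₁ J₂) :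
    (g (ldAdv x xp J₁) ≠ g x ∧ g (ldAdv x xp J₂) = g x ∧ g (ldAdv x xp (J₁ ∪ J₂)ᶜ) = g x) ∨
    (g (ldAdv x xp J₁) = g x ∧ g (ldAdv x xp J₂) ≠ g x ∧ g (ldAdv x xp (J₁ ∪ J₂)ᶜ) = g x) ∨
    (g (ldAdv x xp J₁) = g x ∧ g (ldAdv x xp J₂) = g x ∧ g (ldAdv x xp (J₁ ∪ J₂)ᶜ) ≠ g x) := by
  classical
  have hk4 : 4 ≤ k := by omega
  let c0 : Fin k := ⟨0, by omega⟩
  let c1 : Fin k := ⟨1, by omega⟩
  let c2 : Fin k := ⟨2, by omega⟩
  let c3 : Fin k := ⟨3, by omega⟩
  have d01 : c0 ≠ c1 := by simp [c0, c1, Fin.ext_iff]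
  have d02 : c0 ≠ c2 := by simp [c0, c2, Fin.ext_iff]
  have d03 : c0 ≠ c3 := by simp [c0, c3, Fin.ext_iff]
  have d12 : c1 ≠ c2 := by simp [c1, c2, Fin.ext_iff]
  have d13 : c1 ≠ c3 := by simp [c1, c3, Fin.ext_iff]
  have d23 : c2 ≠ c3 := by simp [c2, c3, Fin.ext_iff]
  set r : ι → Fin k := fun i => if i ∈ J₁ then c0 else if i ∈ J₂ then c1 else c2 with hr
  obtain ⟨j0, u, v, huv, hv, hu⟩ := ld_edge hf g hg x hx xp hxp r
  have e0 : {i | r i = c0} = J₁ := by
    ext i; by_cases h : i ∈ J₁
    · simp [hr, h]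
    · by_cases h' : i ∈ J₂
      · simp [hr, h, h', d01.symm]
      · simp [hr, h, h', d02.symm]
  have e1 : {i | r i = c1} = J₂ := by
    ext i; by_cases h : i ∈ J₁
    · have h' : i ∉ J₂ := fun h' => Set.disjoint_left.mp hd h h'
      simp [hr, h, h', d01]
    · by_cases h' : i ∈ J₂
      · simp [hr, h, h']
      · simp [hr, h, h', d12.symm]
  have e2 : {i | r i = c2} = (J₁ ∪ J₂)ᶜ := by
    ext i; by_cases h : i ∈ J₁
    · simp [hr, h, d02]
    · by_cases h' : i ∈ J₂
      · simp [hr, h, h', d12]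
      · simp [hr, h, h']
  have e : ∀ c : Fin k, c ≠ c0 → c ≠ c1 → c ≠ c2 → ldAdv x xp {i | r i = c} = x := by
    intro c hc0 hc1 hc2
    funext i
    have : i ∉ {i | r i = c} := by
      by_cases h : i ∈ J₁
      · simp [hr, h, hc0.symm]
      · by_cases h' : i ∈ J₂
        · simp [hr, h, h', hc1.symm]
        · simp [hr, h, h', hc2.symm]
    simp only [ldAdv, if_neg this]
  have hne : v ≠ u := by
    intro h
    rw [h, sub_self] at huv
    exact ld_zero_notMem hpq huv
  by_cases hj3 : j0 = c0 ∨ j0 = c1 ∨ j0 = c2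
  · have hj03 : c3 ≠ j0 := by
      rcases hj3 with h | h | h
      · rw [h]; exact d03.symm
      · rw [h]; exact d13.symm
      · rw [h]; exact d23.symm
    have ha := hu c3 hj03
    rw [e c3 d03.symm d13.symm d23.symm] at ha
    rcases hj3 with h | h | h
    · have hb := hu c1 (by rw [h]; exact d01.symm)
      have hc := hu c2 (by rw [h]; exact d02.symm)
      rw [e1] at hb
      rw [e2] at hc
      rw [h, e0] at hv
      left
      rw [hb, hc, hv, ha]
      exact ⟨hne, rfl, rfl⟩
    · have hb := hu c0 (by rw [h]; exact d01)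
      have hc := hu c2 (by rw [h]; exact d12.symm)
      rw [e0] at hb
      rw [e2] at hc
      rw [h, e1] at hv
      right; left
      rw [hb, hc, hv, ha]
      exact ⟨rfl, hne, rfl⟩
    · have hb := hu c0 (by rw [h]; exact d02)
      have hc := hu c1 (by rw [h]; exact d12)
      rw [e0] at hb
      rw [e1] at hc
      rw [h, e2] at hv
      right; right
      rw [hb, hc, hv, ha]
      exact ⟨rfl, rfl, hne⟩
  · exfalso
    push Not at hj3
    rw [e j0 hj3.1 hj3.2.1 hj3.2.2] at hv
    have hb := hu c0 (fun h => hj3.1 h.symm)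
    rw [e0] at hb
    rcases hk with hk5 | ⟨_, hpq2⟩
    · let c4 : Fin k := ⟨4, by omega⟩
      have d04 : c0 ≠ c4 := by simp [c0, c4, Fin.ext_iff]
      have d14 : c1 ≠ c4 := by simp [c1, c4, Fin.ext_iff]
      have d24 : c2 ≠ c4 := by simp [c2, c4, Fin.ext_iff]
      have d34 : c3 ≠ c4 := by simp [c3, c4, Fin.ext_iff]
      by_cases h4 : j0 = c3
      · have ha := hu c4 (by rw [h4]; exact d34.symm)
        rw [e c4 d04.symm d14.symm d24.symm] at ha
        exact hne (hv.symm.trans ha)
      · have ha := hu c3 (fun h => h4 h.symm)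
        rw [e c3 d03.symm d13.symm d23.symm] at ha
        exact hne (hv.symm.trans ha)
    · rcases ld_two hk4 hpq hf g hg x hx xp hxp J₁ with h | h
      · exact hne (hv.symm.trans (h.1.symm.trans hb))
      · have h2 := h.2
        rw [hb, hv] at h2
        refine ld_neg_notMem hpq2 huv ?_
        rw [neg_sub]
        exact h2

/-- For one child vector there is a dictator. -/
theorem ld_dictator [Finite ι] (hk : 5 ≤ k ∨ (k = 4 ∧ 2 * p < q)) (hpq : p < q)
    (hf : LabHomOn k E Y f (CirPat k q p)) (g : (∀ i, V i) → ZMod q)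
    (hg : ∀ x : ∀ i, V i, (∀ i, ∃ w, Kid k (E i) (Y i) w (x i)) → f x = some (g x))
    (x : ∀ i, V i) (hx : ∀ i, ∃ w, Kid k (E i) (Y i) w (x i))
    (xp : ∀ i, V i) (hxp : ∀ i, Kid k (E i) (Y i) (x i) (xp i)) :
    ∃ i : ι, ∀ J : Set ι, (i ∉ J → g (ldAdv x xp J) = g x) ∧
      (i ∈ J → g (ldAdv x xp J) - g x ∈ Spos q p) := by
  classical
  have hk4 : 4 ≤ k := by omega
  have := Fintype.ofFinite ι
  have h0 : ∀ z : ZMod q, z - g x ∈ Spos q p → z ≠ g x := by
    intro z hz h
    rw [h, sub_self] at hz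
    exact ld_zero_notMem hpq hz
  have hempty : ldAdv x xp (∅ : Set ι) = x := by
    funext i; simp [ldAdv]
  have hco : ∀ J : Set ι, g (ldAdv x xp J) ≠ g x → g (ldAdv x xp Jᶜ) = g x := by
    intro J hJ
    rcases ld_two hk4 hpq hf g hg x hx xp hxp J with h | h
    · exact absurd h.1 hJ
    · exact h.1
  have hmin : ∀ n : ℕ, ∀ J : Finset ι, J.card = n → g (ldAdv x xp (J : Set ι)) ≠ g x →
      ∃ i, g (ldAdv x xp {i}) ≠ g x := by
    intro n
    induction n using Nat.strong_induction_on with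
    | _ n ih =>
      intro J hJ hne
      by_cases hemp : J = ∅
      · exfalso
        rw [hemp, Finset.coe_empty, hempty] at hne
        exact hne rfl
      · obtain ⟨i, hi⟩ := Finset.nonempty_iff_ne_empty.mpr hemp
        have hsplit : {i} ∪ ((J.erase i : Finset ι) : Set ι) = ((J : Set ι)) := by
          rw [Finset.coe_erase]
          ext j
          simp only [Set.mem_union, Set.mem_singleton_iff, Set.mem_sdiff, Finset.mem_coe]
          constructor
          · rintro (h | h)
            · rw [h]; exact hi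
            · exact h.1
          · intro h
            by_cases hji : j = i
            · exact Or.inl hji
            · exact Or.inr ⟨h, hji⟩
        have hd : Disjoint ({i} : Set ι) ((J.erase i : Finset ι) : Set ι) := by
          rw [Set.disjoint_left]
          intro j hj hj'
          rw [Set.mem_singleton_iff] at hj
          rw [hj] at hj'
          exact (Finset.mem_erase.mp hj').1 rfl
        have h3 := ld_three hk hpq hf g hg x hx xp hxp _ _ hd
        rw [hsplit] at h3
        rcases h3 with h | h | h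
        · exact ⟨i, h.1⟩
        · exact ih (J.erase i).card
            (by rw [← hJ]; exact Finset.card_erase_lt_of_mem hi) _ rfl h.2.1
        · exact absurd (hco _ hne) h.2.2
  have huniv : g (ldAdv x xp ((Finset.univ : Finset ι) : Set ι)) ≠ g x := by
    rcases ld_two hk4 hpq hf g hg x hx xp hxp (((Finset.univ : Finset ι) : Set ι)) with h | h
    · exfalso
      have h2 := h.2
      rw [Finset.coe_univ, Set.compl_univ, hempty] at h2
      exact h0 _ h2 rfl
    · exact h0 _ h.2
  obtain ⟨i, hi⟩ := hmin _ _ rfl huniv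
  have hin : ∀ J : Set ι, i ∈ J → g (ldAdv x xp J) - g x ∈ Spos q p := by
    intro J hiJ
    have hd : Disjoint ({i} : Set ι) Jᶜ := by
      rw [Set.disjoint_left]
      intro j hj hj'
      rw [Set.mem_singleton_iff] at hj
      rw [hj] at hj'
      exact hj' hiJ
    have hc : g (ldAdv x xp Jᶜ) = g x := by
      rcases ld_three hk hpq hf g hg x hx xp hxp _ _ hd with h | h | h
      · exact h.2.1
      · exact absurd h.1 hi
      · exact h.2.1
    rcases ld_two hk4 hpq hf g hg x hx xp hxp J with h | h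
    · exact absurd hc (h0 _ h.2)
    · exact h.2
  refine ⟨i, fun J => ⟨fun hiJ => ?_, hin J⟩⟩
  rcases ld_two hk4 hpq hf g hg x hx xp hxp J with h | h
  · exact h.1
  · exact absurd h.1 (h0 _ (hin Jᶜ hiJ))

theorem cir_dic [Finite ι] [Nonempty ι] (hk : 5 ≤ k ∨ (k = 4 ∧ 2 * p < q)) (hp : 1 ≤ p)
    (hpq : p < q) (hf : LabHomOn k E Y f (CirPat k q p)) (g : (∀ i, V i) → ZMod q)
    (hg : ∀ x : ∀ i, V i, (∀ i, ∃ w, Kid k (E i) (Y i) w (x i)) → f x = some (g x))
    (x : ∀ i, V i) (hx : ∀ i, ∃ w, Kid k (E i) (Y i) w (x i))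
    (hx' : ∀ i, ∃ v, Kid k (E i) (Y i) (x i) v) :
    ∃ i, Dic (Spos q p) (fun i => Kid k (E i) (Y i)) g x i := by
  classical
  have h0 : ∀ z : ZMod q, z - g x ∈ Spos q p → z ≠ g x := by
    intro z hz h
    rw [h, sub_self] at hz
    exact ld_zero_notMem hpq hz
  choose x0 hx0 using hx'
  obtain ⟨i0, hi0⟩ := ld_dictator hk hpq hf g hg x hx x0 hx0
  have hsing : ∀ (xp xp' : ∀ i, V i) (i : ι), xp i = xp' i →
      ldAdv x xp ({i} : Set ι) = ldAdv x xp' {i} := by
    intro xp xp' i h
    funext j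
    by_cases hj : j = i
    · subst hj; simp [ldAdv, h]
    · simp [ldAdv, hj]
  -- the dictator is the same for every child vector
  have key : ∀ xp : ∀ i, V i, (∀ i, Kid k (E i) (Y i) (x i) (xp i)) →
      ∀ J : Set ι, (i0 ∉ J → g (ldAdv x xp J) = g x) ∧
        (i0 ∈ J → g (ldAdv x xp J) - g x ∈ Spos q p) := by
    intro xp hxp
    set xm : ∀ i, V i := fun i => if i = i0 then xp i else x0 i with hxm
    have hxmk : ∀ i, Kid k (E i) (Y i) (x i) (xm i) := by
      intro i
      by_cases h : i = i0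
      · simp only [hxm, if_pos h]; exact hxp i
      · simp only [hxm, if_neg h]; exact hx0 i
    obtain ⟨im, him⟩ := ld_dictator hk hpq hf g hg x hx xm hxmk
    have him0 : im = i0 := by
      by_contra hne
      have h1 := (him {im}).2 rfl
      rw [hsing xm x0 im (by simp [hxm, hne])] at h1
      exact h0 _ h1 ((hi0 {im}).1 (by simpa using fun h => hne h.symm))
    subst him0
    obtain ⟨i', hi'⟩ := ld_dictator hk hpq hf g hg x hx xp hxp
    have : i' = im := by
      by_contra hne
      have h1 := (him {im}).2 rfl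
      rw [hsing xm xp im (by simp [hxm])] at h1
      exact h0 _ h1 ((hi' {im}).1 (by simpa using hne))
    subst this
    exact hi'
  refine ⟨i0, ?_, ?_⟩
  · intro x' hx'i hx'k
    set xp : ∀ i, V i := fun l => if l ≠ i0 ∧ Kid k (E l) (Y l) (x l) (x' l) then x' l else x0 l
      with hxp
    have hxpk : ∀ i, Kid k (E i) (Y i) (x i) (xp i) := by
      intro i
      by_cases h : i ≠ i0 ∧ Kid k (E i) (Y i) (x i) (x' i)
      · simp only [hxp, if_pos h]; exact h.2
      · simp only [hxp, if_neg h]; exact hx0 i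
    have h := (key xp hxpk {l | l ≠ i0 ∧ Kid k (E l) (Y l) (x l) (x' l)}).1 (by simp)
    have heq : ldAdv x xp {l | l ≠ i0 ∧ Kid k (E l) (Y l) (x l) (x' l)} = x' := by
      funext l
      by_cases hl : l ≠ i0 ∧ Kid k (E l) (Y l) (x l) (x' l)
      · have : l ∈ {l | l ≠ i0 ∧ Kid k (E l) (Y l) (x l) (x' l)} := hl
        simp only [ldAdv, if_pos this, hxp, if_pos hl]
      · have : l ∉ {l | l ≠ i0 ∧ Kid k (E l) (Y l) (x l) (x' l)} := hl
        simp only [ldAdv, if_neg this]
        by_cases hli : l = i0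
        · subst hli; exact hx'i.symm
        · rcases hx'k l with h1 | h1
          · exact h1.symm
          · exact absurd ⟨hli, h1⟩ hl
    rw [heq] at h
    exact h
  · intro x' hx'i hx'k
    set xp : ∀ i, V i := fun l => if Kid k (E l) (Y l) (x l) (x' l) then x' l else x0 l
      with hxp
    have hxpk : ∀ i, Kid k (E i) (Y i) (x i) (xp i) := by
      intro i
      by_cases h : Kid k (E i) (Y i) (x i) (x' i)
      · simp only [hxp, if_pos h]; exact h
      · simp only [hxp, if_neg h]; exact hx0 i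
    have h := (key xp hxpk {l | Kid k (E l) (Y l) (x l) (x' l)}).2 hx'i
    have heq : ldAdv x xp {l | Kid k (E l) (Y l) (x l) (x' l)} = x' := by
      funext l
      by_cases hl : Kid k (E l) (Y l) (x l) (x' l)
      · have : l ∈ {l | Kid k (E l) (Y l) (x l) (x' l)} := hl
        simp only [ldAdv, if_pos this, hxp, if_pos hl]
      · have : l ∉ {l | Kid k (E l) (Y l) (x l) (x' l)} := hl
        simp only [ldAdv, if_neg this]
        rcases hx'k l with h1 | h1
        · exact h1.symm
        · exact absurd h1 hl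
    rw [heq] at h
    exact h

end

end CodegDens
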