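import Pool.Agent.Lib.MP_81e58e_co.LabDefs
import Pool.Agent.Lib.MP_81e58e_co.ChainLemmas
import Pool.Agent.Lib.MP_81e58e_co.LRamsey

/-!
# One extension step of clone systems (problem MP_81e58e_co)
-/

namespace CodegDens

open Finset

namespace LExt

/-- Greedy choice of distinct representatives outside an old set. -/
theorem choose_distinct {V I : Type} [Finite I] (Old : Finset V) (Y : I → Finset V)
    (h : ∀ i, Old.card + Nat.card I ≤ (Y i).card) :
    ∃ f : I → V, Function.Injective f ∧ ∀ i, f i ∈ Y i ∧ f i ∉ Old := by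
  classical
  haveI := Fintype.ofFinite I
  have key := (Finset.all_card_le_biUnion_card_iff_exists_injective
    (fun i => Y i \ Old)).1 ?_
  · obtain ⟨f, hf, hm⟩ := key
    exact ⟨f, hf, fun i => by simpa [Finset.mem_sdiff] using hm i⟩
  · intro s
    rcases s.eq_empty_or_nonempty with rfl | ⟨i, hi⟩
    · simp
    · have h1 : s.card ≤ Nat.card I := by
        rw [Nat.card_eq_fintype_card]; exact Finset.card_le_univ s
      have h2 : (Y i \ Old).card ≤ (s.biUnion (fun i => Y i \ Old)).card :=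
        Finset.card_le_card (Finset.subset_biUnion_of_mem (fun i => Y i \ Old) hi)
      have h3 := Finset.le_card_sdiff Old (Y i)
      have h4 := h i
      omega

/-- The optimal weights. -/
theorem exists_om (B : Type) [Finite B] [Nonempty B] (a : ℝ) (T : Set (Set B)) :
    ∃ om : B → ℝ, (∀ b, 0 ≤ om b) ∧ 0 < ∑ᶠ b, om b ∧
      ((∃ w : B → ℝ, (∀ b, 0 ≤ w b) ∧ 0 < ∑ᶠ b, w b ∧
          ∀ R ∈ T, ∑ᶠ b ∈ R, w b ≤ a * ∑ᶠ b, w b) →
        ∀ R ∈ T, ∑ᶠ b ∈ R, om b ≤ a * ∑ᶠ b, om b) := by
  classical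
  haveI := Fintype.ofFinite B
  by_cases h : ∃ w : B → ℝ, (∀ b, 0 ≤ w b) ∧ 0 < ∑ᶠ b, w b ∧
          ∀ R ∈ T, ∑ᶠ b ∈ R, w b ≤ a * ∑ᶠ b, w b
  · obtain ⟨w, h1, h2, h3⟩ := h
    exact ⟨w, h1, h2, fun _ => h3⟩
  · refine ⟨fun _ => 1, fun _ => zero_le_one, ?_, fun h' => absurd h' h⟩
    rw [finsum_eq_sum_of_fintype]
    simp [Fintype.card_pos]

/-- The point `c (b j) (i ↦ s ((k-1) i + j))`. -/
def pt {V W : Type} (k : ℕ) (c : W → (ℕ → ℕ) → V) (b : Fin (k - 1) → W) (s : ℕ → ℕ)
    (j : Fin (k - 1)) : V := c (b j) (fun i => s ((k - 1) * i + (j : ℕ)))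

open Classical in
/-- The set of the points `pt`. -/
noncomputable def pset {V W : Type} (k : ℕ) (c : W → (ℕ → ℕ) → V) (b : Fin (k - 1) → W)
    (s : ℕ → ℕ) : Finset V := Finset.univ.image (pt k c b s)

theorem strictMono_sub {k : ℕ} (hk : 2 ≤ k) {s : ℕ → ℕ} (hs : StrictMono s) (j : ℕ) :
    StrictMono (fun i => s ((k - 1) * i + j)) := by
  intro x y hxy
  apply hs
  have : (k - 1) * x < (k - 1) * y := Nat.mul_lt_mul_of_pos_left hxy (by omega)
  omega

theorem idx_lt {k n i j : ℕ} (hi : i < n) (hj : j < k - 1) : (k - 1) * i + j < (k - 1) * n := by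
  have : (k - 1) * i + (k - 1) ≤ (k - 1) * n := by
    calc (k - 1) * i + (k - 1) = (k - 1) * (i + 1) := by ring
      _ ≤ (k - 1) * n := Nat.mul_le_mul_left _ hi
  omega

section
variable {k : ℕ} {V W : Type} {G : KGraph k V} {X : ℕ → Finset V} {rk : W → ℕ}
  {A : W → Set (Fin (k - 1) → W)} {n N : ℕ} {c : W → (ℕ → ℕ) → V}

theorem pt_inj (hk : 2 ≤ k) (hn : 1 ≤ n) (hc : CloneSys G X rk A n N c) (b : Fin (k - 1) → W)
    {s : ℕ → ℕ} (hs : StrictMono s) (hsN : ∀ i, i < (k - 1) * n → s i < N) :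
    Function.Injective (pt k c b s) := by
  intro j j' h
  have h1 := hc.dist (b j) (b j') _ _ (strictMono_sub hk hs j)
    (fun i hi => hsN _ (idx_lt hi j.2)) (strictMono_sub hk hs j')
    (fun i hi => hsN _ (idx_lt hi j'.2)) h
  have h2 := hs.injective h1
  ext
  omega

theorem pset_val (hk : 2 ≤ k) (hn : 1 ≤ n) (hc : CloneSys G X rk A n N c)
    (b : Fin (k - 1) → W) {s : ℕ → ℕ} (hs : StrictMono s)
    (hsN : ∀ i, i < (k - 1) * n → s i < N) :
    (pset k c b s).val = (Finset.univ : Finset (Fin (k - 1))).val.map (pt k c b s) := by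
  classical
  unfold pset
  exact Finset.image_val_of_injOn (Function.Injective.injOn (pt_inj hk hn hc b hs hsN))

theorem pset_card (hk : 2 ≤ k) (hn : 1 ≤ n) (hc : CloneSys G X rk A n N c)
    (b : Fin (k - 1) → W) {s : ℕ → ℕ} (hs : StrictMono s)
    (hsN : ∀ i, i < (k - 1) * n → s i < N) : (pset k c b s).card = k - 1 := by
  classical
  unfold pset
  rw [Finset.card_image_of_injective _ (pt_inj hk hn hc b hs hsN)]
  simp

theorem pset_sub (hk : 2 ≤ k) (hc : CloneSys G X rk A n N c)
    {L : ℕ} (hrk : ∀ w, rk w ≤ L) (hX : ∀ t, t ≤ L → X t ⊆ X L)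
    (b : Fin (k - 1) → W) {s : ℕ → ℕ} (hs : StrictMono s)
    (hsN : ∀ i, i < (k - 1) * n → s i < N) : pset k c b s ⊆ X L := by
  classical
  intro x hx
  unfold pset at hx
  obtain ⟨j, _, rfl⟩ := Finset.mem_image.1 hx
  exact hX _ (hrk (b j)) (hc.mem (b j) _ (strictMono_sub hk hs j)
    (fun i hi => hsN _ (idx_lt hi j.2)))

theorem pset_congr (hc : CloneSys G X rk A n N c) (b : Fin (k - 1) → W) {s s' : ℕ → ℕ}
    (h : ∀ i, i < (k - 1) * n → s i = s' i) : pset k c b s = pset k c b s' := by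
  unfold pset
  congr 1
  funext j
  exact hc.dep _ _ _ (fun i hi => h _ (idx_lt hi j.2))

/-- The vertices offered by the chain for the weights `om`. -/
theorem exists_Y [Finite W] (hk : 2 ≤ k) (hn : 1 ≤ n) {a : ℝ} {M L : ℕ}
    (hX : Chain G a M (L + 1) X) (hrk : ∀ w, rk w ≤ L)
    (hc : CloneSys G X rk A n N c) {s : ℕ → ℕ} (hs : StrictMono s)
    (hsN : ∀ i, i < (k - 1) * n → s i < N) (om : (Fin (k - 1) → W) → ℝ)
    (h0 : ∀ b, 0 ≤ om b) (hpos : 0 < ∑ᶠ b, om b) :
    ∃ Y : Finset V, Y ⊆ X (L + 1) ∧ M ≤ Y.card ∧ ∀ v ∈ Y,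
      a * ∑ᶠ b, om b < ∑ᶠ b ∈ {b | G.Adj v (pset k c b s)}, om b := by
  classical
  haveI := Fintype.ofFinite W
  haveI : Fintype (Fin (k - 1) → W) := Fintype.ofFinite _
  have hmem : ∀ b : Fin (k - 1) → W, pset k c b s ∈ (X L).powersetCard (k - 1) := by
    intro b
    rw [Finset.mem_powersetCard]
    exact ⟨pset_sub hk hc hrk (fun t ht => hX.mono_le ht (by omega)) b hs hsN,
      pset_card hk hn hc b hs hsN⟩
  have key := hX.rich L (by omega)
    (fun S => ∑ b : Fin (k - 1) → W, if pset k c b s = S then om b else 0)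
    (fun S => Finset.sum_nonneg (fun b _ => by split_ifs; exacts [h0 b, le_refl 0]))
  have e1 : (∑ S ∈ (X L).powersetCard (k - 1),
      ∑ b : Fin (k - 1) → W, if pset k c b s = S then om b else 0) = ∑ᶠ b, om b := by
    rw [finsum_eq_sum_of_fintype, Finset.sum_comm]
    apply Finset.sum_congr rfl
    intro b _
    rw [Finset.sum_ite_eq, if_pos (hmem b)]
  rw [e1] at key
  obtain ⟨Y, hY1, hY2, hY3⟩ := key hpos
  refine ⟨Y, hY1, hY2, fun v hv => ?_⟩
  have h3 := hY3 v hv
  refine lt_of_lt_of_eq h3 ?_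
  have e2 : ∀ S : Finset V, (if G.Adj v S then
      (∑ b : Fin (k - 1) → W, if pset k c b s = S then om b else 0) else 0) =
      ∑ b : Fin (k - 1) → W, if pset k c b s = S then
        (if G.Adj v (pset k c b s) then om b else 0) else 0 := by
    intro S
    split_ifs with hS
    · apply Finset.sum_congr rfl
      intro b _
      split_ifs with h1 h2
      · rfl
      · exact absurd (h1 ▸ hS) h2
      · rfl
    · symm
      apply Finset.sum_eq_zero
      intro b _
      split_ifs with h1 h2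
      · exact absurd (h1 ▸ h2) hS
      · rfl
      · rfl
  rw [Finset.sum_congr rfl (fun S _ => e2 S), Finset.sum_comm]
  rw [finsum_mem_eq_finite_toFinset_sum _ (Set.toFinite _)]
  rw [← Finset.sum_filter_add_sum_filter_not Finset.univ
    (fun b : Fin (k - 1) → W => G.Adj v (pset k c b s))]
  rw [Finset.sum_eq_zero (s := Finset.univ.filter
    (fun b : Fin (k - 1) → W => ¬ G.Adj v (pset k c b s))), add_zero]
  · apply Finset.sum_congr
    · ext b; simp
    · intro b hb
      have hb' : G.Adj v (pset k c b s) := by simpa using hb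
      rw [Finset.sum_ite_eq, if_pos (hmem b), if_pos hb']
  · intro b hb
    have hb' : ¬ G.Adj v (pset k c b s) := by simpa using hb
    apply Finset.sum_eq_zero
    intro S _
    simp [hb']

end

/-- Extension of a finite sequence by large values. -/
def ext (m N : ℕ) (σ : Fin m → Fin (N + 1)) : ℕ → ℕ :=
  fun i => if h : i < m then (σ ⟨i, h⟩ : ℕ) else N + i

/-- Truncation of a sequence. -/
def cut (m N : ℕ) (s : ℕ → ℕ) : Fin m → Fin (N + 1) :=
  fun i => ⟨min (s i) N, by omega⟩

theorem ext_cut {m N : ℕ} {s : ℕ → ℕ} (h : ∀ i, i < m → s i < N) :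
    ∀ i, i < m → ext m N (cut m N s) i = s i := by
  intro i hi
  have := h i hi
  simp only [ext, cut, dif_pos hi]
  omega

theorem ext_mono {m N : ℕ} {s : ℕ → ℕ} (hs : StrictMono s) (h : ∀ i, i < m → s i < N) :
    StrictMono (ext m N (cut m N s)) := by
  intro i j hij
  by_cases hj : j < m
  · rw [ext_cut h i (by omega), ext_cut h j hj]
    exact hs hij
  · by_cases hi : i < m
    · rw [ext_cut h i hi]
      have := h i hi
      simp only [ext, dif_neg hj]
      omega
    · simp only [ext, dif_neg hj, dif_neg hi]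
      omega

theorem cut_congr {m N : ℕ} {s s' : ℕ → ℕ} (h : ∀ i, i < m → s i = s' i) :
    cut m N s = cut m N s' := by
  funext i
  simp [cut, h i i.2]

end LExt

open LExt

/-- One extension step: from clones of the labels `W` in the first `L` levels to clones of
`W ⊕ Set (Set (Fin (k-1) → W))` in the first `L+1` levels. -/
theorem extract_step {k : ℕ} (hk : 2 ≤ k) (a : ℝ) (ha : 0 ≤ a) (L : ℕ) {W : Type} [Finite W]
    [Nonempty W] (rk : W → ℕ) (hrk : ∀ w, rk w ≤ L) {n : ℕ} (hn : 1 ≤ n) (N' : ℕ) :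
    ∃ N M : ℕ, ∀ (V : Type) (G : KGraph k V) (X : ℕ → Finset V), Chain G a M (L + 1) X →
      ∀ (A : W → Set (Fin (k - 1) → W)) (c : W → (ℕ → ℕ) → V), CloneSys G X rk A n N c →
      ∃ (R : Set (Set (Fin (k - 1) → W)) → Set (Fin (k - 1) → W))
        (c' : W ⊕ Set (Set (Fin (k - 1) → W)) → (ℕ → ℕ) → V),
        -- the responses are rich
        (∀ w : (Fin (k - 1) → W) → ℝ, (∀ b, 0 ≤ w b) → 0 < ∑ᶠ b, w b →
          ∃ T, a * ∑ᶠ b, w b < ∑ᶠ b ∈ R T, w b) ∧
        CloneSys G X (Sum.elim rk (fun _ => L + 1))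
          (Sum.elim (fun v => {b | ∃ b' ∈ A v, b = Sum.inl ∘ b'})
            (fun T => {b | ∃ b' ∈ R T, b = Sum.inl ∘ b'})) ((k - 1) * n) N' c' := by
  classical
  set m : ℕ := (k - 1) * n with hm
  have hm1 : n ≤ m := by
    rw [hm]; exact Nat.le_mul_of_pos_left n (by omega)
  have hm2 : m ≤ (k - 1) * m := Nat.le_mul_of_pos_left m (by omega)
  obtain ⟨N, hN⟩ := ramsey (Set (Set (Fin (k - 1) → W)) → Set (Fin (k - 1) → W)) m (max N' m)
  let I := Set (Set (Fin (k - 1) → W)) × (Fin m → Fin (N + 1))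
  let Io := W × (Fin n → Fin (N + 1))
  haveI : Fintype Io := Fintype.ofFinite _
  refine ⟨N, Fintype.card Io + Nat.card I, ?_⟩
  intro V G X hX A c hc
  choose om hom0 hompos homopt using exists_om (Fin (k - 1) → W) a
  -- the offered sets
  have hoff : ∀ p : I, ∃ Y : Finset V, Y ⊆ X (L + 1) ∧ Fintype.card Io + Nat.card I ≤ Y.card ∧
      (StrictMono (ext m N p.2) → (∀ i, i < m → ext m N p.2 i < N) → ∀ v ∈ Y,
        a * ∑ᶠ b, om p.1 b < ∑ᶠ b ∈ {b | G.Adj v (pset k c b (ext m N p.2))}, om p.1 b) := by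
    intro p
    by_cases h : StrictMono (ext m N p.2) ∧ ∀ i, i < m → ext m N p.2 i < N
    · obtain ⟨Y, h1, h2, h3⟩ := exists_Y hk hn hX hrk hc h.1 h.2 (om p.1) (hom0 p.1) (hompos p.1)
      exact ⟨Y, h1, h2, fun _ _ => h3⟩
    · refine ⟨X 0, hX.mono_le (Nat.zero_le _) (le_refl _), hX.card, fun h1 h2 => ?_⟩
      exact absurd ⟨h1, h2⟩ h
  choose Y hY1 hY2 hY3 using hoff
  let Old : Finset V := Finset.univ.image (fun q : Io => c q.1 (ext n N q.2))
  have hOld : Old.card ≤ Fintype.card Io := Finset.card_image_le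
  obtain ⟨v, hvinj, hv⟩ := choose_distinct Old Y (fun p => by have := hY2 p; omega)
  have hOldmem : ∀ w s, (∀ i, i < n → s i < N) → c w s ∈ Old := by
    intro w s hs
    refine Finset.mem_image.2 ⟨(w, cut n N s), Finset.mem_univ _, ?_⟩
    exact hc.dep _ _ _ (fun i hi => ext_cut hs i hi)
  -- the colouring
  obtain ⟨J, hJmono, hJN, hJ⟩ := hN (fun s T => {b | G.Adj (v (T, cut m N s)) (pset k c b s)})
    (by
      intro s s' h
      funext T
      ext b
      simp only [Set.mem_setOf_eq]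
      rw [cut_congr h, pset_congr hc b h])
  have hJi : ∀ i, i < m → J i < N := fun i hi => hJN i (lt_of_lt_of_le hi (le_max_right _ _))
  refine ⟨fun T => {b | G.Adj (v (T, cut m N J)) (pset k c b J)},
    Sum.elim (fun w s => c w (fun i => J (s i)))
      (fun T s => v (T, cut m N (fun i => J (s i)))), ?_, ?_⟩
  · -- richness
    intro w hw hwpos
    by_contra hcon
    push_neg at hcon
    set R : Set (Set (Fin (k - 1) → W)) → Set (Fin (k - 1) → W) :=
      fun T => {b | G.Adj (v (T, cut m N J)) (pset k c b J)} with hR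
    have h1 := homopt (Set.range R) ⟨w, hw, hwpos, ?_⟩ (R (Set.range R)) ⟨_, rfl⟩
    · have h2 := hY3 (Set.range R, cut m N J) (ext_mono hJmono hJi)
        (fun i hi => by rw [ext_cut hJi i hi]; exact hJi i hi)
        (v (Set.range R, cut m N J)) (hv _).1
      have h3 : {b : Fin (k - 1) → W | G.Adj (v (Set.range R, cut m N J))
          (pset k c b (ext m N (cut m N J)))} = R (Set.range R) := by
        ext b
        simp only [hR, Set.mem_setOf_eq]
        rw [pset_congr hc b (ext_cut hJi)]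
      simp only at h2
      rw [h3] at h2
      exact absurd h1 (not_le.2 h2)
    · rintro _ ⟨T, rfl⟩
      exact hcon T
  · have hJs : ∀ s : ℕ → ℕ, StrictMono s → (∀ i, i < m → s i < N') →
        StrictMono (fun i => J (s i)) ∧ ∀ i, i < m → J (s i) < N := by
      intro s hs h
      exact ⟨hJmono.comp hs, fun i hi => hJN _ (lt_of_lt_of_le (h i hi) (le_max_left _ _))⟩
    refine ⟨?_, ?_, ?_, ?_⟩
    · -- dep
      rintro (w | T) s s' h
      · exact hc.dep _ _ _ (fun i hi => by rw [h i (lt_of_lt_of_le hi hm1)])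
      · simp only [Sum.elim_inr]
        rw [cut_congr (s := fun i => J (s i)) (s' := fun i => J (s' i))
          (fun i hi => by rw [h i hi])]
    · -- mem
      rintro (w | T) s hs h
      · obtain ⟨h1, h2⟩ := hJs s hs h
        exact hc.mem _ _ h1 (fun i hi => h2 i (lt_of_lt_of_le hi hm1))
      · exact hY1 _ (hv _).1
    · -- dist
      have hmpos : 0 < m := by omega
      rintro (w | T) (w' | T') s s' hs h hs' h' heq
      · obtain ⟨h1, h2⟩ := hJs s hs h
        obtain ⟨h1', h2'⟩ := hJs s' hs' h'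
        exact hJmono.injective (hc.dist w w' _ _ h1 (fun i hi => h2 i (lt_of_lt_of_le hi hm1))
          h1' (fun i hi => h2' i (lt_of_lt_of_le hi hm1)) heq)
      · exfalso
        obtain ⟨h1, h2⟩ := hJs s hs h
        apply (hv (T', cut m N (fun i => J (s' i)))).2
        simp only [Sum.elim_inl, Sum.elim_inr] at heq
        rw [← heq]
        exact hOldmem w _ (fun i hi => h2 i (lt_of_lt_of_le hi hm1))
      · exfalso
        obtain ⟨h1, h2⟩ := hJs s' hs' h'
        apply (hv (T, cut m N (fun i => J (s i)))).2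
        simp only [Sum.elim_inl, Sum.elim_inr] at heq
        rw [heq]
        exact hOldmem w' _ (fun i hi => h2 i (lt_of_lt_of_le hi hm1))
      · obtain ⟨h1, h2⟩ := hJs s hs h
        obtain ⟨h1', h2'⟩ := hJs s' hs' h'
        have h3 := hvinj heq
        have h4 := congrFun (Prod.ext_iff.1 h3).2 ⟨0, hmpos⟩
        have h5 := Fin.ext_iff.1 h4
        simp only [cut] at h5
        have h6 := h2 0 hmpos
        have h7 := h2' 0 hmpos
        apply hJmono.injective
        omega
    · -- adj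
      rintro (v0 | T) b hb s hs h
      · obtain ⟨b', hb', rfl⟩ := hb
        have h' : ∀ i, i < m → s i < N' := fun i hi => h i (lt_of_lt_of_le hi hm2)
        obtain ⟨h1, h2⟩ := hJs s hs h'
        exact hc.adj v0 b' hb' _ h1 h2
      · obtain ⟨b', hb', rfl⟩ := hb
        have h' : ∀ i, i < m → s i < N' := fun i hi => h i (lt_of_lt_of_le hi hm2)
        obtain ⟨h1, h2⟩ := hJs s hs h'
        have h3 := hJ s id hs (fun i hi => lt_of_lt_of_le (h' i hi) (le_max_left _ _))
          strictMono_id (fun i hi => lt_of_lt_of_le hi (le_max_right _ _))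
        have h4 := congrFun h3 T
        have h5 : b' ∈ {b | G.Adj (v (T, cut m N (fun i => J (s i))))
            (pset k c b (fun i => J (s i)))} := by
          rw [h4]; exact hb'
        obtain ⟨hnot, hcons⟩ := h5
        refine ⟨_, hcons, ?_⟩
        rw [Finset.cons_val, pset_val hk hn hc b' h1 h2]
        rfl

end CodegDens

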