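import Pool.Agent.Lib.MP_81e58e_co.LabDefs
import Pool.Agent.Lib.MP_81e58e_co.ChainLemmas
import Pool.Agent.Lib.MP_81e58e_co.LExtract

/-!
# Label chains inside a chain, all levels (problem MP_81e58e_co)
-/

namespace CodegDens

open Finset

/-- The statement of the extension step. -/
def ExtractStepStmt (k : ℕ) (a : ℝ) (L : ℕ) (W : Type) (rk : W → ℕ) (n : ℕ) (N' : ℕ) : Prop :=
    ∃ N M : ℕ, ∀ (V : Type) (G : KGraph k V) (X : ℕ → Finset V), Chain G a M (L + 1) X →
      ∀ (A : W → Set (Fin (k - 1) → W)) (c : W → (ℕ → ℕ) → V), CloneSys G X rk A n N c →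
      ∃ (R : Set (Set (Fin (k - 1) → W)) → Set (Fin (k - 1) → W))
        (c' : W ⊕ Set (Set (Fin (k - 1) → W)) → (ℕ → ℕ) → V),
        (∀ w : (Fin (k - 1) → W) → ℝ, (∀ b, 0 ≤ w b) → 0 < ∑ᶠ b, w b →
          ∃ T, a * ∑ᶠ b, w b < ∑ᶠ b ∈ R T, w b) ∧
        CloneSys G X (Sum.elim rk (fun _ => L + 1))
          (Sum.elim (fun v => {b | ∃ b' ∈ A v, b = Sum.inl ∘ b'})
            (fun T => {b | ∃ b' ∈ R T, b = Sum.inl ∘ b'})) ((k - 1) * n) N' c'

/-- a multiset of `m` labels is the multiset of the values of a tuple -/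
lemma exists_tuple {W : Type} (m : ℕ) (s : Multiset W) (hs : s.card = m) :
    ∃ b : Fin m → W, s = (Finset.univ : Finset (Fin m)).val.map b := by
  subst hs
  induction s using Quotient.inductionOn with
  | h l =>
    refine ⟨fun i => l.get ⟨i, by have := i.2; simpa using this⟩, ?_⟩
    rw [Fin.univ_val_map]
    show (l : Multiset W) = _
    rw [Multiset.coe_eq_coe]
    apply List.Perm.of_eq
    apply List.ext_get
    · simp
    · intro i h1 h2
      simp

section

variable {k : ℕ} {a : ℝ} {L : ℕ} {W : Type}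

/-- the responses of all labels after the extension -/
def extA (A : W → Set (Fin (k - 1) → W))
    (R : Set (Set (Fin (k - 1) → W)) → Set (Fin (k - 1) → W)) :
    W ⊕ Set (Set (Fin (k - 1) → W)) → Set (Fin (k - 1) → W ⊕ Set (Set (Fin (k - 1) → W))) :=
  Sum.elim (fun v => {b | ∃ b' ∈ A v, b = Sum.inl ∘ b'})
            (fun T => {b | ∃ b' ∈ R T, b = Sum.inl ∘ b'})

lemma mem_ext_inl {A : W → Set (Fin (k - 1) → W)}
    {R : Set (Set (Fin (k - 1) → W)) → Set (Fin (k - 1) → W)} {v : W} {s : Multiset W}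
    (h : v ::ₘ s ∈ respEdges k A) :
    (Sum.inl v : W ⊕ Set (Set (Fin (k - 1) → W))) ::ₘ s.map Sum.inl ∈
      respEdges k (extA A R) := by
  obtain ⟨v', b, hb, he⟩ := h
  refine ⟨Sum.inl v', Sum.inl ∘ b, ⟨b, hb, rfl⟩, ?_⟩
  have := congrArg (Multiset.map (Sum.inl : W → W ⊕ Set (Set (Fin (k - 1) → W)))) he
  rw [Multiset.map_cons, Multiset.map_cons, Multiset.map_map] at this
  exact this

lemma mem_ext_inr {A : W → Set (Fin (k - 1) → W)}
    {R : Set (Set (Fin (k - 1) → W)) → Set (Fin (k - 1) → W)} {T : Set (Set (Fin (k - 1) → W))}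
    {b : Fin (k - 1) → W} (h : b ∈ R T) :
    (Sum.inr T : W ⊕ Set (Set (Fin (k - 1) → W))) ::ₘ
      ((Finset.univ : Finset (Fin (k - 1))).val.map b).map Sum.inl ∈
      respEdges k (extA A R) := by
  refine ⟨Sum.inr T, Sum.inl ∘ b, ⟨b, h, rfl⟩, ?_⟩
  rw [Multiset.map_map]

lemma sources_inl [Nonempty W] {U : Type} (s : Multiset (W ⊕ U))
    (h : ∀ x ∈ s, ∃ w : W, x = Sum.inl w) :
    ∃ s0 : Multiset W, s0.map Sum.inl = s := by
  classical
  let r : W ⊕ U → W := Sum.elim id (fun _ => Classical.arbitrary W)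
  refine ⟨s.map r, ?_⟩
  rw [Multiset.map_map]
  conv_rhs => rw [← Multiset.map_id s]
  apply Multiset.map_congr rfl
  intro x hx
  obtain ⟨w, rfl⟩ := h x hx
  rfl

/-- the extended label chain -/
lemma extend_chain [Finite W] [Nonempty W] {rk : W → ℕ} (hrk : ∀ w, rk w ≤ L)
    {A : W → Set (Fin (k - 1) → W)}
    {R : Set (Set (Fin (k - 1) → W)) → Set (Fin (k - 1) → W)}
    (hA : LabChain k (respEdges k A) a L (fun t => {w | rk w ≤ t}))
    (hR : ∀ w : (Fin (k - 1) → W) → ℝ, (∀ b, 0 ≤ w b) → 0 < ∑ᶠ b, w b →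
          ∃ T, a * ∑ᶠ b, w b < ∑ᶠ b ∈ R T, w b) :
    LabChain k (respEdges k (extA A R)) a (L + 1)
      (fun t => {w | Sum.elim rk (fun _ => L + 1) w ≤ t}) := by
  classical
  refine ⟨?_, ?_, ?_⟩
  · obtain ⟨w, hw⟩ := hA.nonempty
    exact ⟨Sum.inl w, hw⟩
  · intro t _ w hw
    have hw' : Sum.elim rk (fun _ => L + 1) w ≤ t := hw
    show Sum.elim rk (fun _ => L + 1) w ≤ t + 1
    omega
  · intro t ht J _ s w hs hw hpos
    have hinl : ∀ j, ∀ x ∈ s j, ∃ v : W, x = Sum.inl v := by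
      intro j x hx
      have h1 : Sum.elim rk (fun _ => L + 1) x ≤ t := (hs j).2 x hx
      rcases x with v | T
      · exact ⟨v, rfl⟩
      · exfalso
        have h2 : L + 1 ≤ t := h1
        omega
    choose s0 hs0 using fun j => sources_inl (s j) (hinl j)
    have hcard : ∀ j, (s0 j).card + 1 = k := by
      intro j
      have := (hs j).1
      rw [← hs0 j, Multiset.card_map] at this
      exact this
    rcases lt_or_eq_of_le (Nat.lt_succ_iff.mp ht) with htL | htL
    · -- below the top level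
      obtain ⟨v, hv, hlt⟩ := hA.rich t htL J s0 w
        (fun j => ⟨hcard j, fun x hx => by
          have h1 := (hs j).2 (Sum.inl x) (by rw [← hs0 j]; exact Multiset.mem_map_of_mem _ hx)
          exact h1⟩) hw hpos
      refine ⟨Sum.inl v, hv, lt_of_lt_of_le hlt ?_⟩
      apply Finset.sum_le_sum
      intro j _
      by_cases h : v ::ₘ s0 j ∈ respEdges k A
      · rw [if_pos h, if_pos (by rw [← hs0 j]; exact mem_ext_inl h)]
      · rw [if_neg h]
        split_ifs
        · exact hw j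
        · exact le_refl _
    · -- the top level
      subst htL
      have hb : ∀ j, ∃ b : Fin (k - 1) → W,
          s0 j = (Finset.univ : Finset (Fin (k - 1))).val.map b := fun j =>
        exists_tuple (k - 1) (s0 j) (by have := hcard j; omega)
      choose b hb using hb
      haveI : Fintype (Fin (k - 1) → W) := Fintype.ofFinite _
      have e1 : ∑ᶠ c : Fin (k - 1) → W, (∑ j, if b j = c then w j else 0) = ∑ j, w j := by
        rw [finsum_eq_sum_of_fintype, Finset.sum_comm]
        apply Finset.sum_congr rfl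
        intro j _
        simp
      obtain ⟨T, hT⟩ := hR (fun c => ∑ j, if b j = c then w j else 0)
        (fun c => Finset.sum_nonneg (fun j _ => by split_ifs; exacts [hw j, le_refl _]))
        (by rw [e1]; exact hpos)
      refine ⟨Sum.inr T, ?_, ?_⟩
      · show t + 1 ≤ t + 1
        exact le_refl _
      · rw [e1] at hT
        refine lt_of_lt_of_le hT ?_
        have e2 : ∑ᶠ c ∈ R T, (∑ j, if b j = c then w j else 0) =
            ∑ j, if b j ∈ R T then w j else 0 := by
          rw [finsum_mem_eq_finite_toFinset_sum _ (Set.toFinite (R T)), Finset.sum_comm]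
          apply Finset.sum_congr rfl
          intro j _
          rw [Finset.sum_ite_eq]
          by_cases h : b j ∈ R T
          · rw [if_pos ((Set.Finite.mem_toFinset _).mpr h), if_pos h]
          · rw [if_neg (fun h' => h ((Set.Finite.mem_toFinset _).mp h')), if_neg h]
        rw [e2]
        apply Finset.sum_le_sum
        intro j _
        by_cases h : b j ∈ R T
        · rw [if_pos h, if_pos (by rw [← hs0 j, hb j]; exact mem_ext_inr h)]
        · rw [if_neg h]
          split_ifs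
          · exact hw j
          · exact le_refl _

/-- the base case -/
lemma extract_zero (k : ℕ) (a : ℝ) :
    ∃ (W : Type) (_ : Finite W) (_ : Nonempty W) (rk : W → ℕ) (n : ℕ), 1 ≤ n ∧
      (∀ w, rk w ≤ 0) ∧ ∀ N : ℕ, ∃ M : ℕ,
      ∀ (V : Type) (G : KGraph k V) (X : ℕ → Finset V), Chain G a M 0 X →
      ∃ (A : W → Set (Fin (k - 1) → W)) (c : W → (ℕ → ℕ) → V),
        LabChain k (respEdges k A) a 0 (fun t => {w | rk w ≤ t}) ∧ CloneSys G X rk A n N c := by
  classical
  refine ⟨Unit, inferInstance, inferInstance, fun _ => 0, 1, le_refl _, fun _ => le_refl _,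
    fun N => ⟨N + 1, fun V G X hX => ?_⟩⟩
  have hc := hX.card
  obtain ⟨g, hg⟩ : ∃ g : Fin (N + 1) → V, Function.Injective g ∧ ∀ i, g i ∈ X 0 := by
    have h1 : Fintype.card (Fin (N + 1)) ≤ Fintype.card (X 0) := by simpa using hc
    obtain ⟨e⟩ := Function.Embedding.nonempty_of_card_le h1
    exact ⟨fun i => e i, fun i j h => e.injective (Subtype.ext h), fun i => (e i).2⟩
  refine ⟨fun _ => ∅, fun _ s => g (if h : s 0 < N then ⟨s 0, by omega⟩ else ⟨N, by omega⟩),
    ⟨⟨(), show (0 : ℕ) ≤ 0 from le_refl _⟩, fun t ht => absurd ht (by omega), fun t ht => absurd ht (by omega)⟩,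
    ⟨?_, ?_, ?_, ?_⟩⟩
  · intro w s s' h
    have := h 0 (by omega)
    simp only [this]
  · intro w s _ _
    exact hg.2 _
  · intro w w' s s' _ h1 _ h2 h
    have h3 := hg.1 h
    have h4 := h1 0 (by omega)
    have h5 := h2 0 (by omega)
    rw [dif_pos h4, dif_pos h5] at h3
    simpa using h3
  · intro v b hb
    exact absurd hb (by simp)

end

theorem extract_of {k : ℕ} (hk : 2 ≤ k) (a : ℝ)
    (hstep : ∀ (L : ℕ) (W : Type) [Finite W] [Nonempty W] (rk : W → ℕ), (∀ w, rk w ≤ L) →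
      ∀ n : ℕ, 1 ≤ n → ∀ N' : ℕ, ExtractStepStmt k a L W rk n N') (L : ℕ) :
    ∃ (W : Type) (_ : Finite W) (_ : Nonempty W) (rk : W → ℕ) (n : ℕ), 1 ≤ n ∧
      (∀ w, rk w ≤ L) ∧ ∀ N : ℕ, ∃ M : ℕ,
      ∀ (V : Type) (G : KGraph k V) (X : ℕ → Finset V), Chain G a M L X →
      ∃ (A : W → Set (Fin (k - 1) → W)) (c : W → (ℕ → ℕ) → V),
        LabChain k (respEdges k A) a L (fun t => {w | rk w ≤ t}) ∧ CloneSys G X rk A n N c := by
  induction L with
  | zero => exact extract_zero k a
  | succ L ih =>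
    obtain ⟨W, hF, hN, rk, n, hn, hrk, hext⟩ := ih
    refine ⟨W ⊕ Set (Set (Fin (k - 1) → W)), inferInstance, inferInstance,
      Sum.elim rk (fun _ => L + 1), (k - 1) * n, ?_, ?_, ?_⟩
    · exact Nat.mul_pos (by omega) hn
    · rintro (w | T)
      · have := hrk w
        show rk w ≤ L + 1
        omega
      · exact le_refl _
    · intro N'
      obtain ⟨N, M1, hM1⟩ := hstep L W rk hrk n hn N'
      obtain ⟨M0, hM0⟩ := hext N
      refine ⟨max M0 M1, fun V G X hX => ?_⟩
      obtain ⟨A, c, hA, hc⟩ := hM0 V G X (hX.weaken le_rfl (le_max_left _ _) (by omega))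
      obtain ⟨R, c', hR, hc'⟩ := hM1 V G X (hX.weaken le_rfl (le_max_right _ _) le_rfl) A c hc
      exact ⟨extA A R, c', extend_chain hrk hA hR, hc'⟩

theorem extract {k : ℕ} (hk : 2 ≤ k) (a : ℝ) (ha : 0 ≤ a) (L : ℕ) :
    ∃ (W : Type) (_ : Finite W) (_ : Nonempty W) (rk : W → ℕ) (n : ℕ), 1 ≤ n ∧
      (∀ w, rk w ≤ L) ∧ ∀ N : ℕ, ∃ M : ℕ,
      ∀ (V : Type) (G : KGraph k V) (X : ℕ → Finset V), Chain G a M L X →
      ∃ (A : W → Set (Fin (k - 1) → W)) (c : W → (ℕ → ℕ) → V),
        LabChain k (respEdges k A) a L (fun t => {w | rk w ≤ t}) ∧ CloneSys G X rk A n N c :=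
  extract_of hk a (fun L _W _ _ rk hrk _n hn N' => extract_step hk a ha L rk hrk hn N') L

end CodegDens
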