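import Pool.Agent.Lib.MP_81e58e_co.LabDefs
import Pool.Agent.Lib.MP_81e58e_co.LRamsey

/-!
# Product Ramsey theorem (problem MP_81e58e_co)
-/

namespace CodegDens

/-- The statement of the finite Ramsey theorem in terms of strictly increasing sequences. -/
def RamseyStmt : Prop := ∀ (K : Type) [Finite K] (n m : ℕ), ∃ N : ℕ, ∀ f : (ℕ → ℕ) → K,
    (∀ s s' : ℕ → ℕ, (∀ i, i < n → s i = s' i) → f s = f s') →
    ∃ J : ℕ → ℕ, StrictMono J ∧ (∀ i, i < m → J i < N) ∧
      ∀ s s' : ℕ → ℕ, StrictMono s → (∀ i, i < n → s i < m) →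
        StrictMono s' → (∀ i, i < n → s' i < m) →
        f (fun i => J (s i)) = f (fun i => J (s' i))

/-- The product statement for the index type `T`. -/
def ProdRamseyStmt (T : Type) : Prop := ∀ (K : Type) [Finite K] (n m : ℕ),
    ∃ N : ℕ, ∀ f : (T → ℕ → ℕ) → K,
    (∀ s s' : T → ℕ → ℕ, (∀ t i, i < n → s t i = s' t i) → f s = f s') →
    ∃ J : T → ℕ → ℕ, (∀ t, StrictMono (J t)) ∧ (∀ t i, i < m → J t i < N) ∧
      ∀ s s' : T → ℕ → ℕ, (∀ t, StrictMono (s t)) → (∀ t i, i < n → s t i < m) →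
        (∀ t, StrictMono (s' t)) → (∀ t i, i < n → s' t i < m) →
        f (fun t i => J t (s t i)) = f (fun t i => J t (s' t i))

lemma prodRamsey_equiv {A B : Type} (e : A ≃ B) (h : ProdRamseyStmt A) : ProdRamseyStmt B := by
  intro K _ n m
  obtain ⟨N, hN⟩ := h K n m
  refine ⟨N, fun f hf => ?_⟩
  obtain ⟨J, h1, h2, h3⟩ := hN (fun s => f (fun b => s (e.symm b)))
    (fun s s' hs => hf _ _ (fun t i hi => hs _ i hi))
  refine ⟨fun b => J (e.symm b), fun t => h1 _, fun t i hi => h2 _ i hi, ?_⟩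
  intro s s' a1 a2 a3 a4
  have := h3 (fun a => s (e a)) (fun a => s' (e a)) (fun t => a1 _) (fun t => a2 _)
    (fun t => a3 _) (fun t => a4 _)
  simpa using this

lemma prodRamsey_empty : ProdRamseyStmt PEmpty := by
  intro K _ n m
  refine ⟨0, fun f hf => ⟨fun t => t.elim, fun t => t.elim, fun t => t.elim, ?_⟩⟩
  intro s s' _ _ _ _
  exact congrArg f (funext fun t => t.elim)

/-- combine a sequence for the new index with the old sequences -/
def optSeq {A : Type} (u : ℕ → ℕ) (s : A → ℕ → ℕ) : Option A → ℕ → ℕ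
  | none => u
  | some a => s a

lemma prodRamsey_option (hR : RamseyStmt) {A : Type} (h : ProdRamseyStmt A) :
    ProdRamseyStmt (Option A) := by
  intro K _ n m
  by_cases hnm : n ≤ m
  swap
  · refine ⟨m, fun f hf => ⟨fun _ i => i, fun t => strictMono_id, fun t i hi => hi, ?_⟩⟩
    intro s s' a1 a2 a3 a4
    exfalso
    have b1 := (a1 none).le_apply (x := n - 1)
    have b2 := a2 none (n - 1) (by omega)
    omega
  obtain ⟨N0, hN0⟩ := hR K n m
  obtain ⟨N1, hN1⟩ := h ((Fin n → Fin N0) → K) n m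
  refine ⟨max N0 N1, fun f hf => ?_⟩
  let ext : (Fin n → Fin N0) → ℕ → ℕ := fun u i => if h : i < n then (u ⟨i, h⟩ : ℕ) else 0
  obtain ⟨J1, p1, p2, p3⟩ := hN1 (fun s u => f (optSeq (ext u) s)) (by
    intro s s' hs
    funext u
    apply hf
    rintro (_ | a) i hi
    · rfl
    · exact hs a i hi)
  obtain ⟨J0, q1, q2, q3⟩ := hN0 (fun u => f (optSeq u J1)) (by
    intro s s' hs
    apply hf
    rintro (_ | a) i hi
    · exact hs i hi
    · rfl)
  refine ⟨optSeq J0 J1, ?_, ?_, ?_⟩
  · rintro (_ | a)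
    · exact q1
    · exact p1 a
  · rintro (_ | a) i hi
    · exact lt_of_lt_of_le (q2 i hi) (le_max_left _ _)
    · exact lt_of_lt_of_le (p2 a i hi) (le_max_right _ _)
  · have key : ∀ s : Option A → ℕ → ℕ, (∀ t, StrictMono (s t)) →
        (∀ t i, i < n → s t i < m) →
        f (fun t i => optSeq J0 J1 t (s t i)) = f (optSeq (fun i => J0 (s none i)) J1) := by
      intro s a1 a2
      have hlt : ∀ i : Fin n, J0 (s none i) < N0 := fun i => q2 _ (a2 none i i.2)
      let u : Fin n → Fin N0 := fun i => ⟨J0 (s none i), hlt i⟩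
      have e1 := p3 (fun a => s (some a)) (fun _ i => i) (fun a => a1 _) (fun a => a2 _)
        (fun a => strictMono_id) (fun a i hi => by omega)
      have e2 := congrFun e1 u
      rw [show f (fun t i => optSeq J0 J1 t (s t i)) =
          f (optSeq (ext u) (fun t i => J1 t (s (some t) i))) from ?_, e2]
      · apply hf
        rintro (_ | a) i hi
        · simp [optSeq, ext, hi, u]
        · rfl
      · apply hf
        rintro (_ | a) i hi
        · simp [optSeq, ext, hi, u]
        · rfl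
    intro s s' a1 a2 a3 a4
    rw [key s a1 a2, key s' a3 a4]
    exact q3 (s none) (s' none) (a1 none) (a2 none) (a3 none) (a4 none)

theorem prod_ramsey_of (hR : RamseyStmt) (T : Type) [Finite T] : ProdRamseyStmt T :=
  Finite.induction_empty_option (P := ProdRamseyStmt)
    (fun e h => prodRamsey_equiv e h) prodRamsey_empty
    (fun h => prodRamsey_option hR h) T

theorem prod_ramsey (T : Type) [Finite T] (K : Type) [Finite K] (n m : ℕ) :
    ∃ N : ℕ, ∀ f : (T → ℕ → ℕ) → K,
    (∀ s s' : T → ℕ → ℕ, (∀ t i, i < n → s t i = s' t i) → f s = f s') →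
    ∃ J : T → ℕ → ℕ, (∀ t, StrictMono (J t)) ∧ (∀ t i, i < m → J t i < N) ∧
      ∀ s s' : T → ℕ → ℕ, (∀ t, StrictMono (s t)) → (∀ t i, i < n → s t i < m) →
        (∀ t, StrictMono (s' t)) → (∀ t i, i < n → s' t i < m) →
        f (fun t i => J t (s t i)) = f (fun t i => J t (s' t i)) :=
  prod_ramsey_of (fun K _ n m => ramsey K n m) T K n m

end CodegDens
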