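import Pool.Agent.Lib.MP_81e58e_co.LReduceCore
import Pool.Agent.Lib.MP_81e58e_co.LProdRamsey
import Pool.Agent.Lib.MP_81e58e_co.LExtract2

/-!
# Label reduction: `IrrLab` implies `Irr` (problem MP_81e58e_co)
-/

namespace CodegDens

theorem irr_of_irrLab {k : ℕ} (hk : 2 ≤ k) {C : Type} [Finite C] (P : Set (Multiset C)) (a : ℝ)
    (ha : 0 ≤ a) (h : IrrLab k P a) : Irr k P a :=
  irr_of_irrLab_core hk P a (extract hk a ha)
    (fun T _ K _ n m => prod_ramsey T K n m) h

end CodegDens
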