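import Pool.Agent.Lib.MP_81e58e_co.LIrr
import Pool.Agent.Lib.MP_81e58e_co.LReduce
import Pool.Agent.Lib.MP_81e58e_co.LCirVal
import Pool.Agent.Lib.MP_81e58e_co.LDescent
import Pool.Agent.Lib.MP_81e58e_co.BaseJoin
import Pool.Agent.Lib.MP_81e58e_co.IrrDensity

/-!
# All rationals are codegree Turan densities of single k-graphs for every k at least 5
-/

namespace CodegDens

open Finset Filter Topology

theorem reach_cir {k q p : ℕ} (hk : 5 ≤ k ∨ (k = 4 ∧ 2 * p < q)) (hp : 1 ≤ p) (hpq : p < q) :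
    Reach k ((p : ℝ) / (p + q)) := by
  have hq : NeZero q := ⟨by omega⟩
  exact ⟨Option (ZMod q), inferInstance, CirPat k q p, patVal_cir (by omega) hp hpq,
    irr_of_irrLab (by omega) _ _ (by positivity) (irrLab_cir hk hp hpq)⟩

theorem all_rationals_of_five_le : ∀ k : ℕ, 5 ≤ k → ∀ q : ℚ, 0 ≤ q → q < 1 →
    ∃ (m : ℕ) (F : KGraph k (Fin m)), F.edges.Nonempty ∧ HasCodegDensity F (q : ℝ) := by
  intro k hk q hq0 hq1
  have hk2 : 2 ≤ k := by omega
  have h := join_descent (Reach k) (reach_zero hk2)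
    (fun a h0 h1 h => reach_join hk2 a h0 h1 h)
    (fun p q hp hpq => reach_cir (Or.inl hk) hp hpq) q hq0 hq1
  exact reach_density hk2 (q : ℝ) (by exact_mod_cast hq0) (by exact_mod_cast hq1) h

end CodegDens
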