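import Pool.Agent.Lib.MP_81e58e_co.LabDefs

/-!
# The abstract dynamics is impossible for large depth (problem MP_81e58e_co)
-/

namespace CodegDens

open Finset

section grow

variable {q L : ℕ} {S : Set (ZMod q)} {ι : Type} {V : ι → Type} {D : ∀ i, ℕ → Set (V i)}
  {Kd : ∀ i, V i → V i → Prop} {g : (∀ i, V i) → ZMod q}

/-- `v` is reachable from `w` between the times `s` and `t`, by waiting and moving to children. -/
inductive Dsc (D : ∀ i, ℕ → Set (V i)) (Kd : ∀ i, V i → V i → Prop) (i : ι) (s : ℕ) (w : V i) :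
    ℕ → V i → Prop
  | refl : Dsc D Kd i s w s w
  | stay {t v} : Dsc D Kd i s w t v → Dsc D Kd i s w (t + 1) v
  | move {t v v'} : Dsc D Kd i s w t v → Kd i v v' → v' ∈ D i (t + 1) →
      Dsc D Kd i s w (t + 1) v'

lemma dsc_le {i : ι} {s t : ℕ} {w v : V i} (h : Dsc D Kd i s w t v) : s ≤ t := by
  induction h with
  | refl => exact le_rfl
  | stay _ ih => omega
  | move _ _ _ ih => omega

lemma dsc_inv {i : ι} {s t : ℕ} {w v : V i} (h : Dsc D Kd i s w (t + 1) v) (hst : s ≤ t) :
    ∃ v', Dsc D Kd i s w t v' ∧ (v = v' ∨ (Kd i v' v ∧ v ∈ D i (t + 1))) := by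
  generalize hr : t + 1 = r at h
  cases h with
  | refl => omega
  | @stay t' v h =>
    obtain rfl : t = t' := by omega
    exact ⟨v, h, Or.inl rfl⟩
  | @move t' v' v h hk hm =>
    obtain rfl : t = t' := by omega
    exact ⟨v', h, Or.inr ⟨hk, hm⟩⟩

lemma dsc_self {i : ι} {s : ℕ} {w v : V i} (h : Dsc D Kd i s w s v) : v = w := by
  generalize hr : s = r at h
  cases h with
  | refl => rfl
  | @stay t' v h =>
    subst hr
    have := dsc_le h
    omega
  | @move t' v' v h hk hm =>
    subst hr
    have := dsc_le h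
    omega

lemma dsc_trans {i : ι} {s t r : ℕ} {w v u : V i} (h : Dsc D Kd i s w t v)
    (h' : Dsc D Kd i t v r u) : Dsc D Kd i s w r u := by
  induction h' with
  | refl => exact h
  | stay _ ih => exact ih.stay
  | move _ hk hm ih => exact ih.move hk hm

lemma dsc_wait {i : ι} {s t : ℕ} (w : V i) (h : s ≤ t) : Dsc D Kd i s w t w := by
  induction t, h using Nat.le_induction with
  | base => exact Dsc.refl
  | succ t _ ih => exact ih.stay

lemma dsc_wait_right {i : ι} {s t r : ℕ} {w v : V i} (h : Dsc D Kd i s w t v) (hr : t ≤ r) :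
    Dsc D Kd i s w r v := dsc_trans h (dsc_wait v hr)

lemma dsc_wait_left {i : ι} {s t r : ℕ} {w v : V i} (h : Dsc D Kd i t w r v) (hr : s ≤ t) :
    Dsc D Kd i s w r v := dsc_trans (dsc_wait w hr) h

lemma D_mono (H : Dyn q S V L D Kd g) {i : ι} {t t' : ℕ} (h : t ≤ t') (hL : t' ≤ L) :
    D i t ⊆ D i t' := by
  induction t', h using Nat.le_induction with
  | base => exact subset_rfl
  | succ n hn ih => exact (ih (by omega)).trans (H.mono i n (by omega))

lemma dsc_mem (H : Dyn q S V L D Kd g) {i : ι} {s t : ℕ} {w v : V i} (hw : w ∈ D i s)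
    (h : Dsc D Kd i s w t v) (hL : t ≤ L) : v ∈ D i t := by
  induction h with
  | refl => exact hw
  | @stay t v _ ih => exact D_mono H (Nat.le_succ t) hL (ih (by omega))
  | move _ _ hm _ => exact hm

/-- (P1) -/
lemma dic_step (H : Dyn q S V L D Kd g) (h0 : (0 : ZMod q) ∉ S) {t : ℕ} (ht : t + 1 < L)
    {x x' : ∀ i, V i} {i : ι} (hx : ∀ j, x j ∈ D j t) (hd : Dic S Kd g x i) (hi : x' i = x i)
    (hx' : ∀ j, x' j = x j ∨ (Kd j (x j) (x' j) ∧ x' j ∈ D j (t + 1))) :
    g x' = g x ∧ Dic S Kd g x' i := by
  classical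
  have hg : g x' = g x := hd.1 x' hi (fun j => (hx' j).imp id (fun h => h.1))
  refine ⟨hg, ?_⟩
  have hmem : ∀ j, x' j ∈ D j (t + 1) := by
    intro j
    rcases hx' j with h | h
    · rw [h]; exact H.mono j t (by omega) (hx j)
    · exact h.2
  obtain ⟨j, hj⟩ := H.dic (t + 1) ht x' hmem
  by_cases hij : j = i
  · exact hij ▸ hj
  · exfalso
    obtain ⟨v, -, hk⟩ := H.kid i t (by omega) (x i) (hx i)
    have e1 : g (Function.update x' i v) = g x' := by
      apply hj.1
      · rw [Function.update_of_ne hij]
      · intro l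
        by_cases hl : l = i
        · subst hl
          right
          rw [Function.update_self, hi]
          exact hk
        · left
          rw [Function.update_of_ne hl]
    have e2 : g (Function.update x' i v) - g x ∈ S := by
      apply hd.2
      · rw [Function.update_self]; exact hk
      · intro l
        by_cases hl : l = i
        · subst hl
          right
          rw [Function.update_self]
          exact hk
        · rw [Function.update_of_ne hl]
          exact (hx' l).imp id (fun h => h.1)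
    rw [e1, hg, sub_self] at e2
    exact h0 e2

/-- (P2) -/
lemma dic_iter (H : Dyn q S V L D Kd g) (h0 : (0 : ZMod q) ∉ S) {s : ℕ} {x : ∀ i, V i} {i : ι}
    (hx : ∀ j, x j ∈ D j s) (hd : Dic S Kd g x i) (t : ℕ) (hst : s ≤ t) (ht : t < L) :
    ∀ x' : ∀ i, V i, x' i = x i → (∀ j, j ≠ i → Dsc D Kd j s (x j) t (x' j)) →
      g x' = g x ∧ Dic S Kd g x' i := by
  classical
  induction t, hst using Nat.le_induction with
  | base =>
    intro x' hi hj
    have : x' = x := by
      funext j
      by_cases h : j = i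
      · subst h; exact hi
      · exact dsc_self (hj j h)
    rw [this]
    exact ⟨rfl, hd⟩
  | succ t hst ih =>
    intro x' hi hj
    have h1 : ∀ j, ∃ v', (j ≠ i → Dsc D Kd j s (x j) t v') ∧ (j = i → v' = x' j) ∧
        (x' j = v' ∨ (Kd j v' (x' j) ∧ x' j ∈ D j (t + 1))) := by
      intro j
      by_cases h : j = i
      · exact ⟨x' j, fun h' => absurd h h', fun _ => rfl, Or.inl rfl⟩
      · obtain ⟨v', h2, h3⟩ := dsc_inv (hj j h) hst
        exact ⟨v', fun _ => h2, fun h' => absurd h' h, h3⟩
    choose y hy1 hy2 hy3 using h1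
    have hyi : y i = x i := by rw [hy2 i rfl, hi]
    obtain ⟨h4, h5⟩ := ih (by omega) y hyi hy1
    have hyD : ∀ j, y j ∈ D j t := by
      intro j
      by_cases h : j = i
      · subst h
        rw [hyi]
        exact D_mono H hst (by omega) (hx j)
      · exact dsc_mem H (hx j) (hy1 j h) (by omega)
    obtain ⟨h6, h7⟩ := dic_step H h0 ht hyD h5 (x' := x') (by rw [hi, hyi]) hy3
    exact ⟨h6.trans h4, h7⟩

open Classical in
/-- (C) -/
lemma lemC (H : Dyn q S V L D Kd g) (h0 : (0 : ZMod q) ∉ S) {i : ι} {t0 t1 T1 : ℕ} {v : V i}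
    {y : ∀ i, V i} (hv : v ∈ D i t0) (hy : ∀ j, y j ∈ D j t1) (hL : t1 + T1 < L)
    (hno : ∀ y' : ∀ i, V i, (∀ j, j ≠ i → Dsc D Kd j t1 (y j) (t1 + T1) (y' j)) →
      ¬ Dic S Kd g (Function.update y' i v) i) (n : ℕ) (hn : n ≤ T1) (hL' : t0 + n < L) :
    ∀ v'' : V i, Dsc D Kd i t0 v (t0 + n) v'' → ∀ y' : ∀ i, V i,
      (∀ j, j ≠ i → Dsc D Kd j t1 (y j) (t1 + (T1 - n)) (y' j)) →
      ¬ Dic S Kd g (Function.update y' i v'') i ∧
        g (Function.update y' i v'') = g (Function.update y' i v) := by
  -- advancing the coordinate `i` alone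
  have adv : ∀ (v' v'' : V i) (y' : ∀ i, V i), v' ∈ D i (max (t0 + n) (t1 + T1)) →
      (∀ j, j ≠ i → y' j ∈ D j (max (t0 + n) (t1 + T1))) → Kd i v' v'' →
      ¬ Dic S Kd g (Function.update y' i v') i →
      g (Function.update y' i v'') = g (Function.update y' i v') := by
    intro v' v'' y' hv' hy' hk hnd
    obtain ⟨j, hj⟩ := H.dic (max (t0 + n) (t1 + T1)) (by omega) (Function.update y' i v') (by
      intro l
      by_cases hl : l = i
      · subst hl; rw [Function.update_self]; exact hv'
      · rw [Function.update_of_ne hl]; exact hy' l hl)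
    have hji : j ≠ i := by
      rintro rfl
      exact hnd hj
    apply hj.1
    · rw [Function.update_of_ne hji, Function.update_of_ne hji]
    · intro l
      by_cases hl : l = i
      · subst hl
        right
        rw [Function.update_self, Function.update_self]
        exact hk
      · left
        rw [Function.update_of_ne hl, Function.update_of_ne hl]
  induction n with
  | zero =>
    intro v'' hv'' y' hy'
    have : v'' = v := dsc_self hv''
    subst this
    exact ⟨hno y' (by simpa using hy'), rfl⟩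
  | succ n ih =>
    have hmax : ∀ {j : ι} {r : ℕ}, r ≤ max (t0 + (n + 1)) (t1 + T1) →
        D j r ⊆ D j (max (t0 + (n + 1)) (t1 + T1)) := by
      intro j r hr
      exact D_mono H hr (by omega)
    have adv' : ∀ (v' v'' : V i) (y' : ∀ i, V i), v' ∈ D i (max (t0 + n) (t1 + T1)) →
      (∀ j, j ≠ i → y' j ∈ D j (max (t0 + n) (t1 + T1))) → Kd i v' v'' →
      ¬ Dic S Kd g (Function.update y' i v') i →
      g (Function.update y' i v'') = g (Function.update y' i v') := by
      intro v' v'' y' hv' hy' hk hnd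
      apply adv v' v'' y' _ _ hk hnd
      · exact D_mono H (by omega) (by omega) hv'
      · intro j hj
        exact D_mono H (by omega) (by omega) (hy' j hj)
    have IH := ih (by omega) (by omega) adv'
    intro v'' hv'' y' hy'
    have hy'1 : ∀ j, j ≠ i → Dsc D Kd j t1 (y j) (t1 + (T1 - n)) (y' j) := fun j hj =>
      dsc_wait_right (hy' j hj) (by omega)
    obtain ⟨v', hv', hvv⟩ := dsc_inv (t := t0 + n) hv'' (by omega)
    obtain ⟨i1, i2⟩ := IH v' hv' y' hy'1
    rcases hvv with rfl | ⟨hk, -⟩
    · exact ⟨i1, i2⟩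
    · have hv'D : v' ∈ D i (max (t0 + (n + 1)) (t1 + T1)) :=
        hmax (by omega) (dsc_mem H hv hv' (by omega))
      have hy'D : ∀ j, j ≠ i → y' j ∈ D j (max (t0 + (n + 1)) (t1 + T1)) := fun j hj =>
        hmax (by omega) (dsc_mem H (hy j) (hy' j hj) (by omega))
      have e1 : g (Function.update y' i v'') = g (Function.update y' i v') :=
        adv v' v'' y' hv'D hy'D hk i1
      refine ⟨?_, e1.trans i2⟩
      intro hdic
      -- children in all coordinates different from `i`
      have hkid : ∀ j, ∃ z, j ≠ i → (z ∈ D j (t1 + (T1 - (n + 1)) + 1) ∧ Kd j (y' j) z) := by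
        intro j
        by_cases hj : j = i
        · exact ⟨y' j, fun h => absurd hj h⟩
        · obtain ⟨z, hz, hkz⟩ := H.kid j (t1 + (T1 - (n + 1))) (by omega) (y' j)
            (dsc_mem H (hy j) (hy' j hj) (by omega))
          exact ⟨z, fun _ => ⟨hz, hkz⟩⟩
      choose yp hyp using hkid
      have hyp1 : ∀ j, j ≠ i → Dsc D Kd j t1 (y j) (t1 + (T1 - n)) (yp j) := by
        intro j hj
        have := (hy' j hj).move (hyp j hj).2 (hyp j hj).1
        exact dsc_wait_right this (by omega)
      have hypD : ∀ j, j ≠ i → yp j ∈ D j (max (t0 + (n + 1)) (t1 + T1)) := fun j hj =>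
        hmax (by omega) (dsc_mem H (hy j) (hyp1 j hj) (by omega))
      obtain ⟨i3, i4⟩ := IH v' hv' yp hyp1
      have e2 : g (Function.update yp i v'') = g (Function.update yp i v') :=
        adv v' v'' yp hv'D hypD hk i3
      have e3 : g (Function.update yp i v'') = g (Function.update y' i v'') := by
        apply hdic.1
        · rw [Function.update_self, Function.update_self]
        · intro l
          by_cases hl : l = i
          · subst hl
            left
            rw [Function.update_self, Function.update_self]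
          · right
            rw [Function.update_of_ne hl, Function.update_of_ne hl]
            exact (hyp l hl).2
      -- the dictator of `(v, y')` is not `i`
      have hvD : v ∈ D i (max (t0 + (n + 1)) (t1 + T1)) := hmax (by omega) hv
      obtain ⟨j, hj⟩ := H.dic (max (t0 + (n + 1)) (t1 + T1)) (by omega)
        (Function.update y' i v) (by
        intro l
        by_cases hl : l = i
        · subst hl; rw [Function.update_self]; exact hvD
        · rw [Function.update_of_ne hl]; exact hy'D l hl)
      have hji : j ≠ i := by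
        rintro rfl
        exact hno y' (fun l hl => dsc_wait_right (hy' l hl) (by omega)) hj
      have e4 : g (Function.update yp i v) - g (Function.update y' i v) ∈ S := by
        apply hj.2
        · rw [Function.update_of_ne hji, Function.update_of_ne hji]
          exact (hyp j hji).2
        · intro l
          by_cases hl : l = i
          · subst hl
            left
            rw [Function.update_self, Function.update_self]
          · right
            rw [Function.update_of_ne hl, Function.update_of_ne hl]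
            exact (hyp l hl).2
      rw [← i4, ← e2, e3, e1, i2, sub_self] at e4
      exact h0 e4

/-- the constants which differ by an element of `S` from all future values -/
def KK (S : Set (ZMod q)) (D : ∀ i, ℕ → Set (V i)) (Kd : ∀ i, V i → V i → Prop)
    (g : (∀ i, V i) → ZMod q) (x : ∀ i, V i) (t s : ℕ) : Set (ZMod q) :=
  {κ | ∀ x' : ∀ i, V i, (∀ j, Dsc D Kd j t (x j) s (x' j)) → g x' - κ ∈ S}

open Classical in
/-- values at the points dictated by `i` -/
def UU (S : Set (ZMod q)) (D : ∀ i, ℕ → Set (V i)) (Kd : ∀ i, V i → V i → Prop)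
    (g : (∀ i, V i) → ZMod q) (i : ι) (w : V i) (t : ℕ) (y : ∀ i, V i) (t2 : ℕ) :
    Set (ZMod q) :=
  {u | ∃ b, Dsc D Kd i t w t2 b ∧ Dic S Kd g (Function.update y i b) i ∧
    g (Function.update y i b) = u}

open Classical in
lemma ctx_mono (H : Dyn q S V L D Kd g) (h0 : (0 : ZMod q) ∉ S) {i : ι} {t1 t2 T1 : ℕ}
    (h12 : t2 ≤ t1) (hL : t1 + T1 < L) {b : V i} (hb : b ∈ D i t2) {y y' : ∀ i, V i}
    (hy : ∀ j, y j ∈ D j t1) (hd : Dic S Kd g (Function.update y i b) i)
    (hy' : ∀ j, j ≠ i → Dsc D Kd j t1 (y j) (t1 + T1) (y' j)) :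
    g (Function.update y' i b) = g (Function.update y i b) ∧
      Dic S Kd g (Function.update y' i b) i := by
  apply dic_iter H h0 (s := t1) _ hd (t1 + T1) (by omega) hL
  · rw [Function.update_self, Function.update_self]
  · intro j hj
    rw [Function.update_of_ne hj, Function.update_of_ne hj]
    exact hy' j hj
  · intro j
    by_cases hj : j = i
    · subst hj
      rw [Function.update_self]
      exact D_mono H h12 (by omega) hb
    · rw [Function.update_of_ne hj]
      exact hy j

lemma UU_max [NeZero q] (H : Dyn q S V L D Kd g) (h0 : (0 : ZMod q) ∉ S) {i : ι} {t T1 : ℕ}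
    (hT1 : 1 ≤ T1) (hL : t + (q + 1) * T1 < L) {x : ∀ i, V i} (hx : ∀ j, x j ∈ D j t)
    (hd : Dic S Kd g x i) :
    ∃ (n : ℕ) (y : ∀ i, V i), n ≤ q ∧ (∀ j, Dsc D Kd j t (x j) (t + n * T1) (y j)) ∧
      (UU S D Kd g i (x i) t y (t + n)).Nonempty ∧
      ∀ y' : ∀ i, V i, (∀ j, j ≠ i → Dsc D Kd j (t + n * T1) (y j) (t + n * T1 + T1) (y' j)) →
        UU S D Kd g i (x i) t y' (t + n + 1) ⊆ UU S D Kd g i (x i) t y (t + n) := by
  classical
  by_contra hcon
  push Not at hcon
  have key : ∀ n, n ≤ q → ∃ y : ∀ i, V i, (∀ j, Dsc D Kd j t (x j) (t + n * T1) (y j)) ∧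
      n + 1 ≤ (UU S D Kd g i (x i) t y (t + n)).ncard := by
    intro n
    induction n with
    | zero =>
      intro _
      refine ⟨x, fun j => dsc_wait _ (by omega), ?_⟩
      have hne : g x ∈ UU S D Kd g i (x i) t x (t + 0) := by
        refine ⟨x i, dsc_wait _ (by omega), ?_, ?_⟩
        · rw [Function.update_eq_self]; exact hd
        · rw [Function.update_eq_self]
      have : 0 < (UU S D Kd g i (x i) t x (t + 0)).ncard :=
        (Set.ncard_pos (Set.toFinite _)).mpr ⟨_, hne⟩
      omega
    | succ n ih =>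
      intro hn
      obtain ⟨y, hy, hcard⟩ := ih (by omega)
      have hnT : n * T1 + T1 ≤ (q + 1) * T1 := by
        have : (n + 1) * T1 ≤ (q + 1) * T1 := Nat.mul_le_mul_right _ (by omega)
        linarith [this, (by ring : (n + 1) * T1 = n * T1 + T1)]
      have hnn : n ≤ n * T1 := Nat.le_mul_of_pos_right n hT1
      have hne : (UU S D Kd g i (x i) t y (t + n)).Nonempty := by
        rw [← Set.ncard_pos (Set.toFinite _)]
        omega
      obtain ⟨y', hy', hnot⟩ := hcon n y (by omega) hy hne
      have hyD : ∀ j, y j ∈ D j (t + n * T1) := fun j => dsc_mem H (hx j) (hy j) (by omega)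
      -- replace the coordinate `i` of `y'` by a harmless one
      refine ⟨Function.update y' i (x i), ?_, ?_⟩
      · intro j
        have e : t + (n + 1) * T1 = t + n * T1 + T1 := by ring
        rw [e]
        by_cases hj : j = i
        · subst hj
          rw [Function.update_self]
          exact dsc_wait _ (by omega)
        · rw [Function.update_of_ne hj]
          exact dsc_trans (hy j) (hy' j hj)
      · have hsame : UU S D Kd g i (x i) t (Function.update y' i (x i)) (t + (n + 1)) =
            UU S D Kd g i (x i) t y' (t + n + 1) := by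
          unfold UU
          simp only [Function.update_idem]
          rfl
        rw [hsame]
        have hsub : UU S D Kd g i (x i) t y (t + n) ⊆ UU S D Kd g i (x i) t y' (t + n + 1) := by
          rintro u ⟨b, hb, hbd, hbu⟩
          obtain ⟨h1, h2⟩ := ctx_mono H h0 (t2 := t + n) (by omega) (by omega)
            (dsc_mem H (hx i) hb (by omega)) hyD hbd hy'
          exact ⟨b, hb.stay, h2, h1.trans hbu⟩
        have hss : UU S D Kd g i (x i) t y (t + n) ⊂ UU S D Kd g i (x i) t y' (t + n + 1) :=
          ⟨hsub, hnot⟩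
        have := Set.ncard_lt_ncard hss (Set.toFinite _)
        omega
  obtain ⟨y, -, hcard⟩ := key q le_rfl
  have h1 : (UU S D Kd g i (x i) t y (t + q)).ncard ≤ Nat.card (ZMod q) :=
    Set.ncard_le_card _
  rw [Nat.card_zmod] at h1
  omega

/-- One step: the set `KK` grows. -/
lemma KK_step [NeZero q] (H : Dyn q S V L D Kd g) (h0 : (0 : ZMod q) ∉ S) (T' : ℕ) {t : ℕ}
    {x : ∀ i, V i} (hx : ∀ j, x j ∈ D j t) (hL : t + (q + 1) * (2 * T' + 1) < L) :
    ∃ (t0 : ℕ) (x0 : ∀ i, V i), t0 + T' ≤ t + (q + 1) * (2 * T' + 1) ∧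
      (∀ j, x0 j ∈ D j t0) ∧
      KK S D Kd g x t (t + (q + 1) * (2 * T' + 1)) ⊂ KK S D Kd g x0 t0 (t0 + T') := by
  classical
  obtain ⟨i, hd⟩ := H.dic t (by omega) x hx
  obtain ⟨n, y, hnq, hy, hne, hmax⟩ := UU_max H h0 (T1 := 2 * T' + 1) (by omega) hL hx hd
  set T1 := 2 * T' + 1 with hT1
  have hnT : n * T1 + T1 ≤ (q + 1) * T1 := by
    have : (n + 1) * T1 ≤ (q + 1) * T1 := Nat.mul_le_mul_right _ (by omega)
    linarith [this, (by ring : (n + 1) * T1 = n * T1 + T1)]
  have hnn : n ≤ n * T1 := Nat.le_mul_of_pos_right n (by omega)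
  set t1 := t + n * T1 with ht1
  set t2 := t + n with ht2
  have hyD : ∀ j, y j ∈ D j t1 := fun j => dsc_mem H (hx j) (hy j) (by omega)
  set U : Finset (ZMod q) := (Set.toFinite (UU S D Kd g i (x i) t y t2)).toFinset with hU
  have hmemU : ∀ u, u ∈ U ↔ u ∈ UU S D Kd g i (x i) t y t2 := fun u => by
    rw [hU, Set.Finite.mem_toFinset]
  have hch : ∀ u : ZMod q, ∃ b : V i, u ∈ U → (Dsc D Kd i t (x i) t2 b ∧
      Dic S Kd g (Function.update y i b) i ∧ g (Function.update y i b) = u) := by
    intro u
    by_cases hu : u ∈ U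
    · obtain ⟨b, hb⟩ := (hmemU u).mp hu
      exact ⟨b, fun _ => hb⟩
    · exact ⟨x i, fun h => absurd h hu⟩
  choose b hb using hch
  have hbD : ∀ u ∈ U, b u ∈ D i t2 := fun u hu => dsc_mem H (hx i) (hb u hu).1 (by omega)
  have hUne : U.Nonempty := by
    obtain ⟨u, hu⟩ := hne
    exact ⟨u, (hmemU u).mpr hu⟩
  obtain ⟨v, hv, A, hAU, ⟨u0, hu0⟩, hAk, hAz⟩ := H.lp i t2 t1 (by omega) (by omega) y hyD U b
    hUne (fun u hu => ⟨hbD u hu, by convert (hb u hu).2.2⟩)
  -- at all contexts the points `b u` are dictated by `i` with value `u`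
  have hbu : ∀ u ∈ U, ∀ y' : ∀ i, V i, (∀ j, j ≠ i → Dsc D Kd j t1 (y j) (t1 + T1) (y' j)) →
      g (Function.update y' i (b u)) = u ∧ Dic S Kd g (Function.update y' i (b u)) i := by
    intro u hu y' hy'
    obtain ⟨h1, h2⟩ := ctx_mono H h0 (t2 := t2) (by omega) (by omega) (hbD u hu) hyD
      (hb u hu).2.1 hy'
    exact ⟨h1.trans (hb u hu).2.2, h2⟩
  -- hence the child `v` has values in `u + S`
  have hvS : ∀ u ∈ A, ∀ y' : ∀ i, V i, (∀ j, j ≠ i → Dsc D Kd j t1 (y j) (t1 + T1) (y' j)) →
      g (Function.update y' i v) - u ∈ S := by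
    intro u hu y' hy'
    obtain ⟨h1, h2⟩ := hbu u (hAU hu) y' hy'
    have h3 := h2.2 (Function.update y' i v) (by
      rw [Function.update_self, Function.update_self]; exact hAk u hu) (by
      intro l
      by_cases hl : l = i
      · subst hl
        right
        rw [Function.update_self, Function.update_self]
        exact hAk u hu
      · left
        rw [Function.update_of_ne hl, Function.update_of_ne hl])
    rwa [h1] at h3
  -- `i` is never the dictator at `v`
  have hno : ∀ y' : ∀ i, V i, (∀ j, j ≠ i → Dsc D Kd j t1 (y j) (t1 + T1) (y' j)) →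
      ¬ Dic S Kd g (Function.update y' i v) i := by
    intro y' hy' hdic
    have hz : g (Function.update y' i v) ∈ U := by
      rw [hmemU]
      apply hmax y' hy'
      refine ⟨v, ?_, hdic, rfl⟩
      exact (hb u0 (hAU hu0)).1.move (hAk u0 hu0) hv
    obtain ⟨u, hu, hzu⟩ := hAz _ hz
    exact hzu (hvS u hu y' hy')
  have hvD : v ∈ D i (t1 + 1) := D_mono H (by omega) (by omega) hv
  have hC := lemC H h0 (t0 := t1 + 1) hvD hyD (by omega : t1 + T1 < L) hno T' (by omega)
    (by omega)
  refine ⟨t1 + 1, Function.update y i v, by omega, ?_, ?_, ?_⟩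
  · intro j
    by_cases hj : j = i
    · subst hj; rw [Function.update_self]; exact hvD
    · rw [Function.update_of_ne hj]; exact D_mono H (by omega) (by omega) (hyD j)
  · -- inclusion
    intro κ hκ x' hx'
    apply hκ
    intro j
    have h1 := hx' j
    by_cases hj : j = i
    · subst hj
      rw [Function.update_self] at h1
      have h2 : Dsc D Kd j t (x j) (t2 + 1) v :=
        (hb u0 (hAU hu0)).1.move (hAk u0 hu0) hv
      have h3 : Dsc D Kd j t (x j) (t1 + 1) v := dsc_wait_right h2 (by omega)
      exact dsc_wait_right (dsc_trans h3 h1) (by omega)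
    · rw [Function.update_of_ne hj] at h1
      have h3 : Dsc D Kd j t (x j) (t1 + 1) (y j) := (hy j).stay
      exact dsc_wait_right (dsc_trans h3 h1) (by omega)
  · -- the new element
    intro hsub
    have hnew : u0 ∈ KK S D Kd g (Function.update y i v) (t1 + 1) (t1 + 1 + T') := by
      intro x' hx'
      have hv'' : Dsc D Kd i (t1 + 1) v (t1 + 1 + T') (x' i) := by
        have := hx' i
        rwa [Function.update_self] at this
      have hy'' : ∀ j, j ≠ i → Dsc D Kd j t1 (y j) (t1 + (T1 - T')) (x' j) := by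
        intro j hj
        have := hx' j
        rw [Function.update_of_ne hj] at this
        exact dsc_wait_right (dsc_wait_left this (by omega)) (by omega)
      obtain ⟨-, h2⟩ := hC (x' i) hv'' x' hy''
      rw [Function.update_eq_self] at h2
      rw [h2]
      exact hvS u0 hu0 x' (fun j hj => dsc_wait_right (hy'' j hj) (by omega))
    have hold := hsub hnew
    have h1 := hold (Function.update y i (b u0)) (by
      intro j
      by_cases hj : j = i
      · subst hj
        rw [Function.update_self]
        exact dsc_wait_right (hb u0 (hAU hu0)).1 (by omega)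
      · rw [Function.update_of_ne hj]
        exact dsc_wait_right (hy j) (by omega))
    rw [(hb u0 (hAU hu0)).2.2, sub_self] at h1
    exact h0 h1

/-- the time needed for `m` steps -/
def TT (q : ℕ) : ℕ → ℕ
  | 0 => 0
  | m + 1 => (q + 1) * (2 * TT q m + 1)

end grow

theorem dyn_false (q : ℕ) [NeZero q] (S : Set (ZMod q)) (h0 : (0 : ZMod q) ∉ S) :
    ∃ L : ℕ, ∀ (ι : Type) [Finite ι] [Nonempty ι] (V : ι → Type) (D : ∀ i, ℕ → Set (V i))
      (Kd : ∀ i, V i → V i → Prop) (g : (∀ i, V i) → ZMod q), ¬ Dyn q S V L D Kd g := by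
  refine ⟨TT q (q + 1) + 1, ?_⟩
  intro ι _ _ V D Kd g H
  have key : ∀ m, ∀ (t : ℕ) (x : ∀ i, V i), (∀ j, x j ∈ D j t) → t + TT q m < TT q (q + 1) + 1 →
      m + (KK S D Kd g x t (t + TT q m)).ncard ≤ q := by
    intro m
    induction m with
    | zero =>
      intro t x hx hL
      have h1 : (KK S D Kd g x t (t + TT q 0)).ncard ≤ Nat.card (ZMod q) := Set.ncard_le_card _
      rw [Nat.card_zmod] at h1
      omega
    | succ m ih =>
      intro t x hx hL
      obtain ⟨t0, x0, h1, h2, h3⟩ := KK_step H h0 (TT q m) hx hL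
      have h4 := ih t0 x0 h2 (by
        have : t + TT q (m + 1) = t + (q + 1) * (2 * TT q m + 1) := rfl
        omega)
      have h5 := Set.ncard_lt_ncard h3 (Set.toFinite _)
      have h6 : (KK S D Kd g x t (t + TT q (m + 1))).ncard =
          (KK S D Kd g x t (t + (q + 1) * (2 * TT q m + 1))).ncard := rfl
      omega
  have hst : ∀ i, ∃ v, v ∈ D i 0 := H.start
  choose x hx using hst
  have := key (q + 1) 0 x hx (by omega)
  omega

end CodegDens
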