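import Pool.Agent.Lib.MP_81e58e_co.LabDefs
import Pool.Agent.Lib.MP_81e58e_co.LGap

/-!
# The linear programming step (problem MP_81e58e_co, module LSource)
-/

namespace CodegDens

open Finset

section basics

variable {k : ℕ} {V : Type} {E : Set (Multiset V)} {a : ℝ} {L : ℕ} {Y : ℕ → Set V}

theorem ls_mono (hY : LabChain k E a L Y) {s t : ℕ} (hst : s ≤ t) (ht : t ≤ L) : Y s ⊆ Y t := by
  induction t, hst using Nat.le_induction with
  | base => exact fun _ h => h
  | succ n hn ih => exact (ih (by omega)).trans (hY.mono n (by omega))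

theorem ls_single (hY : LabChain k E a L Y) (ha : 0 ≤ a) {t : ℕ} (ht : t < L) (s : Multiset V)
    (hs : s.card + 1 = k) (hs' : ∀ x ∈ s, x ∈ Y t) : ∃ v ∈ Y (t + 1), v ::ₘ s ∈ E := by
  obtain ⟨v, hv, h⟩ := hY.rich t ht Unit (fun _ => s) (fun _ => 1) (fun _ => ⟨hs, hs'⟩)
    (fun _ => zero_le_one) (by simp)
  refine ⟨v, hv, ?_⟩
  by_contra hno
  rw [Finset.sum_eq_zero (fun j _ => if_neg hno)] at h
  simp at h
  linarith

theorem ls_kid_exists (hY : LabChain k E a L Y) (hk : 1 ≤ k) (ha : 0 ≤ a) {t : ℕ} (ht : t < L)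
    {w : V} (hw : w ∈ Y t) : ∃ v ∈ Y (t + 1), Kid k E (Y L) w v := by
  obtain ⟨v, hv, h⟩ := ls_single hY ha ht (Multiset.replicate (k - 1) w)
    (by rw [Multiset.card_replicate]; omega)
    (fun x hx => by rw [Multiset.eq_of_mem_replicate hx]; exact hw)
  exact ⟨v, hv, ls_mono hY ht.le (le_refl L) hw, ls_mono hY ht (le_refl L) hv, h⟩

theorem ls_kid_mono (hY : LabChain k E a L Y) {t : ℕ} (ht : t ≤ L) {w v : V}
    (h : Kid k E (Y t) w v) : Kid k E (Y L) w v :=
  ⟨ls_mono hY ht (le_refl L) h.1, ls_mono hY ht (le_refl L) h.2.1, h.2.2⟩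

end basics

theorem ls_zero_notMem {q p : ℕ} (hpq : p < q) : (0 : ZMod q) ∉ Spos q p := by
  rintro ⟨j, hj1, hj2, h⟩
  have h1 : ((j : ℕ) : ZMod q) = 0 := h.symm
  rw [ZMod.natCast_eq_zero_iff] at h1
  exact absurd (Nat.le_of_dvd (by omega) h1) (by omega)

theorem ls_asymm {q p : ℕ} (hpq : 2 * p < q) {u v : ZMod q} (h : u - v ∈ Spos q p) :
    v - u ∉ Spos q p := by
  rintro ⟨j, hj1, hj2, h1⟩
  obtain ⟨j', hj1', hj2', h2⟩ := h
  have h3 : (((j + j') : ℕ) : ZMod q) = 0 := by
    push_cast
    rw [← h1, ← h2]
    ring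
  rw [ZMod.natCast_eq_zero_iff] at h3
  exact absurd (Nat.le_of_dvd (by omega) h3) (by omega)

open Classical in
theorem ls_prod {k : ℕ} {ι : Type} {V : ι → Type} {E : ∀ i, Set (Multiset (V i))}
    {Y : ∀ i, Set (V i)} {C : Type} {f : (∀ i, V i) → C} {P : Set (Multiset C)}
    (hf : LabHomOn k E Y f P) (i : ι) (y y' : ∀ i, V i) (v : V i) (m : Multiset (V i))
    (hm : m.card + 1 = k) (hadj : v ::ₘ m ∈ E i) (hv : v ∈ Y i) (hm' : ∀ x ∈ m, x ∈ Y i)
    (hy : ∀ j, Kid k (E j) (Y j) (y j) (y' j)) :
    f (Function.update y' i v) ::ₘ m.map (fun x => f (Function.update y i x)) ∈ P := by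
  have h := hf (Function.update y' i v ::ₘ m.map (fun x => Function.update y i x))
    (by rw [Multiset.card_cons, Multiset.card_map]; exact hm) ?_ ?_
  · rw [Multiset.map_cons, Multiset.map_map] at h
    exact h
  · intro j
    rw [Multiset.map_cons, Multiset.map_map]
    by_cases hj : j = i
    · subst hj
      simp only [Function.update_self, Function.comp_def, Multiset.map_id']
      exact hadj
    · simp only [Function.update_of_ne hj, Function.comp_def]
      rw [Multiset.map_const', show m.card = k - 1 by omega]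
      exact (hy j).2.2
  · intro x hx j
    rw [Multiset.mem_cons] at hx
    rcases hx with rfl | hx
    · by_cases hj : j = i
      · subst hj
        rw [Function.update_self]
        exact hv
      · rw [Function.update_of_ne hj]
        exact (hy j).2.1
    · rw [Multiset.mem_map] at hx
      obtain ⟨z, hz, rfl⟩ := hx
      by_cases hj : j = i
      · subst hj
        rw [Function.update_self]
        exact hm' z hz
      · rw [Function.update_of_ne hj]
        exact (hy j).1

/-- A multiset of the pattern without the label. -/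
theorem ls_state_case {k q p : ℕ} {c : ZMod q} {m : Multiset (ZMod q)}
    (h : some c ::ₘ m.map some ∈ CirPat k q p) : ∃ u v : ZMod q, v - u ∈ Spos q p ∧
      c ::ₘ m = v ::ₘ Multiset.replicate (k - 1) u := by
  obtain ⟨-, h⟩ := h
  rcases h with ⟨u, v, huv, he⟩ | ⟨hn, -⟩
  · refine ⟨u, v, huv, ?_⟩
    have h1 : (c ::ₘ m).map some = (v ::ₘ Multiset.replicate (k - 1) u).map some := by
      rw [Multiset.map_cons, Multiset.map_cons, Multiset.map_replicate]
      exact he
    exact Multiset.map_injective (Option.some_injective _) h1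
  · exfalso
    rw [Multiset.mem_cons, Multiset.mem_map] at hn
    rcases hn with h1 | ⟨a, _, h1⟩
    · exact absurd h1 (by simp)
    · exact absurd h1 (by simp)

theorem ls_mixed {k q p : ℕ} (hk : 5 ≤ k ∨ (k = 4 ∧ 2 * p < q)) {u1 u2 : ZMod q} (hne : u1 ≠ u2)
    (h4 : k = 4 → u1 - u2 ∉ Spos q p) (c : ZMod q) :
    some c ::ₘ (Multiset.replicate (k - 3) u1 + {u2, u2}).map some ∉ CirPat k q p := by
  intro h
  obtain ⟨u, v, huv, he⟩ := ls_state_case h
  have hc : ∀ z : ZMod q, z ≠ u → (c ::ₘ (Multiset.replicate (k - 3) u1 + {u2, u2})).count z ≤ 1 := by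
    intro z hz
    rw [he, Multiset.count_cons, Multiset.count_replicate, if_neg (Ne.symm hz)]
    split_ifs <;> omega
  have h2 : u2 = u := by
    by_contra hz
    have h3 := hc u2 hz
    rw [Multiset.count_cons, Multiset.count_add] at h3
    simp at h3
    split_ifs at h3 <;> omega
  subst h2
  rcases hk with hk | ⟨hk, -⟩
  · have h3 := hc u1 hne
    rw [Multiset.count_cons, Multiset.count_add, Multiset.count_replicate_self] at h3
    omega
  · apply h4 hk
    have h5 : u1 ∈ v ::ₘ Multiset.replicate (k - 1) u2 := by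
      rw [← he, hk]
      simp
    rw [Multiset.mem_cons] at h5
    rcases h5 with h5 | h5
    · rw [h5]
      exact huv
    · exact absurd (Multiset.eq_of_mem_replicate h5) hne

theorem ls_none {k q p : ℕ} (u : ZMod q) :
    none ::ₘ Multiset.replicate (k - 1) (some u) ∉ CirPat k q p := by
  rintro ⟨-, ⟨u', v', _, he⟩ | ⟨_, _, h⟩⟩
  · have h1 : (none : Option (ZMod q)) ∈ some v' ::ₘ Multiset.replicate (k - 1) (some u') := by
      rw [← he]
      exact Multiset.mem_cons_self _ _
    rw [Multiset.mem_cons] at h1
    rcases h1 with h1 | h1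
    · exact absurd h1 (by simp)
    · exact absurd (Multiset.eq_of_mem_replicate h1) (by simp)
  · exact h u rfl

/-- The linear programming step. -/
theorem cir_lp {k q p L : ℕ} [NeZero q] (hk : 5 ≤ k ∨ (k = 4 ∧ 2 * p < q)) (hp : 1 ≤ p)
    (hpq : p < q) {ι : Type} {V : ι → Type} {E : ∀ i, Set (Multiset (V i))}
    {Y : ∀ i, ℕ → Set (V i)} {f : (∀ i, V i) → Option (ZMod q)}
    (hY : ∀ i, LabChain k (E i) ((p : ℝ) / (p + q)) L (Y i))
    (hf : LabHomOn k E (fun i => Y i L) f (CirPat k q p)) (g : (∀ i, V i) → ZMod q)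
    (hg : ∀ x : ∀ i, V i, (∀ i, ∃ w, Kid k (E i) (Y i L) w (x i)) → f x = some (g x))
    (i : ι) (t t' : ℕ) (ht : t < L) (ht' : t' < L) (y : ∀ i, V i)
    (hy : ∀ j, ∃ w, Kid k (E j) (Y j t') w (y j)) (U : Finset (ZMod q)) (b : ZMod q → V i)
    (hU : U.Nonempty)
    (hb : ∀ u ∈ U, (∃ w, Kid k (E i) (Y i t) w (b u)) ∧
      g (open Classical in Function.update y i (b u)) = u) :
    ∃ v ∈ Y i (t + 1), ∃ A ⊆ U, A.Nonempty ∧ (∀ u ∈ A, Kid k (E i) (Y i L) (b u) v) ∧
      ∀ z ∈ U, ∃ u ∈ A, z - u ∉ Spos q p := by
  classical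
  have hk4 : 4 ≤ k := by omega
  have ha : (0 : ℝ) ≤ (p : ℝ) / (p + q) := by positivity
  have hbY : ∀ u ∈ U, b u ∈ Y i t := fun u hu => by
    obtain ⟨w, hw⟩ := (hb u hu).1
    exact hw.2.1
  have hbL : ∀ u ∈ U, b u ∈ Y i L := fun u hu => ls_mono (hY i) ht.le le_rfl (hbY u hu)
  rcases Nat.lt_or_ge 1 U.card with hcard | hcard
  · -- at least two elements
    obtain ⟨u1, hu1, u2, hu2, hne, h4⟩ : ∃ u1 ∈ U, ∃ u2 ∈ U, u1 ≠ u2 ∧
        (k = 4 → u1 - u2 ∉ Spos q p) := by
      obtain ⟨x1, hx1, x2, hx2, hx⟩ := Finset.one_lt_card.mp hcard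
      by_cases h : x1 - x2 ∈ Spos q p
      · refine ⟨x2, hx2, x1, hx1, hx.symm, fun h4 => ?_⟩
        rcases hk with hk | ⟨-, hk⟩
        · omega
        · exact ls_asymm hk h
      · exact ⟨x1, hx1, x2, hx2, hx, fun _ => h⟩
    obtain ⟨w, hw, hwz⟩ := gap_weights hpq U hU
    -- the family of sources
    set src : Option {u // u ∈ U} → Multiset (V i) := fun o => match o with
      | none => (Multiset.replicate (k - 3) (b u1) + {b u2, b u2})
      | some u => Multiset.replicate (k - 1) (b u.1) with hsrc
    set wt : Option {u // u ∈ U} → ℝ := fun o => match o with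
      | none => (p : ℝ) / (p + q)
      | some u => (w u.1 : ℝ) / (p + q) with hwt
    have hq : (0 : ℝ) < p + q := by
      have : (1 : ℝ) ≤ p := by exact_mod_cast hp
      positivity
    have hsumw : ∑ u : {u // u ∈ U}, (w u.1 : ℝ) = q := by
      rw [Finset.sum_coe_sort U (fun u => (w u : ℝ))]
      exact_mod_cast hw
    have htot : ∑ j, wt j = 1 := by
      rw [Fintype.sum_option]
      simp only [hwt]
      rw [← Finset.sum_div, hsumw]
      field_simp
    obtain ⟨v, hv, hmass⟩ := (hY i).rich t ht (Option {u // u ∈ U}) src wt (by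
      intro j
      rcases j with _ | u
      · refine ⟨?_, ?_⟩
        · simp only [hsrc, Multiset.card_add, Multiset.card_replicate, Multiset.insert_eq_cons,
            Multiset.card_cons, Multiset.card_singleton]
          omega
        · intro x hx
          simp only [hsrc, Multiset.mem_add, Multiset.insert_eq_cons, Multiset.mem_cons,
            Multiset.mem_singleton] at hx
          rcases hx with hx | hx | hx
          · rw [Multiset.eq_of_mem_replicate hx]
            exact hbY u1 hu1
          · rw [hx]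
            exact hbY u2 hu2
          · rw [hx]
            exact hbY u2 hu2
      · refine ⟨?_, ?_⟩
        · simp only [hsrc, Multiset.card_replicate]
          omega
        · intro x hx
          rw [Multiset.eq_of_mem_replicate hx]
          exact hbY u.1 u.2) (by
      intro j
      rcases j with _ | u
      · exact ha
      · simp only [hwt]
        positivity) (by rw [htot]; norm_num)
    rw [htot, mul_one, Fintype.sum_option] at hmass
    have hvL : v ∈ Y i L := ls_mono (hY i) ht le_rfl hv
    -- children of y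
    have hyk : ∀ j, ∃ v', Kid k (E j) (Y j L) (y j) v' := by
      intro j
      obtain ⟨w', hw'⟩ := hy j
      obtain ⟨v', -, hv'⟩ := ls_kid_exists (hY j) (by omega) ha ht' hw'.2.1
      exact ⟨v', hv'⟩
    choose y' hy' using hyk
    have hfb : ∀ u ∈ U, f (Function.update y i (b u)) = some u := by
      intro u hu
      rw [hg (Function.update y i (b u)), (hb u hu).2]
      intro j
      by_cases hj : j = i
      · subst hj
        rw [Function.update_self]
        obtain ⟨w', hw'⟩ := (hb u hu).1
        exact ⟨w', ls_kid_mono (hY j) ht.le hw'⟩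
      · rw [Function.update_of_ne hj]
        obtain ⟨w', hw'⟩ := hy j
        exact ⟨w', ls_kid_mono (hY j) ht'.le hw'⟩
    have hhom : ∀ u ∈ U, v ::ₘ Multiset.replicate (k - 1) (b u) ∈ E i →
        f (Function.update y' i v) ≠ none := by
      intro u hu hadj hnone
      have h := ls_prod hf i y y' v (Multiset.replicate (k - 1) (b u))
        (by rw [Multiset.card_replicate]; omega) hadj hvL
        (fun x hx => by rw [Multiset.eq_of_mem_replicate hx]; exact hbL u hu) hy'
      rw [Multiset.map_replicate, hfb u hu, hnone] at h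
      exact ls_none u h
    have hmix : v ::ₘ (Multiset.replicate (k - 3) (b u1) + {b u2, b u2}) ∈ E i →
        f (Function.update y' i v) = none := by
      intro hadj
      have h := ls_prod hf i y y' v (Multiset.replicate (k - 3) (b u1) + {b u2, b u2})
        (by
          simp only [Multiset.card_add, Multiset.card_replicate, Multiset.insert_eq_cons,
            Multiset.card_cons, Multiset.card_singleton]
          omega) hadj hvL
        (fun x hx => by
          simp only [Multiset.mem_add, Multiset.insert_eq_cons, Multiset.mem_cons,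
            Multiset.mem_singleton] at hx
          rcases hx with hx | hx | hx
          · rw [Multiset.eq_of_mem_replicate hx]
            exact hbL u1 hu1
          · rw [hx]
            exact hbL u2 hu2
          · rw [hx]
            exact hbL u2 hu2) hy'
      rw [Multiset.map_add, Multiset.map_replicate, hfb u1 hu1] at h
      simp only [Multiset.insert_eq_cons, Multiset.map_cons, Multiset.map_singleton,
        hfb u2 hu2] at h
      rcases hc : f (Function.update y' i v) with _ | c
      · rfl
      · exfalso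
        rw [hc] at h
        apply ls_mixed hk hne h4 c
        rw [Multiset.map_add, Multiset.map_replicate]
        simpa using h
    set A : Finset (ZMod q) := U.filter (fun u => v ::ₘ Multiset.replicate (k - 1) (b u) ∈ E i)
      with hA
    have hsumA : ∑ u : {u // u ∈ U}, (if v ::ₘ src (some u) ∈ E i then wt (some u) else 0) =
        (∑ u ∈ A, (w u : ℝ)) / (p + q) := by
      simp only [hsrc, hwt]
      rw [Finset.sum_coe_sort U (fun u =>
        if v ::ₘ Multiset.replicate (k - 1) (b u) ∈ E i then (w u : ℝ) / (p + q) else 0),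
        ← Finset.sum_filter, Finset.sum_div]
    have hAw : p < ∑ u ∈ A, w u := by
      by_cases hm : v ::ₘ (Multiset.replicate (k - 3) (b u1) + {b u2, b u2}) ∈ E i
      · exfalso
        have hn := hmix hm
        have h0 : A = ∅ := by
          rw [hA, Finset.filter_eq_empty_iff]
          intro u hu hadj
          exact hhom u hu hadj hn
        have h1 : ∑ u : {u // u ∈ U}, (if v ::ₘ src (some u) ∈ E i then wt (some u) else 0) = 0 := by
          rw [hsumA, h0]
          simp
        have h2 : (if v ::ₘ src none ∈ E i then wt none else 0) = (p : ℝ) / (p + q) := if_pos hm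
        linarith
      · have h1 : (if v ::ₘ src none ∈ E i then wt none else 0) = 0 := if_neg hm
        rw [h1, zero_add, hsumA] at hmass
        have h2 := (div_lt_div_iff_of_pos_right hq).mp hmass
        exact_mod_cast h2
    refine ⟨v, hv, A, Finset.filter_subset _ _, ?_, ?_, ?_⟩
    · rw [Finset.nonempty_iff_ne_empty]
      intro h0
      rw [h0] at hAw
      simp at hAw
    · intro u hu
      rw [hA, Finset.mem_filter] at hu
      exact ⟨hbL u hu.1, hvL, hu.2⟩
    · intro z hz
      by_contra hno
      push Not at hno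
      have h1 : ∑ u ∈ A, w u ≤ ∑ u ∈ U, (if z - u ∈ Spos q p then w u else 0) := by
        rw [← Finset.sum_filter]
        refine Finset.sum_le_sum_of_subset ?_
        intro u hu
        rw [Finset.mem_filter]
        exact ⟨(Finset.mem_filter.mp hu).1, hno u hu⟩
      have h2 := hwz z hz
      omega
  · -- one element
    have hone : U.card = 1 := le_antisymm hcard hU.card_pos
    obtain ⟨u, rfl⟩ := Finset.card_eq_one.mp hone
    have hu : u ∈ ({u} : Finset (ZMod q)) := Finset.mem_singleton_self u
    obtain ⟨v, hv, hkid⟩ := ls_kid_exists (hY i) (by omega) ha ht (hbY u hu)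
    refine ⟨v, hv, {u}, Finset.Subset.refl _, ⟨u, hu⟩, ?_, ?_⟩
    · intro u' hu'
      rw [Finset.mem_singleton] at hu'
      subst hu'
      exact hkid
    · intro z hz
      rw [Finset.mem_singleton] at hz
      subst hz
      refine ⟨z, hu, ?_⟩
      rw [sub_self]
      exact ls_zero_notMem hpq

end CodegDens
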