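import Pool.Agent.Lib.MP_81e58e_co.LIrrCore
import Pool.Agent.Lib.MP_81e58e_co.LDic
import Pool.Agent.Lib.MP_81e58e_co.LSource
import Pool.Agent.Lib.MP_81e58e_co.LGrow

/-!
# Irreducibility of the circle patterns (problem MP_81e58e_co)
-/

namespace CodegDens

theorem irrLab_cir {k q p : ℕ} (hk : 5 ≤ k ∨ (k = 4 ∧ 2 * p < q)) (hp : 1 ≤ p)
    (hpq : p < q) : IrrLab k (CirPat k q p) ((p : ℝ) / (p + q)) := by
  have : NeZero q := ⟨by omega⟩
  have hk3 : 3 ≤ k := by omega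
  refine irrLab_cir_of hk3 (dyn_false q (Spos q p) (zero_notMem_Spos hpq)) ?_ ?_ ?_
  · intro ι V E Y f hf x hx
    exact cir_state hk3 hf x hx
  · intro ι _ _ V E Y f hf g hg x hx hx'
    exact cir_dic hk hp hpq hf g hg x hx hx'
  · intro L ι V E Y f hY hf g hg i t t' ht ht' y hy U b hU hb
    exact cir_lp hk hp hpq hY hf g hg i t t' ht ht' y hy U b hU hb

end CodegDens
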