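import Pool.Agent.Lib.MP_81e58e_co.LabDefs

/-!
# Irreducibility of the circle patterns, assembly with the modules as hypotheses
(problem MP_81e58e_co)
-/

namespace CodegDens

open Finset

theorem zero_notMem_Spos {q p : ℕ} (hpq : p < q) : (0 : ZMod q) ∉ Spos q p := by
  rintro ⟨j, hj1, hj2, hj⟩
  have h1 : ((j : ℕ) : ZMod q) = 0 := hj.symm
  rw [ZMod.natCast_eq_zero_iff] at h1
  have := Nat.le_of_dvd (by omega) h1
  omega

theorem LabChain.mono_le {k : ℕ} {V : Type} {E : Set (Multiset V)} {a : ℝ} {L : ℕ}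
    {Y : ℕ → Set V} (h : LabChain k E a L Y) {s t : ℕ} (hst : s ≤ t) (ht : t ≤ L) :
    Y s ⊆ Y t := by
  induction t, hst using Nat.le_induction with
  | base => exact subset_rfl
  | succ t _ ih => exact (ih (by omega)).trans (h.mono t (by omega))

/-- Every label has a child one level higher. -/
theorem LabChain.exists_child {k : ℕ} (hk : 1 ≤ k) {V : Type} {E : Set (Multiset V)} {a : ℝ}
    (ha : 0 ≤ a) {L : ℕ} {Y : ℕ → Set V} (h : LabChain k E a L Y) {t : ℕ} (ht : t < L) {w : V}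
    (hw : w ∈ Y t) : ∃ v, Kid k E (Y (t + 1)) w v := by
  classical
  obtain ⟨v, hv, hlt⟩ := h.rich t ht Unit (fun _ => Multiset.replicate (k - 1) w) (fun _ => 1)
    (fun _ => ⟨by rw [Multiset.card_replicate]; omega, fun x hx => by
      rw [Multiset.eq_of_mem_replicate hx]; exact hw⟩) (fun _ => zero_le_one) (by simp)
  refine ⟨v, h.mono t ht hw, hv, ?_⟩
  by_contra hcon
  simp only [Finset.univ_unique, Finset.sum_singleton, mul_one] at hlt
  rw [if_neg hcon] at hlt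
  linarith

theorem irrLab_cir_of {k q p : ℕ} (hk : 3 ≤ k)
    (hdyn : ∃ L : ℕ, ∀ (ι : Type) [Finite ι] [Nonempty ι] (V : ι → Type)
      (D : ∀ i, ℕ → Set (V i)) (Kd : ∀ i, V i → V i → Prop) (g : (∀ i, V i) → ZMod q),
      ¬ Dyn q (Spos q p) V L D Kd g)
    (hstate : ∀ (ι : Type) (V : ι → Type) (E : ∀ i, Set (Multiset (V i)))
      (Y : ∀ i, Set (V i)) (f : (∀ i, V i) → Option (ZMod q)),
      LabHomOn k E Y f (CirPat k q p) → ∀ x : ∀ i, V i,
      (∀ i, ∃ w, Kid k (E i) (Y i) w (x i)) → ∃ u : ZMod q, f x = some u)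
    (hdic : ∀ (ι : Type) [Finite ι] [Nonempty ι] (V : ι → Type)
      (E : ∀ i, Set (Multiset (V i))) (Y : ∀ i, Set (V i)) (f : (∀ i, V i) → Option (ZMod q)),
      LabHomOn k E Y f (CirPat k q p) → ∀ g : (∀ i, V i) → ZMod q,
      (∀ x : ∀ i, V i, (∀ i, ∃ w, Kid k (E i) (Y i) w (x i)) → f x = some (g x)) →
      ∀ x : ∀ i, V i, (∀ i, ∃ w, Kid k (E i) (Y i) w (x i)) →
      (∀ i, ∃ v, Kid k (E i) (Y i) (x i) v) →
      ∃ i, Dic (Spos q p) (fun i => Kid k (E i) (Y i)) g x i)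
    (hlp : ∀ (L : ℕ) (ι : Type) (V : ι → Type) (E : ∀ i, Set (Multiset (V i)))
      (Y : ∀ i, ℕ → Set (V i)) (f : (∀ i, V i) → Option (ZMod q)),
      (∀ i, LabChain k (E i) ((p : ℝ) / (p + q)) L (Y i)) →
      LabHomOn k E (fun i => Y i L) f (CirPat k q p) → ∀ g : (∀ i, V i) → ZMod q,
      (∀ x : ∀ i, V i, (∀ i, ∃ w, Kid k (E i) (Y i L) w (x i)) → f x = some (g x)) →
      ∀ (i : ι) (t t' : ℕ), t < L → t' < L → ∀ y : ∀ i, V i,
      (∀ j, ∃ w, Kid k (E j) (Y j t') w (y j)) → ∀ (U : Finset (ZMod q)) (b : ZMod q → V i),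
      U.Nonempty →
      (∀ u ∈ U, (∃ w, Kid k (E i) (Y i t) w (b u)) ∧
        g (open Classical in Function.update y i (b u)) = u) →
      ∃ v ∈ Y i (t + 1), ∃ A ⊆ U, A.Nonempty ∧ (∀ u ∈ A, Kid k (E i) (Y i L) (b u) v) ∧
        ∀ z ∈ U, ∃ u ∈ A, z - u ∉ Spos q p) :
    IrrLab k (CirPat k q p) ((p : ℝ) / (p + q)) := by
  classical
  obtain ⟨Ld, hdyn⟩ := hdyn
  refine ⟨Ld + 1, fun ι _ _ V E Y hY f hf => ?_⟩
  have ha : (0 : ℝ) ≤ (p : ℝ) / (p + q) := by positivity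
  set g : (∀ i, V i) → ZMod q := fun x => (f x).getD 0 with hg'
  have hg : ∀ x : ∀ i, V i, (∀ i, ∃ w, Kid k (E i) (Y i (Ld + 1)) w (x i)) →
      f x = some (g x) := by
    intro x hx
    obtain ⟨u, hu⟩ := hstate ι V E (fun i => Y i (Ld + 1)) f hf x hx
    simp only [hg', hu, Option.getD_some]
  -- a child at a level is a child at the top
  have hKid : ∀ i s (w v : V i), s ≤ Ld + 1 → Kid k (E i) (Y i s) w v →
      Kid k (E i) (Y i (Ld + 1)) w v := by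
    intro i s w v hs h
    have h1 := (hY i).mono_le hs le_rfl
    exact ⟨h1 h.1, h1 h.2.1, h.2.2⟩
  refine hdyn ι V (fun i t => {v | ∃ w, Kid k (E i) (Y i (t + 1)) w v})
    (fun i => Kid k (E i) (Y i (Ld + 1))) g ⟨?_, ?_, ?_, ?_, ?_⟩
  · intro i
    obtain ⟨w, hw⟩ := (hY i).nonempty
    obtain ⟨v, hv⟩ := (hY i).exists_child (by omega) ha (Nat.succ_pos Ld) hw
    exact ⟨v, w, hv⟩
  · rintro i t ht v ⟨w, hw⟩
    have h1 := (hY i).mono (t + 1) (by omega)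
    exact ⟨w, h1 hw.1, h1 hw.2.1, hw.2.2⟩
  · rintro i t ht w ⟨w', hw'⟩
    obtain ⟨v, hv⟩ := (hY i).exists_child (by omega) ha (show t + 1 < Ld + 1 by omega) hw'.2.1
    exact ⟨v, ⟨w, hv⟩, hKid i _ w v (by omega) hv⟩
  · intro t ht x hx
    refine hdic ι V E (fun i => Y i (Ld + 1)) f hf g hg x ?_ ?_
    · intro i
      obtain ⟨w, hw⟩ := hx i
      exact ⟨w, hKid i _ w _ (by omega) hw⟩
    · intro i
      obtain ⟨w, hw⟩ := hx i
      obtain ⟨v, hv⟩ := (hY i).exists_child (by omega) ha (show t + 1 < Ld + 1 by omega) hw.2.1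
      exact ⟨v, hKid i _ _ v (by omega) hv⟩
  · intro i t t' ht ht' y hy U b hU hb
    obtain ⟨v, hv, A, hAU, hA, hA1, hA2⟩ := hlp (Ld + 1) ι V E Y f hY hf g hg i (t + 1) (t' + 1)
      (by omega) (by omega) y hy U b hU hb
    refine ⟨v, ?_, A, hAU, hA, hA1, hA2⟩
    obtain ⟨u, hu⟩ := hA
    obtain ⟨w, hw⟩ := (hb u (hAU hu)).1
    exact ⟨b u, (hY i).mono (t + 1) (by omega) hw.2.1, hv, (hA1 u hu).2.2⟩

end CodegDens
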