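import Pool.Agent.Lib.MP_81e58e_co.LabDefs
import Pool.Agent.Lib.MP_81e58e_co.ChainLemmas

/-!
# Label reduction: `IrrLab` implies `Irr` (problem MP_81e58e_co)
-/

namespace CodegDens

open Finset

namespace LReduceAux

/-- Two finite families with the same multiset of values differ by a bijection of the index
types. -/
theorem exists_equiv_of_map_eq {α β γ : Type*} [Fintype α] [Fintype β] (f : α → γ) (g : β → γ)
    (h : (univ : Finset α).val.map f = (univ : Finset β).val.map g) :
    ∃ e : α ≃ β, ∀ a, g (e a) = f a := by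
  classical
  have hc : ∀ c : γ, Fintype.card {a // f a = c} = Fintype.card {b // g b = c} := by
    intro c
    have h1 := congrArg (Multiset.count c) h
    rw [Multiset.count_map, Multiset.count_map] at h1
    rw [Fintype.card_subtype, Fintype.card_subtype]
    rw [Finset.card_def, Finset.filter_val, Finset.card_def, Finset.filter_val,
      Multiset.filter_congr (fun x _ => eq_comm (a := f x) (b := c)),
      Multiset.filter_congr (fun x _ => eq_comm (a := g x) (b := c))]
    exact h1
  refine ⟨(Equiv.sigmaFiberEquiv f).symm.trans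
    ((Equiv.sigmaCongrRight fun c => Fintype.equivOfCardEq (hc c)).trans
      (Equiv.sigmaFiberEquiv g)), ?_⟩
  intro a
  simp only [Equiv.trans_apply, Equiv.sigmaCongrRight_apply, Equiv.sigmaFiberEquiv]
  exact (Fintype.equivOfCardEq (hc (f a)) ⟨a, rfl⟩).2

/-- A multiset of card `k` is the multiset of values of a function on `Fin k`. -/
theorem exists_fin_enum {α : Type*} {k : ℕ} (e : Multiset α) (he : e.card = k) :
    ∃ x : Fin k → α, e = (univ : Finset (Fin k)).val.map x := by
  induction e using Quotient.inductionOn with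
  | h l =>
    have hl : l.length = k := by simpa using he
    subst hl
    refine ⟨l.get, ?_⟩
    simp [Fin.univ_val_map]

/-- `v ::ₘ map b` as a family indexed by `Option`. -/
theorem option_map {α : Type*} {m : ℕ} (v : α) (b : Fin m → α) :
    v ::ₘ (univ : Finset (Fin m)).val.map b =
      (univ : Finset (Option (Fin m))).val.map (fun o => o.elim v b) := by
  have h : (univ : Finset (Option (Fin m))).val =
      none ::ₘ (univ : Finset (Fin m)).val.map some := rfl
  rw [h, Multiset.map_cons, Multiset.map_map]
  rfl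

end LReduceAux

open LReduceAux

/-- `irr_of_irrLab` with the two theorems used (`extract` and `prod_ramsey`) as hypotheses. -/
theorem irr_of_irrLab_core {k : ℕ} (hk : 2 ≤ k) {C : Type} [Finite C] (P : Set (Multiset C))
    (a : ℝ)
    (extract : ∀ L : ℕ, ∃ (W : Type) (_ : Finite W) (_ : Nonempty W) (rk : W → ℕ) (n : ℕ),
      1 ≤ n ∧ (∀ w, rk w ≤ L) ∧ ∀ N : ℕ, ∃ M : ℕ,
      ∀ (V : Type) (G : KGraph k V) (X : ℕ → Finset V), Chain G a M L X →
      ∃ (A : W → Set (Fin (k - 1) → W)) (c : W → (ℕ → ℕ) → V),
        LabChain k (respEdges k A) a L (fun t => {w | rk w ≤ t}) ∧ CloneSys G X rk A n N c)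
    (prod_ramsey : ∀ (T : Type) [Finite T] (K : Type) [Finite K] (n m : ℕ),
      ∃ N : ℕ, ∀ f : (T → ℕ → ℕ) → K,
      (∀ s s' : T → ℕ → ℕ, (∀ t i, i < n → s t i = s' t i) → f s = f s') →
      ∃ J : T → ℕ → ℕ, (∀ t, StrictMono (J t)) ∧ (∀ t i, i < m → J t i < N) ∧
        ∀ s s' : T → ℕ → ℕ, (∀ t, StrictMono (s t)) → (∀ t i, i < n → s t i < m) →
          (∀ t, StrictMono (s' t)) → (∀ t i, i < n → s' t i < m) →
          f (fun t i => J t (s t i)) = f (fun t i => J t (s' t i)))
    (h : IrrLab k P a) : Irr k P a := by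
  classical
  obtain ⟨L, hL⟩ := h
  obtain ⟨W, _, _, rk, n, hn, hrk, hN⟩ := extract L
  obtain ⟨N, hR⟩ := prod_ramsey (W → Set (Fin (k - 1) → W))
    (((W → Set (Fin (k - 1) → W)) → W) → C) n ((k - 1) * n)
  obtain ⟨M, hM⟩ := hN N
  refine ⟨M, L, ?_⟩
  intro ι _ _ V G X hX f hf
  choose σ c hlab hcl using fun i => hM (V i) (G i) (X i) (hX i)
  obtain ⟨J, hJm, hJN, hJ⟩ := hR
    (fun s x => f (fun i => c i (x (σ i)) (s (σ i)))) (by
      intro s s' hs
      funext x
      congr 1
      funext i
      exact (hcl i).dep _ _ _ (fun i' hi' => hs _ _ hi'))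
  -- the index type of occurring label types
  let I : Type := {t : W → Set (Fin (k - 1) → W) // ∃ i, σ i = t}
  let d : W := Classical.arbitrary W
  let ext : (I → W) → (W → Set (Fin (k - 1) → W)) → W :=
    fun x t => if ht : ∃ i, σ i = t then x ⟨t, ht⟩ else d
  have hext : ∀ (x : I → W) (i : ι), ext x (σ i) = x ⟨σ i, ⟨i, rfl⟩⟩ := by
    intro x i
    simp only [ext]
    rw [dif_pos ⟨i, rfl⟩]
  let τ : (I → W) → C := fun x => f (fun i => c i (ext x (σ i)) (J (σ i)))
  have hI : Nonempty I := ⟨⟨σ (Classical.arbitrary ι), ⟨_, rfl⟩⟩⟩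
  have hk1 : 1 ≤ k - 1 := by omega
  refine hL I (fun _ => W) (fun t => respEdges k t.1) (fun _ t' => {w | rk w ≤ t'}) ?_ τ ?_
  · rintro ⟨t, i, rfl⟩
    exact hlab i
  · intro e hecard he _
    obtain ⟨x, rfl⟩ := exists_fin_enum e hecard
    -- roles
    have hrole : ∀ t : I, ∃ (v : W) (b : Fin (k - 1) → W) (π : Fin k ≃ Option (Fin (k - 1))),
        b ∈ t.1 v ∧ ∀ r, x r t = (π r).elim v b := by
      intro t
      obtain ⟨v, b, hb, hvb⟩ := he t
      rw [option_map, Multiset.map_map] at hvb
      obtain ⟨π, hπ⟩ := exists_equiv_of_map_eq _ _ hvb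
      exact ⟨v, b, π, hb, fun r => (hπ r).symm⟩
    choose v b π hb hπ using hrole
    -- the reindexings
    let ψ : Option (Fin (k - 1)) → ℕ → ℕ :=
      fun o => o.elim id (fun j i => (k - 1) * i + (j : ℕ))
    have hψm : ∀ o, StrictMono (ψ o) := by
      intro o
      cases o with
      | none => exact strictMono_id
      | some j =>
        intro p q hpq
        have : (k - 1) * p < (k - 1) * q := Nat.mul_lt_mul_of_pos_left hpq (by omega)
        show (k - 1) * p + (j : ℕ) < (k - 1) * q + (j : ℕ)
        omega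
    have hψn : ∀ o i, i < n → ψ o i < (k - 1) * n := by
      intro o i hi
      cases o with
      | none =>
        show i < (k - 1) * n
        calc i < 1 * n := by omega
          _ ≤ (k - 1) * n := Nat.mul_le_mul_right _ hk1
      | some j =>
        show (k - 1) * i + (j : ℕ) < (k - 1) * n
        have h1 : (k - 1) * (i + 1) ≤ (k - 1) * n := Nat.mul_le_mul_left _ hi
        have h2 := j.2
        have h3 : (k - 1) * (i + 1) = (k - 1) * i + (k - 1) := by ring
        omega
    let tt : ι → I := fun i => ⟨σ i, ⟨i, rfl⟩⟩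
    let Q : Fin k → ∀ i, V i :=
      fun r i => c i (x r (tt i)) (fun i' => J (σ i) (ψ (π (tt i) r) i'))
    have hQ : ((univ : Finset (Fin k)).val.map Q).map f ∈ P := by
      apply hf
      · intro i
        obtain ⟨d', hd', hd⟩ := (hcl i).adj (v (tt i)) (b (tt i)) (hb (tt i)) (J (σ i))
          (hJm (σ i)) (fun i' hi' => hJN _ _ hi')
        refine ⟨d', hd', ?_⟩
        rw [hd, option_map (c i (v (tt i)) (J (σ i)))
          (fun j => c i (b (tt i) j) (fun i' => J (σ i) ((k - 1) * i' + (j : ℕ)))),
          ← (Multiset.map_univ_val_equiv (π (tt i))), Multiset.map_map, Multiset.map_map]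
        refine Multiset.map_congr rfl ?_
        intro r _
        simp only [Function.comp_apply, Q]
        rw [hπ (tt i) r]
        cases π (tt i) r <;> rfl
      · intro y hy i
        obtain ⟨r, -, rfl⟩ := Multiset.mem_map.1 hy
        refine (Chain.mono_le (hX i) (hrk _) le_rfl) ((hcl i).mem _ _ ?_ ?_)
        · exact (hJm (σ i)).comp (hψm _)
        · intro i' hi'
          exact hJN _ _ (hψn _ _ hi')
    have hfin : ∀ r, f (Q r) = τ (x r) := by
      intro r
      have h1 := hJ
        (fun t => if ht : ∃ i, σ i = t then ψ (π ⟨t, ht⟩ r) else id) (fun _ => id)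
        (by
          intro t
          by_cases ht : ∃ i, σ i = t
          · simp only [dif_pos ht]; exact hψm _
          · simp only [dif_neg ht]; exact strictMono_id)
        (by
          intro t i hi
          by_cases ht : ∃ i, σ i = t
          · simp only [dif_pos ht]; exact hψn _ _ hi
          · simp only [dif_neg ht]; exact hψn none _ hi)
        (fun _ => strictMono_id) (fun _ i hi => hψn none _ hi)
      have h2 := congrFun h1 (ext (x r))
      simp only at h2
      show f (Q r) = f (fun i => c i (ext (x r) (σ i)) (J (σ i)))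
      have h3 : Q r = fun i => c i (ext (x r) (σ i)) (fun i' => J (σ i)
          ((if ht : ∃ i', σ i' = σ i then ψ (π ⟨σ i, ht⟩ r) else id) i')) := by
        funext i
        rw [hext, dif_pos ⟨i, rfl⟩]
      rw [h3, h2]
      rfl
    have h4 : ((univ : Finset (Fin k)).val.map x).map τ
        = ((univ : Finset (Fin k)).val.map Q).map f := by
      rw [Multiset.map_map, Multiset.map_map]
      exact Multiset.map_congr rfl (fun r _ => (hfin r).symm)
    rw [h4]
    exact hQ

end CodegDens
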