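import Pool.Agent.Lib.MP_81e58e_co.Defs

/-!
# Label chains and circle patterns (problem MP_81e58e_co)

Proof-level definitions of the second part: `LabChain`, `LabHomOn`, `IrrLab` (irreducibility on
the level of labels), `CloneSys` (clones of labels inside a `k`-graph), the circle patterns
`CirPat`, and the abstract dynamics `Dic`, `Dyn`.
-/

namespace CodegDens

open Finset

/-- A label chain of depth `L`: `E` is a set of multisets of labels (the edges), the levels
`Y 0 ⊆ Y 1 ⊆ ... ⊆ Y L` are nonempty sets of labels, and for `t < L` and every finite weighted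
family of `(k-1)`-multisets of labels of `Y t` with positive total weight some label `v` of
`Y (t+1)` is adjacent to more than `a` times the total weight. -/
structure LabChain (k : ℕ) {V : Type} (E : Set (Multiset V)) (a : ℝ) (L : ℕ)
    (Y : ℕ → Set V) : Prop where
  nonempty : (Y 0).Nonempty
  mono : ∀ t, t < L → Y t ⊆ Y (t + 1)
  rich : ∀ t, t < L → ∀ (J : Type) [Fintype J] (s : J → Multiset V) (w : J → ℝ),
    (∀ j, (s j).card + 1 = k ∧ ∀ x ∈ s j, x ∈ Y t) → (∀ j, 0 ≤ w j) → 0 < ∑ j, w j →
    ∃ v ∈ Y (t + 1),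
      a * ∑ j, w j < ∑ j, (open Classical in if v ::ₘ s j ∈ E then w j else 0)

/-- `f` maps every product edge (multiset of `k` points of the box `∏ Y i` all of whose
coordinate multisets are edges) to an edge of the pattern `P`. -/
def LabHomOn (k : ℕ) {ι : Type} {V : ι → Type} (E : ∀ i, Set (Multiset (V i)))
    (Y : ∀ i, Set (V i)) {C : Type} (f : (∀ i, V i) → C) (P : Set (Multiset C)) : Prop :=
  ∀ e : Multiset (∀ i, V i), e.card = k → (∀ i, e.map (fun x => x i) ∈ E i) →
    (∀ x ∈ e, ∀ i, x i ∈ Y i) → e.map f ∈ P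

/-- Irreducibility on the level of labels. -/
def IrrLab (k : ℕ) {C : Type} (P : Set (Multiset C)) (a : ℝ) : Prop :=
  ∃ L : ℕ, ∀ (ι : Type) [Finite ι] [Nonempty ι] (V : ι → Type)
    (E : ∀ i, Set (Multiset (V i))) (Y : ∀ i, ℕ → Set (V i)),
    (∀ i, LabChain k (E i) a L (Y i)) →
    ∀ f : (∀ i, V i) → C, ¬ LabHomOn k E (fun i => Y i L) f P

/-- The set of label edges determined by the (ordered) responses `A`: the label `v` is joined to
the tuple `b` of labels for every `b ∈ A v`. -/
def respEdges (k : ℕ) {W : Type} (A : W → Set (Fin (k - 1) → W)) : Set (Multiset W) :=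
  {e | ∃ v b, b ∈ A v ∧ e = v ::ₘ (Finset.univ : Finset (Fin (k - 1))).val.map b}

/-- Clones of labels inside the `k`-graph `G` with chain `X`. The label `w` has one clone
`c w s` for every strictly increasing sequence `s` (only its first `n` entries matter) whose
first `n` entries are less than `N`; clones with different first index are different; and if
`b ∈ A v` then the clone of `v` of index `s` together with the clones of `b j` of index
`i ↦ s ((k-1) i + j)` is an edge of `G`. -/
structure CloneSys {k : ℕ} {V : Type} (G : KGraph k V) (X : ℕ → Finset V) {W : Type}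
    (rk : W → ℕ) (A : W → Set (Fin (k - 1) → W)) (n N : ℕ) (c : W → (ℕ → ℕ) → V) : Prop where
  dep : ∀ w s s', (∀ i, i < n → s i = s' i) → c w s = c w s'
  mem : ∀ w s, StrictMono s → (∀ i, i < n → s i < N) → c w s ∈ X (rk w)
  dist : ∀ w w' s s', StrictMono s → (∀ i, i < n → s i < N) →
    StrictMono s' → (∀ i, i < n → s' i < N) → c w s = c w' s' → s 0 = s' 0
  adj : ∀ v b, b ∈ A v → ∀ s, StrictMono s → (∀ i, i < (k - 1) * n → s i < N) →
    ∃ d ∈ G.edges, d.val = c v s ::ₘ (Finset.univ : Finset (Fin (k - 1))).val.map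
      (fun j => c (b j) (fun i => s ((k - 1) * i + (j : ℕ))))

/-- The residues of `1, ..., p` modulo `q`. -/
def Spos (q p : ℕ) : Set (ZMod q) := {z | ∃ j : ℕ, 1 ≤ j ∧ j ≤ p ∧ z = (j : ZMod q)}

/-- The circle pattern on the classes `ZMod q` (states) and `none` (the label): the `k`-multisets
`{u^(k-1), v}` of states with `v - u ∈ {1, ..., p}`, and all `k`-multisets that contain the label
and a state, except those consisting of the label once and one state `k - 1` times. -/
def CirPat (k q p : ℕ) : Set (Multiset (Option (ZMod q))) :=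
  {e | e.card = k ∧
    ((∃ u v : ZMod q, v - u ∈ Spos q p ∧
        e = some v ::ₘ Multiset.replicate (k - 1) (some u)) ∨
      (none ∈ e ∧ (∃ u : ZMod q, some u ∈ e) ∧
        ∀ u : ZMod q, e ≠ none ::ₘ Multiset.replicate (k - 1) (some u)))}

/-- `v` is a child of `w`: both are labels of `Y` and `{v, w^(k-1)}` is an edge. -/
def Kid (k : ℕ) {V : Type} (E : Set (Multiset V)) (Y : Set V) (w v : V) : Prop :=
  w ∈ Y ∧ v ∈ Y ∧ v ::ₘ Multiset.replicate (k - 1) w ∈ E

/-- `i` is the dictator of `g` at `x`: advancing (to children) any set of coordinates not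
containing `i` keeps the value, advancing any set containing `i` adds an element of `S`. -/
def Dic {q : ℕ} (S : Set (ZMod q)) {ι : Type} {V : ι → Type} (Kd : ∀ i, V i → V i → Prop)
    (g : (∀ i, V i) → ZMod q) (x : ∀ i, V i) (i : ι) : Prop :=
  (∀ x' : ∀ i, V i, x' i = x i → (∀ j, x' j = x j ∨ Kd j (x j) (x' j)) → g x' = g x) ∧
  (∀ x' : ∀ i, V i, Kd i (x i) (x' i) → (∀ j, x' j = x j ∨ Kd j (x j) (x' j)) →
    g x' - g x ∈ S)

/-- The abstract dynamics extracted from a homomorphism to a circle pattern. -/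
structure Dyn (q : ℕ) (S : Set (ZMod q)) {ι : Type} (V : ι → Type) (L : ℕ)
    (D : ∀ i, ℕ → Set (V i)) (Kd : ∀ i, V i → V i → Prop) (g : (∀ i, V i) → ZMod q) :
    Prop where
  start : ∀ i, (D i 0).Nonempty
  mono : ∀ i t, t < L → D i t ⊆ D i (t + 1)
  kid : ∀ i t, t < L → ∀ w ∈ D i t, ∃ v ∈ D i (t + 1), Kd i w v
  dic : ∀ t, t < L → ∀ x : ∀ i, V i, (∀ i, x i ∈ D i t) → ∃ i, Dic S Kd g x i
  lp : ∀ i t t', t < L → t' < L → ∀ y : ∀ i, V i, (∀ j, y j ∈ D j t') →
    ∀ (U : Finset (ZMod q)) (b : ZMod q → V i), U.Nonempty →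
    (∀ u ∈ U, b u ∈ D i t ∧ g (open Classical in Function.update y i (b u)) = u) →
    ∃ v ∈ D i (t + 1), ∃ A ⊆ U, A.Nonempty ∧ (∀ u ∈ A, Kd i (b u) v) ∧
      ∀ z ∈ U, ∃ u ∈ A, z - u ∉ S

end CodegDens
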