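import Pool.Agent.Lib.MP_81e58e_co.Defs

/-!
# Limit statements and blow-ups of patterns (module LowerUpper of MP_81e58e_co)
-/

namespace CodegDens

open Finset Filter Topology

section LowerUpper

theorem lu_codeg_le_two_pow {k n : ℕ} (H : KGraph k (Fin n)) (S : Finset (Fin n)) :
    H.codeg S ≤ 2 ^ n := by
  unfold KGraph.codeg
  calc _ ≤ (Set.univ : Set (Finset (Fin n))).ncard :=
        Set.ncard_le_ncard (Set.subset_univ _) (Set.toFinite _)
    _ = 2 ^ n := by
        rw [Set.ncard_univ, Nat.card_eq_fintype_card, Fintype.card_finset, Fintype.card_fin]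

theorem lu_exists_subset {k n : ℕ} (hk : 2 ≤ k) (hn : k ≤ n) :
    ∃ S : Finset (Fin n), S.card + 1 = k := by
  obtain ⟨S, -, hS⟩ := Finset.exists_subset_card_eq (s := (Finset.univ : Finset (Fin n)))
    (n := k - 1) (by rw [Finset.card_univ, Fintype.card_fin]; omega)
  exact ⟨S, by omega⟩

theorem lu_minCodeg_le {k n : ℕ} (H : KGraph k (Fin n)) (S : Finset (Fin n))
    (hS : S.card + 1 = k) : H.minCodeg ≤ H.codeg S :=
  Nat.sInf_le ⟨S, hS, rfl⟩

theorem lu_exists_minCodeg {k n : ℕ} (hk : 2 ≤ k) (hn : k ≤ n) (H : KGraph k (Fin n)) :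
    ∃ S : Finset (Fin n), S.card + 1 = k ∧ H.codeg S = H.minCodeg := by
  obtain ⟨S, hS⟩ := lu_exists_subset hk hn
  have hne : {d | ∃ S : Finset (Fin n), S.card + 1 = k ∧ H.codeg S = d}.Nonempty :=
    ⟨_, S, hS, rfl⟩
  exact Nat.sInf_mem hne

theorem lu_bdd {k : ℕ} (hk : 2 ≤ k) {n : ℕ} (hn : k ≤ n) {W : Type} (F : KGraph k W) :
    BddAbove {d | ∃ H : KGraph k (Fin n), ¬ H.Contains F ∧ H.minCodeg = d} := by
  refine ⟨2 ^ n, ?_⟩
  rintro d ⟨H, -, rfl⟩
  obtain ⟨S, -, hS⟩ := lu_exists_minCodeg hk hn H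
  rw [← hS]
  exact lu_codeg_le_two_pow H S

theorem lower_coex {k : ℕ} (hk : 2 ≤ k) {W : Type} (F : KGraph k W) (a : ℝ)
    (h : ∀ ε > 0, ∀ᶠ n : ℕ in atTop, ∃ H : KGraph k (Fin n), ¬ H.Contains F ∧
      ∀ S : Finset (Fin n), S.card + 1 = k → (a - ε) * n ≤ H.codeg S) :
    ∀ ε > 0, ∀ᶠ n : ℕ in atTop, (a - ε) * n ≤ coex n F := by
  intro ε hε
  filter_upwards [h ε hε, eventually_ge_atTop k] with n hn hkn
  obtain ⟨H, hF, hH⟩ := hn
  obtain ⟨S, hS, hS2⟩ := lu_exists_minCodeg hk hkn H
  have h1 : H.minCodeg ≤ coex n F := le_csSup (lu_bdd hk hkn F) ⟨H, hF, rfl⟩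
  have h2 := hH S hS
  rw [hS2] at h2
  exact h2.trans (by exact_mod_cast h1)

theorem upper_coex {k : ℕ} (hk : 2 ≤ k) {W : Type} (F : KGraph k W) (a : ℝ) (ha : 0 ≤ a)
    (h : ∀ ε > 0, ∀ᶠ n : ℕ in atTop, ∀ H : KGraph k (Fin n),
      (∀ S : Finset (Fin n), S.card + 1 = k → (a + ε) * n ≤ H.codeg S) → H.Contains F) :
    ∀ ε > 0, ∀ᶠ n : ℕ in atTop, (coex n F : ℝ) ≤ (a + ε) * n := by
  intro ε hε
  filter_upwards [h ε hε] with n hn
  have h0 : 0 ≤ (a + ε) * n := by positivity
  rw [← Nat.le_floor_iff h0]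
  refine csSup_le' ?_
  rintro d ⟨H, hF, rfl⟩
  by_contra hcon
  apply hF
  apply hn
  intro S hS
  have h1 := lu_minCodeg_le H S hS
  have h2 : ⌊(a + ε) * n⌋₊ < H.minCodeg := not_le.mp hcon
  have h3 : (a + ε) * n < H.minCodeg := by
    rwa [Nat.floor_lt h0] at h2
  exact h3.le.trans (by exact_mod_cast h1)

theorem hasCodegDensity_of {k : ℕ} {W : Type} (F : KGraph k W) (a : ℝ)
    (h1 : ∀ ε > 0, ∀ᶠ n : ℕ in atTop, (a - ε) * n ≤ coex n F)
    (h2 : ∀ ε > 0, ∀ᶠ n : ℕ in atTop, (coex n F : ℝ) ≤ (a + ε) * n) :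
    HasCodegDensity F a := by
  unfold HasCodegDensity
  rw [Metric.tendsto_nhds]
  intro ε hε
  filter_upwards [h1 (ε / 2) (half_pos hε), h2 (ε / 2) (half_pos hε), eventually_gt_atTop 0]
    with n hn1 hn2 hn
  have hn' : (0 : ℝ) < n := by exact_mod_cast hn
  rw [Real.dist_eq, abs_lt]
  constructor
  · have : a - ε / 2 ≤ (coex n F : ℝ) / n := by rwa [le_div_iff₀ hn']
    linarith
  · have : (coex n F : ℝ) / n ≤ a + ε / 2 := by rwa [div_le_iff₀ hn']
    linarith

/-- a colouring of `Fin n` with prescribed minimal class sizes -/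
theorem lu_exists_colouring {C : Type} [Fintype C] [Nonempty C] (m : C → ℕ) (n : ℕ)
    (h : ∑ c, m c ≤ n) :
    ∃ cl : Fin n → C, ∀ c, m c ≤ {v | cl v = c}.ncard := by
  classical
  have hcard : Fintype.card (Σ c, Fin (m c)) ≤ Fintype.card (Fin n) := by
    simpa using h
  obtain ⟨φ⟩ := Function.Embedding.nonempty_of_card_le hcard
  obtain ⟨c0⟩ := ‹Nonempty C›
  refine ⟨fun v => if hv : ∃ x, φ x = v then hv.choose.1 else c0, ?_⟩
  intro c
  have hinj : Function.Injective (fun j : Fin (m c) => φ ⟨c, j⟩) := by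
    intro i j hij
    have := φ.injective hij
    simpa using this
  calc m c = (Set.range (fun j : Fin (m c) => φ ⟨c, j⟩)).ncard := by
        rw [← Set.image_univ, Set.ncard_image_of_injective _ hinj, Set.ncard_univ,
          Nat.card_eq_fintype_card, Fintype.card_fin]
    _ ≤ _ := by
        apply Set.ncard_le_ncard _ (Set.toFinite _)
        rintro v ⟨j, rfl⟩
        have hv : ∃ x, φ x = φ ⟨c, j⟩ := ⟨_, rfl⟩
        have h2 : hv.choose = ⟨c, j⟩ := φ.injective hv.choose_spec
        simp only [Set.mem_setOf_eq]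
        rw [dif_pos hv, h2]

/-- blow-ups of a pattern -/
theorem pattern_lower {k : ℕ} (hk : 2 ≤ k) {W : Type} (F : KGraph k W) {C : Type} [Fintype C]
    (P : Set (Multiset C)) (a : ℝ) (hP : PatVal k P a)
    (hF : ¬ ∃ f : W → C, ∀ e ∈ F.edges, e.val.map f ∈ P) :
    ∀ ε > 0, ∀ᶠ n : ℕ in atTop, ∃ H : KGraph k (Fin n), ¬ H.Contains F ∧
      ∀ S : Finset (Fin n), S.card + 1 = k → (a - ε) * n ≤ H.codeg S := by
  classical
  intro ε hε
  obtain ⟨wt, hwt0, hwt1, hwt⟩ := hP
  have hne : Nonempty C := by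
    by_contra hcon
    rw [not_nonempty_iff] at hcon
    simp at hwt1
  obtain ⟨N, hN⟩ := exists_nat_ge (((Fintype.card C : ℝ) + k) / ε)
  filter_upwards [eventually_ge_atTop N] with n hn
  have hNn : (Fintype.card C : ℝ) + k ≤ ε * n := by
    have : ((Fintype.card C : ℝ) + k) / ε ≤ n := hN.trans (by exact_mod_cast hn)
    rw [div_le_iff₀ hε] at this
    linarith
  have hsum : ∑ c, ⌊wt c * n⌋₊ ≤ n := by
    have : ((∑ c, ⌊wt c * n⌋₊ : ℕ) : ℝ) ≤ n := by
      push_cast
      calc ∑ c, (⌊wt c * n⌋₊ : ℝ) ≤ ∑ c, wt c * n := by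
            apply Finset.sum_le_sum
            intro c _
            exact Nat.floor_le (mul_nonneg (hwt0 c) (Nat.cast_nonneg n))
        _ = n := by rw [← Finset.sum_mul, hwt1, one_mul]
    exact_mod_cast this
  obtain ⟨cl, hcl⟩ := lu_exists_colouring (fun c => ⌊wt c * n⌋₊) n hsum
  refine ⟨⟨{e | e.card = k ∧ e.val.map cl ∈ P}, fun e he => he.1⟩, ?_, ?_⟩
  · rintro ⟨f, hf⟩
    apply hF
    refine ⟨fun w => cl (f w), fun e he => ?_⟩
    have h1 := (hf e he).2
    simpa [Finset.map_val, Multiset.map_map, Function.comp_def] using h1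
  · intro S hS
    -- the extending vertices
    set good : Finset (Fin n) :=
      Finset.univ.filter (fun v => v ∉ S ∧ cl v ::ₘ S.val.map cl ∈ P) with hgood
    have hcodeg : good.card ≤ KGraph.codeg
        (⟨{e | e.card = k ∧ e.val.map cl ∈ P}, fun e he => he.1⟩ : KGraph k (Fin n)) S := by
      unfold KGraph.codeg
      rw [← Set.ncard_coe_finset]
      apply Set.ncard_le_ncard_of_injOn (fun v => insert v S) _ _ (Set.toFinite _)
      · intro v hv
        have hv' : v ∉ S ∧ cl v ::ₘ S.val.map cl ∈ P := by simpa [hgood] using hv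
        refine ⟨⟨?_, ?_⟩, Finset.subset_insert _ _⟩
        · rw [Finset.card_insert_of_notMem hv'.1]
          exact hS
        · have : (insert v S).val = v ::ₘ S.val := Finset.insert_val_of_notMem hv'.1
          rw [this, Multiset.map_cons]
          exact hv'.2
      · intro v hv v' hv' heq
        have h1 : v ∉ S := by
          have : v ∉ S ∧ cl v ::ₘ S.val.map cl ∈ P := by simpa [hgood] using hv
          exact this.1
        have heq' : insert v S = insert v' S := heq
        have h2 : v ∈ insert v' S := by rw [← heq']; exact Finset.mem_insert_self _ _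
        rcases Finset.mem_insert.mp h2 with h3 | h3
        · exact h3
        · exact absurd h3 h1
    -- lower bound for the number of extending vertices
    set all : Finset (Fin n) :=
      Finset.univ.filter (fun v => cl v ::ₘ S.val.map cl ∈ P) with hall
    have h1 : all.card ≤ good.card + S.card := by
      have : all ⊆ good ∪ S := by
        intro v hv
        by_cases hvS : v ∈ S
        · exact Finset.mem_union_right _ hvS
        · apply Finset.mem_union_left
          simp only [hgood, hall, Finset.mem_filter, Finset.mem_univ, true_and] at hv ⊢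
          exact ⟨hvS, hv⟩
      exact (Finset.card_le_card this).trans (Finset.card_union_le _ _)
    have h2 : all.card = ∑ c, if c ::ₘ S.val.map cl ∈ P then
        (Finset.univ.filter (fun v => cl v = c)).card else 0 := by
      rw [hall, Finset.card_eq_sum_card_fiberwise (f := cl) (t := Finset.univ)
        (fun _ _ => Finset.mem_coe.mpr (Finset.mem_univ _))]
      apply Finset.sum_congr rfl
      intro c _
      split_ifs with hc
      · congr 1
        ext v
        simp only [Finset.mem_filter, Finset.mem_univ, true_and]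
        constructor
        · rintro ⟨-, h⟩; exact h
        · intro h; exact ⟨by rw [h]; exact hc, h⟩
      · rw [Finset.card_eq_zero]
        ext v
        simp only [Finset.mem_filter, Finset.mem_univ, true_and, Finset.notMem_empty, iff_false]
        rintro ⟨h, h'⟩
        rw [h'] at h
        exact hc h
    have h3 : ∀ c, wt c * n - 1 ≤ ((Finset.univ.filter (fun v => cl v = c)).card : ℝ) := by
      intro c
      have h4 := hcl c
      have h5 : {v | cl v = c}.ncard = (Finset.univ.filter (fun v => cl v = c)).card := by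
        rw [← Set.ncard_coe_finset]
        congr 1
        ext v
        simp
      rw [h5] at h4
      have h6 : wt c * n < ⌊wt c * n⌋₊ + 1 := Nat.lt_floor_add_one _
      have h7 : ((⌊wt c * n⌋₊ : ℕ) : ℝ) ≤ ((Finset.univ.filter (fun v => cl v = c)).card : ℝ) := by
        exact_mod_cast h4
      linarith
    have hs : (S.val.map cl).card + 1 = k := by
      rw [Multiset.card_map]; exact hS
    have h8 := hwt (S.val.map cl) hs
    have h9 : a * n - Fintype.card C ≤ (all.card : ℝ) := by
      rw [h2]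
      push_cast
      calc a * n - Fintype.card C
          ≤ (∑ c, if c ::ₘ S.val.map cl ∈ P then wt c else 0) * n - ∑ c : C, (1 : ℝ) := by
            rw [Finset.sum_const, Finset.card_univ, nsmul_eq_mul, mul_one]
            have : a * n ≤ (∑ c, if c ::ₘ S.val.map cl ∈ P then wt c else 0) * n := by
              apply mul_le_mul_of_nonneg_right _ (Nat.cast_nonneg n)
              convert h8 using 2
            linarith
        _ = ∑ c, ((if c ::ₘ S.val.map cl ∈ P then wt c else 0) * n - 1) := by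
            rw [Finset.sum_sub_distrib, Finset.sum_mul]
        _ ≤ _ := by
            apply Finset.sum_le_sum
            intro c _
            split_ifs with hc
            · exact h3 c
            · norm_num
    have h10 : (all.card : ℝ) ≤ good.card + S.card := by exact_mod_cast h1
    have h11 : (good.card : ℝ) ≤ (KGraph.codeg
        (⟨{e | e.card = k ∧ e.val.map cl ∈ P}, fun e he => he.1⟩ : KGraph k (Fin n)) S : ℝ) := by
      exact_mod_cast hcodeg
    have h12 : (S.card : ℝ) ≤ k := by
      have : S.card ≤ k := by omega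
      exact_mod_cast this
    refine le_trans ?_ h11
    linarith

end LowerUpper

end CodegDens
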