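import Pool.Agent.Lib.MP_81e58e_co.S4Defs

/-!
# The step `a -> (1+a)/3` for `k = 4`: coherent sub-chains
-/

set_option autoImplicit false

namespace CodegDens

/-- A function `D` prescribes the depth wanted for a given coherence parameter. -/
theorem s4_coherent (D : ℕ → ℕ) : ∃ n : ℕ, ∀ (V : Type) (R : V → V → V → V → Prop)
    (Y : ℕ → Set V), (Y 0).Nonempty → (∀ s, s < n → Y s ⊆ Y (s + 1)) →
    (∀ s, s < n → J34 R (Y s) (Y (s + 1))) →
    ∃ (w j : ℕ) (Z : ℕ → Set V), 1 ≤ w ∧ j + D w ≤ n ∧ SubCh R Y j (D w) Z ∧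
      Coh4 R Z (D w) w := by
  refine ⟨D (max 1 (D 1)), ?_⟩
  intro V R Y hne hmono hj
  set w1 := max 1 (D 1) with hw1
  have hw1a : 1 ≤ w1 := le_max_left _ _
  have hw1b : D 1 ≤ w1 := le_max_right _ _
  have hYmono : ∀ m n, m ≤ n → n ≤ D w1 → Y m ⊆ Y n := by
    intro m n hmn hn
    induction n, hmn using Nat.le_induction with
    | base => exact subset_rfl
    | succ k hk ih => exact (ih (by omega)).trans (hmono k (by omega))
  by_cases hcoh : Coh4 R Y (D w1) w1
  · refine ⟨w1, 0, Y, hw1a, by omega, ⟨hne, ?_, ?_, ?_⟩, hcoh⟩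
    · intro l _
      rw [Nat.zero_add]
    · intro l hl
      exact hmono l hl
    · intro l _ x _ y _ z _ v hv _
      rwa [Nat.zero_add] at hv
  · simp only [Coh4, not_forall] at hcoh
    obtain ⟨j1, hj1, D1, hD1, x1, hx1, y1, hy1, z1, hz1, hno1⟩ := hcoh
    have hD1mono : ∀ m n, m ≤ n → n ≤ w1 → D1 m ⊆ D1 n := by
      intro m n hmn hn
      induction n, hmn using Nat.le_induction with
      | base => exact subset_rfl
      | succ k hk ih => exact (ih (by omega)).trans (hD1.mono k (by omega))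
    refine ⟨1, j1, D1, le_rfl, by omega, ⟨hD1.nonempty, ?_, ?_, ?_⟩, ?_⟩
    · intro l hl
      exact hD1.sub l (by omega)
    · intro l hl
      exact hD1.mono l (by omega)
    · intro l hl
      exact hD1.closed l (by omega)
    · intro j2 hj2 D2 hD2 x2 hx2 y2 hy2 z2 hz2
      by_contra hno2
      obtain ⟨x, hx⟩ := hD2.nonempty
      have hx' : x ∈ D1 j2 := hD2.sub 0 (by omega) hx
      have hsub : D1 j2 ⊆ Y (j1 + j2) := hD1.sub j2 (by omega)
      have hY1 : Y j1 ⊆ Y (j1 + j2) := hYmono _ _ (by omega) (by omega)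
      obtain ⟨v, hv, h⟩ := hj (j1 + j2) (by omega) x1 (hY1 hx1) y1 (hY1 hy1) z1 (hY1 hz1)
        x2 (hsub hx2) y2 (hsub hy2) z2 (hsub hz2) x (hsub hx') x (hsub hx') x (hsub hx')
      have hup : D1 (j2 + 1) ⊆ D1 w1 := hD1mono _ _ (by omega) le_rfl
      rcases h with ⟨h1, h2⟩ | ⟨h1, h3⟩ | ⟨h2, h3⟩
      · exact hno1 ⟨v, hup (hD1.closed j2 (by omega) x2 hx2 y2 hy2 z2 hz2 v hv h2), h1⟩
      · exact hno1 ⟨v, hup (hD1.closed j2 (by omega) x hx' x hx' x hx' v hv h3), h1⟩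
      · have h4 := hD1.closed j2 (by omega) x hx' x hx' x hx' v hv h3
        exact hno2 ⟨v, hD2.closed 0 (by omega) x hx x hx x hx v h4 h3, h2⟩

end CodegDens
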