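import Pool.Agent.Lib.MP_81e58e_co.S4Defs

/-!
# The core of a coherent chain (`k = 4`, problem MP_81e58e_co)
-/

namespace CodegDens

open Set

theorem s4_core {V T : Type} [Finite T] {R : V → V → V → V → Prop} {Z : ℕ → Set V} {n w m : ℕ}
    (hw : 1 ≤ w) (hn : m + Nat.card T * w ≤ n) (hne : (Z 0).Nonempty)
    (hmono : ∀ s, s < n → Z s ⊆ Z (s + 1)) (hj : ∀ s, s < n → J34 R (Z s) (Z (s + 1)))
    (hcoh : Coh4 R Z n w) (φ : V → T) (F₀ F : T → T → T → T → Prop)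
    (h₀ : ∀ x ∈ Z n, ∀ y ∈ Z n, ∀ z ∈ Z n, ∀ v ∈ Z n, R x y z v →
      F₀ (φ x) (φ y) (φ z) (φ v))
    (h₁ : ∀ x ∈ Z n, ∀ y ∈ Z n, ∀ z ∈ Z n, ∀ v ∈ Z n, R x y z v → (φ x = φ y → x = y) →
      (φ y = φ z → y = z) → (φ x = φ z → x = z) → F (φ x) (φ y) (φ z) (φ v)) :
    ∃ U : Set T, Core4 F₀ F U ∧ ∀ x ∈ Z m, ∀ q ∈ insert (φ x) U, ∀ r ∈ insert (φ x) U,
      ∃ z ∈ U, F (φ x) q r z := by
  classical
  -- monotonicity
  have hm : ∀ b, b ≤ n → ∀ a, a ≤ b → Z a ⊆ Z b := by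
    intro b
    induction b with
    | zero => intro _ a ha; have : a = 0 := by omega
              subst this; exact subset_rfl
    | succ b ih =>
      intro hb a ha
      rcases Nat.lt_or_ge a (b + 1) with h | h
      · exact (ih (by omega) a (by omega)).trans (hmono b (by omega))
      · have : a = b + 1 := by omega
        subst this; exact subset_rfl
  obtain ⟨x₀, hx₀⟩ := hne
  -- pigeonhole
  have hpig : ∃ k, k < Nat.card T ∧ φ '' Z (m + (k + 1) * w) ⊆ φ '' Z (m + k * w) := by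
    by_contra hcon
    push Not at hcon
    have hcount : ∀ k, k ≤ Nat.card T → k + 1 ≤ (φ '' Z (m + k * w)).ncard := by
      intro k
      induction k with
      | zero =>
        intro _
        have : (φ '' Z (m + 0 * w)).Nonempty :=
          ⟨φ x₀, x₀, hm (m + 0 * w) (by omega) 0 (by omega) hx₀, rfl⟩
        have := (Set.ncard_pos (Set.toFinite _)).2 this
        omega
      | succ k ih =>
        intro hk
        have h1 := ih (by omega)
        have hle : m + (k + 1) * w ≤ n := by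
          have : (k + 1) * w ≤ Nat.card T * w := Nat.mul_le_mul_right _ hk
          omega
        have hsub : φ '' Z (m + k * w) ⊆ φ '' Z (m + (k + 1) * w) := by
          apply Set.image_mono
          apply hm _ hle
          have : k * w ≤ (k + 1) * w := Nat.mul_le_mul_right _ (by omega)
          omega
        have hss : φ '' Z (m + k * w) ⊂ φ '' Z (m + (k + 1) * w) :=
          ⟨hsub, hcon k (by omega)⟩
        have := Set.ncard_lt_ncard hss (Set.toFinite _)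
        omega
    have h1 := hcount (Nat.card T) le_rfl
    have h2 : (φ '' Z (m + Nat.card T * w)).ncard ≤ Nat.card T := Set.ncard_le_card _
    omega
  obtain ⟨k, hk, hkU⟩ := hpig
  set l := m + k * w with hl
  have hlw : l + w ≤ n := by
    have h1 : (k + 1) * w ≤ Nat.card T * w := Nat.mul_le_mul_right _ hk
    have h2 : (k + 1) * w = k * w + w := by ring
    omega
  have hkU' : φ '' Z (l + w) ⊆ φ '' Z l := by
    have h2 : m + (k + 1) * w = l + w := by rw [hl]; ring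
    rw [← h2]; exact hkU
  set U0 := φ '' Z l with hU0
  have hZU0 : ∀ v ∈ Z (l + w), φ v ∈ U0 := fun v hv => hkU' ⟨v, hv, rfl⟩
  -- minimal closed set
  let P : Set T → Prop := fun U => U ⊆ U0 ∧ U.Nonempty ∧
    ∀ p ∈ U, ∀ q ∈ U, ∀ r ∈ U, ∀ z ∈ U0, F₀ p q r z → z ∈ U
  have hPex : ∃ U, P U := ⟨U0, subset_rfl, ⟨φ x₀, x₀, hm l (by omega) 0 (by omega) hx₀, rfl⟩,
    fun _ _ _ _ _ _ z hz _ => hz⟩
  obtain ⟨U, hUmin⟩ := exists_minimal_of_wellFoundedLT P hPex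
  obtain ⟨hUsub, hUne, hUcl⟩ := hUmin.prop
  -- the sub-chain
  let D : ℕ → Set V := fun r => {x ∈ Z (l + r) | φ x ∈ U}
  have hD : SubCh R Z l w D := by
    refine ⟨?_, ?_, ?_, ?_⟩
    · obtain ⟨u, hu⟩ := hUne
      obtain ⟨x, hx, rfl⟩ := hUsub hu
      exact ⟨x, hx, hu⟩
    · intro r _ x hx; exact hx.1
    · intro r hr x hx
      exact ⟨hmono (l + r) (by omega) hx.1, hx.2⟩
    · intro r hr x hx y hy z hz v hv hR
      have hvn : v ∈ Z (l + w) := hm (l + w) hlw _ (by omega) hv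
      refine ⟨hv, hUcl _ hx.2 _ hy.2 _ hz.2 _ (hZU0 v hvn) ?_⟩
      exact h₀ x (hm n le_rfl _ (by omega) hx.1) y (hm n le_rfl _ (by omega) hy.1)
        z (hm n le_rfl _ (by omega) hz.1) v (hm n le_rfl _ (by omega) hv) hR
  -- representatives
  have hrep : ∀ u, ∃ x, u ∈ U → x ∈ Z l ∧ φ x = u := by
    intro u
    by_cases hu : u ∈ U
    · obtain ⟨x, hx, hxu⟩ := hUsub hu
      exact ⟨x, fun _ => ⟨hx, hxu⟩⟩
    · exact ⟨x₀, fun h => absurd h hu⟩
  choose rep hrep using hrep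
  have hln : ∀ x ∈ Z l, x ∈ Z n := fun x hx => hm n le_rfl l (by omega) hx
  refine ⟨U, ⟨hUne, ?_, ?_⟩, ?_⟩
  · intro p₁ hp₁ q₁ hq₁ r₁ hr₁ p₂ hp₂ q₂ hq₂ r₂ hr₂ p₃ hp₃ q₃ hq₃ r₃ hr₃
    obtain ⟨v, hv, h⟩ := hj l (by omega) (rep p₁) (hrep p₁ hp₁).1 (rep q₁) (hrep q₁ hq₁).1
      (rep r₁) (hrep r₁ hr₁).1 (rep p₂) (hrep p₂ hp₂).1 (rep q₂) (hrep q₂ hq₂).1
      (rep r₂) (hrep r₂ hr₂).1 (rep p₃) (hrep p₃ hp₃).1 (rep q₃) (hrep q₃ hq₃).1
      (rep r₃) (hrep r₃ hr₃).1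
    have hvn : v ∈ Z n := hm n le_rfl _ (by omega) hv
    have hvU0 : φ v ∈ U0 := hZU0 v (hm (l + w) hlw _ (by omega) hv)
    have key : ∀ p ∈ U, ∀ q ∈ U, ∀ r ∈ U, R (rep p) (rep q) (rep r) v →
        F p q r (φ v) ∧ φ v ∈ U := by
      intro p hp q hq r hr hR
      have e1 := (hrep p hp).2
      have e2 := (hrep q hq).2
      have e3 := (hrep r hr).2
      have a1 := hln _ (hrep p hp).1
      have a2 := hln _ (hrep q hq).1
      have a3 := hln _ (hrep r hr).1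
      constructor
      · have := h₁ _ a1 _ a2 _ a3 v hvn hR (fun h => by rw [e1, e2] at h; rw [h])
          (fun h => by rw [e2, e3] at h; rw [h]) (fun h => by rw [e1, e3] at h; rw [h])
        rwa [e1, e2, e3] at this
      · have := h₀ _ a1 _ a2 _ a3 v hvn hR
        rw [e1, e2, e3] at this
        exact hUcl p hp q hq r hr _ hvU0 this
    rcases h with ⟨ha, hb⟩ | ⟨ha, hb⟩ | ⟨ha, hb⟩
    · exact ⟨φ v, (key _ hp₁ _ hq₁ _ hr₁ ha).2, Or.inl ⟨(key _ hp₁ _ hq₁ _ hr₁ ha).1,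
        (key _ hp₂ _ hq₂ _ hr₂ hb).1⟩⟩
    · exact ⟨φ v, (key _ hp₁ _ hq₁ _ hr₁ ha).2, Or.inr (Or.inl ⟨(key _ hp₁ _ hq₁ _ hr₁ ha).1,
        (key _ hp₃ _ hq₃ _ hr₃ hb).1⟩)⟩
    · exact ⟨φ v, (key _ hp₂ _ hq₂ _ hr₂ ha).2, Or.inr (Or.inr ⟨(key _ hp₂ _ hq₂ _ hr₂ ha).1,
        (key _ hp₃ _ hq₃ _ hr₃ hb).1⟩)⟩
  · intro K hKU hKne hKcl
    refine subset_antisymm hKU (hUmin.le_of_le ?_ hKU)
    refine ⟨hKU.trans hUsub, hKne, ?_⟩
    intro p hp q hq r hr z hz hF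
    exact hKcl p hp q hq r hr z (hUcl p (hKU hp) q (hKU hq) r (hKU hr) z hz hF) hF
  · intro x hx q hq r hr
    have hxl : x ∈ Z l := hm l (by omega) m (by omega) hx
    have hgen : ∀ q ∈ insert (φ x) U, (if q = φ x then x else rep q) ∈ Z l ∧
        φ (if q = φ x then x else rep q) = q := by
      intro q hq
      by_cases h : q = φ x
      · rw [if_pos h]; exact ⟨hxl, h.symm⟩
      · rw [if_neg h]
        rcases hq with hq | hq
        · exact absurd hq h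
        · exact hrep q hq
    obtain ⟨v, hvD, hR⟩ := hcoh l hlw D hD x hxl _ (hgen q hq).1 _ (hgen r hr).1
    refine ⟨φ v, hvD.2, ?_⟩
    have hvn : v ∈ Z n := hm n le_rfl _ hlw hvD.1
    have e2 := (hgen q hq).2
    have e3 := (hgen r hr).2
    have := h₁ x (hln x hxl) _ (hln _ (hgen q hq).1) _ (hln _ (hgen r hr).1) v hvn hR
      (fun h => by rw [e2] at h; rw [if_pos h.symm])
      (fun h => by rw [e2, e3] at h; rw [h])
      (fun h => by rw [e3] at h; rw [if_pos h.symm])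
    rwa [e2, e3] at this

/-- The core together with the set `P` of all types of the quiet window. -/
theorem s4_core2 {V T : Type} [Finite T] {R : V → V → V → V → Prop} {Z : ℕ → Set V} {n w m : ℕ}
    (hw : 1 ≤ w) (hn : m + Nat.card T * w ≤ n) (hne : (Z 0).Nonempty)
    (hmono : ∀ s, s < n → Z s ⊆ Z (s + 1)) (hj : ∀ s, s < n → J34 R (Z s) (Z (s + 1)))
    (hcoh : Coh4 R Z n w) (φ : V → T) (F₀ F : T → T → T → T → Prop)
    (h₀ : ∀ x ∈ Z n, ∀ y ∈ Z n, ∀ z ∈ Z n, ∀ v ∈ Z n, R x y z v →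
      F₀ (φ x) (φ y) (φ z) (φ v))
    (h₁ : ∀ x ∈ Z n, ∀ y ∈ Z n, ∀ z ∈ Z n, ∀ v ∈ Z n, R x y z v → (φ x = φ y → x = y) →
      (φ y = φ z → y = z) → (φ x = φ z → x = z) → F (φ x) (φ y) (φ z) (φ v)) :
    ∃ U P : Set T, Core4 F₀ F U ∧ U ⊆ P ∧ (∀ x ∈ Z m, φ x ∈ P) ∧ J34 F P P ∧
      ∀ p ∈ P, ∀ q ∈ P, ∀ r ∈ P, ∃ z ∈ U, F p q r z := by
  classical
  -- monotonicity
  have hm : ∀ b, b ≤ n → ∀ a, a ≤ b → Z a ⊆ Z b := by
    intro b
    induction b with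
    | zero => intro _ a ha; have : a = 0 := by omega
              subst this; exact subset_rfl
    | succ b ih =>
      intro hb a ha
      rcases Nat.lt_or_ge a (b + 1) with h | h
      · exact (ih (by omega) a (by omega)).trans (hmono b (by omega))
      · have : a = b + 1 := by omega
        subst this; exact subset_rfl
  obtain ⟨x₀, hx₀⟩ := hne
  -- pigeonhole
  have hpig : ∃ k, k < Nat.card T ∧ φ '' Z (m + (k + 1) * w) ⊆ φ '' Z (m + k * w) := by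
    by_contra hcon
    push Not at hcon
    have hcount : ∀ k, k ≤ Nat.card T → k + 1 ≤ (φ '' Z (m + k * w)).ncard := by
      intro k
      induction k with
      | zero =>
        intro _
        have : (φ '' Z (m + 0 * w)).Nonempty :=
          ⟨φ x₀, x₀, hm (m + 0 * w) (by omega) 0 (by omega) hx₀, rfl⟩
        have := (Set.ncard_pos (Set.toFinite _)).2 this
        omega
      | succ k ih =>
        intro hk
        have h1 := ih (by omega)
        have hle : m + (k + 1) * w ≤ n := by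
          have : (k + 1) * w ≤ Nat.card T * w := Nat.mul_le_mul_right _ hk
          omega
        have hsub : φ '' Z (m + k * w) ⊆ φ '' Z (m + (k + 1) * w) := by
          apply Set.image_mono
          apply hm _ hle
          have : k * w ≤ (k + 1) * w := Nat.mul_le_mul_right _ (by omega)
          omega
        have hss : φ '' Z (m + k * w) ⊂ φ '' Z (m + (k + 1) * w) :=
          ⟨hsub, hcon k (by omega)⟩
        have := Set.ncard_lt_ncard hss (Set.toFinite _)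
        omega
    have h1 := hcount (Nat.card T) le_rfl
    have h2 : (φ '' Z (m + Nat.card T * w)).ncard ≤ Nat.card T := Set.ncard_le_card _
    omega
  obtain ⟨k, hk, hkU⟩ := hpig
  set l := m + k * w with hl
  have hlw : l + w ≤ n := by
    have h1 : (k + 1) * w ≤ Nat.card T * w := Nat.mul_le_mul_right _ hk
    have h2 : (k + 1) * w = k * w + w := by ring
    omega
  have hkU' : φ '' Z (l + w) ⊆ φ '' Z l := by
    have h2 : m + (k + 1) * w = l + w := by rw [hl]; ring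
    rw [← h2]; exact hkU
  set U0 := φ '' Z l with hU0
  have hZU0 : ∀ v ∈ Z (l + w), φ v ∈ U0 := fun v hv => hkU' ⟨v, hv, rfl⟩
  -- minimal closed set
  let P : Set T → Prop := fun U => U ⊆ U0 ∧ U.Nonempty ∧
    ∀ p ∈ U, ∀ q ∈ U, ∀ r ∈ U, ∀ z ∈ U0, F₀ p q r z → z ∈ U
  have hPex : ∃ U, P U := ⟨U0, subset_rfl, ⟨φ x₀, x₀, hm l (by omega) 0 (by omega) hx₀, rfl⟩,
    fun _ _ _ _ _ _ z hz _ => hz⟩
  obtain ⟨U, hUmin⟩ := exists_minimal_of_wellFoundedLT P hPex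
  obtain ⟨hUsub, hUne, hUcl⟩ := hUmin.prop
  -- the sub-chain
  let D : ℕ → Set V := fun r => {x ∈ Z (l + r) | φ x ∈ U}
  have hD : SubCh R Z l w D := by
    refine ⟨?_, ?_, ?_, ?_⟩
    · obtain ⟨u, hu⟩ := hUne
      obtain ⟨x, hx, rfl⟩ := hUsub hu
      exact ⟨x, hx, hu⟩
    · intro r _ x hx; exact hx.1
    · intro r hr x hx
      exact ⟨hmono (l + r) (by omega) hx.1, hx.2⟩
    · intro r hr x hx y hy z hz v hv hR
      have hvn : v ∈ Z (l + w) := hm (l + w) hlw _ (by omega) hv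
      refine ⟨hv, hUcl _ hx.2 _ hy.2 _ hz.2 _ (hZU0 v hvn) ?_⟩
      exact h₀ x (hm n le_rfl _ (by omega) hx.1) y (hm n le_rfl _ (by omega) hy.1)
        z (hm n le_rfl _ (by omega) hz.1) v (hm n le_rfl _ (by omega) hv) hR
  -- representatives
  have hrep : ∀ u, ∃ x, u ∈ U0 → x ∈ Z l ∧ φ x = u := by
    intro u
    by_cases hu : u ∈ U0
    · obtain ⟨x, hx, hxu⟩ := hu
      exact ⟨x, fun _ => ⟨hx, hxu⟩⟩
    · exact ⟨x₀, fun h => absurd h hu⟩
  choose rep hrep using hrep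
  have hln : ∀ x ∈ Z l, x ∈ Z n := fun x hx => hm n le_rfl l (by omega) hx
  have keyF : ∀ p ∈ U0, ∀ q ∈ U0, ∀ r ∈ U0, ∀ v ∈ Z n, R (rep p) (rep q) (rep r) v →
      F p q r (φ v) := by
    intro p hp q hq r hr v hvn hR
    have e1 := (hrep p hp).2
    have e2 := (hrep q hq).2
    have e3 := (hrep r hr).2
    have := h₁ _ (hln _ (hrep p hp).1) _ (hln _ (hrep q hq).1) _ (hln _ (hrep r hr).1) v hvn hR
      (fun h => by rw [e1, e2] at h; rw [h])
      (fun h => by rw [e2, e3] at h; rw [h]) (fun h => by rw [e1, e3] at h; rw [h])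
    rwa [e1, e2, e3] at this
  have keyU : ∀ p ∈ U, ∀ q ∈ U, ∀ r ∈ U, ∀ v ∈ Z (l + 1), R (rep p) (rep q) (rep r) v →
      φ v ∈ U := by
    intro p hp q hq r hr v hv hR
    have hvn : v ∈ Z n := hm n le_rfl _ (by omega) hv
    have hvU0 : φ v ∈ U0 := hZU0 v (hm (l + w) hlw _ (by omega) hv)
    have := h₀ _ (hln _ (hrep p (hUsub hp)).1) _ (hln _ (hrep q (hUsub hq)).1)
      _ (hln _ (hrep r (hUsub hr)).1) v hvn hR
    rw [(hrep p (hUsub hp)).2, (hrep q (hUsub hq)).2, (hrep r (hUsub hr)).2] at this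
    exact hUcl p hp q hq r hr _ hvU0 this
  have hJgen : ∀ A : Set T, A ⊆ U0 → (∀ p ∈ A, ∀ q ∈ A, ∀ r ∈ A, ∀ v ∈ Z (l + 1),
      R (rep p) (rep q) (rep r) v → φ v ∈ A) → J34 F A A := by
    intro A hA hAcl p₁ hp₁ q₁ hq₁ r₁ hr₁ p₂ hp₂ q₂ hq₂ r₂ hr₂ p₃ hp₃ q₃ hq₃ r₃ hr₃
    obtain ⟨v, hv, h⟩ := hj l (by omega) (rep p₁) (hrep p₁ (hA hp₁)).1 (rep q₁)
      (hrep q₁ (hA hq₁)).1 (rep r₁) (hrep r₁ (hA hr₁)).1 (rep p₂) (hrep p₂ (hA hp₂)).1
      (rep q₂) (hrep q₂ (hA hq₂)).1 (rep r₂) (hrep r₂ (hA hr₂)).1 (rep p₃) (hrep p₃ (hA hp₃)).1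
      (rep q₃) (hrep q₃ (hA hq₃)).1 (rep r₃) (hrep r₃ (hA hr₃)).1
    have hvn : v ∈ Z n := hm n le_rfl _ (by omega) hv
    rcases h with ⟨ha, hb⟩ | ⟨ha, hb⟩ | ⟨ha, hb⟩
    · exact ⟨φ v, hAcl _ hp₁ _ hq₁ _ hr₁ v hv ha, Or.inl
        ⟨keyF _ (hA hp₁) _ (hA hq₁) _ (hA hr₁) v hvn ha,
        keyF _ (hA hp₂) _ (hA hq₂) _ (hA hr₂) v hvn hb⟩⟩
    · exact ⟨φ v, hAcl _ hp₁ _ hq₁ _ hr₁ v hv ha, Or.inr (Or.inl
        ⟨keyF _ (hA hp₁) _ (hA hq₁) _ (hA hr₁) v hvn ha,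
        keyF _ (hA hp₃) _ (hA hq₃) _ (hA hr₃) v hvn hb⟩)⟩
    · exact ⟨φ v, hAcl _ hp₂ _ hq₂ _ hr₂ v hv ha, Or.inr (Or.inr
        ⟨keyF _ (hA hp₂) _ (hA hq₂) _ (hA hr₂) v hvn ha,
        keyF _ (hA hp₃) _ (hA hq₃) _ (hA hr₃) v hvn hb⟩)⟩
  refine ⟨U, U0, ⟨hUne, hJgen U hUsub keyU, ?_⟩, hUsub, ?_, ?_, ?_⟩
  · intro K hKU hKne hKcl
    refine subset_antisymm hKU (hUmin.le_of_le ?_ hKU)
    refine ⟨hKU.trans hUsub, hKne, ?_⟩
    intro p hp q hq r hr z hz hF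
    exact hKcl p hp q hq r hr z (hUcl p (hKU hp) q (hKU hq) r (hKU hr) z hz hF) hF
  · intro x hx
    exact ⟨x, hm l (by omega) m (by omega) hx, rfl⟩
  · refine hJgen U0 subset_rfl ?_
    intro p _ q _ r _ v hv _
    exact hZU0 v (hm (l + w) hlw _ (by omega) hv)
  · intro p hp q hq r hr
    obtain ⟨v, hvD, hR⟩ := hcoh l hlw D hD _ (hrep p hp).1 _ (hrep q hq).1 _ (hrep r hr).1
    exact ⟨φ v, hvD.2, keyF p hp q hq r hr v (hm n le_rfl _ hlw hvD.1) hR⟩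

end CodegDens
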