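import Pool.Agent.Lib.MP_81e58e_co.LabDefs
import Pool.Agent.Lib.MP_81e58e_co.E3Defs

/-!
# The step `a -> (1+a)/3` for `k = 4`: definitions (problem MP_81e58e_co)
-/

namespace CodegDens

/-- The multiset `{a, b, c, d}` is not of the form `{u, u, u, u-1}`. -/
def G4 (a b c d : ZMod 3) : Prop :=
  ¬ (a = b ∧ b = c ∧ d + 1 = a) ∧ ¬ (a = b ∧ b = d ∧ c + 1 = a) ∧
    ¬ (a = c ∧ c = d ∧ b + 1 = a) ∧ ¬ (b = c ∧ c = d ∧ a + 1 = b)

instance (a b c d : ZMod 3) : Decidable (G4 a b c d) := by unfold G4; infer_instance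

instance (z : ZMod 3) : Decidable (In01 z) := by unfold In01; infer_instance

/-- `c` and `d` are adjacent in the homogeneous graph of `Q`. -/
def AdjIn {C : Type} (Q : Set (Multiset C)) (c d : C) : Prop :=
  ({c, c, c, d} : Multiset C) ∈ Q ∨ ({d, d, d, c} : Multiset C) ∈ Q

/-- The pattern `E_3^*[Q]` for `k = 4`: the classes are pairs `(u, c)`; four classes form an edge
if the first coordinates are all equal and the second ones form an edge of `Q`, or the first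
coordinates are not all equal, not of the form `u, u, u, u-1`, and if they are `u, u, u+1, u+1`
then the second coordinates of the two lower classes are adjacent in `Q`. -/
def E3SPat {C : Type} (Q : Set (Multiset C)) : Set (Multiset (ZMod 3 × C)) :=
  {e | e.card = 4 ∧ (∀ u, e.map Prod.fst = {u, u, u, u} → e.map Prod.snd ∈ Q) ∧
    (∀ u, e.map Prod.fst ≠ {u, u, u, u - 1}) ∧
    ∀ u c d c' d', e = {(u, c), (u, d), (u + 1, c'), (u + 1, d')} → AdjIn Q c d}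

/-- `R` is a symmetric relation of four arguments. -/
structure Sym4 {V : Type} (R : V → V → V → V → Prop) : Prop where
  s12 : ∀ x y z v, R x y z v → R y x z v
  s23 : ∀ x y z v, R x y z v → R x z y v
  s34 : ∀ x y z v, R x y z v → R x y v z

/-- Among any three triples of elements of `A` two have a common completion in `B`. -/
def J34 {V : Type} (R : V → V → V → V → Prop) (A B : Set V) : Prop :=
  ∀ x₁ ∈ A, ∀ y₁ ∈ A, ∀ z₁ ∈ A, ∀ x₂ ∈ A, ∀ y₂ ∈ A, ∀ z₂ ∈ A, ∀ x₃ ∈ A, ∀ y₃ ∈ A, ∀ z₃ ∈ A,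
    ∃ v ∈ B, (R x₁ y₁ z₁ v ∧ R x₂ y₂ z₂ v) ∨ (R x₁ y₁ z₁ v ∧ R x₃ y₃ z₃ v) ∨
      (R x₂ y₂ z₂ v ∧ R x₃ y₃ z₃ v)

/-- `Z` is a closed sub-chain of depth `w` of the chain `Y`, starting at the level `j`. -/
structure SubCh {V : Type} (R : V → V → V → V → Prop) (Y : ℕ → Set V) (j w : ℕ)
    (Z : ℕ → Set V) : Prop where
  nonempty : (Z 0).Nonempty
  sub : ∀ l, l ≤ w → Z l ⊆ Y (j + l)
  mono : ∀ l, l < w → Z l ⊆ Z (l + 1)
  closed : ∀ l, l < w → ∀ x ∈ Z l, ∀ y ∈ Z l, ∀ z ∈ Z l, ∀ v ∈ Y (j + l + 1), R x y z v →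
    v ∈ Z (l + 1)

/-- Coherence: every triple of level `j` has a completion in the top of every closed sub-chain
of depth `w` starting at the level `j`. -/
def Coh4 {V : Type} (R : V → V → V → V → Prop) (Z : ℕ → Set V) (n w : ℕ) : Prop :=
  ∀ j, j + w ≤ n → ∀ D : ℕ → Set V, SubCh R Z j w D → ∀ x ∈ Z j, ∀ y ∈ Z j, ∀ z ∈ Z j,
    ∃ v ∈ D w, R x y z v

/-- The relation on types (columns of rows) without coincidences; `rows` is the list of the
(ordered) edges of the window. -/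
def Fw (rows : List (Fin 3 × Fin 3 × Fin 3 × Fin 3)) (p q r z : Fin 3 → ZMod 3) : Prop :=
  ∀ e ∈ rows, G4 (p e.1) (q e.2.1) (r e.2.2.1) (z e.2.2.2)

/-- The relation on types with coincidences: equal types stand for equal labels. -/
def Fs (rows : List (Fin 3 × Fin 3 × Fin 3 × Fin 3)) (p q r z : Fin 3 → ZMod 3) : Prop :=
  ∀ e ∈ rows, G4 (p e.1) (q e.2.1) (r e.2.2.1) (z e.2.2.2) ∧
    (p = q → e.1 = e.2.1 → In01 (p e.1 + r e.2.2.1 + z e.2.2.2)) ∧
    (q = r → e.2.1 = e.2.2.1 → In01 (q e.2.1 + p e.1 + z e.2.2.2)) ∧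
    (p = r → e.1 = e.2.2.1 → In01 (p e.1 + q e.2.1 + z e.2.2.2))

/-- The sixteen orderings of the window edges `0001` and `0112`. -/
def rowsA : List (Fin 3 × Fin 3 × Fin 3 × Fin 3) :=
  [(0, 0, 0, 1), (0, 0, 1, 0), (0, 1, 0, 0), (1, 0, 0, 0),
   (0, 1, 1, 2), (0, 1, 2, 1), (0, 2, 1, 1), (1, 0, 1, 2), (1, 0, 2, 1), (1, 1, 0, 2),
   (1, 1, 2, 0), (1, 2, 0, 1), (1, 2, 1, 0), (2, 0, 1, 1), (2, 1, 0, 1), (2, 1, 1, 0)]

/-- The fifteen orderings of the window edges `0000`, `1111`, `2222` and `0012`. -/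
def rowsB : List (Fin 3 × Fin 3 × Fin 3 × Fin 3) :=
  [(0, 0, 0, 0), (1, 1, 1, 1), (2, 2, 2, 2),
   (0, 0, 1, 2), (0, 0, 2, 1), (0, 1, 0, 2), (0, 1, 2, 0), (0, 2, 0, 1), (0, 2, 1, 0),
   (1, 0, 0, 2), (1, 0, 2, 0), (1, 2, 0, 0), (2, 0, 0, 1), (2, 0, 1, 0), (2, 1, 0, 0)]

/-- A core: `J3` and no proper nonempty closed subset. -/
structure Core4 {T : Type} (F₀ F : T → T → T → T → Prop) (U : Set T) : Prop where
  nonempty : U.Nonempty
  j3 : J34 F U U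
  irr : ∀ K : Set T, K ⊆ U → K.Nonempty →
    (∀ p ∈ K, ∀ q ∈ K, ∀ r ∈ K, ∀ z ∈ U, F₀ p q r z → z ∈ K) → K = U

end CodegDens
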