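import Pool.Agent.Lib.MP_81e58e_co.S4Defs

/-!
# The finite check for the step `a -> (1+a)/3`, `k = 4` (problem MP_81e58e_co)

Types (columns of three rows) are coded by numbers less than `27`. A certificate tree excludes
all cores except those in the statement.
-/

set_option autoImplicit false
set_option maxRecDepth 100000

namespace CodegDens

namespace S4F

/-- the digit `j` of the type `p` -/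
def dg (p j : ℕ) : ℕ := p / 3 ^ j % 3

/-- `G4` on digits -/
def g4 (a b c d : ℕ) : Bool :=
  !((a == b && b == c && (d + 1) % 3 == a) || (a == b && b == d && (c + 1) % 3 == a) ||
    (a == c && c == d && (b + 1) % 3 == a) || (b == c && c == d && (a + 1) % 3 == b))

/-- `In01` on digits -/
def i01 (s : ℕ) : Bool := s % 3 != 2

/-- the relation `Fw` on codes -/
def fw (rows : List (ℕ × ℕ × ℕ × ℕ)) (p q r z : ℕ) : Bool :=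
  rows.all fun e => g4 (dg p e.1) (dg q e.2.1) (dg r e.2.2.1) (dg z e.2.2.2)

/-- the relation `Fs` on codes -/
def fs (rows : List (ℕ × ℕ × ℕ × ℕ)) (p q r z : ℕ) : Bool :=
  rows.all fun e => g4 (dg p e.1) (dg q e.2.1) (dg r e.2.2.1) (dg z e.2.2.2) &&
    (!(p == q && e.1 == e.2.1) || i01 (dg p e.1 + dg r e.2.2.1 + dg z e.2.2.2)) &&
    (!(q == r && e.2.1 == e.2.2.1) || i01 (dg q e.2.1 + dg p e.1 + dg z e.2.2.2)) &&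
    (!(p == r && e.1 == e.2.2.1) || i01 (dg p e.1 + dg q e.2.1 + dg z e.2.2.2))

/-- an elimination step: `EC p q r`: the triple `p q r` has no completion in the core; `EJ`: three
triples without common completions -/
inductive Stp where
  | EC (p q r : ℕ) : Stp
  | EJ (p : ℕ) (s₀ s₁ s₂ : ℕ × ℕ × ℕ) : Stp

/-- the certificate trees -/
inductive Tr where
  | J (s₀ s₁ s₂ : ℕ × ℕ × ℕ) : Tr
  | C (p : ℕ) (S : List ℕ) (t : Tr) : Tr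
  | B (p : ℕ) (t₁ t₂ : Tr) : Tr
  | D (e : Bool) (u : ℕ) (l : List Stp) : Tr
  | X (p : ℕ) : Tr
  | N : Tr

/-- no two of the three triples have a common completion in `up` -/
def noCom (f : ℕ → ℕ → ℕ → ℕ → Bool) (s₀ s₁ s₂ : ℕ × ℕ × ℕ) (up : List ℕ) : Bool :=
  up.all fun z => !((f s₀.1 s₀.2.1 s₀.2.2 z && f s₁.1 s₁.2.1 s₁.2.2 z) ||
    (f s₀.1 s₀.2.1 s₀.2.2 z && f s₂.1 s₂.2.1 s₂.2.2 z) ||
    (f s₁.1 s₁.2.1 s₁.2.2 z && f s₂.1 s₂.2.1 s₂.2.2 z))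

/-- the entries of the triple are in the list -/
def memT (s : ℕ × ℕ × ℕ) (l : List ℕ) : Bool :=
  l.contains s.1 && l.contains s.2.1 && l.contains s.2.2

/-- the type eliminated by the step -/
def Stp.pt : Stp → ℕ
  | .EC p _ _ => p
  | .EJ p _ _ _ => p

/-- correctness of an elimination step -/
def stepOk (f : ℕ → ℕ → ℕ → ℕ → Bool) (inn up A : List ℕ) : Stp → Bool
  | .EC p q r => memT (p, q, r) (p :: inn) && up.all fun z => !f p q r z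
  | .EJ p s₀ s₁ s₂ => memT s₀ (p :: inn) && memT s₁ (p :: inn) && memT s₂ (p :: inn) &&
      noCom f s₀ s₁ s₂ A

/-- a sequence of eliminations -/
def runD (f : ℕ → ℕ → ℕ → ℕ → Bool) (good : ℕ → Bool) (inn up : List ℕ) :
    List ℕ → List Stp → Bool
  | A, [] => A.all good
  | A, st :: l => stepOk f inn up A st && runD f good inn up (A.filter fun x => x != st.pt) l

/-- correctness of a certificate -/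
def check (f w : ℕ → ℕ → ℕ → ℕ → Bool) (good : Bool → ℕ → ℕ → Bool) :
    List ℕ → List ℕ → Tr → Bool
  | inn, up, .J s₀ s₁ s₂ => memT s₀ inn && memT s₁ inn && memT s₂ inn && noCom f s₀ s₁ s₂ up
  | inn, up, .C p S t => inn.contains p && S.contains p &&
      (S.all fun a => S.all fun b => S.all fun c => up.all fun z =>
        !w a b c z || S.contains z) && check f w good inn (up.filter fun x => S.contains x) t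
  | inn, up, .B p t₁ t₂ => check f w good (p :: inn) up t₁ &&
      check f w good inn (up.filter fun x => x != p) t₂
  | inn, up, .D e u l => runD f (good e u) inn up (List.range 27) l
  | inn, up, .X p => inn.contains p && !up.contains p
  | _, up, .N => up.isEmpty

section sound

variable {f w : ℕ → ℕ → ℕ → ℕ → Bool} {good : Bool → ℕ → ℕ → Bool} {U P : ℕ → Prop}

theorem memT_iff {s : ℕ × ℕ × ℕ} {l : List ℕ} (h : memT s l = true) :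
    s.1 ∈ l ∧ s.2.1 ∈ l ∧ s.2.2 ∈ l := by
  simpa [memT, and_assoc] using h

/-- the three triple property -/
def JJ (f : ℕ → ℕ → ℕ → ℕ → Bool) (U : ℕ → Prop) : Prop :=
  ∀ s₀ s₁ s₂ : ℕ × ℕ × ℕ, (U s₀.1 ∧ U s₀.2.1 ∧ U s₀.2.2) → (U s₁.1 ∧ U s₁.2.1 ∧ U s₁.2.2) →
    (U s₂.1 ∧ U s₂.2.1 ∧ U s₂.2.2) → ∃ z, U z ∧
      ((f s₀.1 s₀.2.1 s₀.2.2 z = true ∧ f s₁.1 s₁.2.1 s₁.2.2 z = true) ∨
        (f s₀.1 s₀.2.1 s₀.2.2 z = true ∧ f s₂.1 s₂.2.1 s₂.2.2 z = true) ∨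
        (f s₁.1 s₁.2.1 s₁.2.2 z = true ∧ f s₂.1 s₂.2.1 s₂.2.2 z = true))

theorem noCom_false {s₀ s₁ s₂ : ℕ × ℕ × ℕ} {up : List ℕ} (h : noCom f s₀ s₁ s₂ up = true)
    (hJ : JJ f U) (hup : ∀ x, U x → x ∈ up) (h₀ : U s₀.1 ∧ U s₀.2.1 ∧ U s₀.2.2)
    (h₁ : U s₁.1 ∧ U s₁.2.1 ∧ U s₁.2.2) (h₂ : U s₂.1 ∧ U s₂.2.1 ∧ U s₂.2.2) : False := by
  obtain ⟨z, hz, hc⟩ := hJ s₀ s₁ s₂ h₀ h₁ h₂
  have h3 := (List.all_eq_true.1 h) z (hup z hz)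
  rcases hc with ⟨a, b⟩ | ⟨a, b⟩ | ⟨a, b⟩ <;> simp [a, b] at h3

theorem runD_sound (hUP : ∀ x, U x → P x) (hJP : JJ f P)
    (hP : ∀ p q r, P p → P q → P r → ∃ z, U z ∧ f p q r z = true) (gd : ℕ → Bool)
    (inn up : List ℕ) (hinn : ∀ x ∈ inn, U x) (hup : ∀ x, U x → x ∈ up) (l : List Stp) :
    ∀ A : List ℕ, (∀ x, P x → x ∈ A) → runD f gd inn up A l = true →
      ∀ p, P p → gd p = true := by
  induction l with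
  | nil =>
    intro A hA h p hp
    exact (List.all_eq_true.1 h) p (hA p hp)
  | cons st l ih =>
    intro A hA h
    rw [runD, Bool.and_eq_true] at h
    refine ih _ ?_ h.2
    intro x hx
    rw [List.mem_filter]
    refine ⟨hA x hx, ?_⟩
    rw [bne_iff_ne]
    intro hxe
    have h1 := h.1
    cases st with
    | EC p q r =>
      change x = p at hxe
      subst hxe
      rw [stepOk, Bool.and_eq_true] at h1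
      obtain ⟨ha, hb, hc⟩ := memT_iff h1.1
      have key : ∀ y, y ∈ x :: inn → P y := by
        intro y hy
        rcases List.mem_cons.1 hy with rfl | hy
        · exact hx
        · exact hUP y (hinn y hy)
      obtain ⟨z, hz, hf⟩ := hP x q r hx (key _ hb) (key _ hc)
      have h2 := (List.all_eq_true.1 h1.2) z (hup z hz)
      simp [hf] at h2
    | EJ p s₀ s₁ s₂ =>
      change x = p at hxe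
      subst hxe
      rw [stepOk, Bool.and_eq_true, Bool.and_eq_true, Bool.and_eq_true] at h1
      have key : ∀ y, y ∈ x :: inn → P y := by
        intro y hy
        rcases List.mem_cons.1 hy with rfl | hy
        · exact hx
        · exact hUP y (hinn y hy)
      obtain ⟨⟨⟨g0, g1⟩, g2⟩, g3⟩ := h1
      obtain ⟨a0, b0, c0⟩ := memT_iff g0
      obtain ⟨a1, b1, c1⟩ := memT_iff g1
      obtain ⟨a2, b2, c2⟩ := memT_iff g2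
      exact noCom_false g3 hJP hA ⟨key _ a0, key _ b0, key _ c0⟩ ⟨key _ a1, key _ b1, key _ c1⟩
        ⟨key _ a2, key _ b2, key _ c2⟩

theorem check_sound (h27 : ∀ x, P x → x < 27) (hne : ∃ x, U x) (hUP : ∀ x, U x → P x)
    (hJU : JJ f U) (hJP : JJ f P)
    (hI : ∀ K : ℕ → Prop, (∀ x, K x → U x) → (∃ x, K x) →
      (∀ a b c z, K a → K b → K c → U z → w a b c z = true → K z) → ∀ x, U x → K x)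
    (hP : ∀ p q r, P p → P q → P r → ∃ z, U z ∧ f p q r z = true) (t : Tr) :
    ∀ inn up : List ℕ, check f w good inn up t = true → (∀ x ∈ inn, U x) →
      (∀ x, U x → x ∈ up) → ∃ e u, ∀ p, P p → good e u p = true := by
  induction t with
  | J s₀ s₁ s₂ =>
    intro inn up h hinn hup
    rw [check, Bool.and_eq_true, Bool.and_eq_true, Bool.and_eq_true] at h
    obtain ⟨⟨⟨g0, g1⟩, g2⟩, g3⟩ := h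
    obtain ⟨a0, b0, c0⟩ := memT_iff g0
    obtain ⟨a1, b1, c1⟩ := memT_iff g1
    obtain ⟨a2, b2, c2⟩ := memT_iff g2
    exact (noCom_false g3 hJU hup ⟨hinn _ a0, hinn _ b0, hinn _ c0⟩
      ⟨hinn _ a1, hinn _ b1, hinn _ c1⟩ ⟨hinn _ a2, hinn _ b2, hinn _ c2⟩).elim
  | C p S t ih =>
    intro inn up h hinn hup
    rw [check, Bool.and_eq_true, Bool.and_eq_true, Bool.and_eq_true] at h
    obtain ⟨⟨⟨g0, g1⟩, g2⟩, g3⟩ := h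
    have hp : p ∈ inn := by simpa using g0
    have hpS : p ∈ S := by simpa using g1
    refine ih inn _ g3 hinn ?_
    intro x hx
    rw [List.mem_filter]
    refine ⟨hup x hx, ?_⟩
    have hK := hI (fun y => U y ∧ y ∈ S) (fun y hy => hy.1) ⟨p, hinn p hp, hpS⟩ ?_ x hx
    · simpa using hK.2
    · intro a b c z ha hb hc hz hw
      refine ⟨hz, ?_⟩
      have h1 := (List.all_eq_true.1 g2) a ha.2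
      have h2 := (List.all_eq_true.1 h1) b hb.2
      have h3 := (List.all_eq_true.1 h2) c hc.2
      have h4 := (List.all_eq_true.1 h3) z (hup z hz)
      simpa [hw] using h4
  | B p t₁ t₂ ih₁ ih₂ =>
    intro inn up h hinn hup
    rw [check, Bool.and_eq_true] at h
    by_cases hp : U p
    · refine ih₁ _ up h.1 ?_ hup
      intro x hx
      rcases List.mem_cons.1 hx with rfl | hx
      · exact hp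
      · exact hinn x hx
    · refine ih₂ inn _ h.2 hinn ?_
      intro x hx
      rw [List.mem_filter]
      refine ⟨hup x hx, ?_⟩
      rw [bne_iff_ne]
      rintro rfl
      exact hp hx
  | D e u l =>
    intro inn up h hinn hup
    rw [check] at h
    exact ⟨e, u, runD_sound hUP hJP hP (good e u) inn up hinn hup l (List.range 27)
      (fun x hx => List.mem_range.2 (h27 x hx)) h⟩
  | X p =>
    intro inn up h hinn hup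
    rw [check, Bool.and_eq_true] at h
    have h1 : p ∈ inn := by simpa using h.1
    have h2 : p ∉ up := by simpa using h.2
    exact (h2 (hup p (hinn p h1))).elim
  | N =>
    intro inn up h hinn hup
    obtain ⟨x, hx⟩ := hne
    have h1 : up = [] := by simpa [check] using h
    have h2 := hup x hx
    rw [h1] at h2
    simp at h2

end sound

/-! ## Transfer to types -/

/-- the code of a type -/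
def code (p : Fin 3 → ZMod 3) : ℕ := (p 0).val + 3 * (p 1).val + 9 * (p 2).val

theorem code_lt (p : Fin 3 → ZMod 3) : code p < 27 := by
  have h0 := (p 0).val_lt
  have h1 := (p 1).val_lt
  have h2 := (p 2).val_lt
  unfold code
  omega

theorem dg_code (p : Fin 3 → ZMod 3) (j : Fin 3) : dg (code p) j.val = (p j).val := by
  have h0 := (p 0).val_lt
  have h1 := (p 1).val_lt
  have h2 := (p 2).val_lt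
  unfold dg code
  fin_cases j <;> simp <;> omega

theorem code_inj {p q : Fin 3 → ZMod 3} (h : code p = code q) : p = q := by
  funext j
  apply ZMod.val_injective
  rw [← dg_code, ← dg_code, h]

theorem g4_iff : ∀ a b c d : ZMod 3, g4 a.val b.val c.val d.val = true ↔ G4 a b c d := by
  decide

theorem i01_iff : ∀ a b c : ZMod 3, i01 (a.val + b.val + c.val) = true ↔ In01 (a + b + c) := by
  decide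

/-- rows as numbers -/
def rowsN (rows : List (Fin 3 × Fin 3 × Fin 3 × Fin 3)) : List (ℕ × ℕ × ℕ × ℕ) :=
  rows.map fun e => (e.1.val, e.2.1.val, e.2.2.1.val, e.2.2.2.val)

theorem fw_iff (rows : List (Fin 3 × Fin 3 × Fin 3 × Fin 3)) (p q r z : Fin 3 → ZMod 3) :
    fw (rowsN rows) (code p) (code q) (code r) (code z) = true ↔ Fw rows p q r z := by
  unfold fw rowsN Fw
  rw [List.all_map, List.all_eq_true]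
  refine forall₂_congr fun e _ => ?_
  rw [Function.comp_apply]
  simp only [dg_code]
  exact g4_iff _ _ _ _

theorem bimp {a b c d : ℕ} {x : Bool} :
    (!(a == b && c == d) || x) = true ↔ (a = b → c = d → x = true) := by
  cases x
  · simp only [Bool.or_false, Bool.not_eq_true', Bool.and_eq_false_iff, beq_eq_false_iff_ne,
      ne_eq, Bool.false_eq_true]
    tauto
  · simp

theorem code_eq (p q : Fin 3 → ZMod 3) : code p = code q ↔ p = q :=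
  ⟨code_inj, fun h => by rw [h]⟩

theorem fs_iff (rows : List (Fin 3 × Fin 3 × Fin 3 × Fin 3)) (p q r z : Fin 3 → ZMod 3) :
    fs (rowsN rows) (code p) (code q) (code r) (code z) = true ↔ Fs rows p q r z := by
  unfold fs rowsN Fs
  rw [List.all_map, List.all_eq_true]
  refine forall₂_congr fun e _ => ?_
  rw [Function.comp_apply, Bool.and_eq_true, Bool.and_eq_true, Bool.and_eq_true, bimp, bimp,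
    bimp]
  simp only [dg_code]
  rw [g4_iff, i01_iff, i01_iff, i01_iff, code_eq, code_eq, code_eq, Fin.val_inj, Fin.val_inj,
    Fin.val_inj, and_assoc, and_assoc]

/-- the conclusion for the first window -/
def goodA (e : Bool) (u p : ℕ) : Bool :=
  if e then dg p 0 == dg p 1 && dg p 1 == dg p 2 else dg p 0 == u

/-- the conclusion for the second window -/
def goodB (e : Bool) (u p : ℕ) : Bool :=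
  if e then dg p 0 == dg p 1 && dg p 1 == dg p 2 else p == u

theorem jj_of {rows : List (Fin 3 × Fin 3 × Fin 3 × Fin 3)} {U : Set (Fin 3 → ZMod 3)}
    (h : J34 (Fs rows) U U) : JJ (fs (rowsN rows)) (fun n => ∃ p ∈ U, code p = n) := by
  rintro ⟨x0, y0, z0⟩ ⟨x1, y1, z1⟩ ⟨x2, y2, z2⟩ ⟨⟨a0, ha0, rfl⟩, ⟨b0, hb0, rfl⟩, ⟨c0, hc0, rfl⟩⟩
    ⟨⟨a1, ha1, rfl⟩, ⟨b1, hb1, rfl⟩, ⟨c1, hc1, rfl⟩⟩
    ⟨⟨a2, ha2, rfl⟩, ⟨b2, hb2, rfl⟩, ⟨c2, hc2, rfl⟩⟩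
  obtain ⟨v, hv, hc⟩ := h a0 ha0 b0 hb0 c0 hc0 a1 ha1 b1 hb1 c1 hc1 a2 ha2 b2 hb2 c2 hc2
  refine ⟨code v, ⟨v, hv, rfl⟩, ?_⟩
  simp only [fs_iff]
  exact hc

theorem transfer {rows : List (Fin 3 × Fin 3 × Fin 3 × Fin 3)}
    (good : Bool → ℕ → ℕ → Bool) (t : Tr)
    (ht : check (fs (rowsN rows)) (fw (rowsN rows)) good [] (List.range 27) t = true)
    (U P : Set (Fin 3 → ZMod 3)) (hU : Core4 (Fw rows) (Fs rows) U) (hUP : U ⊆ P)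
    (hJ : J34 (Fs rows) P P) (hP : ∀ p ∈ P, ∀ q ∈ P, ∀ r ∈ P, ∃ z ∈ U, Fs rows p q r z) :
    ∃ e u, ∀ p ∈ P, good e u (code p) = true := by
  obtain ⟨e, u, h⟩ := check_sound (f := fs (rowsN rows)) (w := fw (rowsN rows)) (good := good)
    (U := fun n => ∃ p ∈ U, code p = n) (P := fun n => ∃ p ∈ P, code p = n)
    (by rintro x ⟨p, _, rfl⟩; exact code_lt p)
    (by obtain ⟨p, hp⟩ := hU.nonempty; exact ⟨code p, p, hp, rfl⟩)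
    (by rintro x ⟨p, hp, rfl⟩; exact ⟨p, hUP hp, rfl⟩) (jj_of hU.j3) (jj_of hJ)
    (by
      intro K hK hne hcl x hx
      have h1 := hU.irr {p | K (code p)} (by
          intro p hp
          obtain ⟨p', hp', he⟩ := hK _ hp
          rwa [← code_inj he])
        (by
          obtain ⟨n, hn⟩ := hne
          obtain ⟨p, _, rfl⟩ := hK n hn
          exact ⟨p, hn⟩)
        (by
          intro p hp q hq r hr z hz hw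
          exact hcl _ _ _ _ hp hq hr ⟨z, hz, rfl⟩ ((fw_iff rows p q r z).2 hw))
      obtain ⟨p, hp, rfl⟩ := hx
      rw [← h1] at hp
      exact hp)
    (by
      rintro _ _ _ ⟨p, hp, rfl⟩ ⟨q, hq, rfl⟩ ⟨r, hr, rfl⟩
      obtain ⟨z, hz, hf⟩ := hP p hp q hq r hr
      exact ⟨code z, ⟨z, hz, rfl⟩, (fs_iff rows p q r z).2 hf⟩)
    t [] (List.range 27) ht (by simp) (by
      rintro x ⟨p, _, rfl⟩
      exact List.mem_range.2 (code_lt p))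
  exact ⟨e, u, fun p hp => h _ ⟨p, hp, rfl⟩⟩

theorem eq_rows {p : Fin 3 → ZMod 3}
    (h : (dg (code p) 0 == dg (code p) 1 && dg (code p) 1 == dg (code p) 2) = true) :
    p 0 = p 1 ∧ p 1 = p 2 := by
  have h0 : dg (code p) 0 = (p 0).val := dg_code p 0
  have h1 : dg (code p) 1 = (p 1).val := dg_code p 1
  have h2 : dg (code p) 2 = (p 2).val := dg_code p 2
  rw [h0, h1, h2, Bool.and_eq_true, beq_iff_eq, beq_iff_eq] at h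
  exact ⟨ZMod.val_injective _ h.1, ZMod.val_injective _ h.2⟩

/-! ## The certificates -/

/-- certificate for the first window -/
def treeA : Tr :=
  (.B 0 (.B 5 (.J (0,0,5) (0,0,5) (0,0,5)) (.B 7 (.J (0,0,7) (0,0,7) (0,0,7)) (.B 11 (.J (0,0,11)
  (0,0,11) (0,0,11)) (.B 15 (.J (0,0,15) (0,0,15) (0,0,15)) (.B 19 (.J (0,0,19) (0,0,19)
  (0,0,19)) (.B 21 (.J (0,0,21) (0,0,21) (0,0,21)) (.B 1 (.D false 1 [.EJ 2 (0,0,2) (1,2,2)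
  (0,0,1),.EJ 3 (0,1,3) (1,1,3) (1,3,3),.EC 5 5 1,.EC 6 6 1,.EJ 8 (0,0,1) (0,0,8) (1,1,1),.EC 11
  11 1,.EJ 12 (1,1,12) (1,1,12) (1,1,12),.EC 14 1 1,.EC 15 0 0,.EC 17 1 1,.EC 18 18 1,.EC 20 1
  1,.EC 21 0 0,.EC 23 1 1,.EC 24 24 1,.EJ 26 (1,1,1) (1,1,1) (1,1,1),.EJ 0 (1,1,1) (1,1,1)
  (1,1,1),.EJ 9 (1,1,1) (1,1,1) (1,1,1)]) (.B 2 (.D false 0 [.EJ 1 (0,0,2) (1,2,2) (0,0,1),.EJ 4
  (0,0,2) (0,0,4) (2,2,2),.EC 5 5 2,.EC 7 7 2,.EC 8 2 2,.EC 10 2 2,.EC 11 0 0,.EJ 13 (0,0,2)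
  (2,2,2) (2,13,13),.EC 14 14 2,.EC 16 16 2,.EJ 17 (0,0,2) (0,0,2) (0,0,2),.EC 19 19 0,.EJ 20
  (0,0,2) (0,0,2) (0,0,2),.EJ 22 (0,0,2) (0,0,2) (0,0,2),.EC 23 23 2,.EC 25 25 2,.EJ 26 (0,0,2)
  (0,0,2) (0,0,2),.EJ 2 (0,0,2) (0,0,2) (0,0,2)]) (.B 3 (.B 6 (.J (0,0,6) (3,3,6) (0,3,3)) (.B 8
  (.J (0,0,8) (0,3,3) (3,3,8)) (.B 9 (.J (3,3,9) (3,3,9) (3,3,9)) (.B 10 (.J (3,3,10) (3,3,10)
  (3,3,10)) (.B 14 (.J (3,3,14) (3,3,14) (3,3,14)) (.B 17 (.J (0,3,17) (3,17,17) (17,17,17)) (.B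
  20 (.J (0,0,20) (0,0,3) (20,20,20)) (.B 12 (.J (3,3,12) (3,3,12) (3,3,12)) (.B 22 (.J (0,0,22)
  (0,0,3) (3,3,22)) (.B 23 (.J (3,3,23) (23,23,23) (0,0,23)) (.B 24 (.J (3,24,24) (3,24,24)
  (3,24,24)) (.B 25 (.J (3,3,25) (3,3,25) (3,3,25)) (.B 4 (.D false 0 [.EC 1 1 3,.EJ 2 (0,0,2)
  (4,4,4) (2,4,4),.EC 5 0 0,.EC 7 0 0,.EC 8 3 3,.EC 10 10 3,.EC 11 11 3,.EC 14 14 3,.EJ 16
  (0,0,16) (4,4,16) (0,0,4),.EJ 17 (3,17,17) (3,3,17) (17,17,17),.EC 19 19 0,.EJ 20 (0,0,20)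
  (4,4,4) (0,0,4),.EC 22 4 4,.EC 23 4 4,.EC 25 3 3,.EJ 26 (4,4,4) (3,26,26) (0,0,4),.EJ 4 (3,4,4)
  (3,4,4) (3,4,4),.EJ 13 (3,3,13) (3,3,13) (3,3,13)]) (.B 13 (.D false 0 [.EC 1 1 3,.EJ 2 (0,0,2)
  (3,13,13) (2,2,2),.EC 5 5 13,.EC 7 0 0,.EC 8 3 3,.EC 10 10 3,.EC 11 11 3,.EC 14 14 3,.EJ 16
  (0,0,16) (13,16,16) (0,0,3),.EJ 17 (3,17,17) (3,13,13) (3,3,17),.EC 19 19 0,.EJ 20 (0,0,20)
  (13,13,20) (3,13,13),.EJ 22 (0,0,22) (3,3,22) (22,22,22),.EJ 23 (13,23,23) (3,13,23)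
  (23,23,23),.EC 25 3 3,.EJ 26 (3,26,26) (3,13,13) (0,0,3),.EJ 4 (3,3,13) (3,3,13) (3,3,13),.EJ
  13 (3,3,13) (3,3,13) (3,3,13)]) (.D false 0 [.EC 1 1 3,.EC 2 2 0,.EC 5 0 0,.EC 7 0 0,.EC 8 0
  0,.EC 10 10 3,.EC 11 11 3,.EC 14 14 3,.EJ 17 (0,3,17) (3,17,17) (17,17,17),.EC 19 19 0,.EC 20
  20 3,.EJ 22 (0,0,22) (3,3,22) (0,0,3),.EJ 23 (0,0,23) (3,3,23) (23,23,23),.EC 25 3 3,.EC 26 26
  3,.EJ 4 (3,4,4) (3,4,4) (3,4,4),.EJ 13 (3,3,13) (3,3,13) (3,3,13),.EJ 16 (0,0,16) (0,0,16)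
  (0,0,16)]))))))))))))))) (.B 4 (.D false 0 [.EC 1 1 4,.EJ 2 (0,0,2) (0,0,4) (2,2,2),.EC 5 0
  0,.EC 7 0 0,.EJ 8 (0,0,4) (0,0,8) (4,4,4),.EC 10 10 4,.EC 11 11 4,.EC 14 14 4,.EJ 16 (0,0,16)
  (0,0,4) (4,4,16),.EJ 17 (0,0,4) (0,4,17) (4,4,17),.EC 19 19 0,.EJ 20 (0,0,20) (4,4,4)
  (0,0,4),.EC 22 4 4,.EC 23 4 4,.EJ 25 (0,4,25) (4,4,25) (0,0,4),.EJ 26 (4,4,4) (0,0,4)
  (4,26,26),.EJ 4 (4,4,4) (4,4,4) (4,4,4),.EJ 13 (4,4,4) (4,4,4) (4,4,4)]) (.B 6 (.B 13 (.B 8 (.J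
  (0,0,6) (8,13,13) (6,8,8)) (.B 9 (.J (0,0,6) (9,13,13) (0,0,9)) (.B 10 (.J (0,0,6) (0,0,10)
  (10,13,13)) (.B 12 (.J (6,6,12) (6,6,12) (6,6,12)) (.B 14 (.J (6,14,14) (6,14,14) (6,14,14))
  (.B 16 (.J (0,0,6) (0,0,16) (6,16,16)) (.B 17 (.J (6,17,17) (6,17,17) (6,17,17)) (.B 18 (.J
  (6,6,18) (6,6,18) (6,6,18)) (.B 20 (.J (6,6,20) (6,6,20) (6,6,20)) (.B 22 (.J (0,0,6) (0,0,22)
  (6,22,22)) (.B 23 (.J (0,0,6) (23,23,23) (6,23,23)) (.B 24 (.J (6,6,24) (6,6,24) (6,6,24)) (.B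
  25 (.J (6,6,25) (6,6,25) (6,6,25)) (.B 26 (.J (0,0,6) (6,26,26) (6,6,13)) (.C 13 [13] (.X
  0)))))))))))))))) (.J (0,0,6) (0,0,6) (0,0,6))) (.B 8 (.D false 0 [.EJ 1 (0,0,1) (0,0,8)
  (1,1,1),.EC 2 2 8,.EJ 4 (0,0,4) (0,0,8) (4,4,4),.EC 5 0 0,.EC 7 7 8,.EJ 10 (0,0,10) (8,8,10)
  (8,8,8),.EC 11 11 8,.EJ 13 (0,0,8) (8,13,13) (8,8,8),.EJ 14 (0,0,8) (8,8,14) (14,14,14),.EC 16
  16 8,.EC 17 17 8,.EC 19 19 0,.EJ 20 (0,0,20) (0,0,20) (0,0,20),.EJ 22 (0,0,8) (0,0,22)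
  (8,8,22),.EJ 23 (0,0,8) (0,0,8) (0,0,8),.EC 25 25 8,.EJ 26 (0,0,8) (0,0,8) (0,0,8),.EJ 8
  (0,0,8) (0,0,8) (0,0,8)]) (.B 9 (.B 12 (.J (9,12,12) (9,12,12) (9,12,12)) (.B 14 (.J (0,14,14)
  (0,0,9) (14,14,14)) (.B 16 (.J (0,0,16) (0,0,9) (16,16,16)) (.B 17 (.J (0,0,9) (9,17,17)
  (0,0,17)) (.B 18 (.J (9,18,18) (9,18,18) (9,18,18)) (.B 20 (.J (9,20,20) (9,20,20) (9,20,20))
  (.B 22 (.J (0,0,22) (0,0,9) (22,22,22)) (.B 24 (.J (0,0,24) (24,24,24) (0,0,9)) (.B 25 (.J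
  (25,25,25) (25,25,25) (25,25,25)) (.B 10 (.D false 1 [.EC 2 2 2,.EC 3 3 9,.EC 5 5 10,.EJ 6
  (0,0,6) (0,0,10) (6,6,10),.EJ 8 (9,9,10) (0,0,8) (10,10,10),.EC 11 11 9,.EC 12 12 12,.EC 14 10
  10,.EC 15 0 0,.EJ 17 (0,0,10) (10,10,17) (10,10,10),.EC 18 18 9,.EC 20 20 9,.EC 21 21 0,.EJ 23
  (10,10,23) (0,0,10) (9,10,23),.EC 24 24 10,.EJ 26 (0,0,10) (10,10,10) (9,26,26),.EJ 0
  (10,10,10) (10,10,10) (10,10,10),.EJ 9 (0,0,10) (0,0,10) (0,0,10)]) (.B 13 (.D false 0 [.EC 1 1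
  1,.EC 2 2 2,.EC 5 5 13,.EC 7 7 9,.EJ 8 (0,0,8) (9,13,13) (8,13,13),.EC 11 11 9,.EC 14 14 14,.EJ
  16 (0,0,16) (13,16,16) (0,0,9),.EJ 17 (9,13,13) (17,17,17) (13,13,17),.EC 19 19 0,.EC 20 20
  9,.EJ 22 (0,0,22) (22,22,22) (9,9,9),.EJ 23 (13,13,23) (0,9,23) (23,23,23),.EC 25 25 25,.EJ 26
  (9,26,26) (9,13,13) (0,0,9),.EJ 4 (4,4,4) (4,4,4) (4,4,4),.EJ 10 (9,13,13) (9,13,13)
  (9,13,13),.EJ 13 (9,13,13) (9,13,13) (9,13,13)]) (.C 0 [0,9] (.D false 0 [.EC 1 1 1,.EC 2 2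
  2,.EC 4 4 4,.EC 5 5 0,.EC 7 7 7,.EC 8 8 8,.EC 10 10 10,.EC 11 11 11,.EC 13 13 13,.EC 14 14
  14,.EC 16 16 16,.EC 17 17 0,.EC 19 19 19,.EC 20 20 20,.EC 22 22 22,.EC 23 23 0,.EC 25 25 25,.EC
  26 26 0]))))))))))))) (.B 10 (.D false 1 [.EC 2 2 10,.EC 3 3 10,.EC 5 5 10,.EJ 6 (0,0,6)
  (0,0,10) (6,6,10),.EJ 8 (0,0,10) (0,0,8) (8,8,8),.EC 11 0 0,.EC 12 12 10,.EC 14 10 10,.EC 15 0
  0,.EJ 17 (0,0,10) (10,10,10) (10,10,17),.EC 18 18 10,.EJ 20 (0,0,10) (0,0,20) (10,10,20),.EC 21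
  21 0,.EJ 23 (0,0,10) (0,10,23) (10,10,23),.EC 24 24 10,.EJ 26 (0,0,10) (10,10,10)
  (10,10,26),.EJ 0 (10,10,10) (10,10,10) (10,10,10),.EJ 9 (0,0,10) (0,0,10) (0,0,10)]) (.B 14 (.J
  (0,14,14) (14,14,14) (0,0,0)) (.B 12 (.D false 0 [.EC 1 1 12,.EC 2 2 12,.EJ 4 (4,4,12)
  (12,12,12) (0,0,4),.EC 5 5 12,.EC 7 0 0,.EJ 8 (12,12,12) (0,0,8) (0,12,12),.EC 10 10 12,.EC 11
  11 12,.EJ 13 (12,12,12) (12,12,13) (0,12,12),.EC 14 12 12,.EJ 16 (0,0,16) (12,12,12)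
  (0,12,12),.EJ 17 (12,12,12) (12,12,17) (12,17,17),.EC 19 19 0,.EC 20 20 12,.EC 22 12 12,.EC 23
  12 12,.EC 25 12 12,.EJ 26 (12,12,12) (12,12,12) (12,12,12)]) (.B 25 (.J (25,25,25) (25,25,25)
  (25,25,25)) (.B 13 (.B 17 (.J (13,13,17) (17,17,17) (0,0,17)) (.B 20 (.J (0,0,20) (13,13,20)
  (20,20,20)) (.B 23 (.J (13,13,23) (23,23,23) (0,0,23)) (.B 24 (.J (24,24,24) (24,24,24)
  (24,24,24)) (.B 16 (.D false 0 [.EC 1 1 1,.EC 2 2 16,.EJ 4 (0,0,16) (0,0,4) (4,4,16),.EC 5 5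
  13,.EC 7 0 0,.EC 8 16 16,.EC 10 10 16,.EC 11 0 0,.EC 14 14 16,.EJ 17 (0,0,16) (13,13,17)
  (17,17,17),.EC 19 19 0,.EJ 20 (0,0,16) (0,0,20) (13,13,20),.EC 22 16 16,.EC 23 23 16,.EC 25 25
  25,.EJ 26 (0,0,16) (16,26,26) (13,13,16),.EJ 13 (0,0,16) (0,0,16) (0,0,16),.EJ 16 (0,0,16)
  (0,0,16) (0,0,16)]) (.B 18 (.B 22 (.J (0,0,18) (0,0,22) (18,22,22)) (.B 26 (.J (0,0,18)
  (18,26,26) (13,13,18)) (.C 13 [13] (.X 0)))) (.B 22 (.D false 0 [.EC 1 1 1,.EC 2 2 2,.EC 4 4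
  22,.EC 5 5 13,.EC 7 7 13,.EJ 8 (0,0,8) (8,22,22) (0,0,22),.EJ 10 (0,0,10) (0,0,22)
  (13,13,22),.EC 11 11 22,.EC 14 14 14,.EC 16 16 22,.EJ 17 (0,0,22) (17,22,22) (17,17,22),.EC 19
  19 0,.EJ 20 (0,0,20) (0,0,22) (20,20,22),.EJ 23 (0,0,22) (22,22,23) (23,23,23),.EC 25 25 25,.EJ
  26 (0,0,22) (22,26,26) (22,22,22),.EJ 13 (0,0,22) (0,0,22) (0,0,22),.EJ 22 (0,0,22) (0,0,22)
  (0,0,22)]) (.B 26 (.D true 0 [.EC 1 1 1,.EC 2 2 2,.EJ 3 (3,26,26) (3,13,13) (0,0,3),.EJ 4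
  (0,0,4) (4,13,13) (4,26,26),.EC 5 5 13,.EJ 6 (0,0,6) (6,26,26) (6,13,13),.EC 7 7 13,.EJ 8
  (0,0,8) (8,13,13) (8,8,8),.EJ 9 (9,13,13) (9,26,26) (0,0,9),.EJ 10 (0,0,10) (10,13,13)
  (10,26,26),.EC 11 11 26,.EC 12 12 12,.EC 14 14 14,.EC 15 15 26,.EJ 16 (0,0,16) (16,26,26)
  (16,16,16),.EJ 17 (13,13,17) (17,26,26) (0,0,17),.EJ 18 (0,0,18) (18,26,26) (13,13,18),.EC 19
  19 0,.EJ 20 (0,0,20) (13,13,20) (20,26,26),.EC 21 21 0,.EJ 22 (0,0,22) (22,26,26)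
  (22,22,22),.EJ 23 (23,26,26) (13,23,23) (0,0,23),.EC 24 24 24,.EC 25 25 25]) (.C 13 [13] (.X
  0)))))))))) (.C 0 [0] (.D false 0 [.EC 1 1 1,.EC 2 2 2,.EC 4 4 4,.EC 5 5 0,.EC 7 7 7,.EC 8 8
  8,.EC 10 10 10,.EC 11 11 11,.EC 13 13 13,.EC 14 14 14,.EC 16 16 16,.EC 17 17 0,.EC 19 19 19,.EC
  20 20 20,.EC 22 22 22,.EC 23 23 0,.EC 25 25 25,.EC 26 26 0])))))))))))))))))))) (.B 1 (.D false
  1 [.EJ 2 (1,2,2) (1,1,2) (2,2,2),.EJ 3 (1,1,3) (1,3,3) (1,1,1),.EC 5 5 1,.EC 6 6 1,.EJ 8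
  (1,1,1) (1,1,8) (8,8,8),.EC 11 11 1,.EJ 12 (1,1,12) (1,1,12) (1,1,12),.EC 14 1 1,.EC 15 1 1,.EC
  17 1 1,.EC 18 18 1,.EC 20 1 1,.EJ 21 (1,1,21) (1,21,21) (21,21,21),.EC 23 1 1,.EC 24 24 1,.EJ
  26 (1,1,1) (1,1,1) (1,1,1),.EJ 0 (1,1,1) (1,1,1) (1,1,1),.EJ 9 (1,1,1) (1,1,1) (1,1,1)]) (.B 2
  (.D false 0 [.EJ 1 (1,2,2) (1,1,2) (2,2,2),.EJ 4 (2,2,2) (2,4,4) (4,4,4),.EC 5 5 2,.EC 7 7
  2,.EC 8 2 2,.EC 10 2 2,.EC 11 2 2,.EC 14 14 2,.EC 16 16 2,.EJ 17 (2,2,2) (2,2,17) (2,17,17),.EC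
  19 19 2,.EJ 22 (2,2,2) (2,2,22) (2,22,22),.EC 23 23 2,.EC 25 25 2,.EJ 26 (2,2,2) (2,2,2)
  (2,2,2),.EJ 2 (2,2,2) (2,2,2) (2,2,2),.EJ 13 (2,2,2) (2,2,2) (2,2,2),.EJ 20 (2,2,2) (2,2,2)
  (2,2,2)]) (.B 3 (.B 7 (.J (3,3,7) (7,7,7) (3,3,3)) (.B 9 (.J (3,3,9) (3,9,9) (3,3,3)) (.B 10
  (.J (3,3,10) (3,3,10) (3,3,10)) (.B 11 (.J (3,3,11) (3,3,11) (3,3,11)) (.B 14 (.J (3,14,14)
  (3,14,14) (3,14,14)) (.B 15 (.J (3,3,15) (3,3,15) (3,3,15)) (.B 19 (.J (3,19,19) (3,19,19)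
  (3,19,19)) (.B 22 (.J (3,3,22) (3,22,22) (22,22,22)) (.B 23 (.J (23,23,23) (23,23,23)
  (23,23,23)) (.B 6 (.J (3,6,6) (3,6,6) (3,6,6)) (.B 5 (.J (5,5,5) (5,5,5) (5,5,5)) (.B 8 (.J
  (3,3,8) (3,8,8) (3,3,3)) (.B 24 (.J (3,24,24) (3,24,24) (3,24,24)) (.B 25 (.J (3,3,25) (3,3,25)
  (3,3,25)) (.B 4 (.D false 0 [.EC 1 1 3,.EC 2 4 4,.EC 5 5 5,.EC 7 4 4,.EC 8 4 4,.EC 10 10 3,.EC
  11 11 3,.EC 14 14 3,.EJ 16 (3,3,16) (4,4,16) (3,3,3),.EJ 17 (3,3,17) (3,17,17) (3,4,4),.EC 19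
  19 3,.EJ 20 (4,4,4) (3,20,20) (4,4,20),.EC 22 4 4,.EC 23 23 23,.EC 25 3 3,.EJ 26 (3,4,4)
  (3,26,26) (3,3,3),.EJ 4 (3,4,4) (3,4,4) (3,4,4),.EJ 13 (3,3,13) (3,3,13) (3,3,13)]) (.B 12 (.D
  false 0 [.EC 1 1 3,.EC 2 2 12,.EC 5 5 5,.EJ 7 (3,3,12) (3,3,7) (7,7,12),.EJ 8 (3,3,12) (3,8,8)
  (3,3,8),.EC 10 10 3,.EC 11 11 3,.EC 14 14 3,.EJ 16 (3,3,12) (3,3,16) (12,16,16),.EJ 17 (3,3,12)
  (3,3,17) (3,17,17),.EC 19 19 3,.EC 20 20 12,.EC 22 12 12,.EC 23 23 23,.EC 25 3 3,.EJ 26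
  (3,3,12) (3,3,12) (3,3,12),.EJ 4 (3,3,12) (3,3,12) (3,3,12),.EJ 13 (3,3,12) (3,3,12) (3,3,12)])
  (.B 13 (.D false 0 [.EC 1 1 3,.EC 2 13 13,.EC 5 5 5,.EC 7 13 13,.EC 8 13 13,.EC 10 10 3,.EC 11
  11 3,.EC 14 14 3,.EJ 16 (3,13,13) (13,16,16) (3,3,3),.EJ 17 (3,3,17) (3,13,13) (3,17,17),.EC 19
  19 3,.EC 20 13 13,.EJ 22 (3,3,13) (3,3,22) (13,13,22),.EC 23 23 23,.EC 25 3 3,.EJ 26 (3,3,13)
  (3,26,26) (3,3,3),.EJ 4 (3,3,13) (3,3,13) (3,3,13),.EJ 13 (3,3,13) (3,3,13) (3,3,13)]) (.B 18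
  (.J (18,18,18) (18,18,18) (18,18,18)) (.D false 0 [.EC 1 1 3,.EC 2 2 3,.EC 5 5 5,.EJ 7 (3,3,7)
  (7,7,7) (3,3,3),.EJ 8 (3,8,8) (3,3,8) (3,3,3),.EC 10 10 3,.EC 11 11 3,.EC 14 14 3,.EC 17 17
  17,.EC 19 19 3,.EC 20 20 3,.EC 22 3 3,.EC 23 23 23,.EC 25 3 3,.EC 26 26 3,.EJ 4 (3,4,4) (3,4,4)
  (3,4,4),.EJ 13 (3,3,13) (3,3,13) (3,3,13),.EJ 16 (3,3,16) (3,3,16) (3,3,16)])))))))))))))))))))
  (.B 4 (.B 17 (.J (17,17,17) (4,4,4) (4,4,17)) (.B 26 (.B 5 (.J (5,26,26) (5,26,26) (5,26,26))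
  (.B 6 (.J (4,4,4) (4,6,6) (4,4,6)) (.B 7 (.J (4,4,7) (4,4,7) (4,4,7)) (.B 8 (.J (4,4,4) (4,4,8)
  (4,8,8)) (.B 9 (.J (4,4,4) (4,9,9) (9,9,9)) (.B 10 (.J (4,10,10) (4,10,10) (4,10,10)) (.B 11
  (.J (4,4,11) (4,4,11) (4,4,11)) (.B 12 (.J (4,4,4) (12,12,12) (4,26,26)) (.B 14 (.J (4,4,14)
  (4,4,14) (4,4,14)) (.B 15 (.J (4,4,15) (4,4,15) (4,4,15)) (.B 16 (.J (16,16,26) (16,16,26)
  (16,16,26)) (.B 18 (.J (4,4,4) (4,18,18) (4,4,26)) (.B 19 (.J (4,4,19) (4,4,19) (4,4,19)) (.C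
  26 [20,23,24,25,26] (.X 4))))))))))))))) (.J (4,4,4) (4,4,4) (4,4,4)))) (.B 5 (.D false 1 [.EC
  0 0 5,.EC 2 5 5,.EC 8 8 5,.EC 9 9 5,.EJ 11 (5,5,5) (5,5,11) (11,11,11),.EC 12 5 5,.EC 14 14
  5,.EC 15 15 5,.EC 17 17 5,.EC 18 18 5,.EC 20 20 5,.EJ 23 (5,5,23) (5,5,23) (5,5,23),.EC 24 24
  5,.EC 26 26 5,.EJ 6 (5,5,5) (5,6,6) (6,6,6),.EJ 21 (5,5,5) (5,5,5) (5,5,5),.EJ 3 (5,5,5)
  (5,5,5) (5,5,5),.EJ 5 (5,5,5) (5,5,5) (5,5,5)]) (.B 6 (.B 14 (.J (6,14,14) (6,14,14) (6,14,14))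
  (.B 22 (.J (6,22,22) (6,6,6) (6,6,22)) (.B 23 (.J (6,23,23) (6,6,6) (23,23,23)) (.B 13 (.B 7
  (.J (7,13,13) (7,13,13) (7,13,13)) (.B 8 (.J (6,6,6) (6,8,8) (8,13,13)) (.B 9 (.J (6,6,6)
  (9,13,13) (9,9,9)) (.B 10 (.J (6,6,6) (6,6,10) (10,10,13)) (.B 11 (.J (6,6,11) (6,6,11)
  (6,6,11)) (.B 12 (.J (6,6,12) (6,6,12) (6,6,12)) (.B 15 (.J (13,13,15) (13,13,15) (13,13,15))
  (.B 16 (.J (6,6,6) (6,6,13) (6,6,16)) (.B 17 (.J (6,13,17) (6,13,17) (6,13,17)) (.B 18 (.J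
  (6,6,18) (6,6,18) (6,6,18)) (.B 19 (.J (6,6,19) (6,6,19) (6,6,19)) (.B 20 (.J (6,6,20) (6,6,20)
  (6,6,20)) (.B 21 (.J (6,6,21) (6,6,21) (6,6,21)) (.B 24 (.J (6,6,24) (6,6,24) (6,6,24)) (.B 25
  (.J (6,6,25) (6,6,25) (6,6,25)) (.B 26 (.J (6,6,6) (6,6,13) (6,6,26)) (.C 13 [13] (.X
  6)))))))))))))))))) (.J (6,6,6) (6,6,6) (6,6,6)))))) (.B 7 (.B 8 (.J (7,7,8) (7,7,8) (7,7,8))
  (.B 9 (.J (7,7,9) (7,7,9) (7,7,9)) (.B 10 (.J (7,7,10) (7,7,10) (7,7,10)) (.B 11 (.J (7,7,11)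
  (7,7,11) (7,7,11)) (.B 12 (.J (12,12,12) (7,7,12) (7,12,12)) (.B 13 (.J (7,13,13) (7,13,13)
  (7,13,13)) (.B 14 (.J (7,7,14) (7,14,14) (7,7,7)) (.B 17 (.J (7,7,17) (7,7,17) (7,7,17)) (.B 18
  (.J (7,7,18) (7,7,18) (7,7,18)) (.B 19 (.J (7,7,19) (7,7,19) (7,7,19)) (.B 20 (.J (7,7,20)
  (7,7,20) (7,7,20)) (.B 21 (.J (7,7,21) (7,7,21) (7,7,21)) (.B 22 (.J (7,7,22) (7,7,22)
  (7,7,22)) (.C 7 [7,15,16] (.D false 1 [.EC 0 0 0,.EC 2 2 7,.EC 3 3 3,.EC 5 5 7,.EC 6 6 6,.EC 8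
  8 8,.EC 9 9 9,.EC 11 11 11,.EC 12 12 12,.EC 14 14 7,.EC 15 15 15,.EC 17 17 17,.EC 18 18 18,.EC
  20 20 7,.EC 21 21 21,.EC 23 23 23,.EC 24 24 24,.EC 26 26 26]))))))))))))))) (.B 8 (.B 9 (.J
  (8,8,9) (9,9,9) (8,8,8)) (.B 11 (.J (8,8,11) (8,8,11) (8,8,11)) (.B 12 (.J (12,12,12) (8,8,12)
  (8,12,12)) (.B 13 (.J (8,13,13) (8,13,13) (8,13,13)) (.B 10 (.J (8,8,10) (8,8,10) (8,8,10)) (.B
  14 (.J (8,8,14) (8,8,14) (8,8,14)) (.B 15 (.J (8,8,15) (8,15,15) (8,8,8)) (.B 16 (.J (8,8,16)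
  (8,8,16) (8,8,16)) (.B 17 (.J (8,17,17) (8,17,17) (8,17,17)) (.B 18 (.J (18,18,18) (18,18,18)
  (18,18,18)) (.B 19 (.J (8,8,19) (8,8,19) (8,8,19)) (.C 8 [8,20,23,24,25,26] (.B 23 (.J (8,8,23)
  (8,8,23) (8,8,23)) (.B 25 (.J (8,8,25) (8,8,25) (8,8,25)) (.B 20 (.D false 1 [.EC 0 0 0,.EC 2 2
  2,.EC 3 3 20,.EC 5 5 5,.EC 6 6 6,.EC 9 9 9,.EC 11 11 8,.EC 12 12 20,.EC 14 14 14,.EC 15 15
  15,.EC 17 17 17,.EC 18 18 18,.EC 21 21 21,.EC 23 23 23,.EJ 24 (8,20,20) (8,20,24)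
  (20,20,24),.EJ 26 (8,20,20) (8,20,20) (8,20,20),.EJ 8 (8,20,20) (8,20,20) (8,20,20),.EJ 20
  (8,8,20) (8,8,20) (8,8,20)]) (.D false 2 [.EC 0 0 0,.EC 1 1 8,.EC 3 3 3,.EC 4 4 8,.EC 6 6 6,.EC
  7 7 7,.EC 9 9 9,.EC 10 10 8,.EC 12 12 12,.EC 13 13 8,.EC 15 15 15,.EC 16 16 16,.EC 18 18 18,.EC
  19 19 8,.EC 21 21 21,.EC 22 22 22,.EC 24 24 24,.EC 25 25 25])))))))))))))))) (.B 9 (.B 10 (.J
  (9,9,10) (9,9,10) (9,9,10)) (.B 11 (.J (9,9,11) (9,9,11) (9,9,11)) (.B 12 (.J (9,12,12)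
  (9,12,12) (9,12,12)) (.B 14 (.J (9,9,9) (9,14,14) (14,14,14)) (.B 15 (.J (9,9,15) (9,9,15)
  (9,9,15)) (.B 16 (.J (9,9,9) (9,9,16) (16,16,16)) (.B 17 (.J (9,9,9) (17,17,17) (9,17,17)) (.B
  18 (.J (9,18,18) (9,18,18) (9,18,18)) (.B 19 (.J (9,9,19) (9,9,19) (9,9,19)) (.B 20 (.J
  (9,20,20) (9,20,20) (9,20,20)) (.B 21 (.J (9,9,21) (9,9,21) (9,9,21)) (.B 22 (.J (9,9,9)
  (9,9,22) (22,22,22)) (.B 24 (.J (9,9,9) (9,9,24) (24,24,24)) (.B 25 (.J (25,25,25) (25,25,25)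
  (25,25,25)) (.B 26 (.J (9,9,9) (9,26,26) (26,26,26)) (.D false 0 [.EC 1 1 1,.EC 2 2 2,.EC 4 4
  4,.EC 5 9 9,.EC 7 7 9,.EC 8 8 8,.EC 10 10 10,.EC 11 11 11,.EC 13 13 9,.EC 14 14 14,.EC 16 9
  9,.EC 17 17 17,.EC 19 19 9,.EC 20 20 20,.EC 22 22 9,.EC 23 9 9,.EC 25 25 25,.EC 26 26
  26])))))))))))))))) (.B 10 (.B 24 (.J (10,24,24) (10,24,24) (10,24,24)) (.B 26 (.B 11 (.J
  (11,26,26) (11,26,26) (11,26,26)) (.B 12 (.J (10,10,12) (10,10,12) (10,10,12)) (.B 14 (.J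
  (10,10,14) (10,10,14) (10,10,14)) (.B 15 (.J (15,15,26) (15,15,26) (15,15,26)) (.B 16 (.J
  (10,10,16) (10,10,16) (10,10,16)) (.B 17 (.J (10,10,10) (10,10,17) (10,17,17)) (.B 18 (.J
  (10,10,18) (10,10,18) (10,10,18)) (.B 19 (.J (19,26,26) (19,26,26) (19,26,26)) (.B 20 (.J
  (10,10,10) (10,10,20) (10,26,26)) (.C 26 [26] (.X 10))))))))))) (.J (10,10,10) (10,10,10)
  (10,10,10)))) (.B 11 (.B 12 (.J (11,11,12) (11,11,12) (11,11,12)) (.B 13 (.J (11,13,13)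
  (11,13,13) (11,13,13)) (.B 14 (.J (11,14,14) (11,14,14) (11,14,14)) (.B 15 (.J (11,11,15)
  (11,11,15) (11,11,15)) (.B 16 (.J (11,16,16) (16,16,16) (11,11,11)) (.B 17 (.J (11,17,17)
  (11,17,17) (11,17,17)) (.B 18 (.J (11,11,18) (11,11,18) (11,11,18)) (.B 21 (.J (11,11,21)
  (11,11,21) (11,11,21)) (.B 22 (.J (11,11,22) (11,11,22) (11,11,22)) (.B 23 (.J (11,11,23)
  (11,11,23) (11,11,23)) (.B 24 (.J (11,11,24) (11,11,24) (11,11,24)) (.B 25 (.J (11,25,25)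
  (11,25,25) (11,25,25)) (.B 26 (.J (11,26,26) (11,26,26) (11,26,26)) (.D false 2 [.EC 0 0 0,.EC
  1 1 1,.EC 3 3 11,.EC 4 4 4,.EC 6 6 6,.EC 7 7 7,.EC 9 9 9,.EC 10 10 10,.EC 12 12 11,.EC 13 13
  13,.EC 15 15 11,.EC 16 16 16,.EC 18 18 18,.EC 19 19 19,.EC 21 21 21,.EC 22 22 22,.EC 24 24
  11,.EC 25 25 25])))))))))))))) (.B 12 (.D false 0 [.EC 1 1 12,.EC 2 2 12,.EC 5 5 12,.EJ 7
  (12,12,12) (7,7,12) (7,12,12),.EJ 8 (12,12,12) (8,8,12) (8,12,12),.EC 10 10 12,.EC 11 11 12,.EC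
  14 12 12,.EJ 16 (12,12,12) (12,12,16) (12,16,16),.EJ 17 (12,12,12) (12,12,17) (12,17,17),.EC 19
  19 12,.EC 20 20 12,.EC 22 12 12,.EC 23 23 23,.EC 25 12 12,.EJ 26 (12,12,12) (12,12,12)
  (12,12,12),.EJ 4 (4,4,4) (4,4,4) (4,4,4),.EJ 13 (12,12,12) (12,12,12) (12,12,12)]) (.B 13 (.B
  15 (.J (13,13,15) (13,13,15) (13,13,15)) (.B 19 (.J (13,13,19) (13,13,19) (13,13,19)) (.B 20
  (.J (13,13,20) (13,13,20) (13,13,20)) (.B 21 (.J (13,13,21) (13,13,21) (13,13,21)) (.B 23 (.J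
  (23,23,23) (23,23,23) (23,23,23)) (.B 24 (.J (13,24,24) (13,24,24) (13,24,24)) (.B 25 (.J
  (25,25,25) (25,25,25) (25,25,25)) (.B 14 (.D false 0 [.EC 1 1 1,.EC 2 2 14,.EC 4 4 14,.EC 5 5
  5,.EC 7 7 14,.EC 8 8 14,.EC 10 10 14,.EC 11 13 13,.EJ 16 (13,14,16) (14,14,14) (14,14,16),.EC
  17 17 14,.EC 19 19 14,.EC 20 13 13,.EJ 22 (14,14,14) (14,14,14) (14,14,14),.EC 23 23 23,.EC 25
  25 25,.EC 26 26 14,.EJ 13 (14,14,14) (14,14,14) (14,14,14),.EJ 14 (13,14,14) (13,14,14)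
  (13,14,14)]) (.B 16 (.D false 1 [.EC 2 2 16,.EJ 3 (3,13,13) (13,13,16) (3,3,3),.EC 5 5 5,.EC 6
  6 13,.EC 8 8 16,.EC 9 9 9,.EC 11 13 13,.EC 12 12 12,.EC 14 14 16,.EC 15 15 13,.EC 17 17 16,.EJ
  18 (13,16,18) (16,18,18) (18,18,18),.EC 20 13 13,.EC 21 21 16,.EC 23 23 23,.EC 24 24 24,.EC 26
  26 16,.EJ 0 (0,0,16) (0,0,16) (0,0,16)]) (.B 17 (.D false 1 [.EJ 0 (13,13,17) (17,17,17)
  (0,0,17),.EC 2 2 2,.EJ 3 (3,13,13) (17,17,17) (3,17,17),.EC 5 5 5,.EC 6 6 13,.EC 8 13 13,.EC 9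
  9 9,.EC 11 13 13,.EC 12 12 12,.EC 14 14 14,.EC 15 15 13,.EJ 18 (13,17,18) (13,13,17)
  (17,17,18),.EC 20 13 13,.EC 21 21 17,.EC 23 23 23,.EC 24 24 24,.EJ 26 (17,17,17) (17,17,17)
  (17,17,17),.EJ 17 (17,17,17) (17,17,17) (17,17,17)]) (.B 18 (.B 22 (.J (13,13,18) (18,18,18)
  (18,18,22)) (.B 26 (.J (13,13,18) (13,13,26) (18,26,26)) (.C 13 [13] (.X 18)))) (.B 22 (.D
  false 1 [.EC 2 2 2,.EC 3 3 3,.EC 5 5 5,.EC 6 6 13,.EC 8 8 22,.EC 9 9 9,.EC 11 11 13,.EC 12 12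
  12,.EC 14 14 14,.EC 15 15 13,.EC 17 17 17,.EC 18 13 13,.EC 20 20 13,.EC 21 21 21,.EC 23 23
  23,.EC 24 24 24,.EC 26 26 22,.EJ 0 (0,0,22) (0,0,22) (0,0,22)]) (.B 26 (.C 26 [26] (.X 13)) (.D
  false 1 [.EC 0 0 13,.EC 2 2 2,.EC 3 3 3,.EC 5 5 5,.EC 6 6 13,.EC 8 8 8,.EC 9 9 9,.EC 11 11
  11,.EC 12 12 12,.EC 14 14 14,.EC 15 15 13,.EC 17 17 17,.EC 18 18 13,.EC 20 20 20,.EC 21 21
  21,.EC 23 23 23,.EC 24 24 24,.EC 26 26 26])))))))))))))) (.B 14 (.D false 0 [.EC 1 1 14,.EC 2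
  14 14,.EC 4 4 14,.EC 5 5 14,.EJ 7 (7,7,14) (7,14,14) (7,7,7),.EC 8 8 14,.EC 10 10 14,.EC 11 14
  14,.EJ 16 (14,14,14) (14,14,16) (14,16,16),.EC 17 17 14,.EC 19 14 14,.EC 20 14 14,.EJ 22
  (14,14,14) (14,14,14) (14,14,14),.EC 23 23 23,.EC 25 25 25,.EC 26 26 14,.EJ 13 (14,14,14)
  (14,14,14) (14,14,14),.EJ 14 (14,14,14) (14,14,14) (14,14,14)]) (.B 15 (.D false 2 [.EC 0 0
  0,.EC 1 1 15,.EC 3 3 15,.EC 4 4 15,.EC 9 9 9,.EC 12 15 15,.EC 13 13 15,.EC 18 18 18,.EC 19 19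
  15,.EJ 21 (15,21,21) (15,21,21) (15,21,21),.EC 22 22 15,.EC 24 24 15,.EC 25 25 25,.EJ 6
  (6,6,15) (6,6,15) (6,6,15),.EJ 10 (10,10,15) (15,15,15) (10,10,10),.EJ 15 (15,15,15) (15,15,15)
  (15,15,15),.EJ 16 (15,15,15) (15,15,15) (15,15,15),.EJ 7 (7,7,15) (7,7,15) (7,7,15)]) (.B 16
  (.C 16 [16] (.D false 1 [.EC 0 0 0,.EC 2 2 16,.EC 3 3 3,.EC 5 5 5,.EC 6 6 6,.EC 8 8 8,.EC 9 9
  9,.EC 11 11 11,.EC 12 12 12,.EC 14 14 16,.EC 15 15 15,.EC 17 17 17,.EC 18 18 18,.EC 20 20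
  16,.EC 21 21 21,.EC 23 23 23,.EC 24 24 24,.EC 26 26 26])) (.B 17 (.D false 1 [.EC 0 0 0,.EJ 2
  (17,17,17) (2,2,2) (2,2,17),.EC 3 17 17,.EC 5 5 5,.EC 6 17 17,.EC 8 17 17,.EC 9 9 9,.EC 11 17
  17,.EC 12 17 17,.EC 14 14 14,.EJ 15 (15,17,17) (17,17,17) (15,15,17),.EC 18 18 18,.EJ 20
  (17,17,17) (17,17,17) (17,17,17),.EC 21 21 17,.EC 23 23 23,.EC 24 24 17,.EJ 26 (17,17,17)
  (17,17,17) (17,17,17),.EJ 17 (17,17,17) (17,17,17) (17,17,17)]) (.B 18 (.J (18,18,18)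
  (18,18,18) (18,18,18)) (.B 19 (.D false 0 [.EC 1 1 19,.EC 2 19 19,.EC 4 4 19,.EC 5 5 5,.EC 7 7
  7,.EC 8 8 19,.EC 13 13 19,.EC 14 14 14,.EC 16 16 16,.EC 17 17 17,.EC 22 22 19,.EC 23 23 23,.EC
  25 25 25,.EC 26 26 19,.EJ 10 (10,10,19) (10,10,19) (10,10,19),.EJ 11 (19,19,19) (19,19,19)
  (19,19,19),.EJ 19 (19,19,19) (19,19,19) (19,19,19),.EJ 20 (19,19,19) (19,19,19) (19,19,19)])
  (.B 20 (.C 20 [20,23,24,25,26] (.B 23 (.J (20,20,23) (20,20,23) (20,20,23)) (.B 24 (.J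
  (20,20,24) (20,20,24) (20,20,24)) (.B 25 (.J (20,25,25) (20,25,25) (20,25,25)) (.B 26 (.D false
  2 [.EC 0 0 0,.EC 1 1 1,.EC 3 3 20,.EC 4 4 20,.EC 6 6 6,.EC 7 7 7,.EC 9 9 9,.EC 10 10 26,.EC 12
  12 20,.EC 13 13 20,.EC 15 15 15,.EC 16 16 16,.EC 18 18 18,.EC 19 19 26,.EC 21 21 21,.EC 22 22
  22,.EC 24 24 20,.EC 25 25 25]) (.D false 2 [.EC 0 0 0,.EC 1 1 1,.EC 3 3 20,.EC 4 4 4,.EC 6 6
  6,.EC 7 7 7,.EC 9 9 9,.EC 10 10 10,.EC 12 12 20,.EC 13 13 13,.EC 15 15 15,.EC 16 16 16,.EC 18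
  18 18,.EC 19 19 19,.EC 21 21 21,.EC 22 22 22,.EC 24 24 20,.EC 25 25 25])))))) (.B 21 (.D false
  0 [.EC 1 1 21,.EC 2 2 21,.EC 4 4 21,.EC 5 5 5,.EC 7 7 7,.EC 8 8 21,.EC 10 10 21,.EC 11 11
  21,.EC 13 13 21,.EC 14 14 14,.EC 16 16 16,.EC 17 17 17,.EC 19 19 21,.EC 20 20 21,.EC 22 22
  21,.EC 23 23 23,.EC 25 25 25,.EC 26 26 21]) (.B 22 (.D false 1 [.EC 0 0 0,.EC 2 22 22,.EJ 3
  (3,3,22) (3,22,22) (22,22,22),.EC 5 5 5,.EC 6 6 22,.EC 8 8 22,.EC 9 9 9,.EC 11 11 22,.EC 12 12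
  12,.EC 14 14 14,.EC 15 15 22,.EC 17 17 17,.EC 18 18 18,.EC 20 22 22,.EC 21 21 21,.EC 23 23
  23,.EC 24 24 22,.EC 26 26 22]) (.B 23 (.J (23,23,23) (23,23,23) (23,23,23)) (.B 24 (.J
  (24,24,24) (24,24,24) (24,24,24)) (.B 25 (.J (25,25,25) (25,25,25) (25,25,25)) (.B 26 (.D false
  2 [.EC 0 0 0,.EC 1 1 1,.EC 3 3 3,.EC 4 4 26,.EC 6 6 6,.EC 7 7 7,.EC 9 9 9,.EC 10 10 26,.EC 12
  12 12,.EC 13 13 26,.EC 15 15 15,.EC 16 16 16,.EC 18 18 18,.EC 19 19 26,.EC 21 21 21,.EC 22 22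
  22,.EC 24 24 24,.EC 25 25 25]) .N)))))))))))))))))))))))))))

/-- certificate for the second window -/
def treeB : Tr :=
  (.B 0 (.B 5 (.J (0,0,5) (0,0,5) (0,0,5)) (.B 7 (.J (0,0,7) (0,0,7) (0,0,7)) (.B 11 (.J (0,0,11)
  (0,0,11) (0,0,11)) (.B 15 (.J (0,0,15) (0,0,15) (0,0,15)) (.B 16 (.J (0,0,16) (16,16,16)
  (0,0,0)) (.B 17 (.J (17,17,17) (0,0,17) (0,0,0)) (.B 4 (.J (4,4,4) (4,4,4) (4,4,4)) (.B 18 (.J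
  (18,18,18) (18,18,18) (18,18,18)) (.B 19 (.J (0,0,19) (0,0,19) (0,0,19)) (.B 21 (.J (0,0,21)
  (0,0,21) (0,0,21)) (.B 22 (.J (0,0,22) (22,22,22) (0,0,0)) (.B 23 (.J (23,23,23) (0,0,23)
  (0,0,0)) (.B 10 (.J (10,10,10) (10,10,10) (10,10,10)) (.B 6 (.J (6,6,6) (6,6,6) (6,6,6)) (.B 1
  (.B 2 (.J (0,0,2) (0,1,1) (1,1,2)) (.C 1 [1] (.X 0))) (.B 25 (.J (25,25,25) (25,25,25)
  (25,25,25)) (.B 2 (.D false 0 [.EC 1 1 2,.EC 3 3 2,.EC 4 4 4,.EC 5 5 0,.EC 6 6 6,.EC 7 7 2,.EC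
  8 8 2,.EC 9 9 2,.EC 10 10 10,.EC 11 11 0,.EC 12 2 2,.EJ 13 (0,0,2) (2,2,2) (2,2,13),.EC 14 14
  2,.EC 15 15 0,.EC 16 16 16,.EC 17 17 17,.EC 18 18 18,.EC 19 19 2,.EC 20 20 2,.EC 21 21 0,.EC 22
  22 22,.EC 23 23 23,.EC 24 2 2,.EC 25 25 25,.EJ 26 (0,0,2) (0,0,2) (0,0,2),.EJ 2 (0,0,2) (0,0,2)
  (0,0,2)]) (.B 3 (.B 8 (.J (0,0,3) (0,0,8) (3,3,3)) (.B 9 (.J (0,0,3) (3,3,3) (9,9,9)) (.B 12
  (.J (3,3,12) (3,3,12) (3,3,12)) (.B 13 (.J (0,0,3) (3,3,3) (3,13,13)) (.C 3 [3] (.X 0)))))) (.B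
  8 (.D false 0 [.EC 1 1 1,.EC 2 8 8,.EC 3 3 3,.EC 4 4 4,.EC 5 5 0,.EC 6 6 6,.EC 7 0 0,.EC 9 9
  8,.EC 10 10 10,.EC 11 11 0,.EC 12 8 8,.EJ 13 (0,0,8) (8,8,8) (8,8,13),.EC 14 14 8,.EC 15 15
  0,.EC 16 16 16,.EC 17 17 17,.EC 18 18 18,.EC 19 19 8,.EJ 20 (0,0,8) (0,0,8) (0,0,8),.EC 21 21
  0,.EC 22 22 22,.EC 23 23 23,.EJ 24 (0,0,8) (0,0,8) (0,0,8),.EC 25 25 25,.EJ 26 (0,0,8) (0,0,8)
  (0,0,8),.EJ 8 (0,0,8) (0,0,8) (0,0,8)]) (.B 9 (.B 12 (.J (9,9,12) (9,9,12) (9,9,12)) (.B 13 (.J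
  (0,0,9) (9,9,9) (9,13,13)) (.C 9 [9] (.X 0)))) (.B 12 (.D false 0 [.EC 1 1 1,.EC 2 2 12,.EC 3 3
  3,.EC 4 4 4,.EC 5 5 0,.EC 6 6 6,.EC 7 7 7,.EC 8 8 8,.EC 9 9 9,.EC 10 10 10,.EC 11 11 0,.EJ 13
  (0,0,12) (12,12,12) (12,12,13),.EJ 14 (0,0,12) (0,12,14) (12,12,12),.EC 15 15 0,.EC 16 16
  16,.EC 17 17 17,.EC 18 18 18,.EC 19 19 12,.EC 20 20 12,.EC 21 21 0,.EC 22 22 22,.EC 23 23
  23,.EC 24 24 12,.EC 25 25 25,.EJ 26 (12,12,12) (12,12,12) (12,12,12),.EJ 12 (12,12,12)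
  (12,12,12) (12,12,12)]) (.B 14 (.J (0,0,14) (14,14,14) (0,0,0)) (.B 13 (.D true 0 [.EC 1 1
  1,.EC 2 2 2,.EC 3 3 3,.EC 4 4 4,.EC 5 5 5,.EC 6 6 6,.EC 7 7 7,.EC 8 8 8,.EC 9 9 9,.EC 10 10
  10,.EC 11 11 0,.EJ 12 (0,0,12) (12,12,12) (12,12,13),.EC 14 14 14,.EC 15 15 0,.EC 16 16 16,.EC
  17 17 17,.EC 18 18 18,.EC 19 19 13,.EJ 20 (0,0,20) (13,13,20) (20,20,20),.EC 21 21 0,.EC 22 22
  22,.EC 23 23 23,.EJ 24 (0,0,24) (13,13,24) (24,24,24),.EC 25 25 25]) (.D true 0 [.EC 1 1 1,.EC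
  2 2 2,.EC 3 3 3,.EC 4 4 4,.EC 5 5 5,.EC 6 6 6,.EC 7 7 7,.EC 8 8 8,.EC 9 9 9,.EC 10 10 10,.EC 11
  11 0,.EC 14 14 14,.EC 15 15 0,.EC 16 16 16,.EC 17 17 17,.EC 18 18 18,.EC 19 0 0,.EC 20 20 0,.EC
  21 21 0,.EC 22 22 22,.EC 23 23 23,.EC 24 24 0,.EC 25 25 25,.EJ 12 (12,12,12) (12,12,12)
  (12,12,12)])))))))))))))))))))))))) (.B 1 (.B 2 (.J (1,1,2) (1,2,2) (2,2,2)) (.C 1 [1] (.D
  false 1 [.EC 0 0 1,.EC 2 2 2,.EC 3 3 3,.EC 4 4 4,.EC 5 5 5,.EC 6 6 6,.EC 7 7 1,.EC 8 8 8,.EC 9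
  9 9,.EC 10 10 10,.EC 11 11 11,.EC 12 12 12,.EC 13 13 13,.EC 14 14 14,.EC 15 15 15,.EC 16 16
  16,.EC 17 17 17,.EC 18 18 18,.EC 19 19 1,.EC 20 20 20,.EC 21 21 21,.EC 22 22 22,.EC 23 23
  23,.EC 24 24 24,.EC 25 25 1,.EC 26 26 26]))) (.B 2 (.D false 0 [.EC 1 1 2,.EC 3 3 2,.EJ 4
  (2,2,2) (4,4,4) (2,2,4),.EC 6 2 2,.EC 8 8 2,.EC 9 9 2,.EJ 10 (2,2,2) (10,10,10) (2,2,10),.EC 12
  2 2,.EC 13 2 2,.EC 14 14 2,.EJ 15 (2,2,2) (2,2,2) (2,2,2),.EJ 16 (2,2,2) (2,2,2) (2,2,2),.EJ 17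
  (2,2,2) (2,2,2) (2,2,2),.EC 18 2 2,.EJ 19 (2,2,2) (2,2,2) (2,2,2),.EC 20 20 2,.EJ 21 (2,2,2)
  (2,2,2) (2,2,2),.EJ 22 (2,2,2) (2,2,2) (2,2,2),.EJ 23 (2,2,2) (2,2,2) (2,2,2),.EJ 24 (2,2,2)
  (2,2,2) (2,2,2),.EC 25 25 25,.EJ 26 (2,2,2) (2,2,2) (2,2,2),.EJ 2 (2,2,2) (2,2,2) (2,2,2),.EJ 5
  (2,2,2) (2,2,2) (2,2,2),.EJ 7 (2,2,2) (2,2,2) (2,2,2),.EJ 11 (2,2,2) (2,2,2) (2,2,2)]) (.B 3
  (.B 4 (.J (3,4,4) (3,4,4) (3,4,4)) (.B 6 (.J (3,6,6) (3,6,6) (3,6,6)) (.B 7 (.J (3,3,7) (3,3,7)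
  (3,3,7)) (.B 8 (.J (3,3,3) (8,8,8) (3,3,8)) (.B 9 (.J (3,3,9) (3,3,9) (3,3,9)) (.B 10 (.J
  (3,3,10) (3,3,10) (3,3,10)) (.B 11 (.J (3,3,11) (3,3,11) (3,3,11)) (.B 12 (.J (3,3,12) (3,3,12)
  (3,3,12)) (.B 14 (.J (3,3,3) (3,3,14) (3,14,14)) (.B 15 (.J (3,3,15) (3,3,15) (3,3,15)) (.B 16
  (.J (3,3,3) (3,3,16) (16,16,16)) (.B 17 (.J (3,3,17) (3,3,17) (3,3,17)) (.B 18 (.J (3,3,18)
  (3,3,18) (3,3,18)) (.B 19 (.J (3,3,19) (3,3,19) (3,3,19)) (.B 20 (.J (3,3,20) (3,3,20)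
  (3,3,20)) (.B 22 (.J (3,3,3) (3,22,22) (22,22,22)) (.B 23 (.J (23,23,23) (23,23,23) (23,23,23))
  (.B 24 (.J (3,24,24) (3,24,24) (3,24,24)) (.B 25 (.J (3,3,25) (3,3,25) (3,3,25)) (.B 26 (.J
  (3,3,3) (3,3,26) (26,26,26)) (.B 13 (.J (3,3,13) (3,3,13) (3,3,13)) (.C 3 [3] (.D false 3 [.EC
  0 0 3,.EC 1 1 1,.EC 2 2 2,.EC 4 4 4,.EC 5 5 3,.EC 6 6 6,.EC 7 7 7,.EC 8 8 8,.EC 9 9 9,.EC 10 10
  10,.EC 11 11 11,.EC 12 12 12,.EC 13 13 13,.EC 14 14 14,.EC 15 15 15,.EC 16 16 16,.EC 17 17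
  17,.EC 18 18 18,.EC 19 19 19,.EC 20 20 20,.EC 21 21 3,.EC 22 22 22,.EC 23 23 23,.EC 24 24
  24,.EC 25 25 25,.EC 26 26 26]))))))))))))))))))))))) (.B 4 (.D false 0 [.EC 1 1 1,.EJ 2 (2,2,2)
  (4,4,4) (2,2,4),.EC 3 4 4,.EC 6 4 4,.EJ 8 (4,4,4) (8,8,8) (4,4,8),.EJ 9 (4,4,4) (4,4,9)
  (4,9,9),.EJ 10 (4,4,4) (4,4,10) (10,10,10),.EC 11 11 4,.EC 12 12 4,.EC 14 4 4,.EJ 15 (4,4,4)
  (4,4,15) (4,15,15),.EC 16 16 4,.EJ 17 (4,4,4) (4,4,17) (17,17,17),.EJ 18 (4,4,4) (4,4,4)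
  (4,4,4),.EJ 19 (4,4,4) (4,4,4) (4,4,4),.EC 20 20 4,.EJ 21 (4,4,4) (4,4,4) (4,4,4),.EC 22 4
  4,.EJ 23 (4,4,4) (4,4,4) (4,4,4),.EC 24 24 4,.EC 25 25 25,.EJ 26 (4,4,4) (4,4,4) (4,4,4),.EJ 4
  (4,4,4) (4,4,4) (4,4,4),.EJ 5 (4,4,4) (4,4,4) (4,4,4),.EJ 7 (4,4,4) (4,4,4) (4,4,4),.EJ 13
  (4,4,4) (4,4,4) (4,4,4)]) (.B 5 (.B 7 (.J (5,5,7) (5,5,7) (5,5,7)) (.B 9 (.J (5,5,9) (5,5,9)
  (5,5,9)) (.B 10 (.J (5,5,10) (5,5,10) (5,5,10)) (.B 6 (.J (6,6,6) (6,6,6) (6,6,6)) (.B 11 (.J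
  (5,5,11) (5,5,11) (5,5,11)) (.B 13 (.J (5,5,13) (5,5,13) (5,5,13)) (.B 15 (.J (5,15,15)
  (5,15,15) (5,15,15)) (.B 16 (.J (5,16,16) (5,16,16) (5,16,16)) (.B 17 (.J (5,17,17) (5,17,17)
  (5,17,17)) (.B 18 (.J (18,18,18) (18,18,18) (18,18,18)) (.B 19 (.J (5,5,19) (5,5,19) (5,5,19))
  (.B 20 (.J (5,5,20) (5,5,20) (5,5,20)) (.B 21 (.J (5,5,21) (5,5,21) (5,5,21)) (.B 22 (.J
  (5,5,22) (5,5,22) (5,5,22)) (.B 23 (.J (5,5,23) (5,5,23) (5,5,23)) (.B 24 (.J (5,5,24) (5,5,24)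
  (5,5,24)) (.B 12 (.J (12,12,12) (12,12,12) (12,12,12)) (.C 5 [5,8,14] (.B 8 (.C 8 [8] (.X 5))
  (.B 14 (.C 14 [14] (.X 5)) (.D false 5 [.EC 0 0 0,.EC 1 1 1,.EC 2 2 2,.EC 3 3 3,.EC 4 4 4,.EC 6
  6 6,.EC 7 7 7,.EC 8 8 8,.EC 9 9 9,.EC 10 10 10,.EC 11 11 11,.EC 12 12 12,.EC 13 13 13,.EC 14 14
  14,.EC 15 15 15,.EC 16 16 16,.EC 17 17 17,.EC 18 18 18,.EC 19 19 5,.EC 20 20 20,.EC 21 21
  21,.EC 22 22 22,.EC 23 23 23,.EC 24 24 24,.EC 25 25 25,.EC 26 26 26]))))))))))))))))))))) (.B 6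
  (.D false 0 [.EC 1 1 1,.EC 2 2 6,.EC 3 3 3,.EC 4 4 6,.EC 5 5 6,.EC 8 6 6,.EC 9 9 6,.EJ 10
  (6,6,6) (6,6,10) (10,10,10),.EJ 11 (6,6,6) (6,6,6) (6,6,6),.EJ 12 (6,6,6) (6,6,6) (6,6,6),.EC
  13 13 6,.EC 14 14 6,.EJ 15 (6,6,6) (6,6,6) (6,6,6),.EJ 16 (6,6,6) (6,6,6) (6,6,6),.EJ 17
  (6,6,6) (6,6,6) (6,6,6),.EC 18 18 18,.EC 19 19 6,.EJ 20 (6,6,6) (6,6,6) (6,6,6),.EJ 21 (6,6,6)
  (6,6,6) (6,6,6),.EC 22 22 6,.EJ 23 (6,6,6) (6,6,6) (6,6,6),.EC 24 24 6,.EC 25 25 25,.EJ 26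
  (6,6,6) (6,6,6) (6,6,6),.EJ 6 (6,6,6) (6,6,6) (6,6,6),.EJ 7 (6,6,6) (6,6,6) (6,6,6)]) (.B 7 (.B
  9 (.J (7,9,9) (7,9,9) (7,9,9)) (.B 11 (.J (7,11,11) (7,11,11) (7,11,11)) (.B 12 (.J (7,7,12)
  (7,12,12) (12,12,12)) (.B 13 (.J (7,7,13) (7,7,13) (7,7,13)) (.B 14 (.J (7,7,14) (7,7,14)
  (7,7,14)) (.B 15 (.J (7,7,15) (7,15,15) (15,15,15)) (.B 18 (.J (7,7,18) (7,7,18) (7,7,18)) (.B
  17 (.J (17,17,17) (17,17,17) (17,17,17)) (.B 19 (.J (7,7,19) (7,7,19) (7,7,19)) (.B 20 (.J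
  (7,7,20) (7,7,20) (7,7,20)) (.B 21 (.J (7,7,21) (7,7,21) (7,7,21)) (.B 22 (.J (7,7,22) (7,7,22)
  (7,7,22)) (.B 23 (.J (7,7,23) (7,7,23) (7,7,23)) (.B 10 (.J (10,10,10) (10,10,10) (10,10,10))
  (.B 24 (.J (7,7,24) (7,7,24) (7,7,24)) (.B 25 (.J (7,7,25) (7,7,25) (7,7,25)) (.B 26 (.J
  (7,7,26) (7,7,26) (7,7,26)) (.B 8 (.C 8 [8] (.X 7)) (.B 16 (.C 16 [16] (.X 7)) (.D false 7 [.EC
  0 0 0,.EC 1 1 1,.EC 2 2 2,.EC 3 3 3,.EC 4 4 4,.EC 5 5 5,.EC 6 6 6,.EC 8 8 8,.EC 9 9 9,.EC 10 10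
  10,.EC 11 11 11,.EC 12 12 12,.EC 13 13 13,.EC 14 14 14,.EC 15 15 15,.EC 16 16 16,.EC 17 17
  17,.EC 18 18 18,.EC 19 19 19,.EC 20 20 20,.EC 21 21 7,.EC 22 22 22,.EC 23 23 23,.EC 24 24
  24,.EC 25 25 25,.EC 26 26 26])))))))))))))))))))) (.B 8 (.C 8 [8] (.D false 8 [.EC 0 0 0,.EC 1
  1 1,.EC 2 2 2,.EC 3 3 3,.EC 4 4 4,.EC 5 5 8,.EC 6 6 6,.EC 7 7 8,.EC 9 9 9,.EC 10 10 10,.EC 11
  11 11,.EC 12 12 12,.EC 13 13 13,.EC 14 14 14,.EC 15 15 15,.EC 16 16 16,.EC 17 17 17,.EC 18 18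
  18,.EC 19 19 19,.EC 20 20 20,.EC 21 21 21,.EC 22 22 22,.EC 23 23 23,.EC 24 24 24,.EC 25 25
  25,.EC 26 26 8])) (.B 9 (.B 10 (.J (9,10,10) (9,10,10) (9,10,10)) (.B 12 (.J (9,9,12) (9,9,12)
  (9,9,12)) (.B 14 (.J (9,9,9) (14,14,14) (9,9,14)) (.B 16 (.J (9,9,9) (9,16,16) (16,16,16)) (.B
  17 (.J (9,9,9) (17,17,17) (9,17,17)) (.B 18 (.J (9,18,18) (9,18,18) (9,18,18)) (.B 19 (.J
  (9,9,19) (9,9,19) (9,9,19)) (.B 20 (.J (9,9,9) (9,9,20) (20,20,20)) (.B 21 (.J (9,9,21)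
  (9,9,21) (9,9,21)) (.B 22 (.J (9,9,22) (9,9,22) (9,9,22)) (.B 23 (.J (9,9,23) (9,9,23)
  (9,9,23)) (.B 24 (.J (9,24,24) (9,24,24) (9,24,24)) (.B 25 (.J (9,9,25) (9,9,25) (9,9,25)) (.B
  26 (.J (9,9,9) (9,9,26) (26,26,26)) (.B 13 (.J (9,9,13) (9,9,13) (9,9,13)) (.C 9 [9] (.D false
  9 [.EC 0 0 9,.EC 1 1 1,.EC 2 2 2,.EC 3 3 3,.EC 4 4 4,.EC 5 5 5,.EC 6 6 6,.EC 7 7 7,.EC 8 8
  8,.EC 10 10 10,.EC 11 11 9,.EC 12 12 12,.EC 13 13 13,.EC 14 14 14,.EC 15 15 9,.EC 16 16 16,.EC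
  17 17 17,.EC 18 18 18,.EC 19 19 19,.EC 20 20 20,.EC 21 21 21,.EC 22 22 22,.EC 23 23 23,.EC 24
  24 24,.EC 25 25 25,.EC 26 26 26]))))))))))))))))) (.B 10 (.D false 0 [.EC 1 1 1,.EJ 2 (2,2,2)
  (10,10,10) (2,2,10),.EC 3 3 3,.EJ 4 (4,4,4) (4,4,10) (10,10,10),.EC 5 5 10,.EC 6 6 10,.EC 7 10
  10,.EC 8 8 8,.EC 9 10 10,.EC 12 12 10,.EC 14 10 10,.EC 16 10 10,.EJ 17 (10,10,10) (10,10,17)
  (10,17,17),.EC 18 18 18,.EC 19 19 10,.EC 20 10 10,.EC 21 21 10,.EC 22 22 10,.EC 23 23 23,.EC 24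
  24 10,.EC 25 25 25,.EJ 26 (10,10,10) (10,10,10) (10,10,10),.EJ 10 (10,10,10) (10,10,10)
  (10,10,10),.EJ 11 (10,10,10) (10,10,10) (10,10,10),.EJ 13 (10,10,10) (10,10,10) (10,10,10),.EJ
  15 (10,10,10) (10,10,10) (10,10,10)]) (.B 11 (.B 13 (.J (11,11,13) (11,11,13) (11,11,13)) (.B
  15 (.J (11,11,15) (11,15,15) (11,11,11)) (.B 16 (.J (11,16,16) (11,16,16) (11,16,16)) (.B 18
  (.J (18,18,18) (18,18,18) (18,18,18)) (.B 17 (.J (17,17,17) (17,17,17) (17,17,17)) (.B 19 (.J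
  (11,11,19) (11,11,19) (11,11,19)) (.B 21 (.J (11,21,21) (11,21,21) (11,21,21)) (.B 22 (.J
  (11,11,22) (11,11,22) (11,11,22)) (.B 23 (.J (11,23,23) (11,23,23) (11,23,23)) (.B 24 (.J
  (11,11,24) (11,11,24) (11,11,24)) (.B 12 (.J (12,12,12) (12,12,12) (12,12,12)) (.C 11
  [11,14,20] (.B 14 (.C 14 [14] (.X 11)) (.B 20 (.C 20 [20] (.X 11)) (.D false 11 [.EC 0 0 0,.EC
  1 1 1,.EC 2 2 2,.EC 3 3 3,.EC 4 4 4,.EC 5 5 5,.EC 6 6 6,.EC 7 7 11,.EC 8 8 8,.EC 9 9 9,.EC 10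
  10 10,.EC 12 12 12,.EC 13 13 13,.EC 14 14 14,.EC 15 15 15,.EC 16 16 16,.EC 17 17 17,.EC 18 18
  18,.EC 19 19 19,.EC 20 20 20,.EC 21 21 21,.EC 22 22 22,.EC 23 23 23,.EC 24 24 24,.EC 25 25
  25,.EC 26 26 26]))))))))))))))) (.B 12 (.D false 0 [.EC 1 1 1,.EC 2 2 12,.EC 3 3 3,.EC 4 12
  12,.EC 5 5 12,.EC 6 6 6,.EJ 7 (7,7,12) (7,12,12) (12,12,12),.EC 8 8 8,.EC 9 9 9,.EC 10 12
  12,.EC 11 11 12,.EJ 14 (12,12,12) (12,12,14) (12,14,14),.EC 16 16 12,.EJ 17 (12,12,12)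
  (12,12,17) (12,17,17),.EC 18 18 18,.EC 19 12 12,.EC 20 20 12,.EC 21 21 12,.EC 22 22 12,.EC 23
  23 23,.EC 24 24 12,.EC 25 25 25,.EJ 26 (12,12,12) (12,12,12) (12,12,12),.EJ 12 (12,12,12)
  (12,12,12) (12,12,12),.EJ 13 (12,12,12) (12,12,12) (12,12,12),.EJ 15 (12,12,12) (12,12,12)
  (12,12,12)]) (.B 13 (.B 15 (.J (13,13,15) (13,13,15) (13,13,15)) (.B 18 (.J (13,13,18)
  (13,13,18) (13,13,18)) (.B 17 (.J (17,17,17) (17,17,17) (17,17,17)) (.B 19 (.J (13,13,19)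
  (13,13,19) (13,13,19)) (.B 20 (.J (13,13,20) (13,13,20) (13,13,20)) (.B 21 (.J (13,13,21)
  (13,13,21) (13,13,21)) (.B 23 (.J (23,23,23) (23,23,23) (23,23,23)) (.B 24 (.J (13,13,24)
  (13,13,24) (13,13,24)) (.B 25 (.J (25,25,25) (25,25,25) (25,25,25)) (.B 14 (.C 14 [14] (.X 13))
  (.B 16 (.C 16 [16,26] (.X 13)) (.B 22 (.C 22 [22,26] (.X 13)) (.D true 0 [.EC 1 1 1,.EC 2 2
  2,.EC 3 3 3,.EC 4 4 4,.EC 5 5 5,.EC 6 6 6,.EC 7 7 7,.EC 8 8 8,.EC 9 9 9,.EC 10 10 10,.EC 11 11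
  11,.EC 12 12 12,.EC 14 14 14,.EC 15 15 15,.EC 16 16 16,.EC 17 17 17,.EC 18 18 18,.EC 19 19
  19,.EC 20 20 20,.EC 21 21 21,.EC 22 22 22,.EC 23 23 23,.EC 24 24 24,.EC 25 25 25])))))))))))))
  (.B 14 (.D false 14 [.EC 0 0 0,.EC 1 1 1,.EC 2 2 14,.EC 3 3 3,.EC 4 4 14,.EC 5 5 14,.EC 6 6
  6,.EC 7 7 14,.EC 8 8 8,.EC 9 9 9,.EC 10 10 14,.EC 11 11 14,.EJ 12 (12,12,12) (12,12,14)
  (12,14,14),.EC 13 14 14,.EC 15 15 14,.EC 16 16 14,.EC 17 17 14,.EC 18 18 18,.EC 19 19 14,.EC 20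
  20 14,.EC 21 21 14,.EC 22 22 14,.EC 23 23 23,.EC 24 24 14,.EC 25 25 25,.EC 26 26 14]) (.B 15
  (.B 18 (.J (18,18,18) (18,18,18) (18,18,18)) (.B 17 (.J (17,17,17) (17,17,17) (17,17,17)) (.B
  19 (.J (15,19,19) (15,19,19) (15,19,19)) (.C 15 [15,16,20,24,25,26] (.B 20 (.J (15,20,20)
  (15,20,20) (15,20,20)) (.B 25 (.J (25,25,25) (25,25,25) (25,25,25)) (.B 26 (.J (15,26,26)
  (15,26,26) (15,26,26)) (.B 16 (.C 16 [16] (.X 15)) (.B 24 (.C 24 [24] (.X 15)) (.D false 15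
  [.EC 0 0 0,.EC 1 1 1,.EC 2 2 2,.EC 3 3 3,.EC 4 4 4,.EC 5 5 15,.EC 6 6 6,.EC 7 7 7,.EC 8 8 8,.EC
  9 9 9,.EC 10 10 10,.EC 11 11 11,.EC 12 12 12,.EC 13 13 13,.EC 14 14 14,.EC 16 16 16,.EC 17 17
  17,.EC 18 18 18,.EC 19 19 19,.EC 20 20 20,.EC 21 21 21,.EC 22 22 22,.EC 23 23 23,.EC 24 24
  24,.EC 25 25 25,.EC 26 26 26])))))))))) (.B 16 (.B 17 (.J (16,17,17) (16,17,17) (16,17,17)) (.D
  false 16 [.EC 0 0 0,.EC 1 1 1,.EC 2 2 2,.EC 3 3 3,.EC 4 4 4,.EC 5 5 5,.EC 6 6 6,.EC 7 7 16,.EC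
  8 8 8,.EC 9 9 9,.EC 10 10 16,.EC 11 16 16,.EC 12 16 16,.EC 13 13 16,.EC 14 14 14,.EC 15 16
  16,.EC 17 17 16,.EC 18 18 18,.EC 19 19 16,.EC 20 20 16,.EC 21 21 16,.EC 22 22 16,.EC 23 23
  23,.EC 24 24 16,.EC 25 25 25,.EC 26 26 16])) (.B 17 (.D false 0 [.EC 1 1 1,.EC 2 2 2,.EC 3 3
  3,.EC 4 4 17,.EC 5 5 17,.EC 6 6 6,.EC 7 7 17,.EC 8 8 8,.EC 9 9 9,.EC 10 10 17,.EC 12 17 17,.EC
  13 13 17,.EC 14 14 14,.EC 16 16 17,.EC 18 18 18,.EC 19 19 17,.EC 20 20 17,.EC 21 21 17,.EC 22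
  22 17,.EC 23 23 23,.EC 24 17 17,.EC 25 25 25,.EC 26 26 17,.EJ 11 (11,11,17) (11,11,17)
  (11,11,17),.EJ 15 (15,15,17) (15,15,17) (15,15,17),.EJ 17 (17,17,17) (17,17,17) (17,17,17)])
  (.B 18 (.J (18,18,18) (18,18,18) (18,18,18)) (.B 19 (.B 21 (.J (19,21,21) (19,21,21)
  (19,21,21)) (.B 23 (.J (23,23,23) (23,23,23) (23,23,23)) (.B 24 (.J (19,19,24) (19,19,24)
  (19,19,24)) (.B 25 (.J (19,19,25) (19,19,25) (19,19,25)) (.B 26 (.J (19,19,26) (19,19,26)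
  (19,19,26)) (.B 20 (.C 20 [20] (.X 19)) (.B 22 (.C 22 [22] (.X 19)) (.D false 19 [.EC 0 0 0,.EC
  1 1 1,.EC 2 2 2,.EC 3 3 3,.EC 4 4 4,.EC 5 5 5,.EC 6 6 6,.EC 7 7 7,.EC 8 8 8,.EC 9 9 9,.EC 10 10
  10,.EC 11 11 11,.EC 12 12 12,.EC 13 13 13,.EC 14 14 14,.EC 15 15 19,.EC 16 16 16,.EC 17 17
  17,.EC 18 18 18,.EC 20 20 20,.EC 21 21 21,.EC 22 22 22,.EC 23 23 23,.EC 24 24 24,.EC 25 25
  25,.EC 26 26 26])))))))) (.B 20 (.C 20 [20] (.D false 20 [.EC 0 0 0,.EC 1 1 1,.EC 2 2 2,.EC 3 3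
  3,.EC 4 4 4,.EC 5 5 5,.EC 6 6 6,.EC 7 7 7,.EC 8 8 8,.EC 9 9 9,.EC 10 10 10,.EC 11 11 20,.EC 12
  12 12,.EC 13 13 13,.EC 14 14 14,.EC 15 15 15,.EC 16 16 16,.EC 17 17 17,.EC 18 18 18,.EC 19 19
  20,.EC 21 21 21,.EC 22 22 22,.EC 23 23 23,.EC 24 24 24,.EC 25 25 25,.EC 26 26 20])) (.B 21 (.B
  23 (.J (21,23,23) (21,23,23) (21,23,23)) (.B 25 (.J (25,25,25) (25,25,25) (25,25,25)) (.B 26
  (.J (21,26,26) (21,26,26) (21,26,26)) (.B 22 (.C 22 [22] (.X 21)) (.B 24 (.C 24 [24] (.X 21))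
  (.D false 21 [.EC 0 0 0,.EC 1 1 1,.EC 2 2 2,.EC 3 3 3,.EC 4 4 4,.EC 5 5 5,.EC 6 6 6,.EC 7 7
  7,.EC 8 8 8,.EC 9 9 9,.EC 10 10 10,.EC 11 11 21,.EC 12 12 12,.EC 13 13 13,.EC 14 14 14,.EC 15
  15 15,.EC 16 16 16,.EC 17 17 17,.EC 18 18 18,.EC 19 19 19,.EC 20 20 20,.EC 22 22 22,.EC 23 23
  23,.EC 24 24 24,.EC 25 25 25,.EC 26 26 26])))))) (.B 22 (.B 23 (.J (22,23,23) (22,23,23)
  (22,23,23)) (.D false 22 [.EC 0 0 0,.EC 1 1 1,.EC 2 2 2,.EC 3 3 3,.EC 4 4 4,.EC 5 5 5,.EC 6 6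
  6,.EC 7 7 7,.EC 8 8 8,.EC 9 9 9,.EC 10 10 10,.EC 11 11 11,.EC 12 12 22,.EC 13 13 22,.EC 14 14
  14,.EC 15 15 22,.EC 16 16 16,.EC 17 17 17,.EC 18 18 18,.EC 19 19 22,.EC 20 20 20,.EC 21 22
  22,.EC 23 23 23,.EC 24 24 22,.EC 25 25 25,.EC 26 26 22])) (.B 23 (.J (23,23,23) (23,23,23)
  (23,23,23)) (.B 24 (.C 24 [24,25] (.D false 24 [.EC 0 0 0,.EC 1 1 1,.EC 2 2 2,.EC 3 3 3,.EC 4 4
  4,.EC 5 5 5,.EC 6 6 6,.EC 7 7 7,.EC 8 8 8,.EC 9 9 9,.EC 10 10 10,.EC 11 11 11,.EC 12 12 24,.EC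
  13 13 24,.EC 14 14 14,.EC 15 15 24,.EC 16 16 16,.EC 17 17 17,.EC 18 18 18,.EC 19 19 19,.EC 20
  20 20,.EC 21 21 24,.EC 22 22 22,.EC 23 23 23,.EC 25 25 25,.EC 26 26 24])) (.B 25 (.J (25,25,25)
  (25,25,25) (25,25,25)) (.B 26 (.D false 26 [.EC 0 0 0,.EC 1 1 1,.EC 2 2 2,.EC 3 3 3,.EC 4 4
  4,.EC 5 5 5,.EC 6 6 6,.EC 7 7 7,.EC 8 8 8,.EC 9 9 9,.EC 10 10 10,.EC 11 11 11,.EC 12 12 12,.EC
  13 13 26,.EC 14 14 14,.EC 15 15 15,.EC 16 16 16,.EC 17 17 17,.EC 18 18 18,.EC 19 19 19,.EC 20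
  20 20,.EC 21 21 21,.EC 22 22 22,.EC 23 23 23,.EC 24 24 24,.EC 25 25 25])
  .N)))))))))))))))))))))))))))

theorem checkA : check (fs (rowsN rowsA)) (fw (rowsN rowsA)) goodA [] (List.range 27) treeA =
    true := by
  decide +kernel

theorem checkB : check (fs (rowsN rowsB)) (fw (rowsN rowsB)) goodB [] (List.range 27) treeB =
    true := by
  decide +kernel

end S4F

theorem s4_finA (U P : Set (Fin 3 → ZMod 3)) (hU : Core4 (Fw rowsA) (Fs rowsA) U)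
    (hUP : U ⊆ P) (hJ : J34 (Fs rowsA) P P)
    (hP : ∀ p ∈ P, ∀ q ∈ P, ∀ r ∈ P, ∃ z ∈ U, Fs rowsA p q r z) :
    (∃ u, ∀ p ∈ P, p 0 = u) ∨ ∀ p ∈ P, p 0 = p 1 ∧ p 1 = p 2 := by
  obtain ⟨e, u, h⟩ := S4F.transfer S4F.goodA S4F.treeA S4F.checkA U P hU hUP hJ hP
  cases e with
  | true =>
    right
    intro p hp
    exact S4F.eq_rows (by simpa [S4F.goodA] using h p hp)
  | false =>
    left
    refine ⟨(u : ZMod 3), fun p hp => ?_⟩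
    have h1 := h p hp
    have h0 : S4F.dg (S4F.code p) 0 = (p 0).val := S4F.dg_code p 0
    simp only [S4F.goodA, h0, Bool.false_eq_true, if_false, beq_iff_eq] at h1
    rw [← h1]
    simp

theorem s4_finB (U P : Set (Fin 3 → ZMod 3)) (hU : Core4 (Fw rowsB) (Fs rowsB) U)
    (hUP : U ⊆ P) (hJ : J34 (Fs rowsB) P P)
    (hP : ∀ p ∈ P, ∀ q ∈ P, ∀ r ∈ P, ∃ z ∈ U, Fs rowsB p q r z) :
    (∃ c, ∀ p ∈ P, p = c) ∨ ∀ p ∈ P, p 0 = p 1 ∧ p 1 = p 2 := by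
  obtain ⟨e, u, h⟩ := S4F.transfer S4F.goodB S4F.treeB S4F.checkB U P hU hUP hJ hP
  cases e with
  | true =>
    right
    intro p hp
    exact S4F.eq_rows (by simpa [S4F.goodB] using h p hp)
  | false =>
    left
    obtain ⟨c, hc⟩ := hU.nonempty
    refine ⟨c, fun p hp => ?_⟩
    have h1 := h p hp
    have h2 := h c (hUP hc)
    simp only [S4F.goodB, Bool.false_eq_true, if_false, beq_iff_eq] at h1 h2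
    exact S4F.code_inj (h1.trans h2.symm)

end CodegDens
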