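import Pool.Agent.Lib.MP_81e58e_co.S4Defs
import Pool.Agent.Lib.MP_81e58e_co.LFinal

/-!
# k = 4: recursion and assembly, modulo the step `a -> (1+a)/3` (problem MP_81e58e_co)
-/

set_option autoImplicit false

namespace CodegDens

open Finset Filter Topology

/-- irreducibility at `0` of the empty pattern (any `k`) -/
theorem irrLab_empty' {k : ℕ} (hk : 2 ≤ k) : IrrLab k (∅ : Set (Multiset Unit)) 0 := by
  classical
  refine ⟨1, ?_⟩
  intro ι _ _ V E Y hY f hf
  have h1 : ∀ i, ∃ x ∈ Y i 0, ∃ v ∈ Y i 1, v ::ₘ Multiset.replicate (k - 1) x ∈ E i := by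
    intro i
    obtain ⟨x, hx⟩ := (hY i).nonempty
    obtain ⟨v, hv, h⟩ := (hY i).rich 0 one_pos Unit (fun _ => Multiset.replicate (k - 1) x)
      (fun _ => 1) (fun _ => ⟨by rw [Multiset.card_replicate]; omega, fun y hy => by
        rw [Multiset.eq_of_mem_replicate hy]; exact hx⟩) (fun _ => zero_le_one) (by simp)
    refine ⟨x, hx, v, by simpa using hv, ?_⟩
    by_contra hcon
    simp [hcon] at h
  choose x hx v hv hE using h1
  have h2 : ((v ::ₘ Multiset.replicate (k - 1) x : Multiset (∀ i, V i))).map f ∈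
      (∅ : Set (Multiset Unit)) := by
    apply hf
    · rw [Multiset.card_cons, Multiset.card_replicate]
      omega
    · intro i
      rw [Multiset.map_cons, Multiset.map_replicate]
      exact hE i
    · intro y hy i
      rw [Multiset.mem_cons] at hy
      rcases hy with rfl | hy
      · exact hv i
      · rw [Multiset.eq_of_mem_replicate hy]
        exact (hY i).mono 0 one_pos (hx i)
  exact h2

/-- the recursion, from the two facts about the step -/
theorem s4_half_of
    (hirr : ∀ (C : Type) (Q : Set (Multiset C)) (a : ℝ), 0 ≤ a → a ≤ 1 / 2 →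
      IrrLab 4 Q a → IrrLab 4 (E3SPat Q) ((1 + a) / 3))
    (hval : ∀ (C : Type) [Fintype C] (Q : Set (Multiset C)) (a : ℝ), 0 ≤ a →
      PatVal 4 Q a → PatVal 4 (E3SPat Q) ((1 + a) / 3)) :
    ∀ p q : ℕ, 2 * p < q → ∃ (C : Type) (_ : Fintype C)
    (P : Set (Multiset C)), PatVal 4 P ((p : ℝ) / q) ∧ IrrLab 4 P ((p : ℝ) / q) := by
  intro p
  induction p using Nat.strong_induction_on with
  | _ p ih =>
    intro q h
    have hqR : (0 : ℝ) < q := by exact_mod_cast (show 0 < q by omega)
    rcases Nat.eq_zero_or_pos p with hp | hp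
    · subst hp
      refine ⟨Unit, inferInstance, ∅, ?_, ?_⟩
      · refine ⟨fun _ => 1, fun _ => zero_le_one, by simp, ?_⟩
        intro s _
        simp
      · have := irrLab_empty' (k := 4) (by norm_num)
        simpa using this
    · by_cases h3 : 3 * p < q
      · have hq : NeZero (q - p) := ⟨by omega⟩
        have h4 : ((q - p : ℕ) : ℝ) = q - p := Nat.cast_sub (by omega)
        have h5 : (p : ℝ) / (p + ((q - p : ℕ) : ℝ)) = (p : ℝ) / q := by
          rw [h4]
          congr 1
          ring
        refine ⟨Option (ZMod (q - p)), inferInstance, CirPat 4 (q - p) p, ?_, ?_⟩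
        · rw [← h5]
          exact patVal_cir (by norm_num) hp (by omega)
        · rw [← h5]
          exact irrLab_cir (Or.inr ⟨rfl, by omega⟩) hp (by omega)
      · obtain ⟨C, hC, Q, hQ1, hQ2⟩ := ih (3 * p - q) (by omega) q (by omega)
        have h4 : ((3 * p - q : ℕ) : ℝ) = 3 * p - q := by
          rw [Nat.cast_sub (by omega)]
          push_cast
          ring
        have h5 : (1 + ((3 * p - q : ℕ) : ℝ) / q) / 3 = (p : ℝ) / q := by
          rw [h4]
          field_simp
          ring
        have h6 : ((3 * p - q : ℕ) : ℝ) / q ≤ 1 / 2 := by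
          rw [div_le_div_iff₀ hqR (by norm_num)]
          have : ((2 * (3 * p - q) : ℕ) : ℝ) ≤ q := by exact_mod_cast (by omega)
          push_cast at this
          linarith
        have h7 : (0 : ℝ) ≤ ((3 * p - q : ℕ) : ℝ) / q := by positivity
        refine ⟨ZMod 3 × C, inferInstance, E3SPat Q, ?_, ?_⟩
        · rw [← h5]
          exact hval C Q _ h7 hQ1
        · rw [← h5]
          exact hirr C Q _ h7 h6 hQ2

/-- the assembly -/
theorem all_rationals_four_of
    (hhalf : ∀ p q : ℕ, 2 * p < q → ∃ (C : Type) (_ : Fintype C)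
      (P : Set (Multiset C)), PatVal 4 P ((p : ℝ) / q) ∧ IrrLab 4 P ((p : ℝ) / q)) :
    ∀ q : ℚ, 0 ≤ q → q < 1 →
    ∃ (m : ℕ) (F : KGraph 4 (Fin m)), F.edges.Nonempty ∧ HasCodegDensity F (q : ℝ) := by
  intro q hq0 hq1
  have hk2 : 2 ≤ 4 := by norm_num
  have h := join_descent (Reach 4) (reach_zero hk2)
    (fun a h0 h1 h => reach_join hk2 a h0 h1 h)
    (fun p q hp hpq => by
      obtain ⟨C, hC, P, hP1, hP2⟩ := hhalf p (p + q) (by omega)
      rw [Nat.cast_add] at hP1 hP2
      exact ⟨C, hC, P, hP1, irr_of_irrLab hk2 _ _ (by positivity) hP2⟩) q hq0 hq1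
  exact reach_density hk2 (q : ℝ) (by exact_mod_cast hq0) (by exact_mod_cast hq1) h

end CodegDens
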