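import Pool.Agent.Lib.MP_81e58e_co.S4Defs

/-!
# One factor, the rows of arbitrary contexts (k = 4; problem MP_81e58e_co)
-/

namespace CodegDens

/-- all orderings of the window edges of `rowsA` -/
theorem rowsA_of {B : Type} {S : B → B → B → B → Prop} (hS : Sym4 S) (bb : Fin 3 → B)
    (h1 : S (bb 0) (bb 0) (bb 0) (bb 1)) (h2 : S (bb 0) (bb 1) (bb 1) (bb 2)) :
    ∀ e ∈ rowsA, S (bb e.1) (bb e.2.1) (bb e.2.2.1) (bb e.2.2.2) := by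
  intro e he
  simp only [rowsA, List.mem_cons, List.not_mem_nil, or_false] at he
  rcases he with rfl | rfl | rfl | rfl | rfl | rfl | rfl | rfl | rfl | rfl | rfl | rfl | rfl | rfl | rfl | rfl
  · exact h1
  · exact (hS.s34 _ _ _ _ h1)
  · exact (hS.s23 _ _ _ _ (hS.s34 _ _ _ _ h1))
  · exact (hS.s12 _ _ _ _ (hS.s23 _ _ _ _ (hS.s34 _ _ _ _ h1)))
  · exact h2
  · exact (hS.s34 _ _ _ _ h2)
  · exact (hS.s23 _ _ _ _ (hS.s34 _ _ _ _ h2))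
  · exact (hS.s12 _ _ _ _ h2)
  · exact (hS.s34 _ _ _ _ (hS.s12 _ _ _ _ h2))
  · exact (hS.s23 _ _ _ _ (hS.s12 _ _ _ _ h2))
  · exact (hS.s34 _ _ _ _ (hS.s23 _ _ _ _ (hS.s12 _ _ _ _ h2)))
  · exact (hS.s23 _ _ _ _ (hS.s34 _ _ _ _ (hS.s12 _ _ _ _ h2)))
  · exact (hS.s23 _ _ _ _ (hS.s34 _ _ _ _ (hS.s23 _ _ _ _ (hS.s12 _ _ _ _ h2))))
  · exact (hS.s12 _ _ _ _ (hS.s23 _ _ _ _ (hS.s34 _ _ _ _ h2)))
  · exact (hS.s12 _ _ _ _ (hS.s23 _ _ _ _ (hS.s34 _ _ _ _ (hS.s12 _ _ _ _ h2))))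
  · exact (hS.s12 _ _ _ _ (hS.s23 _ _ _ _ (hS.s34 _ _ _ _ (hS.s23 _ _ _ _ (hS.s12 _ _ _ _ h2)))))

/-- all orderings of the window edges of `rowsB` -/
theorem rowsB_of {B : Type} {S : B → B → B → B → Prop} (hS : Sym4 S) (bb : Fin 3 → B)
    (h0 : ∀ i, S (bb i) (bb i) (bb i) (bb i)) (h2 : S (bb 0) (bb 0) (bb 1) (bb 2)) :
    ∀ e ∈ rowsB, S (bb e.1) (bb e.2.1) (bb e.2.2.1) (bb e.2.2.2) := by
  intro e he
  simp only [rowsB, List.mem_cons, List.not_mem_nil, or_false] at he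
  rcases he with rfl | rfl | rfl | rfl | rfl | rfl | rfl | rfl | rfl | rfl | rfl | rfl | rfl | rfl | rfl
  · exact h0 0
  · exact h0 1
  · exact h0 2
  · exact h2
  · exact (hS.s34 _ _ _ _ h2)
  · exact (hS.s23 _ _ _ _ h2)
  · exact (hS.s34 _ _ _ _ (hS.s23 _ _ _ _ h2))
  · exact (hS.s23 _ _ _ _ (hS.s34 _ _ _ _ h2))
  · exact (hS.s23 _ _ _ _ (hS.s34 _ _ _ _ (hS.s23 _ _ _ _ h2)))
  · exact (hS.s12 _ _ _ _ (hS.s23 _ _ _ _ h2))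
  · exact (hS.s34 _ _ _ _ (hS.s12 _ _ _ _ (hS.s23 _ _ _ _ h2)))
  · exact (hS.s23 _ _ _ _ (hS.s34 _ _ _ _ (hS.s12 _ _ _ _ (hS.s23 _ _ _ _ h2))))
  · exact (hS.s12 _ _ _ _ (hS.s23 _ _ _ _ (hS.s34 _ _ _ _ h2)))
  · exact (hS.s12 _ _ _ _ (hS.s23 _ _ _ _ (hS.s34 _ _ _ _ (hS.s23 _ _ _ _ h2))))
  · exact (hS.s12 _ _ _ _ (hS.s23 _ _ _ _ (hS.s34 _ _ _ _ (hS.s12 _ _ _ _ (hS.s23 _ _ _ _ h2)))))

/-- the types of the elements of one factor satisfy the window conditions -/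
theorem rows_type {V B : Type} {R : V → V → V → V → Prop} (hR : Sym4 R) {Y : Set V}
    {S : B → B → B → B → Prop} (hS : Sym4 S) (D : Set B) (t : V → B → ZMod 3)
    (ht : ∀ x ∈ Y, ∀ y ∈ Y, ∀ z ∈ Y, ∀ v ∈ Y, R x y z v →
      ∀ b ∈ D, ∀ c ∈ D, ∀ d ∈ D, ∀ e ∈ D, S b c d e →
        G4 (t x b) (t y c) (t z d) (t v e) ∧
          (x = y → b = c → In01 (t x b + t z d + t v e)))
    (rows : List (Fin 3 × Fin 3 × Fin 3 × Fin 3)) (bb : Fin 3 → B) (hbb : ∀ i, bb i ∈ D)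
    (hrows : ∀ e ∈ rows, S (bb e.1) (bb e.2.1) (bb e.2.2.1) (bb e.2.2.2))
    (φ : V → Fin 3 → ZMod 3) (hφ : ∀ x i, φ x i = t x (bb i)) :
    (∀ x ∈ Y, ∀ y ∈ Y, ∀ z ∈ Y, ∀ v ∈ Y, R x y z v →
      Fw rows (φ x) (φ y) (φ z) (φ v)) ∧
    (∀ x ∈ Y, ∀ y ∈ Y, ∀ z ∈ Y, ∀ v ∈ Y, R x y z v → (φ x = φ y → x = y) →
      (φ y = φ z → y = z) → (φ x = φ z → x = z) → Fs rows (φ x) (φ y) (φ z) (φ v)) := by
  have key : ∀ x ∈ Y, ∀ y ∈ Y, ∀ z ∈ Y, ∀ v ∈ Y, R x y z v →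
      Fw rows (φ x) (φ y) (φ z) (φ v) := by
    intro x hx y hy z hz v hv hr e he
    simp only [hφ]
    exact (ht x hx y hy z hz v hv hr _ (hbb _) _ (hbb _) _ (hbb _) _ (hbb _) (hrows e he)).1
  refine ⟨key, ?_⟩
  intro x hx y hy z hz v hv hr h1 h2 h3 e he
  refine ⟨key x hx y hy z hz v hv hr e he, ?_, ?_, ?_⟩
  · intro hxy h12
    simp only [hφ]
    exact (ht x hx y hy z hz v hv hr _ (hbb _) _ (hbb _) _ (hbb _) _ (hbb _) (hrows e he)).2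
      (h1 hxy) (by rw [h12])
  · intro hyz h23
    simp only [hφ]
    have hr' : R y z x v := hR.s23 _ _ _ _ (hR.s12 _ _ _ _ hr)
    have hS' := hS.s23 _ _ _ _ (hS.s12 _ _ _ _ (hrows e he))
    exact (ht y hy z hz x hx v hv hr' _ (hbb _) _ (hbb _) _ (hbb _) _ (hbb _) hS').2
      (h2 hyz) (by rw [h23])
  · intro hxz h13
    simp only [hφ]
    have hr' : R x z y v := hR.s23 _ _ _ _ hr
    have hS' := hS.s23 _ _ _ _ (hrows e he)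
    exact (ht x hx z hz y hy v hv hr' _ (hbb _) _ (hbb _) _ (hbb _) _ (hbb _) hS').2
      (h3 hxz) (by rw [h13])

theorem chain_le {V : Type} {Z : ℕ → Set V} {n : ℕ} (hmono : ∀ s, s < n → Z s ⊆ Z (s + 1)) :
    ∀ {a b : ℕ}, a ≤ b → b ≤ n → Z a ⊆ Z b := by
  intro a b hab
  induction b, hab using Nat.le_induction with
  | base => intro _; exact le_rfl
  | succ b hb ih => intro hn; exact (ih (by omega)).trans (hmono b (by omega))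

end CodegDens
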