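import Pool.Agent.Lib.MP_81e58e_co.S4Core
import Pool.Agent.Lib.MP_81e58e_co.S4Fin
import Pool.Agent.Lib.MP_81e58e_co.S4PairCore

/-!
# One factor, the rows of arbitrary contexts (k = 4; problem MP_81e58e_co)
-/

namespace CodegDens

/-- `t` on the product of one factor `V` and a context type `B` with relation `S`. `C r` are the
levels of contexts. -/
theorem s4_pair
    {V B : Type} {R : V → V → V → V → Prop} (hR : Sym4 R) {Z : ℕ → Set V}
    {n w m : ℕ} (hw : 1 ≤ w) (hn : m + 54 * w ≤ n) (hne : (Z 0).Nonempty)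
    (hmono : ∀ s, s < n → Z s ⊆ Z (s + 1)) (hj : ∀ s, s < n → J34 R (Z s) (Z (s + 1)))
    (hcoh : Coh4 R Z n w) {S : B → B → B → B → Prop} (hS : Sym4 S) (C : ℕ → Set B)
    (hC : ∀ s, s < 3 → C s ⊆ C (s + 1))
    (hCS : ∀ s, s < 3 → ∀ x ∈ C s, ∀ y ∈ C s, ∀ z ∈ C s, ∃ v ∈ C (s + 1), S x y z v)
    (t : V → B → ZMod 3)
    (ht : ∀ x ∈ Z n, ∀ y ∈ Z n, ∀ z ∈ Z n, ∀ v ∈ Z n, R x y z v →
      ∀ b ∈ C 3, ∀ c ∈ C 3, ∀ d ∈ C 3, ∀ e ∈ C 3, S b c d e →
        G4 (t x b) (t y c) (t z d) (t v e) ∧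
          (x = y → b = c → In01 (t x b + t z d + t v e))) :
    (∀ b ∈ C 0, ∀ x ∈ Z m, ∀ y ∈ Z m, t x b = t y b) ∨
      ∀ b ∈ C 0, ∀ c ∈ C 0, ∀ x ∈ Z m, t x b = t x c := by
  have hcard : Nat.card (Fin 3 → ZMod 3) = 27 := by
    rw [Nat.card_eq_fintype_card]
    simp [ZMod.card]
  have c01 : C 0 ⊆ C 1 := hC 0 (by norm_num)
  have c12 : C 1 ⊆ C 2 := hC 1 (by norm_num)
  have c23 : C 2 ⊆ C 3 := hC 2 (by norm_num)
  have zle : ∀ {a b : ℕ}, a ≤ b → b ≤ n → Z a ⊆ Z b := fun h1 h2 => chain_le hmono h1 h2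
  have z1 : Z (m + 27 * w) ⊆ Z n := zle (by omega) le_rfl
  -- Step 1 : the rows
  have loop : ∀ b ∈ C 1, ∀ x ∈ Z (m + 27 * w), ∀ y ∈ Z (m + 27 * w), ∀ z ∈ Z (m + 27 * w),
      ∀ v ∈ Z (m + 27 * w), R x y z v → G4 (t x b) (t y b) (t z b) (t v b) ∧
        (x = y → In01 (t x b + t z b + t v b)) := by
    intro b hb
    obtain ⟨b1, hb1, s1⟩ := hCS 1 (by norm_num) b hb b hb b hb
    obtain ⟨b2, hb2, s2⟩ := hCS 2 (by norm_num) b (c12 hb) b1 hb1 b1 hb1
    have hb3 : b ∈ C 3 := c23 (c12 hb)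
    have hb13 : b1 ∈ C 3 := c23 hb1
    obtain ⟨k0, k1⟩ := rows_type hR hS (C 3) t ht rowsA ![b, b1, b2]
      (by
        intro i
        fin_cases i
        · exact hb3
        · exact hb13
        · exact hb2)
      (rowsA_of hS ![b, b1, b2] s1 s2) (fun x i => t x (![b, b1, b2] i)) (fun _ _ => rfl)
    obtain ⟨U, P, hU, hUP, hm, hJ, hP⟩ := s4_core2 hw (m := m + 27 * w) (by rw [hcard]; omega)
      hne hmono hj hcoh (fun x i => t x (![b, b1, b2] i)) (Fw rowsA) (Fs rowsA) k0 k1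
    intro x hx y hy z hz v hv hr
    rcases s4_finA U P hU hUP hJ hP with ⟨u, hu⟩ | hu
    · have hc : ∀ x ∈ Z (m + 27 * w), t x b = u := fun x hx => hu _ (hm x hx)
      rw [hc x hx, hc y hy, hc z hz, hc v hv]
      constructor
      · clear hu hc
        revert u
        decide
      · intro _
        clear hu hc
        revert u
        decide
    · have hc : ∀ x ∈ Z (m + 27 * w), t x b = t x b1 := fun x hx => (hu _ (hm x hx)).1
      have h1 := ht x (z1 hx) y (z1 hy) z (z1 hz) v (z1 hv) hr b hb3 b hb3 b hb3 b1 hb13 s1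
      rw [← hc v hv] at h1
      exact ⟨h1.1, fun hxy => h1.2 hxy rfl⟩
  -- Step 2 : pairs of rows
  have pair : ∀ b ∈ C 0, ∀ c ∈ C 0, (∀ x ∈ Z m, ∀ y ∈ Z m, t x b = t y b) ∨
      ∀ x ∈ Z m, t x b = t x c := by
    intro b hb c hc
    obtain ⟨d, hd, s⟩ := hCS 0 (by norm_num) b hb b hb c hc
    have hS' : Sym4 (fun b c d e => S b c d e ∨ (c = b ∧ d = b ∧ e = b)) := by
      constructor
      · rintro x y z v (h | ⟨h1, h2, h3⟩)
        · exact Or.inl (hS.s12 _ _ _ _ h)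
        · exact Or.inr ⟨h1.symm, h2.trans h1.symm, h3.trans h1.symm⟩
      · rintro x y z v (h | ⟨h1, h2, h3⟩)
        · exact Or.inl (hS.s23 _ _ _ _ h)
        · exact Or.inr ⟨h2, h1, h3⟩
      · rintro x y z v (h | ⟨h1, h2, h3⟩)
        · exact Or.inl (hS.s34 _ _ _ _ h)
        · exact Or.inr ⟨h1, h3, h2⟩
    have ht' : ∀ x ∈ Z (m + 27 * w), ∀ y ∈ Z (m + 27 * w), ∀ z ∈ Z (m + 27 * w),
        ∀ v ∈ Z (m + 27 * w), R x y z v →
        ∀ b ∈ C 1, ∀ c ∈ C 1, ∀ d ∈ C 1, ∀ e ∈ C 1, (S b c d e ∨ (c = b ∧ d = b ∧ e = b)) →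
          G4 (t x b) (t y c) (t z d) (t v e) ∧
            (x = y → b = c → In01 (t x b + t z d + t v e)) := by
      rintro x hx y hy z hz v hv hr b hb c hc d hd e he (h | ⟨rfl, rfl, rfl⟩)
      · exact ht x (z1 hx) y (z1 hy) z (z1 hz) v (z1 hv) hr b (c23 (c12 hb)) c (c23 (c12 hc))
          d (c23 (c12 hd)) e (c23 (c12 he)) h
      · have := loop _ hb x hx y hy z hz v hv hr
        exact ⟨this.1, fun hxy _ => this.2 hxy⟩
    obtain ⟨k0, k1⟩ := rows_type hR hS' (C 1) t ht' rowsB ![b, c, d]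
      (by
        intro i
        fin_cases i
        · exact c01 hb
        · exact c01 hc
        · exact hd)
      (rowsB_of hS' ![b, c, d] (fun i => Or.inr ⟨rfl, rfl, rfl⟩) (Or.inl s))
      (fun x i => t x (![b, c, d] i)) (fun _ _ => rfl)
    obtain ⟨U, P, hU, hUP, hm, hJ, hP⟩ := s4_core2 (n := m + 27 * w) hw (m := m)
      (by rw [hcard]) hne
      (fun s hs => hmono s (by omega)) (fun s hs => hj s (by omega))
      (fun j hj D hD => hcoh j (by omega) D hD)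
      (fun x i => t x (![b, c, d] i)) (Fw rowsB) (Fs rowsB) k0 k1
    rcases s4_finB U P hU hUP hJ hP with ⟨u, hu⟩ | hu
    · left
      intro x hx y hy
      have h1 := congrFun (hu _ (hm x hx)) 0
      have h2 := congrFun (hu _ (hm y hy)) 0
      exact h1.trans h2.symm
    · right
      intro x hx
      exact (hu _ (hm x hx)).1
  -- Step 3
  by_cases hall : ∀ b ∈ C 0, ∀ x ∈ Z m, ∀ y ∈ Z m, t x b = t y b
  · exact Or.inl hall
  · right
    push Not at hall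
    obtain ⟨b0, hb0, x0, hx0, y0, hy0, hxy⟩ := hall
    have h1 : ∀ c ∈ C 0, ∀ x ∈ Z m, t x b0 = t x c := by
      intro c hc
      rcases pair b0 hb0 c hc with h | h
      · exact absurd (h x0 hx0 y0 hy0) hxy
      · exact h
    intro b hb c hc x hx
    rw [← h1 b hb x hx, ← h1 c hc x hx]

end CodegDens
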