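import Pool.Agent.Lib.MP_81e58e_co.LabDefs
import Pool.Agent.Lib.MP_81e58e_co.S4Defs

/-!
# The step `a -> (1+a)/3` for `k = 4`: assembly (problem MP_81e58e_co)
-/

set_option autoImplicit false

namespace CodegDens

open Finset Filter Topology

/-- irreducible patterns have no constant edges -/
theorem irrLab_no_const {k : ℕ} {C : Type} (Q : Set (Multiset C)) (a : ℝ) (ha1 : a < 1)
    (hQ : IrrLab k Q a) : ∀ c, Multiset.replicate k c ∉ Q := by
  classical
  intro c hc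
  obtain ⟨L, hL⟩ := hQ
  refine hL Unit (fun _ => Unit) (fun _ => Set.univ) (fun _ _ => Set.univ) ?_ (fun _ => c) ?_
  · intro _
    refine ⟨⟨(), trivial⟩, fun _ _ => subset_rfl, ?_⟩
    intro t _ J _ s w _ hw hpos
    refine ⟨(), trivial, ?_⟩
    simp only [Set.mem_univ, if_true]
    nlinarith
  · intro e he _ _
    have h : e.map (fun _ : Unit → Unit => c) = Multiset.replicate k c := by
      rw [Multiset.map_const', he]
    rw [h]
    exact hc

namespace S4S

variable {V : Type} {E : Set (Multiset V)} {a : ℝ} {A B : Set V}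

/-- Richness between two sets of labels. -/
def Good (E : Set (Multiset V)) (a : ℝ) (A B : Set V) : Prop :=
  ∀ (J : Type) [Fintype J] (s : J → Multiset V) (w : J → ℝ),
    (∀ j, (s j).card + 1 = 4 ∧ ∀ x ∈ s j, x ∈ A) → (∀ j, 0 ≤ w j) → 0 < ∑ j, w j →
    ∃ v ∈ B, a * ∑ j, w j < ∑ j, (open Classical in if v ::ₘ s j ∈ E then w j else 0)

/-- The quaternary relation of the edges. -/
def Rel (E : Set (Multiset V)) (x y z v : V) : Prop := x ::ₘ y ::ₘ z ::ₘ {v} ∈ E

lemma swap2 (y z : V) : y ::ₘ ({z} : Multiset V) = z ::ₘ {y} := by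
  rw [← Multiset.cons_zero z, Multiset.cons_swap, Multiset.cons_zero]

lemma rot (x y z v : V) : x ::ₘ y ::ₘ z ::ₘ ({v} : Multiset V) = v ::ₘ x ::ₘ y ::ₘ {z} := by
  rw [swap2 z v, Multiset.cons_swap y v, Multiset.cons_swap x v]

lemma rel_sym (E : Set (Multiset V)) : Sym4 (Rel E) where
  s12 x y z v h := by
    unfold Rel at *
    rw [Multiset.cons_swap]
    exact h
  s23 x y z v h := by
    unfold Rel at *
    rw [Multiset.cons_swap z y]
    exact h
  s34 x y z v h := by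
    unfold Rel at *
    rw [swap2 v z]
    exact h

lemma mem_iff (x y z v : V) : v ::ₘ ({x, y, z} : Multiset V) ∈ E ↔ Rel E x y z v := by
  unfold Rel
  rw [rot]
  rfl

lemma good_j34 (ha : 0 ≤ a) (h : Good E ((1 + a) / 3) A B) : J34 (Rel E) A B := by
  classical
  intro x1 hx1 y1 hy1 z1 hz1 x2 hx2 y2 hy2 z2 hz2 x3 hx3 y3 hy3 z3 hz3
  have key : ∀ x ∈ A, ∀ y ∈ A, ∀ z ∈ A, (({x, y, z} : Multiset V).card + 1 = 4) ∧
      ∀ t ∈ ({x, y, z} : Multiset V), t ∈ A := by
    intro x hx y hy z hz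
    refine ⟨by simp, ?_⟩
    intro t ht
    simp only [Multiset.insert_eq_cons, Multiset.mem_cons, Multiset.mem_singleton] at ht
    rcases ht with rfl | rfl | rfl
    · exact hx
    · exact hy
    · exact hz
  obtain ⟨v, hv, hlt⟩ := h (Fin 3) ![{x1, y1, z1}, {x2, y2, z2}, {x3, y3, z3}] (fun _ => 1)
    (by
      intro j
      fin_cases j
      · exact key x1 hx1 y1 hy1 z1 hz1
      · exact key x2 hx2 y2 hy2 z2 hz2
      · exact key x3 hx3 y3 hy3 z3 hz3)
    (fun _ => zero_le_one) (by simp)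
  refine ⟨v, hv, ?_⟩
  have e0 : (![{x1, y1, z1}, {x2, y2, z2}, {x3, y3, z3}] : Fin 3 → Multiset V) 0 =
    {x1, y1, z1} := rfl
  have e1 : (![{x1, y1, z1}, {x2, y2, z2}, {x3, y3, z3}] : Fin 3 → Multiset V) 1 =
    {x2, y2, z2} := rfl
  have e2 : (![{x1, y1, z1}, {x2, y2, z2}, {x3, y3, z3}] : Fin 3 → Multiset V) 2 =
    {x3, y3, z3} := rfl
  rw [Fin.sum_univ_three, Fin.sum_univ_three, e0, e1, e2, mem_iff, mem_iff, mem_iff] at hlt
  by_contra hcon
  have n1 : ¬ (Rel E x1 y1 z1 v ∧ Rel E x2 y2 z2 v) := fun h => hcon (Or.inl h)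
  have n2 : ¬ (Rel E x1 y1 z1 v ∧ Rel E x3 y3 z3 v) := fun h => hcon (Or.inr (Or.inl h))
  have n3 : ¬ (Rel E x2 y2 z2 v ∧ Rel E x3 y3 z3 v) := fun h => hcon (Or.inr (Or.inr h))
  by_cases r1 : Rel E x1 y1 z1 v <;> by_cases r2 : Rel E x2 y2 z2 v <;>
    by_cases r3 : Rel E x3 y3 z3 v <;> simp [r1, r2, r3] at hlt n1 n2 n3 <;> linarith

lemma good_weaken {a' : ℝ} {A' B' : Set V} (h : Good E a A B) (ha : a' ≤ a) (hA : A' ⊆ A)
    (hB : B ⊆ B') : Good E a' A' B' := by
  intro J _ s w hs hw hpos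
  obtain ⟨v, hv, hlt⟩ := h J s w (fun j => ⟨(hs j).1, fun x hx => hA ((hs j).2 x hx)⟩) hw hpos
  exact ⟨v, hB hv, lt_of_le_of_lt (mul_le_mul_of_nonneg_right ha hpos.le) hlt⟩

lemma good_closed {A' B' : Set V} (h : Good E a A B) (ha : 0 ≤ a) (hA : A' ⊆ A)
    (hcl : ∀ x ∈ A', ∀ y ∈ A', ∀ z ∈ A', ∀ v ∈ B, Rel E x y z v → v ∈ B') :
    Good E a A' B' := by
  classical
  intro J _ s w hs hw hpos
  obtain ⟨v, hv, hlt⟩ := h J s w (fun j => ⟨(hs j).1, fun x hx => hA ((hs j).2 x hx)⟩) hw hpos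
  refine ⟨v, ?_, hlt⟩
  have h0 : 0 < ∑ j, (open Classical in if v ::ₘ s j ∈ E then w j else 0) :=
    lt_of_le_of_lt (mul_nonneg ha hpos.le) hlt
  obtain ⟨j, _, hj⟩ := Finset.exists_ne_zero_of_sum_ne_zero (ne_of_gt h0)
  have hj' : v ::ₘ s j ∈ E := by
    by_contra hcon
    rw [if_neg hcon] at hj
    exact hj rfl
  obtain ⟨hc, hm⟩ := hs j
  obtain ⟨x, y, z, hxy⟩ := Multiset.card_eq_three.1 (show (s j).card = 3 by omega)
  rw [hxy] at hj' hm
  exact hcl x (hm x (by simp)) y (hm y (by simp)) z (hm z (by simp)) v hv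
    ((mem_iff x y z v).1 hj')

lemma sum3 (m : ZMod 3 → ℝ) (u : ZMod 3) : ∑ x, m x = m u + m (u - 1) + m (u + 1) := by
  have h : (Finset.univ : Finset (ZMod 3)) = {u, u - 1, u + 1} := by revert u; decide
  have h1 : u ∉ ({u - 1, u + 1} : Finset (ZMod 3)) := by revert u; decide
  have h2 : u - 1 ∉ ({u + 1} : Finset (ZMod 3)) := by revert u; decide
  rw [h, Finset.sum_insert h1, Finset.sum_insert h2, Finset.sum_singleton]
  ring

lemma z4a (c : ZMod 3) : ¬ G4 (c + 1) (c + 1) (c + 1) c := by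
  revert c
  decide

lemma z4b (u v : ZMod 3) (h : G4 u u u v) : v = u ∨ v = u + 1 := by
  revert u v
  decide

lemma z4c (u b c : ZMod 3) (h : G4 u u b c) : In01 (u + b + c) ∨ (b = u + 1 ∧ c = u + 1) := by
  revert u b c
  decide

lemma g4_of (p q r s : ZMod 3)
    (h : ∀ u, (p ::ₘ q ::ₘ r ::ₘ {s} : Multiset (ZMod 3)) ≠ {u, u, u, u - 1}) :
    G4 p q r s := by
  refine ⟨?_, ?_, ?_, ?_⟩
  · rintro ⟨rfl, rfl, rfl⟩
    apply h (s + 1)
    rw [add_sub_cancel_right]
    rfl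
  · rintro ⟨rfl, rfl, rfl⟩
    apply h (r + 1)
    rw [add_sub_cancel_right, swap2 r (r + 1)]
    rfl
  · rintro ⟨rfl, rfl, rfl⟩
    apply h (q + 1)
    rw [add_sub_cancel_right, Multiset.cons_swap q (q + 1), swap2 q (q + 1)]
    rfl
  · rintro ⟨rfl, rfl, h1⟩
    apply h (p + 1)
    rw [add_sub_cancel_right, ← h1, Multiset.cons_swap p (p + 1),
      Multiset.cons_swap p (p + 1), swap2 p (p + 1)]
    rfl

/-- One of the three classes is rich. -/
lemma three_good (h : Good E ((1 + a) / 3) A B) (g : V → ZMod 3)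
    (hg : ∀ x ∈ A, ∀ y ∈ A, ∀ z ∈ A, ∀ v ∈ B, Rel E x y z v → G4 (g x) (g y) (g z) (g v)) :
    ∃ u, Good E a {v | v ∈ A ∧ g v = u} {v | v ∈ B ∧ g v = u} := by
  classical
  by_contra hcon
  have hb : ∀ u : ZMod 3, ∃ (J : Type) (_ : Fintype J) (s : J → Multiset V) (w : J → ℝ),
      (∀ j, (s j).card + 1 = 4 ∧ ∀ x ∈ s j, x ∈ A ∧ g x = u) ∧ (∀ j, 0 ≤ w j) ∧
      ∑ j, w j = 1 / 3 ∧ ∀ v ∈ B, g v = u →
        ∑ j, (open Classical in if v ::ₘ s j ∈ E then w j else 0) ≤ a / 3 := by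
    intro u
    have hu : ¬ Good E a {v | v ∈ A ∧ g v = u} {v | v ∈ B ∧ g v = u} := fun h => hcon ⟨u, h⟩
    unfold Good at hu
    push Not at hu
    obtain ⟨J, iJ, s, w, h1, h2, h3, h4⟩ := hu
    set T : ℝ := ∑ j, w j with hT
    refine ⟨J, iJ, s, fun j => w j / (3 * T), h1, fun j => div_nonneg (h2 j) (by positivity),
      ?_, ?_⟩
    · rw [← Finset.sum_div, ← hT]
      field_simp
    · intro v hv hgv
      have h5 := h4 v ⟨hv, hgv⟩
      have e : ∑ j, (open Classical in if v ::ₘ s j ∈ E then w j / (3 * T) else 0) =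
          (∑ j, (open Classical in if v ::ₘ s j ∈ E then w j else 0)) / (3 * T) := by
        rw [Finset.sum_div]
        apply Finset.sum_congr rfl
        intro j _
        split_ifs <;> simp
      rw [e, div_le_iff₀ (by positivity)]
      calc _ ≤ a * T := h5
        _ = a / 3 * (3 * T) := by ring
  choose J iJ s w h1 h2 h3 h4 using hb
  obtain ⟨v, hv, hlt⟩ := h (Σ u, J u) (fun p => s p.1 p.2) (fun p => w p.1 p.2)
    (fun p => ⟨(h1 p.1 p.2).1, fun x hx => ((h1 p.1 p.2).2 x hx).1⟩) (fun p => h2 p.1 p.2)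
    (by
      rw [Fintype.sum_sigma]
      simp only [h3]
      rw [sum3 _ 0]
      norm_num)
  rw [Fintype.sum_sigma, Fintype.sum_sigma] at hlt
  simp only [h3] at hlt
  rw [sum3 _ 0, sum3 _ (g v)] at hlt
  have m1 := h4 (g v) v hv rfl
  have m2 : ∑ j, (if v ::ₘ s (g v - 1) j ∈ E then w (g v - 1) j else 0) ≤ 1 / 3 := by
    rw [← h3 (g v - 1)]
    apply Finset.sum_le_sum
    intro j _
    split_ifs
    · exact le_rfl
    · exact h2 _ j
  have m3 : ∑ j, (if v ::ₘ s (g v + 1) j ∈ E then w (g v + 1) j else 0) = 0 := by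
    apply Finset.sum_eq_zero
    intro j _
    rw [if_neg]
    intro hE
    obtain ⟨hc, hm⟩ := h1 (g v + 1) j
    obtain ⟨x, y, z, hxy⟩ := Multiset.card_eq_three.1 (show (s (g v + 1) j).card = 3 by omega)
    rw [hxy] at hE hm
    obtain ⟨hx, gx⟩ := hm x (by simp)
    obtain ⟨hy, gy⟩ := hm y (by simp)
    obtain ⟨hz, gz⟩ := hm z (by simp)
    have := hg x hx y hy z hz v hv ((mem_iff x y z v).1 hE)
    rw [gx, gy, gz] at this
    exact z4a _ this
  have e1 : (1 + a) / 3 * (1 / 3 + 1 / 3 + 1 / 3) = a / 3 + 1 / 3 + 0 := by ring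
  rw [e1] at hlt
  have e2 := add_le_add (add_le_add m1 m2) m3.le
  exact absurd (lt_of_lt_of_le hlt e2) (lt_irrefl _)

/-- The final contradiction: a box on which the first coordinate is constant. -/
lemma box_const {ι : Type} {W : ι → Type} {E : ∀ i, Set (Multiset (W i))} {C : Type}
    {Q : Set (Multiset C)} {L' : ℕ}
    (hQ : ∀ Y : ∀ i, ℕ → Set (W i), (∀ i, LabChain 4 (E i) a L' (Y i)) →
      ∀ f' : (∀ i, W i) → C, ¬ LabHomOn 4 E (fun i => Y i L') f' Q)
    (f : (∀ i, W i) → ZMod 3 × C) (Yn : ∀ i, Set (W i)) (hf : LabHomOn 4 E Yn f (E3SPat Q))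
    (Y' : ∀ i, ℕ → Set (W i)) (hch : ∀ i, LabChain 4 (E i) a L' (Y' i))
    (hsub : ∀ i, Y' i L' ⊆ Yn i) (u : ZMod 3)
    (hu : ∀ x : ∀ i, W i, (∀ i, x i ∈ Y' i L') → (f x).1 = u) : False := by
  refine hQ Y' hch (fun x => (f x).2) ?_
  intro e he hE hY
  obtain ⟨-, h2, -, -⟩ := hf e he hE (fun x hx i => hsub i (hY x hx i))
  have h3 : (e.map f).map Prod.fst = {u, u, u, u} := by
    have h5 : (e.map f).map Prod.fst = Multiset.replicate 4 u := by
      rw [Multiset.map_map, Multiset.eq_replicate]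
      refine ⟨by rw [Multiset.card_map, he], ?_⟩
      intro b hb
      obtain ⟨x, hx, rfl⟩ := Multiset.mem_map.1 hb
      exact hu x (hY x hx)
    rw [h5]
    rfl
  have h4 := h2 u h3
  rw [Multiset.map_map] at h4
  exact h4

end S4S

/-- The statement of the module `S4Win`. -/
def S4WinStmt : Prop :=
  ∀ w : ℕ, ∃ n : ℕ, ∀ (ι : Type) [Finite ι] (V : ι → Type)
    (R : ∀ i, V i → V i → V i → V i → Prop) (_ : ∀ i, Sym4 (R i)) (Y : ∀ i, ℕ → Set (V i))
    (_ : ∀ i, (Y i 0).Nonempty) (_ : ∀ i s, s < n → Y i s ⊆ Y i (s + 1))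
    (_ : ∀ i s, s < n → J34 (R i) (Y i s) (Y i (s + 1))) (t : (∀ i, V i) → ZMod 3)
    (_ : ∀ x y z v : ∀ i, V i, (∀ i, x i ∈ Y i n) → (∀ i, y i ∈ Y i n) →
      (∀ i, z i ∈ Y i n) → (∀ i, v i ∈ Y i n) → (∀ i, R i (x i) (y i) (z i) (v i)) →
      G4 (t x) (t y) (t z) (t v) ∧ (x = y → In01 (t x + t z + t v))),
    ∃ (s : ι → ℕ) (Z : ∀ i, ℕ → Set (V i)), (∀ i, s i + w ≤ n) ∧
      (∀ i, SubCh (R i) (Y i) (s i) w (Z i)) ∧
      ((∀ x y : ∀ i, V i, (∀ i, x i ∈ Z i w) → (∀ i, y i ∈ Z i w) → t x = t y) ∨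
        ∃ i, (∀ x y : ∀ i, V i, (∀ l, x l ∈ Z l w) → (∀ l, y l ∈ Z l w) → x i = y i →
            t x = t y) ∧
          ∀ x : ∀ i, V i, (∀ l, x l ∈ Z l w) → ∃ x' : ∀ i, V i, (∀ l, x' l ∈ Z l 0) ∧
            t x' = t x)

theorem irrLab_E3S_of (hwin : S4WinStmt) {C : Type} (Q : Set (Multiset C)) (a : ℝ)
    (ha0 : 0 ≤ a) (ha : a ≤ 1 / 2) (hQ : IrrLab 4 Q a) :
    IrrLab 4 (E3SPat Q) ((1 + a) / 3) := by
  classical
  have hnc := irrLab_no_const Q a (by linarith) hQ
  obtain ⟨L', hL'⟩ := hQ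
  obtain ⟨n, hn⟩ := hwin (3 * L' + 1)
  refine ⟨n, ?_⟩
  intro ι _ _ V E Y hY f hf
  have hgood : ∀ i s, s < n → S4S.Good (E i) ((1 + a) / 3) (Y i s) (Y i (s + 1)) :=
    fun i s hs => (hY i).rich s hs
  have hprod : ∀ x y z v : ∀ i, V i, (∀ i, x i ∈ Y i n) → (∀ i, y i ∈ Y i n) →
      (∀ i, z i ∈ Y i n) → (∀ i, v i ∈ Y i n) →
      (∀ i, S4S.Rel (E i) (x i) (y i) (z i) (v i)) →
      G4 (f x).1 (f y).1 (f z).1 (f v).1 ∧
        (x = y → In01 ((f x).1 + (f z).1 + (f v).1)) := by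
    intro x y z v hx hy hz hv hR
    have h := hf (x ::ₘ y ::ₘ z ::ₘ {v}) (by simp) (by
        intro i
        have := hR i
        unfold S4S.Rel at this
        simpa using this) (by
        intro t ht i
        simp only [Multiset.mem_cons, Multiset.mem_singleton] at ht
        rcases ht with rfl | rfl | rfl | rfl
        · exact hx i
        · exact hy i
        · exact hz i
        · exact hv i)
    obtain ⟨-, -, h2, h3⟩ := h
    simp only [Multiset.map_cons, Multiset.map_singleton] at h2 h3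
    have hG := S4S.g4_of _ _ _ _ h2
    refine ⟨hG, ?_⟩
    rintro rfl
    rcases S4S.z4c _ _ _ hG with h4 | ⟨h4, h5⟩
    · exact h4
    · exfalso
      have h6 := h3 (f x).1 (f x).2 (f x).2 (f z).2 (f v).2 (by
        rw [← h4]
        have e1 : ((f z).1, (f v).2) = f v := by rw [h4, ← h5]
        rw [e1]
        rfl)
      have h7 : ({(f x).2, (f x).2, (f x).2, (f x).2} : Multiset C) ∈ Q := by
        rcases h6 with h6 | h6
        · exact h6
        · exact h6
      exact hnc (f x).2 h7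
  obtain ⟨s, Z, hsw, hsub, hcase⟩ := hn ι V (fun i => S4S.Rel (E i))
    (fun i => S4S.rel_sym (E i)) Y (fun i => (hY i).nonempty) (fun i s hs => (hY i).mono s hs)
    (fun i s hs => S4S.good_j34 ha0 (hgood i s hs)) (fun x => (f x).1) hprod
  have hZ0 : ∀ i, (Z i 0).Nonempty := fun i => (hsub i).nonempty
  have hZY : ∀ i j, j ≤ 3 * L' + 1 → Z i j ⊆ Y i (s i + j) := fun i j hj => (hsub i).sub j hj
  have hZm : ∀ i j, j < 3 * L' + 1 → Z i j ⊆ Z i (j + 1) := fun i j hj => (hsub i).mono j hj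
  have hZc : ∀ i j, j < 3 * L' + 1 → ∀ x ∈ Z i j, ∀ y ∈ Z i j, ∀ z ∈ Z i j,
      ∀ v ∈ Y i (s i + j + 1), S4S.Rel (E i) x y z v → v ∈ Z i (j + 1) :=
    fun i j hj => (hsub i).closed j hj
  set w := 3 * L' + 1 with hw
  have hYm : ∀ i s s', s ≤ s' → s' ≤ n → Y i s ⊆ Y i s' := by
    intro i s s' hss
    induction s', hss using Nat.le_induction with
    | base => exact fun _ => subset_rfl
    | succ s' _ ih => exact fun h => (ih (by omega)).trans ((hY i).mono s' (by omega))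
  have hZmm : ∀ i j j', j ≤ j' → j' ≤ w → Z i j ⊆ Z i j' := by
    intro i j j' hjj
    induction j', hjj using Nat.le_induction with
    | base => exact fun _ => subset_rfl
    | succ j' _ ih => exact fun h => (ih (by omega)).trans (hZm i j' (by omega))
  have hZn : ∀ i j, j ≤ w → Z i j ⊆ Y i n := fun i j hj =>
    (hZY i j hj).trans (hYm i _ _ (by have := hsw i; omega) le_rfl)
  have gZ : ∀ i j, j < w → S4S.Good (E i) ((1 + a) / 3) (Z i j) (Z i (j + 1)) := by
    intro i j hj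
    have h := hgood i (s i + j) (by have := hsw i; omega)
    exact S4S.good_closed h (by positivity) (hZY i j hj.le) (hZc i j hj)
  have gZa : ∀ i j, j < w → S4S.Good (E i) a (Z i j) (Z i (j + 1)) := fun i j hj =>
    S4S.good_weaken (gZ i j hj) (by linarith) subset_rfl subset_rfl
  have hQ' := fun (Y : ∀ i, ℕ → Set (V i)) => hL' ι V E Y
  choose x0 hx0 using hZ0
  have hx0w : ∀ i, x0 i ∈ Z i w := fun i => hZmm i 0 w (Nat.zero_le _) le_rfl (hx0 i)
  have chZ : ∀ i, LabChain 4 (E i) a L' (Z i) := fun i =>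
    ⟨⟨x0 i, hx0 i⟩, fun t ht => hZm i t (by omega), fun t ht => gZa i t (by omega)⟩
  rcases hcase with hconst | ⟨i0, hdic, hval⟩
  · -- the first coordinate is constant
    refine S4S.box_const hQ' f (fun i => Y i n) hf Z chZ (fun i => hZn i L' (by omega))
      (f x0).1 ?_
    intro x hx
    exact hconst x x0 (fun i => hZmm i L' w (by omega) le_rfl (hx i)) hx0w
  -- the dictator
  set g : V i0 → ZMod 3 := fun v => (f (Function.update x0 i0 v)).1 with hg
  have upd_mem : ∀ v ∈ Z i0 w, ∀ l, Function.update x0 i0 v l ∈ Z l w := by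
    intro v hv l
    by_cases h : l = i0
    · subst h
      rw [Function.update_self]
      exact hv
    · rw [Function.update_of_ne h]
      exact hx0w l
  have hdg : ∀ x : ∀ i, V i, (∀ l, x l ∈ Z l w) → (f x).1 = g (x i0) := by
    intro x hx
    exact hdic x (Function.update x0 i0 (x i0)) hx (upd_mem _ (hx i0))
      (by rw [Function.update_self])
  have hw1 : 1 ≤ w := by omega
  -- the edges of the factor
  have hedge : ∀ v1 ∈ Z i0 w, ∀ v2 ∈ Z i0 w, ∀ v4 ∈ Z i0 w, ∀ v3 ∈ Z i0 w,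
      S4S.Rel (E i0) v1 v2 v4 v3 → G4 (g v1) (g v2) (g v4) (g v3) := by
    intro v1 h1 v2 h2 v4 h4 v3 h3 hR
    have hu : ∀ l, ∃ u ∈ Z l 1, S4S.Rel (E l) (x0 l) (x0 l) (x0 l) u := by
      intro l
      obtain ⟨z, hz, hz'⟩ := S4S.good_j34 ha0 (gZ l 0 (by omega)) (x0 l) (hx0 l) (x0 l) (hx0 l)
        (x0 l) (hx0 l) (x0 l) (hx0 l) (x0 l) (hx0 l) (x0 l) (hx0 l)
        (x0 l) (hx0 l) (x0 l) (hx0 l) (x0 l) (hx0 l)
      refine ⟨z, hz, ?_⟩
      rcases hz' with h | h | h <;> exact h.1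
    choose u hu1 hu2 using hu
    have huw : ∀ l, u l ∈ Z l w := fun l => hZmm l 1 w hw1 le_rfl (hu1 l)
    have um : ∀ l, Function.update u i0 v3 l ∈ Z l w := by
      intro l
      by_cases h : l = i0
      · subst h
        rw [Function.update_self]
        exact h3
      · rw [Function.update_of_ne h]
        exact huw l
    have hp := (hprod (Function.update x0 i0 v1) (Function.update x0 i0 v2)
      (Function.update x0 i0 v4) (Function.update u i0 v3)
      (fun l => hZn l w le_rfl (upd_mem v1 h1 l))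
      (fun l => hZn l w le_rfl (upd_mem v2 h2 l)) (fun l => hZn l w le_rfl (upd_mem v4 h4 l))
      (fun l => hZn l w le_rfl (um l)) (by
        intro l
        by_cases h : l = i0
        · subst h
          rw [Function.update_self, Function.update_self, Function.update_self,
            Function.update_self]
          exact hR
        · rw [Function.update_of_ne h, Function.update_of_ne h, Function.update_of_ne h,
            Function.update_of_ne h]
          exact hu2 l)).1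
    rw [hdg _ um, Function.update_self] at hp
    exact hp
  -- the values
  have hvals : ∀ v ∈ Z i0 w, ∃ v' ∈ Z i0 0, g v' = g v := by
    intro v hv
    obtain ⟨x', hx', he⟩ := hval (Function.update x0 i0 v) (upd_mem v hv)
    refine ⟨x' i0, hx' i0, ?_⟩
    rw [← hdg x' (fun l => hZmm l 0 w (Nat.zero_le _) le_rfl (hx' l))]
    exact he
  -- a good class on every level
  have hlev : ∀ j, j < w → ∃ u : ZMod 3, (∃ v ∈ Z i0 j, g v = u) ∧
      S4S.Good (E i0) a {v | v ∈ Z i0 j ∧ g v = u} {v | v ∈ Z i0 (j + 1) ∧ g v = u} := by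
    intro j hj
    have hjw : Z i0 j ⊆ Z i0 w := hZmm i0 j w hj.le le_rfl
    have hj1w : Z i0 (j + 1) ⊆ Z i0 w := hZmm i0 (j + 1) w hj le_rfl
    have h0j : Z i0 0 ⊆ Z i0 j := hZmm i0 0 j (Nat.zero_le _) hj.le
    by_cases hall : ∀ u : ZMod 3, ∃ v ∈ Z i0 0, g v = u
    · obtain ⟨u, hu⟩ := S4S.three_good (gZ i0 j hj) g
        (fun x hx y hy z hz v hv hR => hedge x (hjw hx) y (hjw hy) z (hjw hz) v (hj1w hv) hR)
      obtain ⟨v, hv, hvu⟩ := hall u
      exact ⟨u, ⟨v, h0j hv, hvu⟩, hu⟩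
    · have hex : ∃ u : ZMod 3, (∃ v ∈ Z i0 0, g v = u) ∧ ¬ ∃ v ∈ Z i0 0, g v = u + 1 := by
        by_contra hcon
        push Not at hcon
        apply hall
        have h0 : ∃ v ∈ Z i0 0, g v = g (x0 i0) := ⟨x0 i0, hx0 i0, rfl⟩
        have h1 := hcon _ h0
        have h2 := hcon _ h1
        intro u
        have h3 : ∀ c u : ZMod 3, u = c ∨ u = c + 1 ∨ u = c + 1 + 1 := by decide
        rcases h3 (g (x0 i0)) u with h | h | h
        · rw [h]
          exact h0
        · rw [h]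
          exact h1
        · rw [h]
          exact h2
      obtain ⟨u, ⟨v, hv, hvu⟩, hno⟩ := hex
      refine ⟨u, ⟨v, h0j hv, hvu⟩, ?_⟩
      refine S4S.good_closed (gZa i0 j hj) ha0 (fun v hv => hv.1) ?_
      rintro x ⟨hx, gx⟩ y ⟨hy, gy⟩ z ⟨hz, gz⟩ v' hv' hR
      refine ⟨hv', ?_⟩
      have h4 := hedge x (hjw hx) y (hjw hy) z (hjw hz) v' (hj1w hv') hR
      rw [gx, gy, gz] at h4
      rcases S4S.z4b u (g v') h4 with h5 | h5
      · exact h5
      · exfalso
        obtain ⟨v'', hv'', he⟩ := hvals v' (hj1w hv')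
        exact hno ⟨v'', hv'', he.trans h5⟩
  choose! col hcol1 hcol2 using hlev
  obtain ⟨u, -, hu⟩ := Finset.exists_lt_card_fiber_of_mul_lt_card_of_maps_to
    (s := Finset.range w) (t := (Finset.univ : Finset (ZMod 3))) (f := col) (n := L')
    (fun _ _ => Finset.mem_univ _) (by
      rw [Finset.card_range, Finset.card_univ, ZMod.card]
      omega)
  set S := (Finset.range w).filter (fun j => col j = u) with hS
  have hSc : L' + 1 ≤ S.card := hu
  let e := S.orderEmbOfCardLe hSc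
  have heS : ∀ r, e r ∈ S := fun r => Finset.orderEmbOfCardLe_mem S hSc r
  set jr : ℕ → ℕ := fun r => if h : r < L' + 1 then e ⟨r, h⟩ else 0 with hjr
  have jr_eq : ∀ r (h : r < L' + 1), jr r = e ⟨r, h⟩ := fun r h => by rw [hjr]; simp [h]
  have jrw : ∀ r, r < L' + 1 → jr r < w ∧ col (jr r) = u := by
    intro r hr
    rw [jr_eq r hr]
    have := heS ⟨r, hr⟩
    rw [hS, Finset.mem_filter, Finset.mem_range] at this
    exact this
  have jrm : ∀ r, r + 1 < L' + 1 → jr r < jr (r + 1) := by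
    intro r hr
    rw [jr_eq r (by omega), jr_eq (r + 1) hr]
    apply e.strictMono
    show r < r + 1
    omega
  set Y' : ∀ i, ℕ → Set (V i) := fun i r =>
    if i = i0 then {v | v ∈ Z i (jr r) ∧ (f (Function.update x0 i v)).1 = u} else Z i r with hY'
  have Y'0 : ∀ r, Y' i0 r = {v | v ∈ Z i0 (jr r) ∧ g v = u} := by
    intro r
    rw [hY']
    simp only [if_true, hg]
  have Y'1 : ∀ i, i ≠ i0 → Y' i = Z i := by
    intro i hi
    funext r
    rw [hY']
    simp only [if_neg hi]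
  have chY : ∀ i, LabChain 4 (E i) a L' (Y' i) := by
    intro i
    by_cases hi : i = i0
    · subst hi
      refine ⟨?_, ?_, ?_⟩
      · obtain ⟨h1, h2⟩ := jrw 0 (by omega)
        obtain ⟨v, hv, hvu⟩ := hcol1 _ h1
        rw [Y'0]
        exact ⟨v, hv, hvu.trans h2⟩
      · intro r hr
        rw [Y'0, Y'0]
        rintro v ⟨h1, h2⟩
        exact ⟨hZmm i _ _ (jrm r (by omega)).le (jrw (r + 1) (by omega)).1.le h1, h2⟩
      · intro r hr
        obtain ⟨h1, h2⟩ := jrw r (by omega)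
        have h3 := hcol2 _ h1
        rw [h2] at h3
        have h4 : S4S.Good (E i) a (Y' i r) (Y' i (r + 1)) := by
          rw [Y'0, Y'0]
          refine S4S.good_weaken h3 le_rfl subset_rfl ?_
          rintro v ⟨h5, h6⟩
          exact ⟨hZmm i _ _ (jrm r (by omega)) (jrw (r + 1) (by omega)).1.le h5, h6⟩
        exact h4
    · rw [Y'1 i hi]
      exact chZ i
  have hYZ : ∀ i, Y' i L' ⊆ Z i w := by
    intro i
    by_cases hi : i = i0
    · subst hi
      rw [Y'0]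
      rintro v ⟨h1, -⟩
      exact hZmm i _ _ (jrw L' (by omega)).1.le le_rfl h1
    · rw [Y'1 i hi]
      exact hZmm i _ _ (by omega) le_rfl
  refine S4S.box_const hQ' f (fun i => Y i n) hf Y' chY
    (fun i => (hYZ i).trans (hZn i w le_rfl)) u ?_
  intro x hx
  rw [hdg x (fun i => hYZ i (hx i))]
  have h5 := hx i0
  rw [Y'0] at h5
  exact h5.2

end CodegDens
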