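import Pool.Agent.Lib.MP_81e58e_co.S4Defs

/-!
# Module S4Val: the value of `E_3^*[Q]` for `k = 4` (problem MP_81e58e_co)
-/

namespace CodegDens

open Finset Filter Topology

namespace S4ValAux

/-- the class `w` completes `a, b, c` whatever the second coordinates are -/
def FreeC (w a b c : ZMod 3) : Prop :=
  ∀ u : ZMod 3, (w ::ₘ a ::ₘ b ::ₘ {c} : Multiset (ZMod 3)) ≠ {u, u, u, u} ∧
    (w ::ₘ a ::ₘ b ::ₘ {c} : Multiset (ZMod 3)) ≠ {u, u, u, u - 1} ∧
    (w ::ₘ a ::ₘ b ::ₘ {c} : Multiset (ZMod 3)) ≠ {u, u, u + 1, u + 1}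

instance (w a b c : ZMod 3) : Decidable (FreeC w a b c) := by unfold FreeC; infer_instance

theorem free_A : ∀ a : ZMod 3, FreeC (a + 1) a a a := by decide

theorem free_C : ∀ a : ZMod 3, FreeC (a + 2) a (a + 1) (a + 1) := by decide

theorem cases3 : ∀ a b c : ZMod 3, (a = b ∧ b = c) ∨
    (∃ w₁ w₂, w₁ ≠ w₂ ∧ FreeC w₁ a b c ∧ FreeC w₂ a b c) ∨
    (b = a + 1 ∧ c = a + 1) ∨ (a = b + 1 ∧ c = b + 1) ∨ (a = c + 1 ∧ b = c + 1) := by decide

theorem low_C : ∀ a u : ZMod 3,
    (a ::ₘ a ::ₘ (a + 1) ::ₘ {a + 1} : Multiset (ZMod 3)) ≠ {u, u, u, u} ∧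
    (a ::ₘ a ::ₘ (a + 1) ::ₘ {a + 1} : Multiset (ZMod 3)) ≠ {u, u, u, u - 1} ∧
    ((a ::ₘ a ::ₘ (a + 1) ::ₘ {a + 1} : Multiset (ZMod 3)) = {u, u, u + 1, u + 1} → u = a) := by
  decide

theorem low_A : ∀ a u : ZMod 3,
    (a ::ₘ a ::ₘ a ::ₘ {a} : Multiset (ZMod 3)) ≠ {u, u, u, u - 1} ∧
    (a ::ₘ a ::ₘ a ::ₘ {a} : Multiset (ZMod 3)) ≠ {u, u, u + 1, u + 1} := by
  decide

theorem ne1 : ∀ a : ZMod 3, a + 1 ≠ a := by decide

theorem ne2 : ∀ a : ZMod 3, a + 2 ≠ a := by decide

theorem adj_symm {C : Type} {Q : Set (Multiset C)} {c d : C} (h : AdjIn Q c d) : AdjIn Q d c :=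
  h.elim Or.inr Or.inl

theorem mem_free {C : Type} (Q : Set (Multiset C)) (x p q r : ZMod 3 × C)
    (h : FreeC x.1 p.1 q.1 r.1) : (x ::ₘ p ::ₘ q ::ₘ {r} : Multiset _) ∈ E3SPat Q := by
  refine ⟨by simp, ?_, ?_, ?_⟩
  · intro u hu
    refine absurd ?_ (h u).1
    simpa using hu
  · intro u hu
    refine (h u).2.1 ?_
    simpa using hu
  · intro u c d c' d' he
    refine absurd ?_ (h u).2.2
    have := congrArg (Multiset.map Prod.fst) he
    simpa using this

theorem mem_A {C : Type} (Q : Set (Multiset C)) (x p q r : ZMod 3 × C) (hx : x.1 = p.1)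
    (hq : q.1 = p.1) (hr : r.1 = p.1) (h : (x.2 ::ₘ p.2 ::ₘ q.2 ::ₘ {r.2} : Multiset C) ∈ Q) :
    (x ::ₘ p ::ₘ q ::ₘ {r} : Multiset _) ∈ E3SPat Q := by
  have hfst : (x ::ₘ p ::ₘ q ::ₘ {r} : Multiset (ZMod 3 × C)).map Prod.fst =
      p.1 ::ₘ p.1 ::ₘ p.1 ::ₘ {p.1} := by
    simp [hx, hq, hr]
  refine ⟨by simp, ?_, ?_, ?_⟩
  · intro u _
    simpa using h
  · intro u hu
    rw [hfst] at hu
    exact (low_A p.1 u).1 hu
  · intro u c d c' d' he
    have h1 := congrArg (Multiset.map Prod.fst) he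
    rw [hfst] at h1
    refine absurd ?_ (low_A p.1 u).2
    rw [h1]
    simp

theorem mem_C {C : Type} (Q : Set (Multiset C)) (x p q r : ZMod 3 × C) (hx : x.1 = p.1)
    (hq : q.1 = p.1 + 1) (hr : r.1 = p.1 + 1) (h : AdjIn Q p.2 x.2) :
    (x ::ₘ p ::ₘ q ::ₘ {r} : Multiset _) ∈ E3SPat Q := by
  classical
  have hfst : (x ::ₘ p ::ₘ q ::ₘ {r} : Multiset (ZMod 3 × C)).map Prod.fst =
      p.1 ::ₘ p.1 ::ₘ (p.1 + 1) ::ₘ {p.1 + 1} := by
    simp [hx, hq, hr]
  refine ⟨by simp, ?_, ?_, ?_⟩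
  · intro u hu
    rw [hfst] at hu
    exact absurd hu (low_C p.1 u).1
  · intro u hu
    rw [hfst] at hu
    exact (low_C p.1 u).2.1 hu
  · intro u c d c' d' he
    have h1 := congrArg (Multiset.map Prod.fst) he
    rw [hfst] at h1
    have hu : u = p.1 := (low_C p.1 u).2.2 (by rw [h1]; simp)
    have hn := ne1 p.1
    have hp : ∀ (y : ZMod 3 × C) (m : Multiset (ZMod 3 × C)), y.1 = p.1 →
        Multiset.filter (fun y : ZMod 3 × C => y.1 = p.1) (y ::ₘ m) =
          y ::ₘ Multiset.filter (fun y : ZMod 3 × C => y.1 = p.1) m :=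
      fun y m hy => Multiset.filter_cons_of_pos m hy
    have hq' : ∀ (y : ZMod 3 × C) (m : Multiset (ZMod 3 × C)), ¬ y.1 = p.1 →
        Multiset.filter (fun y : ZMod 3 × C => y.1 = p.1) (y ::ₘ m) =
          Multiset.filter (fun y : ZMod 3 × C => y.1 = p.1) m :=
      fun y m hy => Multiset.filter_cons_of_neg m hy
    have h2 := congrArg (Multiset.filter (fun y : ZMod 3 × C => y.1 = p.1)) he
    simp only [Multiset.insert_eq_cons] at h2
    rw [hp x _ hx, hp p _ rfl, hq' q _ (by rw [hq]; exact hn), Multiset.filter_singleton,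
      if_neg (by rw [hr]; exact hn), hp (u, c) _ hu, hp (u, d) _ hu,
      hq' (u + 1, c') _ (by simp only [hu]; exact hn), Multiset.filter_singleton,
      if_neg (by simp only [hu]; exact hn)] at h2
    have h3 := congrArg (Multiset.map Prod.snd) h2
    simp only [Multiset.map_cons] at h3
    have h4 : (x.2 ::ₘ {p.2} : Multiset C) = c ::ₘ {d} := by simpa using h3
    rcases Multiset.cons_eq_cons.mp h4 with ⟨e1, e2⟩ | ⟨_, cs, e1, e2⟩
    · rw [Multiset.singleton_inj] at e2
      rw [← e1, ← e2]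
      exact adj_symm h
    · have hcs : cs = 0 := by
        have := congrArg Multiset.card e1
        simpa using this
      rw [hcs] at e1 e2
      have e1' : p.2 = c := by simpa using e1
      have e2' : d = x.2 := by simpa using e2
      rw [← e1', e2']
      exact h

end S4ValAux

open S4ValAux in
theorem patVal_E3S {C : Type} [Fintype C] (Q : Set (Multiset C)) (a : ℝ) (ha0 : 0 ≤ a)
    (hQ : PatVal 4 Q a) : PatVal 4 (E3SPat Q) ((1 + a) / 3) := by
  classical
  have _ := ha0
  obtain ⟨wt, h0, h1, h2⟩ := hQ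
  refine ⟨fun p => wt p.2 / 3, fun p => div_nonneg (h0 p.2) (by norm_num), ?_, ?_⟩
  · rw [Fintype.sum_prod_type]
    simp only
    rw [Finset.sum_const, Finset.card_univ, ZMod.card, ← Finset.sum_div, h1]
    norm_num
  · intro s hs
    have key : ∀ p q r : ZMod 3 × C, s = p ::ₘ q ::ₘ {r} →
        ((p.1 = q.1 ∧ q.1 = r.1) ∨
        (∃ w₁ w₂, w₁ ≠ w₂ ∧ FreeC w₁ p.1 q.1 r.1 ∧ FreeC w₂ p.1 q.1 r.1) ∨
        (q.1 = p.1 + 1 ∧ r.1 = p.1 + 1)) →
        (1 + a) / 3 ≤ ∑ x : ZMod 3 × C, (if x ::ₘ s ∈ E3SPat Q then wt x.2 / 3 else 0) := by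
      rintro p q r rfl hcase
      rw [Fintype.sum_prod_type]
      set F : ZMod 3 → ℝ := fun u => ∑ c,
        (if (u, c) ::ₘ (p ::ₘ q ::ₘ {r} : Multiset (ZMod 3 × C)) ∈ E3SPat Q
          then wt (u, c).2 / 3 else 0) with hF
      have hF0 : ∀ u, 0 ≤ F u := by
        intro u
        refine Finset.sum_nonneg fun c _ => ?_
        split_ifs
        · exact div_nonneg (h0 c) (by norm_num)
        · exact le_rfl
      have hfull : ∀ u, FreeC u p.1 q.1 r.1 → F u = 1 / 3 := by
        intro u hu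
        have h3 : ∀ c : C, (u, c) ::ₘ (p ::ₘ q ::ₘ {r} : Multiset (ZMod 3 × C)) ∈ E3SPat Q :=
          fun c => mem_free Q (u, c) p q r hu
        simp only [hF, h3, if_true]
        rw [← Finset.sum_div, h1]
      have hpair : ∀ u v, u ≠ v → F u + F v ≤ ∑ w, F w := by
        intro u v huv
        rw [← Finset.sum_pair huv]
        exact Finset.sum_le_sum_of_subset_of_nonneg (Finset.subset_univ _) (fun u _ _ => hF0 u)
      have hpart : ∀ (u : ZMod 3) (t : Multiset C), t.card + 1 = 4 →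
          (∀ c : C, c ::ₘ t ∈ Q →
            (u, c) ::ₘ (p ::ₘ q ::ₘ {r} : Multiset (ZMod 3 × C)) ∈ E3SPat Q) → a / 3 ≤ F u := by
        intro u t ht hm
        have h6 : (∑ c, if c ::ₘ t ∈ Q then wt c else 0) / 3 ≤ F u := by
          simp only [hF]
          rw [Finset.sum_div]
          refine Finset.sum_le_sum fun c _ => ?_
          by_cases h7 : c ::ₘ t ∈ Q
          · rw [if_pos h7, if_pos (hm c h7)]
          · rw [if_neg h7, zero_div]
            split_ifs
            · exact div_nonneg (h0 c) (by norm_num)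
            · exact le_rfl
        exact (div_le_div_of_nonneg_right (h2 t ht) (by norm_num)).trans h6
      have hgoal : (1 + a) / 3 ≤ ∑ u, F u := by
        rcases hcase with ⟨e1, e2⟩ | ⟨w₁, w₂, hw, f1, f2⟩ | ⟨e1, e2⟩
        · have h3 : F (p.1 + 1) = 1 / 3 := by
            refine hfull _ ?_
            rw [← e2, ← e1]
            exact free_A p.1
          have h4 : a / 3 ≤ F p.1 := by
            refine hpart p.1 (p.2 ::ₘ q.2 ::ₘ {r.2}) (by simp) fun c hc => ?_
            exact mem_A Q (p.1, c) p q r rfl e1.symm (e1.trans e2).symm hc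
          have h5 := hpair (p.1 + 1) p.1 (ne1 _)
          rw [h3] at h5
          linarith
        · have h3 := hfull w₁ f1
          have h4 := hfull w₂ f2
          have h5 := hpair w₁ w₂ hw
          have ha1 : a ≤ 1 := by
            have h6 := h2 (s := p.2 ::ₘ q.2 ::ₘ {r.2}) (by simp)
            refine h6.trans ?_
            rw [← h1]
            refine Finset.sum_le_sum fun c _ => ?_
            split_ifs
            · exact le_rfl
            · exact h0 c
          rw [h3, h4] at h5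
          linarith
        · have h3 : F (p.1 + 2) = 1 / 3 := by
            refine hfull _ ?_
            rw [e1, e2]
            exact free_C p.1
          have h4 : a / 3 ≤ F p.1 := by
            refine hpart p.1 (p.2 ::ₘ p.2 ::ₘ {p.2}) (by simp) fun c hc => ?_
            refine mem_C Q (p.1, c) p q r rfl e1 e2 (Or.inl ?_)
            have : ({p.2, p.2, p.2, c} : Multiset C) = c ::ₘ p.2 ::ₘ p.2 ::ₘ {p.2} := by
              simp only [Multiset.insert_eq_cons]
              rw [Multiset.cons_swap c, Multiset.cons_swap c]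
              congr 2
              exact Multiset.cons_swap _ _ 0
            show ({p.2, p.2, p.2, c} : Multiset C) ∈ Q
            rw [this]
            exact hc
          have h5 := hpair (p.1 + 2) p.1 (ne2 _)
          rw [h3] at h5
          linarith
      exact hgoal
    obtain ⟨p, q, r, rfl⟩ := Multiset.card_eq_three.mp (by omega : s.card = 3)
    rcases cases3 p.1 q.1 r.1 with h | h | h | h | h
    · exact key p q r rfl (Or.inl h)
    · exact key p q r rfl (Or.inr (Or.inl h))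
    · exact key p q r rfl (Or.inr (Or.inr h))
    · refine key q p r ?_ (Or.inr (Or.inr h))
      simp only [Multiset.insert_eq_cons]
      exact Multiset.cons_swap _ _ _
    · refine key r p q ?_ (Or.inr (Or.inr h))
      simp only [Multiset.insert_eq_cons]
      rw [Multiset.cons_swap r p]
      congr 1
      exact Multiset.cons_swap q r 0
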