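import Pool.Agent.Lib.MP_81e58e_co.S4Defs

/-!
# Windows (problem MP_81e58e_co, `k = 4`)
-/

namespace CodegDens

open Finset Filter Topology

/-- The statement of `s4_coherent`. -/
def S4CohStmt : Prop := ∀ D : ℕ → ℕ, ∃ n : ℕ, ∀ (V : Type) (R : V → V → V → V → Prop)
    (Y : ℕ → Set V), (Y 0).Nonempty → (∀ s, s < n → Y s ⊆ Y (s + 1)) →
    (∀ s, s < n → J34 R (Y s) (Y (s + 1))) →
    ∃ (w j : ℕ) (Z : ℕ → Set V), 1 ≤ w ∧ j + D w ≤ n ∧ SubCh R Y j (D w) Z ∧
      Coh4 R Z (D w) w

/-- The statement of `s4_pair`. -/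
def S4PairStmt : Prop := ∀ {V B : Type} {R : V → V → V → V → Prop} (_ : Sym4 R) {Z : ℕ → Set V}
    {n w m : ℕ} (_ : 1 ≤ w) (_ : m + 54 * w ≤ n) (_ : (Z 0).Nonempty)
    (_ : ∀ s, s < n → Z s ⊆ Z (s + 1)) (_ : ∀ s, s < n → J34 R (Z s) (Z (s + 1)))
    (_ : Coh4 R Z n w) {S : B → B → B → B → Prop} (_ : Sym4 S) (C : ℕ → Set B)
    (_ : ∀ s, s < 3 → C s ⊆ C (s + 1))
    (_ : ∀ s, s < 3 → ∀ x ∈ C s, ∀ y ∈ C s, ∀ z ∈ C s, ∃ v ∈ C (s + 1), S x y z v)
    (t : V → B → ZMod 3)
    (_ : ∀ x ∈ Z n, ∀ y ∈ Z n, ∀ z ∈ Z n, ∀ v ∈ Z n, R x y z v →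
      ∀ b ∈ C 3, ∀ c ∈ C 3, ∀ d ∈ C 3, ∀ e ∈ C 3, S b c d e →
        G4 (t x b) (t y c) (t z d) (t v e) ∧
          (x = y → b = c → In01 (t x b + t z d + t v e))),
    (∀ b ∈ C 0, ∀ x ∈ Z m, ∀ y ∈ Z m, t x b = t y b) ∨
      ∀ b ∈ C 0, ∀ c ∈ C 0, ∀ x ∈ Z m, t x b = t x c

namespace S4WinAux

/-- Changing the coordinates one at a time. -/
theorem t_inv {ι : Type} [Finite ι] [DecidableEq ι] {V : ι → Type} (B : ∀ i, Set (V i))
    (t : (∀ i, V i) → ZMod 3) (x x' : ∀ i, V i) (hx : ∀ i, x i ∈ B i) (hx' : ∀ i, x' i ∈ B i)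
    (h : ∀ i, ∀ y : ∀ l, V l, (∀ l, y l ∈ B l) →
      t (Function.update y i (x i)) = t (Function.update y i (x' i))) : t x = t x' := by
  classical
  have := Fintype.ofFinite ι
  have key : ∀ F : Finset ι, t (F.piecewise x x') = t x' := by
    intro F
    induction F using Finset.induction_on with
    | empty => rw [Finset.piecewise_empty]
    | insert i F hi ih =>
      have hp : ∀ l, (F.piecewise x x') l ∈ B l := by
        intro l
        by_cases hl : l ∈ F
        · rw [Finset.piecewise_eq_of_mem _ _ _ hl]; exact hx l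
        · rw [Finset.piecewise_eq_of_notMem _ _ _ hl]; exact hx' l
      have e1 : (insert i F).piecewise x x' = Function.update (F.piecewise x x') i (x i) :=
        Finset.piecewise_insert _ _ _ _
      have e2 : Function.update (F.piecewise x x') i (x' i) = F.piecewise x x' := by
        rw [Function.update_eq_self_iff, Finset.piecewise_eq_of_notMem _ _ _ hi]
      rw [e1, h i _ hp, e2, ih]
  have := key Finset.univ
  rwa [Finset.piecewise_univ] at this

/-- among four increasing nonempty subsets of `ZMod 3` two neighbours are equal -/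
theorem quiet3 (P : ℕ → Set (ZMod 3)) (hne : (P 0).Nonempty) (h0 : P 0 ⊆ P 1) (h1 : P 1 ⊆ P 2)
    (h2 : P 2 ⊆ P 3) : ∃ c, c < 3 ∧ P c = P (c + 1) := by
  by_contra hcon
  push Not at hcon
  have a0 := Set.ncard_lt_ncard (h0.ssubset_of_ne (hcon 0 (by norm_num))) (Set.toFinite _)
  have a1 := Set.ncard_lt_ncard (h1.ssubset_of_ne (hcon 1 (by norm_num))) (Set.toFinite _)
  have a2 := Set.ncard_lt_ncard (h2.ssubset_of_ne (hcon 2 (by norm_num))) (Set.toFinite _)
  have a3 : 0 < (P 0).ncard := (Set.ncard_pos (Set.toFinite _)).2 hne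
  have a4 : (P 3).ncard ≤ 3 := by
    have : (Set.univ : Set (ZMod 3)).ncard = 3 := by
      rw [Set.ncard_univ, Nat.card_eq_fintype_card, ZMod.card]
    exact (Set.ncard_le_ncard (Set.subset_univ _) (Set.toFinite _)).trans this.le
  omega

end S4WinAux

open S4WinAux in
theorem s4_window_of (hcoh : S4CohStmt) (hpair : S4PairStmt) (w : ℕ) : ∃ n : ℕ,
    ∀ (ι : Type) [Finite ι] (V : ι → Type)
    (R : ∀ i, V i → V i → V i → V i → Prop) (_ : ∀ i, Sym4 (R i)) (Y : ∀ i, ℕ → Set (V i))
    (_ : ∀ i, (Y i 0).Nonempty) (_ : ∀ i s, s < n → Y i s ⊆ Y i (s + 1))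
    (_ : ∀ i s, s < n → J34 (R i) (Y i s) (Y i (s + 1))) (t : (∀ i, V i) → ZMod 3)
    (_ : ∀ x y z v : ∀ i, V i, (∀ i, x i ∈ Y i n) → (∀ i, y i ∈ Y i n) →
      (∀ i, z i ∈ Y i n) → (∀ i, v i ∈ Y i n) → (∀ i, R i (x i) (y i) (z i) (v i)) →
      G4 (t x) (t y) (t z) (t v) ∧ (x = y → In01 (t x + t z + t v))),
    ∃ (s : ι → ℕ) (Z : ∀ i, ℕ → Set (V i)), (∀ i, s i + w ≤ n) ∧
      (∀ i, SubCh (R i) (Y i) (s i) w (Z i)) ∧
      ((∀ x y : ∀ i, V i, (∀ i, x i ∈ Z i w) → (∀ i, y i ∈ Z i w) → t x = t y) ∨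
        ∃ i, (∀ x y : ∀ i, V i, (∀ l, x l ∈ Z l w) → (∀ l, y l ∈ Z l w) → x i = y i →
            t x = t y) ∧
          ∀ x : ∀ i, V i, (∀ l, x l ∈ Z l w) → ∃ x' : ∀ i, V i, (∀ l, x' l ∈ Z l 0) ∧
            t x' = t x) := by
  classical
  obtain ⟨n, hn⟩ := hcoh (fun v => 3 * w + 54 * v + 3)
  refine ⟨n, ?_⟩
  intro ι _ V R hR Y hne hmono hj t ht
  have hmono' : ∀ i r k, r + k ≤ n → Y i r ⊆ Y i (r + k) := by
    intro i r k
    induction k with
    | zero => intro _; exact subset_rfl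
    | succ k ih =>
      intro h
      exact (ih (by omega)).trans (hmono i (r + k) (by omega))
  have hYn : ∀ i r, r ≤ n → Y i r ⊆ Y i n := by
    intro i r hr
    have h := hmono' i r (n - r) (by omega)
    rwa [Nat.add_sub_cancel' hr] at h
  have h1 : ∀ i, ∃ (v j : ℕ) (Z : ℕ → Set (V i)), 1 ≤ v ∧ j + (3 * w + 54 * v + 3) ≤ n ∧
      SubCh (R i) (Y i) j (3 * w + 54 * v + 3) Z ∧ Coh4 (R i) Z (3 * w + 54 * v + 3) v := fun i =>
    hn (V i) (R i) (Y i) (hne i) (hmono i) (hj i)
  choose v j Z hv1 hjn hsub hZcoh using h1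
  have hZm : ∀ i r k, r + k ≤ 3 * w + 54 * v i + 3 → Z i r ⊆ Z i (r + k) := by
    intro i r k
    induction k with
    | zero => intro _; exact subset_rfl
    | succ k ih =>
      intro h
      exact (ih (by omega)).trans ((hsub i).mono (r + k) (by omega))
  have hZY : ∀ i r, r ≤ 3 * w + 54 * v i + 3 → Z i r ⊆ Y i n := by
    intro i r hr
    exact ((hsub i).sub r hr).trans (hYn i _ (by have := hjn i; omega))
  have hZj : ∀ i r, r < 3 * w + 54 * v i + 3 → J34 (R i) (Z i r) (Z i (r + 1)) := by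
    intro i r hr x₁ hx₁ y₁ hy₁ z₁ hz₁ x₂ hx₂ y₂ hy₂ z₂ hz₂ x₃ hx₃ y₃ hy₃ z₃ hz₃
    have hs := (hsub i).sub r hr.le
    obtain ⟨u, hu, h⟩ := hj i (j i + r) (by have := hjn i; omega) x₁ (hs hx₁) y₁ (hs hy₁) z₁
      (hs hz₁) x₂ (hs hx₂) y₂ (hs hy₂) z₂ (hs hz₂) x₃ (hs hx₃) y₃ (hs hy₃) z₃ (hs hz₃)
    refine ⟨u, ?_, h⟩
    rcases h with ⟨h, _⟩ | ⟨h, _⟩ | ⟨h, _⟩
    · exact (hsub i).closed r hr x₁ hx₁ y₁ hy₁ z₁ hz₁ u hu h
    · exact (hsub i).closed r hr x₁ hx₁ y₁ hy₁ z₁ hz₁ u hu h
    · exact (hsub i).closed r hr x₂ hx₂ y₂ hy₂ z₂ hz₂ u hu h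
  have hcomp : ∀ i r, r < 3 * w + 54 * v i + 3 → ∀ x ∈ Z i r, ∀ y ∈ Z i r, ∀ z ∈ Z i r,
      ∃ u ∈ Z i (r + 1), R i x y z u := by
    intro i r hr x hx y hy z hz
    obtain ⟨u, hu, h⟩ := hZj i r hr x hx y hy z hz x hx y hy z hz x hx y hy z hz
    refine ⟨u, hu, ?_⟩
    rcases h with ⟨h, _⟩ | ⟨h, _⟩ | ⟨h, _⟩ <;> exact h
  -- one factor against the others
  have hone : ∀ i, (∀ b : ∀ l, V l, (∀ l, l ≠ i → b l ∈ Z l (3 * w)) → ∀ x ∈ Z i (3 * w),
        ∀ y ∈ Z i (3 * w), t (Function.update b i x) = t (Function.update b i y)) ∨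
      ∀ b : ∀ l, V l, (∀ l, l ≠ i → b l ∈ Z l (3 * w)) → ∀ c : ∀ l, V l,
        (∀ l, l ≠ i → c l ∈ Z l (3 * w)) → ∀ x ∈ Z i (3 * w),
        t (Function.update b i x) = t (Function.update c i x) := by
    intro i
    have hS : Sym4 (fun b c d e : ∀ l, V l => ∀ l, l ≠ i → R l (b l) (c l) (d l) (e l)) :=
      ⟨fun x y z u h l hl => (hR l).s12 _ _ _ _ (h l hl),
        fun x y z u h l hl => (hR l).s23 _ _ _ _ (h l hl),
        fun x y z u h l hl => (hR l).s34 _ _ _ _ (h l hl)⟩
    have h := hpair (V := V i) (B := ∀ l, V l) (hR i) (Z := Z i) (n := 3 * w + 54 * v i + 3)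
      (w := v i) (m := 3 * w) (hv1 i) (by omega) (hsub i).nonempty (hsub i).mono (hZj i)
      (hZcoh i) hS (fun r => {b | ∀ l, l ≠ i → b l ∈ Z l (3 * w + r)})
      (fun s hs b hb l hl => (hsub l).mono (3 * w + s) (by omega) (hb l hl))
      (by
        intro s hs x hx y hy z hz
        have h2 : ∀ l, ∃ u : V l, l ≠ i → u ∈ Z l (3 * w + (s + 1)) ∧ R l (x l) (y l) (z l) u := by
          intro l
          by_cases hl : l = i
          · exact ⟨x l, fun h => absurd hl h⟩
          · obtain ⟨u, hu, h⟩ := hcomp l (3 * w + s) (by omega) (x l) (hx l hl) (y l) (hy l hl)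
              (z l) (hz l hl)
            exact ⟨u, fun _ => ⟨hu, h⟩⟩
        choose u hu using h2
        exact ⟨u, fun l hl => (hu l hl).1, fun l hl => (hu l hl).2⟩)
      (fun x b => t (Function.update b i x))
      (by
        intro x hx y hy z hz u hu hxyzu b hb c hc d hd e he hbcde
        have hmem : ∀ (x : V i) (b : ∀ l, V l), x ∈ Z i (3 * w + 54 * v i + 3) →
            (∀ l, l ≠ i → b l ∈ Z l (3 * w + 3)) → ∀ l, Function.update b i x l ∈ Y l n := by
          intro x b hx hb l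
          by_cases hl : l = i
          · subst hl
            rw [Function.update_self]
            exact hZY l _ le_rfl hx
          · rw [Function.update_of_ne hl]
            exact hZY l _ (by omega) (hb l hl)
        have h3 := ht (Function.update b i x) (Function.update c i y) (Function.update d i z)
          (Function.update e i u) (hmem x b hx hb) (hmem y c hy hc) (hmem z d hz hd)
          (hmem u e hu he) (by
            intro l
            by_cases hl : l = i
            · subst hl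
              simp only [Function.update_self]
              exact hxyzu
            · simp only [Function.update_of_ne hl]
              exact hbcde l hl)
        exact ⟨h3.1, fun hxy hbc => h3.2 (by rw [hxy, hbc])⟩)
    rcases h with h | h
    · exact Or.inl fun b hb x hx y hy => h b hb x hx y hy
    · exact Or.inr fun b hb c hc x hx => h b hb c hc x hx
  -- shifted chains
  have hshift : ∀ c, c + w ≤ 3 * w → (∀ i, j i + c + w ≤ n) ∧
      ∀ i, SubCh (R i) (Y i) (j i + c) w (fun r => Z i (c + r)) := by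
    intro c hc
    refine ⟨fun i => by have := hjn i; omega, fun i => ⟨?_, ?_, ?_, ?_⟩⟩
    · obtain ⟨x, hx⟩ := (hsub i).nonempty
      have h := hZm i 0 c (by omega) hx
      rw [zero_add] at h
      exact ⟨x, h⟩
    · intro l hl
      have := (hsub i).sub (c + l) (by omega)
      rwa [← add_assoc] at this
    · intro l hl
      exact (hsub i).mono (c + l) (by omega)
    · intro l hl x hx y hy z hz u hu h
      refine (hsub i).closed (c + l) (by omega) x hx y hy z hz u ?_ h
      rwa [← add_assoc]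
  by_cases hall : ∀ i, ∀ b : ∀ l, V l, (∀ l, l ≠ i → b l ∈ Z l (3 * w)) → ∀ x ∈ Z i (3 * w),
        ∀ y ∈ Z i (3 * w), t (Function.update b i x) = t (Function.update b i y)
  · obtain ⟨hs1, hs2⟩ := hshift 0 (by omega)
    refine ⟨fun i => j i + 0, fun i r => Z i (0 + r), hs1, hs2, Or.inl ?_⟩
    intro x y hx hy
    have hZ3 : ∀ i, Z i (0 + w) ⊆ Z i (3 * w) := by
      intro i
      have h := hZm i (0 + w) (2 * w) (by omega)
      have e : 0 + w + 2 * w = 3 * w := by ring
      rwa [e] at h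
    exact t_inv (fun i => Z i (3 * w)) t x y (fun i => hZ3 i (hx i)) (fun i => hZ3 i (hy i))
      fun i b hb => hall i b (fun l _ => hb l) _ (hZ3 i (hx i)) _ (hZ3 i (hy i))
  · push Not at hall
    obtain ⟨i, b, hb, x₀, hx₀, y₀, hy₀, hne₀⟩ := hall
    have hB := (hone i).resolve_left fun h => hne₀ (h b hb x₀ hx₀ y₀ hy₀)
    -- the function of one coordinate
    have hdict : ∀ x y : ∀ i, V i, (∀ l, x l ∈ Z l (3 * w)) → (∀ l, y l ∈ Z l (3 * w)) →
        x i = y i → t x = t y := by
      intro x y hx hy hxy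
      have h := hB x (fun l _ => hx l) y (fun l _ => hy l) (x i) (hx i)
      rw [Function.update_eq_self] at h
      rw [h, hxy, Function.update_eq_self]
    obtain ⟨c, hc, hPc⟩ := quiet3 (fun r => (fun x => t (Function.update b i x)) '' Z i (r * w))
      (by
        obtain ⟨x, hx⟩ := (hsub i).nonempty
        exact ⟨_, x, by simpa using hx, rfl⟩)
      (Set.image_mono (by
        have h := hZm i (0 * w) w (by omega)
        have e : 0 * w + w = 1 * w := by ring
        rwa [e] at h))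
      (Set.image_mono (by
        have h := hZm i (1 * w) w (by omega)
        have e : 1 * w + w = 2 * w := by ring
        rwa [e] at h))
      (Set.image_mono (by
        have h := hZm i (2 * w) w (by omega)
        have e : 2 * w + w = 3 * w := by ring
        rwa [e] at h))
    have hcw : c * w + w ≤ 3 * w := by
      have : c + 1 ≤ 3 := hc
      calc c * w + w = (c + 1) * w := by ring
        _ ≤ 3 * w := Nat.mul_le_mul_right _ this
    obtain ⟨hs1, hs2⟩ := hshift (c * w) hcw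
    have hZ3 : ∀ i, Z i (c * w + w) ⊆ Z i (3 * w) := by
      intro i
      have h := hZm i (c * w + w) (3 * w - (c * w + w)) (by omega)
      rwa [Nat.add_sub_cancel' hcw] at h
    refine ⟨fun i => j i + c * w, fun i r => Z i (c * w + r), hs1, hs2, Or.inr ⟨i, ?_, ?_⟩⟩
    · intro x y hx hy hxy
      exact hdict x y (fun l => hZ3 l (hx l)) (fun l => hZ3 l (hy l)) hxy
    · intro x hx
      have e1 : t x = t (Function.update b i (x i)) := by
        have h := hB x (fun l _ => hZ3 l (hx l)) b hb (x i) (hZ3 i (hx i))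
        rwa [Function.update_eq_self] at h
      have h2 : t (Function.update b i (x i)) ∈
          (fun x => t (Function.update b i x)) '' Z i ((c + 1) * w) := by
        refine ⟨x i, ?_, rfl⟩
        have e : (c + 1) * w = c * w + w := by ring
        rw [e]
        exact hx i
      have hPc' : (fun x => t (Function.update b i x)) '' Z i (c * w) =
          (fun x => t (Function.update b i x)) '' Z i ((c + 1) * w) := hPc
      rw [← hPc'] at h2
      obtain ⟨u, hu, hut⟩ := h2
      have hbase : ∀ l, ∃ y, y ∈ Z l (c * w + 0) := fun l => (hs2 l).nonempty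
      choose y hy using hbase
      have hu3 : u ∈ Z i (3 * w) := by
        have h := hZm i (c * w) w (by omega) hu
        exact hZ3 i h
      refine ⟨Function.update y i u, ?_, ?_⟩
      · intro l
        by_cases hl : l = i
        · subst hl
          rw [Function.update_self]
          exact hu
        · rw [Function.update_of_ne hl]
          exact hy l
      · rw [e1, ← hut]
        refine hB y ?_ b hb u hu3
        intro l _
        exact hZ3 l (hZm l (c * w) w (by omega) (hy l))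

end CodegDens
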