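import Pool.Agent.Lib.MP_81e58e_co.S4Coh
import Pool.Agent.Lib.MP_81e58e_co.S4Pair
import Pool.Agent.Lib.MP_81e58e_co.S4Win
import Pool.Agent.Lib.MP_81e58e_co.S4Step
import Pool.Agent.Lib.MP_81e58e_co.S4Val
import Pool.Agent.Lib.MP_81e58e_co.S4FinalCore

/-!
# k = 4: the step a -> (1+a)/3 and all rationals (problem MP_81e58e_co)
-/

namespace CodegDens

open Finset Filter Topology

theorem irrLab_E3S {C : Type} (Q : Set (Multiset C)) (a : ℝ) (ha0 : 0 ≤ a) (ha : a ≤ 1 / 2)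
    (hQ : IrrLab 4 Q a) : IrrLab 4 (E3SPat Q) ((1 + a) / 3) :=
  irrLab_E3S_of (fun w => s4_window_of s4_coherent
    (fun hR _ _ _ _ hw hn hne hmono hj hcoh _ hS C hC hCS t ht =>
      s4_pair hR hw hn hne hmono hj hcoh hS C hC hCS t ht) w) Q a ha0 ha hQ

theorem s4_half (p q : ℕ) (h : 2 * p < q) : ∃ (C : Type) (_ : Fintype C)
    (P : Set (Multiset C)), PatVal 4 P ((p : ℝ) / q) ∧ IrrLab 4 P ((p : ℝ) / q) :=
  s4_half_of (fun _ Q a h0 h1 h2 => irrLab_E3S Q a h0 h1 h2)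
    (fun _ _ Q a h0 h1 => patVal_E3S Q a h0 h1) p q h

theorem all_rationals_four : ∀ q : ℚ, 0 ≤ q → q < 1 →
    ∃ (m : ℕ) (F : KGraph 4 (Fin m)), F.edges.Nonempty ∧ HasCodegDensity F (q : ℝ) :=
  all_rationals_four_of s4_half

end CodegDens
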